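import Mathlib

/-!
# Virtually commutative subgroups of free groups are cyclic
-/

namespace RCan

theorem FrF_add (m : ℕ) (x : ℚ) : ((Equiv.addRight (1 : ℚ)) ^ m) x = x + m := by
  induction m generalizing x with
  | zero => simp
  | succ k ih =>
    rw [pow_succ, Equiv.Perm.mul_apply, ih]
    simp only [Equiv.coe_addRight]
    push_cast
    ring

theorem FrF_mul (m : ℕ) (x : ℚ) :
    ((Equiv.mulRight₀ (2 : ℚ) (by norm_num)) ^ m) x = x * 2 ^ m := by
  induction m generalizing x with
  | zero => simp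
  | succ k ih =>
    rw [pow_succ, Equiv.Perm.mul_apply, ih]
    have h : (Equiv.mulRight₀ (2 : ℚ) (by norm_num)) x = x * 2 := rfl
    rw [h]
    ring

/-- In a free group the powers of two different basis elements do not commute. -/
theorem FrF_ne {X : Type*} {a b : X} (hab : a ≠ b) {m : ℕ} (hm : 0 < m) :
    FreeGroup.of a ^ m * FreeGroup.of b ^ m ≠ FreeGroup.of b ^ m * FreeGroup.of a ^ m := by
  classical
  intro h
  let F : FreeGroup X →* Equiv.Perm ℚ := FreeGroup.lift fun x =>
    if x = a then Equiv.addRight (1 : ℚ) else Equiv.mulRight₀ (2 : ℚ) (by norm_num)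
  have ha : F (FreeGroup.of a) = Equiv.addRight (1 : ℚ) := by
    simp [F]
  have hb : F (FreeGroup.of b) = Equiv.mulRight₀ (2 : ℚ) (by norm_num) := by
    simp [F, Ne.symm hab]
  have h1 := congrArg (fun g => (F g) 0) h
  simp only [map_mul, map_pow, ha, hb, Equiv.Perm.mul_apply, FrF_add, FrF_mul] at h1
  have h2 : (1 : ℚ) < 2 ^ m := one_lt_pow₀ (by norm_num) hm.ne'
  have h3 : (0 : ℚ) < m := by exact_mod_cast hm
  nlinarith

/-- Proof. `A` is free (Nielsen-Schreier, `IsFreeGroup A`). If it had two different basis elements `a, b`,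
then for some `m > 0` the powers `a ^ m`, `b ^ m` would be in `B` (finite relative index: apply
`Subgroup.exists_pow_mem_of_index_ne_zero` or the pigeonhole principle to `B.subgroupOf A`), and they
commute; but `a ^ m * b ^ m ≠ b ^ m * a ^ m` in a free group (map to `FreeGroup Bool` or to the permutations of a
finite set or to matrices `[1 m; 0 1]`, `[1 0; m 1]` over `ℤ`). So `A` has at most one basis element `a` and
`A ≤ zpowers a` (or `A = 1`, `w = 1`). -/
theorem free_vab (A B : Subgroup (FreeGroup (Fin 2))) (hBA : B ≤ A) (hfi : B.relIndex A ≠ 0)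
    (hc : ∀ a ∈ B, ∀ b ∈ B, a * b = b * a) : ∃ w, A ≤ Subgroup.zpowers w := by
  classical
  let X := IsFreeGroup.Generators A
  let E : A ≃* FreeGroup X := IsFreeGroup.toFreeGroup A
  have hsub : ∀ a b : X, a = b := by
    intro a b
    by_contra hab
    obtain ⟨m₁, h1, -, h2⟩ := Subgroup.exists_pow_mem_of_index_ne_zero hfi
      (E.symm (FreeGroup.of a))
    obtain ⟨m₂, h3, -, h4⟩ := Subgroup.exists_pow_mem_of_index_ne_zero hfi
      (E.symm (FreeGroup.of b))
    have h5 : E.symm (FreeGroup.of a) ^ (m₁ * m₂) ∈ B.subgroupOf A := by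
      rw [pow_mul]
      exact Subgroup.pow_mem _ h2 _
    have h6 : E.symm (FreeGroup.of b) ^ (m₁ * m₂) ∈ B.subgroupOf A := by
      rw [mul_comm, pow_mul]
      exact Subgroup.pow_mem _ h4 _
    rw [Subgroup.mem_subgroupOf] at h5 h6
    have h7 := hc _ h5 _ h6
    have h8 : E.symm (FreeGroup.of a) ^ (m₁ * m₂) * E.symm (FreeGroup.of b) ^ (m₁ * m₂) =
        E.symm (FreeGroup.of b) ^ (m₁ * m₂) * E.symm (FreeGroup.of a) ^ (m₁ * m₂) :=
      Subtype.ext h7
    have h9 := congrArg E h8
    simp only [map_mul, map_pow, MulEquiv.apply_symm_apply] at h9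
    exact FrF_ne hab (Nat.mul_pos h1 h3) h9
  by_cases hX : Nonempty X
  · obtain ⟨a⟩ := hX
    refine ⟨((E.symm (FreeGroup.of a) : A) : FreeGroup (Fin 2)), ?_⟩
    intro x hx
    have h1 : E ⟨x, hx⟩ ∈ Subgroup.zpowers (FreeGroup.of a) := by
      have h2 : E ⟨x, hx⟩ ∈ Subgroup.closure (Set.range (FreeGroup.of : X → FreeGroup X)) := by
        rw [FreeGroup.closure_range_of]
        trivial
      rw [Subgroup.zpowers_eq_closure]
      refine Subgroup.closure_mono ?_ h2
      rintro _ ⟨b, rfl⟩
      rw [hsub b a]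
      rfl
    obtain ⟨n, hn⟩ := Subgroup.mem_zpowers_iff.1 h1
    rw [Subgroup.mem_zpowers_iff]
    refine ⟨n, ?_⟩
    have h3 : (E.symm (FreeGroup.of a)) ^ n = ⟨x, hx⟩ := by
      apply E.injective
      rw [map_zpow, MulEquiv.apply_symm_apply]
      exact hn
    have h4 := congrArg (fun y : A => (y : FreeGroup (Fin 2))) h3
    simpa using h4
  · refine ⟨1, ?_⟩
    intro x hx
    have h1 : E ⟨x, hx⟩ = 1 := by
      have h2 : E ⟨x, hx⟩ ∈ Subgroup.closure (Set.range (FreeGroup.of : X → FreeGroup X)) := by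
        rw [FreeGroup.closure_range_of]
        trivial
      have h3 : Set.range (FreeGroup.of : X → FreeGroup X) = ∅ := by
        rw [Set.range_eq_empty_iff]
        exact not_nonempty_iff.1 hX
      rw [h3, Subgroup.closure_empty] at h2
      exact Subgroup.mem_bot.1 h2
    have h4 : (⟨x, hx⟩ : A) = 1 := E.injective (by rw [h1, map_one])
    have h5 := congrArg (fun y : A => (y : FreeGroup (Fin 2))) h4
    have h6 : x = 1 := by simpa using h5
    rw [h6]
    exact Subgroup.one_mem _

end RCan
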