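import Pool.Agent.W_04c03c_h58.FrE
import Pool.Agent.W_04c03c_h58.FrF

/-!
# Large groups with finitely many classes of virtually commutative subgroups: fillings are large
-/

namespace RCan

/-- the relative index does not become zero for smaller groups and images -/
theorem FrG_rel {G F : Type*} [Group G] [Group F] {N₀ : Subgroup G} (f : N₀ →* F) (c : G →* G)
    (A H : Subgroup G) (h : A.relIndex H ≠ 0) :
    (((A.comap c).comap N₀.subtype).map f).relIndex (((H.comap c).comap N₀.subtype).map f) ≠ 0 := by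
  rw [← Subgroup.relIndex_comap]
  have h1 : ((A.comap c).comap N₀.subtype).relIndex ((H.comap c).comap N₀.subtype) ≠ 0 := by
    rw [Subgroup.comap_comap, Subgroup.comap_comap, Subgroup.relIndex_comap]
    intro h2
    exact h (Subgroup.relIndex_eq_zero_of_le_right (Subgroup.map_comap_le _ _) h2)
  intro h2
  apply h1
  have h3 := Subgroup.relIndex_dvd_of_le_left ((H.comap c).comap N₀.subtype)
    (Subgroup.le_comap_map f ((A.comap c).comap N₀.subtype))
  rw [h2] at h3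
  exact Nat.eq_zero_of_zero_dvd h3

/-- Let `G` be large and let `H i` be finitely many virtually commutative subgroups. There is a normal
subgroup `N` of finite index such that adding any relations `s = 1`, where the `s ∈ N` are conjugate to
elements of the `H i`, gives a large group.

Proof. Let `N₀ ≤ G` be of finite index and `f : N₀ →* F` surjective, `F = FreeGroup (Fin 2)`. Let `T` be a finite set
with `G = N₀ * T` (representatives). For `i` and `t ∈ T` the image `A i t` under `f` of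
`N₀ ⊓ t * H i * t⁻¹` is virtually commutative, so `A i t ≤ zpowers (w i t)` (`free_vab`; `B` = the image of
`N₀ ⊓ t * A i * t⁻¹`). Enumerate the pairs `(i, t)`, and let `K, θ` be as in `free_kill` for the `w i t`.
`N₁ = {x ∈ N₀ | f x ∈ K}` as a subgroup of `G` has finite index; `N` = its normal core.
Let `S` be as in the statement and `R = normalClosure S ≤ N`. `θ (f x) = 1` for `x ∈ R`: it is enough to check
the conjugates `x = y * s * y⁻¹` (`Subgroup.normalClosure` is the closure of the conjugates of `S`):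
`x ∈ N ≤ N₁`, and `g * s * g⁻¹ ∈ H i` for some `g, i`; write `y * g⁻¹ = n * t` with `n ∈ N₀`, `t ∈ T`; so
`x = n * (t * (g * s * g⁻¹) * t⁻¹) * n⁻¹`, and `t * (g * s * g⁻¹) * t⁻¹ = n⁻¹ * x * n ∈ N₀ ⊓ t * H i * t⁻¹`, so
`f x ∈ f n * zpowers (w i t) * (f n)⁻¹ = zpowers (f n * w i t * (f n)⁻¹)`.
The image `N₂` of `N₁` in `G ⧸ R` has finite index, and `θ ∘ f : N₁ → F` factors through `N₂` (`R ≤ N₁` is in the
kernel), surjectively. So `G ⧸ R` is large. -/
theorem large_fill {G : Type*} [Group G] (hL : Q62.IsLarge G) {ι : Type*} [Finite ι]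
    (H : ι → Subgroup G) (hH : ∀ i, ∃ A : Subgroup G, A ≤ H i ∧ A.relIndex (H i) ≠ 0 ∧
      ∀ a ∈ A, ∀ b ∈ A, a * b = b * a) :
    ∃ N : Subgroup G, N.Normal ∧ N.FiniteIndex ∧ ∀ S : Set G,
      (∀ s ∈ S, s ∈ N ∧ ∃ (g : G) (i : ι), g * s * g⁻¹ ∈ H i) →
        Q62.IsLarge (G ⧸ Subgroup.normalClosure S) := by
  classical
  obtain ⟨N₀, hN₀, f, hf⟩ := hL
  -- the cyclic groups
  have hcyc : ∀ p : ι × (G ⧸ N₀), ∃ w : FreeGroup (Fin 2),
      (((H p.1).comap (MulAut.conj p.2.out).toMonoidHom).comap N₀.subtype).map f ≤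
        Subgroup.zpowers w := by
    rintro ⟨i, q⟩
    obtain ⟨A, hAH, hA, hc⟩ := hH i
    refine free_vab _ (((A.comap (MulAut.conj q.out).toMonoidHom).comap N₀.subtype).map f) ?_
      (FrG_rel f _ A (H i) hA) ?_
    · exact Subgroup.map_mono (Subgroup.comap_mono (Subgroup.comap_mono hAH))
    · rintro _ ⟨x, hx, rfl⟩ _ ⟨y, hy, rfl⟩
      rw [← map_mul, ← map_mul]
      congr 1
      have h1 : q.out * (x : G) * q.out⁻¹ ∈ A := hx
      have h2 : q.out * (y : G) * q.out⁻¹ ∈ A := hy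
      have h3 := hc _ h1 _ h2
      apply Subtype.ext
      change (x : G) * y = y * x
      have h4 : q.out * ((x : G) * y) * q.out⁻¹ = q.out * ((y : G) * x) * q.out⁻¹ := by
        calc q.out * ((x : G) * y) * q.out⁻¹ = q.out * (x : G) * q.out⁻¹ * (q.out * (y : G) * q.out⁻¹) := by
              group
          _ = q.out * (y : G) * q.out⁻¹ * (q.out * (x : G) * q.out⁻¹) := h3
          _ = _ := by group
      exact mul_left_cancel (mul_right_cancel h4)
  choose w hw using hcyc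
  haveI := hN₀
  haveI : Finite (G ⧸ N₀) := Subgroup.finite_quotient_of_finiteIndex
  obtain ⟨n, ⟨e⟩⟩ := Finite.exists_equiv_fin (ι × (G ⧸ N₀))
  obtain ⟨K, hK, θ, hθ, hkill⟩ := free_kill (fun j => w (e.symm j))
  -- the subgroup `N₁`
  obtain ⟨N₁, hN₁⟩ : ∃ N₁ : Subgroup G, N₁ = (K.comap f).map N₀.subtype := ⟨_, rfl⟩
  have hN₁fi : N₁.FiniteIndex := by
    constructor
    rw [hN₁, Subgroup.index_map_subtype, Subgroup.index_comap_of_surjective K hf]
    exact mul_ne_zero hK.index_ne_zero hN₀.index_ne_zero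
  have hmem : ∀ x : G, x ∈ N₁ ↔ ∃ h : x ∈ N₀, f ⟨x, h⟩ ∈ K := by
    intro x
    rw [hN₁, Subgroup.mem_map]
    constructor
    · rintro ⟨y, hy, rfl⟩
      exact ⟨y.2, hy⟩
    · rintro ⟨h, hx⟩
      exact ⟨⟨x, h⟩, hx, rfl⟩
  obtain ⟨Φ, hΦ⟩ : ∃ Φ : N₁ →* FreeGroup (Fin 2), ∀ (x : N₁) (h : (x : G) ∈ N₀)
      (h' : f ⟨x, h⟩ ∈ K), Φ x = θ ⟨f ⟨x, h⟩, h'⟩ := by
    refine ⟨{ toFun := fun x => θ ⟨f ⟨x, ((hmem x).1 x.2).choose⟩, ((hmem x).1 x.2).choose_spec⟩
              map_one' := ?_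
              map_mul' := ?_ }, fun x h h' => rfl⟩
    · rw [← map_one θ]
      congr 1
      exact Subtype.ext (map_one f)
    · intro x y
      rw [← map_mul θ]
      congr 1
      apply Subtype.ext
      change f _ = f _ * f _
      rw [← map_mul]
      rfl
  have hΦs : Function.Surjective Φ := by
    intro z
    obtain ⟨⟨u, hu⟩, rfl⟩ := hθ z
    obtain ⟨x, rfl⟩ := hf u
    have h1 : (x : G) ∈ N₁ := (hmem x).2 ⟨x.2, hu⟩
    exact ⟨⟨x, h1⟩, hΦ ⟨x, h1⟩ x.2 hu⟩
  haveI := hN₁fi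
  refine ⟨N₁.normalCore, inferInstance, inferInstance, ?_⟩
  intro S hS
  -- the relations are in the kernel of `Φ`
  have hR : Subgroup.normalClosure S ≤ Φ.ker.map N₁.subtype := by
    unfold Subgroup.normalClosure
    rw [Subgroup.closure_le]
    intro x hx
    obtain ⟨s, hs, hsx⟩ := Group.mem_conjugatesOfSet_iff.1 hx
    obtain ⟨c, rfl⟩ := isConj_iff.1 hsx
    obtain ⟨hsN, g, i, hgi⟩ := hS s hs
    have hxN : c * s * c⁻¹ ∈ N₁.normalCore := (inferInstance : N₁.normalCore.Normal).conj_mem s hsN c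
    have hxN₁ : c * s * c⁻¹ ∈ N₁ := N₁.normalCore_le hxN
    obtain ⟨hx0, hxK⟩ := (hmem _).1 hxN₁
    refine ⟨⟨_, hxN₁⟩, ?_, rfl⟩
    rw [SetLike.mem_coe, MonoidHom.mem_ker, hΦ ⟨_, hxN₁⟩ hx0 hxK]
    obtain ⟨q, hq⟩ : ∃ q : G ⧸ N₀, q = QuotientGroup.mk (g * c⁻¹) := ⟨_, rfl⟩
    have hm : q.out⁻¹ * (g * c⁻¹) ∈ N₀ := by
      rw [← QuotientGroup.eq, QuotientGroup.out_eq', hq]
    obtain ⟨m, hmd⟩ : ∃ m : N₀, (m : G) = q.out⁻¹ * (g * c⁻¹) := ⟨⟨_, hm⟩, rfl⟩
    obtain ⟨y, hy⟩ : ∃ y : N₀, y = m * ⟨c * s * c⁻¹, hx0⟩ * m⁻¹ := ⟨_, rfl⟩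
    have hyH : q.out * (y : G) * q.out⁻¹ ∈ H i := by
      have h1 : q.out * (y : G) * q.out⁻¹ = g * s * g⁻¹ := by
        rw [hy]
        change q.out * ((m : G) * (c * s * c⁻¹) * (m : G)⁻¹) * q.out⁻¹ = _
        rw [hmd]
        group
      rw [h1]
      exact hgi
    have hfy : f y ∈ Subgroup.zpowers (w (i, q)) := by
      apply hw (i, q)
      exact ⟨y, hyH, rfl⟩
    have hfx : f ⟨c * s * c⁻¹, hx0⟩ = (f m)⁻¹ * f y * ((f m)⁻¹)⁻¹ := by
      rw [hy, map_mul, map_mul, map_inv]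
      group
    have hkey := hkill (e (i, q)) ((f m)⁻¹) ⟨f ⟨c * s * c⁻¹, hx0⟩, hxK⟩
    apply hkey
    beta_reduce
    rw [Equiv.symm_apply_apply]
    obtain ⟨k, hk⟩ := Subgroup.mem_zpowers_iff.1 hfy
    refine Subgroup.mem_zpowers_iff.2 ⟨k, ?_⟩
    change _ = f ⟨c * s * c⁻¹, hx0⟩
    rw [hfx, ← hk, conj_zpow]
  -- the quotient
  obtain ⟨R, hRd⟩ : ∃ R : Subgroup G, R = Subgroup.normalClosure S := ⟨_, rfl⟩
  obtain ⟨ρ, hρ⟩ : ∃ ρ : N₁ →* (N₁.map (QuotientGroup.mk' (Subgroup.normalClosure S))),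
      ρ = (QuotientGroup.mk' (Subgroup.normalClosure S)).subgroupMap N₁ := ⟨_, rfl⟩
  have hρs : Function.Surjective ρ := by
    rw [hρ]
    exact MonoidHom.subgroupMap_surjective _ _
  have hker : ρ.ker ≤ Φ.ker := by
    intro x hx
    have h1 : QuotientGroup.mk' (Subgroup.normalClosure S) (x : G) = 1 := by
      have h2 := congrArg Subtype.val (MonoidHom.mem_ker.1 hx)
      rw [hρ] at h2
      exact h2
    have h3 : (x : G) ∈ Subgroup.normalClosure S := (QuotientGroup.eq_one_iff _).1 h1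
    obtain ⟨y, hy, hyx⟩ := hR h3
    have h4 : y = x := Subtype.ext hyx
    rw [← h4]
    exact hy
  refine ⟨N₁.map (QuotientGroup.mk' (Subgroup.normalClosure S)), ?_,
    ρ.liftOfSurjective hρs ⟨Φ, hker⟩, ?_⟩
  · constructor
    intro h0
    have h1 := Subgroup.index_map_dvd (H := N₁)
      (QuotientGroup.mk'_surjective (Subgroup.normalClosure S))
    rw [h0] at h1
    exact hN₁fi.index_ne_zero (Nat.eq_zero_of_zero_dvd h1)
  · intro z
    obtain ⟨x, rfl⟩ := hΦs z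
    refine ⟨ρ x, ?_⟩
    exact MonoidHom.liftOfRightInverse_comp_apply _ _ _ ⟨Φ, hker⟩ x

end RCan
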