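import Pool.Agent.W_04c03c_h58.Inf

/-!
# The modules of finitely supported alternating relative cochains
-/

namespace RCan

/-- torsion-free groups -/
def TFree (N : Type*) [Group N] : Prop := ∀ (g : N) (n : ℕ), 0 < n → g ^ n = 1 → g = 1

section tr

variable {N V : Type*} [Group N] [MulAction N V]

/-- translate of a cochain -/
def tr {A : Type*} (g : N) (f : List V → A) : List V → A := fun l => f (l.map (fun x => g⁻¹ • x))

theorem tr_apply {A : Type*} (g : N) (f : List V → A) (l : List V) :
    tr g f l = f (l.map (fun x => g⁻¹ • x)) := rfl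

theorem map_smul_smul (g h : N) (l : List V) :
    (l.map (fun x => g • x)).map (fun x => h • x) = l.map (fun x => (h * g) • x) := by
  rw [List.map_map]
  congr 1
  funext x
  exact (mul_smul h g x).symm

theorem map_one_smul (l : List V) : l.map (fun x => (1 : N) • x) = l := by
  simp

theorem tr_one {A : Type*} (f : List V → A) : tr (1 : N) f = f := by
  funext l
  rw [tr_apply, inv_one, map_one_smul]

theorem tr_mul {A : Type*} (g h : N) (f : List V → A) : tr (g * h) f = tr g (tr h f) := by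
  funext l
  rw [tr_apply, tr_apply, tr_apply, map_smul_smul, mul_inv_rev]

theorem co_tr {A : Type*} [AddCommGroup A] (g : N) (f : List V → A) : co (tr g f) = tr g (co f) := by
  funext l
  exact (co_map (fun x => g⁻¹ • x) f l).symm

end tr

section

variable {N Ξ V : Type*} [Group N] [MulAction N Ξ] [MulAction N V] {sm : V → V → Prop}
  {cusp : V → Option Ξ}

theorem sml_smul (h : ∀ (g : N) (v w : V), sm v w → sm (g • v) (g • w)) (g : N) (l : List V) :
    Sml sm (l.map (fun x => g • x)) ↔ Sml sm l := by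
  constructor
  · intro hl x hx y hy
    have h1 := h g⁻¹ _ _ (hl (g • x) (List.mem_map_of_mem hx) (g • y) (List.mem_map_of_mem hy))
    rwa [inv_smul_smul, inv_smul_smul] at h1
  · intro hl x hx y hy
    rw [List.mem_map] at hx hy
    obtain ⟨x, hx, rfl⟩ := hx
    obtain ⟨y, hy, rfl⟩ := hy
    exact h g x y (hl x hx y hy)

theorem inC_smul (h : ∀ (g : N) (v : V), cusp (g • v) = (cusp v).map (fun ξ => g • ξ)) (g : N)
    (l : List V) : InC cusp (l.map (fun x => g • x)) ↔ InC cusp l := by
  have key : ∀ (g : N) (l : List V), InC cusp l → InC cusp (l.map (fun x => g • x)) := by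
    rintro g l ⟨ξ, hξ⟩
    refine ⟨g • ξ, ?_⟩
    intro x hx
    rw [List.mem_map] at hx
    obtain ⟨x, hx, rfl⟩ := hx
    rw [h, hξ x hx]
    rfl
  constructor
  · intro hl
    have := key g⁻¹ _ hl
    rwa [map_smul_smul, inv_mul_cancel, map_one_smul] at this
  · exact key g l

theorem cr_tr {A : Type*} [AddCommGroup A]
    (h : ∀ (g : N) (v w : V), sm v w → sm (g • v) (g • w)) (g : N) (f : List V → A) :
    cr sm (tr g f) = tr g (cr sm f) := by
  funext l
  rw [tr_apply]
  unfold cr
  by_cases hl : Sml sm l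
  · rw [if_pos hl, if_pos ((sml_smul h g⁻¹ l).2 hl), co_tr, tr_apply]
  · rw [if_neg hl, if_neg (fun h1 => hl ((sml_smul h g⁻¹ l).1 h1))]

theorem IsD.tr {k : Type*} [AddCommGroup k] (h : ∀ (g : N) (v w : V), sm v w → sm (g • v) (g • w))
    (h' : ∀ (g : N) (v : V), cusp (g • v) = (cusp v).map (fun ξ => g • ξ)) {n : ℕ} {f : List V → k}
    (hf : IsD sm cusp k n f) (g : N) : IsD sm cusp k n (tr g f) := by
  refine ⟨hf.alt.map _, ?_, ?_, ?_⟩
  · intro l hl
    have := hf.len _ hl
    simpa using this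
  · intro l hl
    have := hf.rl _ hl
    exact ⟨(sml_smul h g⁻¹ l).1 this.1, fun h1 => this.2 ((inC_smul h' g⁻¹ l).2 h1)⟩
  · have h1 : Function.support (RCan.tr g f) ⊆ (fun l => l.map (fun x => g • x)) '' Function.support f := by
      intro l hl
      refine ⟨l.map (fun x => g⁻¹ • x), hl, ?_⟩
      show (l.map (fun x => g⁻¹ • x)).map (fun x => g • x) = l
      rw [map_smul_smul, mul_inv_cancel, map_one_smul]
    exact (hf.fin.image _).subset h1

/-- Proof. Only the finiteness of the support is not contained in `IsR.cr`. Let `F` be as in `hF.fin`. If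
`cr sm f l ≠ 0` then `l` is relative (`IsR.cr`), of length `n + 2`, so `l₀ = l.map (g • ·)` has entries in
`F` for some `g`, and some face `l'` of `l` is in the support of `f` (`dl_eq_zero`), of length `n + 1 ≥ 1`.
An entry `y` of `l'` is `g⁻¹ • x` with `x ∈ F`. The pairs `(x, y)`, `x ∈ F`, `y` an entry of a list in the
support of `f`, are finite in number and determine `g⁻¹` by `hF.free`. So there are finitely many `l₀`
and `g`. -/
theorem IsD.cr {k : Type*} [AddCommGroup k] (hF : Face N Ξ V sm cusp) {n : ℕ} {f : List V → k}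
    (hf : IsD sm cusp k n f) : IsD sm cusp k (n + 1) (RCan.cr sm f) := by
  classical
  have hR : IsR sm cusp k (n + 1) (RCan.cr sm f) := IsR.cr ⟨hf.alt, hf.len, hf.rl⟩
  refine ⟨hR.alt, hR.len, hR.rl, ?_⟩
  obtain ⟨F, hFf, hF2⟩ := hF.fin
  let S₀ : Set (List V) := {l | (∀ x ∈ l, x ∈ F) ∧ l.length = n + 1 + 1}
  have hS₀ : S₀.Finite := by
    have : Finite F := hFf
    have h1 : ((fun l : List F => l.map (Subtype.val : F → V)) ''
        {l : List F | l.length = n + 1 + 1}).Finite :=
      (List.finite_length_eq F (n + 1 + 1)).image _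
    refine h1.subset ?_
    rintro l ⟨hl1, hl2⟩
    refine ⟨l.attach.map (fun x => ⟨x.1, hl1 x.1 x.2⟩), ?_, ?_⟩
    · simpa using hl2
    · show (l.attach.map (fun x => (⟨x.1, hl1 x.1 x.2⟩ : F))).map Subtype.val = l
      rw [List.map_map]
      exact List.attach_map_subtype_val l
  let Y : Set V := ⋃ l ∈ Function.support f, {y | y ∈ l}
  have hY : Y.Finite := hf.fin.biUnion (fun l _ => List.finite_toSet l)
  let G₀ : Set N := ⋃ x ∈ F, ⋃ y ∈ Y, {g : N | g • y = x}
  have hG₀ : G₀.Finite := by
    refine hFf.biUnion (fun x _ => hY.biUnion (fun y _ => ?_))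
    refine Set.Subsingleton.finite ?_
    intro g hg g' hg'
    have h1 : g • y = g' • y := by
      rw [show g • y = x from hg, show g' • y = x from hg']
    have h2 : (g'⁻¹ * g) • y = y := by
      rw [mul_smul, h1, inv_smul_smul]
    have h3 := hF.free _ _ h2
    rw [inv_mul_eq_one] at h3
    exact h3.symm
  refine (Set.Finite.image2 (fun (g : N) (l : List V) => l.map (fun x => g⁻¹ • x)) hG₀ hS₀).subset ?_
  intro l hl
  have hrl := hR.rl l hl
  have hlen := hR.len l hl
  obtain ⟨g, hg⟩ := hF2 l hrl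
  refine ⟨g, ?_, l.map (fun x => g • x), ⟨?_, ?_⟩, ?_⟩
  · obtain ⟨l', hl'1, hl'2, hl'3⟩ : ∃ l' : List V, l'.Sublist l ∧ l'.length + 1 = l.length ∧
        f l' ≠ 0 := by
      by_contra hcon
      push Not at hcon
      apply hl
      unfold RCan.cr
      split_ifs
      · exact dl_eq_zero l hcon
      · rfl
    have h4 := hf.len l' hl'3
    obtain ⟨y, hy⟩ : ∃ y, y ∈ l' := List.exists_mem_of_length_pos (by omega)
    refine Set.mem_biUnion (hg y (hl'1.subset hy)) ?_
    refine Set.mem_biUnion (x := y) ?_ rfl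
    exact Set.mem_biUnion (x := l') hl'3 hy
  · intro x hx
    rw [List.mem_map] at hx
    obtain ⟨x, hx, rfl⟩ := hx
    exact hg x hx
  · rw [List.length_map, hlen]
  · show (l.map (fun x => g • x)).map (fun x => g⁻¹ • x) = l
    rw [map_smul_smul, inv_mul_cancel, map_one_smul]

end

/-- the submodule of finitely supported alternating relative cochains -/
def DSub {Ξ V : Type*} (sm : V → V → Prop) (cusp : V → Option Ξ) (k : Type*) [Field k] (n : ℕ) :
    Submodule k (List V → k) where
  carrier := {f | IsD sm cusp k n f}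
  zero_mem' := ⟨Alt.zero, fun l hl => absurd rfl hl, fun l hl => absurd rfl hl, by simp⟩
  add_mem' := fun {a b} ha hb => IsD.add (sm := sm) (cusp := cusp) ha hb
  smul_mem' := by
    intro c f hf
    refine ⟨Alt.hom (DistribSMul.toAddMonoidHom k c) hf.alt, ?_, ?_, ?_⟩
    · intro l hl
      exact hf.len l (fun h => hl (by simp [h]))
    · intro l hl
      exact hf.rl l (fun h => hl (by simp [h]))
    · exact hf.fin.subset (fun l hl => fun h => hl (by simp [h]))

section

variable {N Ξ V : Type*} [Group N] [MulAction N Ξ] [MulAction N V] {sm : V → V → Prop}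
  {cusp : V → Option Ξ}

theorem mem_DSub {k : Type*} [Field k] {n : ℕ} {f : List V → k} :
    f ∈ DSub sm cusp k n ↔ IsD sm cusp k n f := Iff.rfl

/-- translation on `DSub` -/
def trD (hF : Face N Ξ V sm cusp) (k : Type*) [Field k] (n : ℕ) (g : N) :
    DSub sm cusp k n →ₗ[k] DSub sm cusp k n where
  toFun f := ⟨tr g f.1, IsD.tr hF.smul_sm hF.cusp_smul f.2 g⟩
  map_add' _ _ := rfl
  map_smul' _ _ := rfl

/-- the coboundary on `DSub` -/
noncomputable def crD (hF : Face N Ξ V sm cusp) (k : Type*) [Field k] (n : ℕ) :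
    DSub sm cusp k n →ₗ[k] DSub sm cusp k (n + 1) where
  toFun f := ⟨cr sm f.1, IsD.cr hF f.2⟩
  map_add' f g := Subtype.ext (cr_add f.1 g.1)
  map_smul' c f := by
    apply Subtype.ext
    funext l
    show cr sm (c • f.1) l = c • cr sm f.1 l
    unfold cr
    split_ifs
    · exact dl_smul c l f.1
    · simp

theorem trD_coe (hF : Face N Ξ V sm cusp) {k : Type*} [Field k] {n : ℕ} (g : N)
    (f : DSub sm cusp k n) : (trD hF k n g f).1 = tr g f.1 := rfl

theorem crD_coe (hF : Face N Ξ V sm cusp) {k : Type*} [Field k] {n : ℕ}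
    (f : DSub sm cusp k n) : (crD hF k n f).1 = cr sm f.1 := rfl

theorem trD_mul (hF : Face N Ξ V sm cusp) {k : Type*} [Field k] {n : ℕ} (g h : N)
    (f : DSub sm cusp k n) : trD hF k n (g * h) f = trD hF k n g (trD hF k n h f) :=
  Subtype.ext (tr_mul g h f.1)

theorem trD_one (hF : Face N Ξ V sm cusp) {k : Type*} [Field k] {n : ℕ}
    (f : DSub sm cusp k n) : trD hF k n 1 f = f :=
  Subtype.ext (tr_one f.1)

theorem crD_trD (hF : Face N Ξ V sm cusp) {k : Type*} [Field k] {n : ℕ} (g : N)
    (f : DSub sm cusp k n) : crD hF k n (trD hF k n g f) = trD hF k (n + 1) g (crD hF k n f) :=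
  Subtype.ext (cr_tr hF.smul_sm g f.1)

theorem crD_crD (hF : Face N Ξ V sm cusp) {k : Type*} [Field k] {n : ℕ} (f : DSub sm cusp k n) :
    crD hF k (n + 1) (crD hF k n f) = 0 :=
  Subtype.ext (cr_cr f.1)

/-- vanishing of the cohomology in degree `n + 1` for `n = 1` and `n ≥ 3` -/
theorem exists_crD (hF : Face N Ξ V sm cusp) (k : Type) [Field k] {n : ℕ} (hn : n = 1 ∨ 3 ≤ n)
    (f : DSub sm cusp k (n + 1)) (hf : crD hF k (n + 1) f = 0) :
    ∃ e : DSub sm cusp k n, crD hF k n e = f := by
  have h0 : cr sm f.1 = 0 := congrArg Subtype.val hf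
  rcases hn with rfl | hn
  · obtain ⟨e, he, h⟩ := hF.h2 k f.1 f.2 h0
    exact ⟨⟨e, he⟩, Subtype.ext h⟩
  · obtain ⟨e, he, h⟩ := hF.hn k n hn f.1 f.2 h0
    exact ⟨⟨e, he⟩, Subtype.ext h⟩

end

end RCan
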