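import Pool.Agent.W_04c03c_h58.AlgA

/-!
# Representatives of the relative simplices modulo the group, and delta functions
-/

namespace RCan

variable {N Ξ V : Type*} [Group N] [MulAction N Ξ] [MulAction N V] {sm : V → V → Prop}
  {cusp : V → Option Ξ}

theorem AlgB_Rl_perm {l l' : List V} (h : l.Perm l') (hl : Rl sm cusp l) : Rl sm cusp l' := by
  refine ⟨fun x hx y hy => hl.1 x (h.mem_iff.2 hx) y (h.mem_iff.2 hy), ?_⟩
  rintro ⟨ξ, hξ⟩
  exact hl.2 ⟨ξ, fun x hx => hξ x (h.mem_iff.1 hx)⟩

/-- Lists are equivalent if one is a permutation of a translate of the other. -/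
def AlgB_setoid (N V : Type*) [Group N] [MulAction N V] : Setoid (List V) where
  r l l' := ∃ g : N, l.Perm (l'.map (fun x => g • x))
  iseqv := by
    refine ⟨fun l => ⟨1, ?_⟩, ?_, ?_⟩
    · rw [map_one_smul]
    · rintro l l' ⟨g, hg⟩
      refine ⟨g⁻¹, ?_⟩
      have h1 := hg.map (fun x => g⁻¹ • x)
      rw [map_smul_smul, inv_mul_cancel, map_one_smul] at h1
      exact h1.symm
    · rintro l l' l'' ⟨g, hg⟩ ⟨g', hg'⟩
      refine ⟨g * g', hg.trans ?_⟩
      have h1 := hg'.map (fun x => g • x)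
      rw [map_smul_smul] at h1
      exact h1

theorem AlgB_finite_lists {F : Set V} (hF : F.Finite) (m : ℕ) :
    ({l : List V | (∀ x ∈ l, x ∈ F) ∧ l.length = m} : Set (List V)).Finite := by
  haveI : Finite F := hF
  refine ((List.finite_length_eq F m).image (List.map Subtype.val)).subset ?_
  rintro l ⟨hl, hm⟩
  lift l to List F using hl
  exact ⟨l, by simpa using hm, rfl⟩

theorem AlgB_unique (hfree : ∀ (g : N) (v : V), g • v = v → g = 1) (hT : TFree N) {s : List V}
    (hs : s ≠ []) {g g' : N} (h : (s.map (fun x => g' • x)).Perm (s.map (fun x => g • x))) :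
    g' = g := by
  have h1 := h.map (fun x => g⁻¹ • x)
  rw [map_smul_smul, map_smul_smul, inv_mul_cancel, map_one_smul] at h1
  obtain ⟨x, hx⟩ := List.exists_mem_of_ne_nil s hs
  have hstep : ∀ y ∈ s, (g⁻¹ * g') • y ∈ s := fun y hy =>
    h1.mem_iff.1 (List.mem_map.2 ⟨y, hy, rfl⟩)
  have hpow : ∀ i : ℕ, (g⁻¹ * g') ^ i • x ∈ s := by
    intro i
    induction i with
    | zero => rwa [pow_zero, one_smul]
    | succ i ih =>
      rw [pow_succ', mul_smul]
      exact hstep _ ih
  obtain ⟨i, j, hij, he⟩ := Set.Finite.exists_lt_map_eq_of_forall_mem (t := {y | y ∈ s})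
    (f := fun i : ℕ => (g⁻¹ * g') ^ i • x) hpow (List.finite_toSet s)
  have h2 : (g⁻¹ * g') ^ (j - i) • x = x := by
    have h3 : (g⁻¹ * g') ^ j • x = (g⁻¹ * g') ^ i • ((g⁻¹ * g') ^ (j - i) • x) := by
      rw [smul_smul, ← pow_add, Nat.add_sub_cancel' hij.le]
    have h4 : (g⁻¹ * g') ^ i • ((g⁻¹ * g') ^ (j - i) • x) = (g⁻¹ * g') ^ i • x := by
      rw [← h3]
      exact he.symm
    exact MulAction.injective _ h4
  have h5 := hT _ (j - i) (by omega) (hfree _ _ h2)
  exact (inv_mul_eq_one.1 h5).symm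

/-- Representatives.

Proof. Let `L` be the set of relative lists without repeated entries of length `n + 1`, with the
equivalence relation `l ~ l'` iff `∃ g, l.Perm (l'.map (g • ·))`. Every class contains a list with
entries in the finite set `F` of `hF.fin`, so there are finitely many classes; `ι` = the quotient,
`σ i = i.out`. Uniqueness of `h`: if `l` is a permutation of `(σ i).map (g • ·)` and of
`(σ i).map (h • ·)` then `a = g⁻¹ h` maps the finite nonempty set of the entries of `σ i` to itself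
bijectively (the two lists `(σ i).map (a • ·)` and `σ i` are permutations of each other); so some power
`a ^ m`, `m > 0`, fixes an entry (a permutation of a finite set has finite order: iterate `a` on an entry
`x` and use the pigeonhole principle: `a ^ i • x = a ^ j • x`), `a ^ m = 1` by `hF.free` and `a = 1` by
`hT`. Rl is invariant under permutation of the list. -/
theorem exists_reps (hF : Face N Ξ V sm cusp) (hT : TFree N) (n : ℕ) :
    ∃ (R : Finset (List V)),
      (∀ s ∈ R, s.Nodup ∧ Rl sm cusp s ∧ s.length = n + 1) ∧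
      ∀ l : List V, l.Nodup → Rl sm cusp l → l.length = n + 1 →
        ∃ s ∈ R, ∃ g : N, l.Perm (s.map (fun x => g • x)) ∧
          ∀ s' ∈ R, ∀ g' : N, l.Perm (s'.map (fun x => g' • x)) → s' = s ∧ g' = g := by
  classical
  obtain ⟨F, hFf, hFl⟩ := hF.fin
  set S : Setoid (List V) := AlgB_setoid N V with hS
  set rep : List V → List V := fun l => (Quotient.mk S l).out with hrep
  have rep_rel : ∀ l, ∃ g : N, (rep l).Perm (l.map (fun x => g • x)) := fun l =>
    Quotient.mk_out (s := S) l
  have rep_eq : ∀ l l' : List V, (∃ g : N, l.Perm (l'.map (fun x => g • x))) → rep l = rep l' :=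
    fun l l' h => congrArg Quotient.out (Quotient.sound (s := S) h)
  have hfinL : ({l : List V | (∀ x ∈ l, x ∈ F) ∧ l.length = n + 1} : Set (List V)).Finite :=
    AlgB_finite_lists hFf (n + 1)
  have hL : ({l : List V | (l.Nodup ∧ Rl sm cusp l ∧ l.length = n + 1) ∧ ∀ x ∈ l, x ∈ F} :
      Set (List V)).Finite := hfinL.subset fun l hl => ⟨hl.2, hl.1.2.2⟩
  have hinv : ∀ (l : List V) (g : N), (l.Nodup ∧ Rl sm cusp l ∧ l.length = n + 1) →
      ((l.map (fun x => g • x)).Nodup ∧ Rl sm cusp (l.map (fun x => g • x)) ∧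
        (l.map (fun x => g • x)).length = n + 1) := by
    intro l g hl
    refine ⟨hl.1.map (MulAction.injective g), ⟨(sml_smul hF.smul_sm g l).2 hl.2.1.1, fun h =>
      hl.2.1.2 ((inC_smul hF.cusp_smul g l).1 h)⟩, ?_⟩
    rw [List.length_map]
    exact hl.2.2
  have hperm : ∀ l l' : List V, l.Perm l' → (l.Nodup ∧ Rl sm cusp l ∧ l.length = n + 1) →
      (l'.Nodup ∧ Rl sm cusp l' ∧ l'.length = n + 1) := by
    intro l l' h hl
    exact ⟨h.nodup_iff.1 hl.1, AlgB_Rl_perm h hl.2.1, h.length_eq ▸ hl.2.2⟩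
  refine ⟨hL.toFinset.image rep, ?_, ?_⟩
  · intro s hs
    obtain ⟨l, hl, rfl⟩ := Finset.mem_image.1 hs
    have hl' := (hL.mem_toFinset.1 hl).1
    obtain ⟨g, hg⟩ := rep_rel l
    exact hperm _ _ hg.symm (hinv l g hl')
  · intro l hl1 hl2 hl3
    obtain ⟨g, hg⟩ := hFl l hl2
    have hl' := hinv l g ⟨hl1, hl2, hl3⟩
    have hmem : l.map (fun x => g • x) ∈ hL.toFinset := by
      rw [hL.mem_toFinset]
      refine ⟨hl', fun x hx => ?_⟩
      obtain ⟨y, hy, rfl⟩ := List.mem_map.1 hx
      exact hg y hy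
    have hrr : rep (l.map (fun x => g • x)) = rep l := rep_eq _ _ ⟨g, List.Perm.refl _⟩
    obtain ⟨b, hb⟩ := rep_rel l
    have hb' : l.Perm ((rep l).map (fun x => b⁻¹ • x)) := by
      have h1 := hb.map (fun x => b⁻¹ • x)
      rw [map_smul_smul, inv_mul_cancel, map_one_smul] at h1
      exact h1.symm
    refine ⟨rep l, Finset.mem_image.2 ⟨_, hmem, hrr⟩, b⁻¹, hb', ?_⟩
    intro s' hs' g' hg'
    obtain ⟨l2, hl2', rfl⟩ := Finset.mem_image.1 hs'
    have h1 : rep l2 = rep l := by
      rw [rep_eq l (rep l2) ⟨g', hg'⟩]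
      obtain ⟨c, hc⟩ := rep_rel l2
      exact (rep_eq (rep l2) l2 ⟨c, hc⟩).symm
    refine ⟨h1, ?_⟩
    rw [h1] at hg'
    have hlen : (rep l) ≠ [] := by
      intro h0
      have h2 := hb'.length_eq
      rw [h0, hl3] at h2
      simp at h2
    exact AlgB_unique hF.free hT hlen (hg'.symm.trans hb')

/-- Two alternating functions are proportional on the permutations of a list.

Proof. Choose a linear order on `V`; `rr_alt`: `f l = sgn l • f (srt l)` and the same for `f'`, `l'`;
`srt l = srt l'` (`List.Perm.insertionSort_eq` or uniqueness of sorted lists). -/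
theorem alt_cross {k : Type*} [CommRing k] {f f' : List V → k} (hf : Alt f) (hf' : Alt f')
    {l l' : List V} (h : l.Perm l') : f l * f' l' = f l' * f' l := by
  classical
  letI : LinearOrder V := IsWellOrder.linearOrder WellOrderingRel
  by_cases hl : l.Nodup
  · obtain ⟨ε, h1, h2, h3⟩ := AltC_perm hf h []
    obtain ⟨δ, d1, d2, d3⟩ := AltC_perm hf' h []
    rw [List.nil_append, List.nil_append] at h2 h3 d2 d3
    have h0 : sgn l ≠ 0 := fun h0 => (sgn_eq_zero.1 h0) hl
    have he : ε = δ := mul_right_cancel₀ h0 (h2.symm.trans d2)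
    rw [h3, d3, he, mul_smul_comm, smul_mul_assoc]
  · rw [hf.not_nodup hl, hf'.not_nodup hl, zero_mul, mul_zero]

/-- Delta functions.

Proof. With a linear order on `V`: `e l = if l.Perm s then ((sgn l * sgn s : ℤ) : k) else 0`.
Alternating by `alt_sgn` and `Alt.ite`-like arguments (for a list without repeated entries `l.Perm s` is
not changed by swapping two entries; on lists with repeated entries `sgn l = 0`); `sgn s = 1` or `-1`
(`s.Nodup`; `sgn` is a product of `0, 1, -1`). -/
theorem exists_delta (k : Type*) [Field k] {n : ℕ} {s : List V} (hs : s.Nodup)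
    (hr : Rl sm cusp s) (hl : s.length = n + 1) :
    ∃ e : DSub sm cusp k n, e.1 s = 1 ∧ ∀ l, e.1 l ≠ 0 → l.Perm s := by
  classical
  letI : LinearOrder V := IsWellOrder.linearOrder WellOrderingRel
  have hss : sgn s * sgn s = 1 := by
    obtain ⟨ε, h1, h2, _⟩ := AltC_perm (alt_sgn (V := V)) (AltC_srt_perm s) []
    rw [List.nil_append, List.nil_append, sgn_sorted (AltC_srt_lt hs), mul_one] at h2
    rw [h2, h1]
  have halt0 : Alt (fun l : List V => ((sgn l * sgn s : ℤ) : k)) := by
    have := Alt.hom ((Int.castAddHom k).comp (AddMonoidHom.mulRight (sgn s))) (alt_sgn (V := V))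
    exact this
  have halt := Alt.ite (fun l : List V => l ⊆ s ∧ s ⊆ l) (by
    intro l l' h h'
    exact ⟨fun hh => ⟨fun x hx => hh.1 (h' hx), fun x hx => h (hh.2 hx)⟩,
      fun hh => ⟨fun x hx => hh.1 (h hx), fun x hx => h' (hh.2 hx)⟩⟩) halt0
  have hsup : ∀ l : List V, (if l ⊆ s ∧ s ⊆ l then ((sgn l * sgn s : ℤ) : k) else 0) ≠ 0 →
      l.Perm s := by
    intro l hl'
    by_cases h : l ⊆ s ∧ s ⊆ l
    · rw [if_pos h] at hl'
      have hnd : l.Nodup := by
        by_contra hnd
        apply hl'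
        rw [sgn_eq_zero.2 hnd, zero_mul, Int.cast_zero]
      exact (List.perm_ext_iff_of_nodup hnd hs).2 fun x => ⟨fun hx => h.1 hx, fun hx => h.2 hx⟩
    · rw [if_neg h] at hl'
      exact absurd rfl hl'
  refine ⟨⟨fun l => if l ⊆ s ∧ s ⊆ l then ((sgn l * sgn s : ℤ) : k) else 0, ⟨halt, ?_, ?_, ?_⟩⟩,
    ?_, hsup⟩
  · intro l hl'
    rw [(hsup l hl').length_eq, hl]
  · intro l hl'
    exact AlgB_Rl_perm (hsup l hl').symm hr
  · refine (List.finite_toSet s.permutations).subset fun l hl' => ?_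
    exact List.mem_permutations.2 (hsup l hl')
  · show (if s ⊆ s ∧ s ⊆ s then ((sgn s * sgn s : ℤ) : k) else 0) = 1
    rw [if_pos ⟨List.Subset.refl _, List.Subset.refl _⟩, hss, Int.cast_one]

end RCan
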