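import Pool.Agent.W_04c03c_h58.AlgB

/-!
# The module of cochains is free
-/

namespace RCan

variable {N Ξ V : Type*} [Group N] [MulAction N Ξ] [MulAction N V] {sm : V → V → Prop}
  {cusp : V → Option Ξ}

/-- An equivariant basis.

Proof. Let `R` be as in `exists_reps`, `e s` the delta function of `s ∈ R`, and
`b (s, g) = trD hF k n g (e s)`. For `f ∈ DSub` the coordinates are `f ((s.map (g • ·)))`:
`Σ_{s ∈ R} Σ_g f (s.map (g • ·)) • tr g (e s) = f` (finite sum since `f` has finite support and
`g ↦ s.map (g • ·)` is injective, `hF.free`, `s ≠ []`): evaluate at `l`. If `l` is not relative without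
repeated entries of length `n + 1`, both sides are `0` (`Alt.not_nodup`). Otherwise only the term of the
unique `(s, g)` with `l.Perm (s.map (g • ·))` is nonzero, and by `alt_cross` for the alternating functions
`m ↦ f (m.map (g • ·))` and `e s` on `m = l.map (g⁻¹ • ·)`, a permutation of `s`:
`f (s.map (g • ·)) * e s (l.map (g⁻¹ • ·)) = f l * e s s = f l`. Conversely the coordinates of
`Σ c (s, g) b (s, g)` are `c (s, g)`: `tr g (e s) (s'.map (g' • ·))` is `1` if `(s, g) = (s', g')` and `0`
otherwise (uniqueness in `exists_reps`). So `Basis.ofRepr` of the linear equivalence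
`DSub ≃ₗ[k] ((R × N) →₀ k)`. -/
theorem exists_basis (hF : Face N Ξ V sm cusp) (hT : TFree N) (k : Type*) [Field k] (n : ℕ) :
    ∃ (R : Finset (List V)) (b : Module.Basis (R × N) k (DSub sm cusp k n)),
      (∀ s ∈ R, Rl sm cusp s ∧ s.length = n + 1) ∧
      (∀ l : List V, l.Nodup → Rl sm cusp l → l.length = n + 1 →
        ∃ s ∈ R, ∃ g : N, l.Perm (s.map (fun x => g • x))) ∧
      (∀ (g : N) (s : R) (h : N), trD hF k n g (b (s, h)) = b (s, g * h)) ∧
      ∀ (f : DSub sm cusp k n) (s : R) (g : N),
        b.repr f (s, g) = f.1 (s.1.map (fun x => g • x)) := by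
  classical
  obtain ⟨R, hR, hR'⟩ := exists_reps hF hT n
  -- the translates of the representatives
  let φ : R × N → List V := fun p => p.1.1.map (fun x => p.2 • x)
  have hφ : ∀ p : R × N, (φ p).Nodup ∧ Rl sm cusp (φ p) ∧ (φ p).length = n + 1 := by
    rintro ⟨⟨s, hs⟩, g⟩
    obtain ⟨h1, h2, h3⟩ := hR s hs
    refine ⟨h1.map (MulAction.injective g), ⟨(sml_smul hF.smul_sm g s).2 h2.1,
      fun h => h2.2 ((inC_smul hF.cusp_smul g s).1 h)⟩, ?_⟩
    show (s.map _).length = n + 1
    rw [List.length_map, h3]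
  have hperm : ∀ p q : R × N, (φ p).Perm (φ q) → p = q := by
    intro p q hpq
    obtain ⟨h1, h2, h3⟩ := hφ p
    obtain ⟨s, hs, g, -, hu⟩ := hR' (φ p) h1 h2 h3
    obtain ⟨a1, a2⟩ := hu p.1.1 p.1.2 p.2 (List.Perm.refl _)
    obtain ⟨b1, b2⟩ := hu q.1.1 q.1.2 q.2 hpq
    exact Prod.ext (Subtype.ext (a1.trans b1.symm)) (a2.trans b2.symm)
  have hinj : Function.Injective φ := fun p q h => hperm p q (by rw [h])
  -- the delta functions
  have hδ : ∀ s : R, ∃ e : DSub sm cusp k n, e.1 s.1 = 1 ∧ ∀ l, e.1 l ≠ 0 → l.Perm s.1 := fun s =>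
    exists_delta k (hR s.1 s.2).1 (hR s.1 s.2).2.1 (hR s.1 s.2).2.2
  choose e he1 he2 using hδ
  -- the coordinates
  have hfin : ∀ f : DSub sm cusp k n, (Function.support (fun p => f.1 (φ p))).Finite := fun f =>
    (f.2.fin.preimage hinj.injOn : (φ ⁻¹' (Function.support f.1)).Finite)
  let L : DSub sm cusp k n →ₗ[k] ((R × N) →₀ k) :=
    { toFun := fun f => Finsupp.ofSupportFinite (fun p => f.1 (φ p)) (hfin f)
      map_add' := fun f g => by
        ext p
        rfl
      map_smul' := fun c f => by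
        ext p
        rfl }
  have hL : ∀ f p, L f p = f.1 (φ p) := fun f p => rfl
  have hLe : ∀ p : R × N, L (trD hF k n p.2 (e p.1)) = Finsupp.single p 1 := by
    intro p
    ext q
    rw [hL, trD_coe, tr_apply]
    have h0 : (φ q).map (fun x => p.2⁻¹ • x) = q.1.1.map (fun x => (p.2⁻¹ * q.2) • x) :=
      map_smul_smul _ _ _
    by_cases hpq : p = q
    · subst hpq
      rw [h0, inv_mul_cancel, map_one_smul, he1, Finsupp.single_eq_same]
    · rw [Finsupp.single_eq_of_ne (Ne.symm hpq)]
      by_contra h1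
      have h2 := he2 _ _ h1
      have h3 : (φ q).Perm (φ p) := by
        have := h2.map (fun x => p.2 • x)
        rw [map_smul_smul, mul_inv_cancel, map_one_smul] at this
        exact this
      exact hpq (hperm q p h3).symm
  have hinj' : Function.Injective L := by
    rw [injective_iff_map_eq_zero]
    intro f hf
    apply Subtype.ext
    funext l
    by_contra hl
    have hl : f.1 l ≠ 0 := hl
    have hnd : l.Nodup := by
      by_contra h
      exact hl (f.2.alt.not_nodup h)
    obtain ⟨s, hs, g, hp, -⟩ := hR' l hnd (f.2.rl l hl) (f.2.len l hl)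
    have h1 := alt_cross f.2.alt (trD hF k n g (e ⟨s, hs⟩)).2.alt hp
    have h2 : (trD hF k n g (e ⟨s, hs⟩)).1 (s.map (fun x => g • x)) = 1 := by
      rw [trD_coe, tr_apply, map_smul_smul, inv_mul_cancel, map_one_smul]
      exact he1 ⟨s, hs⟩
    have h3 : f.1 (s.map (fun x => g • x)) = 0 := by
      have := DFunLike.congr_fun hf ((⟨s, hs⟩, g) : R × N)
      rw [hL] at this
      exact this
    rw [h2, h3, mul_one, zero_mul] at h1
    exact hl h1
  have hsurj : Function.Surjective L := by
    intro c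
    refine ⟨Finsupp.linearCombination k (fun p : R × N => trD hF k n p.2 (e p.1)) c, ?_⟩
    rw [Finsupp.apply_linearCombination]
    have : (⇑L ∘ fun p : R × N => trD hF k n p.2 (e p.1)) = fun p => Finsupp.single p (1 : k) := by
      funext p
      exact hLe p
    rw [this, Finsupp.linearCombination_apply]
    simp
  let b : Module.Basis (R × N) k (DSub sm cusp k n) :=
    Module.Basis.ofRepr (LinearEquiv.ofBijective L ⟨hinj', hsurj⟩)
  have hb : ∀ p, b p = trD hF k n p.2 (e p.1) := by
    intro p
    apply hinj'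
    rw [hLe]
    exact b.repr_self p
  refine ⟨R, b, fun s hs => (hR s hs).2, ?_, ?_, ?_⟩
  · intro l h1 h2 h3
    obtain ⟨s, hs, g, hp, -⟩ := hR' l h1 h2 h3
    exact ⟨s, hs, g, hp⟩
  · intro g s h
    rw [hb, hb, trD_mul]
  · intro f s g
    rfl

end RCan
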