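import Pool.Agent.W_04c03c_h58.AlgC

/-!
# The cocycles in degree three are a direct summand
-/

namespace RCan

variable {N Ξ V : Type*} [Group N] [MulAction N Ξ] [MulAction N V] {sm : V → V → Prop}
  {cusp : V → Option Ξ}

/-- Equivariant linear maps out of `DSub` are determined by arbitrary values on a basis modulo `N`.

Proof. `L = b.constr k (fun (s, g) => trD hF k m g (u s))`, with `b` from `exists_basis`;
`L (trD g (b (s, h))) = L (b (s, g * h)) = trD (g * h) (u s) = trD g (L (b (s, h)))`, extend by
`Basis.ext`. The map `u` is given by choice from `h`: for every `s`, `h (b (s, 1))` gives `u s ∈ DSub m`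
with `crD (u s) = P (b (s, 1))`. Then `crD (L f) = P f` on `b (s, g) = trD g (b (s, 1))` by equivariance
of both sides. -/
theorem exists_lift (hF : Face N Ξ V sm cusp) (hT : TFree N) (k : Type) [Field k] (m n : ℕ)
    (P : DSub sm cusp k n →ₗ[k] DSub sm cusp k (m + 1))
    (hP : ∀ g f, P (trD hF k n g f) = trD hF k (m + 1) g (P f))
    (h : ∀ f, ∃ e : DSub sm cusp k m, crD hF k m e = P f) :
    ∃ L : DSub sm cusp k n →ₗ[k] DSub sm cusp k m,
      (∀ g f, L (trD hF k n g f) = trD hF k m g (L f)) ∧ ∀ f, crD hF k m (L f) = P f := by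
  classical
  obtain ⟨R, b, -, -, hb, -⟩ := exists_basis hF hT k n
  choose u hu using fun s : R => h (b (s, 1))
  have hL : ∀ p : R × N, b.constr k (fun p : R × N => trD hF k m p.2 (u p.1)) (b p) =
      trD hF k m p.2 (u p.1) := fun p => b.constr_basis k _ p
  refine ⟨b.constr k (fun p : R × N => trD hF k m p.2 (u p.1)), ?_, ?_⟩
  · intro g f
    have h1 : (b.constr k (fun p : R × N => trD hF k m p.2 (u p.1))) ∘ₗ (trD hF k n g) =
        (trD hF k m g) ∘ₗ (b.constr k (fun p : R × N => trD hF k m p.2 (u p.1))) := by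
      apply b.ext
      rintro ⟨s, h⟩
      rw [LinearMap.comp_apply, LinearMap.comp_apply, hb, hL, hL, ← trD_mul]
    exact LinearMap.congr_fun h1 f
  · intro f
    have h1 : (crD hF k m) ∘ₗ (b.constr k (fun p : R × N => trD hF k m p.2 (u p.1))) = P := by
      apply b.ext
      rintro ⟨s, h⟩
      rw [LinearMap.comp_apply, hL, crD_trD, hu, ← hP, hb, mul_one]
    exact LinearMap.congr_fun h1 f

/-- Proof. Downward induction on `n ≥ 3`. If `n + 1` is larger than the cardinality of the finite set
`F` of `hF.fin` then `DSub n = 0`: a relative list `l` with `f l ≠ 0` has no repeated entries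
(`Alt.not_nodup`) and a translate with entries in `F`; then `ρ = id` works. Step from `n + 1` to `n`:
let `ρ'` be the map for `n + 1`; `exists_lift` with `P = ρ'`, `m = n`: by `exists_crD` (`n ≥ 3`) every
`ρ' f` is a coboundary since `crD (ρ' f) = 0`. We get `L : DSub (n + 1) → DSub n` equivariant with
`crD (L f) = ρ' f`; put `ρ f = f - L (crD f)`: `crD (ρ f) = crD f - ρ' (crD f) = 0` since
`crD (crD f) = 0`. -/
theorem exists_retr (hF : Face N Ξ V sm cusp) (hT : TFree N) (k : Type) [Field k] (n : ℕ)
    (hn : 3 ≤ n) :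
    ∃ ρ : DSub sm cusp k n →ₗ[k] DSub sm cusp k n,
      (∀ g f, ρ (trD hF k n g f) = trD hF k n g (ρ f)) ∧ (∀ f, crD hF k n (ρ f) = 0) ∧
      ∀ f, crD hF k n f = 0 → ρ f = f := by
  classical
  obtain ⟨F, hFf, hF'⟩ := hF.fin
  have key : ∀ j n : ℕ, 3 ≤ n → hFf.toFinset.card ≤ n + j →
      ∃ ρ : DSub sm cusp k n →ₗ[k] DSub sm cusp k n,
        (∀ g f, ρ (trD hF k n g f) = trD hF k n g (ρ f)) ∧ (∀ f, crD hF k n (ρ f) = 0) ∧
        ∀ f, crD hF k n f = 0 → ρ f = f := by
    intro j
    induction j with
    | zero =>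
      intro n hn hc
      have h0 : ∀ f : DSub sm cusp k n, f = 0 := by
        intro f
        apply Subtype.ext
        funext l
        by_contra hl
        have hl : f.1 l ≠ 0 := hl
        have hnd : l.Nodup := by
          by_contra h
          exact hl (f.2.alt.not_nodup h)
        obtain ⟨g, hg⟩ := hF' l (f.2.rl l hl)
        have h1 : (l.map (fun x => g • x)).Nodup := hnd.map (MulAction.injective g)
        have h2 : (l.map (fun x => g • x)).toFinset ⊆ hFf.toFinset := by
          intro y hy
          rw [List.mem_toFinset, List.mem_map] at hy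
          obtain ⟨x, hx, rfl⟩ := hy
          exact hFf.mem_toFinset.2 (hg x hx)
        have h3 := Finset.card_le_card h2
        rw [List.toFinset_card_of_nodup h1, List.length_map, f.2.len l hl] at h3
        omega
      refine ⟨LinearMap.id, fun g f => rfl, fun f => ?_, fun f _ => rfl⟩
      rw [h0 (LinearMap.id f), map_zero]
    | succ j ih =>
      intro n hn hc
      obtain ⟨ρ', h1, h2, h3⟩ := ih (n + 1) (by omega) (by omega)
      obtain ⟨L, hL1, hL2⟩ := exists_lift hF hT k n (n + 1) ρ' h1
        (fun f => exists_crD hF k (Or.inr hn) (ρ' f) (h2 f))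
      refine ⟨LinearMap.id - L ∘ₗ crD hF k n, ?_, ?_, ?_⟩
      · intro g f
        simp only [LinearMap.sub_apply, LinearMap.id_apply, LinearMap.comp_apply, map_sub]
        rw [crD_trD, hL1]
      · intro f
        simp only [LinearMap.sub_apply, LinearMap.id_apply, LinearMap.comp_apply, map_sub]
        rw [hL2, h3 _ (crD_crD hF f), sub_self]
      · intro f hf
        simp only [LinearMap.sub_apply, LinearMap.id_apply, LinearMap.comp_apply]
        rw [hf, map_zero, sub_zero]
  exact key hFf.toFinset.card n hn (by omega)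

end RCan
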