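import Pool.Agent.W_04c03c_h58.AlgC

/-!
# Equivariant cochains and averaging
-/

namespace RCan

variable {N Ξ V : Type*} [Group N] [MulAction N Ξ] [MulAction N V]

/-- the `χ`-equivariant alternating relative cochains -/
def EQ (sm : V → V → Prop) (cusp : V → Option Ξ) {k : Type*} [Field k] (χ : N →* kˣ) (n : ℕ) :
    Submodule k (List V → k) where
  carrier := {c | IsR sm cusp k n c ∧ ∀ (g : N) (l : List V),
    c (l.map (fun x => g • x)) = (χ g : k) * c l}
  zero_mem' := ⟨⟨Alt.zero, fun l hl => absurd rfl hl, fun l hl => absurd rfl hl⟩, by simp⟩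
  add_mem' := fun {a b} ha hb => ⟨ha.1.add hb.1, fun g l => by
    rw [Pi.add_apply, Pi.add_apply, ha.2, hb.2, mul_add]⟩
  smul_mem' := by
    intro c f hf
    refine ⟨⟨Alt.hom (DistribSMul.toAddMonoidHom k c) hf.1.alt, ?_, ?_⟩, ?_⟩
    · intro l hl
      exact hf.1.len l (fun h => hl (by simp [h]))
    · intro l hl
      exact hf.1.rl l (fun h => hl (by simp [h]))
    · intro g l
      rw [Pi.smul_apply, Pi.smul_apply, hf.2, smul_eq_mul, smul_eq_mul]
      ring

variable {sm : V → V → Prop} {cusp : V → Option Ξ} {k : Type*} [Field k]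

/-- the coboundary on equivariant cochains -/
noncomputable def crE (hF : Face N Ξ V sm cusp) (χ : N →* kˣ) (n : ℕ) :
    EQ sm cusp χ n →ₗ[k] EQ sm cusp χ (n + 1) where
  toFun c := ⟨cr sm c.1, c.2.1.cr, by
    intro g l
    unfold cr
    by_cases hl : Sml sm l
    · rw [if_pos hl, if_pos ((sml_smul hF.smul_sm g l).2 hl), co_map]
      have h1 : (fun l' => c.1 (l'.map (fun x => g • x))) = (χ g : k) • c.1 := by
        funext l'
        exact c.2.2 g l'
      rw [h1, co_smul]
      rfl
    · rw [if_neg hl, if_neg (fun h1 => hl ((sml_smul hF.smul_sm g l).1 h1)), mul_zero]⟩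
  map_add' f g := Subtype.ext (cr_add f.1 g.1)
  map_smul' c f := by
    apply Subtype.ext
    funext l
    show cr sm (c • f.1) l = c • cr sm f.1 l
    unfold cr
    split_ifs
    · exact dl_smul c l f.1
    · simp

/-- the average -/
noncomputable def av (χ : N →* kˣ) (f : List V → k) : List V → k :=
  fun l => ∑ᶠ g : N, (χ g : k) * f (l.map (fun x => g⁻¹ • x))

/-- Proof. `f (l.map (g⁻¹ • ·)) ≠ 0` for finitely many `g`: `l ≠ []` (`f` is concentrated on lists of
length `n + 1`), `g ↦ l.map (g⁻¹ • ·)` is injective by `hF.free`, and `f` has finite support. -/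
theorem av_finite (hF : Face N Ξ V sm cusp) {n : ℕ} {f : List V → k} (hf : IsD sm cusp k n f)
    (l : List V) : {g : N | f (l.map (fun x => g⁻¹ • x)) ≠ 0}.Finite := by
  cases l with
  | nil =>
    have h0 : {g : N | f (([] : List V).map (fun x => g⁻¹ • x)) ≠ 0} = ∅ := by
      ext g
      simp only [Set.mem_setOf_eq, Set.mem_empty_iff_false, iff_false, not_not]
      by_contra h
      have := hf.len _ h
      simp at this
    rw [h0]
    exact Set.finite_empty
  | cons x t =>
    have hinj : Function.Injective (fun g : N => (x :: t).map (fun y => g⁻¹ • y)) := by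
      intro g h hgh
      simp only [List.map_cons, List.cons.injEq] at hgh
      have h1 : (h * g⁻¹) • x = x := by
        rw [mul_smul, hgh.1, smul_inv_smul]
      have h2 := hF.free _ _ h1
      exact (mul_inv_eq_one.1 h2).symm
    exact hf.fin.preimage hinj.injOn

theorem AlgE_supp (hF : Face N Ξ V sm cusp) (χ : N →* kˣ) {n : ℕ} {f : List V → k}
    (hf : IsD sm cusp k n f) (l : List V) :
    (Function.support (fun g : N => (χ g : k) * f (l.map (fun x => g⁻¹ • x)))).Finite := by
  refine (av_finite hF hf l).subset ?_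
  intro g hg
  exact right_ne_zero_of_mul hg

theorem AlgE_ex (χ : N →* kˣ) {f : List V → k} {l : List V} (h : av χ f l ≠ 0) :
    ∃ g : N, f (l.map (fun x => g⁻¹ • x)) ≠ 0 := by
  by_contra h1
  push Not at h1
  apply h
  unfold av
  simp [h1]

theorem AlgE_alt (χ : N →* kˣ) {f : List V → k} (hf : Alt f) : Alt (av χ f) := by
  constructor
  · intro l₁ x y l₂
    unfold av
    rw [← finsum_neg_distrib]
    congr 1
    funext g
    have := (hf.map (fun x => g⁻¹ • x)).1 l₁ x y l₂
    rw [show f ((l₁ ++ x :: y :: l₂).map (fun x => g⁻¹ • x))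
      = -f ((l₁ ++ y :: x :: l₂).map (fun x => g⁻¹ • x)) from this, mul_neg]
  · intro l₁ x l₂
    unfold av
    have h0 : (fun g : N => (χ g : k) * f ((l₁ ++ x :: x :: l₂).map (fun x => g⁻¹ • x)))
        = fun _ => 0 := by
      funext g
      rw [show f ((l₁ ++ x :: x :: l₂).map (fun x => g⁻¹ • x)) = 0 from
        (hf.map (fun x => g⁻¹ • x)).2 l₁ x l₂, mul_zero]
    rw [h0]
    exact finsum_zero

/-- Averages are equivariant, relative and alternating.

Proof. Each property from the same property of `l ↦ f (l.map (g⁻¹ • ·))` and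
`av χ f (l.map (h • ·)) = ∑ᶠ g, χ g * f (l.map ((g⁻¹ * h) • ·)) = χ h * av χ f l` by the substitution
`g = h * g'` (`finsum_comp_equiv` / `Equiv.mulLeft`). -/
theorem av_mem (hF : Face N Ξ V sm cusp) (χ : N →* kˣ) {n : ℕ} {f : List V → k}
    (hf : IsD sm cusp k n f) : av χ f ∈ EQ sm cusp χ n := by
  refine ⟨⟨AlgE_alt χ hf.alt, ?_, ?_⟩, ?_⟩
  · intro l hl
    obtain ⟨g, hg⟩ := AlgE_ex χ hl
    simpa using hf.len _ hg
  · intro l hl
    obtain ⟨g, hg⟩ := AlgE_ex χ hl
    have h1 := hf.rl _ hg
    exact ⟨(sml_smul hF.smul_sm g⁻¹ l).1 h1.1,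
      fun h2 => h1.2 ((inC_smul hF.cusp_smul g⁻¹ l).2 h2)⟩
  · intro h l
    unfold av
    rw [← smul_eq_mul, smul_finsum]
    rw [← finsum_comp_equiv (Equiv.mulLeft h)
      (f := fun g : N => (χ g : k) * f ((l.map (fun x => h • x)).map (fun x => g⁻¹ • x)))]
    congr 1
    funext g
    simp only [Equiv.coe_mulLeft]
    rw [map_smul_smul, mul_inv_rev, inv_mul_cancel_right, map_mul, Units.val_mul, smul_eq_mul,
      mul_assoc]

/-- Additivity of the average (the families are finitely supported). -/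
theorem av_add (hF : Face N Ξ V sm cusp) (χ : N →* kˣ) {n : ℕ} {f f' : List V → k}
    (hf : IsD sm cusp k n f) (hf' : IsD sm cusp k n f') : av χ (f + f') = av χ f + av χ f' := by
  funext l
  rw [Pi.add_apply]
  unfold av
  rw [← finsum_add_distrib (AlgE_supp hF χ hf l) (AlgE_supp hF χ hf' l)]
  congr 1
  funext g
  rw [Pi.add_apply, mul_add]

theorem av_smul (χ : N →* kˣ) (c : k) (f : List V → k) : av χ (c • f) = c • av χ f := by
  funext l
  rw [Pi.smul_apply]
  unfold av
  rw [smul_finsum]
  congr 1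
  funext g
  rw [Pi.smul_apply, smul_eq_mul, smul_eq_mul]
  ring

/-- the averaging map -/
noncomputable def avL (hF : Face N Ξ V sm cusp) (χ : N →* kˣ) (n : ℕ) :
    DSub sm cusp k n →ₗ[k] EQ sm cusp χ n where
  toFun f := ⟨av χ f.1, av_mem hF χ f.2⟩
  map_add' f f' := Subtype.ext (av_add hF χ f.2 f'.2)
  map_smul' c f := Subtype.ext (av_smul χ c f.1)

/-- Proof. Substitution `g' = g * h` in the sum: `tr h f (l.map (g⁻¹ • ·)) = f (l.map ((g * h)⁻¹ • ·))`. -/
theorem avL_trD (hF : Face N Ξ V sm cusp) (χ : N →* kˣ) (n : ℕ) (h : N) (f : DSub sm cusp k n) :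
    avL hF χ n (trD hF k n h f) = ((χ h)⁻¹ : kˣ) • avL hF χ n f := by
  apply Subtype.ext
  funext l
  show av χ (tr h f.1) l = (((χ h)⁻¹ : kˣ) : k) • av χ f.1 l
  unfold av
  rw [smul_finsum]
  rw [← finsum_comp_equiv (Equiv.mulRight h)
      (f := fun g : N => (((χ h)⁻¹ : kˣ) : k) • ((χ g : k) * f.1 (l.map (fun x => g⁻¹ • x))))]
  congr 1
  funext g
  simp only [Equiv.coe_mulRight]
  rw [tr_apply, map_smul_smul, ← mul_inv_rev, map_mul, Units.val_mul, smul_eq_mul]
  have h1 : (((χ h)⁻¹ : kˣ) : k) * (χ h : k) = 1 := by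
    rw [← Units.val_mul, inv_mul_cancel, Units.val_one]
  calc (χ g : k) * f.1 (l.map (fun x => (g * h)⁻¹ • x))
      = ((((χ h)⁻¹ : kˣ) : k) * (χ h : k)) * ((χ g : k) * f.1 (l.map (fun x => (g * h)⁻¹ • x))) := by
        rw [h1, one_mul]
    _ = _ := by ring

/-- Averaging commutes with the coboundary.

Proof. For small `l`: `cr f (l.map (g⁻¹ • ·)) = co f (l.map (g⁻¹ • ·)) = co (fun m => f (m.map (g⁻¹ • ·))) l`
(`co_map`), and `co` commutes with the finite sum: `dl l` is additive; take a finite set `S` of `g`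
containing all `g` with `f (m.map (g⁻¹ • ·)) ≠ 0` for some face `m` of `l` and all `g` of `av (cr f)`, write
the sums as `Finset.sum` (`finsum_eq_sum_of_support_subset`), induction on `S`. -/
theorem crE_avL (hF : Face N Ξ V sm cusp) (χ : N →* kˣ) (n : ℕ) (f : DSub sm cusp k n) :
    crE hF χ n (avL hF χ n f) = avL hF χ (n + 1) (crD hF k n f) := by
  classical
  apply Subtype.ext
  funext l
  show cr sm (av χ f.1) l = av χ (cr sm f.1) l
  by_cases hl : Sml sm l
  · rw [cr_of_sml _ hl]
    have hfin : {g : N | ∃ m : List V, m.Sublist l ∧ f.1 (m.map (fun x => g⁻¹ • x)) ≠ 0}.Finite := by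
      have h1 : ∀ L : List (List V),
          {g : N | ∃ m ∈ L, f.1 (m.map (fun x => g⁻¹ • x)) ≠ 0}.Finite := by
        intro L
        induction L with
        | nil => simp
        | cons a L ih =>
          refine ((av_finite hF f.2 a).union ih).subset ?_
          rintro g ⟨m, hm, h2⟩
          rcases List.mem_cons.1 hm with rfl | hm
          · exact Or.inl h2
          · exact Or.inr ⟨m, hm, h2⟩
      refine (h1 l.sublists).subset ?_
      rintro g ⟨m, hm, h2⟩
      exact ⟨m, List.mem_sublists.2 hm, h2⟩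
    have h2 : ∀ m : List V, m.Sublist l → av χ f.1 m
        = ∑ g ∈ hfin.toFinset, (χ g : k) * f.1 (m.map (fun x => g⁻¹ • x)) := by
      intro m hm
      unfold av
      apply finsum_eq_sum_of_support_subset
      intro g hg
      simp only [Set.Finite.coe_toFinset, Set.mem_setOf_eq]
      exact ⟨m, hm, right_ne_zero_of_mul hg⟩
    have h3 : av χ (cr sm f.1) l
        = ∑ g ∈ hfin.toFinset, (χ g : k) * cr sm f.1 (l.map (fun x => g⁻¹ • x)) := by
      unfold av
      apply finsum_eq_sum_of_support_subset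
      intro g hg
      simp only [Set.Finite.coe_toFinset, Set.mem_setOf_eq]
      have hg2 : cr sm f.1 (l.map (fun x => g⁻¹ • x)) ≠ 0 := right_ne_zero_of_mul hg
      by_contra hcon
      push Not at hcon
      apply hg2
      rw [cr_of_sml _ ((sml_smul hF.smul_sm g⁻¹ l).2 hl), co_map]
      exact dl_eq_zero l (fun l' h4 _ => hcon l' h4)
    rw [h3]
    show dl l (av χ f.1) = _
    rw [dl_congr l (g := fun m => ∑ g ∈ hfin.toFinset, (χ g : k) * f.1 (m.map (fun x => g⁻¹ • x)))
      (fun l' h4 _ => h2 l' h4)]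
    have h5 : ∀ S : Finset N,
        dl l (fun m => ∑ g ∈ S, (χ g : k) * f.1 (m.map (fun x => g⁻¹ • x)))
        = ∑ g ∈ S, (χ g : k) * dl l (fun m => f.1 (m.map (fun x => g⁻¹ • x))) := by
      intro S
      induction S using Finset.induction_on with
      | empty =>
        simp only [Finset.sum_empty]
        exact dl_zero l
      | insert a S ha ih =>
        have h6 : (fun m : List V => ∑ g ∈ insert a S, (χ g : k) * f.1 (m.map (fun x => g⁻¹ • x)))
            = (χ a : k) • (fun m => f.1 (m.map (fun x => a⁻¹ • x)))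
              + (fun m => ∑ g ∈ S, (χ g : k) * f.1 (m.map (fun x => g⁻¹ • x))) := by
          funext m
          rw [Finset.sum_insert ha]
          rfl
        rw [h6, dl_add, dl_smul, ih, Finset.sum_insert ha, smul_eq_mul]
    rw [h5]
    apply Finset.sum_congr rfl
    intro g _
    rw [cr_of_sml _ ((sml_smul hF.smul_sm g⁻¹ l).2 hl), co_map]
    rfl
  · have h1 : cr sm (av χ f.1) l = 0 := by simp [cr, hl]
    have h2 : ∀ g : N, cr sm f.1 (l.map (fun x => g⁻¹ • x)) = 0 := by
      intro g
      have : ¬ Sml sm (l.map (fun x => g⁻¹ • x)) := fun h => hl ((sml_smul hF.smul_sm g⁻¹ l).1 h)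
      simp [cr, this]
    rw [h1]
    unfold av
    simp [h2]

end RCan
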