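import Pool.Agent.W_04c03c_h58.AlgE

/-!
# Averaging is onto, and its kernel
-/

namespace RCan

variable {N Ξ V : Type*} [Group N] [MulAction N Ξ] [MulAction N V]
  {sm : V → V → Prop} {cusp : V → Option Ξ} {k : Type*} [Field k]

open Classical in
/-- averages of the basis elements at the representatives -/
theorem av_basis {n : ℕ} {R : Finset (List V)} (b : Module.Basis (R × N) k (DSub sm cusp k n))
    (hrepr : ∀ (f : DSub sm cusp k n) (s : R) (g : N),
      b.repr f (s, g) = f.1 (s.1.map (fun x => g • x))) (χ : N →* kˣ) (s s' : R) (g : N) :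
    av χ (b (s, g)).1 s'.1 = if s = s' then ((χ g⁻¹ : kˣ) : k) else 0 := by
  classical
  have h1 : ∀ h : N, (b (s, g)).1 (s'.1.map (fun x => h⁻¹ • x))
      = (Finsupp.single (s, g) (1 : k)) (s', h⁻¹) := by
    intro h
    rw [← hrepr, b.repr_self]
  unfold av
  simp_rw [h1]
  by_cases hs : s = s'
  · subst hs
    rw [if_pos rfl, finsum_eq_single _ g⁻¹]
    · rw [inv_inv, Finsupp.single_eq_same, mul_one]
    · intro h hh
      rw [Finsupp.single_apply, if_neg, mul_zero]
      intro h2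
      apply hh
      have h3 : g = h⁻¹ := (Prod.ext_iff.1 h2).2
      rw [h3, inv_inv]
  · rw [if_neg hs]
    have h2 : ∀ h : N, ((χ h : kˣ) : k) * (Finsupp.single (s, g) (1 : k)) (s', h⁻¹) = 0 := by
      intro h
      rw [Finsupp.single_apply, if_neg, mul_zero]
      intro h3
      exact hs (Prod.ext_iff.1 h3).1
    simp_rw [h2]
    exact finsum_zero

/-- equivariant cochains are determined by their values on representatives -/
theorem EQ_zero_of_reps (hF : Face N Ξ V sm cusp) (χ : N →* kˣ) {n : ℕ} {R : Finset (List V)}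
    (hR : ∀ s ∈ R, Rl sm cusp s ∧ s.length = n + 1)
    (hcov : ∀ l : List V, l.Nodup → Rl sm cusp l → l.length = n + 1 →
        ∃ s ∈ R, ∃ g : N, l.Perm (s.map (fun x => g • x)))
    (d : EQ sm cusp χ n) (hd : ∀ s ∈ R, d.1 s = 0) : d = 0 := by
  apply Subtype.ext
  funext l
  show d.1 l = 0
  by_contra hne
  have hnd : l.Nodup := by
    by_contra h
    exact hne (Alt.not_nodup d.2.1.alt h)
  have hrl := d.2.1.rl l hne
  have hlen := d.2.1.len l hne
  obtain ⟨s, hs, g, hp⟩ := hcov l hnd hrl hlen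
  have h0 : d.1 (s.map (fun x => g • x)) = 0 := by
    rw [d.2.2, hd s hs, mul_zero]
  have hnd' : (s.map (fun x => g • x)).Nodup := hp.nodup_iff.1 hnd
  have hrl' : Rl sm cusp (s.map (fun x => g • x)) :=
    ⟨(sml_smul hF.smul_sm g s).2 (hR s hs).1.1,
      fun h => (hR s hs).1.2 ((inC_smul hF.cusp_smul g s).1 h)⟩
  have hlen' : (s.map (fun x => g • x)).length = n + 1 := by
    rw [List.length_map]
    exact (hR s hs).2
  obtain ⟨e, he, -⟩ := exists_delta (sm := sm) (cusp := cusp) k hnd' hrl' hlen'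
  have h1 := alt_cross d.2.1.alt e.2.alt hp
  rw [he, h0, zero_mul, mul_one] at h1
  exact hne h1

/-- Averaging is onto.

Proof. Let `R, b` be as in `exists_basis`, `f = Σ_{s ∈ R} c s • b (s, 1)`. Then `av χ f s = c s` for
`s ∈ R`: `av χ f s = ∑ᶠ g, χ g * f (s.map (g⁻¹ • ·)) = ∑ᶠ g, χ g * b.repr f (s, g⁻¹)`, and
`b.repr f (s, g⁻¹) = c s` if `g = 1` and `0` otherwise. Two elements `c, c'` of `EQ` which agree on `R`
are equal: let `l` be a list; if `l` is not relative of length `n + 1` without repeated entries both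
vanish (`Alt.not_nodup`); otherwise `l` is a permutation of `s.map (g • ·)`, and by `alt_cross` it is
enough to compare on `s.map (g • ·)` (take for `f'` in `alt_cross` a delta function,
`exists_delta`, or argue with `rr_alt`), where both are `χ g * c s`. -/
theorem avL_surj (hF : Face N Ξ V sm cusp) (hT : TFree N) (χ : N →* kˣ) (n : ℕ) :
    Function.Surjective (avL hF χ n) := by
  classical
  intro c
  obtain ⟨R, b, hR, hcov, hb, hrepr⟩ := exists_basis (sm := sm) (cusp := cusp) hF hT k n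
  refine ⟨∑ s : R, c.1 s.1 • b (s, 1), ?_⟩
  rw [← sub_eq_zero]
  refine EQ_zero_of_reps hF χ hR hcov _ ?_
  intro s' hs'
  have h1 : (avL hF χ n (∑ s : R, c.1 s.1 • b (s, 1))).1 s' = c.1 s' := by
    have h2 : (avL hF χ n (∑ s : R, c.1 s.1 • b (s, 1))).1 s'
        = ((LinearMap.proj s').comp (Submodule.subtype _) : EQ sm cusp χ n →ₗ[k] k)
          (avL hF χ n (∑ s : R, c.1 s.1 • b (s, 1))) := rfl
    rw [h2, map_sum, map_sum]
    have h3 : ∀ s : R, ((LinearMap.proj s').comp (Submodule.subtype _) : EQ sm cusp χ n →ₗ[k] k)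
          (avL hF χ n (c.1 s.1 • b (s, 1)))
        = if s = (⟨s', hs'⟩ : R) then c.1 s.1 else 0 := by
      intro s
      rw [map_smul, map_smul]
      have h4 : ((LinearMap.proj s').comp (Submodule.subtype _) : EQ sm cusp χ n →ₗ[k] k)
          (avL hF χ n (b (s, 1))) = av χ (b (s, 1)).1 (⟨s', hs'⟩ : R).1 := rfl
      rw [h4, av_basis b hrepr χ s ⟨s', hs'⟩ 1, inv_one, map_one, Units.val_one, smul_eq_mul]
      split_ifs
      · rw [mul_one]
      · rw [mul_zero]
    simp_rw [h3]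
    rw [Finset.sum_ite_eq' Finset.univ (⟨s', hs'⟩ : R) (fun s => c.1 s.1),
      if_pos (Finset.mem_univ _)]
  show (avL hF χ n (∑ s : R, c.1 s.1 • b (s, 1))).1 s' - c.1 s' = 0
  rw [h1, sub_self]

/-- A semi-invariant functional vanishes on the kernel of the average.

Proof. With `R, b` from `exists_basis`: `f = Σ (b.repr f (s, g)) • b (s, g)`, `b (s, g) = trD g (b (s, 1))`,
so `Ψ f = Σ_s Ψ (b (s, 1)) * Σ_g (χ g)⁻¹ * f (s.map (g • ·)) = Σ_s Ψ (b (s, 1)) * av χ f s = 0`
(substitution `g ↦ g⁻¹` in `av χ f s`). -/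
theorem avL_ker (hF : Face N Ξ V sm cusp) (hT : TFree N) (χ : N →* kˣ) (n : ℕ)
    (Ψ : DSub sm cusp k n →ₗ[k] k)
    (hΨ : ∀ g f, Ψ (trD hF k n g f) = (((χ g)⁻¹ : kˣ) : k) * Ψ f) {f : DSub sm cusp k n}
    (hf : avL hF χ n f = 0) : Ψ f = 0 := by
  classical
  obtain ⟨R, b, hR, hcov, hb, hrepr⟩ := exists_basis (sm := sm) (cusp := cusp) hF hT k n
  let Ψ' : DSub sm cusp k n →ₗ[k] k := ∑ s : R, Ψ (b (s, 1)) •
    (((LinearMap.proj s.1).comp (Submodule.subtype _) : EQ sm cusp χ n →ₗ[k] k).comp (avL hF χ n))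
  have h1 : Ψ = Ψ' := by
    refine b.ext ?_
    rintro ⟨s, g⟩
    have h2 : Ψ (b (s, g)) = (((χ g)⁻¹ : kˣ) : k) * Ψ (b (s, 1)) := by
      have h3 := hb g s 1
      rw [mul_one] at h3
      rw [← h3, hΨ]
    have h4 : Ψ' (b (s, g)) = ∑ s' : R, Ψ (b (s', 1)) * av χ (b (s, g)).1 s'.1 := by
      show (∑ s' : R, Ψ (b (s', 1)) •
        (((LinearMap.proj s'.1).comp (Submodule.subtype _) : EQ sm cusp χ n →ₗ[k] k).comp
          (avL hF χ n))) (b (s, g)) = _
      rw [LinearMap.sum_apply]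
      rfl
    rw [h2, h4]
    have h5 : ∀ s' : R, Ψ (b (s', 1)) * av χ (b (s, g)).1 s'.1
        = if s = s' then (((χ g)⁻¹ : kˣ) : k) * Ψ (b (s', 1)) else 0 := by
      intro s'
      rw [av_basis b hrepr χ s s' g, map_inv]
      split_ifs
      · rw [mul_comm]
      · rw [mul_zero]
    simp_rw [h5]
    rw [Finset.sum_ite_eq Finset.univ s (fun s' => (((χ g)⁻¹ : kˣ) : k) * Ψ (b (s', 1))),
      if_pos (Finset.mem_univ _)]
  rw [h1]
  show (∑ s' : R, Ψ (b (s', 1)) •
        (((LinearMap.proj s'.1).comp (Submodule.subtype _) : EQ sm cusp χ n →ₗ[k] k).comp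
          (avL hF χ n))) f = 0
  rw [LinearMap.sum_apply]
  refine Finset.sum_eq_zero fun s _ => ?_
  show Ψ (b (s, 1)) • ((avL hF χ n f).1 s.1) = 0
  rw [hf]
  exact smul_zero _

end RCan
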