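import Pool.Agent.W_04c03c_h58.AlgD
import Pool.Agent.W_04c03c_h58.AlgF

/-!
# Duality: functionals on the second cohomology give crossed homomorphisms
-/

namespace RCan

variable {N Ξ V : Type*} [Group N] [MulAction N Ξ] [MulAction N V]
  {sm : V → V → Prop} {cusp : V → Option Ξ} {k : Type} [Field k]

theorem dual_indep0 (hF : Face N Ξ V sm cusp) (χ : N →* kˣ)
    (φ : EQ sm cusp χ 2 →ₗ[k] k) (hφ : ∀ c : EQ sm cusp χ 1, φ (crE hF χ 1 c) = 0)
    (e e' : DSub sm cusp k 2) (he : crD hF k 2 e = crD hF k 2 e') :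
    φ (avL hF χ 2 e) = φ (avL hF χ 2 e') := by
  have h0 : crD hF k 2 (e - e') = 0 := by rw [map_sub, he, sub_self]
  obtain ⟨a, ha⟩ := exists_crD hF k (n := 1) (Or.inl rfl) (e - e') h0
  have h1 : φ (avL hF χ 2 (e - e')) = 0 := by
    rw [← ha, ← crE_avL]
    exact hφ _
  rwa [map_sub, map_sub, sub_eq_zero] at h1

theorem phi_avL_trD (hF : Face N Ξ V sm cusp) (χ : N →* kˣ)
    (φ : EQ sm cusp χ 2 →ₗ[k] k) (g : N) (f : DSub sm cusp k 2) :
    φ (avL hF χ 2 (trD hF k 2 g f)) = (((χ g)⁻¹ : kˣ) : k) * φ (avL hF χ 2 f) := by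
  rw [avL_trD, Units.smul_def, map_smul, smul_eq_mul]

/-- Proof. `crD (e (g * h) - trD g (e h) - e g) = 0`, so it is `crD` of an element of `DSub 1`
(`exists_crD` for `n = 1`), hence `avL` of it is a coboundary (`crE_avL`) and `φ` vanishes on it.
`avL (trD g (e h)) = (χ g)⁻¹ • avL (e h)` (`avL_trD`). -/
theorem dual_crossed (hF : Face N Ξ V sm cusp) (χ : N →* kˣ) (z : DSub sm cusp k 3)
    (φ : EQ sm cusp χ 2 →ₗ[k] k) (hφ : ∀ c : EQ sm cusp χ 1, φ (crE hF χ 1 c) = 0)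
    (e : N → DSub sm cusp k 2) (he : ∀ g, crD hF k 2 (e g) = trD hF k 3 g z - z) (g h : N) :
    φ (avL hF χ 2 (e (g * h))) = φ (avL hF χ 2 (e g))
      + (((χ g)⁻¹ : kˣ) : k) * φ (avL hF χ 2 (e h)) := by
  have h1 : crD hF k 2 (e (g * h)) = crD hF k 2 (e g + trD hF k 2 g (e h)) := by
    rw [map_add, crD_trD, he, he, he, map_sub, ← trD_mul]
    abel
  rw [dual_indep0 hF χ φ hφ _ _ h1, map_add, map_add, phi_avL_trD]

/-- The value does not depend on the choice of `e`. -/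
theorem dual_indep (hF : Face N Ξ V sm cusp) (χ : N →* kˣ)
    (φ : EQ sm cusp χ 2 →ₗ[k] k) (hφ : ∀ c : EQ sm cusp χ 1, φ (crE hF χ 1 c) = 0)
    (e e' : DSub sm cusp k 2) (he : crD hF k 2 e = crD hF k 2 e') :
    φ (avL hF χ 2 e) = φ (avL hF χ 2 e') :=
  dual_indep0 hF χ φ hφ e e' he

/-- If the crossed homomorphism is principal then `φ` vanishes on cocycles.

Proof. Let `c = avL f` (`avL_surj`), `crE c = 0`, so `avL (crD f) = 0` (`crE_avL`). Let `Z` be the kernel of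
`crD` on `DSub 3`. Define a linear map `ψ : Z →ₗ[k] k` with (i) `ψ (crD e) = φ (avL e)` for `e ∈ DSub 2` and
(ii) `ψ (trD g w) = (χ g)⁻¹ * ψ w`: on `B = crD (DSub 2)` (i) is well defined by `dual_indep`. If `z ∈ B`
then `Z = B` by `hz'`, and (ii) holds by `avL_trD`. If `z ∉ B` then `Z = B ⊕ k z`, put `ψ z = a`; (ii) for
`w = z`: `trD g z = z + crD (e g)`, `ψ (trD g z) = a + φ (avL (e g)) = (χ g)⁻¹ * a` by `ha`.
Let `ρ` be the retraction of `exists_retr` for `n = 3` and `Ψ f' = ψ (ρ f')`. `Ψ` is semi-invariant, so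
`avL_ker` gives `Ψ (crD f) = 0` and `Ψ (crD f) = ψ (crD f) = φ (avL f) = φ c`. -/
theorem dual_principal (hF : Face N Ξ V sm cusp) (hT : TFree N) (χ : N →* kˣ)
    (z : DSub sm cusp k 3) (hz : crD hF k 3 z = 0)
    (hz' : ∀ f : DSub sm cusp k 3, crD hF k 3 f = 0 → ∃ (c : k) (e : DSub sm cusp k 2),
      f = c • z + crD hF k 2 e)
    (e : N → DSub sm cusp k 2) (he : ∀ g, crD hF k 2 (e g) = trD hF k 3 g z - z)
    (φ : EQ sm cusp χ 2 →ₗ[k] k) (hφ : ∀ c : EQ sm cusp χ 1, φ (crE hF χ 1 c) = 0) (a : k)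
    (ha : ∀ g, φ (avL hF χ 2 (e g)) = (((χ g)⁻¹ : kˣ) : k) * a - a)
    (c : EQ sm cusp χ 2) (hc : crE hF χ 2 c = 0) : φ c = 0 := by
  classical
  -- choice of the value at `z`
  have hex : ∃ a' : k, (∀ g, φ (avL hF χ 2 (e g)) = (((χ g)⁻¹ : kˣ) : k) * a' - a') ∧
      ∀ (c : k) (f : DSub sm cusp k 2), c • z + crD hF k 2 f = 0 →
        c * a' + φ (avL hF χ 2 f) = 0 := by
    by_cases hB : ∃ f : DSub sm cusp k 2, crD hF k 2 f = z
    · obtain ⟨f₀, hf₀⟩ := hB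
      refine ⟨φ (avL hF χ 2 f₀), fun g => ?_, fun c f hcf => ?_⟩
      · have h1 : crD hF k 2 (e g) = crD hF k 2 (trD hF k 2 g f₀ - f₀) := by
          rw [map_sub, crD_trD, hf₀, he]
        rw [dual_indep hF χ φ hφ _ _ h1, map_sub, map_sub, phi_avL_trD]
      · have h1 : crD hF k 2 (c • f₀ + f) = crD hF k 2 0 := by
          rw [map_add, map_smul, hf₀, hcf, map_zero]
        have h2 := dual_indep hF χ φ hφ _ _ h1
        rw [map_add, map_smul, map_add, map_smul, smul_eq_mul, map_zero, map_zero] at h2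
        exact h2
    · refine ⟨a, ha, fun c f hcf => ?_⟩
      have hc0 : c = 0 := by
        by_contra hne
        apply hB
        refine ⟨-(c⁻¹ • f), ?_⟩
        have h1 : crD hF k 2 f = -(c • z) := eq_neg_of_add_eq_zero_right hcf
        rw [map_neg, map_smul, h1, smul_neg, neg_neg, smul_smul, inv_mul_cancel₀ hne, one_smul]
      subst hc0
      have h1 : crD hF k 2 f = crD hF k 2 0 := by
        rw [map_zero]
        simpa using hcf
      have h2 := dual_indep hF χ φ hφ _ _ h1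
      rw [map_zero, map_zero] at h2
      rw [h2, zero_mul, add_zero]
  obtain ⟨a', ha', hker⟩ := hex
  -- the functional on the cocycles
  let Θ : (k × DSub sm cusp k 2) →ₗ[k] DSub sm cusp k 3 :=
    LinearMap.coprod (LinearMap.toSpanSingleton k _ z) (crD hF k 2)
  let Φ : (k × DSub sm cusp k 2) →ₗ[k] k :=
    LinearMap.coprod (LinearMap.toSpanSingleton k k a') (φ.comp (avL hF χ 2))
  have hΘ : ∀ (c : k) (f : DSub sm cusp k 2), Θ (c, f) = c • z + crD hF k 2 f := by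
    intro c f
    rfl
  have hΦ : ∀ (c : k) (f : DSub sm cusp k 2), Φ (c, f) = c * a' + φ (avL hF χ 2 f) := by
    intro c f
    rfl
  have hmem : Φ ∈ LinearMap.range Θ.dualMap := by
    rw [LinearMap.range_dualMap_eq_dualAnnihilator_ker, Submodule.mem_dualAnnihilator]
    rintro ⟨c, f⟩ hcf
    rw [LinearMap.mem_ker, hΘ] at hcf
    rw [hΦ]
    exact hker c f hcf
  obtain ⟨ψ, hψ⟩ := hmem
  have hψ' : ∀ (c : k) (f : DSub sm cusp k 2),
      ψ (c • z + crD hF k 2 f) = c * a' + φ (avL hF χ 2 f) := by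
    intro c f
    rw [← hΘ, ← hΦ, ← hψ]
    rfl
  obtain ⟨ρ, hρ1, hρ2, hρ3⟩ := exists_retr (sm := sm) (cusp := cusp) hF hT k 3 le_rfl
  have hΨ : ∀ g f, (ψ.comp ρ) (trD hF k 3 g f) = (((χ g)⁻¹ : kˣ) : k) * (ψ.comp ρ) f := by
    intro g f
    rw [LinearMap.comp_apply, LinearMap.comp_apply, hρ1]
    obtain ⟨c₁, f₁, h1⟩ := hz' (ρ f) (hρ2 f)
    have h2 : trD hF k 3 g (ρ f) = c₁ • z + crD hF k 2 (c₁ • e g + trD hF k 2 g f₁) := by
      rw [h1, map_add, map_smul, map_add, map_smul, crD_trD, he, smul_sub]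
      abel
    rw [h2, h1, hψ', hψ', map_add, map_smul, map_add, map_smul, smul_eq_mul, phi_avL_trD, ha']
    ring
  obtain ⟨f, rfl⟩ := avL_surj hF hT χ 2 c
  rw [crE_avL] at hc
  have h3 := avL_ker hF hT χ 3 (ψ.comp ρ) hΨ hc
  rw [LinearMap.comp_apply, hρ3 _ (crD_crD hF f)] at h3
  have h4 := hψ' 0 f
  rw [zero_smul, zero_add, zero_mul, zero_add] at h4
  rw [← h4]
  exact h3

end RCan
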