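import Pool.Agent.W_04c03c_h58.Face

/-!
# Dismantlable relations are simply connected
-/

namespace RCan

/-- A cocycle of degree one with values in any group on a dismantlable relation is a coboundary.

Proof. Define `f : V → Γ` by well-founded recursion on `rk`: fix `v₀` of rank `0` if there is one.
`f v = f (ps v) * u (ps v) v` if `rk v > 0`, and `f v = u v₀ v` if `rk v = 0` (any `v₀` of rank `0`; it
exists by descending from any vertex).
First: `u x x = 1` (cocycle identity for `x, x, x` by `hr`), `u y x = (u x y)⁻¹` for `sm x y`.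
Claim `u x y = (f x)⁻¹ * f y` for `sm x y`, by strong induction on `rk x + rk y`; by symmetry of the
claim (inverse) assume `rk x ≤ rk y`. If `rk y > 0`: `sm x (ps y)`, `sm (ps y) y` (`h.1` with `w = y`,
`hs`), so `u x y = u x (ps y) * u (ps y) y = (f x)⁻¹ * f (ps y) * u (ps y) y`. If `rk y = 0` then
`rk x = 0` and `u x y = u x v₀ * u v₀ y`. -/
theorem simply_connected {V : Type*} [Nonempty V] {sm : V → V → Prop} (hr : ∀ v, sm v v)
    (hs : ∀ v w, sm v w → sm w v) {rk : V → ℕ} {ps : V → V} (h : Dis sm rk ps)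
    {Γ : Type*} [Group Γ] (u : V → V → Γ)
    (hu : ∀ x y z, sm x y → sm y z → sm x z → u x y * u y z = u x z) :
    ∃ f : V → Γ, ∀ x y, sm x y → u x y = (f x)⁻¹ * f y := by
  classical
  -- a vertex of rank zero
  have hex : ∀ (N : ℕ) (v : V), rk v ≤ N → ∃ v₀, rk v₀ = 0 := by
    intro N
    induction N with
    | zero =>
      intro v hv
      exact ⟨v, Nat.le_zero.1 hv⟩
    | succ N ih =>
      intro v hv
      rcases Nat.eq_zero_or_pos (rk v) with h0 | h0
      · exact ⟨v, h0⟩
      · exact ih (ps v) (by have := (h.1 v h0).1; omega)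
  obtain ⟨v₁⟩ := (inferInstance : Nonempty V)
  obtain ⟨v₀, hv₀⟩ := hex _ v₁ le_rfl
  -- the potential
  obtain ⟨f, hf⟩ : ∃ f : V → Γ, ∀ v, f v = if 0 < rk v then f (ps v) * u (ps v) v else u v₀ v := by
    let G : (v : V) → ((w : V) → rk w < rk v → Γ) → Γ := fun v rec =>
      if h0 : 0 < rk v then rec (ps v) (h.1 v h0).1 * u (ps v) v else u v₀ v
    have wf : WellFounded (fun a b : V => rk a < rk b) := InvImage.wf rk Nat.lt_wfRel.wf
    refine ⟨wf.fix G, fun v => ?_⟩
    rw [wf.fix_eq]
    by_cases h0 : 0 < rk v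
    · simp only [G, h0, dif_pos, if_pos]
    · simp only [G, h0, dif_neg, if_neg, not_false_eq_true]
  have hxx : ∀ x, u x x = 1 := by
    intro x
    have := hu x x x (hr x) (hr x) (hr x)
    exact mul_eq_left.1 this
  have hinv : ∀ x y, sm x y → u y x = (u x y)⁻¹ := by
    intro x y hxy
    have := hu x y x hxy (hs _ _ hxy) (hr x)
    rw [hxx] at this
    exact (inv_eq_of_mul_eq_one_right this).symm
  refine ⟨f, ?_⟩
  have key : ∀ (N : ℕ) (x y : V), rk x + rk y ≤ N → rk x ≤ rk y → sm x y →
      u x y = (f x)⁻¹ * f y := by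
    intro N
    induction N with
    | zero =>
      intro x y hN hle hxy
      have hy : rk y = 0 := by omega
      have hx : rk x = 0 := by omega
      rw [hf x, hf y, if_neg (by omega), if_neg (by omega),
        ← hinv v₀ x (h.2 v₀ x hv₀ hx)]
      exact (hu x v₀ y (h.2 x v₀ hx hv₀) (h.2 v₀ y hv₀ hy) hxy).symm
    | succ N ih =>
      intro x y hN hle hxy
      rcases Nat.eq_zero_or_pos (rk y) with hy | hy
      · have hx : rk x = 0 := by omega
        rw [hf x, hf y, if_neg (by omega), if_neg (by omega),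
          ← hinv v₀ x (h.2 v₀ x hv₀ hx)]
        exact (hu x v₀ y (h.2 x v₀ hx hv₀) (h.2 v₀ y hv₀ hy) hxy).symm
      · obtain ⟨h1, h2⟩ := h.1 y hy
        have h3 : sm x (ps y) := h2 x hxy hle
        have h4 : sm y (ps y) := h2 y (hr y) le_rfl
        have h5 : u x (ps y) = (f x)⁻¹ * f (ps y) := by
          rcases le_total (rk x) (rk (ps y)) with h6 | h6
          · exact ih x (ps y) (by omega) h6 h3
          · have h7 := ih (ps y) x (by omega) h6 (hs _ _ h3)
            rw [hinv _ _ (hs _ _ h3), h7, mul_inv_rev, inv_inv]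
        have h6 : f y = f (ps y) * u (ps y) y := by rw [hf y, if_pos hy]
        rw [← hu x (ps y) y h3 (hs _ _ h4) hxy, h5, h6, mul_assoc]
  intro x y hxy
  rcases le_total (rk x) (rk y) with h1 | h1
  · exact key _ x y le_rfl h1 hxy
  · have h2 := key _ y x le_rfl h1 (hs _ _ hxy)
    rw [hinv _ _ (hs _ _ hxy), h2, mul_inv_rev, inv_inv]

end RCan
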