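import Pool.Agent.W_04c03c_h58.AlgE
import Pool.Agent.W_04c03c_h58.SimCon

/-!
# Cocycles on the cusps
-/

namespace RCan

variable {N Ξ V : Type*} [Group N] [MulAction N Ξ] [MulAction N V]
  {sm : V → V → Prop} {cusp : V → Option Ξ} {k : Type*} [Field k]

/-- `χ`-equivariant cocycles of degree one on the cusps -/
structure IsBd (cusp : V → Option Ξ) (χ : N →* kˣ) (β : V → V → k) : Prop where
  zero : ∀ x y, (¬ ∃ ξ, cusp x = some ξ ∧ cusp y = some ξ) → β x y = 0
  add : ∀ ξ x y z, cusp x = some ξ → cusp y = some ξ → cusp z = some ξ → β x y + β y z = β x z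
  equiv : ∀ (g : N) x y, β (g • x) (g • y) = (χ g : k) * β x y

open Classical in
/-- the cochain of degree one of `β` -/
noncomputable def bl (sm : V → V → Prop) (β : V → V → k) : List V → k
  | [x, y] => if sm x y then β x y else 0
  | _ => 0

theorem AlgH_xx {χ : N →* kˣ} {β : V → V → k} (hβ : IsBd cusp χ β) (x : V) : β x x = 0 := by
  by_cases h : ∃ ξ, cusp x = some ξ
  · obtain ⟨ξ, hξ⟩ := h
    have := hβ.add ξ x x x hξ hξ hξ
    simpa using this
  · apply hβ.zero
    rintro ⟨ξ, h1, -⟩
    exact h ⟨ξ, h1⟩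

theorem AlgH_anti {χ : N →* kˣ} {β : V → V → k} (hβ : IsBd cusp χ β) (x y : V) :
    β x y = -β y x := by
  by_cases h : ∃ ξ, cusp x = some ξ ∧ cusp y = some ξ
  · obtain ⟨ξ, h1, h2⟩ := h
    have h3 := hβ.add ξ x y x h1 h2 h1
    rw [AlgH_xx hβ] at h3
    exact eq_neg_of_add_eq_zero_left h3
  · rw [hβ.zero x y h, hβ.zero y x (fun ⟨ξ, h1, h2⟩ => h ⟨ξ, h2, h1⟩), neg_zero]

open Classical in
theorem AlgH_bl_eq (sm : V → V → Prop) (β : V → V → k) (x y : V) :
    bl sm β [x, y] = if sm x y then β x y else 0 := rfl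

theorem AlgH_bl_pair (sm : V → V → Prop) (β : V → V → k) {x y : V} (h : sm x y) :
    bl sm β [x, y] = β x y := by
  rw [AlgH_bl_eq, if_pos h]

theorem AlgH_bl_not (sm : V → V → Prop) (β : V → V → k) {x y : V} (h : ¬ sm x y) :
    bl sm β [x, y] = 0 := by
  rw [AlgH_bl_eq, if_neg h]

theorem AlgH_bl_len (sm : V → V → Prop) (β : V → V → k) {l : List V} (h : bl sm β l ≠ 0) :
    l.length = 2 := by
  match l with
  | [] => exact absurd rfl h
  | [x] => exact absurd rfl h
  | [x, y] => rfl
  | x :: y :: z :: l => exact absurd rfl h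

theorem AlgH_bl_alt (hF : Face N Ξ V sm cusp) {χ : N →* kˣ} {β : V → V → k}
    (hβ : IsBd cusp χ β) : Alt (bl sm β) := by
  have h0 : ∀ l : List V, l.length ≠ 2 → bl sm β l = 0 := by
    intro l hl
    by_contra h
    exact hl (AlgH_bl_len sm β h)
  constructor
  · intro l₁ x y l₂
    by_cases hl : l₁ = [] ∧ l₂ = []
    · rw [hl.1, hl.2, List.nil_append, List.nil_append]
      by_cases h : sm x y
      · rw [AlgH_bl_pair sm β h, AlgH_bl_pair sm β (hF.symm x y h)]
        exact AlgH_anti hβ x y
      · have h' : ¬ sm y x := fun h1 => h (hF.symm y x h1)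
        rw [AlgH_bl_not sm β h, AlgH_bl_not sm β h', neg_zero]
    · have hlen : (l₁ ++ x :: y :: l₂).length ≠ 2 := by
        intro h1
        apply hl
        simp only [List.length_append, List.length_cons] at h1
        exact ⟨List.length_eq_zero_iff.1 (by omega), List.length_eq_zero_iff.1 (by omega)⟩
      have hlen' : (l₁ ++ y :: x :: l₂).length ≠ 2 := by
        intro h1
        apply hlen
        simp only [List.length_append, List.length_cons] at h1 ⊢
        exact h1
      rw [h0 _ hlen, h0 _ hlen', neg_zero]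
  · intro l₁ x l₂
    by_cases hl : l₁ = [] ∧ l₂ = []
    · rw [hl.1, hl.2, List.nil_append, AlgH_bl_pair sm β (hF.refl x)]
      exact AlgH_xx hβ x
    · apply h0
      intro h1
      apply hl
      simp only [List.length_append, List.length_cons] at h1
      exact ⟨List.length_eq_zero_iff.1 (by omega), List.length_eq_zero_iff.1 (by omega)⟩

theorem AlgH_bl_map (hF : Face N Ξ V sm cusp) {χ : N →* kˣ} {β : V → V → k}
    (hβ : IsBd cusp χ β) (g : N) (l : List V) :
    bl sm β (l.map (fun x => g • x)) = (χ g : k) * bl sm β l := by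
  match l with
  | [] => exact (mul_zero _).symm
  | [x] => exact (mul_zero _).symm
  | [x, y] =>
    change bl sm β [g • x, g • y] = _
    by_cases h : sm x y
    · rw [AlgH_bl_pair sm β h, AlgH_bl_pair sm β (hF.smul_sm g x y h), hβ.equiv]
    · have h' : ¬ sm (g • x) (g • y) := by
        intro h1
        apply h
        have h2 := hF.smul_sm g⁻¹ _ _ h1
        rwa [inv_smul_smul, inv_smul_smul] at h2
      rw [AlgH_bl_not sm β h, AlgH_bl_not sm β h', mul_zero]
  | x :: y :: z :: l => exact (mul_zero _).symm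

theorem AlgH_co3 (f : List V → k) (x y z : V) :
    co f [x, y, z] = f [y, z] - f [x, z] + f [x, y] := by
  rw [co_apply, dl_cons, dl_cons, dl_cons, dl_nil]
  ring

theorem AlgH_const (hF : Face N Ξ V sm cusp) (F : V → k) (h : ∀ x y, sm x y → F x = F y) (x y : V) :
    F x = F y := by
  obtain ⟨rk, ps, hd⟩ := hF.dis
  have hex : ∀ (n : ℕ) (v : V), rk v ≤ n → ∃ v₀, rk v₀ = 0 ∧ F v = F v₀ := by
    intro n
    induction n with
    | zero =>
      intro v hv
      exact ⟨v, Nat.le_zero.1 hv, rfl⟩
    | succ n ih =>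
      intro v hv
      rcases Nat.eq_zero_or_pos (rk v) with h0 | h0
      · exact ⟨v, h0, rfl⟩
      · obtain ⟨h1, h2⟩ := hd.1 v h0
        obtain ⟨v₀, h3, h4⟩ := ih (ps v) (by omega)
        exact ⟨v₀, h3, (h v (ps v) (h2 v (hF.refl v) le_rfl)).trans h4⟩
  obtain ⟨x₀, h1, h2⟩ := hex _ x le_rfl
  obtain ⟨y₀, h3, h4⟩ := hex _ y le_rfl
  rw [h2, h4]
  exact h _ _ (hd.2 x₀ y₀ h1 h3)

/-- The coboundary of `bl sm β` is an equivariant relative cocycle of degree two.

Proof. `β x x = 0` and `β y x = - β x y` (`add`; if `x, y` are not in a common cusp both are zero), so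
`bl sm β` is alternating (lists of length two; `sm` is symmetric and reflexive), and `cr` of it too
(`Alt.cr`). On a small list `[x, y, z]`: `co = bl [y, z] - bl [x, z] + bl [x, y]`; it vanishes if the
list is contained in a cusp (`add`). Lengths clear. Equivariance from `equiv`, `hF.smul_sm`. -/
theorem cr_bl_mem (hF : Face N Ξ V sm cusp) {χ : N →* kˣ} {β : V → V → k}
    (hβ : IsBd cusp χ β) : cr sm (bl sm β) ∈ EQ sm cusp χ 2 := by
  have hlen : ∀ l, cr sm (bl sm β) l ≠ 0 → l.length = 3 := by
    intro l hl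
    by_contra hcon
    apply hl
    unfold cr
    split_ifs
    · refine dl_eq_zero l fun l' _ h2 => ?_
      by_contra h3
      have := AlgH_bl_len sm β h3
      omega
    · rfl
  have hsml : ∀ l, cr sm (bl sm β) l ≠ 0 → Sml sm l := by
    intro l hl
    by_contra hcon
    apply hl
    unfold cr
    rw [if_neg hcon]
  refine ⟨⟨(AlgH_bl_alt hF hβ).cr, hlen, ?_⟩, ?_⟩
  · intro l hl
    refine ⟨hsml l hl, ?_⟩
    rintro ⟨ξ, hξ⟩
    apply hl
    have h3 := hlen l hl
    have hs := hsml l hl
    match l, h3 with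
    | [x, y, z], _ =>
      rw [cr_of_sml _ hs, AlgH_co3]
      have hx : x ∈ [x, y, z] := by simp
      have hy : y ∈ [x, y, z] := by simp
      have hz : z ∈ [x, y, z] := by simp
      rw [AlgH_bl_pair sm β (hs y hy z hz), AlgH_bl_pair sm β (hs x hx z hz),
        AlgH_bl_pair sm β (hs x hx y hy), ← hβ.add ξ x y z (hξ x hx) (hξ y hy) (hξ z hz)]
      ring
  · intro g l
    unfold cr
    by_cases hl : Sml sm l
    · rw [if_pos hl, if_pos ((sml_smul hF.smul_sm g l).2 hl), co_map]
      have h1 : (fun l' => bl sm β (l'.map (fun x => g • x))) = (χ g : k) • bl sm β := by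
        funext l'
        exact AlgH_bl_map hF hβ g l'
      rw [h1, co_smul]
      rfl
    · rw [if_neg hl, if_neg (fun h1 => hl ((sml_smul hF.smul_sm g l).1 h1)), mul_zero]

/-- If the class of `cr (bl β)` vanishes then `β` comes from a crossed homomorphism.

Proof. `u x y = bl sm β [x, y] - e [x, y]`. `cr sm (bl sm β - e) = 0` gives on small triples
`u x y + u y z = u x z`; apply `simply_connected` with `Γ = Multiplicative k` (`hF.dis`, `hF.ne`):
`f : V → k` with `u x y = f y - f x` for `sm x y`. `V` is connected: `simply_connected` applied to... or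
directly: descend along `ps` to rank `0`. For `g : N`: `x ↦ f (g • x) - χ g * f x` is locally constant
(`u (g • x) (g • y) = χ g * u x y`), so constant, `= D g`. `D (g * h) = D g + χ g * D h` by evaluating at
`x` and `h • x`. In a cusp: for `sm x y` in the same cusp `e [x, y] = 0` so `β x y = f y - f x`; for all
`x, y` in the cusp by `hF.conn` (induction on the path, `hβ.add`). -/
theorem bd_exact (hF : Face N Ξ V sm cusp) {χ : N →* kˣ} {β : V → V → k} (hβ : IsBd cusp χ β)
    (e : EQ sm cusp χ 1) (he : cr sm (bl sm β) = cr sm e.1) :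
    ∃ (f : V → k) (D : N → k), (∀ g x, f (g • x) = D g + (χ g : k) * f x) ∧
      (∀ g h, D (g * h) = D g + (χ g : k) * D h) ∧
      ∀ ξ x y, cusp x = some ξ → cusp y = some ξ → β x y = f y - f x := by
  have hsmall : ∀ x y z, sm x y → sm y z → sm x z → Sml sm [x, y, z] := by
    intro x y z h1 h2 h3 a ha b hb
    simp only [List.mem_cons, List.not_mem_nil, or_false] at ha hb
    rcases ha with rfl | rfl | rfl <;> rcases hb with rfl | rfl | rfl
    · exact hF.refl _
    · exact h1
    · exact h3
    · exact hF.symm _ _ h1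
    · exact hF.refl _
    · exact h2
    · exact hF.symm _ _ h3
    · exact hF.symm _ _ h2
    · exact hF.refl _
  obtain ⟨u, hu⟩ : ∃ u : V → V → k, ∀ x y, u x y = bl sm β [x, y] - e.1 [x, y] := ⟨_, fun _ _ => rfl⟩
  have hcoc : ∀ x y z, sm x y → sm y z → sm x z → u x y + u y z = u x z := by
    intro x y z h1 h2 h3
    have h4 := congrFun he [x, y, z]
    rw [cr_of_sml _ (hsmall x y z h1 h2 h3), cr_of_sml _ (hsmall x y z h1 h2 h3), AlgH_co3,
      AlgH_co3] at h4
    rw [hu, hu, hu]
    linear_combination h4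
  obtain ⟨rk, ps, hd⟩ := hF.dis
  haveI := hF.ne
  obtain ⟨f', hf'⟩ := simply_connected hF.refl hF.symm hd
    (fun x y => Multiplicative.ofAdd (u x y)) (fun x y z h1 h2 h3 => by
      rw [← ofAdd_add, hcoc x y z h1 h2 h3])
  obtain ⟨f, hfdef⟩ : ∃ f : V → k, ∀ x, f x = Multiplicative.toAdd (f' x) := ⟨_, fun _ => rfl⟩
  have hf : ∀ x y, sm x y → u x y = f y - f x := by
    intro x y h
    have h1 := congrArg Multiplicative.toAdd (hf' x y h)
    rw [toAdd_ofAdd, toAdd_mul, toAdd_inv] at h1
    rw [h1, hfdef, hfdef]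
    ring
  have huequiv : ∀ (g : N) x y, u (g • x) (g • y) = (χ g : k) * u x y := by
    intro g x y
    have h1 := AlgH_bl_map hF hβ g [x, y]
    have h2 := e.2.2 g [x, y]
    rw [List.map_cons, List.map_cons, List.map_nil] at h1 h2
    rw [hu, hu, h1, h2, mul_sub]
  have hconst : ∀ (g : N) x y, f (g • x) - (χ g : k) * f x = f (g • y) - (χ g : k) * f y := by
    intro g x y
    refine AlgH_const hF (fun x => f (g • x) - (χ g : k) * f x) (fun a b hab => ?_) x y
    have h1 := hf _ _ (hF.smul_sm g a b hab)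
    rw [huequiv, hf a b hab] at h1
    linear_combination h1
  obtain ⟨x₀⟩ := hF.ne
  have hfg : ∀ g x, f (g • x) = (f (g • x₀) - (χ g : k) * f x₀) + (χ g : k) * f x := by
    intro g x
    have h1 := hconst g x x₀
    linear_combination h1
  refine ⟨f, fun g => f (g • x₀) - (χ g : k) * f x₀, hfg, ?_, ?_⟩
  · intro g h
    have h1 : f ((g * h) • x₀) = (f (g • x₀) - (χ g : k) * f x₀) + (χ g : k) * f (h • x₀) := by
      rw [mul_smul]
      exact hfg g (h • x₀)
    beta_reduce
    rw [h1, map_mul, Units.val_mul]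
    ring
  · intro ξ x y hx hy
    have hstep : ∀ a b, sm a b → cusp a = some ξ → cusp b = some ξ → β a b = f b - f a := by
      intro a b hab ha hb
      have h0 : e.1 [a, b] = 0 := by
        by_contra h1
        apply (e.2.1.rl _ h1).2
        refine ⟨ξ, fun v hv => ?_⟩
        simp only [List.mem_cons, List.not_mem_nil, or_false] at hv
        rcases hv with rfl | rfl
        · exact ha
        · exact hb
      rw [← hf a b hab, hu, AlgH_bl_pair sm β hab, h0, sub_zero]
    have hpath := hF.conn ξ x y hx hy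
    have key : ∀ b, Relation.ReflTransGen (fun a b => sm a b ∧ cusp a = some ξ ∧ cusp b = some ξ) x b →
        cusp b = some ξ ∧ β x b = f b - f x := by
      intro b hb
      induction hb with
      | refl => exact ⟨hx, by rw [AlgH_xx hβ, sub_self]⟩
      | tail _ h2 ih =>
        obtain ⟨h3, h4, h5⟩ := h2
        refine ⟨h5, ?_⟩
        rw [← hβ.add ξ _ _ _ hx ih.1 h5, ih.2, hstep _ _ h3 h4 h5]
        ring
    exact (key y hpath).2

end RCan
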