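import Pool.Agent.W_04c03c_h58.AlgH

/-!
# Cocycles on the cusps from homomorphisms of the stabilizers
-/

namespace RCan

variable {N Ξ V : Type*} [Group N] [MulAction N Ξ] [MulAction N V]
  {sm : V → V → Prop} {cusp : V → Option Ξ} {k : Type*} [Field k]

/-- a free action has an equivariant map to the group -/
theorem AlgI_sec {H W : Type*} [Group H] [MulAction H W] (free : ∀ (h : H) (x : W), h • x = x → h = 1) :
    ∃ S : W → H, ∀ h x, S (h • x) = h * S x := by
  classical
  obtain ⟨r, hr⟩ : ∃ r : W → W, ∀ x, r x = (Quotient.mk (MulAction.orbitRel H W) x).out :=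
    ⟨_, fun _ => rfl⟩
  have h1 : ∀ x, ∃ h : H, h • r x = x := by
    intro x
    have h2 : r x ∈ MulAction.orbit H x := by
      rw [hr]
      exact MulAction.orbitRel_apply.1 (Quotient.mk_out (s := MulAction.orbitRel H W) x)
    obtain ⟨h, hh⟩ := h2
    refine ⟨h⁻¹, ?_⟩
    rw [← hh]
    exact inv_smul_smul h x
  have h3 : ∀ (h : H) x, r (h • x) = r x := by
    intro h x
    rw [hr, hr]
    congr 1
    exact Quotient.sound (s := MulAction.orbitRel H W)
      (MulAction.orbitRel_apply.2 (MulAction.mem_orbit x h))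
  choose S hS using h1
  refine ⟨S, fun h x => ?_⟩
  have h4 := hS (h • x)
  rw [h3] at h4
  have h5 : (h * S x) • r x = h • x := by rw [mul_smul, hS]
  have h6 : ((h * S x)⁻¹ * S (h • x)) • r x = r x := by
    rw [mul_smul, h4, ← h5, inv_smul_smul]
  have h7 := free _ _ h6
  exact (inv_mul_eq_one.1 h7).symm

/-- the potential on a cusp -/
def AlgI_W (χ : N →* kˣ) {ι : Type*} (ξ : ι → Ξ)
    (S : (i : ι) → V → MulAction.stabilizer N (ξ i))
    (c : (i : ι) → Additive (MulAction.stabilizer N (ξ i)) →+ k) (p : ι × N) (x : V) : k :=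
  (χ p.2 : k) * c p.1 (Additive.ofMul (S p.1 (p.2⁻¹ • x)))

theorem AlgI_A (χ : N →* kˣ) {ι : Type*} (ξ : ι → Ξ)
    (hS : ∀ (i j : ι) (g : N), g • ξ i = ξ j → i = j)
    (hχ : ∀ i, ∀ h ∈ MulAction.stabilizer N (ξ i), χ h = 1)
    (S : (i : ι) → V → MulAction.stabilizer N (ξ i))
    (hSS : ∀ (i : ι) (h : MulAction.stabilizer N (ξ i)) (x : V), S i ((h : N) • x) = h * S i x)
    (c : (i : ι) → Additive (MulAction.stabilizer N (ξ i)) →+ k) (p q : ι × N) (a : N)
    (h : a • (p.2 • ξ p.1) = q.2 • ξ q.1) (x y : V) :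
    AlgI_W χ ξ S c q (a • y) - AlgI_W χ ξ S c q (a • x) =
      (χ a : k) * (AlgI_W χ ξ S c p y - AlgI_W χ ξ S c p x) := by
  obtain ⟨i, g⟩ := p
  obtain ⟨j, g'⟩ := q
  change a • (g • ξ i) = g' • ξ j at h
  have h1 : (g'⁻¹ * (a * g)) • ξ i = ξ j := by
    rw [mul_smul, mul_smul, h, inv_smul_smul]
  obtain rfl : i = j := hS i j _ h1
  have hmem : g'⁻¹ * (a * g) ∈ MulAction.stabilizer N (ξ i) := h1
  have h2 : ∀ z : V, g'⁻¹ • (a • z) = (g'⁻¹ * (a * g)) • (g⁻¹ • z) := by
    intro z
    rw [smul_smul, smul_smul]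
    congr 1
    group
  have h3 : ∀ z : V, c i (Additive.ofMul (S i (g'⁻¹ • (a • z)))) =
      c i (Additive.ofMul ⟨g'⁻¹ * (a * g), hmem⟩) + c i (Additive.ofMul (S i (g⁻¹ • z))) := by
    intro z
    rw [h2 z, hSS i ⟨g'⁻¹ * (a * g), hmem⟩ (g⁻¹ • z), ofMul_mul, map_add]
  have h4 : (χ g' : k) = (χ a : k) * (χ g : k) := by
    have h5 := hχ i _ hmem
    rw [map_mul, map_inv, inv_mul_eq_one] at h5
    rw [h5, map_mul, Units.val_mul]
  unfold AlgI_W
  beta_reduce
  simp only [h3, h4]
  ring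

theorem AlgI_B (χ : N →* kˣ) {ι : Type*} (ξ : ι → Ξ)
    (S : (i : ι) → V → MulAction.stabilizer N (ξ i))
    (hSS : ∀ (i : ι) (h : MulAction.stabilizer N (ξ i)) (x : V), S i ((h : N) • x) = h * S i x)
    (c : (i : ι) → Additive (MulAction.stabilizer N (ξ i)) →+ k) (i : ι)
    (h : MulAction.stabilizer N (ξ i)) (x : V) :
    AlgI_W χ ξ S c (i, 1) ((h : N) • x) - AlgI_W χ ξ S c (i, 1) x = c i (Additive.ofMul h) := by
  unfold AlgI_W
  change (χ 1 : k) * c i (Additive.ofMul (S i ((1 : N)⁻¹ • ((h : N) • x)))) -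
    (χ 1 : k) * c i (Additive.ofMul (S i ((1 : N)⁻¹ • x))) = _
  rw [inv_one, one_smul, one_smul, hSS, ofMul_mul, map_add, map_one, Units.val_one]
  ring

/-- Cocycles on the cusps from homomorphisms of the stabilizers.

Proof. For the orbit `N • ξ` of each `ξ ∈ S` (`S` a set of representatives of different orbits): the
stabilizer `H = stabilizer N ξ` acts freely on `V_ξ = {x | cusp x = some ξ}` (`hF.free`,
`hF.cusp_smul`); choose representatives of the orbits, so there is `v : V_ξ → k`, linear in `c ξ`,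
with `v (h • x) = c ξ h + v x` (`v (h • x_i) = c ξ h` for representatives `x_i`; `h` is unique). Then
`β x y = χ g * (v (g⁻¹ • y) - v (g⁻¹ • x))` if `cusp x = cusp y = some (g • ξ)`, `ξ ∈ S`: independent of the
choice of `g` (`g` is unique up to `g h`, `h ∈ H`, `χ h = 1`), and `0` otherwise. Linearity: to get a linear
map, make the choices of representatives first (they do not depend on `c`). -/
theorem exists_beta (hF : Face N Ξ V sm cusp) (χ : N →* kˣ) {ι : Type*} (ξ : ι → Ξ)
    (hS : ∀ (i j : ι) (g : N), g • ξ i = ξ j → i = j)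
    (hχ : ∀ i, ∀ h ∈ MulAction.stabilizer N (ξ i), χ h = 1) :
    ∃ B : ((i : ι) → Additive (MulAction.stabilizer N (ξ i)) →+ k) →ₗ[k] (V → V → k),
      ∀ c, IsBd cusp χ (B c) ∧ ∀ (i : ι) (x : V), cusp x = some (ξ i) →
        ∀ h : MulAction.stabilizer N (ξ i), B c x ((h : N) • x) = c i (Additive.ofMul h) := by
  classical
  have hsec : ∀ i : ι, ∃ S : V → MulAction.stabilizer N (ξ i),
      ∀ (h : MulAction.stabilizer N (ξ i)) (x : V), S ((h : N) • x) = h * S x := by
    intro i
    exact AlgI_sec (H := MulAction.stabilizer N (ξ i)) (W := V) fun h x hx =>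
      Subtype.ext (hF.free (h : N) x hx)
  choose S hSS using hsec
  obtain ⟨T, hT⟩ : ∃ T : V → V → Prop, ∀ x y, T x y ↔ ∃ p : ι × N, cusp x = some (p.2 • ξ p.1) ∧
      cusp y = some (p.2 • ξ p.1) := ⟨_, fun _ _ => Iff.rfl⟩
  have hadd : ∀ (c c' : (i : ι) → Additive (MulAction.stabilizer N (ξ i)) →+ k) (p : ι × N)
      (x : V), AlgI_W χ ξ S (c + c') p x = AlgI_W χ ξ S c p x + AlgI_W χ ξ S c' p x := by
    intro c c' p x
    unfold AlgI_W
    rw [Pi.add_apply, AddMonoidHom.add_apply, mul_add]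
  have hsmul : ∀ (a : k) (c : (i : ι) → Additive (MulAction.stabilizer N (ξ i)) →+ k) (p : ι × N)
      (x : V), AlgI_W χ ξ S (a • c) p x = a * AlgI_W χ ξ S c p x := by
    intro a c p x
    unfold AlgI_W
    rw [Pi.smul_apply, AddMonoidHom.smul_apply, smul_eq_mul]
    ring
  let B : ((i : ι) → Additive (MulAction.stabilizer N (ξ i)) →+ k) →ₗ[k] (V → V → k) :=
    { toFun := fun c x y => if h : T x y then
        AlgI_W χ ξ S c ((hT x y).1 h).choose y - AlgI_W χ ξ S c ((hT x y).1 h).choose x else 0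
      map_add' := by
        intro c c'
        funext x y
        rw [Pi.add_apply, Pi.add_apply]
        by_cases h : T x y
        · rw [dif_pos h, dif_pos h, dif_pos h, hadd, hadd]
          ring
        · rw [dif_neg h, dif_neg h, dif_neg h, add_zero]
      map_smul' := by
        intro a c
        funext x y
        rw [Pi.smul_apply, Pi.smul_apply]
        by_cases h : T x y
        · rw [dif_pos h, dif_pos h, hsmul, hsmul, RingHom.id_apply, smul_eq_mul]
          ring
        · rw [dif_neg h, dif_neg h, smul_zero] }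
  have hBn : ∀ c x y, ¬ T x y → B c x y = 0 := fun c x y h => dif_neg h
  have hBp : ∀ c x y (p : ι × N), cusp x = some (p.2 • ξ p.1) → cusp y = some (p.2 • ξ p.1) →
      B c x y = AlgI_W χ ξ S c p y - AlgI_W χ ξ S c p x := by
    intro c x y p hx hy
    have h : T x y := (hT x y).2 ⟨p, hx, hy⟩
    have h1 : B c x y = AlgI_W χ ξ S c ((hT x y).1 h).choose y -
        AlgI_W χ ξ S c ((hT x y).1 h).choose x := dif_pos h
    rw [h1]
    have h2 := Option.some.inj (hx.symm.trans ((hT x y).1 h).choose_spec.1)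
    have h3 := AlgI_A χ ξ hS hχ S hSS c p ((hT x y).1 h).choose 1 (by rw [one_smul]; exact h2) x y
    rw [one_smul, one_smul, map_one, Units.val_one, one_mul] at h3
    exact h3
  refine ⟨B, fun c => ⟨⟨?_, ?_, ?_⟩, ?_⟩⟩
  · intro x y h
    apply hBn
    intro h1
    obtain ⟨p, h2, h3⟩ := (hT x y).1 h1
    exact h ⟨_, h2, h3⟩
  · intro η x y z hx hy hz
    by_cases h : ∃ p : ι × N, p.2 • ξ p.1 = η
    · obtain ⟨p, hp⟩ := h
      rw [← hp] at hx hy hz
      rw [hBp c x y p hx hy, hBp c y z p hy hz, hBp c x z p hx hz]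
      ring
    · have hno : ∀ a b, cusp a = some η → ¬ T a b := by
        intro a b ha h1
        obtain ⟨p, h2, -⟩ := (hT a b).1 h1
        rw [ha, Option.some.injEq] at h2
        exact h ⟨p, h2.symm⟩
      rw [hBn c x y (hno x y hx), hBn c y z (hno y z hy), hBn c x z (hno x z hx), add_zero]
  · intro g x y
    by_cases h : T x y
    · obtain ⟨p, hx, hy⟩ := (hT x y).1 h
      have hx' : cusp (g • x) = some (((p.1, g * p.2) : ι × N).2 • ξ ((p.1, g * p.2) : ι × N).1) := by
        rw [hF.cusp_smul, hx, Option.map_some, smul_smul]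
      have hy' : cusp (g • y) = some (((p.1, g * p.2) : ι × N).2 • ξ ((p.1, g * p.2) : ι × N).1) := by
        rw [hF.cusp_smul, hy, Option.map_some, smul_smul]
      rw [hBp c x y p hx hy, hBp c (g • x) (g • y) (p.1, g * p.2) hx' hy']
      exact AlgI_A χ ξ hS hχ S hSS c p (p.1, g * p.2) g (by rw [smul_smul]) x y
    · have h' : ¬ T (g • x) (g • y) := by
        intro h1
        apply h
        obtain ⟨p, hx, hy⟩ := (hT _ _).1 h1
        refine (hT x y).2 ⟨(p.1, g⁻¹ * p.2), ?_, ?_⟩
        · have h2 := hF.cusp_smul g⁻¹ (g • x)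
          rw [inv_smul_smul, hx, Option.map_some, smul_smul] at h2
          exact h2
        · have h2 := hF.cusp_smul g⁻¹ (g • y)
          rw [inv_smul_smul, hy, Option.map_some, smul_smul] at h2
          exact h2
      rw [hBn c x y h, hBn c _ _ h', mul_zero]
  · intro i x hx h
    have hx' : cusp x = some (((i, 1) : ι × N).2 • ξ ((i, 1) : ι × N).1) := by
      rw [hx, one_smul]
    have hy' : cusp ((h : N) • x) = some (((i, 1) : ι × N).2 • ξ ((i, 1) : ι × N).1) := by
      rw [hF.cusp_smul, hx, Option.map_some, one_smul]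
      exact congrArg some h.2
    rw [hBp c x _ (i, 1) hx' hy']
    exact AlgI_B χ ξ S hSS c i h x

end RCan
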