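import Pool.Agent.W_04c03c_h58.AlgD

/-!
# The class in degree three in characteristic two
-/

namespace RCan

variable {N Ξ V : Type*} [Group N] [MulAction N Ξ] [MulAction N V]
  {sm : V → V → Prop} {cusp : V → Option Ξ} {k : Type} [Field k]

theorem AlgJ1_cr_cast (f : List V → ℤ) :
    cr sm (fun l => ((f l : ℤ) : k)) = fun l => ((cr sm f l : ℤ) : k) := by
  funext l
  unfold cr
  by_cases hl : Sml sm l
  · rw [if_pos hl, if_pos hl]
    exact congrFun (co_hom (Int.castAddHom k) f) l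
  · rw [if_neg hl, if_neg hl, Int.cast_zero]

theorem AlgJ1_cast {n : ℕ} {f : List V → ℤ} (hf : IsD sm cusp ℤ n f) :
    IsD sm cusp k n (fun l => ((f l : ℤ) : k)) := by
  have hne : ∀ l, ((f l : ℤ) : k) ≠ 0 → f l ≠ 0 := by
    intro l hl h0
    apply hl
    rw [h0, Int.cast_zero]
  refine ⟨Alt.hom (Int.castAddHom k) hf.alt, fun l hl => hf.len l (hne l hl),
    fun l hl => hf.rl l (hne l hl), hf.fin.subset fun l hl => hne l hl⟩

/-- In characteristic two the group acts trivially on the class in degree three.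

Proof. Let `z₀ : List V → ℤ` be as in `hF.h3`, `z = (z₀ : k)` (cast; in `DSub 3`, and a cocycle since the cast
commutes with `cr`, `co_hom`). `hz'` from `h3`. For `g : N`: `tr g z - m z = cr e`, `m : ℤ`
(`z (l.map (g⁻¹ • ·)) = tr g z l`). If `m` is odd then `m = 1` in `k` and we are done. If `m` is even then
`m = 0` in `k`, so `tr g z = cr e`, `z = cr (tr g⁻¹ e)` and `tr g z - z = cr (e - tr g⁻¹ e)`. -/
theorem exists_z_two (hF : Face N Ξ V sm cusp) (h2 : (2 : k) = 0) :
    ∃ z : DSub sm cusp k 3, crD hF k 3 z = 0 ∧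
      (∀ f : DSub sm cusp k 3, crD hF k 3 f = 0 → ∃ (c : k) (e : DSub sm cusp k 2),
        f = c • z + crD hF k 2 e) ∧
      ∃ e : N → DSub sm cusp k 2, ∀ g, crD hF k 2 (e g) = trD hF k 3 g z - z := by
  obtain ⟨z₀, hz, hcz, hgen, hact⟩ := hF.h3
  have hz0 : crD hF k 3 ⟨fun l => ((z₀ l : ℤ) : k), AlgJ1_cast hz⟩ = 0 := by
    apply Subtype.ext
    rw [crD_coe]
    change cr sm (fun l => ((z₀ l : ℤ) : k)) = 0
    rw [AlgJ1_cr_cast, hcz]
    funext l
    change ((0 : ℤ) : k) = 0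
    rw [Int.cast_zero]
  refine ⟨⟨fun l => ((z₀ l : ℤ) : k), AlgJ1_cast hz⟩, hz0, ?_, ?_⟩
  · intro f hf
    have hf0 : cr sm f.1 = 0 := by
      have := congrArg Subtype.val hf
      rwa [crD_coe] at this
    obtain ⟨c, e, he, h⟩ := hgen k f.1 f.2 hf0
    refine ⟨c, ⟨e, he⟩, ?_⟩
    apply Subtype.ext
    funext l
    have h1 := congrFun h l
    change f.1 l = c * ((z₀ l : ℤ) : k) + cr sm e l
    rw [← h1]
    ring
  · have hex : ∀ g : N, ∃ e : DSub sm cusp k 2, crD hF k 2 e =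
        trD hF k 3 g ⟨fun l => ((z₀ l : ℤ) : k), AlgJ1_cast hz⟩ -
          ⟨fun l => ((z₀ l : ℤ) : k), AlgJ1_cast hz⟩ := by
      intro g
      obtain ⟨m, e, he, h⟩ := hact g
      obtain ⟨E, hE⟩ : ∃ E : DSub sm cusp k 2, E = ⟨fun l => ((e l : ℤ) : k), AlgJ1_cast he⟩ :=
        ⟨_, rfl⟩
      have h1 : crD hF k 2 E = trD hF k 3 g ⟨fun l => ((z₀ l : ℤ) : k), AlgJ1_cast hz⟩ -
          (m : k) • ⟨fun l => ((z₀ l : ℤ) : k), AlgJ1_cast hz⟩ := by
        apply Subtype.ext
        rw [hE, crD_coe]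
        change cr sm (fun l => ((e l : ℤ) : k)) = _
        rw [AlgJ1_cr_cast, ← h]
        funext l
        change (((z₀ (l.map (fun x => g⁻¹ • x)) - m * z₀ l : ℤ)) : k) =
          ((z₀ (l.map (fun x => g⁻¹ • x)) : ℤ) : k) - (m : k) * ((z₀ l : ℤ) : k)
        push_cast
        ring
      rcases Int.even_or_odd' m with ⟨j, hj | hj⟩
      · have hm : (m : k) = 0 := by
          rw [hj]
          push_cast
          rw [h2, zero_mul]
        rw [hm, zero_smul, sub_zero] at h1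
        refine ⟨E - trD hF k 2 g⁻¹ E, ?_⟩
        rw [map_sub, crD_trD, h1, ← trD_mul, inv_mul_cancel, trD_one]
      · have hm : (m : k) = 1 := by
          rw [hj]
          push_cast
          rw [h2, zero_mul, zero_add]
        rw [hm, one_smul] at h1
        exact ⟨E, h1⟩
    exact ⟨fun g => (hex g).choose, fun g => (hex g).choose_spec⟩

end RCan
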