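import Pool.Agent.W_04c03c_h58.AlgG
import Pool.Agent.W_04c03c_h58.AlgI
import Pool.Agent.W_04c03c_h58.AlgJ1

/-!
# Crossed homomorphisms in characteristic two
-/

namespace RCan

variable {N Ξ V : Type*} [Group N] [MulAction N Ξ] [MulAction N V]
  {sm : V → V → Prop} {cusp : V → Option Ξ} {k : Type} [Field k]

/-- A character which is trivial on one cusp group has a non-principal crossed homomorphism, or its
inverse has one.

Proof. Suppose not: every `D` with `D (g h) = D g + χ g * D h` is `D g = χ g * a - a` for some `a`, and the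
same for `χ⁻¹`. Let `z, e` be as in `exists_z_two`. Claim: every `c : EQ sm cusp χ 2` with `crE c = 0` is
`crE c'`: otherwise there is a linear functional `φ` on `EQ 2` which vanishes on the range of `crE` and
`φ c ≠ 0` (`Submodule.exists_le_ker_of_notMem` or `Module.exists_dual_forall_apply_eq_zero`...);
`D g = φ (avL (e g))` satisfies `D (g h) = D g + (χ g)⁻¹ * D h` (`dual_crossed`), so `D g = (χ g)⁻¹ a - a`, and
`dual_principal` gives `φ c = 0`: contradiction. Apply `exists_beta` with `ι = Unit`, `ξ`, `c`: `β` with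
`IsBd`; `cr (bl β) ∈ EQ 2` (`cr_bl_mem`) is a cocycle (`cr_cr`), so `= cr e'` with `e' ∈ EQ 1`; `bd_exact` gives
`f, D`; `D g = χ g * a - a`. For `h` in the stabilizer and `x` in the cusp (`hF.ex`):
`c h = β x (h • x) = f (h • x) - f x = D h + (χ h - 1) f x = 0` since `χ h = 1`. So `c = 0`. -/
theorem crossed_of_cusp (hF : Face N Ξ V sm cusp) (hT : TFree N) (h2 : (2 : k) = 0) (χ : N →* kˣ)
    (ξ : Ξ) (hχ : ∀ h ∈ MulAction.stabilizer N ξ, χ h = 1)
    (c : Additive (MulAction.stabilizer N ξ) →+ k) (hc : c ≠ 0) :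
    (∃ D : N → k, (∀ g h, D (g * h) = D g + (χ g : k) * D h) ∧
      ¬ ∃ a, ∀ g, D g = (χ g : k) * a - a) ∨
    (∃ D : N → k, (∀ g h, D (g * h) = D g + (((χ g)⁻¹ : kˣ) : k) * D h) ∧
      ¬ ∃ a, ∀ g, D g = (((χ g)⁻¹ : kˣ) : k) * a - a) := by
  by_contra hcon
  push Not at hcon
  obtain ⟨H1, H2⟩ := hcon
  obtain ⟨z, hz, hz', e, he⟩ := exists_z_two (k := k) hF h2
  -- the second cohomology of the equivariant cochains vanishes
  have claim : ∀ c : EQ sm cusp χ 2, crE hF χ 2 c = 0 → ∃ c', crE hF χ 1 c' = c := by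
    intro c hc
    by_contra hno
    have hnot : c ∉ LinearMap.range (crE hF χ 1) := fun h => hno h
    obtain ⟨φ, hφ1, hφ2⟩ := Submodule.exists_le_ker_of_notMem hnot
    have hφ : ∀ c : EQ sm cusp χ 1, φ (crE hF χ 1 c) = 0 := fun c' =>
      LinearMap.mem_ker.1 (hφ2 ⟨c', rfl⟩)
    obtain ⟨a, ha⟩ := H2 (fun g => φ (avL hF χ 2 (e g)))
      (fun g h => dual_crossed hF χ z φ hφ e he g h)
    exact hφ1 (dual_principal hF hT χ z hz hz' e he φ hφ a ha c hc)
  obtain ⟨B, hB⟩ := exists_beta (sm := sm) (k := k) hF χ (fun _ : Unit => ξ)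
    (fun _ _ _ _ => rfl) (fun _ => hχ)
  obtain ⟨hb1, hb2⟩ := hB fun _ => c
  set β := B fun _ => c with hβ
  obtain ⟨e', he'⟩ := claim ⟨cr sm (bl sm β), cr_bl_mem hF hb1⟩ (Subtype.ext (cr_cr _))
  have he'' : cr sm (bl sm β) = cr sm e'.1 := (congrArg Subtype.val he').symm
  obtain ⟨f, D, hf1, hf2, hf3⟩ := bd_exact hF hb1 e' he''
  obtain ⟨a, ha⟩ := H1 D hf2
  obtain ⟨x, hx⟩ := hF.ex ξ
  apply hc
  refine AddMonoidHom.ext fun h => ?_
  obtain ⟨g, hg⟩ : ∃ g : MulAction.stabilizer N ξ, Additive.ofMul g = h := ⟨h.toMul, rfl⟩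
  rw [← hg]
  have hgξ : (g : N) • ξ = ξ := g.2
  have hgx : cusp ((g : N) • x) = some ξ := by
    rw [hF.cusp_smul, hx, Option.map_some, hgξ]
  have h3 := hb2 () x hx g
  have h4 := hf3 ξ x ((g : N) • x) hx hgx
  have h5 : D (g : N) = 0 := by
    rw [ha, hχ g g.2, Units.val_one, one_mul, sub_self]
  rw [h4, hf1, h5, hχ g g.2, Units.val_one, one_mul, zero_add, sub_self] at h3
  rw [← h3]
  rfl

end RCan
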