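import Pool.Agent.W_04c03c_h58.AlgG
import Pool.Agent.W_04c03c_h58.AlgI

/-!
# Homomorphisms to the rational numbers
-/

namespace RCan

section

variable {V : Type*} {sm : V → V → Prop} {k : Type*} [Field k]

theorem AlgK_bl_add (β β' : V → V → k) : bl sm (β + β') = bl sm β + bl sm β' := by
  funext l
  rcases l with _ | ⟨x, _ | ⟨y, _ | ⟨z, l⟩⟩⟩
  · simp [bl]
  · simp [bl]
  · simp only [bl, Pi.add_apply]
    split_ifs <;> simp
  · simp [bl]

theorem AlgK_bl_smul (c : k) (β : V → V → k) : bl sm (c • β) = c • bl sm β := by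
  funext l
  rcases l with _ | ⟨x, _ | ⟨y, _ | ⟨z, l⟩⟩⟩
  · simp [bl]
  · simp [bl]
  · simp only [bl, Pi.smul_apply]
    split_ifs <;> simp
  · simp [bl]

theorem AlgK_cr_smul (c : k) (f : List V → k) : cr sm (c • f) = c • cr sm f := by
  funext l
  show cr sm (c • f) l = c • cr sm f l
  unfold cr
  split_ifs
  · exact dl_smul c l f
  · simp

end

/-- Three cusps give a homomorphism to `ℚ` which kills a cusp group.

Proof. Let `W = Π i : Fin 3, (Additive (stabilizer N (ξ i)) →+ ℚ)`, finite dimensional by `hfd`, and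
`L = (Additive N →+ ℚ)`. Suppose the claim fails: for every `i` the restriction map
`r i : L → (Additive (stabilizer N (ξ i)) →+ ℚ)` is injective, so `L` is finite dimensional,
`b = finrank L ≤ w i := finrank (..)`. With `χ = 1` and `B` from `exists_beta`, let
`Θ : W →ₗ EQ 2`, `Θ c = cr (bl (B c))` (linear), with values in `Z = ker (crE 2)`, `M = range (crE 1) ⊆ Z`.
(a) `finrank (Z / M) ≤ b`: the linear map `Dual (EQ 2 / M) → L`, `φ ↦ (g ↦ φ (avL (e g)))` (a homomorphism by
`dual_crossed`, `χ = 1`), where `e` is a choice for `hze`; if `φ` is in its kernel then `φ` vanishes on `Z`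
(`dual_principal`, `a = 0`). So the image of `Dual (EQ 2 / M)` in `Dual (Z / M)` (all of `Dual (Z / M)`,
functionals extend) has dimension at most `b`; hence `Z / M` is finite dimensional of dimension `≤ b`
(e.g. an independent family of `b + 1` vectors of `Z / M` has a dual family of functionals; the
restriction of `Dual (EQ 2/M)` to their span is onto and factors through `L`). (b) `ker (W → Z / M)` has
dimension at most `b`: for `c` in this kernel `bd_exact` gives `f, D`, `D : N → ℚ` a homomorphism, with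
`c i h = B c x (h • x) = f (h • x) - f x = D h` for `h` in the stabilizer (`x` in the cusp `ξ i`,
`hF.ex`), so `c` is in the image of `L → W`. Hence `w 0 + w 1 + w 2 ≤ 2 b ≤ 2 min w i`, so `min w i = 0`,
contradicting `hne`. -/
theorem exists_hom_kill {N Ξ V : Type*} [Group N] [MulAction N Ξ] [MulAction N V]
    {sm : V → V → Prop} {cusp : V → Option Ξ} (hF : Face N Ξ V sm cusp) (hT : TFree N)
    (z : DSub sm cusp ℚ 3) (hz : crD hF ℚ 3 z = 0)
    (hz' : ∀ f : DSub sm cusp ℚ 3, crD hF ℚ 3 f = 0 → ∃ (c : ℚ) (e : DSub sm cusp ℚ 2),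
      f = c • z + crD hF ℚ 2 e)
    (hze : ∀ g, ∃ e : DSub sm cusp ℚ 2, crD hF ℚ 2 e = trD hF ℚ 3 g z - z)
    (ξ : Fin 3 → Ξ) (hξ : ∀ (i j : Fin 3) (g : N), g • ξ i = ξ j → i = j)
    (hfd : ∀ i, FiniteDimensional ℚ (Additive (MulAction.stabilizer N (ξ i)) →+ ℚ))
    (hne : ∀ i, Nontrivial (Additive (MulAction.stabilizer N (ξ i)) →+ ℚ)) :
    ∃ (i : Fin 3) (φ : Additive N →+ ℚ), φ ≠ 0 ∧
      ∀ h ∈ MulAction.stabilizer N (ξ i), φ (Additive.ofMul h) = 0 := by
  classical
  by_contra hcon
  push Not at hcon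
  choose e he using hze
  -- restriction to the stabilizers
  let r : (i : Fin 3) → (Additive N →+ ℚ) →ₗ[ℚ] (Additive (MulAction.stabilizer N (ξ i)) →+ ℚ) :=
    fun i =>
      { toFun := fun φ => φ.comp (MonoidHom.toAdditive (MulAction.stabilizer N (ξ i)).subtype)
        map_add' := fun φ ψ => rfl
        map_smul' := fun c φ => rfl }
  have hr : ∀ i φ (h : MulAction.stabilizer N (ξ i)),
      r i φ (Additive.ofMul h) = φ (Additive.ofMul (h : N)) := fun i φ h => rfl
  have hrinj : ∀ i, Function.Injective (r i) := by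
    intro i
    rw [injective_iff_map_eq_zero]
    intro φ hφ
    by_contra h0
    obtain ⟨h, hh, h1⟩ := hcon i φ h0
    apply h1
    have := hr i φ ⟨h, hh⟩
    rw [hφ] at this
    exact this.symm
  have hfL : FiniteDimensional ℚ (Additive N →+ ℚ) := by
    have := hfd 0
    exact FiniteDimensional.of_injective (r 0) (hrinj 0)
  have hbw : ∀ i, Module.finrank ℚ (Additive N →+ ℚ) ≤
      Module.finrank ℚ (Additive (MulAction.stabilizer N (ξ i)) →+ ℚ) := by
    intro i
    have := hfd i
    exact LinearMap.finrank_le_finrank_of_injective (hrinj i)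
  let R : (Additive N →+ ℚ) →ₗ[ℚ] ((i : Fin 3) → Additive (MulAction.stabilizer N (ξ i)) →+ ℚ) :=
    LinearMap.pi r
  obtain ⟨B, hB⟩ := exists_beta hF (1 : N →* ℚˣ) ξ hξ (fun i h _ => rfl)
  let Θ : ((i : Fin 3) → Additive (MulAction.stabilizer N (ξ i)) →+ ℚ) →ₗ[ℚ]
      EQ sm cusp (1 : N →* ℚˣ) 2 :=
    { toFun := fun c => ⟨cr sm (bl sm (B c)), cr_bl_mem hF (hB c).1⟩
      map_add' := fun c c' => Subtype.ext (by
        show cr sm (bl sm (B (c + c'))) = cr sm (bl sm (B c)) + cr sm (bl sm (B c'))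
        rw [map_add, AlgK_bl_add, cr_add])
      map_smul' := fun a c => Subtype.ext (by
        show cr sm (bl sm (B (a • c))) = a • cr sm (bl sm (B c))
        rw [map_smul, AlgK_bl_smul, AlgK_cr_smul]) }
  have hΘ : ∀ c, (Θ c).1 = cr sm (bl sm (B c)) := fun c => rfl
  let M : Submodule ℚ (EQ sm cusp (1 : N →* ℚˣ) 2) := LinearMap.range (crE hF (1 : N →* ℚˣ) 1)
  let Θ' := M.mkQ ∘ₗ Θ
  have : ∀ i, FiniteDimensional ℚ (Additive (MulAction.stabilizer N (ξ i)) →+ ℚ) := hfd
  -- the kernel
  have hker : Module.finrank ℚ (LinearMap.ker Θ') ≤ Module.finrank ℚ (Additive N →+ ℚ) := by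
    have h1 : LinearMap.ker Θ' ≤ LinearMap.range R := by
      intro c hc
      have hc1 : Θ c ∈ M := by
        have h2 : M.mkQ (Θ c) = 0 := hc
        rwa [Submodule.mkQ_apply, Submodule.Quotient.mk_eq_zero] at h2
      obtain ⟨e1, he1⟩ := hc1
      have he2 : cr sm (bl sm (B c)) = cr sm e1.1 := by
        rw [← hΘ, ← he1]
        rfl
      obtain ⟨f, D, h3, h4, h5⟩ := bd_exact hF (hB c).1 e1 he2
      have h4' : ∀ g h, D (g * h) = D g + D h := by
        intro g h
        have := h4 g h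
        simpa using this
      let D' : Additive N →+ ℚ := AddMonoidHom.mk' (fun g => D g.toMul) (fun g h => h4' _ _)
      refine ⟨D', ?_⟩
      funext i
      show r i D' = c i
      apply AddMonoidHom.ext
      intro h
      obtain ⟨x, hx⟩ := hF.ex (ξ i)
      have hx' : cusp (((Additive.toMul h : MulAction.stabilizer N (ξ i)) : N) • x) =
          some (ξ i) := by
        rw [hF.cusp_smul, hx, Option.map_some]
        exact congrArg some (Additive.toMul h).2
      have h6 := (hB c).2 i x hx (Additive.toMul h)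
      have h7 := h5 (ξ i) x _ hx hx'
      have h8 := h3 ((Additive.toMul h : MulAction.stabilizer N (ξ i)) : N) x
      rw [h7, h8] at h6
      have h9 : c i h = D ((Additive.toMul h : MulAction.stabilizer N (ξ i)) : N) := by
        have : Additive.ofMul (Additive.toMul h) = h := rfl
        rw [this] at h6
        rw [← h6]
        simp
      rw [h9]
      rfl
    calc Module.finrank ℚ (LinearMap.ker Θ') ≤ Module.finrank ℚ (LinearMap.range R) :=
          Submodule.finrank_mono h1
      _ ≤ _ := LinearMap.finrank_range_le R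
  -- the image
  have hran : Module.finrank ℚ (LinearMap.range Θ') ≤ Module.finrank ℚ (Additive N →+ ℚ) := by
    have hv : ∀ (φ : Module.Dual ℚ (EQ sm cusp (1 : N →* ℚˣ) 2 ⧸ M))
        (c : EQ sm cusp (1 : N →* ℚˣ) 1), (φ ∘ₗ M.mkQ) (crE hF (1 : N →* ℚˣ) 1 c) = 0 := by
      intro φ c
      have h2 : M.mkQ (crE hF (1 : N →* ℚˣ) 1 c) = 0 := by
        rw [Submodule.mkQ_apply, Submodule.Quotient.mk_eq_zero]
        exact ⟨c, rfl⟩
      rw [LinearMap.comp_apply, h2, map_zero]
    have hadd : ∀ (φ : Module.Dual ℚ (EQ sm cusp (1 : N →* ℚˣ) 2 ⧸ M)) (g h : N),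
        (φ ∘ₗ M.mkQ) (avL hF (1 : N →* ℚˣ) 2 (e (g * h))) =
          (φ ∘ₗ M.mkQ) (avL hF (1 : N →* ℚˣ) 2 (e g)) +
          (φ ∘ₗ M.mkQ) (avL hF (1 : N →* ℚˣ) 2 (e h)) := by
      intro φ g h
      have := dual_crossed hF (1 : N →* ℚˣ) z (φ ∘ₗ M.mkQ) (hv φ) e he g h
      simpa using this
    let T : Module.Dual ℚ (EQ sm cusp (1 : N →* ℚˣ) 2 ⧸ M) →ₗ[ℚ] (Additive N →+ ℚ) :=
      { toFun := fun φ => AddMonoidHom.mk'
          (fun g => (φ ∘ₗ M.mkQ) (avL hF (1 : N →* ℚˣ) 2 (e g.toMul))) (fun g h => hadd φ _ _)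
        map_add' := fun φ ψ => rfl
        map_smul' := fun c φ => rfl }
    have hT' : ∀ φ g, T φ (Additive.ofMul g) = (φ ∘ₗ M.mkQ) (avL hF (1 : N →* ℚˣ) 2 (e g)) :=
      fun φ g => rfl
    have hker' : ∀ φ, T φ = 0 → (LinearMap.range Θ').dualRestrict φ = 0 := by
      intro φ hφ
      apply LinearMap.ext
      rintro ⟨y, c, rfl⟩
      show φ (Θ' c) = 0
      refine dual_principal hF hT (1 : N →* ℚˣ) z hz hz' e he (φ ∘ₗ M.mkQ) (hv φ) 0 ?_ (Θ c) ?_
      · intro g
        rw [← hT', hφ]
        simp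
      · exact Subtype.ext (cr_cr _)
    obtain ⟨s, hs⟩ := LinearMap.exists_rightInverse_of_surjective
      (LinearMap.range Θ').dualRestrict
      (LinearMap.range_eq_top.2 (Subspace.dualRestrict_surjective))
    have hinj : Function.Injective (T ∘ₗ s) := by
      rw [injective_iff_map_eq_zero]
      intro y hy
      have h1 := hker' (s y) hy
      have h2 := LinearMap.congr_fun hs y
      rw [LinearMap.comp_apply, h1] at h2
      exact h2.symm
    have h3 := LinearMap.finrank_le_finrank_of_injective hinj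
    rwa [Subspace.dual_finrank_eq] at h3
  have hsum := LinearMap.finrank_range_add_finrank_ker Θ'
  rw [Module.finrank_pi_fintype, Fin.sum_univ_three] at hsum
  have := hne 2
  have hpos : 0 < Module.finrank ℚ (Additive (MulAction.stabilizer N (ξ 2)) →+ ℚ) :=
    Module.finrank_pos
  have h0 := hbw 0
  have h1 := hbw 1
  omega

end RCan
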