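import Pool.Agent.W_04c03c_h58.AlgA

/-!
# The orientation character
-/

namespace RCan

theorem AlgK1_cr_cast {V : Type*} (sm : V → V → Prop) (f : List V → ℤ) :
    cr sm (fun l => ((f l : ℤ) : ℚ)) = fun l => ((cr sm f l : ℤ) : ℚ) := by
  funext l
  unfold cr
  split_ifs
  · exact congrFun (co_hom (Int.castAddHom ℚ) f) l
  · simp

theorem AlgK1_cast {Ξ V : Type*} {sm : V → V → Prop} {cusp : V → Option Ξ} {n : ℕ}
    {f : List V → ℤ} (hf : IsD sm cusp ℤ n f) : IsD sm cusp ℚ n (fun l => ((f l : ℤ) : ℚ)) := by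
  refine ⟨Alt.hom (Int.castAddHom ℚ) hf.alt, ?_, ?_, ?_⟩
  · intro l hl
    exact hf.len l (fun h => hl (by simp [h]))
  · intro l hl
    exact hf.rl l (fun h => hl (by simp [h]))
  · exact hf.fin.subset (fun l hl => fun h => hl (by simp [h]))

/-- The orientation character.

Proof. Let `z₀` be as in `hF.h3`, `z = (z₀ : ℚ)`. If `z` is a coboundary `cr e`, `e ∈ DSub 2`, take `N₀ = ⊤`
(`tr g z - z = cr (tr g e - e)`). Otherwise for `g : N` let `tr g z - m g • z = cr (..)`, `m g : ℤ`; `m g` is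
unique (`z` is not a coboundary), `m (g * h) = m g * m h`, `m 1 = 1`, so `m g * m g⁻¹ = 1`,
`m g = 1` or `-1`. `N₀ = {g | m g = 1}` is a normal subgroup of index at most two (kernel of a
homomorphism to `ℤˣ`, `Subgroup.index_ker`, the range has at most two elements). -/
theorem exists_z_rat {N Ξ V : Type*} [Group N] [MulAction N Ξ] [MulAction N V]
    {sm : V → V → Prop} {cusp : V → Option Ξ} (hF : Face N Ξ V sm cusp) :
    ∃ N₀ : Subgroup N, N₀.index ≠ 0 ∧ N₀.index ≤ 2 ∧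
      ∃ z : DSub sm cusp ℚ 3, crD hF ℚ 3 z = 0 ∧
      (∀ f : DSub sm cusp ℚ 3, crD hF ℚ 3 f = 0 → ∃ (c : ℚ) (e : DSub sm cusp ℚ 2),
        f = c • z + crD hF ℚ 2 e) ∧
      ∀ g ∈ N₀, ∃ e : DSub sm cusp ℚ 2, crD hF ℚ 2 e = trD hF ℚ 3 g z - z := by
  classical
  obtain ⟨z₀, hz₀, hz₀c, hgen, heig⟩ := hF.h3
  obtain ⟨z, hz⟩ : ∃ z : DSub sm cusp ℚ 3, z.1 = fun l => ((z₀ l : ℤ) : ℚ) :=
    ⟨⟨_, AlgK1_cast hz₀⟩, rfl⟩
  have hzc : crD hF ℚ 3 z = 0 := by
    apply Subtype.ext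
    rw [crD_coe, hz, AlgK1_cr_cast, hz₀c]
    funext l
    simp
  have hgen' : ∀ f : DSub sm cusp ℚ 3, crD hF ℚ 3 f = 0 → ∃ (c : ℚ) (e : DSub sm cusp ℚ 2),
      f = c • z + crD hF ℚ 2 e := by
    intro f hf
    obtain ⟨c, e, he, h⟩ := hgen ℚ f.1 f.2 (congrArg Subtype.val hf)
    refine ⟨c, ⟨e, he⟩, Subtype.ext ?_⟩
    funext l
    have h1 := congrFun h l
    have h2 : ((c • z + crD hF ℚ 2 ⟨e, he⟩ : DSub sm cusp ℚ 3) : List V → ℚ) l =
        c * z.1 l + cr sm e l := rfl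
    rw [h2, hz, ← h1]
    ring
  have heig' : ∀ g : N, ∃ (m : ℤ) (e : DSub sm cusp ℚ 2),
      crD hF ℚ 2 e = trD hF ℚ 3 g z - (m : ℚ) • z := by
    intro g
    obtain ⟨m, e, he, h⟩ := heig g
    refine ⟨m, ⟨_, AlgK1_cast he⟩, Subtype.ext ?_⟩
    rw [crD_coe, AlgK1_cr_cast, ← h]
    funext l
    have h2 : ((trD hF ℚ 3 g z - (m : ℚ) • z : DSub sm cusp ℚ 3) : List V → ℚ) l =
        z.1 (l.map (fun x => g⁻¹ • x)) - (m : ℚ) * z.1 l := rfl
    rw [h2, hz]
    push_cast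
    rfl
  by_cases hcob : ∃ e : DSub sm cusp ℚ 2, crD hF ℚ 2 e = z
  · obtain ⟨e, he⟩ := hcob
    refine ⟨⊤, by simp, by simp, z, hzc, hgen', fun g _ => ⟨trD hF ℚ 2 g e - e, ?_⟩⟩
    rw [map_sub, crD_trD, he]
  · have huniq : ∀ (y : DSub sm cusp ℚ 3) (a b : ℚ), (∃ e, crD hF ℚ 2 e = y - a • z) →
        (∃ e, crD hF ℚ 2 e = y - b • z) → a = b := by
      rintro y a b ⟨e, he⟩ ⟨e', he'⟩
      by_contra hne
      apply hcob
      refine ⟨(a - b)⁻¹ • (e' - e), ?_⟩
      rw [map_smul, map_sub, he, he']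
      have h1 : y - b • z - (y - a • z) = (a - b) • z := by
        have h2 : (a - b) • z = a • z - b • z := sub_smul a b z
        rw [h2]
        abel
      rw [h1, smul_smul, inv_mul_cancel₀ (sub_ne_zero.2 hne), one_smul]
    choose m e hme using heig'
    have hone : m 1 = 1 := by
      have h1 := huniq (trD hF ℚ 3 1 z) (m 1 : ℚ) 1 ⟨_, hme 1⟩ ⟨0, by
        rw [map_zero, trD_one, one_smul, sub_self]⟩
      exact_mod_cast h1
    have hmul : ∀ g h, m (g * h) = m g * m h := by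
      intro g h
      have h1 := huniq (trD hF ℚ 3 (g * h) z) (m (g * h) : ℚ) ((m g : ℚ) * m h) ⟨_, hme (g * h)⟩
        ⟨trD hF ℚ 2 g (e h) + (m h : ℚ) • e g, by
          rw [map_add, map_smul, crD_trD, hme h, hme g, trD_mul, map_sub, map_smul, smul_sub,
            smul_smul, mul_comm (m h : ℚ)]
          abel⟩
      exact_mod_cast h1
    let M : N →* ℤ :=
      { toFun := m
        map_one' := hone
        map_mul' := hmul }
    let φ : N →* ℤˣ := M.toHomUnits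
    have hcard : Nat.card ℤˣ = 2 := by
      rw [Nat.card_eq_fintype_card]
      rfl
    refine ⟨φ.ker, ?_, ?_, z, hzc, hgen', ?_⟩
    · rw [Subgroup.index_ker]
      exact Nat.card_pos.ne'
    · rw [Subgroup.index_ker, ← hcard]
      exact Nat.card_le_card_of_injective (Subtype.val : φ.range → ℤˣ) Subtype.val_injective
    · intro g hg
      have h1 : m g = 1 := by
        have h2 : φ g = 1 := hg
        have h3 := congrArg (Units.val) h2
        exact h3
      refine ⟨e g, ?_⟩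
      rw [hme g, h1]
      norm_num

end RCan
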