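import Pool.Agent.W_04c03c_h58.AlgA

/-!
# Subgroups of finite index
-/

namespace RCan

/-- Finite index subgroups inherit the interface.

Proof. All fields are clear except `fin`: let `F` be as in `hF.fin` and `g₁, ..., g_m` representatives of
the right cosets, `N = ⋃ N' g_i`; `F' = ⋃ g_i • F`... : for a relative list `l` there is `g` with
`g • x ∈ F` for `x ∈ l`; write `g = g_i⁻¹ * n` hence `n = g_i * g ∈ N'` for suitable `i`
(finitely many left cosets of `N'`); `n • x ∈ g_i • F`. `F' = ⋃_i g_i • F`. For `h3`: the same `z`. -/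
theorem Face.sub {N Ξ V : Type*} [Group N] [MulAction N Ξ] [MulAction N V]
    {sm : V → V → Prop} {cusp : V → Option Ξ} (hF : Face N Ξ V sm cusp) (N' : Subgroup N)
    [N'.FiniteIndex] : Face N' Ξ V sm cusp := by
  refine ⟨hF.refl, hF.symm, fun g v w h => hF.smul_sm g v w h, fun g v => hF.cusp_smul g v, hF.ex,
    fun g v h => Subtype.ext (hF.free g v h), hF.conn, hF.dis, hF.ne, ?_, hF.h2, hF.hn, ?_⟩
  · obtain ⟨F, hFf, hF2⟩ := hF.fin
    have : Finite (N ⧸ N') := inferInstance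
    refine ⟨⋃ q : N ⧸ N', (fun x => (Quotient.out q)⁻¹ • x) '' F,
      Set.finite_iUnion fun q => hFf.image _, fun l hl => ?_⟩
    obtain ⟨g, hg⟩ := hF2 l hl
    obtain ⟨h, hh⟩ := QuotientGroup.mk_out_eq_mul N' g
    refine ⟨h⁻¹, fun x hx => ?_⟩
    rw [Set.mem_iUnion]
    refine ⟨(g : N ⧸ N'), g • x, hg x hx, ?_⟩
    show (Quotient.out (g : N ⧸ N'))⁻¹ • (g • x) = h⁻¹ • x
    rw [hh, ← mul_smul, mul_inv_rev, inv_mul_cancel_right]
    rfl
  · obtain ⟨z, h1, h2, h3, h4⟩ := hF.h3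
    exact ⟨z, h1, h2, h3, fun g => h4 g⟩

end RCan
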