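import Pool.Agent.W_04c03c_h58.Face

/-!
# Alternating cochains: first properties
-/

namespace RCan

variable {V W A : Type*} [AddCommGroup A]

theorem Alt.zero : Alt (0 : List V → A) := by
  refine ⟨fun _ _ _ _ => by simp, fun _ _ _ => rfl⟩

theorem Alt.add {f g : List V → A} (hf : Alt f) (hg : Alt g) : Alt (f + g) := by
  refine ⟨fun l₁ x y l₂ => ?_, fun l₁ x l₂ => ?_⟩
  · rw [Pi.add_apply, Pi.add_apply, hf.1, hg.1]; abel
  · rw [Pi.add_apply, hf.2, hg.2, add_zero]

theorem Alt.neg {f : List V → A} (hf : Alt f) : Alt (-f) := by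
  refine ⟨fun l₁ x y l₂ => ?_, fun l₁ x l₂ => ?_⟩
  · rw [Pi.neg_apply, Pi.neg_apply, hf.1]
  · rw [Pi.neg_apply, hf.2, neg_zero]

theorem Alt.sub {f g : List V → A} (hf : Alt f) (hg : Alt g) : Alt (f - g) := by
  rw [sub_eq_add_neg]
  exact hf.add hg.neg

theorem Alt.hom {B : Type*} [AddCommGroup B] (φ : A →+ B) {f : List V → A} (hf : Alt f) :
    Alt (fun l => φ (f l)) := by
  refine ⟨fun l₁ x y l₂ => ?_, fun l₁ x l₂ => ?_⟩
  · show φ (f _) = -φ (f _)
    rw [hf.1 l₁ x y l₂, map_neg]
  · show φ (f _) = 0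
    rw [hf.2 l₁ x l₂, map_zero]

theorem Alt.map (φ : V → W) {f : List W → A} (hf : Alt f) : Alt (fun l => f (l.map φ)) := by
  refine ⟨fun l₁ x y l₂ => ?_, fun l₁ x l₂ => ?_⟩
  · simp only [List.map_append, List.map_cons]
    exact hf.1 _ _ _ _
  · simp only [List.map_append, List.map_cons]
    exact hf.2 _ _ _

/-- Product of an alternating cochain with the indicator of a set of lists which depends only on
the set of entries. -/
theorem Alt.ite (P : List V → Prop) [DecidablePred P]
    (hP : ∀ l l' : List V, l ⊆ l' → l' ⊆ l → (P l ↔ P l')) {f : List V → A} (hf : Alt f) :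
    Alt (fun l => if P l then f l else 0) := by
  refine ⟨fun l₁ x y l₂ => ?_, fun l₁ x l₂ => ?_⟩
  · have h : P (l₁ ++ x :: y :: l₂) ↔ P (l₁ ++ y :: x :: l₂) := by
      apply hP
      · intro z hz
        simp only [List.mem_append, List.mem_cons] at hz ⊢
        tauto
      · intro z hz
        simp only [List.mem_append, List.mem_cons] at hz ⊢
        tauto
    show (if P (l₁ ++ x :: y :: l₂) then f (l₁ ++ x :: y :: l₂) else 0)
      = -(if P (l₁ ++ y :: x :: l₂) then f (l₁ ++ y :: x :: l₂) else 0)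
    by_cases h1 : P (l₁ ++ x :: y :: l₂)
    · rw [if_pos h1, if_pos (h.1 h1), hf.1]
    · rw [if_neg h1, if_neg (fun h2 => h1 (h.2 h2)), neg_zero]
  · show (if P (l₁ ++ x :: x :: l₂) then f (l₁ ++ x :: x :: l₂) else 0) = 0
    rw [hf.2]
    split_ifs <;> rfl

theorem Alt.cons_fun {f : List V → A} (hf : Alt f) (z : V) : Alt (fun l => f (z :: l)) := by
  refine ⟨fun l₁ x y l₂ => ?_, fun l₁ x l₂ => ?_⟩
  · exact hf.1 (z :: l₁) x y l₂
  · exact hf.2 (z :: l₁) x l₂

theorem Alt.two_eq {f : List V → A} (hf : Alt f) (x : V) (m : List V) :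
    ∀ l₁ l₃ : List V, f (l₁ ++ x :: (m ++ x :: l₃)) = 0 := by
  induction m with
  | nil => intro l₁ l₃; exact hf.2 l₁ x l₃
  | cons y m ih =>
    intro l₁ l₃
    have h1 := hf.1 l₁ x y (m ++ x :: l₃)
    have h2 := ih (l₁ ++ [y]) l₃
    rw [List.append_assoc] at h2
    have h3 : f (l₁ ++ y :: x :: (m ++ x :: l₃)) = 0 := h2
    rw [h3, neg_zero] at h1
    exact h1

theorem Alt.not_nodup_aux {f : List V → A} (hf : Alt f) (l : List V) :
    ∀ l₀ : List V, ¬ l.Nodup → f (l₀ ++ l) = 0 := by
  classical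
  induction l with
  | nil => intro l₀ h; exact absurd List.nodup_nil h
  | cons a l ih =>
    intro l₀ h
    by_cases ha : a ∈ l
    · obtain ⟨s, t, rfl⟩ := List.append_of_mem ha
      exact hf.two_eq a s l₀ t
    · have hl : ¬ l.Nodup := fun h' => h (List.nodup_cons.mpr ⟨ha, h'⟩)
      have h2 := ih (l₀ ++ [a]) hl
      rw [List.append_assoc] at h2
      exact h2

/-- An alternating cochain vanishes on lists with repeated entries.

Proof. `l = l₁ ++ x :: l₂ ++ x :: l₃`; move the second `x` to the left by `hf.1` until it is next to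
the first one; then `hf.2`. For instance show by induction on `m` that
`f (l₁ ++ x :: (m ++ x :: l₃)) = 0` for all `l₁ l₃`: for `m = m' ++ [y]` use `hf.1` for `y, x`
(`List.reverseRecOn` / induction on `m` reversed). Or: by induction show that for every permutation
`l'` of `l` there is `ε = 1 ∨ ε = -1` with `f (l₀ ++ l') = ε • f (l₀ ++ l)` (`List.Perm.rec`), and use that
a list with repeated entries is a permutation of some `x :: x :: l'`. -/
theorem Alt.not_nodup {f : List V → A} (hf : Alt f) {l : List V} (hl : ¬ l.Nodup) : f l = 0 := by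
  exact hf.not_nodup_aux l [] hl

/-- An alternating cochain vanishes on constant lists of length at least two. -/
theorem Alt.const {f : List V → A} (hf : Alt f) {l : List V} {x : V} (hx : ∀ y ∈ l, y = x)
    (hl : 2 ≤ l.length) : f l = 0 := by
  rcases l with _ | ⟨a, _ | ⟨b, l⟩⟩
  · simp at hl
  · simp at hl
  · have ha : a = x := hx a (by simp)
    have hb : b = x := hx b (by simp)
    rw [ha, hb]
    exact hf.2 [] x l

/-- The coboundary of an alternating cochain is alternating.

Proof. For lists `l₁, l₂`: `dl (l₁ ++ l₂) f = dl l₁ (fun m => f (m ++ l₂)) + (-1) ^ l₁.length • dl l₂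
(fun m => f (l₁ ++ m))` (induction on `l₁`). With `l₂ = x :: y :: m` and twice `dl_cons`:
`dl (x :: y :: m) g = g (y :: m) - g (x :: m) + dl m (fun m' => g (x :: y :: m'))`. Exchanging `x` and
`y` changes the sign of each term (the first sum by `hf.1`). For `x = y` all terms vanish. -/
theorem Alt.co {f : List V → A} (hf : Alt f) : Alt (co f) := by
  refine ⟨fun l₁ => ?_, fun l₁ => ?_⟩
  · induction l₁ generalizing f with
    | nil =>
      intro x y l₂
      show dl (x :: y :: l₂) f = -dl (y :: x :: l₂) f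
      have h1 : (fun l' => f (x :: y :: l')) = -(fun l' => f (y :: x :: l')) := by
        funext l'
        exact hf.1 [] x y l'
      rw [dl_cons, dl_cons, dl_cons, dl_cons, h1, dl_neg]
      abel
    | cons z l₁ ih =>
      intro x y l₂
      show dl (z :: (l₁ ++ x :: y :: l₂)) f = -dl (z :: (l₁ ++ y :: x :: l₂)) f
      have h1 : dl (l₁ ++ x :: y :: l₂) (fun l => f (z :: l)) =
          -dl (l₁ ++ y :: x :: l₂) (fun l => f (z :: l)) := ih (hf.cons_fun z) x y l₂
      rw [dl_cons, dl_cons, h1, hf.1 l₁ x y l₂]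
      abel
  · induction l₁ generalizing f with
    | nil =>
      intro x l₂
      show dl (x :: x :: l₂) f = 0
      have h1 : (fun l' => f (x :: x :: l')) = (0 : List V → A) := by
        funext l'
        exact hf.2 [] x l'
      rw [dl_cons, dl_cons, h1, dl_zero]
      abel
    | cons z l₁ ih =>
      intro x l₂
      show dl (z :: (l₁ ++ x :: x :: l₂)) f = 0
      have h1 : dl (l₁ ++ x :: x :: l₂) (fun l => f (z :: l)) = 0 := ih (hf.cons_fun z) x l₂
      rw [dl_cons, h1, hf.2 l₁ x l₂, sub_zero]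

end RCan
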