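import Pool.Agent.W_04c03c_h58.AltB

/-!
# The sign of a list and the retraction onto alternating cochains
-/

namespace RCan

variable {V A : Type*} [AddCommGroup A] [LinearOrder V]

/-- `1` if `x < y`, `-1` if `x > y`, `0` if `x = y` -/
def cz (x y : V) : ℤ := if x < y then 1 else if y < x then -1 else 0

/-- sign of a list: `∏_{i < j} cz (x_i) (x_j)` -/
def sgn : List V → ℤ
  | [] => 1
  | x :: l => (l.map (cz x)).prod * sgn l

/-- the sorted list -/
def srt (l : List V) : List V := l.insertionSort (· ≤ ·)

/-- the retraction onto alternating cochains -/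
def rr (f : List V → A) : List V → A := fun l => sgn l • f (srt l)

theorem mem_srt {l : List V} {x : V} : x ∈ srt l ↔ x ∈ l := by
  simp [srt, List.mem_insertionSort]

theorem length_srt (l : List V) : (srt l).length = l.length := by
  simp [srt, List.length_insertionSort]

theorem AltC_cz_symm (x y : V) : cz x y = -cz y x := by
  unfold cz
  rcases lt_trichotomy x y with h | h | h
  · rw [if_pos h, if_neg (not_lt.mpr h.le), if_pos h, neg_neg]
  · subst h
    simp
  · rw [if_neg (not_lt.mpr h.le), if_pos h, if_pos h]

theorem AltC_cz_self (x : V) : cz x x = 0 := by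
  unfold cz
  simp

theorem AltC_cz_eq_zero {x y : V} : cz x y = 0 ↔ x = y := by
  constructor
  · intro h
    rcases lt_trichotomy x y with h1 | h1 | h1
    · unfold cz at h
      rw [if_pos h1] at h
      omega
    · exact h1
    · unfold cz at h
      rw [if_neg (not_lt.mpr h1.le), if_pos h1] at h
      omega
  · rintro rfl
    exact AltC_cz_self x

theorem AltC_sgn_cons (x : V) (l : List V) : sgn (x :: l) = (l.map (cz x)).prod * sgn l := rfl

/-- The sign is alternating (as a function with values in `ℤ`). -/
theorem alt_sgn : Alt (sgn : List V → ℤ) := by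
  constructor
  · intro l₁ x y l₂
    induction l₁ with
    | nil =>
      simp only [List.nil_append, AltC_sgn_cons, List.map_cons, List.prod_cons]
      rw [AltC_cz_symm x y]
      ring
    | cons z l₁ ih =>
      rw [List.cons_append, List.cons_append, AltC_sgn_cons, AltC_sgn_cons, ih]
      have h1 : ((l₁ ++ x :: y :: l₂).map (cz z)).prod = ((l₁ ++ y :: x :: l₂).map (cz z)).prod :=
        (((List.Perm.swap y x l₂).append_left l₁).map (cz z)).prod_eq
      rw [h1]
      ring
  · intro l₁ x l₂
    induction l₁ with
    | nil =>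
      simp only [List.nil_append, AltC_sgn_cons, List.map_cons, List.prod_cons]
      rw [AltC_cz_self x]
      ring
    | cons z l₁ ih =>
      rw [List.cons_append, AltC_sgn_cons, ih, mul_zero]

/-- `sgn l` is `0` iff `l` has repeated entries. -/
theorem sgn_eq_zero {l : List V} : sgn l = 0 ↔ ¬ l.Nodup := by
  induction l with
  | nil =>
    simp [sgn]
  | cons x l ih =>
    rw [AltC_sgn_cons, mul_eq_zero, ih, List.nodup_cons, List.prod_eq_zero_iff, List.mem_map]
    constructor
    · rintro (⟨y, hy, h⟩ | h)
      · rw [AltC_cz_eq_zero] at h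
        subst h
        exact fun h2 => h2.1 hy
      · exact fun h2 => h h2.2
    · intro h
      by_cases hx : x ∈ l
      · exact Or.inl ⟨x, hx, AltC_cz_self x⟩
      · exact Or.inr fun h2 => h ⟨hx, h2⟩

/-- The sign of a strictly increasing list is `1`. -/
theorem sgn_sorted {l : List V} (hl : l.Pairwise (· < ·)) : sgn l = 1 := by
  induction l with
  | nil => rfl
  | cons x l ih =>
    rw [List.pairwise_cons] at hl
    rw [AltC_sgn_cons, ih hl.2, mul_one]
    refine List.prod_eq_one fun c hc => ?_
    rw [List.mem_map] at hc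
    obtain ⟨y, hy, rfl⟩ := hc
    unfold cz
    rw [if_pos (hl.1 y hy)]

theorem AltC_srt_perm (l : List V) : (srt l).Perm l := List.perm_insertionSort _ l

theorem AltC_srt_sorted (l : List V) : (srt l).Pairwise (· ≤ ·) := List.pairwise_insertionSort _ l

theorem AltC_srt_congr {l l' : List V} (h : l.Perm l') : srt l = srt l' :=
  (((AltC_srt_perm l).trans h).trans (AltC_srt_perm l').symm).eq_of_pairwise'
    (AltC_srt_sorted l) (AltC_srt_sorted l')

theorem AltC_srt_lt {l : List V} (h : l.Nodup) : (srt l).Pairwise (· < ·) := by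
  have h1 : (srt l).Nodup := (AltC_srt_perm l).nodup_iff.mpr h
  have h2 := AltC_srt_sorted l
  rw [List.nodup_iff_pairwise_ne] at h1
  exact (h2.and h1).imp fun h3 => lt_of_le_of_ne h3.1 h3.2

theorem AltC_srt_self {l : List V} (h : l.Pairwise (· < ·)) : srt l = l :=
  List.Pairwise.insertionSort_eq (h.imp fun h1 => h1.le)

/-- `rr f` is alternating: `srt` is the same for permuted lists and `sgn` is alternating. -/
theorem alt_rr (f : List V → A) : Alt (rr f) := by
  constructor
  · intro l₁ x y l₂
    change sgn _ • f (srt _) = -(sgn _ • f (srt _))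
    rw [AltC_srt_congr ((List.Perm.swap y x l₂).append_left l₁), alt_sgn.1, neg_smul]
  · intro l₁ x l₂
    change sgn _ • f (srt _) = 0
    rw [alt_sgn.2, zero_smul]

theorem AltC_perm {f : List V → A} (hf : Alt f) {l l' : List V} (h : l.Perm l') :
    ∀ l₀ : List V, ∃ ε : ℤ, ε * ε = 1 ∧ sgn (l₀ ++ l') = ε * sgn (l₀ ++ l) ∧
      f (l₀ ++ l') = ε • f (l₀ ++ l) := by
  induction h with
  | nil => exact fun l₀ => ⟨1, by norm_num, by ring, by rw [one_smul]⟩
  | cons x h ih =>
    intro l₀
    obtain ⟨ε, h1, h2, h3⟩ := ih (l₀ ++ [x])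
    refine ⟨ε, h1, ?_, ?_⟩
    · simpa using h2
    · simpa using h3
  | swap x y l =>
    intro l₀
    refine ⟨-1, by norm_num, ?_, ?_⟩
    · rw [alt_sgn.1 l₀ x y l]
      ring
    · rw [hf.1 l₀ x y l, neg_smul, one_smul]
  | trans h1 h2 ih1 ih2 =>
    intro l₀
    obtain ⟨ε, e1, e2, e3⟩ := ih1 l₀
    obtain ⟨δ, d1, d2, d3⟩ := ih2 l₀
    refine ⟨δ * ε, ?_, ?_, ?_⟩
    · linear_combination (δ * δ) * e1 + d1
    · rw [d2, e2]
      ring
    · rw [d3, e3, mul_smul]

/-- `rr` is the identity on alternating cochains.

Proof. If `l` has repeated entries both sides vanish. Otherwise: `l` is a permutation of `srt l`, and for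
two alternating functions `f` (values in `A`) and `sgn` (values in `ℤ`) and a permutation `l'` of `l` one
has `sgn l • f l' = sgn l' • f l`
(induction on the permutation, in the form `∀ l₀, sgn (l₀ ++ l) • f (l₀ ++ l') = sgn (l₀ ++ l') •
f (l₀ ++ l)`: for the swap both change sign). With `l' = srt l`, `sgn l' = 1`. -/
theorem rr_alt {f : List V → A} (hf : Alt f) : rr f = f := by
  funext l
  change sgn l • f (srt l) = f l
  by_cases hl : l.Nodup
  · obtain ⟨ε, h1, h2, h3⟩ := AltC_perm hf (AltC_srt_perm l).symm []
    rw [List.nil_append, List.nil_append] at h2 h3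
    rw [sgn_sorted (AltC_srt_lt hl)] at h2
    have h4 : sgn l = ε := by linear_combination (-(sgn l)) * h1 - ε * h2
    rw [h4, h3, smul_smul, h1, one_smul]
  · rw [sgn_eq_zero.mpr hl, zero_smul, hf.not_nodup hl]

theorem AltC_rr_lt (f : List V → A) {l : List V} (h : l.Pairwise (· < ·)) : rr f l = f l := by
  change sgn l • f (srt l) = f l
  rw [AltC_srt_self h, sgn_sorted h, one_smul]

/-- `rr` commutes with the coboundary.

Proof. Both sides are alternating (`alt_rr`, `Alt.co`), so by `rr_alt` they are determined by
their values on strictly increasing lists `l` (a list with repeated entries gives `0` on both sides; for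
`l` without repeated entries `F l = sgn l • F (srt l)`). For `l` strictly increasing all faces of `l` are
strictly increasing, hence `rr f = f` on the faces and on `l`: `srt l = l`, `sgn l = 1` (`dl_congr`). -/
theorem co_rr (f : List V → A) : co (rr f) = rr (co f) := by
  have h1 : ∀ s : List V, s.Pairwise (· < ·) → co (rr f) s = rr (co f) s := by
    intro s hs
    rw [AltC_rr_lt (co f) hs]
    change dl s (rr f) = dl s f
    refine dl_congr s fun l' h2 _ => ?_
    exact AltC_rr_lt f (hs.sublist h2)
  rw [← rr_alt (alt_rr f).co]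
  funext l
  change sgn l • co (rr f) (srt l) = rr (co f) l
  by_cases hl : l.Nodup
  · rw [h1 _ (AltC_srt_lt hl)]
    have h3 := congrFun (rr_alt (alt_rr (co f))) l
    exact h3
  · rw [sgn_eq_zero.mpr hl, zero_smul, (alt_rr (co f)).not_nodup hl]

theorem rr_add (f g : List V → A) : rr (f + g) = rr f + rr g := by
  funext l
  simp [rr]

theorem rr_sub (f g : List V → A) : rr (f - g) = rr f - rr g := by
  funext l
  simp [rr, smul_sub]

/-- if `f` and `g` agree on all lists with the same entries and length as `l` -/
theorem rr_congr {f g : List V → A} {l : List V}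
    (h : ∀ l' : List V, l'.length = l.length → (∀ x, x ∈ l' ↔ x ∈ l) → f l' = g l') :
    rr f l = rr g l := by
  show sgn l • f (srt l) = sgn l • g (srt l)
  rw [h (srt l) (length_srt l) (fun x => mem_srt)]

end RCan
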