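import Pool.Agent.W_04c03c_h58.Lst

/-!
# Alexander-Spanier cochains on subsets of a metric space: definitions

Cochains of degree `m - 1` are functions on lists of length `m` (so that `m = 0` is the augmentation).
-/

namespace RCan

variable {E : Type*} [PseudoMetricSpace E]

/-- lists with entries in `U` and diameter less than `ε` -/
def Nr (U : Set E) (ε : ℝ) (l : List E) : Prop := ∀ x ∈ l, x ∈ U ∧ ∀ y ∈ l, dist x y < ε

/-- `a` is a cocycle (on lists of length `m`) near the diagonal of `U` -/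
def AZ {A : Type*} [AddCommGroup A] (U : Set E) (m : ℕ) (a : List E → A) : Prop :=
  ∃ ε : ℝ, 0 < ε ∧ ∀ l, l.length = m + 1 → Nr U ε l → co a l = 0

/-- `a` is a coboundary (on lists of length `m`) near the diagonal of `U` -/
def AB {A : Type*} [AddCommGroup A] (U : Set E) (m : ℕ) (a : List E → A) : Prop :=
  ∃ (b : List E → A) (ε : ℝ), 0 < ε ∧ ∀ l, l.length = m → Nr U ε l → a l = co b l

/-- all cocycles are coboundaries -/
def Ac (U : Set E) (m : ℕ) : Prop :=
  ∀ (A : Type) [AddCommGroup A] (a : List E → A), AZ U m a → AB U m a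

/-- the cocycles are generated by one integral cocycle -/
def Cyc (U : Set E) (m : ℕ) (w : List E → ℤ) : Prop :=
  AZ U m w ∧ ∀ (k : Type) [CommRing k] (a : List E → k), AZ U m a →
    ∃ c : k, AB U m (fun l => a l - c * (w l : k))

theorem Nr.mono {U V : Set E} {ε ε' : ℝ} {l : List E} (h : Nr U ε l) (hU : U ⊆ V) (he : ε ≤ ε') :
    Nr V ε' l := fun x hx => ⟨hU (h x hx).1, fun y hy => ((h x hx).2 y hy).trans_le he⟩

theorem Nr.sub {U : Set E} {ε : ℝ} {l l' : List E} (h : Nr U ε l) (hl : l' ⊆ l) : Nr U ε l' :=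
  fun x hx => ⟨(h x (hl hx)).1, fun y hy => (h x (hl hx)).2 y (hl hy)⟩

theorem Nr.inter {U V : Set E} {ε : ℝ} {l : List E} (h : Nr U ε l) (h' : ∀ x ∈ l, x ∈ V) :
    Nr (U ∩ V) ε l := fun x hx => ⟨⟨(h x hx).1, h' x hx⟩, (h x hx).2⟩

section

variable {A : Type*} [AddCommGroup A]

theorem AZ.mono {U V : Set E} {m : ℕ} {a : List E → A} (h : AZ V m a) (hU : U ⊆ V) : AZ U m a := by
  obtain ⟨ε, he, h⟩ := h
  exact ⟨ε, he, fun l hl hn => h l hl (hn.mono hU le_rfl)⟩

theorem AB.mono {U V : Set E} {m : ℕ} {a : List E → A} (h : AB V m a) (hU : U ⊆ V) : AB U m a := by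
  obtain ⟨b, ε, he, h⟩ := h
  exact ⟨b, ε, he, fun l hl hn => h l hl (hn.mono hU le_rfl)⟩

theorem AB.add {U : Set E} {m : ℕ} {a a' : List E → A} (h : AB U m a) (h' : AB U m a') :
    AB U m (a + a') := by
  obtain ⟨b, ε, he, h⟩ := h
  obtain ⟨b', ε', he', h'⟩ := h'
  refine ⟨b + b', min ε ε', lt_min he he', fun l hl hn => ?_⟩
  rw [co_add, Pi.add_apply, Pi.add_apply, h l hl (hn.mono subset_rfl (min_le_left _ _)),
    h' l hl (hn.mono subset_rfl (min_le_right _ _))]

theorem AB.neg {U : Set E} {m : ℕ} {a : List E → A} (h : AB U m a) : AB U m (-a) := by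
  obtain ⟨b, ε, he, h⟩ := h
  refine ⟨-b, ε, he, fun l hl hn => ?_⟩
  rw [co_neg, Pi.neg_apply, Pi.neg_apply, h l hl hn]

theorem AB.sub {U : Set E} {m : ℕ} {a a' : List E → A} (h : AB U m a) (h' : AB U m a') :
    AB U m (a - a') := by
  rw [sub_eq_add_neg]
  exact h.add h'.neg

theorem AZ.sub {U : Set E} {m : ℕ} {a a' : List E → A} (h : AZ U m a) (h' : AZ U m a') :
    AZ U m (a - a') := by
  obtain ⟨ε, he, h⟩ := h
  obtain ⟨ε', he', h'⟩ := h'
  refine ⟨min ε ε', lt_min he he', fun l hl hn => ?_⟩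
  rw [co_sub, Pi.sub_apply, h l hl (hn.mono subset_rfl (min_le_left _ _)),
    h' l hl (hn.mono subset_rfl (min_le_right _ _)), sub_zero]

/-- the property depends only on the values on small lists -/
theorem AB.congr {U : Set E} {m : ℕ} {a a' : List E → A} (h : AB U m a) {ε : ℝ} (he : 0 < ε)
    (ha : ∀ l, l.length = m → Nr U ε l → a' l = a l) : AB U m a' := by
  obtain ⟨b, ε', he', h⟩ := h
  refine ⟨b, min ε ε', lt_min he he', fun l hl hn => ?_⟩
  rw [ha l hl (hn.mono subset_rfl (min_le_left _ _)),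
    h l hl (hn.mono subset_rfl (min_le_right _ _))]

theorem AZ.congr {U : Set E} {m : ℕ} {a a' : List E → A} (h : AZ U m a) {ε : ℝ} (he : 0 < ε)
    (ha : ∀ l, l.length = m → Nr U ε l → a' l = a l) : AZ U m a' := by
  obtain ⟨ε', he', h⟩ := h
  refine ⟨min ε ε', lt_min he he', fun l hl hn => ?_⟩
  rw [← h l hl (hn.mono subset_rfl (min_le_right _ _))]
  apply dl_congr
  intro l' h1 h2
  exact ha l' (by omega) ((hn.mono subset_rfl (min_le_left _ _)).sub h1.subset)

end

end RCan
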