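import Pool.Agent.W_04c03c_h58.AltC
import Pool.Agent.W_04c03c_h58.AsA

/-!
# Alternating Alexander-Spanier cochains
-/

namespace RCan

variable {E : Type*} [PseudoMetricSpace E]

theorem AsAlt_trunc {V A : Type*} [AddCommGroup A] {f : List V → A} (hf : Alt f) (m : ℕ) :
    Alt (fun l => if l.length = m then f l else 0) := by
  refine ⟨fun l₁ x y l₂ => ?_, fun l₁ x l₂ => ?_⟩
  · have h : (l₁ ++ x :: y :: l₂).length = (l₁ ++ y :: x :: l₂).length := by simp
    show (if (l₁ ++ x :: y :: l₂).length = m then f (l₁ ++ x :: y :: l₂) else 0)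
      = -(if (l₁ ++ y :: x :: l₂).length = m then f (l₁ ++ y :: x :: l₂) else 0)
    rw [h, hf.1]
    split_ifs
    · rfl
    · rw [neg_zero]
  · show (if (l₁ ++ x :: x :: l₂).length = m then f (l₁ ++ x :: x :: l₂) else 0) = 0
    rw [hf.2]
    split_ifs <;> rfl

theorem AsAlt_co {V A : Type*} [AddCommGroup A] [LinearOrder V] (f : List V → A) {m : ℕ}
    {l : List V} (hl : l.length = m + 1) :
    co (fun l => if l.length = m then rr f l else 0) l = rr (co f) l := by
  rw [← co_rr]
  refine dl_congr l fun l' _ h2 => ?_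
  exact if_pos (by omega)

theorem AsAlt_nr {E : Type*} [PseudoMetricSpace E] {U : Set E} {ε : ℝ} {l l' : List E}
    (h : Nr U ε l) (h' : ∀ x, x ∈ l' ↔ x ∈ l) : Nr U ε l' :=
  h.sub fun x hx => (h' x).1 hx

/-- An alternating coboundary is the coboundary of an alternating cochain.

Proof. Choose a linear order on `E` (`linearOrderOfSTO WellOrderingRel`), `a = co b₀` on small lists of
length `m + 1`; `b l = if l.length = m then rr b₀ l else 0`. For a small list `l` of length `m + 1`:
`a l = rr a l = rr (co b₀) l = co (rr b₀) l = co b l` (`rr_alt`, `rr_congr`, `co_rr`, `dl_congr`). -/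
theorem ab_alt {A : Type*} [AddCommGroup A] {U : Set E} {m : ℕ} {a : List E → A} (ha : Alt a)
    (h : AB U (m + 1) a) : ∃ b : List E → A, Alt b ∧ (∀ l, b l ≠ 0 → l.length = m) ∧
      ∃ ε : ℝ, 0 < ε ∧ ∀ l, l.length = m + 1 → Nr U ε l → a l = co b l := by
  classical
  letI : LinearOrder E := linearOrderOfSTO WellOrderingRel
  obtain ⟨b₀, ε, he, h⟩ := h
  refine ⟨fun l => if l.length = m then rr b₀ l else 0, AsAlt_trunc (alt_rr b₀) m,
    fun l hl => ?_, ε, he, fun l hl hn => ?_⟩
  · by_contra hcon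
    exact hl (if_neg hcon)
  · rw [AsAlt_co b₀ hl, ← congrFun (rr_alt ha) l]
    exact rr_congr fun l' h1 h2 => h l' (h1.trans hl) (AsAlt_nr hn h2)

/-- Proof. With a linear order on `E`, `u l = if l.length = m + 1 then rr w l else 0`: alternating, and a
cocycle near the diagonal (`co (rr w) = rr (co w)`). For `a` alternating and a cocycle:
`a - c w = co b₀` near the diagonal, so by applying `rr`: `a - c u = co (rr b₀)` near the diagonal
(`rr (fun l => c * (w l : k)) = fun l => c * (rr w l : k)`), and `a - c u` is alternating; use `ab_alt`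
(or truncate `rr b₀` directly). -/
theorem cyc_alt {U : Set E} {m : ℕ} {w : List E → ℤ} (h : Cyc U (m + 1) w) :
    ∃ u : List E → ℤ, Alt u ∧ (∀ l, u l ≠ 0 → l.length = m + 1) ∧ AZ U (m + 1) u ∧
      ∀ (k : Type) [CommRing k] (a : List E → k), Alt a → AZ U (m + 1) a →
        ∃ (c : k) (b : List E → k), Alt b ∧ (∀ l, b l ≠ 0 → l.length = m) ∧
          ∃ ε : ℝ, 0 < ε ∧ ∀ l, l.length = m + 1 → Nr U ε l → a l - c * (u l : k) = co b l := by
  classical
  letI : LinearOrder E := linearOrderOfSTO WellOrderingRel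
  obtain ⟨⟨ε, he, hz⟩, hgen⟩ := h
  refine ⟨fun l => if l.length = m + 1 then rr w l else 0, AsAlt_trunc (alt_rr w) (m + 1),
    fun l hl => ?_, ⟨ε, he, fun l hl hn => ?_⟩, fun k _ a ha haz => ?_⟩
  · by_contra hcon
    exact hl (if_neg hcon)
  · rw [AsAlt_co w hl]
    have h1 : rr (co w) l = rr (0 : List E → ℤ) l :=
      rr_congr fun l' h1 h2 => hz l' (h1.trans hl) (AsAlt_nr hn h2)
    rw [h1]
    show sgn l • (0 : ℤ) = 0
    rw [smul_zero]
  · obtain ⟨c, b₀, ε', he', hb⟩ := hgen k a haz
    refine ⟨c, fun l => if l.length = m then rr b₀ l else 0, AsAlt_trunc (alt_rr b₀) m,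
      fun l hl => ?_, ε', he', fun l hl hn => ?_⟩
    · by_contra hcon
      exact hl (if_neg hcon)
    · rw [AsAlt_co b₀ hl]
      have h1 : rr (fun l => a l - c * (w l : k)) l = rr (co b₀) l :=
        rr_congr fun l' h1 h2 => hb l' (h1.trans hl) (AsAlt_nr hn h2)
      rw [← h1]
      show a l - c * ((if l.length = m + 1 then rr w l else 0 : ℤ) : k) =
        sgn l • (a (srt l) - c * (w (srt l) : k))
      rw [if_pos hl]
      have h2 : a l = sgn l • a (srt l) := (congrFun (rr_alt ha) l).symm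
      rw [h2]
      show sgn l • a (srt l) - c * ((sgn l • w (srt l) : ℤ) : k) =
        sgn l • (a (srt l) - c * (w (srt l) : k))
      simp only [smul_sub, zsmul_eq_mul, smul_eq_mul, Int.cast_id]
      push_cast
      ring

end RCan
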