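import Pool.Agent.W_04c03c_h58.AsA

/-!
# Homotopy invariance of Alexander-Spanier cohomology
-/

namespace RCan

variable {E E' : Type*} [PseudoMetricSpace E] [PseudoMetricSpace E'] {A : Type*} [AddCommGroup A]

/-- Two close maps.

Proof. `b l = Finsupp.linearCombination ℤ a (prl ℤ f g l)`. For `c = single l 1` (coefficients `ℤ`):
`co b l = linearCombination b c' ` with `c' = bd c` (`lc_bd` backwards), which is
`linearCombination a (pr ℤ f g (bd c))`, and by `bd_pr` this is `a (l.map g) - a (l.map f) -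
linearCombination a (bd (pr c)) = a (l.map g) - a (l.map f) - linearCombination (co a) (prl ℤ f g l)`
(`lc_bd`). The last term is `0` by `prl_mem` and `lc_eq_zero`: the lists occurring in `prl ℤ f g l` have
length `m + 1` and entries in `l.map f ++ l.map g`, so they satisfy `Nr W ε`. -/
theorem as_step {U : Set E} {W : Set E'} {m : ℕ} {a : List E' → A} {ε ε' : ℝ}
    (ha : ∀ l, l.length = m + 1 → Nr W ε l → co a l = 0) (f g : E → E')
    (h : ∀ x ∈ U, ∀ y ∈ U, dist x y < ε' →
      f x ∈ W ∧ g x ∈ W ∧ dist (f x) (f y) < ε ∧ dist (f x) (g y) < ε ∧ dist (g x) (g y) < ε) :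
    ∃ b : List E → A, ∀ l, l.length = m → Nr U ε' l → a (l.map g) - a (l.map f) = co b l := by
  refine ⟨fun l => Finsupp.linearCombination ℤ a (prl ℤ f g l), fun l hl hn => ?_⟩
  have h1 : ∀ c : LC ℤ E, Finsupp.linearCombination ℤ
      (fun l => Finsupp.linearCombination ℤ a (prl ℤ f g l)) c =
      Finsupp.linearCombination ℤ a (pr ℤ f g c) := by
    intro c
    induction c using Finsupp.induction_linear with
    | zero => simp
    | add c d hc hd => simp only [map_add, hc, hd]
    | single l n => rw [Finsupp.linearCombination_single, pr_single, map_smul]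
  have h2 := lc_bd (k := ℤ) (fun l => Finsupp.linearCombination ℤ a (prl ℤ f g l))
    (Finsupp.single l 1)
  rw [Finsupp.linearCombination_single, one_smul, h1] at h2
  rw [← h2]
  have h3 := bd_pr (k := ℤ) f g (Finsupp.single l 1)
  have h4 : pr ℤ f g (bd ℤ (Finsupp.single l 1)) =
      mp ℤ g (Finsupp.single l 1) - mp ℤ f (Finsupp.single l 1) -
        bd ℤ (pr ℤ f g (Finsupp.single l 1)) := by
    rw [← h3]
    abel
  rw [h4, map_sub, map_sub, mp_single, mp_single, Finsupp.linearCombination_single,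
    Finsupp.linearCombination_single, one_smul, one_smul, lc_bd, pr_single, one_smul]
  have h5 : Finsupp.linearCombination ℤ (co a) (prl ℤ f g l) = 0 := by
    refine lc_eq_zero ?_ (prl_mem f g l)
    rintro l' ⟨h6, h7⟩
    refine ha l' (by rw [h7, hl]) ?_
    have key : ∀ x ∈ l', ∃ u ∈ l, x = f u ∨ x = g u := by
      intro x hx
      have h8 := h6 hx
      rw [List.mem_append, List.mem_map, List.mem_map] at h8
      rcases h8 with ⟨u, hu, rfl⟩ | ⟨u, hu, rfl⟩
      · exact ⟨u, hu, Or.inl rfl⟩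
      · exact ⟨u, hu, Or.inr rfl⟩
    intro x hx
    obtain ⟨u, hu, hxu⟩ := key x hx
    have huU := (hn u hu).1
    constructor
    · have h9 := h u huU u huU ((hn u hu).2 u hu)
      rcases hxu with rfl | rfl
      · exact h9.1
      · exact h9.2.1
    · intro y hy
      obtain ⟨v, hv, hyv⟩ := key y hy
      have hvU := (hn v hv).1
      have h9 := h u huU v hvU ((hn u hu).2 v hv)
      have h10 := h v hvU u huU ((hn v hv).2 u hu)
      rcases hxu with rfl | rfl
      · rcases hyv with rfl | rfl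
        · exact h9.2.2.1
        · exact h9.2.2.2.1
      · rcases hyv with rfl | rfl
        · rw [dist_comm]
          exact h10.2.2.2.1
        · exact h9.2.2.2.2
  rw [h5, sub_zero]

/-- Pull back of cocycles under a uniformly continuous map. -/
theorem AZ.comp {U : Set E} {W : Set E'} {m : ℕ} {a : List E' → A} (ha : AZ W m a) (f : E → E')
    (h : ∀ x ∈ U, f x ∈ W) (hf : ∀ ε > 0, ∃ η > 0, ∀ x ∈ U, ∀ y ∈ U, dist x y < η →
      dist (f x) (f y) < ε) : AZ U m (fun l => a (l.map f)) := by
  obtain ⟨ε, he, ha⟩ := ha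
  obtain ⟨η, hη, hf⟩ := hf ε he
  refine ⟨η, hη, fun l hl hn => ?_⟩
  rw [← co_map]
  apply ha
  · simpa using hl
  · intro x hx
    rw [List.mem_map] at hx
    obtain ⟨x, hx, rfl⟩ := hx
    refine ⟨h x (hn x hx).1, fun y hy => ?_⟩
    rw [List.mem_map] at hy
    obtain ⟨y, hy, rfl⟩ := hy
    exact hf x (hn x hx).1 y (hn y hy).1 ((hn x hx).2 y hy)

/-- Pull back of coboundaries under a uniformly continuous map. -/
theorem AB.comp {U : Set E} {W : Set E'} {m : ℕ} {a : List E' → A} (ha : AB W m a) (f : E → E')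
    (h : ∀ x ∈ U, f x ∈ W) (hf : ∀ ε > 0, ∃ η > 0, ∀ x ∈ U, ∀ y ∈ U, dist x y < η →
      dist (f x) (f y) < ε) : AB U m (fun l => a (l.map f)) := by
  obtain ⟨b, ε, he, ha⟩ := ha
  obtain ⟨η, hη, hf⟩ := hf ε he
  refine ⟨fun l => b (l.map f), η, hη, fun l hl hn => ?_⟩
  rw [← co_map]
  apply ha
  · simpa using hl
  · intro x hx
    rw [List.mem_map] at hx
    obtain ⟨x, hx, rfl⟩ := hx
    refine ⟨h x (hn x hx).1, fun y hy => ?_⟩
    rw [List.mem_map] at hy
    obtain ⟨y, hy, rfl⟩ := hy
    exact hf x (hn x hx).1 y (hn y hy).1 ((hn x hx).2 y hy)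

end RCan
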