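import Pool.Agent.W_04c03c_h58.AsA

/-!
# Constant maps
-/

namespace RCan

variable {E E' : Type*} [PseudoMetricSpace E] [PseudoMetricSpace E'] {A : Type*} [AddCommGroup A]

theorem AsBc_len {V A : Type*} [AddCommGroup A] (g : ℕ → A) (l : List V) :
    dl l (fun l' => g l'.length) = if Even l.length then 0 else g (l.length - 1) := by
  induction l generalizing g with
  | nil => simp
  | cons x l ih =>
    rw [dl_cons]
    have h1 := ih (fun n => g (n + 1))
    have h2 : (fun l' : List V => g (x :: l').length) = fun l' => g (l'.length + 1) := by
      funext l'
      rw [List.length_cons]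
    rw [h2, h1]
    rcases Nat.even_or_odd l.length with h | h
    · rw [if_pos h, if_neg (by rw [List.length_cons, Nat.not_even_iff_odd]; exact h.add_one),
        List.length_cons, Nat.add_sub_cancel, sub_zero]
    · rw [if_neg (by rw [Nat.not_even_iff_odd]; exact h),
        if_pos (by rw [List.length_cons]; exact h.add_one), Nat.sub_add_cancel h.pos, sub_self]

/-- Constant maps.

Proof. Let `c = a (List.replicate m p)`. `co (fun l => a (List.replicate l.length p))` on a list of
length `n + 1` is `a (List.replicate n p)` if `n` is even and `0` if `n` is odd (induction on the list,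
for functions of the length only: if `g l` depends only on `l.length` then `dl l g = 0` for
`l.length` even and `= g` (of length `l.length - 1`) for `l.length` odd). If `m` is even:
`0 = co a (List.replicate (m + 1) p) = c` (`Nr W ε` holds), take `b = 0`. If `m` is odd: `b = fun _ => c`,
`co b l = c` for `l.length = m`. -/
theorem as_const {U : Set E} {W : Set E'} {m : ℕ} {a : List E' → A} (ha : AZ W m a) {p : E'}
    (hp : p ∈ W) : AB U m (fun l => a (l.map (fun _ => p))) := by
  obtain ⟨ε, he, h⟩ := ha
  have hmap : ∀ l : List E, l.map (fun _ => p) = List.replicate l.length p := fun l =>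
    List.map_const'
  rcases Nat.even_or_odd m with hm | hm
  · have h1 := h (List.replicate (m + 1) p) (by simp) (by
      intro x hx
      rw [List.eq_of_mem_replicate hx]
      refine ⟨hp, fun y hy => ?_⟩
      rw [List.eq_of_mem_replicate hy, dist_self]
      exact he)
    have h2 : List.replicate (m + 1) p = (List.replicate (m + 1) ()).map (fun _ => p) := by
      rw [List.map_replicate]
    rw [h2, co_map] at h1
    have h3 : (fun l' : List Unit => a (l'.map fun _ => p)) =
        fun l' : List Unit => a (List.replicate l'.length p) := by
      funext l'
      rw [List.map_const']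
    rw [h3, co_apply, AsBc_len (fun n => a (List.replicate n p)), List.length_replicate,
      if_neg (by rw [Nat.not_even_iff_odd]; exact hm.add_one), Nat.add_sub_cancel] at h1
    refine ⟨0, 1, one_pos, fun l hl _ => ?_⟩
    rw [co_zero, Pi.zero_apply]
    show a (l.map fun _ => p) = 0
    rw [hmap, hl]
    exact h1
  · refine ⟨fun _ => a (List.replicate m p), 1, one_pos, fun l hl _ => ?_⟩
    rw [co_apply, AsBc_len (fun _ => a (List.replicate m p)),
      if_neg (by rw [hl, Nat.not_even_iff_odd]; exact hm)]
    show a (l.map fun _ => p) = _
    rw [hmap, hl]

end RCan
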