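import Pool.Agent.W_04c03c_h58.AsB

/-!
# Homotopy invariance of Alexander-Spanier cohomology
-/

namespace RCan

variable {E E' : Type*} [PseudoMetricSpace E] [PseudoMetricSpace E'] {A : Type*} [AddCommGroup A]

/-- Homotopy invariance.

Proof. Let `ε` be as in `AZ W m a`. The map `(t, x) ↦ F t x` is uniformly continuous on the compact set
`[0, 1] × U` (`IsCompact.uniformContinuousOn_of_continuous`), so there is `η > 0` with
`dist (F s x) (F t y) < ε` if `|s - t| < η`, `dist x y < η`. Take `N ≥ 1` with `1 / N < η` and apply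
`as_step` to `f = F (i / N)`, `g = F ((i + 1) / N)` for `i < N`; sum the `b`s (induction on `i`:
`AB U m (fun l => a (l.map (F (i / N))) - a (l.map (F 0)))`). -/
theorem as_homotopy {U : Set E} {W : Set E'} (hU : IsCompact U) {m : ℕ} {a : List E' → A}
    (ha : AZ W m a) (F : ℝ → E → E')
    (hF : ContinuousOn (fun p : ℝ × E => F p.1 p.2) (Set.Icc 0 1 ×ˢ U))
    (hW : ∀ t ∈ Set.Icc (0 : ℝ) 1, ∀ x ∈ U, F t x ∈ W) :
    AB U m (fun l => a (l.map (F 1)) - a (l.map (F 0))) := by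
  obtain ⟨ε, he, ha⟩ := ha
  have hK : IsCompact (Set.Icc (0 : ℝ) 1 ×ˢ U) := isCompact_Icc.prod hU
  have hu := hK.uniformContinuousOn_of_continuous hF
  rw [Metric.uniformContinuousOn_iff] at hu
  obtain ⟨δ, hδ, hu⟩ := hu ε he
  obtain ⟨n, hn⟩ := exists_nat_one_div_lt hδ
  have hu' : ∀ s ∈ Set.Icc (0 : ℝ) 1, ∀ t ∈ Set.Icc (0 : ℝ) 1, |s - t| < δ → ∀ x ∈ U, ∀ y ∈ U,
      dist x y < δ → dist (F s x) (F t y) < ε := by
    intro s hs t ht hst x hx y hy hxy
    refine hu (s, x) ⟨hs, hx⟩ (t, y) ⟨ht, hy⟩ ?_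
    rw [Prod.dist_eq]
    exact max_lt (by rw [Real.dist_eq]; exact hst) hxy
  have hM : (0 : ℝ) < (n : ℝ) + 1 := by positivity
  have hstep : ∀ i : ℕ, i ≤ n → AB U m (fun l => a (l.map (F (((i + 1 : ℕ) : ℝ) / (n + 1)))) -
      a (l.map (F ((i : ℝ) / (n + 1))))) := by
    intro i hi
    have hs : ((i : ℝ) / (n + 1)) ∈ Set.Icc (0 : ℝ) 1 := by
      refine ⟨by positivity, ?_⟩
      rw [div_le_one hM]
      have : (i : ℝ) ≤ n := by exact_mod_cast hi
      linarith
    have ht : (((i + 1 : ℕ) : ℝ) / (n + 1)) ∈ Set.Icc (0 : ℝ) 1 := by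
      refine ⟨by positivity, ?_⟩
      rw [div_le_one hM]
      have : (i : ℝ) ≤ n := by exact_mod_cast hi
      push_cast
      linarith
    have hst : |((i : ℝ) / (n + 1)) - (((i + 1 : ℕ) : ℝ) / (n + 1))| < δ := by
      have e : ((i : ℝ) / (n + 1)) - (((i + 1 : ℕ) : ℝ) / (n + 1)) = -(1 / ((n : ℝ) + 1)) := by
        push_cast
        field_simp
        ring
      rw [e, abs_neg, abs_of_pos (by positivity)]
      exact hn
    have hss : ∀ s : ℝ, |s - s| < δ := fun s => by rw [sub_self, abs_zero]; exact hδ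
    obtain ⟨b, hb⟩ := as_step (U := U) (W := W) (ε' := δ) ha (F ((i : ℝ) / (n + 1)))
      (F (((i + 1 : ℕ) : ℝ) / (n + 1))) (fun x hx y hy hxy =>
        ⟨hW _ hs x hx, hW _ ht x hx, hu' _ hs _ hs (hss _) x hx y hy hxy,
          hu' _ hs _ ht hst x hx y hy hxy, hu' _ ht _ ht (hss _) x hx y hy hxy⟩)
    exact ⟨b, δ, hδ, hb⟩
  have hall : ∀ i : ℕ, i ≤ n + 1 → AB U m (fun l => a (l.map (F ((i : ℝ) / (n + 1)))) -
      a (l.map (F 0))) := by
    intro i
    induction i with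
    | zero =>
      intro _
      refine ⟨0, 1, one_pos, fun l _ _ => ?_⟩
      rw [co_zero, Nat.cast_zero, zero_div]
      beta_reduce
      rw [sub_self]
      rfl
    | succ i ih =>
      intro hi
      have h1 := (hstep i (by omega)).add (ih (by omega))
      refine h1.congr one_pos fun l _ _ => ?_
      rw [Pi.add_apply]
      abel
  have hfin := hall (n + 1) le_rfl
  have e1 : (((n + 1 : ℕ) : ℝ) / (n + 1)) = 1 := by
    push_cast
    exact div_self hM.ne'
  rw [e1] at hfin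
  exact hfin

end RCan
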