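import Pool.Agent.W_04c03c_h58.AsBh
import Pool.Agent.W_04c03c_h58.AsBc

/-!
# Contractible sets and deformation retracts
-/

namespace RCan

variable {E E' : Type*} [PseudoMetricSpace E] [PseudoMetricSpace E'] {A : Type*} [AddCommGroup A]

theorem AsBr_map {f : E → E} {l : List E} (h : ∀ x ∈ l, f x = x) : l.map f = l := by
  conv_rhs => rw [← List.map_id l]
  exact List.map_congr_left h

theorem AsBr_unif {U : Set E} (hU : IsCompact U) (F : ℝ → E → E)
    (hF : ContinuousOn (fun p : ℝ × E => F p.1 p.2) (Set.Icc 0 1 ×ˢ U)) :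
    ∀ ε > 0, ∃ η > 0, ∀ x ∈ U, ∀ y ∈ U, dist x y < η → dist (F 1 x) (F 1 y) < ε := by
  have h1 : ContinuousOn (F 1) U := by
    have h2 : ContinuousOn (fun x : E => ((1 : ℝ), x)) U := by fun_prop
    exact hF.comp h2 fun x hx => ⟨⟨zero_le_one, le_rfl⟩, hx⟩
  have h3 := hU.uniformContinuousOn_of_continuous h1
  rw [Metric.uniformContinuousOn_iff] at h3
  exact h3

/-- Contractible compact sets are acyclic.

Proof. `as_homotopy` and `as_const`; `l.map (F 0) = l`, `l.map (F 1) = l.map (fun _ => p)` for lists in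
`U` (`AB.congr`). -/
theorem as_contract {U : Set E} (hU : IsCompact U) (F : ℝ → E → E)
    (hF : ContinuousOn (fun p : ℝ × E => F p.1 p.2) (Set.Icc 0 1 ×ˢ U))
    (hW : ∀ t ∈ Set.Icc (0 : ℝ) 1, ∀ x ∈ U, F t x ∈ U) (h0 : ∀ x ∈ U, F 0 x = x) {p : E}
    (hp : p ∈ U) (h1 : ∀ x ∈ U, F 1 x = p) (m : ℕ) : Ac U m := by
  intro A _ a ha
  have k1 := as_homotopy hU ha F hF hW
  have k2 : AB U m (fun l : List E => a (l.map (fun _ => p))) := as_const ha hp
  refine (k2.sub k1).congr one_pos fun l _ hn => ?_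
  have e0 : l.map (F 0) = l := AsBr_map fun x hx => h0 x (hn x hx).1
  have e1 : l.map (F 1) = l.map (fun _ => p) := List.map_congr_left fun x hx => h1 x (hn x hx).1
  show a l = a (l.map (fun _ => p)) - (a (l.map (F 1)) - a (l.map (F 0)))
  rw [e0, e1]
  abel

/-- Deformation retracts.

Proof. (1) `a` restricted to `W` is a coboundary; compose with `F 1` (`AB.comp`, uniform continuity of
`F 1` on the compact set `U`), and add the coboundary `a - a ∘ F 1` of `as_homotopy`.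
(2) `w' = w ∘ F 1`. It is a cocycle by `AZ.comp`. For `a` a cocycle on `U`: `a - c w` is a coboundary on
`W`, so `a ∘ F 1 - c w'` is a coboundary on `U`, and `a - a ∘ F 1` too. -/
theorem as_retract {U W : Set E} (hU : IsCompact U) (hWU : W ⊆ U) (F : ℝ → E → E)
    (hF : ContinuousOn (fun p : ℝ × E => F p.1 p.2) (Set.Icc 0 1 ×ˢ U))
    (hW : ∀ t ∈ Set.Icc (0 : ℝ) 1, ∀ x ∈ U, F t x ∈ U) (h0 : ∀ x ∈ U, F 0 x = x)
    (h1 : ∀ x ∈ U, F 1 x ∈ W) (m : ℕ) :
    (Ac W m → Ac U m) ∧ ∀ w, Cyc W m w → ∃ w', Cyc U m w' := by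
  have hu := AsBr_unif hU F hF
  constructor
  · intro H A _ a ha
    have k1 := as_homotopy hU ha F hF hW
    have k2 := (H A a (ha.mono hWU)).comp (F 1) h1 hu
    refine (k2.sub k1).congr one_pos fun l _ hn => ?_
    have e0 : l.map (F 0) = l := AsBr_map fun x hx => h0 x (hn x hx).1
    show a l = a (l.map (F 1)) - (a (l.map (F 1)) - a (l.map (F 0)))
    rw [e0]
    abel
  · rintro w ⟨hw1, hw2⟩
    refine ⟨fun l => w (l.map (F 1)), hw1.comp (F 1) h1 hu, ?_⟩
    intro k _ a ha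
    obtain ⟨c, hc⟩ := hw2 k a (ha.mono hWU)
    refine ⟨c, ?_⟩
    have k1 := as_homotopy hU ha F hF hW
    have k2 := hc.comp (F 1) h1 hu
    refine (k2.sub k1).congr one_pos fun l _ hn => ?_
    have e0 : l.map (F 0) = l := AsBr_map fun x hx => h0 x (hn x hx).1
    show a l - c * ((w (l.map (F 1)) : ℤ) : k) =
      (a (l.map (F 1)) - c * ((w (l.map (F 1)) : ℤ) : k)) -
        (a (l.map (F 1)) - a (l.map (F 0)))
    rw [e0]
    abel

end RCan
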