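import Pool.Agent.W_04c03c_h58.AsA

/-!
# Mayer-Vietoris for Alexander-Spanier cochains
-/

namespace RCan

variable {E : Type*} [PseudoMetricSpace E] {A : Type*} [AddCommGroup A]

/-- Glueing.

Proof. Let `ε' = min ε r`. `d' l = if ∀ x ∈ l, x ∈ U ∩ V then d l else 0`. Define `b [] = bV []` and
`b (x :: l) = if x ∈ P then bU (x :: l) - co d' (x :: l) else bV (x :: l)`. Let `l` have length `m + 1`
and `Nr (U ∪ V) ε' l`, with head `x`. (i) If `x ∈ P` then all entries are in `U`. For every face `l'` of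
`l` (length `m`) `b l' = bU l' - co d' l'`: this is clear if the head of `l'` is in `P`; if the head is not
in `P` then all entries of `l'` are in `V` too, `bU l' - bV l' = co d l' = co d' l'`; for `l' = []`
(`m = 0`) `co d' [] = 0` and `bU [] - bV [] = co d [] = 0`. So `co b l = co (bU - co d') l = co bU l = a l`
(`dl_congr`, `co_co`). (ii) If `x ∉ P` then all entries are in `V`, and `b l' = bV l'` on all faces
similarly. -/
theorem as_glue {U V P : Set E} {r : ℝ} (hr : 0 < r)
    (hU : ∀ x ∈ U ∪ V, ∀ y ∈ U ∪ V, dist x y < r → x ∈ P → y ∈ U)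
    (hV : ∀ x ∈ U ∪ V, ∀ y ∈ U ∪ V, dist x y < r → x ∉ P → y ∈ V)
    {m : ℕ} {a bU bV d : List E → A} {ε : ℝ} (he : 0 < ε)
    (h1 : ∀ l, l.length = m + 1 → Nr U ε l → a l = co bU l)
    (h2 : ∀ l, l.length = m + 1 → Nr V ε l → a l = co bV l)
    (h3 : ∀ l, l.length = m → Nr (U ∩ V) ε l → bU l - bV l = co d l) : AB (U ∪ V) (m + 1) a := by
  classical
  have hU' : ∀ l : List E, Nr (U ∪ V) (min ε r) l → ∀ x ∈ l, x ∈ P → ∀ y ∈ l, y ∈ U := by
    intro l hn x hx hP y hy
    exact hU x (hn x hx).1 y (hn y hy).1 (((hn x hx).2 y hy).trans_le (min_le_right _ _)) hP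
  have hV' : ∀ l : List E, Nr (U ∪ V) (min ε r) l → ∀ x ∈ l, x ∉ P → ∀ y ∈ l, y ∈ V := by
    intro l hn x hx hP y hy
    exact hV x (hn x hx).1 y (hn y hy).1 (((hn x hx).2 y hy).trans_le (min_le_right _ _)) hP
  obtain ⟨d', hd'⟩ : ∃ d' : List E → A, ∀ l, (∀ x ∈ l, x ∈ U ∩ V) → d' l = d l :=
    ⟨fun l => if ∀ x ∈ l, x ∈ U ∩ V then d l else 0, fun l hl => if_pos hl⟩
  have hcd : ∀ l : List E, (∀ x ∈ l, x ∈ U ∩ V) → co d' l = co d l := by
    intro l hl
    apply dl_congr
    intro l' h _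
    exact hd' l' fun x hx => hl x (h.subset hx)
  obtain ⟨b, hb0, hbP, hbN⟩ : ∃ b : List E → A, b [] = bV [] ∧
      (∀ x t, x ∈ P → b (x :: t) = bU (x :: t) - co d' (x :: t)) ∧
      (∀ x t, x ∉ P → b (x :: t) = bV (x :: t)) := by
    refine ⟨fun l => match l with
      | [] => bV []
      | x :: t => if x ∈ P then bU (x :: t) - co d' (x :: t) else bV (x :: t), rfl, ?_, ?_⟩
    · intro x t hx
      exact if_pos hx
    · intro x t hx
      exact if_neg hx
  -- on lists in the intersection the two expressions agree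
  have hI : ∀ l : List E, l.length = m → Nr (U ∪ V) (min ε r) l → (∀ x ∈ l, x ∈ U ∩ V) →
      bU l - co d' l = bV l := by
    intro l hl hn hi
    have hn' : Nr (U ∩ V) ε l := fun x hx =>
      ⟨hi x hx, fun y hy => ((hn x hx).2 y hy).trans_le (min_le_left _ _)⟩
    rw [hcd l hi, ← h3 l hl hn']
    abel
  refine ⟨b, min ε r, lt_min he hr, fun l hl hn => ?_⟩
  match l, hl, hn with
  | [], hl, _ => exact absurd hl (by simp)
  | x :: t, hl, hn =>
    have hsub : ∀ l' : List E, l'.Sublist (x :: t) → Nr (U ∪ V) (min ε r) l' := fun l' h =>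
      hn.sub h.subset
    by_cases hx : x ∈ P
    · have hall : ∀ y ∈ x :: t, y ∈ U := hU' _ hn x List.mem_cons_self hx
      have hnU : Nr U ε (x :: t) := fun y hy =>
        ⟨hall y hy, fun z hz => ((hn y hy).2 z hz).trans_le (min_le_left _ _)⟩
      rw [h1 _ hl hnU]
      have e1 : co b (x :: t) = co (bU - co d') (x :: t) := by
        apply dl_congr
        intro l' h4 h5
        have hlen : l'.length = m := by omega
        match l', h4, hlen with
        | [], h4, hlen =>
          rw [hb0]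
          exact (hI [] hlen (hsub [] h4) (fun y hy => absurd hy List.not_mem_nil)).symm
        | y :: t', h4, hlen =>
          by_cases hy : y ∈ P
          · exact hbP y t' hy
          · rw [hbN y t' hy]
            refine (hI _ hlen (hsub _ h4) fun z hz => ⟨hall z (h4.subset hz), ?_⟩).symm
            exact hV' _ (hsub _ h4) y List.mem_cons_self hy z hz
      rw [e1, co_sub, co_co, sub_zero]
    · have hall : ∀ y ∈ x :: t, y ∈ V := hV' _ hn x List.mem_cons_self hx
      have hnV : Nr V ε (x :: t) := fun y hy =>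
        ⟨hall y hy, fun z hz => ((hn y hy).2 z hz).trans_le (min_le_left _ _)⟩
      rw [h2 _ hl hnV]
      symm
      apply dl_congr
      intro l' h4 h5
      have hlen : l'.length = m := by omega
      match l', h4, hlen with
      | [], h4, hlen => exact hb0
      | y :: t', h4, hlen =>
        by_cases hy : y ∈ P
        · rw [hbP y t' hy]
          refine hI _ hlen (hsub _ h4) fun z hz => ⟨?_, hall z (h4.subset hz)⟩
          exact hU' _ (hsub _ h4) y List.mem_cons_self hy z hz
        · exact hbN y t' hy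

/-- Mayer-Vietoris, vanishing.

Proof. `a = co bU` near the diagonal of `U`, `a = co bV` near the diagonal of `V`. On small lists of
length `m + 1` in `U ∩ V`: `co (bU - bV) = a - a = 0`, so `bU - bV` is a cocycle, hence `= co d`. Glue. -/
theorem mv_ac {U V P : Set E} {r : ℝ} (hr : 0 < r)
    (hU : ∀ x ∈ U ∪ V, ∀ y ∈ U ∪ V, dist x y < r → x ∈ P → y ∈ U)
    (hV : ∀ x ∈ U ∪ V, ∀ y ∈ U ∪ V, dist x y < r → x ∉ P → y ∈ V)
    {m : ℕ} (h1 : Ac U (m + 1)) (h2 : Ac V (m + 1)) (h3 : Ac (U ∩ V) m) : Ac (U ∪ V) (m + 1) := by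
  intro A _ a ha
  obtain ⟨bU, ε₁, he₁, hb₁⟩ := h1 A a (ha.mono Set.subset_union_left)
  obtain ⟨bV, ε₂, he₂, hb₂⟩ := h2 A a (ha.mono Set.subset_union_right)
  have h4 : AZ (U ∩ V) m (bU - bV) := by
    refine ⟨min ε₁ ε₂, lt_min he₁ he₂, fun l hl hn => ?_⟩
    rw [co_sub, Pi.sub_apply, ← hb₁ l hl (hn.mono Set.inter_subset_left (min_le_left _ _)),
      ← hb₂ l hl (hn.mono Set.inter_subset_right (min_le_right _ _)), sub_self]
  obtain ⟨d, ε₃, he₃, hd⟩ := h3 A (bU - bV) h4
  refine as_glue hr hU hV (lt_min (lt_min he₁ he₂) he₃) (a := a) (bU := bU) (bV := bV) (d := d)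
    ?_ ?_ ?_
  · intro l hl hn
    exact hb₁ l hl (hn.mono subset_rfl ((min_le_left _ _).trans (min_le_left _ _)))
  · intro l hl hn
    exact hb₂ l hl (hn.mono subset_rfl ((min_le_left _ _).trans (min_le_right _ _)))
  · intro l hl hn
    exact hd l hl (hn.mono subset_rfl (min_le_right _ _))

end RCan
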