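import Pool.Agent.W_04c03c_h58.AsC

/-!
# Mayer-Vietoris, one generator
-/

namespace RCan

variable {E : Type*} [PseudoMetricSpace E] {A : Type*} [AddCommGroup A]

open Classical in
/-- extension by zero of a cochain on `U ∩ V` -/
noncomputable def AsCc_w (U V : Set E) (w : List E → ℤ) : List E → ℤ := fun l =>
  if ∀ x ∈ l, x ∈ U ∩ V then w l else 0

open Classical in
/-- the connecting cocycle -/
noncomputable def AsCc_u (U V P : Set E) (w : List E → ℤ) : List E → ℤ
  | [] => 0
  | x :: l => if x ∈ P then co (AsCc_w U V w) (x :: l) else 0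

theorem AsCc_w_eq {U V : Set E} (w : List E → ℤ) {l : List E} (h : ∀ x ∈ l, x ∈ U ∩ V) :
    AsCc_w U V w l = w l := by
  unfold AsCc_w
  rw [if_pos h]

theorem AsCc_co {U V : Set E} (w : List E → ℤ) {l : List E} (h : ∀ x ∈ l, x ∈ U ∩ V) :
    co (AsCc_w U V w) l = co w l := by
  apply dl_congr
  intro l' h1 _
  exact AsCc_w_eq w fun x hx => h x (h1.subset hx)

theorem AsCc_mem {U V P : Set E} {r : ℝ}
    (hU : ∀ x ∈ U ∪ V, ∀ y ∈ U ∪ V, dist x y < r → x ∈ P → y ∈ U) {ε : ℝ} (hε : ε ≤ r) {x : E}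
    {l : List E} (h : Nr (U ∪ V) ε (x :: l)) (hx : x ∈ P) : ∀ y ∈ x :: l, y ∈ U := by
  intro y hy
  have h1 := h x List.mem_cons_self
  exact hU x h1.1 y (h y hy).1 ((h1.2 y hy).trans_le hε) hx

theorem AsCc_memV {U V P : Set E} {r : ℝ}
    (hV : ∀ x ∈ U ∪ V, ∀ y ∈ U ∪ V, dist x y < r → x ∉ P → y ∈ V) {ε : ℝ} (hε : ε ≤ r) {x : E}
    {l : List E} (h : Nr (U ∪ V) ε (x :: l)) (hx : x ∉ P) : ∀ y ∈ x :: l, y ∈ V := by
  intro y hy
  have h1 := h x List.mem_cons_self
  exact hV x h1.1 y (h y hy).1 ((h1.2 y hy).trans_le hε) hx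

/-- the values of the connecting cocycle -/
theorem AsCc_key {U V P : Set E} {r : ℝ}
    (hU : ∀ x ∈ U ∪ V, ∀ y ∈ U ∪ V, dist x y < r → x ∈ P → y ∈ U)
    (hV : ∀ x ∈ U ∪ V, ∀ y ∈ U ∪ V, dist x y < r → x ∉ P → y ∈ V)
    {m : ℕ} {w : List E → ℤ} {ε : ℝ} (hε : ε ≤ r)
    (hw : ∀ l, l.length = m + 1 → Nr (U ∩ V) ε l → co w l = 0) {l : List E}
    (hl : l.length = m + 1) (hn : Nr (U ∪ V) ε l) :
    ((∀ x ∈ l, x ∈ U) → AsCc_u U V P w l = co (AsCc_w U V w) l) ∧
      ((∀ x ∈ l, x ∈ V) → AsCc_u U V P w l = 0) := by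
  classical
  have hzero : (∀ x ∈ l, x ∈ U) → (∀ x ∈ l, x ∈ V) → co (AsCc_w U V w) l = 0 := by
    intro h1 h2
    rw [AsCc_co w fun x hx => ⟨h1 x hx, h2 x hx⟩]
    refine hw l hl fun x hx => ⟨⟨h1 x hx, h2 x hx⟩, (hn x hx).2⟩
  cases l with
  | nil => simp at hl
  | cons x l =>
    constructor
    · intro h1
      by_cases hx : x ∈ P
      · show (if x ∈ P then co (AsCc_w U V w) (x :: l) else 0) = _
        rw [if_pos hx]
      · show (if x ∈ P then co (AsCc_w U V w) (x :: l) else 0) = _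
        rw [if_neg hx, hzero h1 (AsCc_memV hV hε hn hx)]
    · intro h2
      by_cases hx : x ∈ P
      · show (if x ∈ P then co (AsCc_w U V w) (x :: l) else 0) = _
        rw [if_pos hx, hzero (AsCc_mem hU hε hn hx) h2]
      · show (if x ∈ P then co (AsCc_w U V w) (x :: l) else 0) = _
        rw [if_neg hx]

/-- Mayer-Vietoris, one generator.

Proof. Let `w' l = if ∀ x ∈ l, x ∈ U ∩ V then w l else 0` and `u [] = 0`,
`u (x :: l) = if x ∈ P then co w' (x :: l) else 0`. Then for small lists `l` (in `U ∪ V`, diameter less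
than `r` and less than the `ε` of `w`) of length `m + 1`: if `l` is in `U` then `u l = co w' l`: if the
head is not in `P` then `l` is also in `V`, `co w' l = co w l = 0`; if `l` is in `V` then `u l = 0`
(same reason). So `u` is a cocycle near the diagonal (a small list of length `m + 2` lies in `U` or in
`V`, `co (co w') = 0`). Let `a` be a cocycle on `U ∪ V`; `a = co bU`, `a = co bV`; `bU - bV` is a cocycle
near the diagonal of `U ∩ V`, so `bU - bV = c w + co d`. Then `a - c u` is `co (bU - c w')` near the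
diagonal of `U` and `co bV` near that of `V`, and `(bU - c w') - bV = co d` near the diagonal of `U ∩ V`;
glue. (`co (fun l => c * (w' l : k)) = fun l => c * (co w' l : k)` by `co_hom`.) -/
theorem mv_cyc {U V P : Set E} {r : ℝ} (hr : 0 < r)
    (hU : ∀ x ∈ U ∪ V, ∀ y ∈ U ∪ V, dist x y < r → x ∈ P → y ∈ U)
    (hV : ∀ x ∈ U ∪ V, ∀ y ∈ U ∪ V, dist x y < r → x ∉ P → y ∈ V)
    {m : ℕ} (h1 : Ac U (m + 1)) (h2 : Ac V (m + 1)) {w : List E → ℤ} (h3 : Cyc (U ∩ V) m w) :
    ∃ u, Cyc (U ∪ V) (m + 1) u := by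
  classical
  obtain ⟨⟨εw, hεw, hw⟩, hcyc⟩ := h3
  refine ⟨AsCc_u U V P w, ⟨min εw r, lt_min hεw hr, ?_⟩, ?_⟩
  · intro l hl hn
    have hw' : ∀ l, l.length = m + 1 → Nr (U ∩ V) (min εw r) l → co w l = 0 := fun l h1 h2 =>
      hw l h1 (h2.mono subset_rfl (min_le_left _ _))
    have hkey : ∀ l' : List E, l'.Sublist l → l'.length + 1 = l.length →
        ((∀ x ∈ l', x ∈ U) → AsCc_u U V P w l' = co (AsCc_w U V w) l') ∧
          ((∀ x ∈ l', x ∈ V) → AsCc_u U V P w l' = 0) := fun l' h1 h2 =>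
      AsCc_key hU hV (min_le_right _ _) hw' (by omega) (hn.sub h1.subset)
    cases l with
    | nil => simp at hl
    | cons x l =>
      by_cases hx : x ∈ P
      · have hall := AsCc_mem hU (min_le_right _ _) hn hx
        have h5 : co (AsCc_u U V P w) (x :: l) = co (co (AsCc_w U V w)) (x :: l) := by
          apply dl_congr
          intro l' h6 h7
          exact (hkey l' h6 h7).1 fun y hy => hall y (h6.subset hy)
        rw [h5, co_co]
        rfl
      · have hall := AsCc_memV hV (min_le_right _ _) hn hx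
        apply dl_eq_zero
        intro l' h6 h7
        exact (hkey l' h6 h7).2 fun y hy => hall y (h6.subset hy)
  · intro k _ a ha
    obtain ⟨bU, εU, hεU, hbU⟩ := h1 k a (ha.mono Set.subset_union_left)
    obtain ⟨bV, εV, hεV, hbV⟩ := h2 k a (ha.mono Set.subset_union_right)
    have hz : AZ (U ∩ V) m (bU - bV) := by
      refine ⟨min εU εV, lt_min hεU hεV, fun l hl hn => ?_⟩
      rw [co_sub, Pi.sub_apply, ← hbU l hl (hn.mono Set.inter_subset_left (min_le_left _ _)),
        ← hbV l hl (hn.mono Set.inter_subset_right (min_le_right _ _)), sub_self]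
    obtain ⟨c, d, εd, hεd, hd⟩ := hcyc k (bU - bV) hz
    refine ⟨c, ?_⟩
    set ε : ℝ := min (min εw r) (min (min εU εV) εd) with hεdef
    have hε : 0 < ε := lt_min (lt_min hεw hr) (lt_min (lt_min hεU hεV) hεd)
    have e1 : ε ≤ εw := (min_le_left _ _).trans (min_le_left _ _)
    have e2 : ε ≤ r := (min_le_left _ _).trans (min_le_right _ _)
    have e3 : ε ≤ εU := ((min_le_right _ _).trans (min_le_left _ _)).trans (min_le_left _ _)
    have e4 : ε ≤ εV := ((min_le_right _ _).trans (min_le_left _ _)).trans (min_le_right _ _)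
    have e5 : ε ≤ εd := (min_le_right _ _).trans (min_le_right _ _)
    have hw' : ∀ l, l.length = m + 1 → Nr (U ∩ V) ε l → co w l = 0 := fun l h1 h2 =>
      hw l h1 (h2.mono subset_rfl e1)
    let φ : ℤ →+ k := (AddMonoidHom.mulLeft c).comp (Int.castAddHom k)
    have hφ : ∀ n : ℤ, φ n = c * (n : k) := fun n => rfl
    have hco : ∀ l, co (fun l => c * (AsCc_w U V w l : k)) l =
        c * ((co (AsCc_w U V w) l : ℤ) : k) := by
      intro l
      have h6 := congrFun (co_hom φ (AsCc_w U V w)) l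
      exact h6
    refine as_glue (P := P) hr hU hV (a := fun l => a l - c * (AsCc_u U V P w l : k))
      (bU := bU - fun l => c * (AsCc_w U V w l : k)) (bV := bV) (d := d) hε ?_ ?_ ?_
    · intro l hl hn
      rw [co_sub, Pi.sub_apply, hco, ← hbU l hl (hn.mono subset_rfl e3),
        ((AsCc_key hU hV e2 hw' hl (hn.mono Set.subset_union_left le_rfl)).1
          fun x hx => (hn x hx).1)]
    · intro l hl hn
      rw [← hbV l hl (hn.mono subset_rfl e4),
        ((AsCc_key hU hV e2 hw' hl (hn.mono Set.subset_union_right le_rfl)).2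
          fun x hx => (hn x hx).1)]
      simp
    · intro l hl hn
      have h6 := hd l hl (hn.mono subset_rfl e5)
      rw [← h6, Pi.sub_apply, AsCc_w_eq w fun x hx => (hn x hx).1]
      show bU l - c * (w l : k) - bV l = (bU l - bV l) - c * (w l : k)
      ring

end RCan
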