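import Pool.Agent.W_04c03c_h58.SphD
import Pool.Agent.W_04c03c_h58.AsBr

/-!
# Caps
-/

namespace RCan

open RealInnerProductSpace

variable {E : Type*} [NormedAddCommGroup E] [InnerProductSpace ℝ E] [FiniteDimensional ℝ E]

theorem AsDa_norm_sq {x e : E} (hx : ‖x‖ = 1) (he : ‖e‖ = 1) (t : ℝ) :
    ‖(1 - t) • x + t • e‖ ^ 2 = (1 - t) ^ 2 + 2 * t * (1 - t) * ⟪x, e⟫ + t ^ 2 := by
  rw [norm_add_sq_real, norm_smul, norm_smul, hx, he, mul_one, mul_one, real_inner_smul_left,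
    real_inner_smul_right, Real.norm_eq_abs, Real.norm_eq_abs, sq_abs, sq_abs]
  ring

theorem AsDa_ne {x e : E} (hx : ‖x‖ = 1) (he : ‖e‖ = 1) {t : ℝ} (h0 : 0 ≤ t) (h1 : t ≤ 1)
    (hs : -(1 / 2) ≤ ⟪x, e⟫) : 0 < ‖(1 - t) • x + t • e‖ := by
  have h2 := AsDa_norm_sq hx he t
  have h3 : 0 < ‖(1 - t) • x + t • e‖ ^ 2 := by
    rw [h2]
    have h4 : 0 ≤ t * (1 - t) * (⟪x, e⟫ + 1 / 2) :=
      mul_nonneg (mul_nonneg h0 (by linarith)) (by linarith)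
    nlinarith [sq_nonneg (2 * t - 1)]
  have h4 : ‖(1 - t) • x + t • e‖ ≠ 0 := by
    intro h
    rw [h] at h3
    norm_num at h3
  exact lt_of_le_of_ne (norm_nonneg _) h4.symm

theorem AsDa_inner {x e : E} (hx : ‖x‖ = 1) (he : ‖e‖ = 1) {t : ℝ} (h0 : 0 ≤ t) (h1 : t ≤ 1)
    (hs : -(1 / 2) ≤ ⟪x, e⟫) :
    -(1 / 2) ≤ ⟪‖(1 - t) • x + t • e‖⁻¹ • ((1 - t) • x + t • e), e⟫ := by
  have hN := AsDa_ne hx he h0 h1 hs
  have hsq := AsDa_norm_sq hx he t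
  have hq : ⟪(1 - t) • x + t • e, e⟫ = (1 - t) * ⟪x, e⟫ + t := by
    rw [inner_add_left, real_inner_smul_left, real_inner_smul_left, real_inner_self_eq_norm_sq, he]
    ring
  rw [real_inner_smul_left, hq]
  obtain ⟨N, hNe⟩ : ∃ N, N = ‖(1 - t) • x + t • e‖ := ⟨_, rfl⟩
  obtain ⟨s, hse⟩ : ∃ s : ℝ, s = ⟪x, e⟫ := ⟨_, rfl⟩
  rw [← hNe, ← hse] at hsq
  rw [← hNe] at hN
  rw [← hse] at hs
  rw [← hNe, ← hse]
  rcases le_or_gt 0 ((1 - t) * s + t) with hq0 | hq0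
  · have : 0 ≤ N⁻¹ * ((1 - t) * s + t) := mul_nonneg (inv_nonneg.mpr hN.le) hq0
    linarith
  · have hs0 : s ≤ 0 := by
      by_contra h
      push Not at h
      have : 0 ≤ (1 - t) * s := mul_nonneg (by linarith) h.le
      linarith
    have h3 : (2 * ((1 - t) * s + t)) ^ 2 ≤ N ^ 2 := by
      rw [hsq]
      have h4 : 0 ≤ (1 - t) ^ 2 * (1 - 4 * s ^ 2) := by
        refine mul_nonneg (sq_nonneg _) ?_
        nlinarith
      have h5 : 0 ≤ t * (-((1 - t) * s) - ((1 - t) * s + t)) := by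
        refine mul_nonneg h0 ?_
        have : (1 - t) * s ≤ 0 := mul_nonpos_of_nonneg_of_nonpos (by linarith) hs0
        linarith
      nlinarith
    have h6 : |2 * ((1 - t) * s + t)| ≤ N := abs_le_of_sq_le_sq h3 hN.le
    have h7 : -N ≤ 2 * ((1 - t) * s + t) := (abs_le.mp h6).1
    rw [inv_mul_eq_div, le_div_iff₀ hN]
    linarith

/-- Caps are acyclic.

Proof. `as_contract` with `F t x = ‖y‖⁻¹ • y`, `y = (1 - t) • x + t • e`, `p = e`. `y ≠ 0` since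
`x ≠ -e` (`⟪x, e⟫ ≥ -1/2`): if `y = 0` then `‖(1 - t) • x‖ = ‖t • e‖` gives `t = 1/2` and `x = -e`. `F t x` has
norm one and is in `L`. Inner product with `e`: put `s = ⟪x, e⟫`, `q = (1 - t) s + t = ⟪y, e⟫`,
`‖y‖ ^ 2 = (1 - t) ^ 2 + 2 t (1 - t) s + t ^ 2 ≤ 1`. Claim `q / ‖y‖ ≥ -1/2`: clear if `q ≥ 0`. If `q < 0`
then `s < 0`, and `4 q ^ 2 ≤ ‖y‖ ^ 2`, i.e. `4 ((1 - t) s + t) ^ 2 ≤ (1 - t) ^ 2 + 2 t (1 - t) s + t ^ 2`:
since `-1/2 ≤ s`: `4 (1 - t) ^ 2 s ^ 2 ≤ (1 - t) ^ 2`, and `8 (1 - t) t s + 4 t ^ 2 ≤ 2 t (1 - t) s + t ^ 2`,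
i.e. `t (6 (1 - t) s + 3 t) ≤ 0`, true because `(1 - t) s + t < 0` gives `2 (1 - t) s + t ≤ 0`.
The set is compact (closed and bounded in a finite dimensional space). -/
theorem cap_ac (L : Submodule ℝ E) {e : E} (he : e ∈ L) (he1 : ‖e‖ = 1) (m : ℕ) :
    Ac {x | x ∈ Sph L ∧ -(1 / 2) ≤ ⟪x, e⟫} m := by
  have hcont : Continuous fun x : E => ⟪x, e⟫ := continuous_id.inner continuous_const
  have hset : {x | x ∈ Sph L ∧ -(1 / 2) ≤ ⟪x, e⟫} =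
      ((L : Set E) ∩ Metric.sphere (0 : E) 1) ∩ {x | -(1 / 2) ≤ ⟪x, e⟫} := by
    ext x
    simp only [Sph, Set.mem_ofPred_eq, Set.mem_inter_iff, SetLike.mem_coe, mem_sphere_zero_iff_norm]
  have hcpt : IsCompact {x | x ∈ Sph L ∧ -(1 / 2) ≤ ⟪x, e⟫} := by
    refine (isCompact_sphere (0 : E) 1).of_isClosed_subset ?_ ?_
    · rw [hset]
      exact ((Submodule.closed_of_finiteDimensional L).inter Metric.isClosed_sphere).inter
        (isClosed_le continuous_const hcont)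
    · intro x hx
      rw [mem_sphere_zero_iff_norm]
      exact hx.1.2
  have hee : ⟪e, e⟫ = (1 : ℝ) := by
    rw [real_inner_self_eq_norm_sq, he1]
    norm_num
  refine as_contract hcpt
    (fun t x => ‖(1 - t) • x + t • e‖⁻¹ • ((1 - t) • x + t • e)) ?_ ?_ ?_ (p := e) ?_ ?_ m
  · have hy : Continuous fun q : ℝ × E => (1 - q.1) • q.2 + q.1 • e := by fun_prop
    refine ContinuousOn.smul (ContinuousOn.inv₀ hy.norm.continuousOn ?_) hy.continuousOn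
    rintro ⟨t, x⟩ ⟨ht, hx⟩
    exact (AsDa_ne hx.1.2 he1 ht.1 ht.2 hx.2).ne'
  · intro t ht x hx
    have hN := AsDa_ne hx.1.2 he1 ht.1 ht.2 hx.2
    refine ⟨⟨?_, ?_⟩, AsDa_inner hx.1.2 he1 ht.1 ht.2 hx.2⟩
    · exact L.smul_mem _ (L.add_mem (L.smul_mem _ hx.1.1) (L.smul_mem _ he))
    · rw [norm_smul, norm_inv, norm_norm, inv_mul_cancel₀ hN.ne']
  · intro x hx
    show ‖(1 - (0 : ℝ)) • x + (0 : ℝ) • e‖⁻¹ • ((1 - (0 : ℝ)) • x + (0 : ℝ) • e) = x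
    rw [sub_zero, one_smul, zero_smul, add_zero, hx.1.2, inv_one, one_smul]
  · refine ⟨⟨he, he1⟩, ?_⟩
    rw [hee]
    norm_num
  · intro x hx
    show ‖(1 - (1 : ℝ)) • x + (1 : ℝ) • e‖⁻¹ • ((1 - (1 : ℝ)) • x + (1 : ℝ) • e) = e
    rw [sub_self, zero_smul, one_smul, zero_add, he1, inv_one, one_smul]

end RCan
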