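import Pool.Agent.W_04c03c_h58.SphD
import Pool.Agent.W_04c03c_h58.AsBr

/-!
# Bands
-/

namespace RCan

open RealInnerProductSpace

variable {E : Type*} [NormedAddCommGroup E] [InnerProductSpace ℝ E] [FiniteDimensional ℝ E]

/-- the point pushed towards the equator -/
noncomputable def AsDb_y (e : E) (t : ℝ) (x : E) : E := x - (t * ⟪x, e⟫) • e

omit [FiniteDimensional ℝ E] in
theorem AsDb_inner {e : E} (he1 : ‖e‖ = 1) (t : ℝ) (x : E) :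
    ⟪AsDb_y e t x, e⟫ = (1 - t) * ⟪x, e⟫ := by
  rw [AsDb_y, inner_sub_left, real_inner_smul_left, real_inner_self_eq_norm_sq, he1]
  ring

omit [FiniteDimensional ℝ E] in
theorem AsDb_norm {e : E} (he1 : ‖e‖ = 1) (t : ℝ) {x : E} (hx : ‖x‖ = 1) :
    ‖AsDb_y e t x‖ ^ 2 = 1 - ⟪x, e⟫ ^ 2 + (1 - t) ^ 2 * ⟪x, e⟫ ^ 2 := by
  rw [← real_inner_self_eq_norm_sq]
  have h1 : ⟪AsDb_y e t x, AsDb_y e t x⟫ =
      ⟪AsDb_y e t x, x⟫ - (t * ⟪x, e⟫) * ⟪AsDb_y e t x, e⟫ := by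
    conv_lhs => rw [AsDb_y]
    rw [show x - (t * ⟪x, e⟫) • e = AsDb_y e t x from rfl]
    nth_rewrite 2 [AsDb_y]
    rw [inner_sub_right, real_inner_smul_right]
  rw [h1, AsDb_inner he1]
  have h2 : ⟪AsDb_y e t x, x⟫ = 1 - t * ⟪x, e⟫ ^ 2 := by
    rw [AsDb_y, inner_sub_left, real_inner_smul_left, real_inner_self_eq_norm_sq, hx,
      real_inner_comm x e]
    ring
  rw [h2]
  ring

omit [FiniteDimensional ℝ E] in
theorem AsDb_pos {e : E} (he1 : ‖e‖ = 1) (t : ℝ) {x : E} (hx : ‖x‖ = 1)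
    (hs : |⟪x, e⟫| ≤ 1 / 2) : 0 < ‖AsDb_y e t x‖ := by
  have h1 := AsDb_norm he1 t hx
  have h2 : ⟪x, e⟫ ^ 2 ≤ 1 / 4 := by
    rw [← sq_abs]
    nlinarith [abs_nonneg ⟪x, e⟫]
  have h3 : 0 ≤ (1 - t) ^ 2 * ⟪x, e⟫ ^ 2 := by positivity
  have h4 : 0 < ‖AsDb_y e t x‖ ^ 2 := by rw [h1]; linarith
  exact (sq_pos_iff.1 h4).lt_of_le' (norm_nonneg _) |>.trans_le le_rfl

/-- Bands retract to the equator.

Proof. `as_retract` with `F t x = ‖y‖⁻¹ • y`, `y = x - (t * ⟪x, e⟫) • e`. With `s = ⟪x, e⟫`, `|s| ≤ 1/2`: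
`⟪y, e⟫ = (1 - t) s`, `‖y‖ ^ 2 = 1 - s ^ 2 + (1 - t) ^ 2 s ^ 2 ≥ 3/4 > 0`, and
`|⟪y, e⟫| / ‖y‖ ≤ 1/2` since `4 (1 - t) ^ 2 s ^ 2 ≤ 1 - s ^ 2 + (1 - t) ^ 2 s ^ 2`
(because `3 (1 - t) ^ 2 s ^ 2 ≤ 3 s ^ 2 ≤ 1 - s ^ 2`). `F 1 x` is orthogonal to `e`, in `L`, of norm `1`. -/
theorem band_retract (L : Submodule ℝ E) {e : E} (he : e ∈ L) (he1 : ‖e‖ = 1) (m : ℕ) :
    (Ac (Sph (L ⊓ (Submodule.span ℝ {e})ᗮ)) m → Ac {x | x ∈ Sph L ∧ |⟪x, e⟫| ≤ 1 / 2} m) ∧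
    ∀ w, Cyc (Sph (L ⊓ (Submodule.span ℝ {e})ᗮ)) m w →
      ∃ w', Cyc {x | x ∈ Sph L ∧ |⟪x, e⟫| ≤ 1 / 2} m w' := by
  have hU : IsCompact {x : E | x ∈ Sph L ∧ |⟪x, e⟫| ≤ 1 / 2} := by
    refine (isCompact_sphere (0 : E) 1).of_isClosed_subset ?_ ?_
    · have h1 : IsClosed (L : Set E) := L.closed_of_finiteDimensional
      have h2 : IsClosed {x : E | ‖x‖ = 1} := isClosed_eq continuous_norm continuous_const
      have h3 : IsClosed {x : E | |⟪x, e⟫| ≤ 1 / 2} :=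
        isClosed_le (by fun_prop) continuous_const
      exact (h1.inter h2).inter h3
    · intro x hx
      rw [mem_sphere_zero_iff_norm]
      exact hx.1.2
  refine as_retract hU ?_ (fun t x => ‖AsDb_y e t x‖⁻¹ • AsDb_y e t x) ?_ ?_ ?_ ?_ m
  · rintro x ⟨hx, hx1⟩
    have h1 : ⟪x, e⟫ = 0 := by
      have h2 := (Submodule.mem_inf.1 hx).2
      rw [Submodule.mem_orthogonal_singleton_iff_inner_left] at h2
      exact h2
    refine ⟨⟨(Submodule.mem_inf.1 hx).1, hx1⟩, ?_⟩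
    rw [h1, abs_zero]
    norm_num
  · have hy : Continuous fun p : ℝ × E => AsDb_y e p.1 p.2 := by
      unfold AsDb_y
      fun_prop
    refine ContinuousOn.smul (ContinuousOn.inv₀ hy.norm.continuousOn ?_) hy.continuousOn
    rintro ⟨t, x⟩ ⟨_, hx⟩
    exact (AsDb_pos he1 t hx.1.2 hx.2).ne'
  · rintro t ht x ⟨⟨hx, hx1⟩, hs⟩
    have hpos := AsDb_pos he1 t hx1 hs
    refine ⟨⟨L.smul_mem _ (L.sub_mem hx (L.smul_mem _ he)), ?_⟩, ?_⟩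
    · rw [norm_smul, norm_inv, norm_norm, inv_mul_cancel₀ hpos.ne']
    · rw [real_inner_smul_left, AsDb_inner he1, abs_mul, abs_inv, abs_norm,
        inv_mul_le_iff₀ hpos]
      refine abs_le_of_sq_le_sq ?_ (by positivity)
      have h1 := AsDb_norm he1 t hx1
      have h2 : ⟪x, e⟫ ^ 2 ≤ 1 / 4 := by
        rw [← sq_abs]
        nlinarith [abs_nonneg ⟪x, e⟫]
      have h3 : (1 - t) ^ 2 ≤ 1 := by
        have h4 := ht.1
        have h5 := ht.2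
        nlinarith
      have h6 : (1 - t) ^ 2 * ⟪x, e⟫ ^ 2 ≤ ⟪x, e⟫ ^ 2 := by
        have h7 : 0 ≤ ⟪x, e⟫ ^ 2 := sq_nonneg _
        nlinarith
      rw [mul_pow, mul_pow, h1]
      nlinarith
  · rintro x ⟨⟨_, hx1⟩, _⟩
    have h1 : AsDb_y e 0 x = x := by
      rw [AsDb_y, zero_mul, zero_smul, sub_zero]
    simp only [h1, hx1, inv_one, one_smul]
  · rintro x ⟨⟨hx, hx1⟩, hs⟩
    have hpos := AsDb_pos he1 1 hx1 hs
    refine ⟨Submodule.mem_inf.2 ⟨L.smul_mem _ (L.sub_mem hx (L.smul_mem _ he)), ?_⟩, ?_⟩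
    · rw [Submodule.mem_orthogonal_singleton_iff_inner_left, real_inner_smul_left, AsDb_inner he1,
        sub_self, zero_mul, mul_zero]
    · rw [norm_smul, norm_inv, norm_norm, inv_mul_cancel₀ hpos.ne']

end RCan
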