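import Pool.Agent.W_04c03c_h58.AsDa
import Pool.Agent.W_04c03c_h58.AsDb
import Pool.Agent.W_04c03c_h58.AsC
import Pool.Agent.W_04c03c_h58.AsCc

/-!
# The induction step for spheres
-/

namespace RCan

open RealInnerProductSpace

variable {E : Type*} [NormedAddCommGroup E] [InnerProductSpace ℝ E] [FiniteDimensional ℝ E]

omit [FiniteDimensional ℝ E] in
theorem AsDc_dist {e : E} (he1 : ‖e‖ = 1) (x y : E) : |⟪x, e⟫ - ⟪y, e⟫| ≤ dist x y := by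
  rw [← inner_sub_left, dist_eq_norm]
  have h := abs_real_inner_le_norm (x - y) e
  rwa [he1, mul_one] at h

/-- The induction step for spheres.

Proof. `U = {x ∈ Sph L | -(1/2) ≤ ⟪x, e⟫}`, `V = {x ∈ Sph L | ⟪x, e⟫ ≤ 1/2}` (this is `cap` for `-e`:
`-(1/2) ≤ ⟪x, -e⟫`), `P = {x | 0 ≤ ⟪x, e⟫}`, `r = 1/2` (`|⟪x, e⟫ - ⟪y, e⟫| ≤ dist x y`), `U ∪ V = Sph L`,
`U ∩ V` is the band. Use `mv_ac`, `mv_cyc`, `cap_ac`, `band_retract`. -/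
theorem sph_step (L : Submodule ℝ E) {e : E} (he : e ∈ L) (he1 : ‖e‖ = 1) (m : ℕ) :
    (Ac (Sph (L ⊓ (Submodule.span ℝ {e})ᗮ)) m → Ac (Sph L) (m + 1)) ∧
    ∀ w, Cyc (Sph (L ⊓ (Submodule.span ℝ {e})ᗮ)) m w → ∃ w', Cyc (Sph L) (m + 1) w' := by
  obtain ⟨U, hUd⟩ : ∃ U : Set E, U = {x | x ∈ Sph L ∧ -(1 / 2) ≤ ⟪x, e⟫} := ⟨_, rfl⟩
  obtain ⟨V, hVd⟩ : ∃ V : Set E, V = {x | x ∈ Sph L ∧ -(1 / 2) ≤ ⟪x, -e⟫} := ⟨_, rfl⟩
  have hUm : ∀ x, x ∈ U ↔ x ∈ Sph L ∧ -(1 / 2) ≤ ⟪x, e⟫ := fun x => by rw [hUd]; rfl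
  have hVm : ∀ x, x ∈ V ↔ x ∈ Sph L ∧ ⟪x, e⟫ ≤ 1 / 2 := fun x => by
    rw [hVd, Set.mem_ofPred_eq, inner_neg_right, neg_le_neg_iff]
  have hUV : U ∪ V = Sph L := by
    ext x
    rw [Set.mem_union, hUm, hVm]
    constructor
    · rintro (h | h)
      · exact h.1
      · exact h.1
    · intro h
      rcases le_total 0 ⟪x, e⟫ with h1 | h1
      · exact Or.inl ⟨h, by linarith⟩
      · exact Or.inr ⟨h, by linarith⟩
  have hint : U ∩ V = {x | x ∈ Sph L ∧ |⟪x, e⟫| ≤ 1 / 2} := by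
    ext x
    rw [Set.mem_inter_iff, hUm, hVm, Set.mem_ofPred_eq, abs_le]
    tauto
  have hacU : Ac U (m + 1) := by rw [hUd]; exact cap_ac L he he1 (m + 1)
  have hacV : Ac V (m + 1) := by
    rw [hVd]; exact cap_ac L (L.neg_mem he) (by rw [norm_neg, he1]) (m + 1)
  have hr : (0 : ℝ) < 1 / 2 := by norm_num
  have hU : ∀ x ∈ U ∪ V, ∀ y ∈ U ∪ V, dist x y < 1 / 2 → x ∈ {x : E | 0 ≤ ⟪x, e⟫} → y ∈ U := by
    intro x _ y hy hd hx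
    rw [hUV] at hy
    have h1 := (abs_le.mp (AsDc_dist he1 x y)).2
    have h2 : 0 ≤ ⟪x, e⟫ := hx
    exact (hUm y).2 ⟨hy, by linarith⟩
  have hV : ∀ x ∈ U ∪ V, ∀ y ∈ U ∪ V, dist x y < 1 / 2 → x ∉ {x : E | 0 ≤ ⟪x, e⟫} → y ∈ V := by
    intro x _ y hy hd hx
    rw [hUV] at hy
    have h1 := (abs_le.mp (AsDc_dist he1 x y)).1
    have h2 : ⟪x, e⟫ < 0 := not_le.mp hx
    exact (hVm y).2 ⟨hy, by linarith⟩
  obtain ⟨hb1, hb2⟩ := band_retract L he he1 m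
  rw [← hint] at hb1 hb2
  constructor
  · intro h
    rw [← hUV]
    exact mv_ac hr hU hV hacU hacV (hb1 h)
  · intro w hw
    obtain ⟨w', hw'⟩ := hb2 w hw
    rw [← hUV]
    exact mv_cyc hr hU hV hacU hacV hw'

end RCan
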