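import Pool.Agent.W_04c03c_h58.SphD

/-!
# The sphere of dimension zero
-/

namespace RCan

open RealInnerProductSpace

variable {E : Type*} [NormedAddCommGroup E] [InnerProductSpace ℝ E] [FiniteDimensional ℝ E]

theorem AsDd_dl {V A : Type*} [AddCommGroup A] (x : V) (n : ℕ) : ∀ f : List V → A,
    dl (List.replicate (n + 1) x) f = if Even n then f (List.replicate n x) else 0 := by
  induction n with
  | zero =>
    intro f
    simp [dl_cons]
  | succ n ih =>
    intro f
    rw [List.replicate_succ, dl_cons, ih]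
    by_cases h : Even n
    · rw [if_pos h, if_neg (Nat.not_even_iff_odd.2 h.add_one), ← List.replicate_succ, sub_self]
    · rw [if_neg h, if_pos ((Nat.not_even_iff_odd.1 h).add_one), sub_zero]

theorem AsDd_small {U : Set E} {e : E} (he1 : ‖e‖ = 1) (hU : U = {e, -e}) {ε : ℝ} (hε : ε ≤ 1)
    {l : List E} (h : Nr U ε l) {x : E} (hx : x ∈ l) : l = List.replicate l.length x := by
  rw [List.eq_replicate_iff]
  refine ⟨rfl, fun y hy => ?_⟩
  have h1 := (h x hx).1
  have h2 := (h y hy).1
  have h3 : dist x y < 1 := ((h x hx).2 y hy).trans_le hε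
  have h4 : ‖e + e‖ = 2 := by
    rw [← two_smul ℝ e, norm_smul, he1]
    norm_num
  rw [hU] at h1 h2
  rcases h1 with h1 | h1 <;> rcases h2 with h2 | h2
  · rw [h1, h2]
  · exfalso
    rw [h1, Set.mem_singleton_iff.1 h2, dist_eq_norm, sub_neg_eq_add, h4] at h3
    linarith
  · exfalso
    rw [Set.mem_singleton_iff.1 h1, h2, dist_comm, dist_eq_norm, sub_neg_eq_add, h4] at h3
    linarith
  · rw [Set.mem_singleton_iff.1 h1, Set.mem_singleton_iff.1 h2]

theorem AsDd_rep {U : Set E} {ε : ℝ} (hε : 0 < ε) (n : ℕ) {x : E} (hx : x ∈ U) :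
    Nr U ε (List.replicate n x) := by
  intro y hy
  rw [List.eq_of_mem_replicate hy]
  refine ⟨hx, fun z hz => ?_⟩
  rw [List.eq_of_mem_replicate hz, dist_self]
  exact hε

/-- The sphere of dimension zero.

Proof. The sphere is `{e, -e}`, `dist e (-e) = 2`. `Nr U ε l` with `ε ≤ 1` means: all entries of `l` are
equal to `e` or all are equal to `-e`. (1) `m = 0`: `a [] = co a [e] = 0`. (2) `m ≥ 2`: for a cocycle `a`
define as in `as_const`: `co a` on the constant list of length `m + 1` is `a` (constant list of length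
`m`) if `m` is even, so `a = 0` there; if `m` is odd, `b l = a (replicate m x)` where `x` is the head
of `l` (`m - 1 ≥ 1`, `l ≠ []`), `co b l = a l` on constant lists of length `m`. (3) `m = 1`:
`w [x] = 1` if `x = e` and `0` otherwise; it is a cocycle (small lists are constant), and
`a [x] = a [-e] + (a [e] - a [-e]) w [x]`, the constant is `co` of the cochain `b [] = a [-e]`. -/
theorem sph_zero {L : Submodule ℝ E} {e : E} (he1 : ‖e‖ = 1) (hL : Sph L = {e, -e}) :
    Ac (Sph L) 0 ∧ (∀ m, 2 ≤ m → Ac (Sph L) m) ∧ ∃ w, Cyc (Sph L) 1 w := by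
  classical
  have heU : e ∈ Sph L := by rw [hL]; exact Or.inl rfl
  have hne : -e ≠ e := by
    intro h
    have h1 : e + e = 0 := by
      nth_rewrite 1 [← h]
      exact neg_add_cancel e
    have h2 : e = 0 := by
      rw [← two_smul ℝ e, smul_eq_zero] at h1
      rcases h1 with h1 | h1
      · norm_num at h1
      · exact h1
    rw [h2, norm_zero] at he1
    exact zero_ne_one he1
  refine ⟨?_, ?_, ?_⟩
  · rintro A _ a ⟨ε, hε, ha⟩
    refine ⟨0, 1, one_pos, fun l hl _ => ?_⟩
    have h1 := ha (List.replicate 1 e) (by simp) (AsDd_rep hε 1 heU)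
    rw [co_apply, AsDd_dl e 0, if_pos (by decide)] at h1
    rw [List.length_eq_zero_iff.1 hl, co_zero]
    exact h1
  · intro m hm
    rintro A _ a ⟨ε, hε, ha⟩
    rcases Nat.even_or_odd m with hev | hod
    · refine ⟨0, min ε 1, lt_min hε one_pos, fun l hl hn => ?_⟩
      obtain ⟨x, hx⟩ : ∃ x, x ∈ l := by
        rcases l with _ | ⟨x, l⟩
        · simp at hl
          omega
        · exact ⟨x, List.mem_cons_self⟩
      have h1 := AsDd_small he1 hL (min_le_right _ _) hn hx
      rw [hl] at h1
      have h2 := ha (List.replicate (m + 1) x) (by simp) (AsDd_rep hε _ (hn x hx).1)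
      rw [co_apply, AsDd_dl x m, if_pos hev] at h2
      rw [h1, h2, co_zero]
      rfl
    · obtain ⟨n, hn1⟩ : ∃ n, m = n + 1 := ⟨m - 1, by omega⟩
      have hev : Even n := by
        rcases Nat.even_or_odd n with h | h
        · exact h
        · exfalso
          rw [hn1] at hod
          exact Nat.not_even_iff_odd.2 hod h.add_one
      refine ⟨fun l => match l.head? with
        | some x => a (List.replicate m x)
        | none => 0, 1, one_pos, fun l hl hn => ?_⟩
      obtain ⟨x, hx⟩ : ∃ x, x ∈ l := by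
        rcases l with _ | ⟨x, l⟩
        · simp at hl
          omega
        · exact ⟨x, List.mem_cons_self⟩
      have h1 := AsDd_small he1 hL le_rfl hn hx
      rw [hl] at h1
      obtain ⟨n', hn'⟩ : ∃ n', n = n' + 1 := ⟨n - 1, by omega⟩
      rw [h1, co_apply, hn1, AsDd_dl x n, if_pos hev, hn', List.replicate_succ (n := n')]
      simp only [List.head?_cons]
  · refine ⟨fun l => if l.head? = some e then 1 else 0, ⟨1, one_pos, fun l hl hn => ?_⟩, ?_⟩
    · obtain ⟨x, hx⟩ : ∃ x, x ∈ l := by
        rcases l with _ | ⟨x, l⟩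
        · simp at hl
        · exact ⟨x, List.mem_cons_self⟩
      have h1 := AsDd_small he1 hL le_rfl hn hx
      rw [hl] at h1
      rw [h1, co_apply, AsDd_dl x 1, if_neg (by decide)]
    · rintro k _ a ⟨ε, hε, ha⟩
      refine ⟨a [e] - a [-e], fun _ => a [-e], 1, one_pos, fun l hl hn => ?_⟩
      obtain ⟨x, rfl⟩ : ∃ x, l = [x] := List.length_eq_one_iff.1 hl
      have hx := (hn x List.mem_cons_self).1
      rw [hL] at hx
      rw [co_apply, dl_cons, dl_nil, sub_zero]
      rcases hx with hx | hx
      · rw [hx]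
        simp
      · rw [Set.mem_singleton_iff.1 hx]
        simp [hne]

end RCan
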