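import Pool.Agent.W_04c03c_h58.AsDc
import Pool.Agent.W_04c03c_h58.AsDd

/-!
# The two-sphere
-/

namespace RCan

open RealInnerProductSpace

/-- The cohomology of the two-sphere.

Proof. `E = EuclideanSpace ℝ (Fin 3)`, `e i = EuclideanSpace.single i 1`. Apply `sph_step` to `L₃ = ⊤`,
`e 2`, then to `L₂ = ⊤ ⊓ (span {e 2})ᗮ`, `e 1`, and `sph_zero` to `L₁ = L₂ ⊓ (span {e 1})ᗮ`, `e 0`
(an element of `L₁` has second and third coordinates zero, so `Sph L₁ = {e 0, -e 0}`).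
`Ac S₁ 1`, `Ac S₁ m` (`m ≥ 3`), `Cyc S₁ 2`, then `Ac S₂ 2`, `Ac S₂ m` (`m ≥ 4`), `Cyc S₂ 3`.
`Sph ⊤ = Metric.sphere 0 1`. -/
theorem as_sphere :
    Ac (Metric.sphere (0 : EuclideanSpace ℝ (Fin 3)) 1) 2 ∧
    (∀ m, 4 ≤ m → Ac (Metric.sphere (0 : EuclideanSpace ℝ (Fin 3)) 1) m) ∧
    ∃ u, Cyc (Metric.sphere (0 : EuclideanSpace ℝ (Fin 3)) 1) 3 u := by
  set e : Fin 3 → EuclideanSpace ℝ (Fin 3) := fun i => EuclideanSpace.single i (1 : ℝ) with he
  have hn : ∀ i, ‖e i‖ = 1 := by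
    intro i
    simp [he]
  have hin : ∀ (i : Fin 3) (x : EuclideanSpace ℝ (Fin 3)),
      x ∈ (Submodule.span ℝ {e i})ᗮ ↔ x i = 0 := by
    intro i x
    rw [Submodule.mem_orthogonal_singleton_iff_inner_right]
    simp [he, EuclideanSpace.inner_single_left]
  set L₂ : Submodule ℝ (EuclideanSpace ℝ (Fin 3)) := ⊤ ⊓ (Submodule.span ℝ {e 2})ᗮ with hL2
  set L₁ : Submodule ℝ (EuclideanSpace ℝ (Fin 3)) := L₂ ⊓ (Submodule.span ℝ {e 1})ᗮ with hL1
  have hm2 : ∀ x : EuclideanSpace ℝ (Fin 3), x ∈ L₂ ↔ x 2 = 0 := by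
    intro x
    rw [hL2, Submodule.mem_inf, hin]
    exact ⟨fun h => h.2, fun h => ⟨trivial, h⟩⟩
  have hm1 : ∀ x : EuclideanSpace ℝ (Fin 3), x ∈ L₁ ↔ x 2 = 0 ∧ x 1 = 0 := by
    intro x
    rw [hL1, Submodule.mem_inf, hin, hm2]
  have he12 : e 1 ∈ L₂ := by
    rw [hm2]
    simp [he]
  have hS1 : Sph L₁ = {e 0, -e 0} := by
    apply Set.Subset.antisymm
    · rintro x ⟨hx, hx1⟩
      rw [hm1] at hx
      have h2 : ‖x‖ ^ 2 = ∑ i, (x i) ^ 2 := EuclideanSpace.real_norm_sq_eq x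
      rw [hx1, Fin.sum_univ_three, hx.1, hx.2] at h2
      have h3 : x 0 = 1 ∨ x 0 = -1 := by
        have h4 : (x 0 - 1) * (x 0 + 1) = 0 := by nlinarith
        rcases mul_eq_zero.1 h4 with h | h
        · left; linarith
        · right; linarith
      rcases h3 with h3 | h3
      · left
        ext i
        fin_cases i
        · simpa [he] using h3
        · simpa [he] using hx.2
        · simpa [he] using hx.1
      · right
        rw [Set.mem_singleton_iff]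
        ext i
        fin_cases i
        · simpa [he] using h3
        · simpa [he] using hx.2
        · simpa [he] using hx.1
    · rintro x (rfl | rfl)
      · refine ⟨?_, hn 0⟩
        rw [hm1]
        simp [he]
      · refine ⟨?_, ?_⟩
        · rw [hm1]
          simp [he]
        · rw [norm_neg]
          exact hn 0
  obtain ⟨hz0, hz, w, hw⟩ := sph_zero (hn 0) hS1
  have hA1 : Ac (Sph L₂) 1 := (sph_step L₂ he12 (hn 1) 0).1 hz0
  have hA2 : ∀ m, 3 ≤ m → Ac (Sph L₂) m := by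
    intro m hm
    obtain ⟨j, rfl⟩ : ∃ j, m = j + 1 := ⟨m - 1, by omega⟩
    exact (sph_step L₂ he12 (hn 1) j).1 (hz j (by omega))
  obtain ⟨w2, hw2⟩ := (sph_step L₂ he12 (hn 1) 1).2 w hw
  have htop : Sph (⊤ : Submodule ℝ (EuclideanSpace ℝ (Fin 3))) = Metric.sphere 0 1 := by
    ext x
    simp [Sph]
  rw [← htop]
  refine ⟨(sph_step ⊤ Submodule.mem_top (hn 2) 1).1 hA1, ?_,
    (sph_step ⊤ Submodule.mem_top (hn 2) 2).2 w2 hw2⟩
  intro m hm
  obtain ⟨j, rfl⟩ : ∃ j, m = j + 1 := ⟨m - 1, by omega⟩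
  exact (sph_step ⊤ Submodule.mem_top (hn 2) j).1 (hA2 j (by omega))

end RCan
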