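import Pool.Agent.W_04c03c_h58.Horo

/-!
# Leaving horoballs
-/

namespace RCan

open Filter Topology Set
open scoped NNReal Pointwise

variable {X : Type*} [MetricSpace X] {δ : ℝ}

/-- A horoball is not the whole space if there is a ray which is not asymptotic to its centre.

Proof. By `gp_bdd` (base point `o = γ 0`, say) `gp o (γ' n) (γ t) ≤ M`. Then
`dist (γ' n) (γ t) - t = dist o (γ' n) + dist o (γ t) - 2 gp - t ≥ dist o (γ' n) - 2 M` (as
`dist o (γ t) = t`), and `dist o (γ' n) ≥ n - dist o (γ' 0)`; for `n` large `γ' n ∉ HB γ c`. -/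
theorem horo_ne_univ [ProperSpace X] (hδ : Hyp4 X δ) (hG : IsGeod X) {γ γ' : GRay X}
    (h : ¬ (asym X).r γ' γ) (c : ℝ) : ∃ x, x ∉ HB γ c := by
  obtain ⟨M, hM⟩ := gp_bdd hδ hG (o := γ.1 0) h
  have hd : ∀ t : ℝ≥0, dist (γ.1 0) (γ.1 t) = t := by
    intro t
    rw [γ.2.dist_eq, NNReal.dist_eq]
    simp
  have hd' : ∀ t : ℝ≥0, dist (γ'.1 0) (γ'.1 t) = t := by
    intro t
    rw [γ'.2.dist_eq, NNReal.dist_eq]
    simp
  obtain ⟨n, hn⟩ : ∃ n : ℝ≥0, n = Real.toNNReal (c + 2 * M + dist (γ.1 0) (γ'.1 0)) := ⟨_, rfl⟩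
  have h1 : c + 2 * M + dist (γ.1 0) (γ'.1 0) ≤ n := by
    rw [hn]
    exact Real.le_coe_toNNReal _
  have h2 := dist_triangle (γ'.1 0) (γ.1 0) (γ'.1 n)
  rw [hd', dist_comm (γ'.1 0) (γ.1 0)] at h2
  refine ⟨γ'.1 n, ?_⟩
  rintro ⟨t, ht⟩
  have h3 := hM n t
  unfold gp at h3
  rw [hd] at h3
  linarith

/-- A segment which leaves a member of a disjoint family of open sets contains a point outside of the
union.

Proof. Let `γ` be a geodesic from `x` to `y`, continuous on `[0, D]`, `D = dist x y`. The image `S` of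
`[0, D]` is preconnected. If `S ⊆ ⋃₀ 𝓗`, let `W` be the union of the members of `𝓗` different from `B`:
open, disjoint from `B`; `S ⊆ B ∪ W` meets both (`x ∈ B`, `y ∈ W`), so `S ∩ (B ∩ W)` is nonempty:
contradiction. For `z = γ t ∈ S`: `dist x z = t ≤ D`. -/
theorem seg_exit (hG : IsGeod X) {𝓗 : Set (Set X)} (hd : 𝓗.PairwiseDisjoint id)
    (ho : ∀ B ∈ 𝓗, IsOpen B) {B : Set X} (hB : B ∈ 𝓗) {x y : X} (hx : x ∈ B) (hy : y ∉ B) :
    ∃ z, (∀ B' ∈ 𝓗, z ∉ B') ∧ dist x z ≤ dist x y := by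
  obtain ⟨γ, h0, h1, hγ⟩ := hG x y
  have hD : (0 : ℝ) ≤ dist x y := dist_nonneg
  have hcont : ContinuousOn γ (Set.Icc 0 (dist x y)) := by
    rw [Metric.continuousOn_iff]
    intro b hb ε hε
    refine ⟨ε, hε, fun a ha hab => ?_⟩
    rw [hγ a ha b hb]
    rwa [Real.dist_eq] at hab
  have hpre : IsPreconnected (γ '' Set.Icc 0 (dist x y)) := isPreconnected_Icc.image γ hcont
  by_contra hcon
  push Not at hcon
  have hcov : ∀ z ∈ γ '' Set.Icc 0 (dist x y), ∃ B' ∈ 𝓗, z ∈ B' := by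
    rintro z ⟨t, ht, rfl⟩
    by_contra hz
    push Not at hz
    have h2 := hcon (γ t) hz
    have h3 : dist x (γ t) = t := by
      conv_lhs => rw [← h0]
      rw [hγ 0 ⟨le_rfl, hD⟩ t ht, zero_sub, abs_neg, abs_of_nonneg ht.1]
    rw [h3] at h2
    exact absurd ht.2 (not_le.2 h2)
  have hx' : x ∈ γ '' Set.Icc 0 (dist x y) := ⟨0, ⟨le_rfl, hD⟩, h0⟩
  have hy' : y ∈ γ '' Set.Icc 0 (dist x y) := ⟨dist x y, ⟨hD, le_rfl⟩, h1⟩
  obtain ⟨z, _, hz1, hz2⟩ := hpre B (⋃₀ (𝓗 \ {B})) (ho B hB)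
    (isOpen_sUnion fun B' hB' => ho B' hB'.1) (by
      intro z hz
      obtain ⟨B', hB', hzB'⟩ := hcov z hz
      by_cases hBB : B' = B
      · exact Or.inl (hBB ▸ hzB')
      · exact Or.inr ⟨B', ⟨hB', hBB⟩, hzB'⟩)
    ⟨x, hx', hx⟩ (by
      obtain ⟨B', hB', hyB'⟩ := hcov y hy'
      refine ⟨y, hy', B', ⟨hB', ?_⟩, hyB'⟩
      intro hBB
      rw [Set.mem_singleton_iff] at hBB
      rw [hBB] at hyB'
      exact hy hyB')
  obtain ⟨B', ⟨hB', hne⟩, hzB'⟩ := hz2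
  have h2 := hd hB hB' (fun h => hne h.symm)
  exact Set.disjoint_left.1 h2 hz1 hzB'

end RCan
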