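import Pool.Agent.W_04c03c_h58.CuspA
import Pool.Agent.W_04c03c_h58.HoroB

/-!
# A base point
-/

namespace RCan

open Set
open scoped NNReal Pointwise

variable {N X : Type*} [Group N] [MetricSpace X] [MulAction N X] {𝓗 : Set (Set X)}

/-- There is a point outside of all horoballs.

Proof. If `𝓗` is empty take any point (a ray exists because the boundary is not empty). Otherwise let
`B = HB γ c ∈ 𝓗`. There is a ray not asymptotic to `γ` (`Bdry X` has two points), so by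
`horo_ne_univ` a point `y ∉ B`; `γ t ∈ B` for `t` large; `seg_exit`. -/
theorem exists_base [ProperSpace X] {δ : ℝ} (hδ : Hyp4 X δ) (hG : IsGeod X) (hC : Cusped N 𝓗)
    (h : Nontrivial (Bdry X)) : ∃ o : X, ∀ B ∈ 𝓗, o ∉ B := by
  rcases 𝓗.eq_empty_or_nonempty with h0 | ⟨B, hB⟩
  · obtain ⟨a, -, -⟩ := h.exists_pair_ne
    obtain ⟨γ, -⟩ := Quotient.exists_rep (s := asym X) a
    exact ⟨γ.1 0, fun B hB => by rw [h0] at hB; exact absurd hB (Set.notMem_empty B)⟩
  · obtain ⟨γ, c, rfl⟩ := horo_HB hC hB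
    obtain ⟨b, hb⟩ : ∃ b : Bdry X, b ≠ (Quotient.mk (asym X) γ : Bdry X) :=
      exists_ne (α := Bdry X) (Quotient.mk (asym X) γ)
    obtain ⟨γ', rfl⟩ := Quotient.exists_rep (s := asym X) b
    have hna : ¬ (asym X).r γ' γ := fun hr => hb (Quotient.sound (s := asym X) hr)
    obtain ⟨y, hy⟩ := horo_ne_univ hδ hG hna c
    obtain ⟨t, ht⟩ : ∃ t : ℝ≥0, -c < t := by
      obtain ⟨n, hn⟩ := exists_nat_gt (-c)
      exact ⟨n, by simpa using hn⟩
    have hx := ray_mem_HB γ c ht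
    have ho : ∀ B ∈ 𝓗, IsOpen B := by
      intro B' hB'
      obtain ⟨γ₁, c₁, rfl⟩ := horo_HB hC hB'
      exact isOpen_HB γ₁ c₁
    obtain ⟨z, hz, -⟩ := seg_exit hG hC.disj ho hB hx hy
    exact ⟨z, hz⟩

end RCan
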