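import Pool.Agent.W_04c03c_h58.CuspA
import Pool.Agent.W_04c03c_h58.HoroB

/-!
# Finiteness of the relative lists
-/

namespace RCan

open Set
open scoped NNReal Pointwise

variable {N X : Type*} [Group N] [MetricSpace X] [MulAction N X] {𝓗 : Set (Set X)}

/-- The relative lists are finite modulo `N`.

Proof. Let `K` be as in `hC.cocpt`, contained in a ball `closedBall x₀ D` (if `K` is empty or `l = []`
treat separately; `X` is nonempty if `l ≠ []`), `r = sc δ`, `F = {v | dist x₀ (pt v) ≤ D + 2 r}`, finite by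
`hN.lf`. Let `l` be a relative list. If `l = []`: any `g`. Otherwise let `v ∈ l`. Claim: there is `q`
outside of all horoballs with `dist (pt v) q ≤ r`: if `pt v` is outside of all horoballs, `q = pt v`.
Otherwise `pt v ∈ B`, and since `l` is not contained in `B` there is `w ∈ l` with `pt w ∉ B`, and
`seg_exit` gives `q` with `dist (pt v) q ≤ dist (pt v) (pt w) ≤ r`. Take `g` with `g • q ∈ K`. For
`x ∈ l`: `dist (g • q) (pt (g • x)) = dist q (pt x) ≤ 2 r`, so `g • x ∈ F`. -/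
theorem fin_rel [ProperSpace X] {V : Type*} [MulAction N V] {δ : ℝ} (hG : IsGeod X)
    (hC : Cusped N 𝓗) {pt : V → X} (hN : IsNet pt) (hp : ∀ (g : N) v, pt (g • v) = g • pt v) :
    ∃ F : Set V, F.Finite ∧ ∀ l, Rl (smr δ pt) (cuspOf 𝓗 pt) l → ∃ g : N, ∀ x ∈ l, g • x ∈ F := by
  classical
  obtain ⟨K, hK, hcov⟩ := hC.cocpt
  rcases isEmpty_or_nonempty X with hX | ⟨⟨x₀⟩⟩
  · exact ⟨∅, finite_empty, fun l _ => ⟨1, fun x _ => (hX.false (pt x)).elim⟩⟩
  obtain ⟨D, hD⟩ := hK.isBounded.subset_closedBall x₀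
  refine ⟨{v | dist x₀ (pt v) ≤ D + 2 * sc δ}, hN.lf x₀ _, fun l hl => ?_⟩
  rcases List.eq_nil_or_concat l with rfl | ⟨l', v, hl'⟩
  · exact ⟨1, fun x hx => absurd hx List.not_mem_nil⟩
  have hv : v ∈ l := by rw [hl']; simp
  obtain ⟨hs, hc⟩ := hl
  have hsc : 0 ≤ sc δ := by
    have h := hs v hv v hv
    unfold smr at h
    rwa [dist_self] at h
  have ho : ∀ B ∈ 𝓗, IsOpen B := by
    intro B hB
    obtain ⟨γ, c, h⟩ := horo_HB hC hB
    rw [h]
    exact isOpen_HB γ c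
  have hq : ∃ q, (∀ B ∈ 𝓗, q ∉ B) ∧ dist (pt v) q ≤ sc δ := by
    by_cases h0 : ∀ B ∈ 𝓗, pt v ∉ B
    · exact ⟨pt v, h0, by rw [dist_self]; exact hsc⟩
    · push Not at h0
      obtain ⟨B, hB, hvB⟩ := h0
      have hw : ∃ w ∈ l, pt w ∉ B := by
        by_contra hcon
        push Not at hcon
        exact hc ⟨⟨B, hB⟩, fun x hx => (cuspOf_eq hC.disj pt x ⟨B, hB⟩).2 (hcon x hx)⟩
      obtain ⟨w, hwl, hwB⟩ := hw
      obtain ⟨q, hq1, hq2⟩ := seg_exit hG hC.disj ho hB hvB hwB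
      exact ⟨q, hq1, hq2.trans (hs v hv w hwl)⟩
  obtain ⟨q, hq1, hq2⟩ := hq
  obtain ⟨g, hg⟩ := hcov q hq1
  refine ⟨g, fun x hx => ?_⟩
  show dist x₀ (pt (g • x)) ≤ D + 2 * sc δ
  have h1 : dist x₀ (g • q) ≤ D := by
    have := hD hg
    rwa [Metric.mem_closedBall, dist_comm] at this
  have h2 : dist (g • q) (pt (g • x)) = dist q (pt x) := by rw [hp, hC.isom]
  have h3 : dist (pt v) (pt x) ≤ sc δ := hs v hv x hx
  have h4 := dist_triangle x₀ (g • q) (pt (g • x))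
  have h5 := dist_triangle_left q (pt x) (pt v)
  linarith

end RCan
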