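import Pool.Agent.W_04c03c_h58.Inf

/-!
# Pull back of Alexander-Spanier cochains to the net
-/

namespace RCan

variable {N Ξ V : Type*} [Group N] [MulAction N Ξ] [MulAction N V] {sm : V → V → Prop}
  {cusp : V → Option Ξ} {π : V → E3} {ctr : Ξ → E3} {d : V → ℝ}

open Classical in
/-- the pull back of a cochain on the sphere, restricted to small lists -/
noncomputable def ap (sm : V → V → Prop) (π : V → E3) {k : Type*} [AddCommGroup k]
    (a : List E3 → k) : List V → k := fun l => if Sml sm l then a (l.map π) else 0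

/-- `cr (ap a) = ap (co a)` on small lists: `cr sm (ap sm π a) l = co a (l.map π)` if `l` is small. -/
theorem cr_ap {k : Type*} [AddCommGroup k] (a : List E3 → k) {l : List V} (hl : Sml sm l) :
    cr sm (ap sm π a) l = co a (l.map π) := by
  rw [cr_of_sml _ hl, co_map]
  apply dl_congr
  intro l' h1 _
  simp [ap, hl.sub h1.subset]

theorem alt_ap {k : Type*} [AddCommGroup k] {a : List E3 → k} (ha : Alt a) : Alt (ap sm π a) := by
  classical
  have := Alt.ite (Sml sm) (fun l l' h h' => ⟨fun hs => hs.sub h', fun hs => hs.sub h⟩) (ha.map π)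
  unfold ap
  convert this

theorem InfB_ap_of {k : Type*} [AddCommGroup k] (a : List E3 → k) {l : List V} (h : Sml sm l) :
    ap sm π a l = a (l.map π) := by
  simp [ap, h]

theorem InfB_ap_sml {k : Type*} [AddCommGroup k] {a : List E3 → k} {l : List V}
    (h : ap sm π a l ≠ 0) : Sml sm l := by
  by_contra hs
  exact h (by simp [ap, hs])

theorem InfB_const (h : InfD N Ξ V sm cusp π ctr d) {l : List V} (hl : InC cusp l) :
    ∃ z, ∀ y ∈ l.map π, y = z := by
  obtain ⟨ξ, hξ⟩ := hl
  refine ⟨ctr ξ, fun y hy => ?_⟩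
  obtain ⟨x, hx, rfl⟩ := List.mem_map.1 hy
  exact h.pi_cusp x ξ (hξ x hx)

theorem InfB_nr (h : InfD N Ξ V sm cusp π ctr d) {ε : ℝ} (he : 0 < ε) :
    ∃ R : ℝ, ∀ l, Sml sm l → (∀ x ∈ l, R ≤ d x) → Nr S2 ε (l.map π) := by
  obtain ⟨R, hR⟩ := h.cont ε he
  refine ⟨R, fun l hs hl z hz => ?_⟩
  obtain ⟨x, hx, rfl⟩ := List.mem_map.1 hz
  refine ⟨h.sph x, fun w hw => ?_⟩
  obtain ⟨y, hy, rfl⟩ := List.mem_map.1 hw
  exact hR x y (hs x hx y hy) (hl x hx)

/-- If `a` is alternating and concentrated on lists of length `n + 1 ≥ 2` then `ap a` is relative: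
on a list contained in a horoball `l.map π` is constant of length at least two (`Alt.const`). -/
theorem isR_ap (h : InfD N Ξ V sm cusp π ctr d) {k : Type*} [AddCommGroup k] {n : ℕ} (hn : 1 ≤ n)
    {a : List E3 → k} (ha : Alt a) (hl : ∀ l, a l ≠ 0 → l.length = n + 1) :
    IsR sm cusp k n (ap sm π a) := by
  refine ⟨alt_ap ha, ?_, ?_⟩
  · intro l h1
    rw [InfB_ap_of a (InfB_ap_sml h1)] at h1
    have h2 := hl _ h1
    rwa [List.length_map] at h2
  · intro l h1
    refine ⟨InfB_ap_sml h1, fun hc => ?_⟩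
    obtain ⟨z, hz⟩ := InfB_const h hc
    rw [InfB_ap_of a (InfB_ap_sml h1)] at h1
    have h2 := hl _ h1
    exact h1 (ha.const hz (by omega))

/-- A cochain on the net which vanishes on all small lists far from the base point has finite
support, if it is concentrated on small lists of a fixed length.

Proof. If `f l ≠ 0` then some `x ∈ l` has `d x < R` (or `l = []`), so by `h.smd` all `y ∈ l` have
`d y ≤ R + r`; the lists of length `m` with entries in the finite set `{v | d v ≤ R + r}` (`h.ball`)
form a finite set (`List.finite_length_eq` on the subtype, or induction on `m`). -/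
theorem fin_of_far (h : InfD N Ξ V sm cusp π ctr d) {k : Type*} [AddCommGroup k] {m : ℕ} {R : ℝ}
    {f : List V → k} (h1 : ∀ l, f l ≠ 0 → l.length = m) (h2 : ∀ l, f l ≠ 0 → Sml sm l)
    (h3 : ∀ l, Sml sm l → l.length = m → (∀ x ∈ l, R ≤ d x) → f l = 0) :
    (Function.support f).Finite := by
  obtain ⟨r, hr⟩ := h.smd
  have hT : {v | d v ≤ R + r}.Finite := h.ball (R + r)
  haveI : Finite {v | d v ≤ R + r} := hT
  have hfin : ((fun l : List {v | d v ≤ R + r} => l.map Subtype.val) ''
      {l | l.length = m}).Finite := (List.finite_length_eq _ m).image _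
  refine hfin.subset ?_
  intro l hl
  have hl0 : f l ≠ 0 := hl
  have hs := h2 l hl0
  have hlen := h1 l hl0
  have hx : ∃ x ∈ l, d x < R := by
    by_contra hcon
    push Not at hcon
    exact hl0 (h3 l hs hlen hcon)
  obtain ⟨x, hxl, hxR⟩ := hx
  have hall : ∀ y ∈ l, y ∈ {v | d v ≤ R + r} := by
    intro y hy
    show d y ≤ R + r
    have := hr x y (hs x hxl y hy)
    linarith
  refine ⟨l.attachWith _ hall, ?_, ?_⟩
  · show (l.attachWith _ hall).length = m
    rw [List.length_attachWith]
    exact hlen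
  · show (l.attachWith _ hall).map Subtype.val = l
    exact List.attachWith_map_subtype_val _

/-- If `a = co b` near the diagonal of the sphere then `ap a - cr (ap b)` has finite support.

Proof. `n ≥ 1`. Alternating and of length `n + 1`: clear (`Alt.cr`, `alt_ap`, `IsR.cr`-like argument for
the length). Relative: on a small list `l` contained in a horoball `l.map π` is a constant list of length
`n + 1 ≥ 2`, so `a` and `co b` vanish on it (`Alt.const`, `Alt.co`, `cr_ap`). Finite support:
`fin_of_far` with `R` from `h.cont ε`: for small `l` with all `d x ≥ R` the list `l.map π` satisfies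
`Nr S2 ε`, so `a (l.map π) = co b (l.map π)`. -/
theorem isD_ap_sub (h : InfD N Ξ V sm cusp π ctr d) {k : Type*} [AddCommGroup k] {n : ℕ}
    (hn : 1 ≤ n) {a b : List E3 → k} (ha : Alt a) (hb : Alt b)
    (hla : ∀ l, a l ≠ 0 → l.length = n + 1) (hlb : ∀ l, b l ≠ 0 → l.length = n) {ε : ℝ} (he : 0 < ε)
    (hab : ∀ l, l.length = n + 1 → Nr S2 ε l → a l = co b l) :
    IsD sm cusp k n (ap sm π a - cr sm (ap sm π b)) := by
  have hzero : ∀ l : List V, l.length = n + 1 → Sml sm l →
      (ap sm π a - cr sm (ap sm π b)) l = a (l.map π) - co b (l.map π) := by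
    intro l _ hs
    rw [Pi.sub_apply, InfB_ap_of a hs, cr_ap b hs]
  have hsml : ∀ l, (ap sm π a - cr sm (ap sm π b)) l ≠ 0 → Sml sm l := by
    intro l hl0
    by_contra hs
    apply hl0
    rw [Pi.sub_apply]
    simp [ap, cr, hs]
  have hlen : ∀ l, (ap sm π a - cr sm (ap sm π b)) l ≠ 0 → l.length = n + 1 := by
    intro l hl0
    by_contra hne
    have hs := hsml l hl0
    apply hl0
    rw [Pi.sub_apply, InfB_ap_of a hs, cr_of_sml _ hs]
    have e1 : a (l.map π) = 0 := by
      by_contra h1
      have := hla _ h1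
      rw [List.length_map] at this
      exact hne this
    have e2 : co (ap sm π b) l = 0 := by
      apply dl_eq_zero
      intro l' h1 h2
      by_contra h3
      rw [InfB_ap_of b (InfB_ap_sml h3)] at h3
      have := hlb _ h3
      rw [List.length_map] at this
      omega
    rw [e1, e2, sub_zero]
  refine ⟨(alt_ap ha).sub (alt_ap hb).cr, hlen, ?_, ?_⟩
  · intro l hl0
    have hs := hsml l hl0
    refine ⟨hs, fun hc => hl0 ?_⟩
    obtain ⟨z, hz⟩ := InfB_const h hc
    have h2 : 2 ≤ (l.map π).length := by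
      rw [List.length_map, hlen l hl0]
      omega
    rw [hzero l (hlen l hl0) hs, ha.const hz h2, hb.co.const hz h2, sub_zero]
  · obtain ⟨R, hR⟩ := InfB_nr h he
    refine fin_of_far h hlen hsml (R := R) ?_
    intro l hs hl hx
    rw [hzero l hl hs, hab (l.map π) (by rw [List.length_map]; exact hl) (hR l hs hx), sub_self]

/-- If `a` is a cocycle near the diagonal of the sphere then `cr (ap a)` has finite support.

Proof. `IsR.cr` of `isR_ap`; `fin_of_far` with `R` from `h.cont ε`, `cr_ap`. -/
theorem isD_cr_ap (h : InfD N Ξ V sm cusp π ctr d) {k : Type*} [AddCommGroup k] {n : ℕ}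
    (hn : 1 ≤ n) {a : List E3 → k} (ha : Alt a) (hla : ∀ l, a l ≠ 0 → l.length = n + 1)
    (hz : AZ S2 (n + 1) a) : IsD sm cusp k (n + 1) (cr sm (ap sm π a)) := by
  have hR := (isR_ap h hn ha hla).cr
  refine hR.isD ?_
  obtain ⟨ε, he, hz⟩ := hz
  obtain ⟨R, hnr⟩ := InfB_nr h he
  refine fin_of_far h hR.len (fun l hl => (hR.rl l hl).1) (R := R) ?_
  intro l hs hl hx
  rw [cr_ap a hs]
  exact hz _ (by rw [List.length_map]; exact hl) (hnr l hs hx)

end RCan
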