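import Pool.Agent.W_04c03c_h58.InfC

/-!
# Germs at infinity: relative version in degrees at least two
-/

namespace RCan

variable {N Ξ V : Type*} [Group N] [MulAction N Ξ] [MulAction N V] {sm : V → V → Prop}
  {cusp : V → Option Ξ} {π : V → E3} {ctr : Ξ → E3} {d : V → ℝ}

/-- Proof. Take `a, g, R` from `germ_aux`, and `R'` from `h.far R`; we may assume `R' ≥ R`.
For `ξ : Ξ` apply `exists_co_of_cycles` to `S_ξ = {l | Sml sm l ∧ ∀ x ∈ l, cusp x = some ξ ∧ R' ≤ d x}`,
the cochain `g` and lists of length `n` (`= (n - 1) + 1`): a cycle `c` there is `bd b`, `b` supported on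
small lists of length `n + 1` in the horoball with `R ≤ d` (`h.far`, `1 ≤ n`), and on such lists
`co g = e - ap a = 0`: `e` is relative, and `ap a = 0` (`l.map π` is constant of length `n + 1 ≥ 2`,
`Alt.const`). So there is `κ ξ` on the lists of `S_ξ` of length `n - 1 ≥ 1` with `co (κ ξ) = g` on the
lists of `S_ξ` of length `n`. `K l = κ ξ l` if `l ≠ []` is small, contained in the horoball `ξ` and
`R' ≤ d` on `l`; `0` otherwise. `g₁ l = g l - co K l` if `l` is small of length `n` with all `d x ≥ R'`,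
and `0` otherwise; `g₁` vanishes on lists contained in a horoball, and
`co g₁ = co g - co (co K) = e - ap a` on small lists of length `n + 1` with all `d x ≥ R'`.
Choose a linear order on `V`; `g₂ = rr g₁` is relative of degree `n - 1` (see `exists_rel`).
`w = e - ap a - cr sm g₂` is relative of degree `n` (`isR_ap`, `IsR.cr`), and vanishes on small lists
with all `d x ≥ R'`: there `rr` of both sides: `cr sm (rr g₁) l = rr (co g₁) l = rr (e - ap a) l =
(e - ap a) l` (`co_rr`, `rr_alt`, and `rr_congr` to compare: `co g₁ = e - ap a` on the lists with the same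
entries as `l`). Finite support by `fin_of_far`. Finally `cr e = cr (ap a) + cr w` by `cr_cr`,
`cr_sub`. -/
theorem germ_two (h : InfD N Ξ V sm cusp π ctr d) {k : Type} [Field k] {n : ℕ} (hn : 2 ≤ n)
    {e : List V → k} (he : IsR sm cusp k n e) (hf : (Function.support (cr sm e)).Finite) :
    ∃ (a : List E3 → k) (w : List V → k), Alt a ∧ (∀ l, a l ≠ 0 → l.length = n + 1) ∧
      AZ S2 (n + 1) a ∧ IsD sm cusp k n w ∧ cr sm e = cr sm (ap sm π a) + cr sm w := by
  classical
  obtain ⟨m, rfl⟩ : ∃ m, n = m + 1 := ⟨n - 1, by omega⟩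
  have hm : 1 ≤ m := by omega
  obtain ⟨a, g, R, ha, hla, haz, hg, hco⟩ := germ_aux h (by omega) he hf
  obtain ⟨R0, hfar⟩ := h.far R
  have hap : IsR sm cusp k (m + 1) (ap sm π a) := isR_ap h (by omega) ha hla
  -- `co g` vanishes on lists in a horoball
  have hz : ∀ (ξ : Ξ) (l : List V), Sml sm l → (∀ x ∈ l, cusp x = some ξ ∧ R ≤ d x) →
      l.length = m + 1 + 1 → co g l = 0 := by
    intro ξ l hs hx hl
    rw [← hco l hs (fun x hxl => (hx x hxl).2) hl]
    have h1 : e l = 0 := by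
      by_contra h1
      exact (he.rl l h1).2 ⟨ξ, fun x hxl => (hx x hxl).1⟩
    have h2 : ap sm π a l = 0 := by
      by_contra h2
      exact (hap.rl l h2).2 ⟨ξ, fun x hxl => (hx x hxl).1⟩
    rw [h1, h2, sub_zero]
  set R' : ℝ := max R0 R with hR'
  -- primitives in the horoballs
  have hex : ∀ ξ : Ξ, ∃ κ : List V → k,
      (∀ l, κ l ≠ 0 → l ∈ {l : List V | Sml sm l ∧ ∀ x ∈ l, cusp x = some ξ ∧ R' ≤ d x} ∧
        l.length = m) ∧
      ∀ l ∈ {l : List V | Sml sm l ∧ ∀ x ∈ l, cusp x = some ξ ∧ R' ≤ d x}, l.length = m + 1 →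
        co κ l = g l := by
    intro ξ
    apply exists_co_of_cycles
    · rintro l ⟨h1, h2⟩ l' h3 _
      exact ⟨h1.sub h3.subset, fun x hx => h2 x (h3.subset hx)⟩
    · intro c hc hbd
      have hc' : c ∈ Finsupp.supported k k (SmT sm {v | cusp v = some ξ ∧ R0 ≤ d v} (m + 1)) := by
        refine Finsupp.supported_mono ?_ hc
        rintro l ⟨⟨h1, h2⟩, h3⟩
        exact ⟨⟨h1, fun x hx => ⟨(h2 x hx).1, (le_max_left R0 R).trans (h2 x hx).2⟩⟩, h3⟩
      obtain ⟨b, hb, rfl⟩ := hfar ξ k (m + 1) (by omega) c hc' hbd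
      rw [lc_bd]
      refine lc_eq_zero (S := SmT sm {v | cusp v = some ξ ∧ R ≤ d v} (m + 1 + 1)) ?_ hb
      rintro l ⟨⟨h1, h2⟩, h3⟩
      exact hz ξ l h1 h2 h3
  choose κ hκ1 hκ2 using hex
  let K : List V → k := fun l => match l with
    | [] => 0
    | x :: t => match cusp x with
      | some ξ => κ ξ (x :: t)
      | none => 0
  have hK : ∀ (ξ : Ξ) (l : List V), l ≠ [] → (∀ x ∈ l, cusp x = some ξ) → K l = κ ξ l := by
    intro ξ l hl hx
    rcases l with _ | ⟨x, t⟩
    · exact absurd rfl hl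
    · have h1 : cusp x = some ξ := hx x (by simp)
      show (match cusp x with
        | some ξ => κ ξ (x :: t)
        | none => 0) = κ ξ (x :: t)
      rw [h1]
  let g₁ : List V → k := fun l =>
    if Sml sm l ∧ l.length = m + 1 ∧ (∀ x ∈ l, R' ≤ d x) then g l - co K l else 0
  have hg₁ : ∀ l, Sml sm l → l.length = m + 1 → (∀ x ∈ l, R' ≤ d x) → g₁ l = g l - co K l :=
    fun l h1 h2 h3 => if_pos ⟨h1, h2, h3⟩
  have hg₁0 : ∀ l, g₁ l ≠ 0 → Sml sm l ∧ l.length = m + 1 ∧ (∀ x ∈ l, R' ≤ d x) := by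
    intro l hl
    by_contra hcon
    exact hl (if_neg hcon)
  have hg₁r : ∀ l, g₁ l ≠ 0 → Rl sm cusp l := by
    intro l hl
    obtain ⟨h1, h2, h3⟩ := hg₁0 l hl
    refine ⟨h1, ?_⟩
    rintro ⟨ξ, hξ⟩
    apply hl
    rw [hg₁ l h1 h2 h3]
    have h4 : co K l = co (κ ξ) l := by
      show dl l K = dl l (κ ξ)
      apply dl_congr
      intro l' h5 h6
      apply hK ξ l' _ (fun x hx => hξ x (h5.subset hx))
      intro h7
      rw [h7] at h6
      simp only [List.length_nil] at h6
      omega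
    rw [h4, hκ2 ξ l ⟨h1, fun x hx => ⟨hξ x hx, h3 x hx⟩⟩ h2, sub_self]
  have hcog : ∀ l, Sml sm l → l.length = m + 1 + 1 → (∀ x ∈ l, R' ≤ d x) →
      co g₁ l = (e - ap sm π a) l := by
    intro l h1 h2 h3
    have h4 : co g₁ l = co (g - co K) l := by
      show dl l g₁ = dl l (g - co K)
      apply dl_congr
      intro l' h5 h6
      exact hg₁ l' (h1.sub h5.subset) (by omega) (fun x hx => h3 x (h5.subset hx))
    rw [h4, co_sub, co_co, sub_zero, Pi.sub_apply]
    exact (hco l h1 (fun x hx => (le_max_right R0 R).trans (h3 x hx)) h2).symm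
  let _ : LinearOrder V := linearOrderOfSTO (WellOrderingRel (α := V))
  have hsrt : ∀ l : List V, Sml sm (srt l) → Sml sm l := by
    intro l hl x hx y hy
    exact hl x (mem_srt.2 hx) y (mem_srt.2 hy)
  have hrr0 : ∀ l, rr g₁ l ≠ 0 → g₁ (srt l) ≠ 0 := by
    intro l hl h0
    apply hl
    show sgn l • g₁ (srt l) = 0
    rw [h0, smul_zero]
  have hg₂ : IsR sm cusp k m (rr g₁) := by
    refine ⟨alt_rr g₁, ?_, ?_⟩
    · intro l hl
      rw [← length_srt l]
      exact (hg₁0 _ (hrr0 l hl)).2.1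
    · intro l hl
      have h1 := hg₁r _ (hrr0 l hl)
      refine ⟨hsrt l h1.1, ?_⟩
      rintro ⟨ξ, hξ⟩
      exact h1.2 ⟨ξ, fun x hx => hξ x (mem_srt.1 hx)⟩
  have hw : IsR sm cusp k (m + 1) (e - ap sm π a - cr sm (rr g₁)) := (he.sub hap).sub hg₂.cr
  refine ⟨a, e - ap sm π a - cr sm (rr g₁), ha, hla, haz, hw.isD ?_, ?_⟩
  · refine fin_of_far (R := R') h hw.len (fun l hl => (hw.rl l hl).1) ?_
    intro l h1 h2 h3
    have h4 : cr sm (rr g₁) l = (e - ap sm π a) l := by
      rw [cr_of_sml _ h1, co_rr]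
      rw [rr_congr (g := e - ap sm π a) (l := l)]
      · rw [rr_alt (he.alt.sub (alt_ap ha))]
      · intro l' h5 h6
        apply hcog l'
        · intro x hx y hy
          exact h1 x ((h6 x).1 hx) y ((h6 y).1 hy)
        · omega
        · intro x hx
          exact h3 x ((h6 x).1 hx)
    rw [Pi.sub_apply, h4, sub_self]
  · rw [cr_sub, cr_sub, cr_cr]
    abel

end RCan
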