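import Pool.Agent.W_04c03c_h58.InfA
import Pool.Agent.W_04c03c_h58.InfB
import Pool.Agent.W_04c03c_h58.InfD2
import Pool.Agent.W_04c03c_h58.AsAlt
import Pool.Agent.W_04c03c_h58.AsDe
import Pool.Agent.W_04c03c_h58.AsB

/-!
# Cohomology in degree three
-/

namespace RCan

variable {N Ξ V : Type*} [Group N] [MulAction N Ξ] [MulAction N V] {sm : V → V → Prop}
  {cusp : V → Option Ξ} {π : V → E3} {ctr : Ξ → E3} {d : V → ℝ}

theorem FaceB_cr_hom {A B : Type*} [AddCommGroup A] [AddCommGroup B] (φ : A →+ B)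
    (f : List V → A) : cr sm (fun l => φ (f l)) = fun l => φ (cr sm f l) := by
  funext l
  by_cases hs : Sml sm l
  · rw [cr_of_sml _ hs, cr_of_sml _ hs, co_hom]
  · simp [cr, hs]

theorem FaceB_ap_hom {A B : Type*} [AddCommGroup A] [AddCommGroup B] (φ : A →+ B)
    (a : List E3 → A) : ap sm π (fun l => φ (a l)) = fun l => φ (ap sm π a l) := by
  funext l
  by_cases hs : Sml sm l
  · simp [ap, hs]
  · simp [ap, hs]

theorem FaceB_ap_sub {A : Type*} [AddCommGroup A] (a b : List E3 → A) :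
    ap sm π (a - b) = ap sm π a - ap sm π b := by
  funext l
  by_cases hs : Sml sm l
  · simp [ap, hs]
  · simp [ap, hs]

theorem FaceB_cr_not {A : Type*} [AddCommGroup A] (f : List V → A) {l : List V}
    (hs : ¬ Sml sm l) : cr sm f l = 0 := by
  simp [cr, hs]

/-- Let `u` be an alternating integral cocycle on the sphere which generates (as in `cyc_alt` for
`m = 2`); `z = cr (ap u)`.

Proof. `exists_rel` (`n = 2`) gives `e₀`, `cr e₀ = f`; `germ_two` (`n = 2`) gives `a, w`; `hu` gives `c, b` with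
`a - c u = co b` near the diagonal. Put `a' l = a l - c * (u l : k)` (alternating, length `3`),
`w' = ap a' - cr (ap b)` (`isD_ap_sub`), `e = w' + w`. `ap a = ap a' + c • ap u` and
`cr (fun l => (ap u l : k)) = fun l => (z l : k)` (`co_hom` for the cast `ℤ →+ k`), so
`f - c z = cr (ap a') + cr w = cr e`. -/
theorem face_h3a (h : InfD N Ξ V sm cusp π ctr d) {u : List E3 → ℤ} (hu0 : Alt u)
    (hu1 : ∀ l, u l ≠ 0 → l.length = 3)
    (hu : ∀ (k : Type) [CommRing k] (a : List E3 → k), Alt a → AZ S2 3 a →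
        ∃ (c : k) (b : List E3 → k), Alt b ∧ (∀ l, b l ≠ 0 → l.length = 2) ∧
          ∃ ε : ℝ, 0 < ε ∧ ∀ l, l.length = 3 → Nr S2 ε l → a l - c * (u l : k) = co b l)
    (k : Type) [Field k] (f : List V → k) (hf : IsD sm cusp k 3 f) (hc : cr sm f = 0) :
    ∃ (c : k) (e : List V → k), IsD sm cusp k 2 e ∧
      (fun l => f l - c * ((cr sm (ap sm π u) l : ℤ) : k)) = cr sm e := by
  obtain ⟨e₀, he₀, hce₀⟩ := exists_rel h (n := 2) (by norm_num) hf.isR hc
  have hfin : (Function.support (cr sm e₀)).Finite := by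
    rw [hce₀]
    exact hf.fin
  obtain ⟨a, w, ha, hla, haz, hw, hcw⟩ := germ_two h (n := 2) le_rfl he₀ hfin
  obtain ⟨c, b, hb, hlb, ε, hε, hab⟩ := hu k a ha haz
  let φ : ℤ →+ k := (AddMonoidHom.mulLeft c).comp (Int.castAddHom k)
  have hφ : ∀ n : ℤ, φ n = c * (n : k) := fun n => rfl
  have ha' : Alt (a - fun l => φ (u l)) := ha.sub (hu0.hom φ)
  have hla' : ∀ l, (a - fun l => φ (u l)) l ≠ 0 → l.length = 2 + 1 := by
    intro l hl
    by_contra hne
    apply hl
    have e1 : a l = 0 := by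
      by_contra h1
      exact hne (hla l h1)
    have e2 : u l = 0 := by
      by_contra h1
      exact hne (hu1 l h1)
    rw [Pi.sub_apply, e1, e2, map_zero, sub_zero]
  have hab' : ∀ l, l.length = 2 + 1 → Nr S2 ε l → (a - fun l => φ (u l)) l = co b l := by
    intro l hl hn
    rw [← hab l hl hn]
    rfl
  have hD := isD_ap_sub h (n := 2) (by norm_num) ha' hb hla' hlb hε hab'
  refine ⟨c, (ap sm π (a - fun l => φ (u l)) - cr sm (ap sm π b)) + w, hD.add hw, ?_⟩
  rw [cr_add, cr_sub, cr_cr, sub_zero, FaceB_ap_sub, cr_sub, FaceB_ap_hom, FaceB_cr_hom]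
  rw [hce₀] at hcw
  funext l
  show f l - c * ((cr sm (ap sm π u) l : ℤ) : k) =
    cr sm (ap sm π a) l - φ (cr sm (ap sm π u) l) + cr sm w l
  rw [hcw, hφ]
  show cr sm (ap sm π a) l + cr sm w l - _ = _
  ring

theorem FaceB_prl_zero {k : Type*} [CommRing k] {X Y A : Type*} [AddCommGroup A] [Module k A]
    {a : List Y → A} (φ ψ : X → Y) (l : List X)
    (h : ∀ l' : List Y, l' ⊆ l.map φ ++ l.map ψ → l'.length = l.length + 1 → a l' = 0) :
    Finsupp.linearCombination k a (prl k φ ψ l) = 0 :=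
  lc_eq_zero (S := {l' : List Y | l' ⊆ l.map φ ++ l.map ψ ∧ l'.length = l.length + 1})
    (fun l' hl' => h l' hl'.1 hl'.2) (prl_mem φ ψ l)

theorem FaceB_nr {U : Set V} {φ ψ : V → E3} {ε : ℝ}
    (hφ : ∀ x ∈ U, φ x ∈ S2 ∧ ψ x ∈ S2)
    (hd : ∀ x ∈ U, ∀ y ∈ U, sm x y → dist (φ x) (φ y) < ε ∧ dist (φ x) (ψ y) < ε ∧
      dist (ψ x) (ψ y) < ε) {l : List V} (hs : Sml sm l) (hl : ∀ x ∈ l, x ∈ U)
    {l' : List E3} (h' : l' ⊆ l.map φ ++ l.map ψ) : Nr S2 ε l' := by
  have key : ∀ z ∈ l', ∃ x ∈ l, z = φ x ∨ z = ψ x := by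
    intro z hz
    have h1 := h' hz
    rw [List.mem_append, List.mem_map, List.mem_map] at h1
    rcases h1 with ⟨x, hx, rfl⟩ | ⟨x, hx, rfl⟩
    · exact ⟨x, hx, Or.inl rfl⟩
    · exact ⟨x, hx, Or.inr rfl⟩
  intro z hz
  obtain ⟨x, hx, hzx⟩ := key z hz
  constructor
  · rcases hzx with rfl | rfl
    · exact (hφ x (hl x hx)).1
    · exact (hφ x (hl x hx)).2
  · intro w hw
    obtain ⟨y, hy, hwy⟩ := key w hw
    have h1 := hd x (hl x hx) y (hl y hy) (hs x hx y hy)
    have h2 := hd y (hl y hy) x (hl x hx) (hs y hy x hx)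
    rcases hzx with rfl | rfl
    · rcases hwy with rfl | rfl
      · exact h1.1
      · exact h1.2.1
    · rcases hwy with rfl | rfl
      · rw [dist_comm]
        exact h2.2.1
      · exact h1.2.2

/-- The comparison of two maps far from the base point. -/
theorem FaceB_cmp (h : InfD N Ξ V sm cusp π ctr d) {u : List E3 → ℤ} (hu0 : Alt u)
    (hu1 : ∀ l, u l ≠ 0 → l.length = 3) {φ ψ : V → E3} {R : ℝ}
    (hco : ∀ l : List V, Sml sm l → l.length = 3 → (∀ x ∈ l, R ≤ d x) →
      ∀ l' : List E3, l' ⊆ l.map φ ++ l.map ψ → l'.length = l.length + 1 → co u l' = 0)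
    (hcusp : ∀ ξ, ∃ z, ∀ x, cusp x = some ξ → φ x = z ∧ ψ x = z) :
    ∃ P : List V → ℤ, ∃ q : List V → ℤ,
      (∀ l, Sml sm l → q l = u (l.map φ) - u (l.map ψ)) ∧ IsD sm cusp ℤ 2 (q + cr sm P) := by
  classical
  obtain ⟨q, hqdef⟩ : ∃ q : List V → ℤ, q = fun l =>
    if Sml sm l then (fun l => u (l.map φ)) l - (fun l => u (l.map ψ)) l else 0 := ⟨_, rfl⟩
  have hq1 : ∀ l, Sml sm l → q l = u (l.map φ) - u (l.map ψ) := by
    intro l hl
    rw [hqdef]
    exact if_pos hl
  have hq0 : ∀ l, q l ≠ 0 → Sml sm l := by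
    intro l hl
    by_contra hcon
    apply hl
    rw [hqdef]
    exact if_neg hcon
  have hqr : IsR sm cusp ℤ 2 q := by
    refine ⟨?_, ?_, ?_⟩
    · rw [hqdef]
      exact Alt.ite (Sml sm) (fun l l' h1 h2 => ⟨fun h3 => h3.sub h2, fun h3 => h3.sub h1⟩)
        ((hu0.map φ).sub (hu0.map ψ))
    · intro l hl
      by_contra hne
      apply hl
      have e1 : u (l.map φ) = 0 := by
        by_contra h1
        have h2 := hu1 _ h1
        rw [List.length_map] at h2
        exact hne h2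
      have e2 : u (l.map ψ) = 0 := by
        by_contra h1
        have h2 := hu1 _ h1
        rw [List.length_map] at h2
        exact hne h2
      rw [hq1 l (hq0 l hl), e1, e2, sub_zero]
    · intro l hl
      refine ⟨hq0 l hl, ?_⟩
      rintro ⟨ξ, hξ⟩
      apply hl
      obtain ⟨z, hz⟩ := hcusp ξ
      have h1 : l.map φ = l.map ψ := by
        apply List.map_congr_left
        intro x hx
        have h2 := hz x (hξ x hx)
        rw [h2.1, h2.2]
      rw [hq1 l (hq0 l hl), h1, sub_self]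
  obtain ⟨P, hPdef⟩ : ∃ P : List V → ℤ, P = fun l =>
    if Sml sm l ∧ l.length = 2 ∧ (∀ x ∈ l, R ≤ d x) then
      Finsupp.linearCombination ℤ u (prl ℤ φ ψ l) else 0 := ⟨_, rfl⟩
  have hP1 : ∀ l, Sml sm l → l.length = 2 → (∀ x ∈ l, R ≤ d x) →
      P l = Finsupp.linearCombination ℤ u (prl ℤ φ ψ l) := by
    intro l h1 h2 h3
    rw [hPdef]
    exact if_pos ⟨h1, h2, h3⟩
  have hP0 : ∀ l, P l ≠ 0 → Sml sm l ∧ l.length = 2 ∧ (∀ x ∈ l, R ≤ d x) := by
    intro l hl
    by_contra hcon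
    apply hl
    rw [hPdef]
    exact if_neg hcon
  have hPr : ∀ l, P l ≠ 0 → Rl sm cusp l := by
    intro l hl
    obtain ⟨h1, h2, h3⟩ := hP0 l hl
    refine ⟨h1, ?_⟩
    rintro ⟨ξ, hξ⟩
    apply hl
    rw [hP1 l h1 h2 h3]
    obtain ⟨z, hz⟩ := hcusp ξ
    apply FaceB_prl_zero
    intro l' h4 h5
    apply hu0.const (x := z)
    · intro y hy
      have h6 := h4 hy
      rw [List.mem_append, List.mem_map, List.mem_map] at h6
      rcases h6 with ⟨x, hx, rfl⟩ | ⟨x, hx, rfl⟩
      · exact (hz x (hξ x hx)).1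
      · exact (hz x (hξ x hx)).2
    · omega
  have hcoP : ∀ l, Sml sm l → l.length = 3 → (∀ x ∈ l, R ≤ d x) → co P l = (-q) l := by
    intro l h1 h2 h3
    have h4 := prism_co u φ ψ l (hco l h1 h2 h3)
    have h5 : co P l = co (fun l => Finsupp.linearCombination ℤ u (prl ℤ φ ψ l)) l := by
      refine dl_congr l fun l' h6 h7 => ?_
      exact hP1 l' (h1.sub h6.subset) (by omega) (fun x hx => h3 x (h6.subset hx))
    rw [h5, ← h4, Pi.neg_apply, hq1 l h1]
    ring
  let _ : LinearOrder V := linearOrderOfSTO (WellOrderingRel (α := V))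
  have hsrt : ∀ l : List V, Sml sm (srt l) → Sml sm l := by
    intro l hl x hx y hy
    exact hl x (mem_srt.2 hx) y (mem_srt.2 hy)
  have hrr0 : ∀ l, rr P l ≠ 0 → P (srt l) ≠ 0 := by
    intro l hl h0
    apply hl
    show sgn l • P (srt l) = 0
    rw [h0, smul_zero]
  have hP' : IsR sm cusp ℤ 1 (rr P) := by
    refine ⟨alt_rr P, ?_, ?_⟩
    · intro l hl
      rw [← length_srt l]
      exact (hP0 _ (hrr0 l hl)).2.1
    · intro l hl
      have h1 := hPr _ (hrr0 l hl)
      refine ⟨hsrt l h1.1, ?_⟩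
      rintro ⟨ξ, hξ⟩
      exact h1.2 ⟨ξ, fun x hx => hξ x (mem_srt.1 hx)⟩
  have he : IsR sm cusp ℤ 2 (q + cr sm (rr P)) := hqr.add hP'.cr
  refine ⟨rr P, q, hq1, he.isD ?_⟩
  refine fin_of_far (R := R) h he.len (fun l hl => (he.rl l hl).1) ?_
  intro l h1 h2 h3
  have h4 : cr sm (rr P) l = (-q) l := by
    rw [cr_of_sml _ h1, co_rr]
    rw [rr_congr (g := -q) (l := l)]
    · rw [rr_alt hqr.alt.neg]
    · intro l' h5 h6
      apply hcoP l'
      · intro x hx y hy
        exact h1 x ((h6 x).1 hx) y ((h6 y).1 hy)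
      · omega
      · intro x hx
        exact h3 x ((h6 x).1 hx)
  rw [Pi.add_apply, h4, Pi.neg_apply]
  ring

/-- The group acts on the class by integers.

Proof. `h.act g⁻¹` gives `η : E3 → E3`. `u₁ l = u (l.map η)` is alternating, of length `3`, a cocycle near
the diagonal of `S2` (`AZ.comp`). `hu ℤ` gives `m : ℤ` and `b` with `u₁ - m u = co b` near the diagonal;
`e₂ = ap (u₁ - m u) - cr (ap b)` has finite support (`isD_ap_sub`, `n = 2`). Let `φ v = π (g⁻¹ • v)`,
`ψ v = η (π v)`, and `q l = if Sml sm l then u (l.map φ) - u (l.map ψ) else 0`: alternating, relative of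
degree `2` (on a list in a horoball `ξ`: `φ` and `ψ` are constant on the entries, equal to
`ctr (g⁻¹ • ξ) = η (ctr ξ)`). Let `ε` be as in `AZ S2 3 u`; choose `R` such that for small `v, w` with
`d v ≥ R`: `φ v, φ w, ψ v, ψ w` have pairwise distances `< ε` (`h.act`, `h.cont` with a small
constant, applied to `v, w`, uniform continuity of `η`, and `dist (φ v) (ψ v)` small, also for `w` using
`h.smd`/`d w ≥ R`: assume both `d v, d w ≥ R`). Let `P l = linearCombination ℤ u (prl ℤ φ ψ l)` if `l` is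
small of length `2` with all `d x ≥ R`, `0` otherwise. For small `l` of length `3` with all `d x ≥ R`:
`prism_co` gives `u (l.map ψ) - u (l.map φ) = co P l`. `P` vanishes on lists in a horoball (`prl_mem`: the
lists have all entries in `l.map φ ++ l.map ψ`, i.e. are constant of length `3`; `Alt.const`). With
a linear order on `V`, `P' = rr P` is relative of degree `1`, and `e₁ = q + cr P'` is relative of degree
`2` and vanishes on small lists with all `d x ≥ R` (apply `rr`: `q` is alternating, `rr_alt`,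
`co_rr`, `rr_congr`), so it has finite support (`fin_of_far`). `e = e₁ + e₂`. Finally
`z (l.map (g⁻¹ • ·)) - m z l = co u (l.map φ) - m co u (l.map π)` for small `l` (smallness of
`l.map (g⁻¹ • ·)` and of `l` are equivalent by `h.smul_sm`; for non-small `l` both sides are zero), which is
`cr (q + ap (u₁ - m u)) l = cr (e₁ + e₂) l` (`cr_cr`). -/
theorem face_h3b (h : InfD N Ξ V sm cusp π ctr d) {u : List E3 → ℤ} (hu0 : Alt u)
    (hu1 : ∀ l, u l ≠ 0 → l.length = 3) (hu2 : AZ S2 3 u)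
    (hu : ∀ (k : Type) [CommRing k] (a : List E3 → k), Alt a → AZ S2 3 a →
        ∃ (c : k) (b : List E3 → k), Alt b ∧ (∀ l, b l ≠ 0 → l.length = 2) ∧
          ∃ ε : ℝ, 0 < ε ∧ ∀ l, l.length = 3 → Nr S2 ε l → a l - c * (u l : k) = co b l) (g : N) :
    ∃ (m : ℤ) (e : List V → ℤ), IsD sm cusp ℤ 2 e ∧
      (fun l => cr sm (ap sm π u) (l.map (fun x => g⁻¹ • x)) - m * cr sm (ap sm π u) l)
        = cr sm e := by
  obtain ⟨η, hη1, hη2, hη3, hη4⟩ := h.act g⁻¹
  -- the sphere part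
  have hu₁ : Alt (fun l => u (l.map η)) := hu0.map η
  have hz₁ : AZ S2 3 (fun l => u (l.map η)) := hu2.comp η hη1 hη2
  obtain ⟨m, b, hb, hlb, ε₁, hε₁, hab⟩ := hu ℤ (fun l => u (l.map η)) hu₁ hz₁
  let φm : ℤ →+ ℤ := AddMonoidHom.mulLeft m
  have hφm : ∀ n : ℤ, φm n = m * n := fun n => rfl
  have ha' : Alt ((fun l => u (l.map η)) - fun l => φm (u l)) := hu₁.sub (hu0.hom φm)
  have hla' : ∀ l : List E3, ((fun l : List E3 => u (l.map η)) - fun l => φm (u l)) l ≠ 0 →
      l.length = 2 + 1 := by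
    intro l hl
    by_contra hne
    apply hl
    have e1 : u (l.map η) = 0 := by
      by_contra h1
      have h2 := hu1 _ h1
      rw [List.length_map] at h2
      exact hne h2
    have e2 : u l = 0 := by
      by_contra h1
      exact hne (hu1 l h1)
    show u (l.map η) - φm (u l) = 0
    rw [e1, e2, map_zero, sub_zero]
  have hab' : ∀ l : List E3, l.length = 2 + 1 → Nr S2 ε₁ l →
      ((fun l : List E3 => u (l.map η)) - fun l => φm (u l)) l = co b l := by
    intro l hl hn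
    have h1 := hab l hl hn
    rw [Int.cast_id] at h1
    exact h1
  have hD2 := isD_ap_sub h (n := 2) (by norm_num) ha' hb hla' hlb hε₁ hab'
  -- the comparison
  obtain ⟨ε, hε, hz⟩ := hu2
  obtain ⟨δ, hδ, hδc⟩ := hη2 (ε / 3) (by positivity)
  obtain ⟨R1, hR1⟩ := h.cont δ hδ
  obtain ⟨R2, hR2⟩ := hη4 (ε / 3) (by positivity)
  have hcmp := FaceB_cmp h hu0 hu1 (φ := fun v => π (g⁻¹ • v)) (ψ := fun v => η (π v))
    (R := max R1 R2) (by
      intro l hs _ hd l' h1 h2
      refine hz l' (by omega) ?_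
      refine FaceB_nr (sm := sm) (U := {v | max R1 R2 ≤ d v})
        (fun x _ => ⟨h.sph _, hη1 _ (h.sph x)⟩) ?_ hs hd h1
      intro x hx y hy hxy
      have hx' : max R1 R2 ≤ d x := hx
      have hy' : max R1 R2 ≤ d y := hy
      have k1 : dist (η (π x)) (η (π y)) < ε / 3 :=
        hδc _ (h.sph x) _ (h.sph y) (hR1 x y hxy ((le_max_left _ _).trans hx'))
      have k2 : dist (π (g⁻¹ • x)) (η (π x)) < ε / 3 := hR2 x ((le_max_right _ _).trans hx')
      have k3 : dist (π (g⁻¹ • y)) (η (π y)) < ε / 3 := hR2 y ((le_max_right _ _).trans hy')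
      have k4 : dist (π (g⁻¹ • x)) (η (π y)) < 2 * (ε / 3) := by
        have := dist_triangle (π (g⁻¹ • x)) (η (π x)) (η (π y))
        linarith
      refine ⟨?_, by linarith, by linarith⟩
      have := dist_triangle_right (π (g⁻¹ • x)) (π (g⁻¹ • y)) (η (π y))
      linarith)
    (by
      intro ξ
      refine ⟨ctr (g⁻¹ • ξ), fun x hx => ⟨?_, ?_⟩⟩
      · apply h.pi_cusp
        rw [h.cusp_smul, hx]
        rfl
      · show η (π x) = _
        rw [hη3, h.pi_cusp x ξ hx])
  obtain ⟨P, q, hq, hD1⟩ := hcmp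
  refine ⟨m, (q + cr sm P) + (ap sm π ((fun l => u (l.map η)) - fun l => φm (u l))
    - cr sm (ap sm π b)), hD1.add hD2, ?_⟩
  rw [cr_add, cr_add, cr_sub, cr_cr, cr_cr, sub_zero, add_zero]
  funext l
  by_cases hs : Sml sm l
  · have hs' : Sml sm (l.map (fun x => g⁻¹ • x)) := by
      intro x hx y hy
      rw [List.mem_map] at hx hy
      obtain ⟨x, hx, rfl⟩ := hx
      obtain ⟨y, hy, rfl⟩ := hy
      exact h.smul_sm g⁻¹ x y (hs x hx y hy)
    rw [cr_ap u hs', cr_ap u hs, Pi.add_apply, cr_ap _ hs, co_sub, cr_of_sml q hs, Pi.sub_apply]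
    have e1 : co u ((l.map (fun x => g⁻¹ • x)).map π)
        = co (fun l => u (l.map (fun v => π (g⁻¹ • v)))) l := by
      rw [List.map_map, co_map]
      rfl
    have e2 : co (fun l => φm (u l)) (l.map π) = m * co u (l.map π) := by
      rw [co_hom]
      rfl
    have e3 : co (fun l => u (l.map η)) (l.map π)
        = co (fun l => u (l.map (fun v => η (π v)))) l := by
      rw [co_map]
      refine dl_congr l fun l' _ _ => ?_
      show u ((l'.map π).map η) = _
      rw [List.map_map]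
      rfl
    have e4 : co q l = co ((fun l => u (l.map (fun v => π (g⁻¹ • v))))
        - fun l => u (l.map (fun v => η (π v)))) l := by
      refine dl_congr l fun l' h1 _ => ?_
      exact hq l' (hs.sub h1.subset)
    rw [e1, e2, e3, e4, co_sub, Pi.sub_apply]
    ring
  · have hs' : ¬ Sml sm (l.map (fun x => g⁻¹ • x)) := by
      intro h1
      apply hs
      intro x hx y hy
      have h2 := h.smul_sm g _ _ (h1 (g⁻¹ • x) (List.mem_map.2 ⟨x, hx, rfl⟩) (g⁻¹ • y)
        (List.mem_map.2 ⟨y, hy, rfl⟩))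
      rwa [smul_inv_smul, smul_inv_smul] at h2
    rw [FaceB_cr_not _ hs', FaceB_cr_not _ hs, Pi.add_apply, FaceB_cr_not _ hs,
      FaceB_cr_not _ hs]
    ring

end RCan
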