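import Pool.Agent.W_04c03c_h58.GeoCa

/-!
# The whole complex and the horoballs are acyclic
-/

namespace RCan

open scoped NNReal

variable {X V : Type*} [MetricSpace X]

theorem geocb_bound {k V : Type*} [CommRing k] (c : LC k V) (f : V → ℝ) :
    ∃ R : ℝ, ∀ l ∈ c.support, ∀ x ∈ l, f x ≤ R := by
  classical
  obtain ⟨M, hM⟩ := ((c.support.biUnion List.toFinset).image f).exists_le
  refine ⟨M, fun l hl x hx => hM (f x) ?_⟩
  refine Finset.mem_image_of_mem f ?_
  rw [Finset.mem_biUnion]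
  exact ⟨l, hl, List.mem_toFinset.2 hx⟩

theorem geocb_mem {k V : Type*} [CommRing k] {sm : V → V → Prop} {T T' : Set V} {m : ℕ} {c : LC k V}
    (hc : c ∈ Finsupp.supported k k (SmT sm T m))
    (h : ∀ l ∈ c.support, ∀ x ∈ l, x ∈ T → x ∈ T') :
    c ∈ Finsupp.supported k k (SmT sm T' m) := by
  rw [Finsupp.mem_supported] at hc ⊢
  intro l hl
  have h1 := hc hl
  exact ⟨⟨h1.1.1, fun x hx => h l (Finset.mem_coe.1 hl) x hx (h1.1.2 x hx)⟩, h1.2⟩

theorem geocb_mono {V : Type*} {sm : V → V → Prop} {T T' : Set V} (m : ℕ) (h : T ⊆ T') :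
    SmT sm T m ⊆ SmT sm T' m :=
  fun _ hl => ⟨⟨hl.1.1, fun x hx => h (hl.1.2 x hx)⟩, hl.2⟩

/-- The whole complex is acyclic: a chain has finite support, so it is supported in a ball. -/
theorem ac_univ {δ : ℝ} (hδ : Hyp4 X δ) (hG : IsGeod X) {pt : V → X} (hN : IsNet pt) [Nonempty X]
    (k : Type) [Field k] (m : ℕ) :
    ∀ c ∈ Finsupp.supported k k (SmT (smr δ pt) (Set.univ : Set V) m), bd k c = 0 →
      ∃ b ∈ Finsupp.supported k k (SmT (smr δ pt) (Set.univ : Set V) (m + 1)), bd k b = c := by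
  intro c hc hb
  obtain ⟨p⟩ := ‹Nonempty X›
  obtain ⟨R, hR⟩ := geocb_bound c (fun v => dist (pt v) p)
  have hc' : c ∈ Finsupp.supported k k
      (SmT (smr δ pt) {v | dist (pt v) p < max (R + 1) 2} m) := by
    refine geocb_mem hc fun l hl x hx _ => ?_
    have h1 := hR l hl x hx
    exact lt_of_lt_of_le (lt_of_le_of_lt h1 (lt_add_one R)) (le_max_left _ _)
  obtain ⟨b, hb1, hb2⟩ := ac_ball hδ hG hN p
    (lt_of_lt_of_le one_lt_two (le_max_right (R + 1) 2)) k m c hc' hb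
  exact ⟨b, Finsupp.supported_mono (geocb_mono (m + 1) (Set.subset_univ _)) hb1, hb2⟩

/-- Horoballs are acyclic: the chain is supported in a ball `dist x (γ t) < t + c` with `t` large
(`ball_mono`; take `t + c > 1` too), which is contained in the horoball. -/
theorem ac_horo {δ : ℝ} (hδ : Hyp4 X δ) (hG : IsGeod X) {pt : V → X} (hN : IsNet pt) (γ : GRay X)
    (c₀ : ℝ) (k : Type) [Field k] (m : ℕ) :
    ∀ c ∈ Finsupp.supported k k (SmT (smr δ pt) {v | pt v ∈ HB γ c₀} m), bd k c = 0 →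
      ∃ b ∈ Finsupp.supported k k (SmT (smr δ pt) {v | pt v ∈ HB γ c₀} (m + 1)), bd k b = c := by
  classical
  intro c hc hb
  set f : V → ℝ := fun v => if h : ∃ t : ℝ≥0, dist (pt v) (γ.1 t) < t + c₀ then (h.choose : ℝ)
    else 0 with hf
  obtain ⟨R, hR⟩ := geocb_bound c f
  set t₀ : ℝ≥0 := ⟨max R (2 + |c₀|), le_trans (by positivity) (le_max_right R (2 + |c₀|))⟩ with ht0
  have ht1 : R ≤ (t₀ : ℝ) := le_max_left _ _
  have ht2 : 2 + |c₀| ≤ (t₀ : ℝ) := le_max_right _ _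
  have hbig : 1 < (t₀ : ℝ) + c₀ := by
    have := neg_abs_le c₀
    linarith
  have hc' : c ∈ Finsupp.supported k k
      (SmT (smr δ pt) {v | dist (pt v) (γ.1 t₀) < (t₀ : ℝ) + c₀} m) := by
    refine geocb_mem hc fun l hl x hx hxT => ?_
    have h1 : ∃ t : ℝ≥0, dist (pt x) (γ.1 t) < t + c₀ := hxT
    have h2 := hR l hl x hx
    have h3 : f x = (h1.choose : ℝ) := by
      rw [hf]
      exact dif_pos h1
    rw [h3] at h2
    exact ball_mono γ h1.choose_spec (NNReal.coe_le_coe.1 (h2.trans ht1))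
  obtain ⟨b, hb1, hb2⟩ := ac_ball hδ hG hN (γ.1 t₀) hbig k m c hc' hb
  refine ⟨b, Finsupp.supported_mono (geocb_mono (m + 1) ?_) hb1, hb2⟩
  intro v hv
  exact ⟨t₀, hv⟩

end RCan
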