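import Pool.Agent.W_04c03c_h58.GeoCa

/-!
# Connectivity and dismantlability
-/

namespace RCan

open scoped NNReal

variable {X V : Type*} [MetricSpace X]

theorem geocc_far {δ : ℝ} {pt : V → X} {p : X} {v : V} (h : ⌈ro δ⌉₊ < rkp pt p v) :
    ro δ ≤ dist (pt v) p := by
  unfold rkp at h
  have h1 : ro δ ≤ (⌈ro δ⌉₊ : ℝ) := Nat.le_ceil _
  have h2 : (⌈ro δ⌉₊ : ℝ) ≤ (⌊dist (pt v) p⌋₊ : ℝ) := by exact_mod_cast h.le
  have h3 : (⌊dist (pt v) p⌋₊ : ℝ) ≤ dist (pt v) p := Nat.floor_le dist_nonneg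
  linarith

theorem geocc_near {δ : ℝ} (hδ : 0 ≤ δ) {pt : V → X} {p : X} {v w : V}
    (hv : rkp pt p v ≤ ⌈ro δ⌉₊) (hw : rkp pt p w ≤ ⌈ro δ⌉₊) : smr δ pt v w := by
  have h0 : (⌈ro δ⌉₊ : ℝ) < ro δ + 1 := Nat.ceil_lt_add_one (by unfold ro; linarith)
  have key : ∀ u : V, rkp pt p u ≤ ⌈ro δ⌉₊ → dist (pt u) p < 2 * δ + 5 := by
    intro u hu
    unfold rkp at hu
    have h1 : dist (pt u) p < (⌊dist (pt u) p⌋₊ : ℝ) + 1 := Nat.lt_floor_add_one _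
    have h2 : (⌊dist (pt u) p⌋₊ : ℝ) ≤ (⌈ro δ⌉₊ : ℝ) := by exact_mod_cast hu
    have h3 : ro δ = 2 * δ + 3 := rfl
    linarith
  have h4 := key v hv
  have h5 := key w hw
  have h6 := dist_triangle_right (pt v) (pt w) p
  unfold smr sc
  linarith

theorem geocc_refl {δ : ℝ} (hδ : 0 ≤ δ) (pt : V → X) (v : V) : smr δ pt v v := by
  unfold smr sc
  rw [dist_self]
  linarith

/-- Horoballs are connected: two vertices lie in a common ball `dist x (γ t) < t + c` (`ball_mono`), in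
which both are joined to vertices of rank `≤ ⌈ro δ⌉₊` (`path_down`, with `T` = that ball), and two of
these are small. The relation is symmetric. -/
theorem conn_horo {δ : ℝ} (hδ : Hyp4 X δ) (hG : IsGeod X) {pt : V → X} (hN : IsNet pt) (γ : GRay X)
    (c₀ : ℝ) (v w : V) (hv : pt v ∈ HB γ c₀) (hw : pt w ∈ HB γ c₀) :
    Relation.ReflTransGen (fun a b => smr δ pt a b ∧ pt a ∈ HB γ c₀ ∧ pt b ∈ HB γ c₀) v w := by
  obtain ⟨t₁, ht1⟩ := hv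
  obtain ⟨t₂, ht2⟩ := hw
  set t : ℝ≥0 := max t₁ t₂ with ht
  have hv' : dist (pt v) (γ.1 t) < t + c₀ := ball_mono γ ht1 (le_max_left _ _)
  have hw' : dist (pt w) (γ.1 t) < t + c₀ := ball_mono γ ht2 (le_max_right _ _)
  obtain ⟨ps, hps⟩ := exists_push hδ hG hN (γ.1 t)
  set T : Set V := {u | dist (pt u) (γ.1 t) < t + c₀} with hT
  have h1 : ∀ u ∈ T, ⌈ro δ⌉₊ < rkp pt (γ.1 t) u → ps u ∈ T ∧
      rkp pt (γ.1 t) (ps u) < rkp pt (γ.1 t) u ∧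
      ∀ x ∈ T, smr δ pt x u → rkp pt (γ.1 t) x ≤ rkp pt (γ.1 t) u → smr δ pt x (ps u) := by
    intro u hu hlt
    obtain ⟨a1, a2, a3, _, _⟩ := hps u (geocc_far hlt)
    exact ⟨lt_of_le_of_lt a3 hu, a1, fun x _ hx hr => a2 x hx hr⟩
  obtain ⟨v₁, hv1, hrv, hpv⟩ := path_down (smr δ pt) (rkp pt (γ.1 t)) ps T
    (geocc_refl hδ.1 pt) ⌈ro δ⌉₊ h1 v hv'
  obtain ⟨w₁, hw1, hrw, hpw⟩ := path_down (smr δ pt) (rkp pt (γ.1 t)) ps T
    (geocc_refl hδ.1 pt) ⌈ro δ⌉₊ h1 w hw'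
  have hsub : ∀ a b : V, (smr δ pt a b ∧ a ∈ T ∧ b ∈ T) →
      (smr δ pt a b ∧ pt a ∈ HB γ c₀ ∧ pt b ∈ HB γ c₀) := by
    rintro a b ⟨h2, h3, h4⟩
    exact ⟨h2, ⟨t, h3⟩, ⟨t, h4⟩⟩
  have hpv' : Relation.ReflTransGen
      (fun a b => smr δ pt a b ∧ pt a ∈ HB γ c₀ ∧ pt b ∈ HB γ c₀) v v₁ :=
    Relation.ReflTransGen.mono hsub _ _ hpv
  have hpw' : Relation.ReflTransGen
      (fun a b => smr δ pt a b ∧ pt a ∈ HB γ c₀ ∧ pt b ∈ HB γ c₀) w w₁ :=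
    Relation.ReflTransGen.mono hsub _ _ hpw
  have hrev : ∀ a b : V, Relation.ReflTransGen
      (fun a b => smr δ pt a b ∧ pt a ∈ HB γ c₀ ∧ pt b ∈ HB γ c₀) a b → Relation.ReflTransGen
      (fun a b => smr δ pt a b ∧ pt a ∈ HB γ c₀ ∧ pt b ∈ HB γ c₀) b a := by
    intro a b hab
    induction hab with
    | refl => exact Relation.ReflTransGen.refl
    | tail _ hbc ih =>
      obtain ⟨h2, h3, h4⟩ := hbc
      refine Relation.ReflTransGen.head ⟨?_, h4, h3⟩ ih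
      unfold smr at h2 ⊢
      rw [dist_comm]
      exact h2
  refine (hpv'.tail ?_).trans (hrev _ _ hpw')
  exact hsub v₁ w₁ ⟨geocc_near hδ.1 hrv hrw, hv1, hw1⟩

/-- Dismantlability of the whole complex: `rk v = rkp pt p v - ⌈ro δ⌉₊` (truncated). -/
theorem dis_univ {δ : ℝ} (hδ : Hyp4 X δ) (hG : IsGeod X) {pt : V → X} (hN : IsNet pt) [Nonempty X] :
    ∃ (rk : V → ℕ) (ps : V → V), Dis (smr δ pt) rk ps := by
  obtain ⟨p⟩ := ‹Nonempty X›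
  obtain ⟨ps, hps⟩ := exists_push hδ hG hN p
  refine ⟨fun v => rkp pt p v - ⌈ro δ⌉₊, ps, ?_, ?_⟩
  · intro v hv
    beta_reduce at hv
    obtain ⟨a1, a2, _, _, _⟩ := hps v (geocc_far (by omega))
    refine ⟨?_, fun w hw hr => ?_⟩
    · beta_reduce
      omega
    · beta_reduce at hr
      exact a2 w hw (by omega)
  · intro v w hv hw
    beta_reduce at hv hw
    exact geocc_near hδ.1 (p := p) (by omega) (by omega)

end RCan
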