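import Pool.Agent.W_04c03c_h58.GeoCb
import Pool.Agent.W_04c03c_h58.GeoCc

/-!
# Cycles in horoballs far from the base point
-/

namespace RCan

open scoped NNReal

variable {X V : Type*} [MetricSpace X]

/-- Cycles in a horoball far from a point `o` outside of the horoball bound far from `o`.

Proof. If `c = 0` take `b = 0`. Let `S` be the (finite, nonempty since `m ≥ 1`) set of the entries of the
lists in the support of `c`. Choose `t` with `dist (pt v) (γ t) < t + c₀` for all `v ∈ S`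
(`ball_mono`), `p = γ t`, and apply `cycle_bd` to `T = {v | dist (pt v) p < t + c₀ ∧ ∃ x ∈ S,
dist (pt x) (pt v) + dist (pt v) p ≤ dist (pt x) p + 2 * (δ + 1)}`, closed under the push by
`exists_push`; `S ⊆ T`; a vertex of rank `≤ ⌈ro δ⌉₊` in `T` exists: start with an element of `S` and push
(`path_down`). `T` is contained in the horoball. For `v ∈ T` with witness `x ∈ S`: by `dist_ge_gp`,
`dist o (pt v) ≥ gp o (pt x) p - (δ + 1)`, and `gp o (pt x) p ≥ dist o (pt x) / 2` because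
`dist o p ≥ t + c₀ > dist (pt x) p`. So `dist o (pt v) ≥ R`. -/
theorem far_horo {δ : ℝ} (hδ : Hyp4 X δ) (hG : IsGeod X) {pt : V → X} (hN : IsNet pt) (γ : GRay X)
    (c₀ : ℝ) (o : X) (ho : o ∉ HB γ c₀) (R : ℝ) (k : Type) [Field k] (m : ℕ) (hm : 1 ≤ m) :
    ∀ c ∈ Finsupp.supported k k
        (SmT (smr δ pt) {v | pt v ∈ HB γ c₀ ∧ 2 * (R + δ + 1) ≤ dist o (pt v)} m), bd k c = 0 →
      ∃ b ∈ Finsupp.supported k k
        (SmT (smr δ pt) {v | pt v ∈ HB γ c₀ ∧ R ≤ dist o (pt v)} (m + 1)), bd k b = c := by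
  classical
  intro c hc hb
  by_cases hc0 : c = 0
  · refine ⟨0, Submodule.zero_mem _, ?_⟩
    rw [hc0, map_zero]
  obtain ⟨l₀, hl₀⟩ := Finsupp.support_nonempty_iff.2 hc0
  have hcs : ∀ l ∈ c.support, l ∈
      SmT (smr δ pt) {v | pt v ∈ HB γ c₀ ∧ 2 * (R + δ + 1) ≤ dist o (pt v)} m := by
    intro l hl
    exact (Finsupp.mem_supported k c).1 hc (Finset.mem_coe.2 hl)
  have hne : l₀ ≠ [] := by
    intro h
    have h1 := (hcs l₀ hl₀).2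
    rw [h, List.length_nil] at h1
    omega
  obtain ⟨v₀, hv₀⟩ := List.exists_mem_of_ne_nil l₀ hne
  -- a ball containing all entries
  set f : V → ℝ := fun v => if h : ∃ t : ℝ≥0, dist (pt v) (γ.1 t) < t + c₀ then (h.choose : ℝ)
    else 0 with hf
  obtain ⟨B, hB⟩ := geocb_bound c f
  set t : ℝ≥0 := ⟨max B 0, le_max_right B 0⟩ with ht
  have htB : B ≤ (t : ℝ) := le_max_left _ _
  have hball : ∀ l ∈ c.support, ∀ x ∈ l, dist (pt x) (γ.1 t) < t + c₀ := by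
    intro l hl x hx
    have h1 : ∃ t : ℝ≥0, dist (pt x) (γ.1 t) < t + c₀ := ((hcs l hl).1.2 x hx).1
    have h2 := hB l hl x hx
    have h3 : f x = (h1.choose : ℝ) := by
      rw [hf]
      exact dif_pos h1
    rw [h3] at h2
    exact ball_mono γ h1.choose_spec (NNReal.coe_le_coe.1 (h2.trans htB))
  have hop : (t : ℝ) + c₀ ≤ dist o (γ.1 t) := by
    by_contra hcon
    exact ho ⟨t, not_le.1 hcon⟩
  obtain ⟨ps, hps⟩ := exists_push hδ hG hN (γ.1 t)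
  set T : Set V := {v | dist (pt v) (γ.1 t) < t + c₀ ∧ ∃ x, (∃ l ∈ c.support, x ∈ l) ∧
    dist (pt x) (pt v) + dist (pt v) (γ.1 t) ≤ dist (pt x) (γ.1 t) + 2 * (δ + 1)} with hT
  have h1 : ∀ u ∈ T, ⌈ro δ⌉₊ < rkp pt (γ.1 t) u → ps u ∈ T ∧
      rkp pt (γ.1 t) (ps u) < rkp pt (γ.1 t) u ∧
      ∀ x ∈ T, smr δ pt x u → rkp pt (γ.1 t) x ≤ rkp pt (γ.1 t) u → smr δ pt x (ps u) := by
    rintro u ⟨hu1, x, hx, hu2⟩ hlt
    obtain ⟨a1, a2, a3, _, a5⟩ := hps u (geocc_far hlt)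
    exact ⟨⟨lt_of_le_of_lt a3 hu1, x, hx, a5 (pt x) hu2⟩, a1, fun x _ hx hr => a2 x hx hr⟩
  have hST : ∀ x, (∃ l ∈ c.support, x ∈ l) → x ∈ T := by
    rintro x ⟨l, hl, hx⟩
    refine ⟨hball l hl x hx, x, ⟨l, hl, hx⟩, ?_⟩
    rw [dist_self]
    linarith [hδ.1]
  have h2 : ∀ v ∈ T, ∀ w ∈ T, rkp pt (γ.1 t) v ≤ ⌈ro δ⌉₊ → rkp pt (γ.1 t) w ≤ ⌈ro δ⌉₊ →
      smr δ pt v w := fun v _ w _ hv hw => geocc_near hδ.1 hv hw
  have h3 : ∃ v ∈ T, rkp pt (γ.1 t) v ≤ ⌈ro δ⌉₊ := by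
    obtain ⟨w, hw, hr, _⟩ := path_down (smr δ pt) (rkp pt (γ.1 t)) ps T
      (geocc_refl hδ.1 pt) ⌈ro δ⌉₊ h1 v₀ (hST v₀ ⟨l₀, hl₀, hv₀⟩)
    exact ⟨w, hw, hr⟩
  have hs : ∀ v w, smr δ pt v w → smr δ pt w v := by
    intro v w h
    unfold smr at h ⊢
    rw [dist_comm]
    exact h
  have hc' : c ∈ Finsupp.supported k k ({l | Sml (smr δ pt) l ∧ ∀ x ∈ l, x ∈ T} ∩
      {l | l.length = m}) := by
    rw [Finsupp.mem_supported]
    intro l hl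
    have h4 := hcs l (Finset.mem_coe.1 hl)
    exact ⟨⟨h4.1.1, fun x hx => hST x ⟨l, Finset.mem_coe.1 hl, hx⟩⟩, h4.2⟩
  obtain ⟨b, hb1, hb2⟩ := cycle_bd k (smr δ pt) (rkp pt (γ.1 t)) ps T hs ⌈ro δ⌉₊ m h1 h2 h3 hc' hb
  refine ⟨b, Finsupp.supported_mono ?_ hb1, hb2⟩
  rintro l ⟨⟨h4, h5⟩, h6⟩
  refine ⟨⟨h4, fun v hv => ?_⟩, h6⟩
  obtain ⟨h7, x, ⟨l', hl', hx⟩, h8⟩ := h5 v hv
  refine ⟨⟨t, h7⟩, ?_⟩
  have h9 := dist_ge_gp (o := o) h8
  have h10 : 2 * (R + δ + 1) ≤ dist o (pt x) := ((hcs l' hl').1.2 x hx).2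
  have h11 := hball l' hl' x hx
  unfold gp at h9
  linarith

end RCan
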