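import Pool.Agent.W_04c03c_h58.PiB

/-!
# Equivariance of shadows at infinity
-/

namespace RCan

open Set
open scoped NNReal Pointwise

variable {N X : Type*} [Group N] [MetricSpace X] [MulAction N X]

/-- Equivariance of shadows at infinity.

Proof. Let `a = dist o (g • o)` (`= dist (g⁻¹ • o) o`), `M` from `close_of_gp` for `ε`. For `v` with
`D = dist o (pt v)`: let `γ` be a ray from `o` with `bp h γ = π v`, `γ'` a ray from `o` with
`bp h γ' = π (g • v)`, and `γ''` a ray from `o` asymptotic to `sray hi g γ` (`exists_ray_from`), so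
`bp h γ'' = η (π v)`. For `t` large: `gp o (g • pt v) (g • γ t) ≥ gp (g • o) (g • pt v) (g • γ t) - a =
gp o (pt v) (γ t) - a ≥ min (D / 2) t - C - a` (`gp_base`, `gp_isom`), `gp o (g • γ t) (γ'' t) → ∞`
(`gp_of_asym`), `gp o (pt (g • v)) (γ' t) ≥ min (dist o (pt (g • v)) / 2) t - C`, and
`dist o (pt (g • v)) ≥ D - a`. So `gp o (γ'' t) (γ' t) ≥ (D - a) / 2 - C - a - 2 δ ≥ M` for `D ≥ R`. -/
theorem shadow_act [ProperSpace X] {δ : ℝ} (hδ : Hyp4 X δ) (hG : IsGeod X) (h : Bdry X ≃ₜ S2)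
    (hi : ∀ (g : N) (x y : X), dist (g • x) (g • y) = dist x y) {o : X} {V : Type*} [MulAction N V]
    {pt : V → X} (hp : ∀ (g : N) v, pt (g • v) = g • pt v) {π : V → E3} {C : ℝ}
    (hπ : ∀ v, π v ∈ S2) (hS : Shd h o pt π C) (g : N) {η : E3 → E3}
    (hη : ∀ γ : GRay X, η (bp h γ) = bp h (sray hi g γ)) {ε : ℝ} (he : 0 < ε) :
    ∃ R : ℝ, ∀ v, R ≤ dist o (pt v) → dist (π (g • v)) (η (π v)) < ε := by
  obtain ⟨M, hM⟩ := close_of_gp hδ h o he
  obtain ⟨a, ha⟩ : ∃ a, a = dist o (g • o) := ⟨_, rfl⟩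
  have ha0 : 0 ≤ a := by rw [ha]; exact dist_nonneg
  refine ⟨2 * (M + |C| + a + 2 * δ) + a, fun v hv => ?_⟩
  obtain ⟨D, hD⟩ : ∃ D, D = dist o (pt v) := ⟨_, rfl⟩
  rw [← hD] at hv
  have hD0 : 0 ≤ D := by rw [hD]; exact dist_nonneg
  obtain ⟨γ, g0, g1⟩ := exists_ray_bp hδ hG h o (hπ v)
  obtain ⟨γ', g0', g1'⟩ := exists_ray_bp hδ hG h o (hπ (g • v))
  obtain ⟨γ'', g0'', g1''⟩ := exists_ray_from hδ hG o (sray hi g γ)
  have hbp : bp h γ'' = η (π v) := by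
    rw [(bp_eq h γ'' (sray hi g γ)).2 g1'', ← hη, g1]
  obtain ⟨m, hm⟩ : ∃ m, m = (D - a) / 2 - |C| - a := ⟨_, rfl⟩
  obtain ⟨t₀, ht₀⟩ := gp_of_asym (o := o) g1'' m
  obtain ⟨t, ht1, ht2⟩ : ∃ t : ℝ≥0, t₀ ≤ t ∧ D ≤ t :=
    ⟨max t₀ (Real.toNNReal D), le_max_left _ _,
      (Real.le_coe_toNNReal D).trans (NNReal.coe_le_coe.2 (le_max_right _ _))⟩
  have hCabs := le_abs_self C
  have hδ0 := hδ.1
  -- the first Gromov product
  have e1 := hS v γ g0 g1 t
  rw [← hD, min_eq_left (by linarith)] at e1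
  have e2 := gp_isom (f := fun x : X => g • x) (fun x y => hi g x y) o (pt v) (γ.1 t)
  have e3 := gp_base (g • o) o (g • pt v) (g • γ.1 t)
  rw [dist_comm (g • o) o, ← ha] at e3
  have e4 : m ≤ gp o (g • γ.1 t) (g • pt v) := by
    rw [gp_comm]
    linarith
  -- the second
  have e5 : m ≤ gp o (γ''.1 t) (g • γ.1 t) := ht₀ t ht1
  -- the third
  have e6 := hS (g • v) γ' g0' g1' t
  rw [hp] at e6
  have e7 : D - a ≤ dist o (g • pt v) := by
    have h1 := dist_triangle (g • o) o (g • pt v)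
    rw [hi, dist_comm (g • o) o, ← ha, ← hD] at h1
    linarith
  have e8 : (D - a) / 2 ≤ min (dist o (g • pt v) / 2) t :=
    le_min (by linarith) (by linarith)
  have e9 : m - δ ≤ gp o (g • pt v) (γ'.1 t) := by linarith
  have e10 := gp_hyp' hδ e5 e4
  have e11 := gp_hyp' hδ e10 e9
  have e12 := hM γ'' γ' g0'' g0' t t (by linarith)
  rw [← dist_bp, hbp, g1', dist_comm] at e12
  exact e12

end RCan
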