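import Pool.Agent.W_04c03c_h58.PiBa
import Pool.Agent.W_04c03c_h58.GeoCb

/-!
# Cycles far from the base point are homologous to their shadows
-/

namespace RCan

open Set
open scoped NNReal Pointwise

variable {X : Type*} [MetricSpace X]

/-- The geometric part: positions of pushed vertices and of shadows.

Proof. `gp o (pt v) (pt x) ≥ dist o (pt v) - (δ + 1) ≥ m - ro δ - (δ + 1)` (`gp_ge_of_near`), the same for
`v', x'`; `gp o (pt x) (pt x') ≥ R' - sc δ ≥ m`. Three Gromov products, two uses of `gp_hyp'`: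
`gp o (pt v) (pt v') ≥ m - ro δ - (δ + 1) - 2 δ`, and `dist_of_gp` with
`dist o (pt v), dist o (pt v') ≤ m + 1`: at most `10 δ + 10`. For the second claim, for `t` large
(`t = dist o (pt x')`): `gp o (pt x') (γ t) ≥ R' / 2 - C ≥ m`, `gp o (γ t) (γ m) = m` (`gp_ray`), so
`gp o (pt v) (γ m) ≥ m - ro δ - (δ + 1) - 3 δ` and `dist (pt v) (γ m) ≤ 12 δ + 9`. -/
theorem near_geo {δ : ℝ} (hδ : Hyp4 X δ) {o : X} {m : ℕ} {C R' : ℝ}
    (hR1 : (m : ℝ) + sc δ ≤ R') (hR2 : 2 * ((m : ℝ) + C) ≤ R') {x x' v v' : X}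
    (hx : R' ≤ dist o x) (hx' : R' ≤ dist o x') (hxx : dist x x' ≤ sc δ)
    (hv : dist x v + dist v o ≤ dist x o + 2 * (δ + 1))
    (hv' : dist x' v' + dist v' o ≤ dist x' o + 2 * (δ + 1))
    (h1 : (m : ℝ) - ro δ ≤ dist v o) (h2 : dist v o ≤ m + 1)
    (h1' : (m : ℝ) - ro δ ≤ dist v' o) (h2' : dist v' o ≤ m + 1) {γ : GRay X} (hγ : γ.1 0 = o)
    (hs : ∀ t : ℝ≥0, min (dist o x' / 2) t - C ≤ gp o x' (γ.1 t)) :
    dist v v' ≤ 10 * δ + 10 ∧ dist v (γ.1 m) ≤ 12 * δ + 9 := by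
  have hδ0 : 0 ≤ δ := hδ.1
  have hro : ro δ = 2 * δ + 3 := rfl
  have hsc : sc δ = 20 * δ + 40 := rfl
  rw [hro] at h1 h1'
  rw [hsc] at hR1 hxx
  have a1 : (m : ℝ) - 3 * δ - 4 ≤ gp o v x := by
    have := gp_ge_of_near hv
    rw [dist_comm o v] at this
    linarith
  have a2 : (m : ℝ) - 3 * δ - 4 ≤ gp o x' v' := by
    have := gp_ge_of_near hv'
    rw [dist_comm o v', gp_comm] at this
    linarith
  have a3 : (m : ℝ) - 3 * δ - 4 ≤ gp o x x' := by
    unfold gp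
    linarith
  have a4 : (m : ℝ) - 3 * δ - 4 - δ ≤ gp o v x' := gp_hyp' hδ a1 a3
  have a5 : (m : ℝ) - 3 * δ - 4 - δ - δ ≤ gp o v v' := gp_hyp' hδ a4 (by linarith)
  refine ⟨?_, ?_⟩
  · have := dist_of_gp a5
    rw [dist_comm o v, dist_comm o v'] at this
    linarith
  · set t : ℝ≥0 := ⟨dist o x', dist_nonneg⟩ with ht
    have htc : (t : ℝ) = dist o x' := rfl
    have hmt : (m : ℝ≥0) ≤ t := by
      rw [← NNReal.coe_le_coe, htc]
      have : ((m : ℝ≥0) : ℝ) = m := by simp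
      rw [this]
      linarith
    have a6 : (m : ℝ) - 3 * δ - 4 - δ ≤ gp o x' (γ.1 t) := by
      have := hs t
      rw [htc, min_eq_left (by linarith [dist_nonneg (x := o) (y := x')])] at this
      linarith
    have a7 : (m : ℝ) - 3 * δ - 4 - δ - δ ≤ gp o v (γ.1 t) := gp_hyp' hδ a4 a6
    have a8 : gp o (γ.1 t) (γ.1 m) = m := by
      rw [gp_comm, gp_ray hγ hmt]
      simp
    have a9 : (m : ℝ) - 3 * δ - 4 - δ - δ - δ ≤ gp o v (γ.1 m) := gp_hyp' hδ a7 (by linarith)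
    have a10 : dist o (γ.1 m) = m := by
      rw [← hγ, γ.2.dist_eq, NNReal.dist_eq]
      simp
    have := dist_of_gp a9
    rw [dist_comm o v, a10] at this
    linarith

/-- Proof. Let `m : ℕ` with `R + ro δ + 2 ≤ m`, `⌈ro δ⌉₊ ≤ m`. `near_of_close` (with `R := m`) gives `ε`.
For `z ∈ S2` let `γ z` be a ray from `o` with `bp h (γ z) = z` (`exists_ray_bp`) and `y z` a net point
within `1` of `γ z m`; `dist o (pt (y z)) ≥ m - 1 ≥ R`, and for `dist z z' < ε`: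
`dist (pt (y z)) (pt (y z')) ≤ 4 δ + 3 ≤ sc δ`. Let `R'` be at least the constant of `shadow_cont` for
`ε`, `m + sc δ`, and `2 (m + C)`. Let `c` be a cycle as in the statement. `push_chain` with
`p = o`, `rk = rkp pt o`, `ps` of `exists_push`, threshold `m`, `T = {v | m - ro δ ≤ dist (pt v) o}` (closed
under the push of vertices of rank `> m`), `P x v = (dist (pt x) (pt v) + dist (pt v) o ≤
dist (pt x) o + 2 (δ + 1))`, and `n` = the maximal rank of an entry of a list in the support of `c`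
(choose `n` with `SmT`-support of `c` contained in `TL ... n`; finite support): we get `Φ, b₁` with
`bd b₁ = mp Φ c - c`, `b₁` supported on small lists in `T ⊆ {R ≤ dist o (pt v)}`. Let
`b₂ = pr k Φ (y ∘ π) c`: `bd b₂ = mp (y ∘ π) c - mp Φ c` (`bd_pr`, `bd c = 0`). Support of `b₂`
(`prl_mem`, a version of `pr_mem` with lengths, e.g. by restricting `c` to its support): for a small
list `l` with all `R' ≤ dist o (pt x)`: `l.map Φ ++ l.map (y ∘ π)` is small by `near_geo` (for `x, x' ∈ l`: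
`Φ x, Φ x'` at distance `≤ 10 δ + 10`; `Φ x, y (π x')` at distance `≤ 12 δ + 9 + 1`; `y (π x), y (π x')` since
`dist (π x) (π x') < ε`), all distances from `o` are `≥ R`. `b = b₁ + b₂`. -/
theorem shadow_near [ProperSpace X] {δ : ℝ} (hδ : Hyp4 X δ) (hG : IsGeod X) (h : Bdry X ≃ₜ S2)
    {o : X} {V : Type*} {pt : V → X} (hN : IsNet pt) {π : V → E3} {C : ℝ} (hπ : ∀ v, π v ∈ S2)
    (hS : Shd h o pt π C) (R : ℝ) : ∃ (y : E3 → V) (ε R' : ℝ), 0 < ε ∧
    (∀ z ∈ S2, R ≤ dist o (pt (y z))) ∧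
    (∀ z ∈ S2, ∀ z' ∈ S2, dist z z' < ε → smr δ pt (y z) (y z')) ∧
    (∀ v w, smr δ pt v w → R' ≤ dist o (pt v) → R' ≤ dist o (pt w) → dist (π v) (π w) < ε) ∧
    ∀ (k : Type) [Field k] (m : ℕ),
      ∀ c ∈ Finsupp.supported k k (SmT (smr δ pt) {v | R' ≤ dist o (pt v)} m),
      bd k c = 0 → ∃ b ∈ Finsupp.supported k k (SmT (smr δ pt) {v | R ≤ dist o (pt v)} (m + 1)),
        bd k b = mp k (fun v => y (π v)) c - c := by
  classical
  have hδ0 : 0 ≤ δ := hδ.1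
  have hro : ro δ = 2 * δ + 3 := rfl
  have hsc : sc δ = 20 * δ + 40 := rfl
  obtain ⟨M, hM⟩ : ∃ M : ℕ, max (R + ro δ + 2) (ro δ + 1) ≤ M := exists_nat_ge _
  have hM1 : R + ro δ + 2 ≤ M := (le_max_left _ _).trans hM
  have hM2 : ro δ + 1 ≤ M := (le_max_right _ _).trans hM
  obtain ⟨ε, hε, hclose⟩ := near_of_close hδ h o (M : ℝ≥0)
  have hex : ∀ z : E3, ∃ yz : V, z ∈ S2 → ∃ γ : GRay X, γ.1 0 = o ∧ bp h γ = z ∧
      dist (γ.1 M) (pt yz) ≤ 1 := by
    intro z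
    by_cases hz : z ∈ S2
    · obtain ⟨γ, h0, h1⟩ := exists_ray_bp hδ hG h o hz
      obtain ⟨v, hv⟩ := hN.dense (γ.1 M)
      exact ⟨v, fun _ => ⟨γ, h0, h1, hv⟩⟩
    · obtain ⟨v, _⟩ := hN.dense o
      exact ⟨v, fun h => absurd h hz⟩
  choose y hy using hex
  obtain ⟨R₀, hR₀⟩ := shadow_cont hδ hG h hπ hS hε
  set R' : ℝ := max R₀ (max ((M : ℝ) + sc δ) (2 * ((M : ℝ) + C))) with hR'
  have hR1 : R₀ ≤ R' := le_max_left _ _
  have hR2 : (M : ℝ) + sc δ ≤ R' := (le_max_left _ _).trans (le_max_right _ _)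
  have hR3 : 2 * ((M : ℝ) + C) ≤ R' := (le_max_right _ _).trans (le_max_right _ _)
  have hyR : ∀ z ∈ S2, R ≤ dist o (pt (y z)) := by
    intro z hz
    obtain ⟨γ, h0, _, h2⟩ := hy z hz
    have h3 : dist o (γ.1 M) = M := by
      rw [← h0, γ.2.dist_eq, NNReal.dist_eq]
      simp
    have h4 := dist_triangle o (pt (y z)) (γ.1 M)
    rw [dist_comm (pt (y z)) (γ.1 M)] at h4
    linarith
  have hyy : ∀ z ∈ S2, ∀ z' ∈ S2, dist z z' < ε → smr δ pt (y z) (y z') := by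
    intro z hz z' hz' hd
    obtain ⟨γ, h0, h1, h2⟩ := hy z hz
    obtain ⟨γ', h0', h1', h2'⟩ := hy z' hz'
    have h3 := hclose γ γ' h0 h0' (by rw [← dist_bp, h1, h1']; exact hd)
    have h4 := dist_triangle4 (pt (y z)) (γ.1 M) (γ'.1 M) (pt (y z'))
    rw [dist_comm (pt (y z)) (γ.1 M)] at h4
    unfold smr
    rw [hsc]
    linarith
  refine ⟨y, ε, R', hε, hyR, hyy, fun v w hvw hv _ => hR₀ v w hvw (hR1.trans hv), ?_⟩
  intro k _ m c hc hb
  obtain ⟨ps, hps⟩ := exists_push hδ hG hN o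
  set T : Set V := {v | (M : ℝ) - ro δ ≤ dist (pt v) o} with hT
  set P : V → V → Prop := fun x v => dist (pt x) (pt v) + dist (pt v) o ≤
    dist (pt x) o + 2 * (δ + 1) with hP
  have hbig : ∀ v, M < rkp pt o v → (M : ℝ) + 1 ≤ dist (pt v) o := by
    intro v hv
    unfold rkp at hv
    have h1 : (⌊dist (pt v) o⌋₊ : ℝ) ≤ dist (pt v) o := Nat.floor_le dist_nonneg
    have h2 : ((M + 1 : ℕ) : ℝ) ≤ (⌊dist (pt v) o⌋₊ : ℝ) := by exact_mod_cast hv
    push_cast at h2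
    linarith
  have hsm : ∀ v w, smr δ pt v w → smr δ pt w v := by
    intro v w h
    unfold smr at h ⊢
    rw [dist_comm]
    exact h
  have h1 : ∀ v ∈ T, M < rkp pt o v → ps v ∈ T ∧ rkp pt o (ps v) < rkp pt o v ∧
      ∀ w ∈ T, smr δ pt w v → rkp pt o w ≤ rkp pt o v → smr δ pt w (ps v) := by
    intro v _ hlt
    have h2 := hbig v hlt
    obtain ⟨a1, a2, _, a4, _⟩ := hps v (by linarith)
    refine ⟨?_, a1, fun w _ hw hr => a2 w hw hr⟩
    show (M : ℝ) - ro δ ≤ dist (pt (ps v)) o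
    linarith
  have hPs : ∀ x v, P x v → v ∈ T → M < rkp pt o v → P x (ps v) := by
    intro x v hxv _ hlt
    have h2 := hbig v hlt
    obtain ⟨_, _, _, _, a5⟩ := hps v (by linarith)
    exact a5 (pt x) hxv
  have hcs : ∀ l ∈ c.support, l ∈ SmT (smr δ pt) {v | R' ≤ dist o (pt v)} m := by
    intro l hl
    exact (Finsupp.mem_supported k c).1 hc (Finset.mem_coe.2 hl)
  obtain ⟨B, hB⟩ := geocb_bound c (fun v => (rkp pt o v : ℝ))
  obtain ⟨n, hn⟩ := exists_nat_ge B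
  have hBn : ∀ l ∈ c.support, ∀ x ∈ l, rkp pt o x ≤ n := by
    intro l hl x hx
    have h2 : (rkp pt o x : ℝ) ≤ n := (hB l hl x hx).trans hn
    exact_mod_cast h2
  have hfarT : ∀ x, R' ≤ dist o (pt x) → x ∈ T := by
    intro x hx
    show (M : ℝ) - ro δ ≤ dist (pt x) o
    rw [dist_comm]
    linarith
  have hcT : c ∈ Finsupp.supported k k (TL (smr δ pt) (rkp pt o) T n ∩ {l | l.length = m}) := by
    rw [Finsupp.mem_supported]
    intro l hl
    have hl' := Finset.mem_coe.1 hl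
    have h2 := hcs l hl'
    exact ⟨⟨h2.1.1, fun x hx => ⟨hfarT x (h2.1.2 x hx), hBn l hl' x hx⟩⟩, h2.2⟩
  obtain ⟨Φ, b₁, hΦ, hb1, _, _, hbd1⟩ := push_chain k (smr δ pt) (rkp pt o) ps T hsm M m h1 P hPs
    n c hcT hb
  have hΦ' : ∀ x, R' ≤ dist o (pt x) → rkp pt o x ≤ n →
      P x (Φ x) ∧ Φ x ∈ T ∧ dist (pt (Φ x)) o ≤ M + 1 := by
    intro x hx hr
    have hPx : P x x := by
      show dist (pt x) (pt x) + dist (pt x) o ≤ dist (pt x) o + 2 * (δ + 1)
      rw [dist_self]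
      linarith
    obtain ⟨a1, a2, a3⟩ := hΦ x x hPx (hfarT x hx) hr
    refine ⟨a1, a2, ?_⟩
    unfold rkp at a3
    have h2 : dist (pt (Φ x)) o < (⌊dist (pt (Φ x)) o⌋₊ : ℝ) + 1 := Nat.lt_floor_add_one _
    have h3 : (⌊dist (pt (Φ x)) o⌋₊ : ℝ) ≤ M := by exact_mod_cast a3
    linarith
  -- positions
  have hgeo : ∀ x x', R' ≤ dist o (pt x) → R' ≤ dist o (pt x') → rkp pt o x ≤ n →
      rkp pt o x' ≤ n → smr δ pt x x' →
      smr δ pt (Φ x) (Φ x') ∧ smr δ pt (Φ x) (y (π x')) := by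
    intro x x' hx hx' hr hr' hxx
    obtain ⟨a1, a2, a3⟩ := hΦ' x hx hr
    obtain ⟨b1, b2, b3⟩ := hΦ' x' hx' hr'
    obtain ⟨γ, h0, h2, h3⟩ := hy (π x') (hπ x')
    obtain ⟨c1, c2⟩ := near_geo hδ hR2 hR3 hx hx' hxx a1 b1 a2 a3 b2 b3 h0 (hS x' γ h0 h2)
    refine ⟨?_, ?_⟩
    · unfold smr
      rw [hsc]
      linarith
    · unfold smr
      rw [hsc]
      have h4 := dist_triangle (pt (Φ x)) (γ.1 M) (pt (y (π x')))
      linarith
  set T' : Set (List V) := {l | Sml (smr δ pt) l ∧ ∀ x ∈ l, x ∈ {v | R ≤ dist o (pt v)}} with hT'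
  have hDn : Dn T' := by
    intro l hl l' hs
    exact ⟨hl.1.sub hs, fun x hx => hl.2 x (hs hx)⟩
  set S : Set (List V) := {l | Sml (smr δ pt) l ∧ ∀ x ∈ l, R' ≤ dist o (pt x) ∧
    rkp pt o x ≤ n} with hSd
  have hcS : c ∈ Finsupp.supported k k (S ∩ {l | l.length = m}) := by
    rw [Finsupp.mem_supported]
    intro l hl
    have hl' := Finset.mem_coe.1 hl
    have h2 := hcs l hl'
    exact ⟨⟨h2.1.1, fun x hx => ⟨h2.1.2 x hx, hBn l hl' x hx⟩⟩, h2.2⟩
  have hpr : ∀ l ∈ S, l.map Φ ++ l.map (fun v => y (π v)) ∈ T' := by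
    rintro l ⟨hl1, hl2⟩
    refine ⟨?_, ?_⟩
    · intro u hu w hw
      rw [List.mem_append] at hu hw
      rcases hu with hu | hu
      · obtain ⟨x, hx, rfl⟩ := List.mem_map.1 hu
        rcases hw with hw | hw
        · obtain ⟨x', hx', rfl⟩ := List.mem_map.1 hw
          exact (hgeo x x' (hl2 x hx).1 (hl2 x' hx').1 (hl2 x hx).2 (hl2 x' hx').2
            (hl1 x hx x' hx')).1
        · obtain ⟨x', hx', rfl⟩ := List.mem_map.1 hw
          exact (hgeo x x' (hl2 x hx).1 (hl2 x' hx').1 (hl2 x hx).2 (hl2 x' hx').2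
            (hl1 x hx x' hx')).2
      · obtain ⟨x, hx, rfl⟩ := List.mem_map.1 hu
        rcases hw with hw | hw
        · obtain ⟨x', hx', rfl⟩ := List.mem_map.1 hw
          exact hsm _ _ (hgeo x' x (hl2 x' hx').1 (hl2 x hx).1 (hl2 x' hx').2 (hl2 x hx).2
            (hl1 x' hx' x hx)).2
        · obtain ⟨x', hx', rfl⟩ := List.mem_map.1 hw
          exact hyy (π x) (hπ x) (π x') (hπ x')
            (hR₀ x x' (hl1 x hx x' hx') (hR1.trans (hl2 x hx).1))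
    · intro u hu
      rw [List.mem_append] at hu
      rcases hu with hu | hu
      · obtain ⟨x, hx, rfl⟩ := List.mem_map.1 hu
        have h2 : (M : ℝ) - ro δ ≤ dist (pt (Φ x)) o := (hΦ' x (hl2 x hx).1 (hl2 x hx).2).2.1
        show R ≤ dist o (pt (Φ x))
        rw [dist_comm]
        linarith
      · obtain ⟨x, hx, rfl⟩ := List.mem_map.1 hu
        exact hyR (π x) (hπ x)
  have hb2 : pr k Φ (fun v => y (π v)) c ∈ Finsupp.supported k k
      (T' ∩ {l | l.length = m + 1}) := pushc_pr_mem k hDn hpr hcS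
  refine ⟨b₁ + pr k Φ (fun v => y (π v)) c, Submodule.add_mem _ ?_ hb2, ?_⟩
  · refine Finsupp.supported_mono ?_ hb1
    rintro l ⟨⟨h2, h3⟩, h4⟩
    refine ⟨⟨h2, fun x hx => ?_⟩, h4⟩
    have h5 : (M : ℝ) - ro δ ≤ dist (pt x) o := (h3 x hx).1
    show R ≤ dist o (pt x)
    rw [dist_comm]
    linarith
  · have h2 := bd_pr (k := k) Φ (fun v => y (π v)) c
    rw [hb, map_zero, add_zero] at h2
    rw [map_add, hbd1, h2]
    abel

end RCan
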