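import Pool.Agent.W_04c03c_h58.GeoB

/-!
# Existence of nets with a free action
-/

namespace RCan

open Set
open scoped Pointwise

/-- the vertices `g • i`, `i ∈ I`, with multiplicity -/
structure NV (N I : Type*) where
  g : N
  i : I

instance {N I : Type*} [Group N] : MulAction N (NV N I) where
  smul a v := ⟨a * v.g, v.i⟩
  one_smul v := by
    show (⟨1 * v.g, v.i⟩ : NV N I) = v
    rw [one_mul]
  mul_smul a b v := by
    show (⟨a * b * v.g, v.i⟩ : NV N I) = ⟨a * (b * v.g), v.i⟩
    rw [mul_assoc]

theorem NV.smul_def {N I : Type*} [Group N] (a : N) (v : NV N I) : a • v = ⟨a * v.g, v.i⟩ := rfl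

theorem NV.free {N I : Type*} [Group N] (a : N) (v : NV N I) (h : a • v = v) : a = 1 := by
  have h1 : a * v.g = v.g := congrArg NV.g h
  exact mul_eq_right.1 h1

/-- the point of a vertex -/
def ptN {N X : Type*} [Group N] [MulAction N X] (I : Set X) (v : NV N I) : X := v.g • (v.i : X)

theorem ptN_smul {N X : Type*} [Group N] [MulAction N X] (I : Set X) (a : N) (v : NV N I) :
    ptN I (a • v) = a • ptN I v := by
  show (a * v.g) • (v.i : X) = a • v.g • (v.i : X)
  rw [mul_smul]

/-- `I` is separated modulo `N` -/
def SepN (N : Type*) {X : Type*} [Group N] [MetricSpace X] [MulAction N X] (I : Set X) : Prop :=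
  ∀ i ∈ I, ∀ j ∈ I, i ≠ j → ∀ g : N, 1 ≤ dist i (g • j)

theorem exists_maxSep (N X : Type*) [Group N] [MetricSpace X] [MulAction N X] :
    ∃ I : Set X, Maximal (SepN N) I := by
  obtain ⟨I, -, hI⟩ := zorn_subset_nonempty {I : Set X | SepN N I} (fun c hc hch hne => by
    refine ⟨⋃₀ c, ?_, fun s hs => subset_sUnion_of_mem hs⟩
    intro i hi j hj hij g
    obtain ⟨s, hs, his⟩ := hi
    obtain ⟨t, ht, hjt⟩ := hj
    rcases hch.total hs ht with h | h
    · exact hc ht i (h his) j hjt hij g
    · exact hc hs i his j (h hjt) hij g) ∅ (by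
      show SepN N (∅ : Set X)
      intro i hi
      exact absurd hi (notMem_empty i))
  exact ⟨I, hI⟩

/-- Proof. By Zorn's lemma (`zorn_subset`) let `I` be maximal among the subsets of `X` such that
`1 ≤ dist i (g • j)` for all `i ≠ j` in `I` and `g : N`. Density: for `x : X`, if `x ∉ I` then `I ∪ {x}`
violates the condition, so there are `i ∈ I`, `g` with `dist x (g • i) < 1` or `dist i (g • x) < 1` (then
`dist x (g⁻¹ • i) < 1`). If `x ∈ I` take `g = 1`. Local finiteness: the set of the `(g, i)` with
`dist x (g • i) ≤ R`: (a) for fixed `i` finitely many `g`: for the compact set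
`K = closedBall x (R + dist x i)`, `i ∈ K` and `g • i ∈ K` so `(g • K) ∩ K` is nonempty (`hpd`).
(b) the set of the `i` which occur is finite: choose for each such `i` a `g_i`; the points `g_i • i` are
pairwise at distance `≥ 1` (`dist (g_i • i) (g_j • j) = dist i (g_i⁻¹ g_j • j)`) in a compact ball; an
infinite subset of a compact set has an accumulation point (or: cover by finitely many balls of radius
`1/2`, `IsCompact.finite_cover_balls` / `TotallyBounded`). -/
theorem exists_net {N X : Type*} [Group N] [MetricSpace X] [ProperSpace X] [MulAction N X]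
    (hi : ∀ (g : N) (x y : X), dist (g • x) (g • y) = dist x y)
    (hpd : ∀ K : Set X, IsCompact K → {g : N | ((g • K) ∩ K).Nonempty}.Finite) :
    ∃ I : Set X, IsNet (ptN I : NV N I → X) := by
  classical
  obtain ⟨I, hI⟩ := exists_maxSep N X
  have hsep : SepN N I := hI.prop
  refine ⟨I, ?_, ?_⟩
  · intro x
    by_cases hx : x ∈ I
    · refine ⟨⟨1, ⟨x, hx⟩⟩, ?_⟩
      show dist x ((1 : N) • x) ≤ 1
      rw [one_smul, dist_self]
      exact zero_le_one
    · by_contra hcon
      push Not at hcon
      have hfar : ∀ i ∈ I, ∀ g : N, 1 < dist x (g • i) := by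
        intro i hi' g
        exact hcon ⟨g, ⟨i, hi'⟩⟩
      have hins : SepN N (insert x I) := by
        intro i hi1 j hj1 hij g
        rcases hi1 with rfl | hi1
        · rcases hj1 with rfl | hj1
          · exact absurd rfl hij
          · exact (hfar j hj1 g).le
        · rcases hj1 with rfl | hj1
          · have h1 := hfar i hi1 g⁻¹
            have h2 := hi g j (g⁻¹ • i)
            rw [smul_inv_smul] at h2
            rw [dist_comm i, h2]
            exact h1.le
          · exact hsep i hi1 j hj1 hij g
      exact hx (hI.le_of_ge hins (subset_insert x I) (mem_insert x I))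
  · intro x R
    have hfix : ∀ i : I, {g : N | dist x (g • (i : X)) ≤ R}.Finite := by
      intro i
      refine (hpd (Metric.closedBall x (max R (dist x (i : X)))) (isCompact_closedBall _ _)).subset ?_
      intro g hg
      refine ⟨g • (i : X), ?_, ?_⟩
      · refine Set.smul_mem_smul_set ?_
        rw [Metric.mem_closedBall, dist_comm]
        exact le_max_right _ _
      · rw [Metric.mem_closedBall, dist_comm]
        exact le_trans hg (le_max_left _ _)
    have hJ : {i : I | ∃ g : N, dist x (g • (i : X)) ≤ R}.Finite := by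
      have hex : ∀ i : I, ∃ g : N, (∃ g : N, dist x (g • (i : X)) ≤ R) → dist x (g • (i : X)) ≤ R := by
        intro i
        by_cases h : ∃ g : N, dist x (g • (i : X)) ≤ R
        · exact ⟨h.choose, fun _ => h.choose_spec⟩
        · exact ⟨1, fun h' => absurd h' h⟩
      choose G hG using hex
      obtain ⟨t, ht, hcov⟩ := (isCompact_closedBall x R).finite_cover_balls (show (0 : ℝ) < 1 / 2 by norm_num)
      have hc2 : ∀ i : I, (∃ g : N, dist x (g • (i : X)) ≤ R) → ∃ y ∈ t, dist (G i • (i : X)) y < 1 / 2 := by
        intro i h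
        have h1 : G i • (i : X) ∈ Metric.closedBall x R := by
          rw [Metric.mem_closedBall, dist_comm]
          exact hG i h
        obtain ⟨y, hy, h2⟩ := mem_iUnion₂.1 (hcov.2 h1)
        exact ⟨y, hy, h2⟩
      haveI : Nonempty X := ⟨x⟩
      choose! c hc using hc2
      refine Set.Finite.of_finite_image (f := c) (hcov.1.subset ?_) ?_
      · rintro _ ⟨i, hi', rfl⟩
        exact (hc i hi').1
      · intro i hi1 j hj1 hij
        by_contra hne
        have h1 := (hc i hi1).2
        have h2 := (hc j hj1).2
        have hij' : c i = c j := hij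
        rw [← hij'] at h2
        have h3 := dist_triangle_right (G i • (i : X)) (G j • (j : X)) (c i)
        have h4 := hsep i i.2 j j.2 (fun h => hne (Subtype.ext h)) ((G i)⁻¹ * G j)
        have h5 := hi (G i) i (((G i)⁻¹ * G j) • (j : X))
        rw [smul_smul, mul_inv_cancel_left] at h5
        linarith
    have hsub : {v : NV N I | dist x (ptN I v) ≤ R} ⊆
        ⋃ i ∈ {i : I | ∃ g : N, dist x (g • (i : X)) ≤ R},
          (fun g : N => (⟨g, i⟩ : NV N I)) '' {g : N | dist x (g • (i : X)) ≤ R} := by
      rintro ⟨g, i⟩ hv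
      refine mem_iUnion₂.2 ⟨i, ⟨g, hv⟩, ⟨g, hv, rfl⟩⟩
    exact (hJ.biUnion fun i _ => (hfix i).image _).subset hsub

end RCan
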