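import Pool.Agent.W_04c03c_h58.Horo
import Pool.Agent.W_04c03c_h58.NetE

/-!
# The set of cusps
-/

namespace RCan

open Set
open scoped NNReal Pointwise

variable {N X : Type*} [Group N] [MetricSpace X] [MulAction N X] {𝓗 : Set (Set X)}

/-- the action on the set of horoballs -/
def cuspAct (hC : Cusped N 𝓗) : MulAction N 𝓗 where
  smul g B := ⟨g • B.1, hC.inv g B.1 B.2⟩
  one_smul B := Subtype.ext (one_smul N B.1)
  mul_smul g g' B := Subtype.ext (mul_smul g g' B.1)

open Classical in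
/-- the horoball of a vertex -/
noncomputable def cuspOf {V : Type*} (𝓗 : Set (Set X)) (pt : V → X) (v : V) : Option 𝓗 :=
  if h : ∃ B : 𝓗, pt v ∈ B.1 then some h.choose else none

/-- Proof. The members of `𝓗` are pairwise disjoint. -/
theorem cuspOf_eq {V : Type*} (hd : 𝓗.PairwiseDisjoint id) (pt : V → X) (v : V) (B : 𝓗) :
    cuspOf 𝓗 pt v = some B ↔ pt v ∈ B.1 := by
  unfold cuspOf
  constructor
  · intro h
    by_cases hex : ∃ B : 𝓗, pt v ∈ B.1
    · rw [dif_pos hex] at h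
      rw [← Option.some.inj h]
      exact hex.choose_spec
    · rw [dif_neg hex] at h
      exact absurd h (by simp)
  · intro h
    have hex : ∃ B : 𝓗, pt v ∈ B.1 := ⟨B, h⟩
    rw [dif_pos hex]
    congr 1
    apply Subtype.ext
    by_contra hne
    have := hd hex.choose.2 B.2 hne
    exact Set.disjoint_left.1 this hex.choose_spec h

theorem cuspOf_none {V : Type*} (pt : V → X) (v : V) :
    cuspOf 𝓗 pt v = none ↔ ∀ B ∈ 𝓗, pt v ∉ B := by
  unfold cuspOf
  by_cases hex : ∃ B : 𝓗, pt v ∈ B.1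
  · rw [dif_pos hex]
    constructor
    · intro h
      exact absurd h (by simp)
    · intro h
      exact absurd hex.choose_spec (h _ hex.choose.2)
  · rw [dif_neg hex]
    constructor
    · intro _ B hB hv
      exact hex ⟨⟨B, hB⟩, hv⟩
    · intro _
      rfl

/-- Equivariance, from `cuspOf_eq` (`pt (g • v) = g • pt v ∈ g • B ↔ pt v ∈ B`). -/
theorem cuspOf_smul {V : Type*} [MulAction N V] (hC : Cusped N 𝓗) (pt : V → X)
    (hp : ∀ (g : N) v, pt (g • v) = g • pt v) (g : N) (v : V) :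
    cuspOf 𝓗 pt (g • v) = (cuspOf 𝓗 pt v).map (fun B => (cuspAct hC).smul g B) := by
  rcases h : cuspOf 𝓗 pt v with _ | B
  · rw [Option.map_none, cuspOf_none]
    rw [cuspOf_none] at h
    intro B hB hv
    rw [hp] at hv
    apply h (g⁻¹ • B) (hC.inv g⁻¹ B hB)
    rw [Set.mem_inv_smul_set_iff]
    exact hv
  · rw [Option.map_some, cuspOf_eq hC.disj]
    rw [cuspOf_eq hC.disj] at h
    rw [hp]
    exact Set.smul_mem_smul_set h

/-- Members of `𝓗` are of the form `HB γ c`. -/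
theorem horo_HB (hC : Cusped N 𝓗) {B : Set X} (hB : B ∈ 𝓗) : ∃ γ c, B = HB γ c := by
  obtain ⟨γ, c, h⟩ := hC.horo B hB
  exact ⟨γ, c, by rw [h, horo_eq]⟩

/-- Every horoball contains a net point: a net point within `1` of `γ t`, `t + c > 1`. -/
theorem exists_pt_mem {V : Type*} {pt : V → X} (hN : IsNet pt) (hC : Cusped N 𝓗) (B : 𝓗) :
    ∃ v, pt v ∈ B.1 := by
  obtain ⟨γ, c, h⟩ := horo_HB hC B.2
  obtain ⟨t, ht⟩ : ∃ t : ℝ≥0, 1 < (t : ℝ) + c := by
    refine ⟨Real.toNNReal (2 - c), ?_⟩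
    have := Real.le_coe_toNNReal (2 - c)
    linarith
  obtain ⟨v, hv⟩ := hN.dense (γ.1 t)
  refine ⟨v, ?_⟩
  rw [h]
  refine ⟨t, ?_⟩
  rw [dist_comm]
  linarith

end RCan
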