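import Mathlib

/-!
# Relatively hyperbolic groups and the Bowditch boundary: definitions
-/

namespace RCan

open Set
open scoped NNReal Pointwise

/-- geodesic metric spaces -/
def IsGeod (X : Type*) [MetricSpace X] : Prop :=
  ∀ x y : X, ∃ γ : ℝ → X, γ 0 = x ∧ γ (dist x y) = y ∧
    ∀ s ∈ Icc (0 : ℝ) (dist x y), ∀ t ∈ Icc (0 : ℝ) (dist x y), dist (γ s) (γ t) = |s - t|

/-- Gromov hyperbolic metric spaces (four point condition) -/
def IsHyp (X : Type*) [MetricSpace X] : Prop :=
  ∃ δ : ℝ, ∀ x y z w : X,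
    dist x y + dist z w ≤ max (dist x z + dist y w) (dist x w + dist y z) + δ

/-- geodesic rays -/
def GRay (X : Type*) [MetricSpace X] : Type _ := {γ : ℝ≥0 → X // Isometry γ}

/-- the topology of pointwise convergence on geodesic rays (it is the compact-open topology) -/
instance (X : Type*) [MetricSpace X] : TopologicalSpace (GRay X) :=
  inferInstanceAs (TopologicalSpace {γ : ℝ≥0 → X // Isometry γ})

/-- asymptotic rays: rays at bounded distance -/
def asym (X : Type*) [MetricSpace X] : Setoid (GRay X) where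
  r γ γ' := ∃ C : ℝ, ∀ t, dist (γ.1 t) (γ'.1 t) ≤ C
  iseqv := by
    refine ⟨fun γ => ⟨0, fun t => by simp⟩, ?_, ?_⟩
    · rintro γ γ' ⟨C, hC⟩
      exact ⟨C, fun t => by rw [dist_comm]; exact hC t⟩
    · rintro γ γ' γ'' ⟨C, hC⟩ ⟨C', hC'⟩
      exact ⟨C + C', fun t => (dist_triangle _ _ _).trans (add_le_add (hC t) (hC' t))⟩

/-- the Gromov boundary: asymptotic classes of geodesic rays, with the quotient topology -/
def Bdry (X : Type*) [MetricSpace X] : Type _ := Quotient (asym X)

instance (X : Type*) [MetricSpace X] : TopologicalSpace (Bdry X) :=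
  inferInstanceAs (TopologicalSpace (Quotient (asym X)))

/-- the Busemann function of a ray: the limit of `dist x (γ t) - t`, which is non-increasing in
`t` and bounded below -/
noncomputable def buse {X : Type*} [MetricSpace X] (γ : GRay X) (x : X) : ℝ :=
  ⨅ t : ℝ≥0, (dist x (γ.1 t) - t)

/-- open horoballs -/
def IsHoroball {X : Type*} [MetricSpace X] (B : Set X) : Prop :=
  ∃ (γ : GRay X) (c : ℝ), B = {x | buse γ x < c}

/-- `G` acts by isometries, properly discontinuously; `𝓗` is a `G`-invariant family of pairwise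
disjoint open horoballs and `G` acts cocompactly on the complement of their union -/
structure Cusped (G : Type*) {X : Type*} [Group G] [MetricSpace X] [MulAction G X]
    (𝓗 : Set (Set X)) : Prop where
  isom : ∀ (g : G) (x y : X), dist (g • x) (g • y) = dist x y
  pd : ∀ K : Set X, IsCompact K → {g : G | ((g • K) ∩ K).Nonempty}.Finite
  horo : ∀ B ∈ 𝓗, IsHoroball B
  disj : 𝓗.PairwiseDisjoint id
  inv : ∀ (g : G), ∀ B ∈ 𝓗, g • B ∈ 𝓗
  cocpt : ∃ K : Set X, IsCompact K ∧ ∀ x, (∀ B ∈ 𝓗, x ∉ B) → ∃ g : G, g • x ∈ K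

/-- `H` is virtually `ℤ²` -/
def VirtZ2 {G : Type*} [Group G] (H : Subgroup G) : Prop :=
  ∃ A : Subgroup G, A ≤ H ∧ A.relIndex H ≠ 0 ∧ Nonempty (A ≃* Multiplicative (ℤ × ℤ))

/-- `G` is hyperbolic relative to the subgroups `H i`, and its Bowditch boundary is homeomorphic to
the two-sphere. -/
def SphereRelHyp (G : Type*) [Group G] {ι : Type*} (H : ι → Subgroup G) : Prop :=
  ∃ (X : Type) (_ : MetricSpace X) (_ : ProperSpace X) (_ : MulAction G X) (𝓗 : Set (Set X)),
    IsGeod X ∧ IsHyp X ∧ Cusped G 𝓗 ∧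
    (∀ K : Subgroup G, (∃ B ∈ 𝓗, MulAction.stabilizer G B = K) ↔
      ∃ (i : ι) (g : G), K = (H i).map (MulAut.conj g).toMonoidHom) ∧
    Nonempty (Bdry X ≃ₜ Metric.sphere (0 : EuclideanSpace ℝ (Fin 3)) 1)

end RCan
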