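import Pool.Agent.W_04c03c_h58.Lst

/-!
# A cochain which vanishes on cycles is a coboundary
-/

namespace RCan

variable {k : Type*} [Field k] {V : Type*}

/-- A cochain `f` over a field which vanishes on all cycles of length `n + 1` supported on `S` is on
the lists of `S` of length `n + 1` the coboundary of a cochain on the lists of `S` of length `n`.

Proof. Let `M = supported k k (S ∩ {length = n + 1})` and `∂ = bd k` restricted to `M`. The linear map
`F = Finsupp.linearCombination k f` on `M` vanishes on `ker ∂`, so there is a linear map
`E : LC k V →ₗ[k] k` with `E (bd c) = F c` for `c ∈ M` (`LinearMap.exists_extend` applied to the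
induced map on `range ∂`; or `Submodule.exists_le_ker_of...`; or use `LinearMap.exists_leftInverse`:
the map `M → LC k V` factors as `M → M/ker ∂ ↪ LC k V`, and an injective linear map over a field has a
left inverse). Put `e l = E (single l 1)` if `l ∈ S` and `l.length = n`, else `0`. For `l ∈ S` with
`l.length = n + 1` all lists in the support of `bdl k l` lie in `S` and have length `n` (`bdl_mem`, `hS`),
so `co e l = linearCombination k e (bdl k l) = E (bdl k l) = F (single l 1) = f l` (`lc_bd` with
`c = single l 1`, `bd_single_one`). -/
theorem exists_co_of_cycles (S : Set (List V)) (hS : ∀ l ∈ S, ∀ l' : List V, l'.Sublist l →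
    l'.length + 1 = l.length → l' ∈ S) (n : ℕ) (f : List V → k)
    (h : ∀ c ∈ Finsupp.supported k k (S ∩ {l | l.length = n + 1}), bd k c = 0 →
      Finsupp.linearCombination k f c = 0) :
    ∃ e : List V → k, (∀ l, e l ≠ 0 → l ∈ S ∧ l.length = n) ∧
      ∀ l ∈ S, l.length = n + 1 → co e l = f l := by
  classical
  set M : Submodule k (LC k V) := Finsupp.supported k k (S ∩ {l | l.length = n + 1}) with hM
  let D : M →ₗ[k] LC k V := (bd k).domRestrict M
  let F : M →ₗ[k] k := (Finsupp.linearCombination k f).domRestrict M
  have hF : F ∈ LinearMap.range D.dualMap := by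
    have h0 := LinearMap.range_dualMap_eq_dualAnnihilator_ker (K := k) (V₁ := M) (V₂ := LC k V) D
    refine h0.symm.le ((Submodule.mem_dualAnnihilator F).2 ?_)
    rintro ⟨c, hc⟩ hc0
    exact h c hc hc0
  obtain ⟨E, hE⟩ := hF
  have hE' : ∀ c (hc : c ∈ M), E (bd k c) = Finsupp.linearCombination k f c := by
    intro c hc
    have := LinearMap.congr_fun hE ⟨c, hc⟩
    exact this
  refine ⟨fun l => if l ∈ S ∧ l.length = n then E (Finsupp.single l 1) else 0, ?_, ?_⟩
  · intro l hl
    by_contra hcon
    exact hl (if_neg hcon)
  · intro l hl hn
    set e : List V → k := fun l => if l ∈ S ∧ l.length = n then E (Finsupp.single l 1) else 0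
      with he
    have h1 := lc_bd (k := k) e (Finsupp.single l 1)
    rw [Finsupp.linearCombination_single, one_smul, bd_single_one] at h1
    rw [← h1]
    have h2 : Finsupp.linearCombination k (fun l' => e l' - E (Finsupp.single l' 1)) (bdl k l) = 0 := by
      refine lc_eq_zero ?_ (bdl_mem l)
      rintro l' ⟨h3, h4⟩
      have h5 : l' ∈ S ∧ l'.length = n := ⟨hS l hl l' h3 h4, by omega⟩
      rw [he]
      simp only
      rw [if_pos h5, sub_self]
    have h3 : ∀ c : LC k V, Finsupp.linearCombination k (fun l' => e l' - E (Finsupp.single l' 1)) c
        = Finsupp.linearCombination k e c - E c := by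
      intro c
      induction c using Finsupp.induction_linear with
      | zero => simp
      | add c d hc hd => rw [map_add, map_add, map_add, hc, hd]; ring
      | single l' a =>
        rw [Finsupp.linearCombination_single, Finsupp.linearCombination_single, smul_sub]
        congr 1
        rw [← map_smul, Finsupp.smul_single, smul_eq_mul, mul_one]
    rw [h3] at h2
    rw [sub_eq_zero.1 h2, ← bd_single_one, hE' _ (Finsupp.single_mem_supported k _ ⟨hl, hn⟩),
      Finsupp.linearCombination_single, one_smul]

end RCan
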