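import Pool.Agent.W_04c03c_h58.Lst

/-!
# The interface between geometry and algebra

`V` is the set of vertices of a Rips complex with relation `sm` (small distance), `cusp v = some ξ`
if `v` lies in the horoball `ξ`. Relative lists are the small lists which are not contained in one
horoball. `IsD k n f`: `f` is an alternating cochain of degree `n` (on lists of length `n + 1`) with
values in `k`, finitely supported on relative lists.
-/

namespace RCan

/-- alternating cochains -/
def Alt {V A : Type*} [AddCommGroup A] (f : List V → A) : Prop :=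
  (∀ (l₁ : List V) (x y : V) (l₂ : List V), f (l₁ ++ x :: y :: l₂) = -f (l₁ ++ y :: x :: l₂)) ∧
  (∀ (l₁ : List V) (x : V) (l₂ : List V), f (l₁ ++ x :: x :: l₂) = 0)

section

variable {V Ξ : Type*} (sm : V → V → Prop) (cusp : V → Option Ξ)

/-- small lists -/
def Sml (l : List V) : Prop := ∀ x ∈ l, ∀ y ∈ l, sm x y

/-- lists contained in one horoball -/
def InC (l : List V) : Prop := ∃ ξ, ∀ x ∈ l, cusp x = some ξ

/-- relative lists -/
def Rl (l : List V) : Prop := Sml sm l ∧ ¬ InC cusp l

open Classical in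
/-- the coboundary in the Rips complex -/
noncomputable def cr {A : Type*} [AddCommGroup A] (f : List V → A) : List V → A :=
  fun l => if Sml sm l then co f l else 0

/-- finitely supported alternating relative cochains of degree `n` -/
structure IsD (k : Type*) [AddCommGroup k] (n : ℕ) (f : List V → k) : Prop where
  alt : Alt f
  len : ∀ l, f l ≠ 0 → l.length = n + 1
  rl : ∀ l, f l ≠ 0 → Rl sm cusp l
  fin : (Function.support f).Finite

end

/-- `V` is dismantlable: the vertex `v` of rank `> 0` is dominated by `ps v`, of smaller rank. -/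
def Dis {V : Type*} (sm : V → V → Prop) (rk : V → ℕ) (ps : V → V) : Prop :=
  (∀ v, 0 < rk v → rk (ps v) < rk v ∧ ∀ w, sm w v → rk w ≤ rk v → sm w (ps v)) ∧
  (∀ v w, rk v = 0 → rk w = 0 → sm v w)

/-- The interface. -/
structure Face (N Ξ V : Type*) [Group N] [MulAction N Ξ] [MulAction N V] (sm : V → V → Prop)
    (cusp : V → Option Ξ) : Prop where
  refl : ∀ v, sm v v
  symm : ∀ v w, sm v w → sm w v
  smul_sm : ∀ (g : N) (v w : V), sm v w → sm (g • v) (g • w)
  cusp_smul : ∀ (g : N) (v : V), cusp (g • v) = (cusp v).map (fun ξ => g • ξ)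
  ex : ∀ ξ : Ξ, ∃ v, cusp v = some ξ
  free : ∀ (g : N) (v : V), g • v = v → g = 1
  /-- horoballs are connected -/
  conn : ∀ (ξ : Ξ) (v w : V), cusp v = some ξ → cusp w = some ξ →
    Relation.ReflTransGen (fun a b => sm a b ∧ cusp a = some ξ ∧ cusp b = some ξ) v w
  dis : ∃ (rk : V → ℕ) (ps : V → V), Dis sm rk ps
  ne : Nonempty V
  /-- the relative lists are finite modulo `N` -/
  fin : ∃ F : Set V, F.Finite ∧ ∀ l, Rl sm cusp l → ∃ g : N, ∀ x ∈ l, g • x ∈ F
  /-- no cohomology in degree two -/
  h2 : ∀ (k : Type) [Field k] (f : List V → k), IsD sm cusp k 2 f → cr sm f = 0 →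
    ∃ e, IsD sm cusp k 1 e ∧ cr sm e = f
  /-- no cohomology in degrees above three -/
  hn : ∀ (k : Type) [Field k] (n : ℕ), 3 ≤ n → ∀ (f : List V → k), IsD sm cusp k (n + 1) f →
    cr sm f = 0 → ∃ e, IsD sm cusp k n e ∧ cr sm e = f
  /-- the cohomology in degree three is generated by an integral class, an eigenvector of `N` -/
  h3 : ∃ z : List V → ℤ, IsD sm cusp ℤ 3 z ∧ cr sm z = 0 ∧
    (∀ (k : Type) [Field k] (f : List V → k), IsD sm cusp k 3 f → cr sm f = 0 →
      ∃ (c : k) (e : List V → k), IsD sm cusp k 2 e ∧ (fun l => f l - c * (z l : k)) = cr sm e) ∧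
    (∀ g : N, ∃ (m : ℤ) (e : List V → ℤ), IsD sm cusp ℤ 2 e ∧
      (fun l => z (l.map (fun x => g⁻¹ • x)) - m * z l) = cr sm e)

end RCan
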