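import Pool.Agent.W_04c03c_h58.InfC

/-!
# Germs at infinity: relative version in degree one
-/

namespace RCan

variable {N Ξ V : Type*} [Group N] [MulAction N Ξ] [MulAction N V] {sm : V → V → Prop}
  {cusp : V → Option Ξ} {π : V → E3} {ctr : Ξ → E3} {d : V → ℝ}

theorem InfD1_alt {W A : Type*} [AddCommGroup A] {f : List W → A}
    (hf : ∀ l, f l ≠ 0 → l.length = 1) : Alt f := by
  have h0 : ∀ (l₁ : List W) (x y : W) (l₂ : List W), f (l₁ ++ x :: y :: l₂) = 0 := by
    intro l₁ x y l₂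
    by_contra hne
    have h1 := hf _ hne
    rw [List.length_append, List.length_cons, List.length_cons] at h1
    omega
  refine ⟨fun l₁ x y l₂ => ?_, fun l₁ x l₂ => h0 l₁ x x l₂⟩
  rw [h0, h0, neg_zero]

theorem InfD1_co_len {W A : Type*} [AddCommGroup A] {f : List W → A}
    (hf : ∀ l, f l ≠ 0 → l.length = 1) {l : List W} (hl : co f l ≠ 0) : l.length = 2 := by
  by_contra hne
  apply hl
  refine dl_eq_zero l fun l' _ h2 => ?_
  by_contra h3
  have := hf l' h3
  omega

theorem InfD1_const (h : InfD N Ξ V sm cusp π ctr d) {k : Type} [Field k]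
    {e : List V → k} (he : IsR sm cusp k 1 e) {a : List E3 → k} (ha : Alt a)
    (hla : ∀ l, a l ≠ 0 → l.length = 1 + 1) {g : List V → k} {R R' : ℝ}
    (hg : ∀ l, Sml sm l → (∀ x ∈ l, R ≤ d x) → l.length = 1 + 1 → e l - ap sm π a l = co g l)
    (hR' : ∀ (ξ : Ξ) (k : Type) [Field k] (m : ℕ), 1 ≤ m →
      ∀ c ∈ Finsupp.supported k k (SmT sm {v | cusp v = some ξ ∧ R' ≤ d v} m), bd k c = 0 →
        ∃ b ∈ Finsupp.supported k k (SmT sm {v | cusp v = some ξ ∧ R ≤ d v} (m + 1)), bd k b = c)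
    {ξ : Ξ} {x y : V} (hx : cusp x = some ξ) (hy : cusp y = some ξ) (hdx : R' ≤ d x)
    (hdy : R' ≤ d y) : g [x] = g [y] := by
  have hmem : ∀ z : V, cusp z = some ξ → R' ≤ d z →
      [z] ∈ SmT sm {v | cusp v = some ξ ∧ R' ≤ d v} 1 := by
    intro z hz hdz
    refine ⟨⟨?_, ?_⟩, rfl⟩
    · intro u hu w hw
      rw [List.mem_singleton.1 hu, List.mem_singleton.1 hw]
      exact h.refl z
    · intro u hu
      rw [List.mem_singleton.1 hu]
      exact ⟨hz, hdz⟩
  obtain ⟨b, hb, hbc⟩ := hR' ξ k 1 le_rfl (Finsupp.single [x] 1 - Finsupp.single [y] 1)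
    (Submodule.sub_mem _ (Finsupp.single_mem_supported k _ (hmem x hx hdx))
      (Finsupp.single_mem_supported k _ (hmem y hy hdy))) (by
      rw [map_sub, bd_single_one, bd_single_one, bdl_cons, bdl_cons, bdl_nil, map_zero, map_zero,
        sub_self])
  have h1 : Finsupp.linearCombination k g (bd k b) = 0 := by
    rw [lc_bd]
    refine lc_eq_zero (fun l hl => ?_) hb
    have hC : InC cusp l := ⟨ξ, fun z hz => (hl.1.2 z hz).1⟩
    rw [← hg l hl.1.1 (fun z hz => (hl.1.2 z hz).2) hl.2]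
    have e1 : e l = 0 := by
      by_contra hne
      exact (he.rl l hne).2 hC
    have e2 : ap sm π a l = 0 := by
      by_contra hne
      exact ((isR_ap h le_rfl ha hla).rl l hne).2 hC
    rw [e1, e2, sub_zero]
  rw [hbc, map_sub, Finsupp.linearCombination_single, Finsupp.linearCombination_single, one_smul,
    one_smul, sub_eq_zero] at h1
  exact h1

/-- Proof. Take `a, g, R` from `germ_aux` for `n = 1`, and `R' ≥ R` from `h.far R`. `g` is a function on
lists of length one. For `x, y` in the horoball `ξ` with `d x, d y ≥ R'`: `c = single [x] 1 - single [y] 1`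
is a cycle (`bdl [x] = single [] 1`), so `c = bd b` with `b` in the horoball, `R ≤ d`, length `2`;
`linearCombination g (bd b) = linearCombination (co g) b = 0` since `co g = e - ap a = 0` on lists of
length `2` contained in a horoball (as in `germ_two`). So `g [x] = g [y]`. Let `C ξ` be this common
value (`0` if there is no such vertex), and `c z = C ξ` if `z = ctr ξ` (`h.ctr_inj`) and `0` if `z` is not
a centre. `a' l = a l + c z' - c z` for `l = [z, z']` and `a' l = a l` (`= 0`) for other lengths: it is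
alternating, a cocycle near the diagonal (`a' = a + co c'` on lists of length `2`,
`c' l = c z` for `l = [z]`, `0` for other lengths; so `co a' = co a` on lists of length `3`).
`g' [x] = g [x] - c (π x)` if `R' ≤ d x`, and `0` otherwise and on lists of other lengths. `g'` vanishes
on the vertices of horoballs. `w = e - ap a' - cr sm g'` is relative of degree `1`: `g'` is relative of
degree `0` (on lists of length one every cochain is alternating). For small `[x, y]` with
`d x, d y ≥ R'`: `e - ap a' - co g' = e - ap a - (c (π y) - c (π x)) - co g + (c (π y) - c (π x)) = 0`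
(signs: `co g' [x, y] = g' [y] - g' [x]`). Finite support by `fin_of_far`. -/
theorem germ_one (h : InfD N Ξ V sm cusp π ctr d) {k : Type} [Field k]
    {e : List V → k} (he : IsR sm cusp k 1 e) (hf : (Function.support (cr sm e)).Finite) :
    ∃ (a : List E3 → k) (w : List V → k), Alt a ∧ (∀ l, a l ≠ 0 → l.length = 2) ∧
      AZ S2 2 a ∧ IsD sm cusp k 1 w ∧ cr sm e = cr sm (ap sm π a) + cr sm w := by
  classical
  obtain ⟨a, g, R, ha, hla, haz, hg1, hg2⟩ := germ_aux h le_rfl he hf
  obtain ⟨R₀, hR₀⟩ := h.far R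
  obtain ⟨R', hRd⟩ : ∃ R', R' = max R₀ R := ⟨_, rfl⟩
  have hR0' : R₀ ≤ R' := by rw [hRd]; exact le_max_left _ _
  have hRR' : R ≤ R' := by rw [hRd]; exact le_max_right _ _
  -- the common value on a horoball
  obtain ⟨C, hC⟩ : ∃ C : Ξ → k, ∀ x ξ, cusp x = some ξ → R' ≤ d x → C ξ = g [x] := by
    refine ⟨fun ξ => if H : ∃ x, cusp x = some ξ ∧ R' ≤ d x then g [H.choose] else 0, ?_⟩
    intro x ξ hx hd
    have H : ∃ x, cusp x = some ξ ∧ R' ≤ d x := ⟨x, hx, hd⟩
    show (if H : ∃ x, cusp x = some ξ ∧ R' ≤ d x then g [H.choose] else 0) = g [x]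
    rw [dif_pos H]
    exact InfD1_const h he ha hla hg2 hR₀ H.choose_spec.1 hx (hR0'.trans H.choose_spec.2)
      (hR0'.trans hd)
  obtain ⟨c, hc⟩ : ∃ c : E3 → k, ∀ ξ, c (ctr ξ) = C ξ := by
    refine ⟨fun z => if H : ∃ ξ, ctr ξ = z then C H.choose else 0, ?_⟩
    intro ξ
    have H : ∃ ξ', ctr ξ' = ctr ξ := ⟨ξ, rfl⟩
    show (if H : ∃ ξ', ctr ξ' = ctr ξ then C H.choose else 0) = C ξ
    rw [dif_pos H, h.ctr_inj H.choose_spec]
  have hcg : ∀ x, InC cusp [x] → R' ≤ d x → c (π x) = g [x] := by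
    rintro x ⟨ξ, hξ⟩ hd
    have hx := hξ x (List.mem_singleton.2 rfl)
    rw [h.pi_cusp x ξ hx, hc, hC x ξ hx hd]
  obtain ⟨cc, hcc⟩ : ∃ cc : List E3 → k, cc = fun l => if l.length = 1 then c (l.headD 0) else 0 :=
    ⟨_, rfl⟩
  have hcc1 : ∀ l, cc l ≠ 0 → l.length = 1 := by
    intro l hl
    by_contra hne
    apply hl
    rw [hcc]
    exact if_neg hne
  have hcc2 : ∀ z, cc [z] = c z := by
    intro z
    rw [hcc]
    rfl
  have hccA : Alt cc := InfD1_alt hcc1
  obtain ⟨a', ha'd⟩ : ∃ a' : List E3 → k, a' = a + co cc := ⟨_, rfl⟩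
  have ha' : Alt a' := by rw [ha'd]; exact ha.add hccA.co
  have hla' : ∀ l, a' l ≠ 0 → l.length = 1 + 1 := by
    intro l hl
    by_contra hne
    apply hl
    have e1 : a l = 0 := by
      by_contra h1
      exact hne (hla l h1)
    have e2 : co cc l = 0 := by
      by_contra h1
      exact hne (InfD1_co_len hcc1 h1)
    rw [ha'd, Pi.add_apply, e1, e2, add_zero]
  have haz' : AZ S2 (1 + 1) a' := by
    obtain ⟨ε, hε, hz⟩ := haz
    refine ⟨ε, hε, fun l hl hn => ?_⟩
    rw [ha'd, co_add, co_co, add_zero]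
    exact hz l hl hn
  -- the correction
  obtain ⟨g', hg'⟩ : ∃ g' : List V → k, g' = fun l =>
      if l.length = 1 ∧ ∀ x ∈ l, R' ≤ d x then g l - cc (l.map π) else 0 := ⟨_, rfl⟩
  have hg'1 : ∀ l, g' l ≠ 0 → l.length = 1 ∧ ∀ x ∈ l, R' ≤ d x := by
    intro l hl
    by_contra hne
    apply hl
    rw [hg']
    exact if_neg hne
  have hg'R : IsR sm cusp k 0 g' := by
    refine ⟨InfD1_alt fun l hl => (hg'1 l hl).1, fun l hl => (hg'1 l hl).1, ?_⟩
    intro l hl
    obtain ⟨h1, h2⟩ := hg'1 l hl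
    obtain ⟨x, rfl⟩ := List.length_eq_one_iff.1 h1
    refine ⟨?_, fun hCx => ?_⟩
    · intro u hu w hw
      rw [List.mem_singleton.1 hu, List.mem_singleton.1 hw]
      exact h.refl x
    · apply hl
      rw [hg']
      show (if [x].length = 1 ∧ ∀ z ∈ [x], R' ≤ d z then g [x] - cc ([x].map π) else 0) = 0
      rw [if_pos ⟨h1, h2⟩]
      have h3 : cc ([x].map π) = c (π x) := hcc2 (π x)
      rw [h3, hcg x hCx (h2 x (List.mem_singleton.2 rfl)), sub_self]
  obtain ⟨w, hw⟩ : ∃ w : List V → k, w = e - ap sm π a' - cr sm g' := ⟨_, rfl⟩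
  have hwR : IsR sm cusp k 1 w := by
    rw [hw]
    exact (he.sub (isR_ap h le_rfl ha' hla')).sub hg'R.cr
  refine ⟨a', w, ha', hla', haz', hwR.isD ?_, ?_⟩
  · refine fin_of_far h hwR.len (fun l hl => (hwR.rl l hl).1) (R := R') ?_
    intro l hs hl hx
    have h1 : co g' l = co g l - co cc (l.map π) := by
      have h2 : co g' l = co (g - fun l => cc (l.map π)) l := by
        refine dl_congr l fun l' h3 h4 => ?_
        rw [hg']
        show (if l'.length = 1 ∧ ∀ x ∈ l', R' ≤ d x then g l' - cc (l'.map π) else 0) =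
          g l' - cc (l'.map π)
        rw [if_pos ⟨by omega, fun x hx' => hx x (h3.subset hx')⟩]
      rw [h2, co_sub, Pi.sub_apply, co_map]
    have h5 := hg2 l hs (fun x hx' => hRR'.trans (hx x hx')) hl
    rw [InfB_ap_of a hs] at h5
    rw [hw, Pi.sub_apply, Pi.sub_apply, InfB_ap_of a' hs, cr_of_sml _ hs, h1, ha'd, Pi.add_apply,
      ← h5]
    ring
  · rw [hw, cr_sub, cr_sub, cr_cr, sub_zero]
    abel

end RCan
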