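import Pool.Agent.W_04c03c_h58.InfA
import Pool.Agent.W_04c03c_h58.InfB
import Pool.Agent.W_04c03c_h58.InfD1
import Pool.Agent.W_04c03c_h58.InfD2
import Pool.Agent.W_04c03c_h58.AsAlt
import Pool.Agent.W_04c03c_h58.AsDe

/-!
# Vanishing of the cohomology in degree two and above three
-/

namespace RCan

variable {N Ξ V : Type*} [Group N] [MulAction N Ξ] [MulAction N V] {sm : V → V → Prop}
  {cusp : V → Option Ξ} {π : V → E3} {ctr : Ξ → E3} {d : V → ℝ}

theorem facea_aux (h : InfD N Ξ V sm cusp π ctr d) {k : Type} [Field k] {n : ℕ} (hn : 1 ≤ n)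
    (hac : Ac S2 (n + 1)) {f : List V → k} {a : List E3 → k} {w : List V → k} (ha : Alt a)
    (hla : ∀ l, a l ≠ 0 → l.length = n + 1) (haz : AZ S2 (n + 1) a) (hw : IsD sm cusp k n w)
    (hf : f = cr sm (ap sm π a) + cr sm w) : ∃ e, IsD sm cusp k n e ∧ cr sm e = f := by
  obtain ⟨b, hb, hlb, ε, he, hab⟩ := ab_alt ha (hac k a haz)
  refine ⟨(ap sm π a - cr sm (ap sm π b)) + w,
    (isD_ap_sub h hn ha hb hla hlb he hab).add hw, ?_⟩
  rw [cr_add, cr_sub, cr_cr, sub_zero, hf]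

/-- Proof. `exists_rel` (`n = 1`) gives `e₀` with `cr e₀ = f`, of finite support; `germ_one` gives `a, w`.
`as_sphere.1` and `ab_alt`: `a = co b` near the diagonal, `b` alternating on lists of length one.
`e = (ap a - cr (ap b)) + w` (`isD_ap_sub`, `IsD.add`): `cr e = cr (ap a) + cr w = f` (`cr_cr`). -/
theorem face_h2 (h : InfD N Ξ V sm cusp π ctr d) (k : Type) [Field k] (f : List V → k)
    (hf : IsD sm cusp k 2 f) (hc : cr sm f = 0) : ∃ e, IsD sm cusp k 1 e ∧ cr sm e = f := by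
  obtain ⟨e₀, he1, he2⟩ := exists_rel h (n := 1) le_rfl hf.isR hc
  obtain ⟨a, w, ha, hla, haz, hw, hcr⟩ := germ_one h he1 (by rw [he2]; exact hf.fin)
  rw [he2] at hcr
  exact facea_aux h le_rfl as_sphere.1 ha hla haz hw hcr

/-- Proof. The same with `germ_two` and `as_sphere.2.1` for `m = n + 1 ≥ 4`. -/
theorem face_hn (h : InfD N Ξ V sm cusp π ctr d) (k : Type) [Field k] (n : ℕ) (hn : 3 ≤ n)
    (f : List V → k) (hf : IsD sm cusp k (n + 1) f) (hc : cr sm f = 0) :
    ∃ e, IsD sm cusp k n e ∧ cr sm e = f := by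
  obtain ⟨e₀, he1, he2⟩ := exists_rel h (n := n) (by omega) hf.isR hc
  obtain ⟨a, w, ha, hla, haz, hw, hcr⟩ := germ_two h (by omega) he1 (by rw [he2]; exact hf.fin)
  rw [he2] at hcr
  exact facea_aux h (by omega) (as_sphere.2.1 (n + 1) (by omega)) ha hla haz hw hcr

end RCan
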