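import Pool.Agent.W_04c03c_h58.Face
/-!
# Equivariant coordinates
-/

namespace RCan

/-- Locally constant functions on a dismantlable relation are constant.

Proof. `F v = F (ps v)` if `rk v > 0` (`h.1 v` with `w = v` gives `sm v (ps v)`), so by strong induction
on `rk v` every `v` has a `v₀` with `rk v₀ = 0` and `F v = F v₀`; and `F` is constant on rank `0`
(`h.2`). -/
theorem const_of_dis {V A : Type*} {sm : V → V → Prop} (hr : ∀ v, sm v v) {rk : V → ℕ} {ps : V → V}
    (h : Dis sm rk ps) (F : V → A) (hF : ∀ x y, sm x y → F x = F y) (x y : V) : F x = F y := by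
  have key : ∀ (n : ℕ) (v : V), rk v ≤ n → ∃ v₀, rk v₀ = 0 ∧ F v = F v₀ := by
    intro n
    induction n with
    | zero =>
      intro v hv
      exact ⟨v, by omega, rfl⟩
    | succ n ih =>
      intro v hv
      by_cases h0 : rk v = 0
      · exact ⟨v, h0, rfl⟩
      · obtain ⟨h1, h2⟩ := h.1 v (by omega)
        obtain ⟨v₀, h3, h4⟩ := ih (ps v) (by omega)
        exact ⟨v₀, h3, (hF v (ps v) (h2 v (hr v) le_rfl)).trans h4⟩
  obtain ⟨x₀, hx0, hx⟩ := key (rk x) x le_rfl
  obtain ⟨y₀, hy0, hy⟩ := key (rk y) y le_rfl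
  rw [hx, hy]
  exact hF x₀ y₀ (h.2 x₀ y₀ hx0 hy0)

variable {N Ξ V : Type*} [Group N] [MulAction N Ξ] [MulAction N V]
  {sm : V → V → Prop} {cusp : V → Option Ξ}

/-- Equivariant coordinates, compatible with the cusps.

Proof. For every vertex `v` with `cusp v = some η` choose `i` and `a` with `a • ξ i = η`. For every orbit
`O` of `N` on `V` (`MulAction.orbitRel.Quotient N V`) choose a base vertex `e`: let `v = O.out`; if
`cusp v = none` take `e = v`, and if `cusp v = some η = some (a • ξ i)` take `e = a⁻¹ • v`, so that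
`cusp e = some (ξ i)` (`hF.cusp_smul`). Every `v` is `κ v • e` for a unique `κ v : N` (`hF.free`). So
`κ (g • v) = g * κ v`, and if `cusp v = some η` then `cusp e = some (ξ i)` for some `i` (the property
`cusp = none` is invariant), so `some η = cusp (κ v • e) = some (κ v • ξ i)`. -/
theorem exists_kappa (hF : Face N Ξ V sm cusp) {ι : Type*} (ξ : ι → Ξ)
    (hc : ∀ η : Ξ, ∃ (i : ι) (g : N), g • ξ i = η) :
    ∃ κ : V → N, (∀ (g : N) (v : V), κ (g • v) = g * κ v) ∧
      ∀ (v : V) (η : Ξ), cusp v = some η → ∃ i, κ v • ξ i = η := by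
  have hbase : ∀ O : MulAction.orbitRel.Quotient N V, ∃ e : V,
      (Quotient.mk (MulAction.orbitRel N V) e) = O ∧ ∀ η, cusp e = some η → ∃ i, ξ i = η := by
    intro O
    obtain ⟨v, rfl⟩ := Quotient.exists_rep O
    rcases hv : cusp v with _ | η
    · refine ⟨v, rfl, fun η h => ?_⟩
      rw [hv] at h
      exact absurd h (by simp)
    · obtain ⟨i, a, ha⟩ := hc η
      refine ⟨a⁻¹ • v, Quotient.sound ?_, fun η' h => ⟨i, ?_⟩⟩
      · exact ⟨a⁻¹, rfl⟩
      · rw [hF.cusp_smul, hv, Option.map_some, Option.some.injEq] at h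
        rw [← h, ← ha, inv_smul_smul]
  choose base hb1 hb2 using hbase
  have hex : ∀ v : V, ∃ g : N, g • base (Quotient.mk (MulAction.orbitRel N V) v) = v := by
    intro v
    have h1 : v ∈ MulAction.orbit N (base (Quotient.mk (MulAction.orbitRel N V) v)) :=
      Quotient.exact (hb1 (Quotient.mk (MulAction.orbitRel N V) v)).symm
    exact h1
  choose κ hκ using hex
  refine ⟨κ, fun g v => ?_, fun v η h => ?_⟩
  · have h1 : (Quotient.mk (MulAction.orbitRel N V) (g • v)) =
        Quotient.mk (MulAction.orbitRel N V) v := Quotient.sound ⟨g, rfl⟩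
    have h2 := hκ (g • v)
    rw [h1] at h2
    have h3 : (g * κ v) • base (Quotient.mk (MulAction.orbitRel N V) v) = g • v := by
      rw [mul_smul, hκ v]
    have h4 : ((g * κ v)⁻¹ * κ (g • v)) • base (Quotient.mk (MulAction.orbitRel N V) v) =
        base (Quotient.mk (MulAction.orbitRel N V) v) := by
      rw [mul_smul, h2, ← h3, inv_smul_smul]
    have h5 := hF.free _ _ h4
    exact (inv_mul_eq_one.1 h5).symm
  · have h1 := hF.cusp_smul (κ v) (base (Quotient.mk (MulAction.orbitRel N V) v))
    rw [hκ v, h] at h1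
    rcases he : cusp (base (Quotient.mk (MulAction.orbitRel N V) v)) with _ | η'
    · rw [he] at h1
      exact absurd h1 (by simp)
    · rw [he, Option.map_some, Option.some.injEq] at h1
      obtain ⟨i, hi⟩ := hb2 _ η' he
      exact ⟨i, by rw [hi, ← h1]⟩

end RCan
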