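import Pool.Agent.W_04c03c_h58.FpA
/-!
# Lifting the edges
-/

namespace RCan

variable {N Ξ V : Type*} [Group N] [MulAction N Ξ] [MulAction N V] {cusp : V → Option Ξ}

/-- An invariant lift of `(κ x)⁻¹ * κ y` which is multiplicative in the cusps.

Proof. Let `w : N → Γ` be a section of `q` (`Function.surjInv hq`). If `x, y` are in a common cusp, i.e.
`cusp x = some η = cusp y`, there are `i, j` with `κ x • ξ i = η = κ y • ξ j` (`hκ'`); then
`((κ y)⁻¹ * κ x) • ξ i = ξ j`, so `i = j` by `hd` and `(κ x)⁻¹ * κ y` is in `stabilizer N (ξ i)`; put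
`u x y = τ i ⟨(κ x)⁻¹ * κ y, _⟩`. Otherwise `u x y = w ((κ x)⁻¹ * κ y)`. Formally
`u x y = if h : ∃ i, (κ x)⁻¹ * κ y ∈ stabilizer N (ξ i) ∧ cusp x = some (κ x • ξ i) ∧
cusp y = some (κ x • ξ i) then τ h.choose ⟨_, h.choose_spec.1⟩ else w _`; the `i` is unique (if
`κ x • ξ i = κ x • ξ j` then `ξ i = ξ j`, `hd` with `g = 1`), which gives the lemma
`u x y = τ i ⟨_, _⟩` for every such `i`. Invariance: all ingredients are invariant
(`(κ (g • x))⁻¹ * κ (g • y) = (κ x)⁻¹ * κ y`, `cusp (g • x) = some (κ (g • x) • ξ i)` iff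
`cusp x = some (κ x • ξ i)`). Multiplicativity: `x, y, z` in the cusp `η` have the same `i`, and
`(κ x)⁻¹ κ y * ((κ y)⁻¹ κ z) = (κ x)⁻¹ κ z`, `map_mul`. -/
theorem exists_u {Γ : Type*} [Group Γ] (q : Γ →* N) (hq : Function.Surjective q)
    (hcs : ∀ (g : N) (v : V), cusp (g • v) = (cusp v).map (fun ξ => g • ξ)) {ι : Type*} (ξ : ι → Ξ)
    (hd : ∀ (i j : ι) (g : N), g • ξ i = ξ j → i = j)
    (τ : (i : ι) → MulAction.stabilizer N (ξ i) →* Γ) (hτ : ∀ i h, q (τ i h) = h)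
    (κ : V → N) (hκ : ∀ (g : N) (v : V), κ (g • v) = g * κ v)
    (hκ' : ∀ (v : V) (η : Ξ), cusp v = some η → ∃ i, κ v • ξ i = η) :
    ∃ u : V → V → Γ, (∀ (g : N) x y, u (g • x) (g • y) = u x y) ∧
      (∀ x y, q (u x y) = (κ x)⁻¹ * κ y) ∧
      ∀ η x y z, cusp x = some η → cusp y = some η → cusp z = some η → u x y * u y z = u x z := by
  classical
  let Pr : ι → V → V → Prop := fun i x y => (κ x)⁻¹ * κ y ∈ MulAction.stabilizer N (ξ i) ∧
    cusp x = some (κ x • ξ i) ∧ cusp y = some (κ x • ξ i)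
  let w : N → Γ := Function.surjInv hq
  have hw : ∀ g, q (w g) = g := Function.surjInv_eq hq
  let u : V → V → Γ := fun x y => if h : ∃ i, Pr i x y then
    τ h.choose ⟨(κ x)⁻¹ * κ y, h.choose_spec.1⟩ else w ((κ x)⁻¹ * κ y)
  have huniq : ∀ (x y : V) (i j : ι), Pr i x y → Pr j x y → i = j := by
    rintro x y i j ⟨_, h1, _⟩ ⟨_, h2, _⟩
    rw [h1, Option.some.injEq] at h2
    refine hd i j 1 ?_
    rw [one_smul]
    exact MulAction.injective (κ x) h2
  have hu1 : ∀ (x y : V) (i : ι) (h : Pr i x y), u x y = τ i ⟨(κ x)⁻¹ * κ y, h.1⟩ := by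
    intro x y i h
    have hex : ∃ i, Pr i x y := ⟨i, h⟩
    have h1 : u x y = τ hex.choose ⟨(κ x)⁻¹ * κ y, hex.choose_spec.1⟩ := dif_pos hex
    have h2 : ∀ (j : ι) (hj : Pr j x y),
        τ j ⟨(κ x)⁻¹ * κ y, hj.1⟩ = τ i ⟨(κ x)⁻¹ * κ y, h.1⟩ := by
      intro j hj
      have h3 := huniq x y j i hj h
      subst h3
      rfl
    rw [h1]
    exact h2 _ hex.choose_spec
  have hu0 : ∀ (x y : V), (¬ ∃ i, Pr i x y) → u x y = w ((κ x)⁻¹ * κ y) := fun x y h => dif_neg h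
  have hgg : ∀ (g : N) (x y : V), (κ (g • x))⁻¹ * κ (g • y) = (κ x)⁻¹ * κ y := by
    intro g x y
    rw [hκ, hκ]
    group
  have hcg : ∀ (g : N) (x v : V) (i : ι), cusp (g • v) = some (κ (g • x) • ξ i) ↔
      cusp v = some (κ x • ξ i) := by
    intro g x v i
    rw [hcs, hκ, mul_smul]
    constructor
    · intro h
      rcases hv : cusp v with _ | η
      · rw [hv] at h
        exact absurd h (by simp)
      · rw [hv, Option.map_some, Option.some.injEq] at h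
        rw [MulAction.injective g h]
    · intro h
      rw [h, Option.map_some]
  have hPg : ∀ (g : N) (x y : V) (i : ι), Pr i (g • x) (g • y) ↔ Pr i x y := by
    intro g x y i
    show (_ ∧ _ ∧ _) ↔ (_ ∧ _ ∧ _)
    rw [hgg, hcg, hcg]
  have hkey : ∀ (η : Ξ) (x y : V) (i : ι), cusp x = some η → cusp y = some η → κ x • ξ i = η →
      Pr i x y ∧ κ y • ξ i = η := by
    intro η x y i hx hy hi
    obtain ⟨j, hj⟩ := hκ' y η hy
    have h1 : ((κ y)⁻¹ * κ x) • ξ i = ξ j := by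
      rw [mul_smul, hi, ← hj, inv_smul_smul]
    have h2 := hd i j _ h1
    subst h2
    refine ⟨⟨?_, ?_, ?_⟩, hj⟩
    · rw [MulAction.mem_stabilizer_iff, mul_smul, hj, ← hi, inv_smul_smul]
    · rw [hi]
      exact hx
    · rw [hi]
      exact hy
  refine ⟨u, fun g x y => ?_, fun x y => ?_, fun η x y z hx hy hz => ?_⟩
  · by_cases hex : ∃ i, Pr i x y
    · obtain ⟨i, hi⟩ := hex
      rw [hu1 x y i hi, hu1 (g • x) (g • y) i ((hPg g x y i).2 hi)]
      congr 1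
      exact Subtype.ext (hgg g x y)
    · have hex' : ¬ ∃ i, Pr i (g • x) (g • y) := by
        rintro ⟨i, hi⟩
        exact hex ⟨i, (hPg g x y i).1 hi⟩
      rw [hu0 x y hex, hu0 _ _ hex', hgg]
  · by_cases hex : ∃ i, Pr i x y
    · obtain ⟨i, hi⟩ := hex
      rw [hu1 x y i hi]
      exact hτ i _
    · rw [hu0 x y hex]
      exact hw _
  · obtain ⟨i, hi⟩ := hκ' x η hx
    obtain ⟨h1, h2⟩ := hkey η x y i hx hy hi
    obtain ⟨h3, _⟩ := hkey η y z i hy hz h2
    obtain ⟨h4, _⟩ := hkey η x z i hx hz hi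
    rw [hu1 x y i h1, hu1 y z i h3, hu1 x z i h4, ← map_mul]
    congr 1
    apply Subtype.ext
    show (κ x)⁻¹ * κ y * ((κ y)⁻¹ * κ z) = (κ x)⁻¹ * κ z
    group

end RCan
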