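import Pool.Agent.W_04c03c_h58.FpB
import Pool.Agent.W_04c03c_h58.SimCon
/-!
# Finitely many relations
-/

namespace RCan

variable {N Ξ V : Type*} [Group N] [MulAction N Ξ] [MulAction N V]
  {sm : V → V → Prop} {cusp : V → Option Ξ}

/-- `N` is a retract of the quotient of `Γ` by finitely many relations.

Proof. Take `κ` from `exists_kappa` and `u` from `exists_u`. Let `F` be the finite set of `hF.fin` and
`S` the set of the defects `u x y * u y z * (u x z)⁻¹` with `x, y, z ∈ F` which lie in... precisely: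
`S = {d | ∃ x ∈ F, ∃ y ∈ F, ∃ z ∈ F, d = u x y * u y z * (u x z)⁻¹}`, finite (image of `F ×ˢ F ×ˢ F`), and
`q d = 1` for `d ∈ S`, so `normalClosure S ≤ q.ker` (`Subgroup.normalClosure_le_normal`). Let
`Γ' = Γ ⧸ normalClosure S` and `ū x y` the class of `u x y`. Claim: `ū x y * ū y z = ū x z` if
`sm x y, sm y z, sm x z`: if `x, y, z` are in a common cusp this holds for `u`. Otherwise `[x, y, z]` is
relative (`Rl`; small by `hF.refl`, `hF.symm`), so there is `g` with `g • x, g • y, g • z ∈ F`, and the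
defect of `(x, y, z)`, equal to the one of `(g • x, g • y, g • z)`, is in `S`. By `simply_connected`
there is `f : V → Γ'` with `ū x y = (f x)⁻¹ * f y` for `sm x y`. For `g : N` the function
`x ↦ f (g • x) * (f x)⁻¹` is locally constant (`ū` is invariant), so constant (`const_of_dis`, `hF.dis`),
`= s g`; `s (g * h) = f (g • h • x) * (f (h • x))⁻¹ * (f (h • x) * (f x)⁻¹) = s g * s h` (`hF.ne`). Let `q'` be
the lift of `q`. `q' (ū x y) = (κ x)⁻¹ * κ y`, so `x ↦ q' (f x) * (κ x)⁻¹` is locally constant, `= c`. Then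
`q' (s g) = c * κ (g • x) * (κ x)⁻¹ * c⁻¹ = c * g * c⁻¹`. Let `c'` with `q' c' = c` (`hq`); the homomorphism
`g ↦ c'⁻¹ * s g * c'` is the section. -/
theorem fp_section (hF : Face N Ξ V sm cusp) {ι : Type*} (ξ : ι → Ξ)
    (hc : ∀ η : Ξ, ∃ (i : ι) (g : N), g • ξ i = η)
    (hd : ∀ (i j : ι) (g : N), g • ξ i = ξ j → i = j) {Γ : Type*} [Group Γ] (q : Γ →* N)
    (hq : Function.Surjective q) (τ : (i : ι) → MulAction.stabilizer N (ξ i) →* Γ)
    (hτ : ∀ i h, q (τ i h) = h) :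
    ∃ (S : Set Γ) (_ : S.Finite) (hk : Subgroup.normalClosure S ≤ q.ker)
      (s : N →* Γ ⧸ Subgroup.normalClosure S), ∀ n, QuotientGroup.lift _ q hk (s n) = n := by
  obtain ⟨κ, hκ, hκ'⟩ := exists_kappa hF ξ hc
  obtain ⟨u, hug, huq, huc⟩ := exists_u q hq hF.cusp_smul ξ hd τ hτ κ hκ hκ'
  obtain ⟨F, hFf, hFr⟩ := hF.fin
  obtain ⟨S, hS⟩ : ∃ S : Set Γ, S = (fun p : V × V × V =>
    u p.1 p.2.1 * u p.2.1 p.2.2 * (u p.1 p.2.2)⁻¹) '' (F ×ˢ F ×ˢ F) := ⟨_, rfl⟩
  have hSf : S.Finite := by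
    rw [hS]
    exact (hFf.prod (hFf.prod hFf)).image _
  have hk : Subgroup.normalClosure S ≤ q.ker := by
    apply Subgroup.normalClosure_le_normal
    rw [hS]
    rintro _ ⟨⟨x, y, z⟩, _, rfl⟩
    show q (u x y * u y z * (u x z)⁻¹) = 1
    rw [map_mul, map_mul, map_inv, huq, huq, huq]
    group
  -- the cocycle identity in the quotient
  have hco : ∀ x y z, sm x y → sm y z → sm x z →
      ((u x y : Γ) : Γ ⧸ Subgroup.normalClosure S) * ((u y z : Γ) : Γ ⧸ Subgroup.normalClosure S) =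
      ((u x z : Γ) : Γ ⧸ Subgroup.normalClosure S) := by
    intro x y z hxy hyz hxz
    by_cases hin : InC cusp [x, y, z]
    · obtain ⟨η, hη⟩ := hin
      rw [← QuotientGroup.mk_mul, huc η x y z (hη x (by simp)) (hη y (by simp)) (hη z (by simp))]
    · have hsml : Sml sm [x, y, z] := by
        intro a ha b hb
        simp only [List.mem_cons, List.not_mem_nil, or_false] at ha hb
        rcases ha with rfl | rfl | rfl <;> rcases hb with rfl | rfl | rfl <;>
          first | exact hF.refl _ | assumption | (apply hF.symm; assumption)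
      obtain ⟨g, hg⟩ := hFr [x, y, z] ⟨hsml, hin⟩
      have hmem : u x y * u y z * (u x z)⁻¹ ∈ Subgroup.normalClosure S := by
        apply Subgroup.subset_normalClosure
        rw [hS]
        refine ⟨(g • x, g • y, g • z), ⟨hg x (by simp), hg y (by simp), hg z (by simp)⟩, ?_⟩
        show u (g • x) (g • y) * u (g • y) (g • z) * (u (g • x) (g • z))⁻¹ = _
        rw [hug, hug, hug]
      have h1 := (QuotientGroup.eq_one_iff _).2 hmem
      rw [QuotientGroup.mk_mul, QuotientGroup.mk_mul, QuotientGroup.mk_inv] at h1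
      exact mul_inv_eq_one.1 h1
  have := hF.ne
  obtain ⟨rk, ps, hdis⟩ := hF.dis
  obtain ⟨f, hf⟩ := simply_connected hF.refl hF.symm hdis
    (fun x y => ((u x y : Γ) : Γ ⧸ Subgroup.normalClosure S)) hco
  obtain ⟨v₀⟩ := hF.ne
  have hs : ∀ (g : N) (x : V), f (g • x) * (f x)⁻¹ = f (g • v₀) * (f v₀)⁻¹ := by
    intro g x
    refine const_of_dis hF.refl hdis (fun x => f (g • x) * (f x)⁻¹) ?_ x v₀
    intro x y hxy
    have h1 := hf x y hxy
    have h2 := hf (g • x) (g • y) (hF.smul_sm g x y hxy)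
    rw [hug, h1] at h2
    show f (g • x) * (f x)⁻¹ = f (g • y) * (f y)⁻¹
    have h3 : f (g • y) = f (g • x) * ((f x)⁻¹ * f y) := by
      rw [h2, mul_inv_cancel_left]
    rw [h3]
    group
  let s : N →* Γ ⧸ Subgroup.normalClosure S := MonoidHom.mk' (fun g => f (g • v₀) * (f v₀)⁻¹) (by
    intro g h
    show f ((g * h) • v₀) * (f v₀)⁻¹ = f (g • v₀) * (f v₀)⁻¹ * (f (h • v₀) * (f v₀)⁻¹)
    rw [← hs g (h • v₀), mul_smul]
    group)
  have hsd : ∀ g, s g = f (g • v₀) * (f v₀)⁻¹ := fun g => rfl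
  obtain ⟨q', hq'⟩ : ∃ q' : Γ ⧸ Subgroup.normalClosure S →* N,
    q' = QuotientGroup.lift (Subgroup.normalClosure S) q hk := ⟨_, rfl⟩
  have hq'u : ∀ x : Γ, q' (x : Γ ⧸ Subgroup.normalClosure S) = q x := by
    intro x
    rw [hq']
    rfl
  have hcst : ∀ x : V, q' (f x) * (κ x)⁻¹ = q' (f v₀) * (κ v₀)⁻¹ := by
    intro x
    refine const_of_dis hF.refl hdis (fun x => q' (f x) * (κ x)⁻¹) ?_ x v₀
    intro x y hxy
    have h1 := congrArg q' (hf x y hxy)
    rw [hq'u, huq, map_mul, map_inv] at h1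
    show q' (f x) * (κ x)⁻¹ = q' (f y) * (κ y)⁻¹
    have h3 : q' (f y) = q' (f x) * ((κ x)⁻¹ * κ y) := by
      rw [h1, mul_inv_cancel_left]
    rw [h3]
    group
  obtain ⟨c', hc'⟩ := hq (q' (f v₀) * (κ v₀)⁻¹)
  refine ⟨S, hSf, hk, (MulAut.conj ((c' : Γ ⧸ Subgroup.normalClosure S)⁻¹)).toMonoidHom.comp s, ?_⟩
  intro n
  have e1 : (MulAut.conj ((c' : Γ ⧸ Subgroup.normalClosure S)⁻¹)).toMonoidHom.comp s n =
      (c' : Γ ⧸ Subgroup.normalClosure S)⁻¹ * s n * (c' : Γ ⧸ Subgroup.normalClosure S) := by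
    show (c' : Γ ⧸ Subgroup.normalClosure S)⁻¹ * s n *
      ((c' : Γ ⧸ Subgroup.normalClosure S)⁻¹)⁻¹ = _
    rw [inv_inv]
  rw [e1, ← hq', map_mul, map_mul, map_inv, hq'u, hc', hsd, map_mul, map_inv]
  have h4 : q' (f (n • v₀)) = q' (f v₀) * (κ v₀)⁻¹ * (n * κ v₀) := by
    rw [← hcst (n • v₀), hκ, inv_mul_cancel_right]
  rw [h4]
  group

end RCan
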