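import Mathlib
/-!
# Finitely presented groups: retracts and covers
-/

namespace RCan

/-- A retract of a finitely presented group is finitely presented.

Proof. `Γ` is generated by a finite set `T` (`Group.FG`: from `hΓ.out`, `Group.fg_of_surjective`). `r` is
onto. Let `M` be the normal closure of the finite set `{t⁻¹ * s (r t) | t ∈ T}`. It is contained in
`r.ker` as `r (s (r t)) = r t`. Conversely the homomorphisms `QuotientGroup.mk' M` and
`(mk' M).comp (s.comp r)` from `Γ` to `Γ ⧸ M` agree on `T`, hence everywhere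
(`MonoidHom.eq_of_eqOn_dense` / `Subgroup.closure_induction`); for `x ∈ r.ker` this gives `mk' M x = 1`.
So `r.ker = M`, and `Group.IsFinitelyPresented.of_surjective` applies. -/
theorem fp_of_retract {Γ N : Type*} [Group Γ] [Group N] (hΓ : Group.IsFinitelyPresented Γ)
    (r : Γ →* N) (s : N →* Γ) (h : ∀ n, r (s n) = n) : Group.IsFinitelyPresented N := by
  obtain ⟨n, φ, hφ, -⟩ := hΓ.out
  refine Group.IsFinitelyPresented.of_surjective r (fun x => ⟨s x, h x⟩) ?_
  refine ⟨Set.range (fun i : Fin n => (φ (FreeGroup.of i))⁻¹ * s (r (φ (FreeGroup.of i)))),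
    Set.finite_range _, ?_⟩
  apply le_antisymm
  · apply Subgroup.normalClosure_le_normal
    rintro _ ⟨i, rfl⟩
    show r ((φ (FreeGroup.of i))⁻¹ * s (r (φ (FreeGroup.of i)))) = 1
    rw [map_mul, map_inv, h, inv_mul_cancel]
  · intro x hx
    obtain ⟨M, hM⟩ : ∃ M : Subgroup Γ, M = Subgroup.normalClosure (Set.range (fun i : Fin n =>
      (φ (FreeGroup.of i))⁻¹ * s (r (φ (FreeGroup.of i))))) := ⟨_, rfl⟩
    rw [← hM]
    have hMn : M.Normal := by
      rw [hM]
      infer_instance
    have key : (QuotientGroup.mk' M).comp φ =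
        ((QuotientGroup.mk' M).comp (s.comp r)).comp φ := by
      apply FreeGroup.ext_hom
      intro i
      show ((φ (FreeGroup.of i) : Γ) : Γ ⧸ M) = ((s (r (φ (FreeGroup.of i))) : Γ) : Γ ⧸ M)
      rw [QuotientGroup.eq, hM]
      exact Subgroup.subset_normalClosure ⟨i, rfl⟩
    obtain ⟨w, rfl⟩ := hφ x
    have h2 := DFunLike.congr_fun key w
    have h3 : ((φ w : Γ) : Γ ⧸ M) = ((s (r (φ w)) : Γ) : Γ ⧸ M) := h2
    have h4 : r (φ w) = 1 := hx
    rw [h4, map_one] at h3
    exact (QuotientGroup.eq_one_iff _).1 h3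

theorem FpD_fin {N : Type} [Group N] (hN : Group.FG N) : ∀ (m : ℕ) (P : Fin m → Subgroup N),
    (∀ i, Group.IsFinitelyPresented (P i)) →
    ∃ (Γ : Type) (_ : Group Γ) (_ : Group.IsFinitelyPresented Γ) (q : Γ →* N),
      Function.Surjective q ∧ ∀ i, ∃ t : P i →* Γ, ∀ h, q (t h) = h := by
  intro m
  induction m with
  | zero =>
    intro P _
    obtain ⟨α, hα, φ, hφ⟩ := Group.fg_iff_exists_freeGroup_hom_surjective_finite.1 hN
    exact ⟨FreeGroup α, inferInstance, inferInstance, φ, hφ, fun i => i.elim0⟩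
  | succ m ih =>
    intro P hP
    obtain ⟨Γ, hΓ, hΓ', q, hq, hτ⟩ := ih (fun i => P i.succ) (fun i => hP i.succ)
    have hP0 := hP 0
    refine ⟨Monoid.Coprod Γ (P 0), inferInstance, inferInstance,
      Monoid.Coprod.lift q (P 0).subtype, ?_, ?_⟩
    · intro x
      obtain ⟨y, rfl⟩ := hq x
      exact ⟨Monoid.Coprod.inl y, by rw [Monoid.Coprod.lift_apply_inl]⟩
    · intro i
      refine Fin.cases ?_ (fun i => ?_) i
      · exact ⟨Monoid.Coprod.inr, fun h => by rw [Monoid.Coprod.lift_apply_inr]; rfl⟩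
      · obtain ⟨t, ht⟩ := hτ i
        refine ⟨Monoid.Coprod.inl.comp t, fun h => ?_⟩
        rw [MonoidHom.comp_apply, Monoid.Coprod.lift_apply_inl]
        exact ht h

/-- A finitely generated group is a quotient of a finitely presented group to which finitely many
given finitely presented subgroups lift.

Proof. Induction on the finite type `ι`: prove by induction on `m` (`ι ≃ Fin m`) the statement for
`Fin m`, or use `Finite.induction_empty_option`. For the empty type take a surjection from `FreeGroup (Fin n)`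
(`Group.fg_iff_exists_freeGroup_hom_surjective_finite` or a similar lemma; `FreeGroup.lift` of an
enumeration of a finite generating set). For one more subgroup `P₀`:
`Γ' = Monoid.Coprod Γ P₀`, finitely presented by an instance of Mathlib, `q' = Monoid.Coprod.lift q P₀.subtype`,
`τ' = Monoid.Coprod.inl.comp τ` on the old indices and `Monoid.Coprod.inr` on the new one. -/
theorem exists_cover {N : Type} [Group N] (hN : Group.FG N) {ι : Type*} [Finite ι]
    (P : ι → Subgroup N) (hP : ∀ i, Group.IsFinitelyPresented (P i)) :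
    ∃ (Γ : Type) (_ : Group Γ) (_ : Group.IsFinitelyPresented Γ) (q : Γ →* N),
      Function.Surjective q ∧ ∃ τ : (i : ι) → P i →* Γ, ∀ i h, q (τ i h) = h := by
  obtain ⟨m, ⟨e⟩⟩ := Finite.exists_equiv_fin ι
  obtain ⟨Γ, hΓ, hΓ', q, hq, hτ⟩ := FpD_fin hN m (fun i => P (e.symm i)) (fun i => hP (e.symm i))
  have h2 : ∀ i, ∃ t : P i →* Γ, ∀ h, q (t h) = h := by
    intro i
    obtain ⟨j, rfl⟩ := e.symm.surjective i
    exact hτ j
  choose τ hτ' using h2
  exact ⟨Γ, hΓ, hΓ', q, hq, τ, hτ'⟩

end RCan
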