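import Pool.Agent.W_04c03c_h58.FpC
import Pool.Agent.W_04c03c_h58.FpD
/-!
# Groups with an interface are finitely presented
-/

namespace RCan

open MulAction

/-- Groups with an interface are finitely presented if the stabilizers of the cusps are. -/
theorem face_fp {N : Type} {Ξ V : Type*} [Group N] [MulAction N Ξ] [MulAction N V]
    {sm : V → V → Prop} {cusp : V → Option Ξ} (hF : Face N Ξ V sm cusp) (hN : Group.FG N)
    (hfin : Finite (orbitRel.Quotient N Ξ))
    (hP : ∀ ξ : Ξ, Group.IsFinitelyPresented (stabilizer N ξ)) : Group.IsFinitelyPresented N := by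
  classical
  let ξ : orbitRel.Quotient N Ξ → Ξ := Quotient.out
  have hc : ∀ η : Ξ, ∃ (i : orbitRel.Quotient N Ξ) (g : N), g • ξ i = η := by
    intro η
    refine ⟨Quotient.mk'' η, ?_⟩
    have h1 : (orbitRel N Ξ) (ξ (Quotient.mk'' η)) η := Quotient.exact (Quotient.out_eq _)
    rw [orbitRel_apply, mem_orbit_iff] at h1
    obtain ⟨g, hg⟩ := h1
    exact ⟨g⁻¹, by rw [← hg, inv_smul_smul]⟩
  have hd : ∀ (i j : orbitRel.Quotient N Ξ) (g : N), g • ξ i = ξ j → i = j := by
    intro i j g hg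
    have h1 : (orbitRel N Ξ) (ξ j) (ξ i) := by
      rw [orbitRel_apply, mem_orbit_iff]
      exact ⟨g, hg⟩
    have h2 : (Quotient.mk'' (ξ j) : orbitRel.Quotient N Ξ) = Quotient.mk'' (ξ i) :=
      Quotient.sound h1
    have h3 : ∀ i : orbitRel.Quotient N Ξ, (Quotient.mk'' (ξ i) : orbitRel.Quotient N Ξ) = i :=
      fun i => Quotient.out_eq i
    rw [h3, h3] at h2
    exact h2.symm
  obtain ⟨Γ, _, hΓ, q, hq, τ, hτ⟩ := exists_cover hN (fun i => stabilizer N (ξ i)) (fun i => hP _)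
  obtain ⟨S, hS, hk, s, hs⟩ := fp_section hF ξ hc hd q hq τ hτ
  haveI := hΓ
  have h1 : Group.IsFinitelyPresented (Γ ⧸ Subgroup.normalClosure S) :=
    Group.IsFinitelyPresented.quotient _ ⟨S, hS, rfl⟩
  exact fp_of_retract h1 _ s hs

end RCan
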