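import Mathlib

/-!
# The free group of rank two is residually finite
-/

namespace RCan

theorem FrA_extend {X : Type} [Fintype X] (R : X → X → Prop)
    (h1 : ∀ a b b', R a b → R a b' → b = b') (h2 : ∀ a a' b, R a b → R a' b → a = a') :
    ∃ σ : Equiv.Perm X, ∀ a b, R a b → σ a = b := by
  classical
  obtain ⟨f, hf⟩ : ∃ f : X → X, ∀ a b, R a b → f a = b := by
    refine ⟨fun a => if h : ∃ b, R a b then h.choose else a, ?_⟩
    intro a b hab
    have h : ∃ b, R a b := ⟨b, hab⟩
    simp only [dif_pos h]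
    exact h1 a _ b h.choose_spec hab
  obtain ⟨s, hs⟩ : ∃ s : Finset X, ∀ a, a ∈ s ↔ ∃ b, R a b :=
    ⟨Finset.univ.filter fun a => ∃ b, R a b, fun a => by simp⟩
  have hinj : Set.InjOn f s := by
    intro a ha a' ha' haa
    obtain ⟨b, hb⟩ := (hs a).1 ha
    obtain ⟨b', hb'⟩ := (hs a').1 ha'
    rw [hf a b hb, hf a' b' hb'] at haa
    rw [← haa] at hb'
    exact h2 a a' b hb hb'
  obtain ⟨g, hg⟩ := Finset.exists_equiv_extend_of_card_eq (α := X) (β := X) (t := Finset.univ)
    (Finset.card_univ).symm (s := s) (f := f) (Finset.subset_univ _) hinj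
  refine ⟨g.trans (Equiv.subtypeUnivEquiv fun x => Finset.mem_univ x), fun a b hab => ?_⟩
  have h3 := hg a ((hs a).2 ⟨b, hab⟩)
  rw [hf a b hab] at h3
  exact h3

theorem FrA_chain {L : List (Fin 2 × Bool)} (hL : FreeGroup.IsReduced L) (l : ℕ)
    (h : l + 1 < L.length) (hs : (L[l]).1 = (L[l + 1]).1) : (L[l]).2 = (L[l + 1]).2 := by
  have h1 := List.isChain_iff_getElem.1 hL l h
  exact h1 hs

theorem FrA_perm {L : List (Fin 2 × Bool)} (hL : FreeGroup.IsReduced L) (s : Fin 2) :
    ∃ σ : Equiv.Perm (Fin (L.length + 1)), ∀ (l : ℕ) (h : l < L.length),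
      ((L[l]).1 = s → (L[l]).2 = true → σ ⟨l + 1, by omega⟩ = ⟨l, by omega⟩) ∧
      ((L[l]).1 = s → (L[l]).2 = false → σ ⟨l, by omega⟩ = ⟨l + 1, by omega⟩) := by
  obtain ⟨σ, hσ⟩ := FrA_extend (X := Fin (L.length + 1)) (fun a b =>
    ∃ (l : ℕ) (h : l < L.length), (L[l]).1 = s ∧
      (((L[l]).2 = true ∧ a.1 = l + 1 ∧ b.1 = l) ∨ ((L[l]).2 = false ∧ a.1 = l ∧ b.1 = l + 1)))
    (by
      rintro a b b' ⟨l, h, hs, h1⟩ ⟨l', h', hs', h1'⟩
      rcases h1 with ⟨h1, h2, h3⟩ | ⟨h1, h2, h3⟩ <;> rcases h1' with ⟨h1', h2', h3'⟩ | ⟨h1', h2', h3'⟩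
      · exact Fin.ext (by omega)
      · have h4 : l' = l + 1 := by omega
        subst h4
        have h5 := FrA_chain hL l h' (hs.trans hs'.symm)
        rw [h1, h1'] at h5
        exact absurd h5 (by simp)
      · have h4 : l = l' + 1 := by omega
        subst h4
        have h5 := FrA_chain hL l' h (hs'.trans hs.symm)
        rw [h1, h1'] at h5
        exact absurd h5 (by simp)
      · exact Fin.ext (by omega))
    (by
      rintro a a' b ⟨l, h, hs, h1⟩ ⟨l', h', hs', h1'⟩
      rcases h1 with ⟨h1, h2, h3⟩ | ⟨h1, h2, h3⟩ <;> rcases h1' with ⟨h1', h2', h3'⟩ | ⟨h1', h2', h3'⟩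
      · exact Fin.ext (by omega)
      · have h4 : l = l' + 1 := by omega
        subst h4
        have h5 := FrA_chain hL l' h (hs'.trans hs.symm)
        rw [h1, h1'] at h5
        exact absurd h5 (by simp)
      · have h4 : l' = l + 1 := by omega
        subst h4
        have h5 := FrA_chain hL l h' (hs.trans hs'.symm)
        rw [h1, h1'] at h5
        exact absurd h5 (by simp)
      · exact Fin.ext (by omega))
  refine ⟨σ, fun l h => ⟨fun h1 h2 => ?_, fun h1 h2 => ?_⟩⟩
  · exact hσ _ _ ⟨l, h, h1, Or.inl ⟨h2, rfl, rfl⟩⟩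
  · exact hσ _ _ ⟨l, h, h1, Or.inr ⟨h2, rfl, rfl⟩⟩

theorem FrA_prod {m : ℕ} (P : List (Equiv.Perm (Fin (m + 1)))) (j : ℕ) (hj : j + P.length = m)
    (hP : ∀ (i : ℕ) (h : i < P.length), (P[i]) ⟨j + i + 1, by omega⟩ = ⟨j + i, by omega⟩) :
    P.prod ⟨m, by omega⟩ = ⟨j, by omega⟩ := by
  induction P generalizing j with
  | nil =>
    simp only [List.length_nil] at hj
    simp only [List.prod_nil, Equiv.Perm.coe_one, id_eq]
    exact Fin.ext (show m = j by omega)
  | cons p P ih =>
    simp only [List.length_cons] at hj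
    rw [List.prod_cons, Equiv.Perm.mul_apply, ih (j + 1) (by omega)]
    · have h0 := hP 0 (by simp)
      simpa using h0
    · intro i hi
      have h0 := hP (i + 1) (by simp; omega)
      rw [List.getElem_cons_succ] at h0
      have e1 : (⟨j + (i + 1) + 1, by omega⟩ : Fin (m + 1)) = ⟨j + 1 + i + 1, by omega⟩ :=
        Fin.ext (show j + (i + 1) + 1 = j + 1 + i + 1 by omega)
      have e2 : (⟨j + (i + 1), by omega⟩ : Fin (m + 1)) = ⟨j + 1 + i, by omega⟩ :=
        Fin.ext (show j + (i + 1) = j + 1 + i by omega)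
      rw [e1, e2] at h0
      exact h0

/-- Residual finiteness of the free group.

Proof. It is enough to find a homomorphism `f : FreeGroup (Fin 2) →* Equiv.Perm (Fin (n + 1))` with
`f g ≠ 1` (then `K = f.ker`). Let `g.toWord = [(x 0, e 0), ..., (x (n-1), e (n-1))]` be the reduced word.
For each generator `s` define a partial injection of `Fin (n + 1)`: for `l < n` with `x l = s` it sends
`l + 1 ↦ l` if `e l = true` and `l ↦ l + 1` if `e l = false` (so that, reading the product from the right,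
`g` sends `n` to `0`); it is injective and well defined because the word is reduced. Every partial
injection of a finite set extends to a permutation (for instance `Equiv.extendSubtype`, or
`Finset.exists_equiv_extend_of_card_eq`). Then `f g n = 0 ≠ n` because `n ≥ 1`. (Another proof: the
homomorphism to `SL₂(ℤ)` with the matrices `[1 2; 0 1]`, `[1 0; 2 1]` is injective by the ping-pong lemma of
Mathlib (`FreeGroup.injective_lift_of_ping_pong`), then reduce modulo a large integer. Choose what is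
easier.) -/
theorem free_rf (g : FreeGroup (Fin 2)) (hg : g ≠ 1) :
    ∃ K : Subgroup (FreeGroup (Fin 2)), K.Normal ∧ K.FiniteIndex ∧ g ∉ K := by
  classical
  have hL : FreeGroup.IsReduced g.toWord := FreeGroup.isReduced_toWord
  have hne : g.toWord ≠ [] := fun h => hg (FreeGroup.toWord_eq_nil_iff.1 h)
  have hlen : 0 < g.toWord.length := List.length_pos_iff.2 hne
  have hmk : FreeGroup.mk g.toWord = g := FreeGroup.mk_toWord
  generalize g.toWord = L at hL hne hlen hmk
  choose σ hσ using FrA_perm hL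
  let f : FreeGroup (Fin 2) →* Equiv.Perm (Fin (L.length + 1)) := FreeGroup.lift σ
  refine ⟨f.ker, inferInstance, ?_, ?_⟩
  · have : Finite f.range := inferInstance
    exact Subgroup.finiteIndex_ker f
  · intro hk
    have h1 : f g = 1 := hk
    have h2 : f g = (L.map fun x => cond x.2 (σ x.1) (σ x.1)⁻¹).prod := by
      rw [← hmk]
      exact FreeGroup.lift_mk
    have h3 := FrA_prod (L.map fun x => cond x.2 (σ x.1) (σ x.1)⁻¹) 0 (by simp) (by
      intro i hi
      have hi' : i < L.length := by simpa using hi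
      rw [List.getElem_map]
      obtain ⟨h4, h5⟩ := hσ (L[i]).1 i hi'
      rcases hb : (L[i]).2 with _ | _
      · have h6 := h5 rfl hb
        simp only [cond_false]
        rw [Equiv.Perm.inv_eq_iff_eq]
        simpa using h6.symm
      · have h6 := h4 rfl hb
        simp only [cond_true]
        simpa using h6)
    rw [← h2, h1] at h3
    rw [Equiv.Perm.one_apply] at h3
    have h7 : L.length = 0 := congrArg Fin.val h3
    omega

/-- Proof. `(w i) ^ j ≠ 1` for `0 < j` (free groups are torsion-free, in Mathlib: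
`FreeGroup.infinite_order` or the instance `IsMulTorsionFree (FreeGroup α)`); intersect the finitely many
subgroups of `free_rf` for `(w i) ^ j`, `i : Fin n`, `0 < j ≤ m`. -/
theorem free_orders {n : ℕ} (w : Fin n → FreeGroup (Fin 2)) (hw : ∀ i, w i ≠ 1) (m : ℕ) :
    ∃ K : Subgroup (FreeGroup (Fin 2)), K.Normal ∧ K.FiniteIndex ∧
      ∀ i j, 0 < j → j ≤ m → (w i) ^ j ∉ K := by
  classical
  choose K hK1 hK2 hK3 using fun g : {g : FreeGroup (Fin 2) // g ≠ 1} => free_rf g.1 g.2
  have hne : ∀ (i : Fin n) (j : ℕ), (w i) ^ (j + 1) ≠ 1 := by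
    intro i j h
    exact hw i ((pow_eq_one_iff_left (Nat.succ_ne_zero j)).1 h)
  refine ⟨⨅ p : Fin n × Fin m, K ⟨(w p.1) ^ (p.2.1 + 1), hne p.1 p.2.1⟩, ?_, ?_, ?_⟩
  · exact Subgroup.normal_iInf_normal fun p => hK1 _
  · exact Subgroup.finiteIndex_iInf fun p => hK2 _
  · intro i j h0 hj hmem
    have h1 := (Subgroup.mem_iInf.1 hmem) (i, ⟨j - 1, by omega⟩)
    have h2 : j - 1 + 1 = j := by omega
    refine hK3 ⟨(w i) ^ ((j - 1) + 1), hne i (j - 1)⟩ ?_
    simp only [h2]
    simp only [h2] at h1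
    exact h1

end RCan
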