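import Mathlib

/-!
# A homomorphism of a finite index subgroup of a free group which kills given powers
-/

namespace RCan

/-- The action of a group on the functions on it by translations. -/
noncomputable def FrC_A {Q : Type} [Group Q] (q : Q) : (Q → ℚ) →ₗ[ℚ] (Q → ℚ) :=
  LinearMap.funLeft ℚ ℚ (fun x => q⁻¹ * x)

theorem FrC_A_apply {Q : Type} [Group Q] (q : Q) (u : Q → ℚ) (x : Q) :
    FrC_A q u x = u (q⁻¹ * x) := rfl

theorem FrC_A_mul {Q : Type} [Group Q] (p q : Q) (u : Q → ℚ) :
    FrC_A (p * q) u = FrC_A p (FrC_A q u) := by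
  funext x
  simp only [FrC_A_apply, mul_inv_rev, mul_assoc]

theorem FrC_A_one {Q : Type} [Group Q] (u : Q → ℚ) :
    FrC_A (1 : Q) u = u := by
  funext x
  simp only [FrC_A_apply, inv_one, one_mul]

/-- The crossed homomorphisms. -/
noncomputable def FrC_Der {Q : Type} [Group Q] (π : FreeGroup (Fin 2) →* Q) :
    Submodule ℚ (FreeGroup (Fin 2) → Q → ℚ) where
  carrier := {f | ∀ g h, f (g * h) = f g + FrC_A (π g) (f h)}
  add_mem' := by
    intro a b ha hb g h
    simp only [Set.mem_setOf_eq] at ha hb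
    simp only [Pi.add_apply, ha g h, hb g h, map_add]
    abel
  zero_mem' := by
    intro g h
    simp
  smul_mem' := by
    intro c a ha g h
    simp only [Set.mem_setOf_eq] at ha
    simp only [Pi.smul_apply, ha g h, map_smul, smul_add]

theorem FrC_mem {Q : Type} [Group Q] {π : FreeGroup (Fin 2) →* Q}
    {f : FreeGroup (Fin 2) → Q → ℚ} (hf : f ∈ FrC_Der π) (g h : FreeGroup (Fin 2)) :
    f (g * h) = f g + FrC_A (π g) (f h) := hf g h

theorem FrC_at_one {Q : Type} [Group Q] {π : FreeGroup (Fin 2) →* Q}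
    {f : FreeGroup (Fin 2) → Q → ℚ} (hf : f ∈ FrC_Der π) : f 1 = 0 := by
  have h := FrC_mem hf 1 1
  rw [mul_one, map_one, FrC_A_one] at h
  exact left_eq_add.mp h

theorem FrC_inv {Q : Type} [Group Q] {π : FreeGroup (Fin 2) →* Q}
    {f : FreeGroup (Fin 2) → Q → ℚ} (hf : f ∈ FrC_Der π) {g : FreeGroup (Fin 2)}
    (hg : f g = 0) : f g⁻¹ = 0 := by
  have h := FrC_mem hf g⁻¹ g
  rw [inv_mul_cancel, FrC_at_one hf, hg, map_zero, add_zero] at h
  exact h.symm

theorem FrC_pow {Q : Type} [Group Q] {π : FreeGroup (Fin 2) →* Q}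
    {f : FreeGroup (Fin 2) → Q → ℚ} (hf : f ∈ FrC_Der π) {g : FreeGroup (Fin 2)}
    (hg : f g = 0) (l : ℕ) : f (g ^ l) = 0 := by
  induction l with
  | zero => rw [pow_zero]; exact FrC_at_one hf
  | succ l ih => rw [pow_succ, FrC_mem hf, ih, hg, map_zero, add_zero]

/-- Evaluation at the generators. -/
noncomputable def FrC_ev {Q : Type} [Group Q] (π : FreeGroup (Fin 2) →* Q) :
    FrC_Der π →ₗ[ℚ] (Fin 2 → Q → ℚ) where
  toFun f i := f.1 (FreeGroup.of i)
  map_add' _ _ := rfl
  map_smul' _ _ := rfl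

theorem FrC_ev_inj {Q : Type} [Group Q] (π : FreeGroup (Fin 2) →* Q) :
    Function.Injective (FrC_ev π) := by
  rw [← LinearMap.ker_eq_bot, LinearMap.ker_eq_bot']
  intro f hf
  have h0 : ∀ i, f.1 (FreeGroup.of i) = 0 := fun i => congrFun hf i
  have h1 : ∀ g, f.1 g = 0 := by
    intro g
    induction g using FreeGroup.induction_on with
    | C1 => exact FrC_at_one f.2
    | of i => exact h0 i
    | inv_of i _ => exact FrC_inv f.2 (h0 i)
    | mul a b ha hb => rw [FrC_mem f.2, ha, hb, map_zero, add_zero]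
  apply Subtype.ext
  funext g
  exact h1 g

/-- The affine map of a generator. -/
noncomputable def FrC_gen {Q : Type} [Group Q] (q : Q) (u : Q → ℚ) : Equiv.Perm (Q → ℚ) where
  toFun x := FrC_A q x + u
  invFun y := FrC_A q⁻¹ (y - u)
  left_inv x := by
    show FrC_A q⁻¹ (FrC_A q x + u - u) = x
    rw [add_sub_cancel_right, ← FrC_A_mul, inv_mul_cancel, FrC_A_one]
  right_inv y := by
    show FrC_A q (FrC_A q⁻¹ (y - u)) + u = y
    rw [← FrC_A_mul, mul_inv_cancel, FrC_A_one, sub_add_cancel]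

theorem FrC_ev_surj {Q : Type} [Group Q] (π : FreeGroup (Fin 2) →* Q) :
    Function.Surjective (FrC_ev π) := by
  intro u
  let L : FreeGroup (Fin 2) →* Equiv.Perm (Q → ℚ) :=
    FreeGroup.lift (fun i => FrC_gen (π (FreeGroup.of i)) (u i))
  have hinv : ∀ g, (∀ x y, L g x - L g y = FrC_A (π g) (x - y)) →
      ∀ x y, L g⁻¹ x - L g⁻¹ y = FrC_A (π g⁻¹) (x - y) := by
    intro g hg x y
    have h1 := hg (L g⁻¹ x) (L g⁻¹ y)
    have h2 : ∀ z, L g (L g⁻¹ z) = z := by
      intro z
      rw [← Equiv.Perm.mul_apply, ← map_mul, mul_inv_cancel, map_one, Equiv.Perm.one_apply]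
    rw [h2, h2] at h1
    rw [h1, ← FrC_A_mul, ← map_mul, inv_mul_cancel, map_one, FrC_A_one]
  have hof : ∀ i, ∀ x y, L (FreeGroup.of i) x - L (FreeGroup.of i) y
      = FrC_A (π (FreeGroup.of i)) (x - y) := by
    intro i x y
    have h1 : L (FreeGroup.of i) = FrC_gen (π (FreeGroup.of i)) (u i) := by
      simp [L]
    rw [h1]
    show FrC_A (π (FreeGroup.of i)) x + u i - (FrC_A (π (FreeGroup.of i)) y + u i) = _
    rw [map_sub]
    abel
  have hL : ∀ g, ∀ x y, L g x - L g y = FrC_A (π g) (x - y) := by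
    intro g
    induction g using FreeGroup.induction_on with
    | C1 => 
      intro x y
      rw [map_one, map_one, FrC_A_one, Equiv.Perm.one_apply, Equiv.Perm.one_apply]
    | of i => exact hof i
    | inv_of i _ => exact hinv _ (hof i)
    | mul a b ha hb => 
      intro x y
      rw [map_mul, Equiv.Perm.mul_apply, Equiv.Perm.mul_apply, ha, hb, ← FrC_A_mul, ← map_mul]
  refine ⟨⟨fun g => L g 0, ?_⟩, ?_⟩
  · intro g h
    show L (g * h) 0 = L g 0 + FrC_A (π g) (L h 0)
    have h1 := hL g (L h 0) 0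
    rw [sub_zero] at h1
    rw [map_mul, Equiv.Perm.mul_apply, ← h1]
    abel
  · funext i
    show L (FreeGroup.of i) 0 = u i
    have h1 : L (FreeGroup.of i) = FrC_gen (π (FreeGroup.of i)) (u i) := by
      simp [L]
    rw [h1]
    show FrC_A (π (FreeGroup.of i)) 0 + u i = u i
    rw [map_zero, zero_add]

theorem FrC_finite {Q : Type} [Group Q] [Finite Q] (π : FreeGroup (Fin 2) →* Q) :
    Module.Finite ℚ (FrC_Der π) :=
  Module.Finite.of_injective (FrC_ev π) (FrC_ev_inj π)

theorem FrC_finrank {Q : Type} [Group Q] [Finite Q] (π : FreeGroup (Fin 2) →* Q) :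
    Module.finrank ℚ (FrC_Der π) = 2 * Nat.card Q := by
  haveI := Fintype.ofFinite Q
  rw [(LinearEquiv.ofBijective (FrC_ev π) ⟨FrC_ev_inj π, FrC_ev_surj π⟩).finrank_eq]
  rw [Module.finrank_pi_fintype]
  simp [Nat.card_eq_fintype_card]

/-- The fixed functions. -/
noncomputable def FrC_Fix {Q : Type} [Group Q] (q : Q) : Submodule ℚ (Q → ℚ) :=
  LinearMap.ker (FrC_A q - LinearMap.id)

theorem FrC_mem_Fix {Q : Type} [Group Q] (q : Q) (u : Q → ℚ) :
    u ∈ FrC_Fix q ↔ FrC_A q u = u := by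
  unfold FrC_Fix
  rw [LinearMap.mem_ker, LinearMap.sub_apply, LinearMap.id_apply, sub_eq_zero]

theorem FrC_Fix_inv {Q : Type} [Group Q] (q : Q) (u : Q → ℚ) (hu : u ∈ FrC_Fix q) (h : Q)
    (hh : h ∈ Subgroup.zpowers q) (x : Q) : u (h * x) = u x := by
  rw [FrC_mem_Fix] at hu
  have h1 : ∀ x, u (q⁻¹ * x) = u x := fun x => by
    have := congrFun hu x
    rwa [FrC_A_apply] at this
  have h2 : ∀ x, u (q * x) = u x := fun x => by
    have := h1 (q * x)
    rw [inv_mul_cancel_left] at this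
    exact this.symm
  let S : Subgroup Q :=
    { carrier := {h | ∀ x, u (h * x) = u x}
      mul_mem' := by
        intro a b ha hb x
        rw [mul_assoc, ha, hb]
      one_mem' := by
        intro x
        rw [one_mul]
      inv_mem' := by
        intro a ha x
        have := ha (a⁻¹ * x)
        rw [mul_inv_cancel_left] at this
        exact this.symm }
  have h3 : Subgroup.zpowers q ≤ S := by
    rw [Subgroup.zpowers_le]
    exact h2
  exact h3 hh x

theorem FrC_Fix_finrank {Q : Type} [Group Q] [Finite Q] (q : Q) :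
    orderOf q * Module.finrank ℚ (FrC_Fix q) ≤ Nat.card Q := by
  haveI := Fintype.ofFinite Q
  let T := Quotient (QuotientGroup.rightRel (Subgroup.zpowers q))
  haveI : Finite T := Quotient.finite _
  haveI := Fintype.ofFinite T
  let c : Q → T := fun x => Quotient.mk _ x
  let ψ : (T → ℚ) →ₗ[ℚ] (Q → ℚ) := LinearMap.funLeft ℚ ℚ c
  have h1 : FrC_Fix q ≤ LinearMap.range ψ := by
    intro u hu
    refine ⟨fun t => Quotient.liftOn t u ?_, ?_⟩
    · intro a b hab
      have h2 : QuotientGroup.rightRel (Subgroup.zpowers q) a b := hab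
      rw [QuotientGroup.rightRel_apply] at h2
      have h3 := FrC_Fix_inv q u hu _ h2 a
      rw [inv_mul_cancel_right] at h3
      exact h3.symm
    · funext x
      rfl
  have h2 : Module.finrank ℚ (FrC_Fix q) ≤ Nat.card T := by
    calc Module.finrank ℚ (FrC_Fix q) ≤ Module.finrank ℚ (LinearMap.range ψ) :=
          Submodule.finrank_mono h1
      _ ≤ Module.finrank ℚ (T → ℚ) := LinearMap.finrank_range_le ψ
      _ = Nat.card T := by
          rw [Module.finrank_fintype_fun_eq_card, Nat.card_eq_fintype_card]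
  have h3 : Nat.card T = (Subgroup.zpowers q).index :=
    Nat.card_congr (QuotientGroup.quotientRightRelEquivQuotientLeftRel _)
  have h4 := Subgroup.card_mul_index (Subgroup.zpowers q)
  rw [Nat.card_zpowers] at h4
  calc orderOf q * Module.finrank ℚ (FrC_Fix q) ≤ orderOf q * Nat.card T :=
        Nat.mul_le_mul_left _ h2
    _ = Nat.card Q := by rw [h3, h4]

theorem FrC_val_fix {Q : Type} [Group Q] (π : FreeGroup (Fin 2) →* Q)
    {f : FreeGroup (Fin 2) → Q → ℚ} (hf : f ∈ FrC_Der π) (w : FreeGroup (Fin 2)) (m : ℕ)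
    (hm : π w ^ m = 1) : f (w ^ m) ∈ FrC_Fix (π w) := by
  rw [FrC_mem_Fix]
  have h1 : w * w ^ m = w ^ m * w := by rw [← pow_succ', ← pow_succ]
  have h2 := FrC_mem hf w (w ^ m)
  rw [h1, FrC_mem hf, map_pow, hm, FrC_A_one, add_comm] at h2
  exact (add_left_cancel h2).symm

/-- The values at powers of given elements. -/
noncomputable def FrC_C {Q : Type} [Group Q] (π : FreeGroup (Fin 2) →* Q) {n : ℕ}
    (w : Fin n → FreeGroup (Fin 2)) :
    FrC_Der π →ₗ[ℚ] ((i : Fin n) → FrC_Fix (π (w i))) where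
  toFun f i := ⟨f.1 (w i ^ orderOf (π (w i))), FrC_val_fix π f.2 (w i) _ (pow_orderOf_eq_one _)⟩
  map_add' _ _ := rfl
  map_smul' _ _ := rfl

theorem FrC_ker {Q : Type} [Group Q] [Finite Q] (π : FreeGroup (Fin 2) →* Q) {n : ℕ}
    (w : Fin n → FreeGroup (Fin 2)) (hw : ∀ i, n + 1 ≤ orderOf (π (w i))) :
    Nat.card Q < Module.finrank ℚ (LinearMap.ker (FrC_C π w)) := by
  haveI := FrC_finite π
  have h1 := LinearMap.finrank_range_add_finrank_ker (FrC_C π w)
  rw [FrC_finrank] at h1
  have h2 : Module.finrank ℚ (LinearMap.range (FrC_C π w)) ≤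
      ∑ i : Fin n, Module.finrank ℚ (FrC_Fix (π (w i))) := by
    calc Module.finrank ℚ (LinearMap.range (FrC_C π w)) ≤
        Module.finrank ℚ ((i : Fin n) → FrC_Fix (π (w i))) := Submodule.finrank_le _
      _ = ∑ i : Fin n, Module.finrank ℚ (FrC_Fix (π (w i))) := Module.finrank_pi_fintype ℚ
  have h3 : (n + 1) * ∑ i : Fin n, Module.finrank ℚ (FrC_Fix (π (w i))) ≤ n * Nat.card Q := by
    rw [Finset.mul_sum]
    calc ∑ i : Fin n, (n + 1) * Module.finrank ℚ (FrC_Fix (π (w i)))
        ≤ ∑ _i : Fin n, Nat.card Q := by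
          apply Finset.sum_le_sum
          intro i _
          exact (Nat.mul_le_mul_right _ (hw i)).trans (FrC_Fix_finrank _)
      _ = n * Nat.card Q := by simp
  have h4 : 0 < Nat.card Q := Nat.card_pos
  by_contra hcon
  push Not at hcon
  have h5 : (n + 1) * (2 * Nat.card Q) ≤ n * Nat.card Q + (n + 1) * Nat.card Q := by
    rw [← h1, mul_add]
    exact add_le_add ((Nat.mul_le_mul_left _ h2).trans h3) (Nat.mul_le_mul_left _ hcon)
  nlinarith

/-- The sum over representatives. -/
noncomputable def FrC_S {Q : Type} [Group Q] [Fintype Q] (π : FreeGroup (Fin 2) →* Q)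
    (s : Q → FreeGroup (Fin 2)) : FrC_Der π →ₗ[ℚ] (Q → ℚ) where
  toFun f := ∑ x : Q, f.1 (s x)
  map_add' f g := by
    rw [← Finset.sum_add_distrib]
    rfl
  map_smul' c f := by
    rw [RingHom.id_apply, Finset.smul_sum]
    rfl

theorem FrC_S_inj {Q : Type} [Group Q] [Fintype Q] (π : FreeGroup (Fin 2) →* Q)
    (s : Q → FreeGroup (Fin 2)) (hs : ∀ x, π (s x) = x) (f : FrC_Der π)
    (hf : ∀ k, π k = 1 → f.1 k = 0) (hS : FrC_S π s f = 0) : f = 0 := by
  have h0 : ∀ a b, π a = π b → f.1 a = f.1 b := by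
    intro a b hab
    have h1 : a = b * (b⁻¹ * a) := by rw [mul_inv_cancel_left]
    have h2 : π (b⁻¹ * a) = 1 := by rw [map_mul, map_inv, hab, inv_mul_cancel]
    rw [h1, FrC_mem f.2, hf _ h2, map_zero, add_zero]
  have hS' : ∑ x : Q, f.1 (s x) = 0 := hS
  have h1 : ∀ g, f.1 g = 0 := by
    intro g
    have h2 : ∑ x : Q, f.1 (s (π g * x)) = ∑ x : Q, f.1 (s x) :=
      Fintype.sum_equiv (Equiv.mulLeft (π g)) _ _ (fun x => rfl)
    have h3 : ∀ x, f.1 (s (π g * x)) = f.1 g + FrC_A (π g) (f.1 (s x)) := by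
      intro x
      rw [← FrC_mem f.2]
      apply h0
      rw [hs, map_mul, hs]
    rw [Finset.sum_congr rfl (fun x _ => h3 x), Finset.sum_add_distrib, ← map_sum, hS', map_zero,
      add_zero, Finset.sum_const, Finset.card_univ] at h2
    rcases smul_eq_zero.mp h2 with h4 | h4
    · exact absurd h4 Fintype.card_ne_zero
    · exact h4
  apply Subtype.ext
  funext g
  exact h1 g

theorem FrC_exists {Q : Type} [Group Q] [Finite Q] (π : FreeGroup (Fin 2) →* Q)
    (hπ : Function.Surjective π) {n : ℕ}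
    (w : Fin n → FreeGroup (Fin 2)) (hw : ∀ i, n + 1 ≤ orderOf (π (w i))) :
    ∃ f ∈ FrC_Der π, (∀ i, f (w i ^ orderOf (π (w i))) = 0) ∧ ∃ k, π k = 1 ∧ f k ≠ 0 := by
  haveI := Fintype.ofFinite Q
  haveI := FrC_finite π
  by_contra hcon
  push Not at hcon
  have h1 : ∀ f ∈ LinearMap.ker (FrC_C π w), ∀ k, π k = 1 → f.1 k = 0 := by
    intro f hf k hk
    refine hcon f.1 f.2 ?_ k hk
    intro i
    have h2 : FrC_C π w f i = 0 := congrFun hf i
    exact congrArg Subtype.val h2
  choose s hs using hπ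
  have h2 : Module.finrank ℚ (LinearMap.ker (FrC_C π w)) ≤ Module.finrank ℚ (Q → ℚ) := by
    apply LinearMap.finrank_le_finrank_of_injective
      (f := (FrC_S π s).comp (LinearMap.ker (FrC_C π w)).subtype)
    refine (injective_iff_map_eq_zero _).mpr ?_
    intro f hf
    apply Subtype.ext
    exact FrC_S_inj π s hs f.1 (h1 f.1 f.2) hf
  rw [Module.finrank_fintype_fun_eq_card, ← Nat.card_eq_fintype_card] at h2
  exact absurd (FrC_ker π w hw) (not_lt.mpr h2)

/-- Let `K` be a normal subgroup of finite index of the free group `F` of rank two, such that the orders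
of the `n` elements `w i` modulo `K` are larger than `n`. Then there is a nonzero homomorphism `K → ℚ` which
vanishes on all elements of `K` which are conjugate in `F` to a power of some `w i`.

Proof. `Q = F ⧸ K`, `d = card Q`, `W = (Q → ℚ)` with the action `(g • u) x = u (g⁻¹ * x)` of `F` (`K` acts
trivially as it is normal). `Der` = the space of maps `f : F → W` with `f (g * h) = f g + g • f h`. For all
`u, v : W` there is `f ∈ Der` with `f (of 0) = u`, `f (of 1) = v`: lift of the free group to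
`Equiv.Perm W` with `of 0 ↦ (x ↦ of 0 • x + u)`, `of 1 ↦ (x ↦ of 1 • x + v)`, `f g` = the image of `0`; by
induction on `g` the permutation of `g` is `x ↦ g • x + f g`. Choosing `f` depends linearly on `(u, v)`
(uniqueness by induction), or: `Der` is a finite-dimensional space with a linear bijection to `W × W`, so
`finrank Der = 2 * d`. For `i` let `m i` be the order of `w i` modulo `K`, `m i ≥ n + 1`, and
`c i : Der → W`, `c i f = f ((w i) ^ (m i))`. Since `f (w ^ m) = Σ_{j < m} w ^ j • f w` and `w ^ m` acts trivially,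
`w • c i f = c i f`: the function `c i f` on `Q` is constant on the orbits of left multiplication by `w i`,
which have `m i` elements, so there are `d / m i` orbits and `(n + 1) * finrank (range (c i)) ≤ d`. Hence the
intersection of the kernels of the `n` maps `c i` has dimension `≥ 2 * d - n * d / (n + 1) > d` (`d ≥ 1`).
The subspace `Z` of the `f ∈ Der` which vanish on `K` has dimension `≤ d`: such an `f` is constant on cosets;
the linear map `Z → W`, `f ↦ Σ_{x ∈ Q} f x` is injective, because `f (g * x) = f g + g • f x` summed over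
`x` gives `Σ f = d • f g + g • Σ f`. So there is `f ∈ Der` with all `c i f = 0` and `f k x ≠ 0` for some
`k ∈ K`, `x ∈ Q`. `φ k = f k x` is additive on `K` (`K` acts trivially on `W`). If `g * (w i) ^ j * g⁻¹ ∈ K` then
`(w i) ^ j ∈ K`, `j = m i * l`, `f ((w i) ^ j) = l • c i f = 0` and
`f (g * w ^ j * g⁻¹) = f g + g • f (w ^ j) + g • w ^ j • f g⁻¹ = f g + g • f g⁻¹ = f 1 = 0`. -/
theorem free_count {n : ℕ} (w : Fin n → FreeGroup (Fin 2)) (K : Subgroup (FreeGroup (Fin 2)))
    [K.Normal] [K.FiniteIndex] (hw : ∀ i j, 0 < j → j ≤ n → (w i) ^ j ∉ K) :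
    ∃ φ : Additive K →+ ℚ, φ ≠ 0 ∧ ∀ (i : Fin n) (g : FreeGroup (Fin 2)) (j : ℕ)
      (hj : g * (w i) ^ j * g⁻¹ ∈ K), φ (Additive.ofMul ⟨g * (w i) ^ j * g⁻¹, hj⟩) = 0 := by
  let π : FreeGroup (Fin 2) →* FreeGroup (Fin 2) ⧸ K := QuotientGroup.mk' K
  haveI : Finite (FreeGroup (Fin 2) ⧸ K) := Subgroup.finite_quotient_of_finiteIndex
  have hπK : ∀ g, π g = 1 ↔ g ∈ K := fun g => QuotientGroup.eq_one_iff g
  have hord : ∀ i, n + 1 ≤ orderOf (π (w i)) := by
    intro i
    by_contra hcon
    have h1 : orderOf (π (w i)) ≤ n := by omega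
    apply hw i (orderOf (π (w i))) (orderOf_pos _) h1
    rw [← hπK, map_pow, pow_orderOf_eq_one]
  obtain ⟨f, hf, hf0, k, hk, hfk⟩ := FrC_exists π (QuotientGroup.mk'_surjective K) w hord
  obtain ⟨x, hx⟩ : ∃ x, f k x ≠ 0 := by
    by_contra hcon
    push Not at hcon
    exact hfk (funext hcon)
  have hadd : ∀ a b, a ∈ K → f (a * b) = f a + f b := by
    intro a b ha
    rw [FrC_mem hf, (hπK a).mpr ha, FrC_A_one]
  refine ⟨{ toFun := fun a => f (a.toMul : FreeGroup (Fin 2)) x
            map_zero' := ?_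
            map_add' := ?_ }, ?_, ?_⟩
  · show f 1 x = 0
    rw [FrC_at_one hf]
    rfl
  · intro a b
    show f ((a.toMul : FreeGroup (Fin 2)) * (b.toMul : FreeGroup (Fin 2))) x = _
    rw [hadd _ _ a.toMul.2]
    rfl
  · intro h
    apply hx
    have h1 := DFunLike.congr_fun h (Additive.ofMul ⟨k, (hπK k).mp hk⟩)
    exact h1
  · intro i g j hj
    show f (g * w i ^ j * g⁻¹) x = 0
    have h1 : w i ^ j ∈ K := by
      have h2 := Subgroup.Normal.conj_mem ‹K.Normal› _ hj g⁻¹
      have h3 : g⁻¹ * (g * w i ^ j * g⁻¹) * g⁻¹⁻¹ = w i ^ j := by group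
      rwa [h3] at h2
    have h2 : orderOf (π (w i)) ∣ j := by
      rw [orderOf_dvd_iff_pow_eq_one, ← map_pow]
      exact (hπK _).mpr h1
    obtain ⟨l, rfl⟩ := h2
    have h3 : f (w i ^ (orderOf (π (w i)) * l)) = 0 := by
      rw [pow_mul]
      exact FrC_pow hf (hf0 i) l
    have h4 : f (g * w i ^ (orderOf (π (w i)) * l) * g⁻¹) = 0 := by
      rw [mul_assoc, FrC_mem hf, hadd _ _ h1, h3, zero_add, ← FrC_mem hf, mul_inv_cancel,
        FrC_at_one hf]
    rw [h4]
    rfl

end RCan
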