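import Pool.Agent.W_04c03c_h62.CLA

/-!
# Crossed homomorphisms of free groups
-/

namespace RCan

theorem frd_exists {F α : Type*} [Field F] (χ : FreeGroup α →* Fˣ) (c : α → F) :
    ∃ d : FreeGroup α → F, (∀ g h, d (g * h) = d g + (χ g : F) * d h) ∧
      ∀ a, d (FreeGroup.of a) = c a := by
  classical
  set P : FreeGroup α →* Equiv.Perm F :=
    FreeGroup.lift (fun a => (Units.mulLeft (χ (FreeGroup.of a)) : Equiv.Perm F).trans
      (Equiv.addRight (c a))) with hP
  have hof : ∀ a x, P (FreeGroup.of a) x = (χ (FreeGroup.of a) : F) * x + c a := by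
    intro a x
    rw [hP, FreeGroup.lift_apply_of]
    rfl
  have key : ∀ g x, P g x = (χ g : F) * x + P g 0 := by
    intro g
    induction g using FreeGroup.induction_on with
    | C1 => intro x; simp
    | of a => intro x; rw [hof, hof, mul_zero, zero_add]
    | inv_of a h =>
      intro x
      have h1 : ∀ y, P (FreeGroup.of a)⁻¹ y = ((χ (FreeGroup.of a))⁻¹ : Fˣ) * (y - c a) := by
        intro y
        rw [map_inv, Equiv.Perm.inv_eq_iff_eq, hof]
        rw [← mul_assoc, Units.mul_inv, one_mul, sub_add_cancel]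
      rw [h1, h1, map_inv]
      ring
    | mul g h hg hh =>
      intro x
      rw [map_mul, Equiv.Perm.mul_apply, Equiv.Perm.mul_apply, hg, hh, hg (P h 0), map_mul,
        Units.val_mul]
      ring
  refine ⟨fun g => P g 0, ?_, ?_⟩
  · intro g h
    change P (g * h) 0 = P g 0 + (χ g : F) * P h 0
    rw [map_mul, Equiv.Perm.mul_apply, key g (P h 0)]
    ring
  · intro a
    change P (FreeGroup.of a) 0 = c a
    rw [hof, mul_zero, zero_add]

theorem frd_comm {α : Type*} (h : ∀ a b : α, a = b) (x y : FreeGroup α) : x * y = y * x := by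
  have h1 : ∀ (a : α) (y : FreeGroup α), Commute (FreeGroup.of a) y := by
    intro a y
    induction y using FreeGroup.induction_on with
    | C1 => exact Commute.one_right _
    | of b => rw [h a b]
    | inv_of b hb => exact hb.inv_right
    | mul u v hu hv => exact hu.mul_right hv
  have h2 : Commute x y := by
    induction x using FreeGroup.induction_on with
    | C1 => exact Commute.one_left _
    | of b => exact h1 b y
    | inv_of b hb => exact hb.inv_left
    | mul u v hu hv => exact hu.mul_left hv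
  exact h2

theorem frd_free {F α : Type*} [Field F] (χ : FreeGroup α →* Fˣ)
    (hK : ∃ x y : FreeGroup α, x * y ≠ y * x) :
    ∃ d : FreeGroup α → F, (∀ g h, d (g * h) = d g + (χ g : F) * d h) ∧
      ¬ ∃ m : F, ∀ g, d g = ((χ g : F) - 1) * m := by
  classical
  have hab : ∃ a b : α, a ≠ b := by
    by_contra hcon
    push Not at hcon
    obtain ⟨x, y, hxy⟩ := hK
    exact hxy (frd_comm hcon x y)
  obtain ⟨a, b, hab⟩ := hab
  obtain ⟨d1, hd1, hc1⟩ := frd_exists χ (fun z => if z = a then 1 else 0)
  obtain ⟨d2, hd2, hc2⟩ := frd_exists χ (fun z => if z = b then 1 else 0)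
  by_cases h1 : ∃ m : F, ∀ g, d1 g = ((χ g : F) - 1) * m
  · obtain ⟨m, hm⟩ := h1
    have h3 := hm (FreeGroup.of a)
    have h4 := hm (FreeGroup.of b)
    rw [hc1] at h3 h4
    rw [if_pos rfl] at h3
    rw [if_neg (Ne.symm hab)] at h4
    have hm0 : m ≠ 0 := by
      rintro rfl
      rw [mul_zero] at h3
      exact one_ne_zero h3
    have h5 : (χ (FreeGroup.of b) : F) - 1 = 0 := by
      rcases mul_eq_zero.mp h4.symm with h | h
      · exact h
      · exact absurd h hm0
    refine ⟨d2, hd2, ?_⟩
    rintro ⟨m', hm'⟩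
    have h6 := hm' (FreeGroup.of b)
    rw [hc2, if_pos rfl, h5, zero_mul] at h6
    exact one_ne_zero h6
  · exact ⟨d1, hd1, h1⟩

/-- A non commutative subgroup of a free group has a crossed homomorphism which is not principal, for
every character.

Proof. `K` is free (Nielsen-Schreier, instance `IsFreeGroup K` in Mathlib) with basis
`IsFreeGroup.Generators K`; it has two different basis elements `b₁, b₂` because otherwise `K` would be
commutative. For every function `c` on the basis there is a crossed homomorphism `d` with `d b = c b`: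
`IsFreeGroup.lift` to `Equiv.Perm LF` sending `b` to `x ↦ chiT ψ b * x + c b`, `d g` = the image of `0`; by
induction (or because the affine maps of this shape form a subgroup: prove by
`IsFreeGroup.ext_hom`-like closure induction) the permutation of `g` is `x ↦ chiT ψ g * x + d g`. Let
`d₁` be the one with `c = 1` at `b₁` and `0` elsewhere, and `d₂` the one with `c = 1` at `b₂` and `0`
elsewhere. If `d₁` is principal, `d₁ g = (chiT ψ g - 1) * m`, then `m ≠ 0` and `chiT ψ b₂ = 1`. If also
`d₂ g = (chiT ψ g - 1) * m'` then `1 = d₂ b₂ = 0`, a contradiction. -/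
theorem free_xhom (K : Subgroup (FreeGroup (Fin 2))) (hK : ∃ a ∈ K, ∃ b ∈ K, a * b ≠ b * a)
    (ψ : K →* Multiplicative ℤ) :
    ∃ d : K → Q62.LF,
      (∀ g h, d (g * h) = d g + ((Q62.chiT ψ g : Q62.LFˣ) : Q62.LF) * d h) ∧
      ¬ ∃ m : Q62.LF, ∀ g, d g = (((Q62.chiT ψ g : Q62.LFˣ) : Q62.LF) - 1) * m := by
  classical
  let e : FreeGroup (IsFreeGroup.Generators K) ≃* K := IsFreeGroup.mulEquiv K
  obtain ⟨a, ha, b, hb, hab⟩ := hK
  obtain ⟨d, hd, hn⟩ := frd_free (F := Q62.LF) ((Q62.chiT ψ).comp e.toMonoidHom)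
    ⟨e.symm ⟨a, ha⟩, e.symm ⟨b, hb⟩, by
      intro h
      rw [← map_mul, ← map_mul] at h
      have h2 := e.symm.injective h
      exact hab (congrArg Subtype.val h2)⟩
  refine ⟨fun g => d (e.symm g), ?_, ?_⟩
  · intro g h
    have h1 := hd (e.symm g) (e.symm h)
    rw [← map_mul] at h1
    have h2 : ((Q62.chiT ψ).comp e.toMonoidHom) (e.symm g) = Q62.chiT ψ g := by
      change Q62.chiT ψ (e (e.symm g)) = _
      rw [MulEquiv.apply_symm_apply]
    rw [h2] at h1
    exact h1
  · rintro ⟨m, hm⟩
    apply hn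
    refine ⟨m, fun g => ?_⟩
    have h1 : d (e.symm (e g)) = (((Q62.chiT ψ (e g) : Q62.LFˣ) : Q62.LF) - 1) * m := hm (e g)
    rw [MulEquiv.symm_apply_apply] at h1
    exact h1

end RCan
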