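import Pool.Agent.W_04c03c_h58.FpD
/-!
# Finite extensions of finitely presented groups
-/

namespace RCan

/-- Finite extensions of finitely presented groups are finitely presented.

Proof. Let `Q = H ⧸ A` (finite), `r : Q → H` a section (`Quotient.out`), `T` a finite generating set of `A`,
`Γ₀ = Monoid.Coprod A (FreeGroup Q)`, finitely presented, with `q₀ : Γ₀ →* H`, `inl a ↦ a`,
`x c = inr (of c) ↦ r c`. Let `S ⊆ Γ₀` be the finite set of the elements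
`x c * inl a * (x c)⁻¹ * (inl (r c * a * (r c)⁻¹))⁻¹`, `c ∈ Q`, `a ∈ T`, and
`x c * x d * (inl b * x (c * d))⁻¹`, `c, d ∈ Q`, `b = r c * r d * (r (c * d))⁻¹ ∈ A`. They are in `q₀.ker`, so
`q₀` factors through `q : Γ →* H`, `Γ = Γ₀ ⧸ normalClosure S` (finitely presented). In `Γ`:
`x c * inl a * (x c)⁻¹ = inl (r c * a * (r c)⁻¹)` for all `a ∈ A` (both sides are homomorphisms of `a`).
Define `s : H →* Γ`, `s h = inl (h * (r [h])⁻¹) * x [h]`. For `h = a * r c`, `k = b * r d`: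
`s h * s k = inl a * x c * inl b * x d = inl (a * (r c * b * (r c)⁻¹)) * x c * x d
= inl (a * r c * b * (r c)⁻¹ * (r c * r d * (r (c * d))⁻¹)) * x (c * d) = s (h * k)`. And `q (s h) = h`.
`fp_of_retract`. -/
theorem fp_of_normal {H : Type*} [Group H] (A : Subgroup H) [A.Normal] (hA : A.index ≠ 0)
    (h : Group.IsFinitelyPresented A) : Group.IsFinitelyPresented H := by
  classical
  have hfi : Finite (H ⧸ A) := (Subgroup.fintypeOfIndexNeZero hA).finite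
  obtain ⟨n, φ, hφ, -⟩ := h.out
  -- the section
  let r : H ⧸ A → H := Quotient.out
  have hr : ∀ c : H ⧸ A, ((r c : H) : H ⧸ A) = c := fun c => Quotient.out_eq' c
  have hrA : ∀ g : H, g * (r (g : H ⧸ A))⁻¹ ∈ A := by
    intro g
    rw [← QuotientGroup.eq_one_iff, QuotientGroup.mk_mul, QuotientGroup.mk_inv, hr, mul_inv_cancel]
  have hbA : ∀ c d : H ⧸ A, r c * r d * (r (c * d))⁻¹ ∈ A := by
    intro c d
    rw [← QuotientGroup.eq_one_iff, QuotientGroup.mk_mul, QuotientGroup.mk_inv,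
      QuotientGroup.mk_mul, hr, hr, hr, mul_inv_cancel]
  let bb : H ⧸ A → H ⧸ A → A := fun c d => ⟨r c * r d * (r (c * d))⁻¹, hbA c d⟩
  -- the group before the relations
  let Γ₀ := Monoid.Coprod A (FreeGroup (H ⧸ A))
  let inl : A →* Γ₀ := Monoid.Coprod.inl
  let x : H ⧸ A → Γ₀ := fun c => Monoid.Coprod.inr (FreeGroup.of c)
  let q₀ : Γ₀ →* H := Monoid.Coprod.lift A.subtype (FreeGroup.lift r)
  have hq₀l : ∀ a : A, q₀ (inl a) = a := fun a => Monoid.Coprod.lift_apply_inl _ _ _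
  have hq₀x : ∀ c, q₀ (x c) = r c := by
    intro c
    show Monoid.Coprod.lift A.subtype (FreeGroup.lift r) (Monoid.Coprod.inr (FreeGroup.of c)) = r c
    rw [Monoid.Coprod.lift_apply_inr, FreeGroup.lift_apply_of]
  let S1 : Set Γ₀ := Set.range (fun p : (H ⧸ A) × Fin n =>
    x p.1 * inl (φ (FreeGroup.of p.2)) * (x p.1)⁻¹ *
      (inl (MulAut.conjNormal (r p.1) (φ (FreeGroup.of p.2))))⁻¹)
  let S2 : Set Γ₀ := Set.range (fun p : (H ⧸ A) × (H ⧸ A) =>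
    x p.1 * x p.2 * (inl (bb p.1 p.2) * x (p.1 * p.2))⁻¹)
  let K : Subgroup Γ₀ := Subgroup.normalClosure (S1 ∪ S2)
  have hKn : K.Normal := Subgroup.normalClosure_normal
  have hΓ₀ : Group.IsFinitelyPresented Γ₀ :=
    inferInstanceAs (Group.IsFinitelyPresented (Monoid.Coprod A (FreeGroup (H ⧸ A))))
  have hΓ : Group.IsFinitelyPresented (Γ₀ ⧸ K) :=
    Group.IsFinitelyPresented.quotient K
      ⟨S1 ∪ S2, (Set.finite_range _).union (Set.finite_range _), rfl⟩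
  have hK : K ≤ q₀.ker := by
    apply Subgroup.normalClosure_le_normal
    rintro _ (⟨⟨c, i⟩, rfl⟩ | ⟨⟨c, d⟩, rfl⟩)
    · show q₀ _ = 1
      rw [map_mul, map_mul, map_mul, map_inv, map_inv, hq₀x, hq₀l, hq₀l, MulAut.conjNormal_apply,
        mul_inv_cancel]
    · show q₀ _ = 1
      rw [map_mul, map_mul, map_inv, map_mul, hq₀x, hq₀x, hq₀x, hq₀l]
      show r c * r d * (r c * r d * (r (c * d))⁻¹ * r (c * d))⁻¹ = 1
      rw [inv_mul_cancel_right, mul_inv_cancel]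
  let q : Γ₀ ⧸ K →* H := QuotientGroup.lift K q₀ hK
  have hq : ∀ y : Γ₀, q (y : Γ₀ ⧸ K) = q₀ y := fun y => rfl
  let I : A →* Γ₀ ⧸ K := (QuotientGroup.mk' K).comp inl
  let X : H ⧸ A → Γ₀ ⧸ K := fun c => ((x c : Γ₀) : Γ₀ ⧸ K)
  have hR1 : ∀ (c : H ⧸ A) (a : A), X c * I a * (X c)⁻¹ = I (MulAut.conjNormal (r c) a) := by
    intro c a
    have key : ((MulAut.conj (X c)).toMonoidHom.comp I).comp φ =
        (I.comp (MulAut.conjNormal (r c) : MulAut A).toMonoidHom).comp φ := by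
      apply FreeGroup.ext_hom
      intro i
      have h1 : x c * inl (φ (FreeGroup.of i)) * (x c)⁻¹ *
          (inl (MulAut.conjNormal (r c) (φ (FreeGroup.of i))))⁻¹ ∈ K :=
        Subgroup.subset_normalClosure (Or.inl ⟨(c, i), rfl⟩)
      have h2 := (QuotientGroup.eq_one_iff (N := K) _).2 h1
      rw [QuotientGroup.mk_mul, QuotientGroup.mk_inv, mul_inv_eq_one] at h2
      exact h2
    obtain ⟨w, rfl⟩ := hφ a
    exact DFunLike.congr_fun key w
  have hR2 : ∀ c d : H ⧸ A, X c * X d = I (bb c d) * X (c * d) := by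
    intro c d
    have h1 : x c * x d * (inl (bb c d) * x (c * d))⁻¹ ∈ K :=
      Subgroup.subset_normalClosure (Or.inr ⟨(c, d), rfl⟩)
    have h2 := (QuotientGroup.eq_one_iff (N := K) _).2 h1
    rw [QuotientGroup.mk_mul, QuotientGroup.mk_inv, mul_inv_eq_one] at h2
    exact h2
  let s : H →* Γ₀ ⧸ K := MonoidHom.mk' (fun g => I ⟨g * (r (g : H ⧸ A))⁻¹, hrA g⟩ * X (g : H ⧸ A))
    (by
      intro g k
      have h1 : I ⟨g * (r (g : H ⧸ A))⁻¹, hrA g⟩ * X (g : H ⧸ A) *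
          (I ⟨k * (r (k : H ⧸ A))⁻¹, hrA k⟩ * X (k : H ⧸ A)) =
          I ⟨g * (r (g : H ⧸ A))⁻¹, hrA g⟩ *
          (X (g : H ⧸ A) * I ⟨k * (r (k : H ⧸ A))⁻¹, hrA k⟩ * (X (g : H ⧸ A))⁻¹) *
          (X (g : H ⧸ A) * X (k : H ⧸ A)) := by
        group
      rw [h1, hR1, hR2, ← mul_assoc, ← map_mul, ← map_mul]
      have h2 : (⟨g * k * (r ((g * k : H) : H ⧸ A))⁻¹, hrA (g * k)⟩ : A) =
          ⟨g * (r (g : H ⧸ A))⁻¹, hrA g⟩ *
          (MulAut.conjNormal (r (g : H ⧸ A)) ⟨k * (r (k : H ⧸ A))⁻¹, hrA k⟩) *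
          bb (g : H ⧸ A) (k : H ⧸ A) := by
        apply Subtype.ext
        rw [Subgroup.coe_mul, Subgroup.coe_mul, MulAut.conjNormal_apply]
        show g * k * (r ((g : H ⧸ A) * (k : H ⧸ A)))⁻¹ = g * (r (g : H ⧸ A))⁻¹ *
          (r (g : H ⧸ A) * (k * (r (k : H ⧸ A))⁻¹) * (r (g : H ⧸ A))⁻¹) *
          (r (g : H ⧸ A) * r (k : H ⧸ A) * (r ((g : H ⧸ A) * (k : H ⧸ A)))⁻¹)
        group
      rw [← h2]
      rfl)
  refine fp_of_retract hΓ q s fun g => ?_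
  show q (I ⟨g * (r (g : H ⧸ A))⁻¹, hrA g⟩ * X (g : H ⧸ A)) = g
  rw [map_mul]
  show q₀ (inl ⟨g * (r (g : H ⧸ A))⁻¹, hrA g⟩) * q₀ (x (g : H ⧸ A)) = g
  rw [hq₀l, hq₀x]
  exact inv_mul_cancel_right _ _

end RCan
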