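import Pool.Agent.W_04c03c_h58.FpD
/-!
# `ℤ²` is finitely presented
-/

open scoped commutatorElement

namespace RCan

/-- Proof. Let `F = FreeGroup (Fin 2)`, `x, y` its generators and `Γ = F ⧸ normalClosure {⁅x, y⁆}`, finitely
presented (`Group.IsFinitelyPresented.quotient`). `r : Γ →* Multiplicative (ℤ × ℤ)` with `x ↦ (1, 0)`,
`y ↦ (0, 1)` and `s (a, b) = x ^ a * y ^ b` (a homomorphism because the classes of `x` and `y` commute)
satisfy `r (s m) = m`: `fp_of_retract`. -/
theorem fp_z2 : Group.IsFinitelyPresented (Multiplicative (ℤ × ℤ)) := by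
  let x : FreeGroup (Fin 2) := FreeGroup.of 0
  let y : FreeGroup (Fin 2) := FreeGroup.of 1
  let M : Subgroup (FreeGroup (Fin 2)) := Subgroup.normalClosure {⁅x, y⁆}
  have hΓ : Group.IsFinitelyPresented (FreeGroup (Fin 2) ⧸ M) :=
    Group.IsFinitelyPresented.quotient M ⟨{⁅x, y⁆}, Set.finite_singleton _, rfl⟩
  let φ : FreeGroup (Fin 2) →* Multiplicative (ℤ × ℤ) :=
    FreeGroup.lift ![Multiplicative.ofAdd (1, 0), Multiplicative.ofAdd (0, 1)]
  have hφx : φ x = Multiplicative.ofAdd (1, 0) := by simp [φ, x]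
  have hφy : φ y = Multiplicative.ofAdd (0, 1) := by simp [φ, y]
  have hM : M ≤ φ.ker := by
    refine Subgroup.normalClosure_le_normal ?_
    intro z hz
    rw [Set.mem_singleton_iff.1 hz]
    show φ ⁅x, y⁆ = 1
    rw [map_commutatorElement, commutatorElement_eq_one_iff_mul_comm, mul_comm]
  let r : FreeGroup (Fin 2) ⧸ M →* Multiplicative (ℤ × ℤ) := QuotientGroup.lift M φ hM
  have hr : ∀ z : FreeGroup (Fin 2), r (z : FreeGroup (Fin 2) ⧸ M) = φ z := fun z => rfl
  let X : FreeGroup (Fin 2) ⧸ M := (x : FreeGroup (Fin 2) ⧸ M)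
  let Y : FreeGroup (Fin 2) ⧸ M := (y : FreeGroup (Fin 2) ⧸ M)
  have hXY : Commute X Y := by
    have h1 : (QuotientGroup.mk' M) ⁅x, y⁆ = 1 :=
      (QuotientGroup.eq_one_iff _).2 (Subgroup.subset_normalClosure rfl)
    rw [map_commutatorElement, commutatorElement_eq_one_iff_mul_comm] at h1
    exact h1
  let s : Multiplicative (ℤ × ℤ) →* FreeGroup (Fin 2) ⧸ M :=
    { toFun := fun m => X ^ (Multiplicative.toAdd m).1 * Y ^ (Multiplicative.toAdd m).2
      map_one' := by simp
      map_mul' := fun m m' => by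
        have h1 : Commute (X ^ (Multiplicative.toAdd m').1) (Y ^ (Multiplicative.toAdd m).2) :=
          hXY.zpow_zpow _ _
        rw [toAdd_mul, Prod.fst_add, Prod.snd_add, zpow_add, zpow_add, mul_assoc, mul_assoc,
          ← mul_assoc (X ^ (Multiplicative.toAdd m').1), h1.eq, mul_assoc (Y ^ _)] }
  refine fp_of_retract hΓ r s fun m => ?_
  show r (X ^ (Multiplicative.toAdd m).1 * Y ^ (Multiplicative.toAdd m).2) = m
  rw [map_mul, map_zpow, map_zpow]
  have h1 : r X = Multiplicative.ofAdd (1, 0) := (hr x).trans hφx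
  have h2 : r Y = Multiplicative.ofAdd (0, 1) := (hr y).trans hφy
  rw [h1, h2]
  apply Multiplicative.toAdd.injective
  rw [toAdd_mul, toAdd_zpow, toAdd_zpow, toAdd_ofAdd, toAdd_ofAdd]
  ext <;> simp

end RCan
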