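import Pool.Agent.W_04c03c_h58.GrA
import Pool.Agent.W_04c03c_h58.GrB1
import Pool.Agent.W_04c03c_h58.GrB2
/-!
# Virtually `ℤ²` groups are finitely presented
-/

namespace RCan

theorem VZ.fp {P : Type*} [Group P] (h : VZ P) : Group.IsFinitelyPresented P := by
  obtain ⟨A, hA, hi, ⟨e⟩⟩ := h
  haveI := hA
  haveI := fp_z2
  exact fp_of_normal A hi (Group.IsFinitelyPresented.equiv e.symm)

theorem VZ.fg {P : Type*} [Group P] (h : VZ P) : Group.FG P := by
  obtain ⟨n, φ, hφ, -⟩ := h.fp.out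
  exact Group.fg_of_surjective hφ

end RCan
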