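import Pool.Agent.W_04c03c_h58.GrC
/-!
# Homomorphisms to `ℤ`
-/

namespace RCan

/-- A nontrivial homomorphism to `ℤ` gives a surjective one. -/
theorem grD_surj {P : Type*} [Group P] (ψ : P →* Multiplicative ℤ) (g₀ : P) (h : ψ g₀ ≠ 1) :
    ∃ φ : P →* Multiplicative ℤ, Function.Surjective φ := by
  obtain ⟨d, hd⟩ := Int.subgroup_cyclic (MonoidHom.toAdditiveLeft ψ).range
  have hmem : ∀ g : P, ∃ m : ℤ, m * d = Multiplicative.toAdd (ψ g) := by
    intro g
    have h1 : Multiplicative.toAdd (ψ g) ∈ (MonoidHom.toAdditiveLeft ψ).range :=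
      ⟨Additive.ofMul g, rfl⟩
    rw [hd, AddSubgroup.mem_closure_singleton] at h1
    obtain ⟨m, hm⟩ := h1
    exact ⟨m, by simpa using hm⟩
  have hd0 : d ≠ 0 := by
    rintro rfl
    obtain ⟨m, hm⟩ := hmem g₀
    rw [mul_zero] at hm
    apply h
    apply Multiplicative.toAdd.injective
    rw [← hm]
    rfl
  have hdr : ∃ g₁ : P, Multiplicative.toAdd (ψ g₁) = d := by
    have h1 : d ∈ (MonoidHom.toAdditiveLeft ψ).range := by
      rw [hd]
      exact AddSubgroup.subset_closure rfl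
    obtain ⟨g₁, hg₁⟩ := h1
    exact ⟨Additive.toMul g₁, hg₁⟩
  choose c hc using hmem
  obtain ⟨g₁, hg₁⟩ := hdr
  let φ : P →* Multiplicative ℤ :=
    { toFun := fun g => Multiplicative.ofAdd (c g)
      map_one' := by
        have h1 := hc 1
        rw [map_one, toAdd_one] at h1
        have h2 : c 1 = 0 := by
          rcases mul_eq_zero.1 h1 with h2 | h2
          · exact h2
          · exact absurd h2 hd0
        rw [h2, ofAdd_zero]
      map_mul' := by
        intro a b
        have h1 := hc (a * b)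
        rw [map_mul, toAdd_mul, ← hc a, ← hc b, ← add_mul] at h1
        rw [mul_right_cancel₀ hd0 h1, ofAdd_add] }
  refine ⟨φ, ?_⟩
  intro y
  refine ⟨g₁ ^ (Multiplicative.toAdd y), ?_⟩
  have h1 : c g₁ = 1 := by
    have h2 := hc g₁
    rw [hg₁] at h2
    have h3 : c g₁ * d = 1 * d := by rw [h2, one_mul]
    exact mul_right_cancel₀ hd0 h3
  rw [map_zpow]
  show (Multiplicative.ofAdd (c g₁)) ^ (Multiplicative.toAdd y) = y
  rw [h1, ← ofAdd_zsmul]
  simp

/-- Torsion-free virtually `ℤ²` groups map onto `ℤ`.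

Proof. Let `A` be the normal subgroup, `e : A ≃* Multiplicative (ℤ × ℤ)`, `z` from `exists_central`, and
`t : P →* Multiplicative (ℤ × ℤ)` the transfer of `e` (`MonoidHom.transfer`). By
`MonoidHom.transfer_eq_pow` (`z` is central) `t z = e ⟨z ^ n, _⟩` with `n = A.index > 0`, and
`e ⟨z ^ n, _⟩ = (e ⟨z, _⟩) ^ n ≠ 1`. So one of the two coordinates of `t` is a homomorphism
`ψ : P →* Multiplicative ℤ` with `ψ ≠ 1`. Its range is the subgroup generated by some `ofAdd d`, `d ≠ 0`
(`Int.subgroup_cyclic` / `AddSubgroup` of `ℤ` is cyclic), so `φ g = ofAdd (ψ g / d)` is a surjective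
homomorphism. -/
theorem exists_hom_int {P : Type*} [Group P]
    (hT : ∀ (g : P) (n : ℕ), 0 < n → g ^ n = 1 → g = 1) (h : VZ P) :
    ∃ φ : P →* Multiplicative ℤ, Function.Surjective φ := by
  obtain ⟨A, hA, hi, ⟨e⟩⟩ := h
  obtain ⟨z, hz, hz1, hzc⟩ := exists_central hT A hi e
  have hfi : A.FiniteIndex := ⟨hi⟩
  have key : ∀ (k : ℕ) (g₀ : P), g₀⁻¹ * z ^ k * g₀ ∈ A → g₀⁻¹ * z ^ k * g₀ = z ^ k := by
    intro k g₀ _
    have h1 : Commute g₀ z := hzc g₀
    have h2 : g₀ * z ^ k = z ^ k * g₀ := h1.pow_right k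
    rw [mul_assoc, ← h2, inv_mul_cancel_left]
  have h1 := MonoidHom.transfer_eq_pow (e : A →* Multiplicative (ℤ × ℤ)) z key
  have h2 : (MonoidHom.transfer (e : A →* Multiplicative (ℤ × ℤ))) z ≠ 1 := by
    rw [h1]
    intro h3
    have h4 : (⟨z ^ A.index, MonoidHom.transfer_eq_pow_aux z key⟩ : A) = 1 := by
      apply e.injective
      rw [map_one]
      exact h3
    have h5 : z ^ A.index = 1 := congrArg Subtype.val h4
    exact hz1 (hT z A.index (Nat.pos_of_ne_zero hi) h5)
  by_cases h3 : (Multiplicative.toAdd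
      ((MonoidHom.transfer (e : A →* Multiplicative (ℤ × ℤ))) z)).1 = 0
  · have h4 : (Multiplicative.toAdd
        ((MonoidHom.transfer (e : A →* Multiplicative (ℤ × ℤ))) z)).2 ≠ 0 := by
      intro h4
      apply h2
      apply Multiplicative.toAdd.injective
      exact Prod.ext h3 h4
    refine grD_surj ((AddMonoidHom.toMultiplicative (AddMonoidHom.snd ℤ ℤ)).comp
      (MonoidHom.transfer (e : A →* Multiplicative (ℤ × ℤ)))) z ?_
    intro h5
    exact h4 (congrArg Multiplicative.toAdd h5)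
  · refine grD_surj ((AddMonoidHom.toMultiplicative (AddMonoidHom.fst ℤ ℤ)).comp
      (MonoidHom.transfer (e : A →* Multiplicative (ℤ × ℤ)))) z ?_
    intro h5
    exact h3 (congrArg Multiplicative.toAdd h5)

/-- Proof. Compose `exists_hom_int` with `ℤ → ℚ`. -/
theorem hom_nontrivial {P : Type*} [Group P]
    (hT : ∀ (g : P) (n : ℕ), 0 < n → g ^ n = 1 → g = 1) (h : VZ P) :
    Nontrivial (Additive P →+ ℚ) := by
  obtain ⟨φ, hφ⟩ := exists_hom_int hT h
  obtain ⟨g, hg⟩ := hφ (Multiplicative.ofAdd 1)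
  refine ⟨⟨(Int.castAddHom ℚ).comp (MonoidHom.toAdditiveLeft φ), 0, ?_⟩⟩
  intro h0
  have h1 := DFunLike.congr_fun h0 (Additive.ofMul g)
  have h2 : ((Multiplicative.toAdd (φ g) : ℤ) : ℚ) = 0 := h1
  rw [hg] at h2
  simp at h2

/-- Proof. Evaluation on a finite generating set `T` is an injective linear map to `T → ℚ`
(`FiniteDimensional.of_injective`). -/
theorem hom_fd {P : Type*} [Group P] (h : Group.FG P) : FiniteDimensional ℚ (Additive P →+ ℚ) := by
  obtain ⟨T, hT⟩ := (Group.fg_def.1 h)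
  let F : (Additive P →+ ℚ) →ₗ[ℚ] (T → ℚ) :=
    { toFun := fun f t => f (Additive.ofMul (t : P))
      map_add' := fun _ _ => rfl
      map_smul' := fun _ _ => rfl }
  refine FiniteDimensional.of_injective F ?_
  intro f f' hff
  have h1 : Set.EqOn (AddMonoidHom.toMultiplicativeRight f) (AddMonoidHom.toMultiplicativeRight f')
      (T : Set P) := by
    intro t ht
    exact congrFun hff ⟨t, ht⟩
  have h2 := MonoidHom.eq_of_eqOn_dense hT h1
  ext g
  exact DFunLike.congr_fun h2 (Additive.toMul g)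

/-- Proof. `φ` from `exists_hom_int`, `c g = ((φ g).toAdd : k)`, `c g = 1` if `φ g = ofAdd 1`. -/
theorem exists_hom_field {P : Type*} [Group P]
    (hT : ∀ (g : P) (n : ℕ), 0 < n → g ^ n = 1 → g = 1) (h : VZ P) (k : Type*) [Field k] :
    ∃ c : Additive P →+ k, c ≠ 0 := by
  obtain ⟨φ, hφ⟩ := exists_hom_int hT h
  obtain ⟨g, hg⟩ := hφ (Multiplicative.ofAdd 1)
  refine ⟨(Int.castAddHom k).comp (MonoidHom.toAdditiveLeft φ), ?_⟩
  intro h0
  have h1 := DFunLike.congr_fun h0 (Additive.ofMul g)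
  have h2 : ((Multiplicative.toAdd (φ g) : ℤ) : k) = 0 := h1
  rw [hg] at h2
  simp at h2

end RCan
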