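import Pool.Agent.W_04c03c_h58.AlgK
import Pool.Agent.W_04c03c_h58.AlgK1
import Pool.Agent.W_04c03c_h58.AlgK2
import Pool.Agent.W_04c03c_h58.AlgJ
import Pool.Agent.W_04c03c_h58.FpE
import Pool.Agent.W_04c03c_h58.GrB
import Pool.Agent.W_04c03c_h58.GrD
import Pool.Agent.W_04c03c_h62.CLB
import Pool.Agent.W_04c03c_h62.CLC
import Pool.Agent.W_04c03c_h62.HomZ
import Pool.Agent.W_04c03c_h62.LampLarge
import Pool.Agent.W_04c03c_h62.FPA
import Pool.Agent.W_04c03c_h62.FPB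
/-!
# Three cusps imply largeness
-/

namespace RCan

open MulAction

/-- Crossed homomorphisms give largeness. -/
theorem large_of_crossed {N : Type*} [Group N] [Group.FG N] (hfp : Q62.FPFree N)
    (ψ : N →* Multiplicative ℤ) (hψ : Function.Surjective ψ) (D : N → Q62.LF)
    (hD : ∀ g h, D (g * h) = D g + ((Q62.chiT ψ g : Q62.LFˣ) : Q62.LF) * D h)
    (hn : ¬ ∃ a, ∀ g, D g = ((Q62.chiT ψ g : Q62.LFˣ) : Q62.LF) * a - a) : Q62.IsLarge N := by
  obtain ⟨D', hD', ha, hs⟩ := Q62.exists_normalized ψ hψ D hD (by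
    rintro ⟨m, hm⟩
    exact hn ⟨m, fun g => by rw [hm g, sub_mul, one_mul]⟩)
  obtain ⟨Φ, hΦ⟩ := Q62.lamp_of_LP ψ D' hD' ha hs
  exact Q62.large_of_lamp hfp Φ hΦ

/-- Stabilizers in subgroups. -/
theorem vz_stab_sub {N Ξ : Type*} [Group N] [MulAction N Ξ] (N' : Subgroup N) [N'.FiniteIndex]
    (ξ : Ξ) (h : VZ (stabilizer N ξ)) : VZ (stabilizer N' ξ) := by
  have h1 : (N'.subgroupOf (stabilizer N ξ)).index ≠ 0 := by
    have : (N'.subgroupOf (stabilizer N ξ)).FiniteIndex := inferInstance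
    exact this.index_ne_zero
  refine VZ.equiv ?_ (h.sub (N'.subgroupOf (stabilizer N ξ)) h1)
  exact
    { toFun := fun x => ⟨⟨(x : stabilizer N ξ), x.2⟩, (x : stabilizer N ξ).2⟩
      invFun := fun y => ⟨⟨((y : N') : N), y.2⟩, (y : N').2⟩
      left_inv := fun x => rfl
      right_inv := fun y => rfl
      map_mul' := fun x y => rfl }

theorem TFree.sub {N : Type*} [Group N] (h : TFree N) (N' : Subgroup N) : TFree N' := by
  intro g n hn hg
  apply Subtype.ext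
  exact h g n hn (by
    have := congrArg Subtype.val hg
    simpa using this)

/-- A homomorphism to `ℚ` which kills a cusp group implies largeness. -/
theorem large_of_kill {N : Type*} {Ξ V : Type*} [Group N] [MulAction N Ξ] [MulAction N V]
    {sm : V → V → Prop} {cusp : V → Option Ξ} (hF : Face N Ξ V sm cusp) (hT : TFree N)
    (hfg : Group.FG N) (hfp : Q62.FPFree N) (ξ : Ξ) (hV : VZ (stabilizer N ξ))
    (φ : Additive N →+ ℚ) (hφ : φ ≠ 0) (hφk : ∀ h ∈ stabilizer N ξ, φ (Additive.ofMul h) = 0) :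
    Q62.IsLarge N := by
  have hT2 : TFree (stabilizer N ξ) := hT.sub _
  obtain ⟨ψ, hψ, hψk⟩ := Q62.exists_surj_int (fun g => φ (Additive.ofMul g))
    (fun g h => by rw [ofMul_mul, map_add]) (by
      by_contra hcon
      push Not at hcon
      exact hφ (AddMonoidHom.ext fun g => hcon g.toMul))
  have hψs : ∀ h ∈ stabilizer N ξ, ψ h = 1 := fun h hh => hψk h (hφk h hh)
  have hst : ∀ h ∈ stabilizer N ξ, Q62.chiT ψ h = 1 := by
    intro h hh
    rw [Q62.chiT_apply, hψs h hh]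
    simp
  have h2 : (2 : Q62.LF) = 0 := by
    have := Q62.LF_char_two
    exact CharTwo.two_eq_zero
  obtain ⟨c, hc⟩ := exists_hom_field hT2 hV Q62.LF
  rcases crossed_of_cusp hF hT h2 (Q62.chiT ψ) ξ hst c hc with ⟨D, hD, hn⟩ | ⟨D, hD, hn⟩
  · exact large_of_crossed hfp ψ hψ D hD hn
  · have hinv : ∀ g, ((Q62.chiT ψ g)⁻¹ : Q62.LFˣ) = Q62.chiT ψ⁻¹ g := by
      intro g
      rw [Q62.chiT_apply, Q62.chiT_apply, MonoidHom.inv_apply, toAdd_inv, zpow_neg]
    have hψ' : Function.Surjective (ψ⁻¹ : N →* Multiplicative ℤ) := by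
      intro x
      obtain ⟨g, hg⟩ := hψ x⁻¹
      exact ⟨g, by rw [MonoidHom.inv_apply, hg, inv_inv]⟩
    refine large_of_crossed hfp ψ⁻¹ hψ' D ?_ ?_
    · intro g h
      rw [← hinv]
      exact hD g h
    · rintro ⟨a, ha⟩
      apply hn
      refine ⟨a, fun g => ?_⟩
      rw [hinv]
      exact ha g

/-- Three cusps imply largeness. -/
theorem large_of_face {N : Type} {Ξ V : Type*} [Group N] [MulAction N Ξ] [MulAction N V]
    {sm : V → V → Prop} {cusp : V → Option Ξ} (hF : Face N Ξ V sm cusp) (hT : TFree N)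
    (hfg : Group.FG N) (hfin : Finite (orbitRel.Quotient N Ξ))
    (hV : ∀ ξ : Ξ, VZ (stabilizer N ξ)) (M : Subgroup N) [M.FiniteIndex] (ξ : Fin 3 → Ξ)
    (hξ : ∀ i j, ∀ n ∈ M, n • ξ i = ξ j → i = j) : Q62.IsLarge N := by
  have hfp : Group.IsFinitelyPresented N := face_fp hF hfg hfin (fun ξ => (hV ξ).fp)
  obtain ⟨N₀, hi, -, z, hz, hz', hze⟩ := exists_z_rat hF
  have : N₀.FiniteIndex := ⟨hi⟩
  obtain ⟨N', hN'M, hN'0, hN'f⟩ : ∃ N' : Subgroup N, N' ≤ M ∧ N' ≤ N₀ ∧ N'.FiniteIndex :=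
    ⟨M ⊓ N₀, inf_le_left, inf_le_right, inferInstance⟩
  have hF' : Face N' Ξ V sm cusp := hF.sub N'
  have hT' : TFree N' := hT.sub N'
  have hV' : ∀ ξ : Ξ, VZ (stabilizer N' ξ) := fun ξ => vz_stab_sub N' ξ (hV ξ)
  have hT2 : ∀ ξ : Ξ, TFree (stabilizer N' ξ) := fun ξ => hT'.sub _
  have hfg' : Group.FG N' := Q62.FG_of_FP hfp N'
  obtain ⟨i, φ, hφ, hφk⟩ := exists_hom_kill hF' hT' z
    (Subtype.ext (congrArg Subtype.val hz))
    (fun f hf => by
      obtain ⟨c, e, h⟩ := hz' f (Subtype.ext (congrArg Subtype.val hf))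
      exact ⟨c, e, h.trans (Subtype.ext rfl)⟩)
    (fun g => by
      obtain ⟨e, he⟩ := hze g (hN'0 g.2)
      exact ⟨e, Subtype.ext (congrArg Subtype.val he)⟩)
    ξ (fun i j g hg => hξ i j g (hN'M g.2) hg)
    (fun i => hom_fd (hV' _).fg) (fun i => hom_nontrivial (hT2 _) (hV' _))
  exact Q62.IsLarge.of_finiteIndex N'
    (large_of_kill hF' hT' hfg' (Q62.FPFree.of_finiteIndex hfp N') (ξ i) (hV' _) φ hφ hφk)

end RCan
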