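import Pool.Agent.W_04c03c_h58.FrA
import Pool.Agent.W_04c03c_h58.FrC
import Pool.Agent.W_04c03c_h58.FrD
import Pool.Agent.W_04c03c_h58.MnA

/-!
# Quotients of free groups by high powers are large
-/

namespace RCan

theorem FrE_noncomm (e : ℕ) (he : e ≠ 0) :
    (FreeGroup.of (0 : Fin 2)) ^ e * (FreeGroup.of (1 : Fin 2)) ^ e ≠
      (FreeGroup.of (1 : Fin 2)) ^ e * (FreeGroup.of (0 : Fin 2)) ^ e := by
  intro h
  let A : Equiv.Perm ℚ := Equiv.addRight 1
  let B : Equiv.Perm ℚ := Equiv.mulRight₀ 2 (by norm_num)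
  let L : FreeGroup (Fin 2) →* Equiv.Perm ℚ := FreeGroup.lift ![A, B]
  have hA : ∀ (n : ℕ) (x : ℚ), (A ^ n) x = x + n := by
    intro n
    induction n with
    | zero => intro x; simp
    | succ n ih =>
      intro x
      rw [pow_succ, Equiv.Perm.mul_apply, ih]
      show x + 1 + n = _
      push_cast
      ring
  have hB : ∀ (n : ℕ) (x : ℚ), (B ^ n) x = x * 2 ^ n := by
    intro n
    induction n with
    | zero => intro x; simp
    | succ n ih =>
      intro x
      rw [pow_succ, Equiv.Perm.mul_apply, ih]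
      show x * 2 * 2 ^ n = _
      ring
  have h1 := congrArg L h
  have hL0 : L (FreeGroup.of 0) = A := by simp [L]
  have hL1 : L (FreeGroup.of 1) = B := by simp [L]
  rw [map_mul, map_mul, map_pow, map_pow, hL0, hL1] at h1
  have h2 := DFunLike.congr_fun h1 0
  rw [Equiv.Perm.mul_apply, Equiv.Perm.mul_apply, hA, hB, hB, hA] at h2
  have h3 : (e : ℚ) ≠ 0 := by exact_mod_cast he
  have h4 : (2 : ℚ) ^ e = 1 := by
    have h5 : (e : ℚ) * 2 ^ e = e * 1 := by linarith
    exact mul_left_cancel₀ h3 h5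
  have h6 : (1 : ℚ) < 2 ^ e := one_lt_pow₀ (by norm_num) he
  linarith

/-- The case of nontrivial elements.

Proof. Let `F` be the free group. `free_orders` with `m = n` gives `K`, `free_count` gives `φ`. `K` is finitely
generated, so `φ` gives a surjective `ψ : K →* Multiplicative ℤ` with `ψ k = 1` whenever `φ k = 0`
(`Q62.exists_surj_int`, `HomZ.lean`; see how it is used in `Main.lean` and `MnA.lean`). `K` is not
commutative: `(of 0) ^ e` and `(of 1) ^ e`, `e` the index of `K`, are in `K` and do not commute. Let `d` be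
as in `free_xhom`. Let `M = 2 * e`; `(w i) ^ e ∈ K` (index `e`, normal subgroup), so with
`u = g * (w i) ^ e * g⁻¹ ∈ K`: `ψ u = 1` and `d (u * u) = d u + d u = 0` (characteristic two,
`Q62.LF_char_two`). Let `R = normalClosure (range fun i => (w i) ^ M) ≤ K`. Then `ψ = 1` and `d = 0` on `R` (closure
induction over the conjugates `g * (w i) ^ M * g⁻¹`, `g ∈ F`; use `d (a * b) = d a + d b` when `ψ a = 1`, and for
inverses). So `ψ` and `d` descend to `T' = K.map (QuotientGroup.mk' R)`, a subgroup of finite index of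
`T = F ⧸ R` (for instance choose preimages: `d̄ t = d k` for any `k ∈ K` with `mk k = t`; independent of `k`);
`d̄` is again not principal, `ψ̄` surjective. `T` is finitely presented, so `FPFree T'`
(`Q62.FPFree.of_finiteIndex`) and `T'` is finitely generated. `Q62.exists_normalized`, `Q62.lamp_of_LP`,
`Q62.large_of_lamp` give `Q62.IsLarge T'`, and `Q62.IsLarge.of_finiteIndex`. -/
theorem free_large_ne {n : ℕ} (w : Fin n → FreeGroup (Fin 2)) (hw : ∀ i, w i ≠ 1) :
    ∃ M : ℕ, 0 < M ∧ Q62.IsLarge (FreeGroup (Fin 2) ⧸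
      Subgroup.normalClosure (Set.range fun i => (w i) ^ M)) := by
  classical
  obtain ⟨K, hKn, hKf, hKw⟩ := free_orders w hw n
  obtain ⟨φ, hφ, hφ0⟩ := free_count w K hKw
  have hfgK : Group.FG K := Q62.FG_of_FP (inferInstance : Group.IsFinitelyPresented
    (FreeGroup (Fin 2))) K
  obtain ⟨ψ, hψ, hψk⟩ := Q62.exists_surj_int (fun g : K => φ (Additive.ofMul g))
    (fun g h => by rw [ofMul_mul, map_add]) (by
      by_contra hcon
      push Not at hcon
      exact hφ (AddMonoidHom.ext fun g => hcon g.toMul))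
  have he : K.index ≠ 0 := Subgroup.FiniteIndex.index_ne_zero
  have hpow : ∀ g : FreeGroup (Fin 2), g ^ K.index ∈ K := fun g => K.pow_index_mem g
  obtain ⟨d, hd, hdn⟩ := free_xhom K ⟨_, hpow (FreeGroup.of 0), _, hpow (FreeGroup.of 1),
    FrE_noncomm K.index he⟩ ψ
  have hχ : ∀ g : K, ψ g = 1 → Q62.chiT ψ g = 1 := by
    intro g hg
    rw [Q62.chiT_apply, hg]
    simp
  have hd1 : ∀ g h : K, ψ g = 1 → d (g * h) = d g + d h := by
    intro g h hg
    rw [hd, hχ g hg, Units.val_one, one_mul]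
  have hd0 : d 1 = 0 := by
    have h := hd1 1 1 (map_one ψ)
    rw [mul_one] at h
    exact left_eq_add.mp h
  have hchar : ∀ x : Q62.LF, x + x = 0 := by
    intro x
    have := Q62.LF_char_two
    exact CharTwo.add_self_eq_zero x
  refine ⟨2 * K.index, by omega, ?_⟩
  set R := Subgroup.normalClosure (Set.range fun i => (w i) ^ (2 * K.index)) with hR
  have hsq : ∀ (i : Fin n) (g : FreeGroup (Fin 2)), ∃ h : g * (w i) ^ (2 * K.index) * g⁻¹ ∈ K,
      ψ ⟨g * (w i) ^ (2 * K.index) * g⁻¹, h⟩ = 1 ∧ d ⟨g * (w i) ^ (2 * K.index) * g⁻¹, h⟩ = 0 := by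
    intro i g
    have h1 : g * (w i) ^ K.index * g⁻¹ ∈ K := hKn.conj_mem _ (hpow _) g
    have h2 : g * (w i) ^ (2 * K.index) * g⁻¹ =
        (g * (w i) ^ K.index * g⁻¹) * (g * (w i) ^ K.index * g⁻¹) := by
      rw [two_mul, pow_add]
      group
    have h3 : g * (w i) ^ (2 * K.index) * g⁻¹ ∈ K := by
      rw [h2]
      exact K.mul_mem h1 h1
    have h4 : (⟨g * (w i) ^ (2 * K.index) * g⁻¹, h3⟩ : K) =
        ⟨g * (w i) ^ K.index * g⁻¹, h1⟩ * ⟨g * (w i) ^ K.index * g⁻¹, h1⟩ := Subtype.ext h2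
    have h5 : ψ ⟨g * (w i) ^ K.index * g⁻¹, h1⟩ = 1 := hψk _ (hφ0 i g K.index h1)
    refine ⟨h3, ?_, ?_⟩
    · rw [h4, map_mul, h5, one_mul]
    · rw [h4, hd1 _ _ h5, hchar]
  have hRK : ∀ r ∈ R, ∃ h : r ∈ K, ψ ⟨r, h⟩ = 1 ∧ d ⟨r, h⟩ = 0 := by
    intro r hr
    rw [hR, Subgroup.normalClosure] at hr
    induction hr using Subgroup.closure_induction with
    | mem x hx =>
      obtain ⟨a, ⟨i, rfl⟩, hc⟩ := Group.mem_conjugatesOfSet_iff.1 hx
      obtain ⟨g, hg⟩ := isConj_iff.1 hc
      obtain ⟨h1, h2⟩ := hsq i g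
      subst hg
      exact ⟨h1, h2⟩
    | one =>
      refine ⟨K.one_mem, ?_, ?_⟩
      · exact map_one ψ
      · exact hd0
    | mul x y _ _ hx hy =>
      obtain ⟨h1, h2, h3⟩ := hx
      obtain ⟨h1', h2', h3'⟩ := hy
      refine ⟨K.mul_mem h1 h1', ?_, ?_⟩
      · have h4 : (⟨x * y, K.mul_mem h1 h1'⟩ : K) = ⟨x, h1⟩ * ⟨y, h1'⟩ := rfl
        rw [h4, map_mul, h2, h2', one_mul]
      · have h4 : (⟨x * y, K.mul_mem h1 h1'⟩ : K) = ⟨x, h1⟩ * ⟨y, h1'⟩ := rfl
        rw [h4, hd1 _ _ h2, h3, h3', add_zero]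
    | inv x _ hx =>
      obtain ⟨h1, h2, h3⟩ := hx
      have h4 : (⟨x⁻¹, K.inv_mem h1⟩ : K) = (⟨x, h1⟩ : K)⁻¹ := rfl
      refine ⟨K.inv_mem h1, ?_, ?_⟩
      · rw [h4, map_inv, h2, inv_one]
      · have h5 := hd1 ⟨x, h1⟩ (⟨x, h1⟩ : K)⁻¹ h2
        rw [mul_inv_cancel, hd0, h3, zero_add] at h5
        rw [h4]
        exact h5.symm
  have : R.Normal := Subgroup.normalClosure_normal
  let π : K →* K.map (QuotientGroup.mk' R) := (QuotientGroup.mk' R).subgroupMap K
  have hπ : Function.Surjective π := (QuotientGroup.mk' R).subgroupMap_surjective K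
  have hker : ∀ k : K, π k = 1 → ψ k = 1 ∧ d k = 0 := by
    intro k hk
    have h1 : QuotientGroup.mk' R (k : FreeGroup (Fin 2)) = 1 := congrArg Subtype.val hk
    have h2 : (k : FreeGroup (Fin 2)) ∈ R := (QuotientGroup.eq_one_iff _).1 h1
    obtain ⟨h3, h4, h5⟩ := hRK _ h2
    exact ⟨h4, h5⟩
  obtain ⟨s, hs⟩ := hπ.hasRightInverse
  have hψ' : ∀ a b : K, π a = π b → ψ a = ψ b := by
    intro a b hab
    have h1 : π (a⁻¹ * b) = 1 := by rw [map_mul, map_inv, hab, inv_mul_cancel]
    have h2 := (hker _ h1).1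
    rw [map_mul, map_inv] at h2
    exact (inv_mul_eq_one.1 h2)
  have hd' : ∀ a b : K, π a = π b → d a = d b := by
    intro a b hab
    have h1 : π (a⁻¹ * b) = 1 := by rw [map_mul, map_inv, hab, inv_mul_cancel]
    have h2 := (hker _ h1).2
    have h3 := hd a (a⁻¹ * b)
    rw [mul_inv_cancel_left, h2, mul_zero, add_zero] at h3
    exact h3.symm
  let ψ' : K.map (QuotientGroup.mk' R) →* Multiplicative ℤ :=
    { toFun := fun t => ψ (s t)
      map_one' := by
        rw [← map_one ψ]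
        exact hψ' _ _ (by rw [hs, map_one])
      map_mul' := fun a b => by
        rw [← map_mul ψ]
        exact hψ' _ _ (by rw [hs, map_mul, hs, hs]) }
  have hψ'π : ∀ k, ψ' (π k) = ψ k := fun k => hψ' _ _ (hs _)
  have hχ' : ∀ t, Q62.chiT ψ' t = Q62.chiT ψ (s t) := by
    intro t
    rw [Q62.chiT_apply, Q62.chiT_apply]
    rfl
  have hfp : Group.IsFinitelyPresented (FreeGroup (Fin 2) ⧸ R) := by
    refine Group.IsFinitelyPresented.quotient R ?_
    exact ⟨Set.range fun i => (w i) ^ (2 * K.index), Set.finite_range _, rfl⟩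
  have hfi : (K.map (QuotientGroup.mk' R)).FiniteIndex := by
    refine ⟨fun h => he ?_⟩
    have h1 := Subgroup.index_map_dvd K (QuotientGroup.mk'_surjective R)
    rw [h] at h1
    exact Nat.eq_zero_of_zero_dvd h1
  have : Group.FG (K.map (QuotientGroup.mk' R)) := Q62.FG_of_FP hfp _
  refine Q62.IsLarge.of_finiteIndex (K.map (QuotientGroup.mk' R)) ?_
  refine large_of_crossed (Q62.FPFree.of_finiteIndex hfp _) ψ' ?_ (fun t => d (s t)) ?_ ?_
  · intro x
    obtain ⟨k, hk⟩ := hψ x
    exact ⟨π k, by rw [hψ'π, hk]⟩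
  · intro g h
    rw [hχ', ← hd]
    exact hd' _ _ (by rw [hs, map_mul, hs, hs])
  · rintro ⟨a, ha⟩
    apply hdn
    refine ⟨a, fun g => ?_⟩
    have h1 : d (s (π g)) = d g := hd' _ _ (hs _)
    have h2 := ha (π g)
    have h3 : Q62.chiT ψ' (π g) = Q62.chiT ψ g := by
      rw [Q62.chiT_apply, Q62.chiT_apply, hψ'π]
    rw [← h1, h2, h3, sub_mul, one_mul]

theorem FrE_transport {G : Type*} [Group G] (A B : Subgroup G) [A.Normal] [B.Normal] (h : A = B)
    (hL : Q62.IsLarge (G ⧸ A)) : Q62.IsLarge (G ⧸ B) := by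
  subst h
  exact hL

/-- Adding enough powers of given elements as relations to a free group gives a large group.

Proof. Enumerate the `i` with `w i ≠ 1` (`Finset.equivFin` or `Fintype.equivFin` of the subtype): the powers
of the others are `1`, so the normal closure is the same. -/
theorem free_large {n : ℕ} (w : Fin n → FreeGroup (Fin 2)) :
    ∃ M : ℕ, 0 < M ∧ Q62.IsLarge (FreeGroup (Fin 2) ⧸
      Subgroup.normalClosure (Set.range fun i => (w i) ^ M)) := by
  classical
  let e := Fintype.equivFin {i : Fin n // w i ≠ 1}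
  obtain ⟨M, hM, hL⟩ := free_large_ne (fun j => w (e.symm j)) (fun j => (e.symm j).2)
  refine ⟨M, hM, ?_⟩
  have h : Subgroup.normalClosure (Set.range fun j => (w (e.symm j)) ^ M) =
      Subgroup.normalClosure (Set.range fun i => (w i) ^ M) := by
    apply le_antisymm
    · apply Subgroup.normalClosure_le_normal
      rintro _ ⟨j, rfl⟩
      exact Subgroup.subset_normalClosure ⟨_, rfl⟩
    · apply Subgroup.normalClosure_le_normal
      rintro _ ⟨i, rfl⟩
      by_cases hi : w i = 1
      · simp only [hi, one_pow]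
        exact Subgroup.one_mem _
      · refine Subgroup.subset_normalClosure ⟨e ⟨i, hi⟩, ?_⟩
        simp
  exact FrE_transport _ _ h hL

/-- A finite index subgroup of the free group maps onto the free group with all conjugates of powers of
given elements in the kernel.

Proof. Let `M` be as in `free_large`, `T` the quotient, `H ≤ T` of finite index and `f : H →* F` surjective.
`K = H.comap mk`, `θ = f ∘ mk`. If `x ∈ K` is in `zpowers (g * w i * g⁻¹)` then `x ^ M` is a conjugate of a power of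
`(w i) ^ M`, so `mk (x ^ M) = 1`, `θ x ^ M = 1` and `θ x = 1` because free groups are torsion-free. -/
theorem free_kill {n : ℕ} (w : Fin n → FreeGroup (Fin 2)) :
    ∃ K : Subgroup (FreeGroup (Fin 2)), K.FiniteIndex ∧
      ∃ θ : K →* FreeGroup (Fin 2), Function.Surjective θ ∧
        ∀ (i : Fin n) (g : FreeGroup (Fin 2)) (x : K),
          (x : FreeGroup (Fin 2)) ∈ Subgroup.zpowers (g * w i * g⁻¹) → θ x = 1 := by
  obtain ⟨M, hM, H, hH, f, hf⟩ := free_large w
  set R := Subgroup.normalClosure (Set.range fun i => (w i) ^ M) with hR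
  have : R.Normal := Subgroup.normalClosure_normal
  have := hH
  refine ⟨H.comap (QuotientGroup.mk' R), ?_, f.comp ((QuotientGroup.mk' R).subgroupComap H), ?_, ?_⟩
  · refine ⟨?_⟩
    rw [Subgroup.index_comap_of_surjective H (QuotientGroup.mk'_surjective R)]
    exact hH.index_ne_zero
  · exact hf.comp ((QuotientGroup.mk' R).subgroupComap_surjective_of_surjective H
      (QuotientGroup.mk'_surjective R))
  · intro i g x hx
    obtain ⟨k, hk⟩ := Subgroup.mem_zpowers_iff.1 hx
    have h1 : ((x ^ M : H.comap (QuotientGroup.mk' R)) : FreeGroup (Fin 2)) ∈ R := by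
      rw [Subgroup.coe_pow, ← hk]
      have h2 : ((g * w i * g⁻¹) ^ k) ^ M = g * ((w i) ^ M) ^ k * g⁻¹ := by
        rw [conj_zpow, conj_pow]
        congr 2
        rw [← zpow_natCast, ← zpow_natCast, ← zpow_mul, ← zpow_mul, mul_comm]
      rw [h2]
      refine (inferInstance : R.Normal).conj_mem _ ?_ g
      exact R.zpow_mem (Subgroup.subset_normalClosure ⟨i, rfl⟩) k
    have h3 : (QuotientGroup.mk' R).subgroupComap H (x ^ M) = 1 := by
      apply Subtype.ext
      exact (QuotientGroup.eq_one_iff _).2 h1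
    have h4 : (f.comp ((QuotientGroup.mk' R).subgroupComap H)) x ^ M = 1 := by
      rw [← map_pow, MonoidHom.comp_apply, h3, map_one]
    exact (pow_eq_one_iff_left hM.ne').1 h4

end RCan
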