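import Pool.Agent.W_04c03c_h58.MnC
import Pool.Agent.W_04c03c_h58.FrG

/-!
# Fillings of residually finite groups with a sphere at infinity
-/

namespace RCan

/-- `K` is virtually commutative -/
theorem VirtZ2.vab {G : Type*} [Group G] {K : Subgroup G} (h : VirtZ2 K) :
    ∃ A : Subgroup G, A ≤ K ∧ A.relIndex K ≠ 0 ∧ ∀ a ∈ A, ∀ b ∈ A, a * b = b * a := by
  obtain ⟨A, h1, h2, ⟨e⟩⟩ := h
  refine ⟨A, h1, h2, fun a ha b hb => ?_⟩
  have h3 : (⟨a, ha⟩ : A) * ⟨b, hb⟩ = ⟨b, hb⟩ * ⟨a, ha⟩ := by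
    apply e.injective
    rw [map_mul, map_mul, mul_comm]
  exact congrArg Subtype.val h3

/-- Residually finite groups with a sphere at infinity: the fillings inside of a subgroup of finite
index are large. -/
theorem rf_fill {G : Type} [Group G] (hfg : Group.FG G) {ι : Type*} [Finite ι] [Nonempty ι]
    (H : ι → Subgroup G) (hH : ∀ i, VirtZ2 (H i)) (hS : SphereRelHyp G H) (hrf : Q62.ResFin G) :
    ∃ N : Subgroup G, N.Normal ∧ N.FiniteIndex ∧ ∀ S : Set G,
      (∀ s ∈ S, s ∈ N ∧ ∃ (g : G) (i : ι), g * s * g⁻¹ ∈ H i) →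
        Q62.IsLarge (G ⧸ Subgroup.normalClosure S) :=
  large_fill ((RCan.main hfg H hH hS).1 hrf) H (fun i => (hH i).vab)

end RCan
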