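import Pool.Agent.W_04c03c_h58.Def

/-!
# Gromov products
-/

namespace RCan

variable {X : Type*} [MetricSpace X]

/-- the four point condition with constant `2 * δ` -/
def Hyp4 (X : Type*) [MetricSpace X] (δ : ℝ) : Prop :=
  0 ≤ δ ∧ ∀ x y z w : X, dist x y + dist z w ≤ max (dist x z + dist y w) (dist x w + dist y z) + 2 * δ

theorem exists_hyp4 (h : IsHyp X) : ∃ δ, Hyp4 X δ := by
  obtain ⟨δ, h⟩ := h
  refine ⟨max δ 0, le_max_right _ _, fun x y z w => (h x y z w).trans ?_⟩
  have : δ ≤ 2 * max δ 0 := by
    have h1 := le_max_left δ 0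
    have h2 := le_max_right δ 0
    linarith
  linarith

/-- the Gromov product -/
noncomputable def gp (o x y : X) : ℝ := (dist o x + dist o y - dist x y) / 2

theorem gp_comm (o x y : X) : gp o x y = gp o y x := by
  unfold gp; rw [dist_comm x y]; ring

theorem gp_nonneg (o x y : X) : 0 ≤ gp o x y := by
  unfold gp
  have := dist_triangle x o y
  rw [dist_comm x o] at this
  linarith

theorem gp_le_left (o x y : X) : gp o x y ≤ dist o x := by
  unfold gp
  have := dist_triangle o x y
  linarith

theorem gp_le_right (o x y : X) : gp o x y ≤ dist o y := by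
  rw [gp_comm]; exact gp_le_left o y x

/-- hyperbolicity in terms of Gromov products -/
theorem gp_hyp {δ : ℝ} (h : Hyp4 X δ) (o x y z : X) :
    min (gp o x y) (gp o y z) - δ ≤ gp o x z := by
  have h1 := h.2 o y x z
  unfold gp
  rcases le_total (dist o x + dist y z) (dist o z + dist y x) with h2 | h2
  · rw [max_eq_right h2] at h1
    rw [dist_comm y x] at h1
    have h3 := min_le_left ((dist o x + dist o y - dist x y) / 2)
      ((dist o y + dist o z - dist y z) / 2)
    linarith
  · rw [max_eq_left h2] at h1
    have h3 := min_le_right ((dist o x + dist o y - dist x y) / 2)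
      ((dist o y + dist o z - dist y z) / 2)
    linarith

/-- version with a common lower bound -/
theorem gp_hyp' {δ : ℝ} (h : Hyp4 X δ) {o x y z : X} {a : ℝ} (h1 : a ≤ gp o x y)
    (h2 : a ≤ gp o y z) : a - δ ≤ gp o x z := by
  have := gp_hyp h o x y z
  have h3 : a ≤ min (gp o x y) (gp o y z) := le_min h1 h2
  linarith

/-- change of the base point -/
theorem gp_base (o o' x y : X) : gp o x y - dist o o' ≤ gp o' x y := by
  unfold gp
  have h1 := dist_triangle o o' x
  have h2 := dist_triangle o o' y
  linarith

/-- change of one point -/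
theorem gp_point (o x x' y : X) : gp o x y - dist x x' ≤ gp o x' y := by
  unfold gp
  have h1 := dist_triangle o x' x
  have h2 := dist_triangle x x' y
  have h3 := dist_triangle x' x y
  rw [dist_comm x' x] at h1 h3
  linarith

theorem gp_add (o x y : X) : gp o x y + gp x o y = dist o x := by
  unfold gp
  rw [dist_comm x o]
  ring

/-- the distance in terms of the Gromov product -/
theorem dist_of_gp {o x y : X} {a : ℝ} (h : a ≤ gp o x y) :
    dist x y ≤ dist o x + dist o y - 2 * a := by
  unfold gp at h
  linarith

/-- a point `v` near a geodesic from `x` to `p` is at distance at least `gp o x p - E` from `o` -/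
theorem dist_ge_gp {o x p v : X} {E : ℝ} (h : dist x v + dist v p ≤ dist x p + 2 * E) :
    gp o x p - E ≤ dist o v := by
  unfold gp
  have h1 := dist_triangle o v x
  have h2 := dist_triangle o v p
  rw [dist_comm v x] at h1
  linarith

/-- a point `v` near a geodesic from `x` to `o` has large Gromov product with `x` -/
theorem gp_ge_of_near {o x v : X} {E : ℝ} (h : dist x v + dist v o ≤ dist x o + 2 * E) :
    dist o v - E ≤ gp o v x := by
  unfold gp
  rw [dist_comm v o] at h
  rw [dist_comm x o, dist_comm x v] at h
  linarith

theorem gp_isom {Y : Type*} [MetricSpace Y] {f : X → Y} (hf : ∀ x y, dist (f x) (f y) = dist x y)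
    (o x y : X) : gp (f o) (f x) (f y) = gp o x y := by
  unfold gp
  rw [hf, hf, hf]

end RCan
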