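import Pool.Agent.W_04c03c_h58.GeoA

/-!
# Nets and pushes
-/

namespace RCan

variable {X V : Type*} [MetricSpace X]

/-- a locally finite 1-dense family of points -/
structure IsNet (pt : V → X) : Prop where
  dense : ∀ x : X, ∃ v, dist x (pt v) ≤ 1
  lf : ∀ (x : X) (R : ℝ), {v | dist x (pt v) ≤ R}.Finite

/-- push distance -/
def ro (δ : ℝ) : ℝ := 2 * δ + 3

/-- scale of the Rips complex -/
def sc (δ : ℝ) : ℝ := 20 * δ + 40

/-- the relation of the Rips complex -/
def smr (δ : ℝ) (pt : V → X) (v w : V) : Prop := dist (pt v) (pt w) ≤ sc δ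

/-- rank with respect to the point `p` -/
noncomputable def rkp (pt : V → X) (p : X) (v : V) : ℕ := ⌊dist (pt v) p⌋₊

/-- The push towards `p`.

Proof. For `v` with `D = dist (pt v) p ≥ ρ := ro δ` take a geodesic from `pt v` to `p`, its point `y` at
distance `ρ` from `pt v`, and `ps v` a net point within `1` of `y` (`choose`; anything if `D < ρ`). Then
`dist (pt v) (pt (ps v)) ≤ ρ + 1`, `D - ρ - 1 ≤ dist (pt (ps v)) p ≤ D - ρ + 1`. (1) the floor drops since
`D - ρ + 1 ≤ D - 2`. (2) For `w` with `dist w v ≤ sc δ` and `⌊dist w p⌋₊ ≤ ⌊D⌋₊` we have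
`dist w p ≤ D + 1`, and the four point condition for `w, v', v, p` (`v' = ps v`):
`dist w v' + dist v p ≤ max (dist w v + dist v' p) (dist w p + dist v v') + 2 δ`, so
`dist w v' ≤ max (sc δ - ρ + 1) (ρ + 2) + 2 δ ≤ sc δ`. (5) Four point condition for `x, v', v, p`:
`dist x v' + D ≤ max (dist x v + dist v' p) (dist x p + dist v v') + 2 δ`; add `dist v' p ≤ D - ρ + 1`. -/
theorem exists_push {δ : ℝ} (hδ : Hyp4 X δ) (hG : IsGeod X) {pt : V → X} (hN : IsNet pt) (p : X) :
    ∃ ps : V → V, ∀ v, ro δ ≤ dist (pt v) p →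
      rkp pt p (ps v) < rkp pt p v ∧
      (∀ w, smr δ pt w v → rkp pt p w ≤ rkp pt p v → smr δ pt w (ps v)) ∧
      dist (pt (ps v)) p ≤ dist (pt v) p ∧
      dist (pt v) p - ro δ - 1 ≤ dist (pt (ps v)) p ∧
      ∀ x : X, dist x (pt v) + dist (pt v) p ≤ dist x p + 2 * (δ + 1) →
        dist x (pt (ps v)) + dist (pt (ps v)) p ≤ dist x p + 2 * (δ + 1) := by
  classical
  have hδ0 : 0 ≤ δ := hδ.1
  have hex : ∀ v : V, ∃ v' : V, ro δ ≤ dist (pt v) p →
      dist (pt v) (pt v') ≤ ro δ + 1 ∧ dist (pt v') p ≤ dist (pt v) p - ro δ + 1 ∧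
      dist (pt v) p - ro δ - 1 ≤ dist (pt v') p := by
    intro v
    by_cases hv : ro δ ≤ dist (pt v) p
    · obtain ⟨γ, h0, h1, h2⟩ := hG (pt v) p
      have hρ : 0 ≤ ro δ := by
        unfold ro
        linarith
      have hD : 0 ≤ dist (pt v) p := dist_nonneg
      obtain ⟨v', hv'⟩ := hN.dense (γ (ro δ))
      refine ⟨v', fun _ => ?_⟩
      have e1 : dist (pt v) (γ (ro δ)) = ro δ := by
        have := h2 0 ⟨le_rfl, hD⟩ (ro δ) ⟨hρ, hv⟩
        rw [h0] at this
        rw [this, zero_sub, abs_neg, abs_of_nonneg hρ]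
      have e2 : dist (γ (ro δ)) p = dist (pt v) p - ro δ := by
        have := h2 (ro δ) ⟨hρ, hv⟩ (dist (pt v) p) ⟨hD, le_rfl⟩
        rw [h1] at this
        rw [this, abs_sub_comm, abs_of_nonneg (by linarith)]
      have t1 := dist_triangle (pt v) (γ (ro δ)) (pt v')
      have t2 := dist_triangle (pt v') (γ (ro δ)) p
      have t3 := dist_triangle (γ (ro δ)) (pt v') p
      rw [dist_comm (pt v') (γ (ro δ))] at t2
      exact ⟨by linarith, by linarith, by linarith⟩
    · exact ⟨v, fun h => absurd h hv⟩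
  choose ps hps using hex
  refine ⟨ps, fun v hv => ?_⟩
  obtain ⟨a1, a2, a3⟩ := hps v hv
  have hro : ro δ = 2 * δ + 3 := rfl
  have hsc : sc δ = 20 * δ + 40 := rfl
  rw [hro] at a1 a2 a3
  refine ⟨?_, ?_, by linarith, by rw [hro]; linarith, ?_⟩
  · unfold rkp
    have h1 : (⌊dist (pt (ps v)) p⌋₊ : ℝ) ≤ dist (pt (ps v)) p := Nat.floor_le dist_nonneg
    have h2 : dist (pt v) p < (⌊dist (pt v) p⌋₊ : ℝ) + 1 := Nat.lt_floor_add_one _
    have h3 : (⌊dist (pt (ps v)) p⌋₊ : ℝ) < (⌊dist (pt v) p⌋₊ : ℝ) := by linarith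
    exact_mod_cast h3
  · intro w hw hr
    unfold smr at hw ⊢
    unfold rkp at hr
    have hr' : (⌊dist (pt w) p⌋₊ : ℝ) ≤ (⌊dist (pt v) p⌋₊ : ℝ) := by exact_mod_cast hr
    have h1 : (⌊dist (pt v) p⌋₊ : ℝ) ≤ dist (pt v) p := Nat.floor_le dist_nonneg
    have h2 : dist (pt w) p < (⌊dist (pt w) p⌋₊ : ℝ) + 1 := Nat.lt_floor_add_one _
    have h4 := hδ.2 (pt w) (pt (ps v)) (pt v) p
    rw [dist_comm (pt (ps v)) (pt v)] at h4
    rw [hsc] at hw ⊢
    rcases le_total (dist (pt w) (pt v) + dist (pt (ps v)) p)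
      (dist (pt w) p + dist (pt v) (pt (ps v))) with h5 | h5
    · rw [max_eq_right h5] at h4
      linarith
    · rw [max_eq_left h5] at h4
      linarith
  · intro x hx
    have h4 := hδ.2 x (pt (ps v)) (pt v) p
    rw [dist_comm (pt (ps v)) (pt v)] at h4
    rcases le_total (dist x (pt v) + dist (pt (ps v)) p)
      (dist x p + dist (pt v) (pt (ps v))) with h5 | h5
    · rw [max_eq_right h5] at h4
      linarith
    · rw [max_eq_left h5] at h4
      linarith

end RCan
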