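import Pool.Agent.W_04c03c_h58.Lst

/-!
# The prism for cochains
-/

namespace RCan

/-- the difference of the pull backs of a cocycle under two maps is a coboundary -/
theorem prism_co {V W A : Type*} [AddCommGroup A] (a : List W → A) (φ ψ : V → W) (l : List V)
    (h : ∀ l' : List W, l' ⊆ l.map φ ++ l.map ψ → l'.length = l.length + 1 → co a l' = 0) :
    a (l.map ψ) - a (l.map φ)
      = co (fun l => Finsupp.linearCombination ℤ a (prl ℤ φ ψ l)) l := by
  have h1 : co (fun l => Finsupp.linearCombination ℤ a (prl ℤ φ ψ l)) l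
      = Finsupp.linearCombination ℤ a (pr ℤ φ ψ (bd ℤ (Finsupp.single l 1))) := by
    have h2 := lc_bd (k := ℤ) (fun l => Finsupp.linearCombination ℤ a (prl ℤ φ ψ l))
      (Finsupp.single l 1)
    rw [Finsupp.linearCombination_single, one_smul] at h2
    rw [← h2]
    generalize bd ℤ (Finsupp.single l 1) = c
    induction c using Finsupp.induction_linear with
    | zero => simp
    | add c d hc hd => simp only [map_add, hc, hd]
    | single l a => rw [pr_single, Finsupp.linearCombination_single, map_smul]
  have h3 : pr ℤ φ ψ (bd ℤ (Finsupp.single l 1))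
      = mp ℤ ψ (Finsupp.single l 1) - mp ℤ φ (Finsupp.single l 1)
        - bd ℤ (pr ℤ φ ψ (Finsupp.single l 1)) := by
    rw [← bd_pr]; abel
  rw [h1, h3, map_sub, map_sub, mp_single, mp_single, Finsupp.linearCombination_single,
    Finsupp.linearCombination_single, one_smul, one_smul, lc_bd, pr_single, one_smul,
    lc_eq_zero (S := {l' : List W | l' ⊆ l.map φ ++ l.map ψ ∧ l'.length = l.length + 1})
      (fun l' hl' => h l' hl'.1 hl'.2) (prl_mem φ ψ l), sub_zero]

end RCan
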