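import Pool.Agent.W_04c03c_h58.AltC
import Pool.Agent.W_04c03c_h58.AsA
import Pool.Agent.W_04c03c_h58.PrismCo

/-!
# The second interface: the vertices of the net, their distances from the base point and their shadows

`d v` is the distance of `v` from the base point, `π v` its shadow in the sphere, `ctr ξ` the centre of
the horoball `ξ`.
-/

namespace RCan

abbrev E3 := EuclideanSpace ℝ (Fin 3)

/-- the unit sphere -/
abbrev S2 : Set E3 := Metric.sphere (0 : E3) 1

section

variable {V Ξ : Type*} (sm : V → V → Prop) (cusp : V → Option Ξ)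

/-- alternating relative cochains of degree `n` (not necessarily of finite support) -/
structure IsR (k : Type*) [AddCommGroup k] (n : ℕ) (f : List V → k) : Prop where
  alt : Alt f
  len : ∀ l, f l ≠ 0 → l.length = n + 1
  rl : ∀ l, f l ≠ 0 → Rl sm cusp l

/-- the small lists of length `m` with entries in `T` -/
def SmT (T : Set V) (m : ℕ) : Set (List V) := {l | (Sml sm l ∧ ∀ x ∈ l, x ∈ T) ∧ l.length = m}

end

/-- The second interface. -/
structure InfD (N Ξ V : Type*) [Group N] [MulAction N Ξ] [MulAction N V] (sm : V → V → Prop)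
    (cusp : V → Option Ξ) (π : V → E3) (ctr : Ξ → E3) (d : V → ℝ) : Prop where
  refl : ∀ v, sm v v
  symm : ∀ v w, sm v w → sm w v
  smul_sm : ∀ (g : N) (v w : V), sm v w → sm (g • v) (g • w)
  cusp_smul : ∀ (g : N) (v : V), cusp (g • v) = (cusp v).map (fun ξ => g • ξ)
  ex : ∀ ξ : Ξ, ∃ v, cusp v = some ξ
  sph : ∀ v, π v ∈ S2
  ball : ∀ R : ℝ, {v | d v ≤ R}.Finite
  smd : ∃ r : ℝ, ∀ v w, sm v w → d w ≤ d v + r
  pi_cusp : ∀ v ξ, cusp v = some ξ → π v = ctr ξ
  ctr_inj : Function.Injective ctr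
  /-- all cycles are boundaries -/
  acV : ∀ (k : Type) [Field k] (m : ℕ), ∀ c ∈ Finsupp.supported k k (SmT sm (Set.univ : Set V) m),
    bd k c = 0 → ∃ b ∈ Finsupp.supported k k (SmT sm (Set.univ : Set V) (m + 1)), bd k b = c
  /-- all cycles in a horoball are boundaries in the horoball -/
  acC : ∀ (ξ : Ξ) (k : Type) [Field k] (m : ℕ),
    ∀ c ∈ Finsupp.supported k k (SmT sm {v | cusp v = some ξ} m), bd k c = 0 →
      ∃ b ∈ Finsupp.supported k k (SmT sm {v | cusp v = some ξ} (m + 1)), bd k b = c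
  /-- cycles in a horoball far from the base point are boundaries in the horoball, far from the base
  point -/
  far : ∀ R : ℝ, ∃ R' : ℝ, ∀ (ξ : Ξ) (k : Type) [Field k] (m : ℕ), 1 ≤ m →
    ∀ c ∈ Finsupp.supported k k (SmT sm {v | cusp v = some ξ ∧ R' ≤ d v} m), bd k c = 0 →
      ∃ b ∈ Finsupp.supported k k (SmT sm {v | cusp v = some ξ ∧ R ≤ d v} (m + 1)), bd k b = c
  /-- small pairs far from the base point have close shadows -/
  cont : ∀ ε > 0, ∃ R : ℝ, ∀ v w, sm v w → R ≤ d v → dist (π v) (π w) < ε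
  /-- cycles far from the base point are homologous to their images under shadow and inclusion -/
  near : ∀ R : ℝ, ∃ (y : E3 → V) (ε R' : ℝ), 0 < ε ∧ (∀ z ∈ S2, R ≤ d (y z)) ∧
    (∀ z ∈ S2, ∀ z' ∈ S2, dist z z' < ε → sm (y z) (y z')) ∧
    (∀ v w, sm v w → R' ≤ d v → R' ≤ d w → dist (π v) (π w) < ε) ∧
    ∀ (k : Type) [Field k] (m : ℕ), ∀ c ∈ Finsupp.supported k k (SmT sm {v | R' ≤ d v} m),
      bd k c = 0 → ∃ b ∈ Finsupp.supported k k (SmT sm {v | R ≤ d v} (m + 1)),
        bd k b = mp k (fun v => y (π v)) c - c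
  /-- the action at infinity -/
  act : ∀ g : N, ∃ h : E3 → E3, (∀ z ∈ S2, h z ∈ S2) ∧
    (∀ ε > 0, ∃ η > 0, ∀ z ∈ S2, ∀ z' ∈ S2, dist z z' < η → dist (h z) (h z') < ε) ∧
    (∀ ξ, ctr (g • ξ) = h (ctr ξ)) ∧
    ∀ ε > 0, ∃ R : ℝ, ∀ v, R ≤ d v → dist (π (g • v)) (h (π v)) < ε

section

variable {V Ξ : Type*} {sm : V → V → Prop} {cusp : V → Option Ξ}

theorem SmT.mono {T T' : Set V} (h : T ⊆ T') (m : ℕ) : SmT sm T m ⊆ SmT sm T' m :=
  fun _ hl => ⟨⟨hl.1.1, fun x hx => h (hl.1.2 x hx)⟩, hl.2⟩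

theorem Sml.sub {l l' : List V} (h : Sml sm l) (hl : l' ⊆ l) : Sml sm l' :=
  fun x hx y hy => h x (hl hx) y (hl hy)

/-- `cr` of an alternating cochain is alternating -/
theorem Alt.cr {A : Type*} [AddCommGroup A] {f : List V → A} (hf : Alt f) : Alt (cr sm f) := by
  classical
  have := Alt.ite (Sml sm) (fun l l' h h' => ⟨fun hs => hs.sub h', fun hs => hs.sub h⟩) hf.co
  unfold RCan.cr
  convert this

theorem cr_add {A : Type*} [AddCommGroup A] (f g : List V → A) :
    cr sm (f + g) = cr sm f + cr sm g := by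
  funext l
  simp only [cr, Pi.add_apply, co_add]
  split_ifs <;> simp

theorem cr_sub {A : Type*} [AddCommGroup A] (f g : List V → A) :
    cr sm (f - g) = cr sm f - cr sm g := by
  funext l
  simp only [cr, Pi.sub_apply, co_sub]
  split_ifs <;> simp

theorem cr_of_sml {A : Type*} [AddCommGroup A] (f : List V → A) {l : List V} (h : Sml sm l) :
    cr sm f l = co f l := by
  simp [cr, h]

theorem cr_cr {A : Type*} [AddCommGroup A] (f : List V → A) : cr sm (cr sm f) = 0 := by
  funext l
  by_cases h : Sml sm l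
  · rw [cr_of_sml _ h]
    show dl l (cr sm f) = 0
    rw [dl_congr l (g := co f) (fun l' h1 _ => cr_of_sml f (h.sub h1.subset))]
    exact dl_dl l f
  · simp [cr, h]

/-- the coboundary of a relative cochain is relative -/
theorem IsR.cr {k : Type*} [AddCommGroup k] {n : ℕ} {f : List V → k} (hf : IsR sm cusp k n f) :
    IsR sm cusp k (n + 1) (cr sm f) := by
  refine ⟨hf.alt.cr, ?_, ?_⟩
  · intro l hl
    by_contra hlen
    apply hl
    unfold RCan.cr
    split_ifs
    · exact dl_eq_zero l (fun l' h1 h2 => by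
        by_contra h3
        exact hlen (by have := hf.len l' h3; omega))
    · rfl
  · intro l hl
    have hs : Sml sm l := by
      by_contra hs
      exact hl (by simp [RCan.cr, hs])
    refine ⟨hs, ?_⟩
    rintro ⟨ξ, hξ⟩
    apply hl
    rw [cr_of_sml _ hs]
    exact dl_eq_zero l (fun l' h1 _ => by
      by_contra h3
      exact (hf.rl l' h3).2 ⟨ξ, fun x hx => hξ x (h1.subset hx)⟩)

theorem IsD.isR {k : Type*} [AddCommGroup k] {n : ℕ} {f : List V → k} (hf : IsD sm cusp k n f) :
    IsR sm cusp k n f := ⟨hf.alt, hf.len, hf.rl⟩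

theorem IsR.isD {k : Type*} [AddCommGroup k] {n : ℕ} {f : List V → k} (hf : IsR sm cusp k n f)
    (h : (Function.support f).Finite) : IsD sm cusp k n f := ⟨hf.alt, hf.len, hf.rl, h⟩

theorem IsR.add {k : Type*} [AddCommGroup k] {n : ℕ} {f g : List V → k}
    (hf : IsR sm cusp k n f) (hg : IsR sm cusp k n g) : IsR sm cusp k n (f + g) := by
  refine ⟨hf.alt.add hg.alt, ?_, ?_⟩
  · intro l hl
    by_contra h
    apply hl
    have h1 : f l = 0 := by by_contra h1; exact h (hf.len l h1)
    have h2 : g l = 0 := by by_contra h2; exact h (hg.len l h2)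
    rw [Pi.add_apply, h1, h2, add_zero]
  · intro l hl
    by_contra h
    apply hl
    have h1 : f l = 0 := by by_contra h1; exact h (hf.rl l h1)
    have h2 : g l = 0 := by by_contra h2; exact h (hg.rl l h2)
    rw [Pi.add_apply, h1, h2, add_zero]

theorem IsR.neg {k : Type*} [AddCommGroup k] {n : ℕ} {f : List V → k}
    (hf : IsR sm cusp k n f) : IsR sm cusp k n (-f) := by
  refine ⟨hf.alt.neg, ?_, ?_⟩
  · intro l hl
    exact hf.len l (by simpa using hl)
  · intro l hl
    exact hf.rl l (by simpa using hl)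

theorem IsR.sub {k : Type*} [AddCommGroup k] {n : ℕ} {f g : List V → k}
    (hf : IsR sm cusp k n f) (hg : IsR sm cusp k n g) : IsR sm cusp k n (f - g) := by
  rw [sub_eq_add_neg]; exact hf.add hg.neg

theorem IsD.add {k : Type*} [AddCommGroup k] {n : ℕ} {f g : List V → k}
    (hf : IsD sm cusp k n f) (hg : IsD sm cusp k n g) : IsD sm cusp k n (f + g) :=
  (hf.isR.add hg.isR).isD ((hf.fin.union hg.fin).subset (Function.support_add f g))

end

end RCan
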