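import Pool.Agent.W_04c03c_h58.Face

/-!
# The push lemma for chains
-/

namespace RCan

variable {V : Type*} (k : Type*) [CommRing k]

/-- the lists with entries in `T`, of rank at most `n`, which are small -/
def TL (sm : V → V → Prop) (rk : V → ℕ) (T : Set V) (n : ℕ) : Set (List V) :=
  {l | Sml sm l ∧ ∀ x ∈ l, x ∈ T ∧ rk x ≤ n}

theorem dn_TL (sm : V → V → Prop) (rk : V → ℕ) (T : Set V) (n : ℕ) : Dn (TL sm rk T n) := by
  intro l hl l' h
  exact ⟨fun x hx y hy => hl.1 x (h hx) y (h hy), fun x hx => hl.2 x (h hx)⟩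

theorem pushc_TL_mono {V : Type*} (sm : V → V → Prop) (rk : V → ℕ) (T : Set V) {n m : ℕ}
    (h : n ≤ m) : TL sm rk T n ⊆ TL sm rk T m := by
  rintro l ⟨h1, h2⟩
  exact ⟨h1, fun x hx => ⟨(h2 x hx).1, (h2 x hx).2.trans h⟩⟩

theorem pushc_pr_mem {V W : Type*} (k : Type*) [CommRing k] {S : Set (List V)} {T : Set (List W)}
    {φ ψ : V → W} {d : ℕ} (hT : Dn T) (h : ∀ l ∈ S, l.map φ ++ l.map ψ ∈ T)
    {c : LC k V} (hc : c ∈ Finsupp.supported k k (S ∩ {l | l.length = d})) :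
    pr k φ ψ c ∈ Finsupp.supported k k (T ∩ {l | l.length = d + 1}) := by
  rw [Finsupp.supported_eq_span_single] at hc
  induction hc using Submodule.span_induction with
  | mem c hc =>
    obtain ⟨l, ⟨hl, hl'⟩, rfl⟩ := hc
    rw [pr_single, one_smul]
    refine Finsupp.supported_mono ?_ (prl_mem φ ψ l)
    rintro l' ⟨h1, h2⟩
    refine ⟨hT _ (h l hl) l' h1, ?_⟩
    rw [Set.mem_ofPred_eq] at hl' ⊢
    rw [h2, hl']
  | zero => rw [map_zero]; exact Submodule.zero_mem _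
  | add a b _ _ ha hb => rw [map_add]; exact Submodule.add_mem _ ha hb
  | smul a b _ hb => rw [map_smul]; exact Submodule.smul_mem _ _ hb

/-- One level of the push: all vertices of rank `n + 1` are replaced by `ps`.

Let `φ v = if v ∈ T ∧ rk v = n + 1 then ps v else v`. For `l ∈ TL sm rk T (n + 1)` the list
`l.map φ` is in `TL sm rk T n` and `l.map id ++ l.map φ ∈ TL sm rk T (n + 1)`: for `x, y ∈ l` one needs
`sm x (φ y)`, `sm (φ x) y`, `sm (φ x) (φ y)`. If `y` is pushed: `sm x y` and `rk x ≤ n + 1 = rk y`, so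
`sm x (ps y)` by `h1`. If `x` and `y` are both pushed: `sm (ps x) y` by symmetry, and
`rk (ps x) ≤ n + 1 = rk y`, `ps x ∈ T`, so `h1` for `w = ps x` gives `sm (ps x) (ps y)`. If only `x` is
pushed: `sm y (ps x)`, symmetry. Take `b = pr k id φ c`: `bd b = mp φ c - mp id c - pr (bd c)`
(`bd_pr`, `mp_id`), and `pr k id φ (bd k c) = 0`. Use `pr_mem`, `mp_mem`. The lengths: the lists of `b`
have length `d + 1` if those of `c` have length `d` (use `prl_mem`; a version of `pr_mem` for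
`S ∩ {length = d}`). -/
theorem push_step (sm : V → V → Prop) (rk : V → ℕ) (ps : V → V) (T : Set V)
    (hs : ∀ v w, sm v w → sm w v) (m n d : ℕ) (hmn : m ≤ n)
    (h1 : ∀ v ∈ T, m < rk v → ps v ∈ T ∧ rk (ps v) < rk v ∧
      ∀ w ∈ T, sm w v → rk w ≤ rk v → sm w (ps v))
    {c : LC k V} (hc : c ∈ Finsupp.supported k k (TL sm rk T (n + 1) ∩ {l | l.length = d}))
    (hb : bd k c = 0) :
    ∃ (φ : V → V) (b : LC k V), (∀ v, φ v = v ∨ (v ∈ T ∧ rk v = n + 1 ∧ φ v = ps v)) ∧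
      (∀ v ∈ T, rk v = n + 1 → φ v = ps v) ∧
      b ∈ Finsupp.supported k k (TL sm rk T (n + 1) ∩ {l | l.length = d + 1}) ∧
      mp k φ c ∈ Finsupp.supported k k (TL sm rk T n ∩ {l | l.length = d}) ∧
      bd k (mp k φ c) = 0 ∧ bd k b = mp k φ c - c := by
  classical
  set φ : V → V := fun v => if v ∈ T ∧ rk v = n + 1 then ps v else v with hφ
  have hφ1 : ∀ v ∈ T, rk v = n + 1 → φ v = ps v := by
    intro v hv hr
    exact if_pos ⟨hv, hr⟩
  have hφ2 : ∀ v, rk v ≠ n + 1 → φ v = v := by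
    intro v hr
    exact if_neg (fun h => hr h.2)
  have hφ3 : ∀ v ∈ T, rk v ≤ n + 1 → φ v ∈ T ∧ rk (φ v) ≤ n := by
    intro v hv hr
    by_cases h : rk v = n + 1
    · obtain ⟨h2, h3, _⟩ := h1 v hv (by omega)
      rw [hφ1 v hv h]
      exact ⟨h2, by omega⟩
    · rw [hφ2 v h]
      exact ⟨hv, by omega⟩
  have hφ4 : ∀ x ∈ T, ∀ y ∈ T, rk x ≤ n + 1 → rk y ≤ n + 1 → sm x y → sm x (φ y) := by
    intro x hx y hy hrx hry hxy
    by_cases h : rk y = n + 1
    · obtain ⟨_, _, h4⟩ := h1 y hy (by omega)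
      rw [hφ1 y hy h]
      exact h4 x hx hxy (by omega)
    · rw [hφ2 y h]
      exact hxy
  have hφ5 : ∀ x ∈ T, ∀ y ∈ T, rk x ≤ n + 1 → rk y ≤ n + 1 → sm x y → sm (φ x) y := by
    intro x hx y hy hrx hry hxy
    exact hs _ _ (hφ4 y hy x hx hry hrx (hs _ _ hxy))
  have hφ6 : ∀ x ∈ T, ∀ y ∈ T, rk x ≤ n + 1 → rk y ≤ n + 1 → sm x y → sm (φ x) (φ y) := by
    intro x hx y hy hrx hry hxy
    obtain ⟨h2, h3⟩ := hφ3 x hx hrx
    exact hφ4 (φ x) h2 y hy (by omega) hry (hφ5 x hx y hy hrx hry hxy)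
  have hA : ∀ l ∈ TL sm rk T (n + 1), l.map φ ∈ TL sm rk T n := by
    rintro l ⟨hl1, hl2⟩
    refine ⟨?_, ?_⟩
    · intro x hx y hy
      obtain ⟨x', hx', rfl⟩ := List.mem_map.1 hx
      obtain ⟨y', hy', rfl⟩ := List.mem_map.1 hy
      exact hφ6 x' (hl2 x' hx').1 y' (hl2 y' hy').1 (hl2 x' hx').2 (hl2 y' hy').2
        (hl1 x' hx' y' hy')
    · intro x hx
      obtain ⟨x', hx', rfl⟩ := List.mem_map.1 hx
      exact hφ3 x' (hl2 x' hx').1 (hl2 x' hx').2
  have hB : ∀ l ∈ TL sm rk T (n + 1), l.map id ++ l.map φ ∈ TL sm rk T (n + 1) := by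
    rintro l ⟨hl1, hl2⟩
    rw [List.map_id]
    refine ⟨?_, ?_⟩
    · intro x hx y hy
      rw [List.mem_append] at hx hy
      rcases hx with hx | hx
      · rcases hy with hy | hy
        · exact hl1 x hx y hy
        · obtain ⟨y', hy', rfl⟩ := List.mem_map.1 hy
          exact hφ4 x (hl2 x hx).1 y' (hl2 y' hy').1 (hl2 x hx).2 (hl2 y' hy').2
            (hl1 x hx y' hy')
      · obtain ⟨x', hx', rfl⟩ := List.mem_map.1 hx
        rcases hy with hy | hy
        · exact hφ5 x' (hl2 x' hx').1 y (hl2 y hy).1 (hl2 x' hx').2 (hl2 y hy).2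
            (hl1 x' hx' y hy)
        · obtain ⟨y', hy', rfl⟩ := List.mem_map.1 hy
          exact hφ6 x' (hl2 x' hx').1 y' (hl2 y' hy').1 (hl2 x' hx').2 (hl2 y' hy').2
            (hl1 x' hx' y' hy')
    · intro x hx
      rw [List.mem_append] at hx
      rcases hx with hx | hx
      · exact hl2 x hx
      · obtain ⟨x', hx', rfl⟩ := List.mem_map.1 hx
        obtain ⟨h2, h3⟩ := hφ3 x' (hl2 x' hx').1 (hl2 x' hx').2
        exact ⟨h2, by omega⟩
  refine ⟨φ, pr k id φ c, ?_, hφ1, ?_, ?_, ?_, ?_⟩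
  · intro v
    by_cases h : v ∈ T ∧ rk v = n + 1
    · exact Or.inr ⟨h.1, h.2, hφ1 v h.1 h.2⟩
    · exact Or.inl (if_neg h)
  · exact pushc_pr_mem k (dn_TL sm rk T (n + 1)) hB hc
  · refine mp_mem ?_ hc
    rintro l ⟨hl1, hl2⟩
    refine ⟨hA l hl1, ?_⟩
    rw [Set.mem_ofPred_eq] at hl2 ⊢
    rw [List.length_map, hl2]
  · rw [bd_mp, hb, map_zero]
  · have h := bd_pr (k := k) (id : V → V) φ c
    rw [hb, map_zero, add_zero, mp_id] at h
    exact h

/-- The push lemma. A cycle `c` of small lists with entries in `T` is homologous (inside `T`) to its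
image under a map `Φ` into the vertices of rank at most `m`. The relation `P` (for instance: `v` lies
near a geodesic from `x` to the base point) is preserved by the pushes.

Proof. Induction on `n`, the statement for `n ≤ m` being trivial (`Φ = id`, `b = 0`). Step: apply
`push_step` to go from `n + 1` to `n`, then the induction hypothesis to `mp k φ c`, and compose:
`Φ = Φ' ∘ φ`, `b = b' + b₁` (`mp_mp`). For `x ∈ T` with `rk x ≤ n + 1`: `φ x ∈ T`, `rk (φ x) ≤ n`, and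
`P x (φ x)`. To pass `P` through the induction let the statement quantify over a relation on starting
points: prove it in the form: for every `Q : V → V → Prop` (start, current) ... i.e. generalize
`∀ (x₀ x), P x₀ x → x ∈ T → rk x ≤ n → P x₀ (Φ x)`. -/
theorem push_chain (sm : V → V → Prop) (rk : V → ℕ) (ps : V → V) (T : Set V)
    (hs : ∀ v w, sm v w → sm w v) (m d : ℕ)
    (h1 : ∀ v ∈ T, m < rk v → ps v ∈ T ∧ rk (ps v) < rk v ∧
      ∀ w ∈ T, sm w v → rk w ≤ rk v → sm w (ps v))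
    (P : V → V → Prop) (hP : ∀ x v, P x v → v ∈ T → m < rk v → P x (ps v)) :
    ∀ (n : ℕ) (c : LC k V), c ∈ Finsupp.supported k k (TL sm rk T n ∩ {l | l.length = d}) →
      bd k c = 0 →
      ∃ (Φ : V → V) (b : LC k V),
        (∀ x₀ x, P x₀ x → x ∈ T → rk x ≤ n → P x₀ (Φ x) ∧ Φ x ∈ T ∧ rk (Φ x) ≤ m) ∧
        b ∈ Finsupp.supported k k (TL sm rk T n ∩ {l | l.length = d + 1}) ∧
        mp k Φ c ∈ Finsupp.supported k k (TL sm rk T m ∩ {l | l.length = d}) ∧
        bd k (mp k Φ c) = 0 ∧ bd k b = mp k Φ c - c := by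
  have triv : ∀ (n : ℕ), n ≤ m → ∀ (c : LC k V),
      c ∈ Finsupp.supported k k (TL sm rk T n ∩ {l | l.length = d}) → bd k c = 0 →
      ∃ (Φ : V → V) (b : LC k V),
        (∀ x₀ x, P x₀ x → x ∈ T → rk x ≤ n → P x₀ (Φ x) ∧ Φ x ∈ T ∧ rk (Φ x) ≤ m) ∧
        b ∈ Finsupp.supported k k (TL sm rk T n ∩ {l | l.length = d + 1}) ∧
        mp k Φ c ∈ Finsupp.supported k k (TL sm rk T m ∩ {l | l.length = d}) ∧
        bd k (mp k Φ c) = 0 ∧ bd k b = mp k Φ c - c := by
    intro n hn c hc hb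
    refine ⟨id, 0, ?_, Submodule.zero_mem _, ?_, ?_, ?_⟩
    · intro x₀ x hP hx hr
      exact ⟨hP, hx, hr.trans hn⟩
    · rw [mp_id]
      exact Finsupp.supported_mono
        (Set.inter_subset_inter_left _ (pushc_TL_mono sm rk T hn)) hc
    · rw [mp_id]
      exact hb
    · rw [mp_id, map_zero, sub_self]
  intro n
  induction n with
  | zero => exact triv 0 (Nat.zero_le m)
  | succ n ih =>
    by_cases hnm : n + 1 ≤ m
    · exact triv (n + 1) hnm
    · intro c hc hb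
      obtain ⟨φ, b₁, hφ1, hφ2, hb1, hc1, hc2, hb2⟩ :=
        push_step k sm rk ps T hs m n d (by omega) h1 hc hb
      obtain ⟨Φ', b', hΦ, hb3, hc3, hc4, hb4⟩ := ih (mp k φ c) hc1 hc2
      refine ⟨Φ' ∘ φ, b' + b₁, ?_, ?_, ?_, ?_, ?_⟩
      · intro x₀ x hx0 hx hr
        show P x₀ (Φ' (φ x)) ∧ Φ' (φ x) ∈ T ∧ rk (Φ' (φ x)) ≤ m
        by_cases h : rk x = n + 1
        · obtain ⟨h2, h3, _⟩ := h1 x hx (by omega)
          rw [hφ2 x hx h]
          exact hΦ x₀ (ps x) (hP x₀ x hx0 hx (by omega)) h2 (by omega)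
        · rcases hφ1 x with h2 | h2
          · rw [h2]
            exact hΦ x₀ x hx0 hx (by omega)
          · exact absurd h2.2.1 h
      · refine Submodule.add_mem _ ?_ hb1
        exact Finsupp.supported_mono
          (Set.inter_subset_inter_left _ (pushc_TL_mono sm rk T (Nat.le_succ n))) hb3
      · rw [← mp_mp]
        exact hc3
      · rw [← mp_mp]
        exact hc4
      · rw [← mp_mp, map_add, hb4, hb2]
        abel

/-- If moreover all vertices of `T` of rank at most `m` are pairwise small, and `T` contains a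
vertex of rank at most `m`, then every cycle in `T` of length at least `0` is a boundary in `T`.

Proof. Apply `push_chain` (with `P = fun _ _ => True`) to get `c' = mp k Φ c`, a cycle supported on
lists with entries of rank `≤ m` in `T`. For a vertex `v₀ ∈ T` of rank `≤ m`: `bd (cn v₀ c') = c'`
(`bd_cn`), and `cn v₀ c'` is supported on small lists (`cn_mem`; all pairs of vertices of rank `≤ m` in
`T` are small, also `v₀` with itself). So `c = bd (cn v₀ c' - b)`. All ranks are `≤ max n m`, lengths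
`d + 1`. -/
theorem cycle_bd (sm : V → V → Prop) (rk : V → ℕ) (ps : V → V) (T : Set V)
    (hs : ∀ v w, sm v w → sm w v) (m d : ℕ)
    (h1 : ∀ v ∈ T, m < rk v → ps v ∈ T ∧ rk (ps v) < rk v ∧
      ∀ w ∈ T, sm w v → rk w ≤ rk v → sm w (ps v))
    (h2 : ∀ v ∈ T, ∀ w ∈ T, rk v ≤ m → rk w ≤ m → sm v w) (h3 : ∃ v ∈ T, rk v ≤ m)
    {c : LC k V} (hc : c ∈ Finsupp.supported k k ({l | Sml sm l ∧ ∀ x ∈ l, x ∈ T} ∩
      {l | l.length = d})) (hb : bd k c = 0) :
    ∃ b ∈ Finsupp.supported k k ({l | Sml sm l ∧ ∀ x ∈ l, x ∈ T} ∩ {l | l.length = d + 1}),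
      bd k b = c := by
  classical
  obtain ⟨v₀, hv0, hr0⟩ := h3
  have hN : ∀ l ∈ c.support, ∀ x ∈ l, rk x ≤ c.support.sup (fun l => (l.map rk).sum) := by
    intro l hl x hx
    refine le_trans ?_ (Finset.le_sup (f := fun l : List V => (l.map rk).sum) hl)
    exact List.single_le_sum (by intro y _; exact Nat.zero_le y) _ (List.mem_map_of_mem hx)
  set N : ℕ := c.support.sup (fun l => (l.map rk).sum) with hNd
  have hc' : c ∈ Finsupp.supported k k (TL sm rk T N ∩ {l | l.length = d}) := by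
    rw [Finsupp.mem_supported] at hc ⊢
    intro l hl
    have h4 := hc hl
    refine ⟨⟨h4.1.1, ?_⟩, h4.2⟩
    intro x hx
    exact ⟨h4.1.2 x hx, hN l (Finset.mem_coe.1 hl) x hx⟩
  obtain ⟨Φ, b, _, hb1, hc1, hc2, hb2⟩ := push_chain k sm rk ps T hs m d h1
    (fun _ _ => True) (fun _ _ _ _ _ => trivial) N c hc' hb
  refine ⟨cn k v₀ (mp k Φ c) - b, ?_, ?_⟩
  · refine Submodule.sub_mem _ ?_ ?_
    · refine cn_mem ?_ hc1
      rintro l ⟨hl1, hl2⟩
      have hall : ∀ x ∈ v₀ :: l, x ∈ T ∧ rk x ≤ m := by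
        intro x hx
        rcases List.mem_cons.1 hx with rfl | hx
        · exact ⟨hv0, hr0⟩
        · exact hl1.2 x hx
      refine ⟨⟨?_, fun x hx => (hall x hx).1⟩, ?_⟩
      · intro x hx y hy
        exact h2 x (hall x hx).1 y (hall y hy).1 (hall x hx).2 (hall y hy).2
      · rw [Set.mem_ofPred_eq] at hl2 ⊢
        rw [List.length_cons, hl2]
    · refine Finsupp.supported_mono (Set.inter_subset_inter_left _ ?_) hb1
      intro l hl
      exact ⟨hl.1, fun x hx => (hl.2 x hx).1⟩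
  · rw [map_sub, bd_cn, hc2, map_zero, sub_zero, hb2]
    abel

/-- Paths: every vertex of `T` is joined inside `T` to a vertex of rank at most `m`, along a path
of small steps.

Proof. Strong induction on `rk v`: if `rk v ≤ m` take `w = v`. Otherwise `sm v (ps v)` (by `h1` with
`w = v`, using `sm v v`), `ps v ∈ T` has smaller rank. -/
theorem path_down (sm : V → V → Prop) (rk : V → ℕ) (ps : V → V) (T : Set V)
    (hr : ∀ v, sm v v) (m : ℕ)
    (h1 : ∀ v ∈ T, m < rk v → ps v ∈ T ∧ rk (ps v) < rk v ∧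
      ∀ w ∈ T, sm w v → rk w ≤ rk v → sm w (ps v)) (v : V) (hv : v ∈ T) :
    ∃ w ∈ T, rk w ≤ m ∧ Relation.ReflTransGen (fun a b => sm a b ∧ a ∈ T ∧ b ∈ T) v w := by
  have key : ∀ (N : ℕ) (v : V), rk v ≤ N → v ∈ T →
      ∃ w ∈ T, rk w ≤ m ∧ Relation.ReflTransGen (fun a b => sm a b ∧ a ∈ T ∧ b ∈ T) v w := by
    intro N
    induction N with
    | zero =>
      intro v hv hvT
      exact ⟨v, hvT, by omega, Relation.ReflTransGen.refl⟩
    | succ N ih =>
      intro v hv hvT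
      by_cases h : rk v ≤ m
      · exact ⟨v, hvT, h, Relation.ReflTransGen.refl⟩
      · obtain ⟨h2, h3, h4⟩ := h1 v hvT (by omega)
        obtain ⟨w, hw, hrw, hp⟩ := ih (ps v) (by omega) h2
        exact ⟨w, hw, hrw, Relation.ReflTransGen.head ⟨h4 v hvT (hr v) le_rfl, hvT, h2⟩ hp⟩
  exact key (rk v) v le_rfl hv

end RCan
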