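import Pool.Agent.W_04c03c_h58.GeoB
import Pool.Agent.W_04c03c_h58.PushC
import Pool.Agent.W_04c03c_h58.Inf

/-!
# Balls are acyclic
-/

namespace RCan

open scoped NNReal

variable {X V : Type*} [MetricSpace X]

/-- an increasing union of balls centred on a ray -/
def HB (γ : GRay X) (c : ℝ) : Set X := {x | ∃ t : ℝ≥0, dist x (γ.1 t) < t + c}

/-- The balls are increasing. -/
theorem ball_mono (γ : GRay X) {c : ℝ} {x : X} {t s : ℝ≥0} (h : dist x (γ.1 t) < t + c)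
    (hts : t ≤ s) : dist x (γ.1 s) < s + c := by
  have h1 := dist_triangle x (γ.1 t) (γ.1 s)
  have h2 : dist (γ.1 t) (γ.1 s) = dist t s := γ.2.dist_eq t s
  rw [h2, NNReal.dist_eq] at h1
  have h3 : |(t : ℝ) - s| = s - t := by
    rw [abs_sub_comm, abs_of_nonneg]
    have := NNReal.coe_le_coe.2 hts
    linarith
  rw [h3] at h1
  linarith

theorem geoca_far {δ : ℝ} {pt : V → X} {p : X} {v : V} (h : ⌈ro δ⌉₊ < rkp pt p v) :
    ro δ ≤ dist (pt v) p := by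
  unfold rkp at h
  have h1 : ro δ ≤ (⌈ro δ⌉₊ : ℝ) := Nat.le_ceil _
  have h2 : (⌈ro δ⌉₊ : ℝ) ≤ (⌊dist (pt v) p⌋₊ : ℝ) := by exact_mod_cast h.le
  have h3 : (⌊dist (pt v) p⌋₊ : ℝ) ≤ dist (pt v) p := Nat.floor_le dist_nonneg
  linarith

theorem geoca_near {δ : ℝ} (hδ : 0 ≤ δ) {pt : V → X} {p : X} {v w : V}
    (hv : rkp pt p v ≤ ⌈ro δ⌉₊) (hw : rkp pt p w ≤ ⌈ro δ⌉₊) : smr δ pt v w := by
  have h0 : (⌈ro δ⌉₊ : ℝ) < ro δ + 1 := Nat.ceil_lt_add_one (by unfold ro; linarith)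
  have key : ∀ u : V, rkp pt p u ≤ ⌈ro δ⌉₊ → dist (pt u) p < 2 * δ + 5 := by
    intro u hu
    unfold rkp at hu
    have h1 : dist (pt u) p < (⌊dist (pt u) p⌋₊ : ℝ) + 1 := Nat.lt_floor_add_one _
    have h2 : (⌊dist (pt u) p⌋₊ : ℝ) ≤ (⌈ro δ⌉₊ : ℝ) := by exact_mod_cast hu
    have h3 : ro δ = 2 * δ + 3 := rfl
    linarith
  have h4 := key v hv
  have h5 := key w hw
  have h6 := dist_triangle_right (pt v) (pt w) p
  unfold smr sc
  linarith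

/-- Balls are acyclic.

Proof. `cycle_bd` with `T = {v | dist (pt v) p < R}`, `rk = rkp pt p`, `ps` from `exists_push`, the
threshold `m₀ = ⌈ro δ⌉₊`: if `m₀ < rkp pt p v` then `ro δ ≤ dist (pt v) p`. Vertices of rank `≤ m₀` have
`dist (pt v) p < m₀ + 1 < ro δ + 2`, so two of them are at distance `< 4 δ + 10 ≤ sc δ`. There is a net
point within `1` of `p`, so in `T`, of rank `≤ 1 ≤ m₀`. -/
theorem ac_ball {δ : ℝ} (hδ : Hyp4 X δ) (hG : IsGeod X) {pt : V → X} (hN : IsNet pt) (p : X) {R : ℝ}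
    (hR : 1 < R) (k : Type) [Field k] (m : ℕ) :
    ∀ c ∈ Finsupp.supported k k (SmT (smr δ pt) {v | dist (pt v) p < R} m), bd k c = 0 →
      ∃ b ∈ Finsupp.supported k k (SmT (smr δ pt) {v | dist (pt v) p < R} (m + 1)), bd k b = c := by
  intro c hc hb
  obtain ⟨ps, hps⟩ := exists_push hδ hG hN p
  have h1 : ∀ u ∈ {v | dist (pt v) p < R}, ⌈ro δ⌉₊ < rkp pt p u →
      ps u ∈ {v | dist (pt v) p < R} ∧ rkp pt p (ps u) < rkp pt p u ∧
      ∀ x ∈ {v | dist (pt v) p < R}, smr δ pt x u → rkp pt p x ≤ rkp pt p u →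
        smr δ pt x (ps u) := by
    intro u hu hlt
    obtain ⟨a1, a2, a3, _, _⟩ := hps u (geoca_far hlt)
    exact ⟨lt_of_le_of_lt a3 hu, a1, fun x _ hx hr => a2 x hx hr⟩
  have hs : ∀ v w, smr δ pt v w → smr δ pt w v := by
    intro v w h
    unfold smr at h ⊢
    rw [dist_comm]
    exact h
  have h3 : ∃ v ∈ {v | dist (pt v) p < R}, rkp pt p v ≤ ⌈ro δ⌉₊ := by
    obtain ⟨v, hv⟩ := hN.dense p
    rw [dist_comm] at hv
    refine ⟨v, lt_of_le_of_lt hv hR, ?_⟩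
    unfold rkp
    have h4 : ⌊dist (pt v) p⌋₊ ≤ 1 := by
      have h5 := Nat.floor_le_floor hv
      rwa [Nat.floor_one] at h5
    have h6 : 1 ≤ ⌈ro δ⌉₊ := by
      rw [Nat.one_le_ceil_iff]
      unfold ro
      linarith [hδ.1]
    omega
  have hc' : c ∈ Finsupp.supported k k
      ({l | Sml (smr δ pt) l ∧ ∀ x ∈ l, x ∈ {v | dist (pt v) p < R}} ∩ {l | l.length = m}) :=
    hc
  obtain ⟨b, hb1, hb2⟩ := cycle_bd k (smr δ pt) (rkp pt p) ps {v | dist (pt v) p < R} hs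
    ⌈ro δ⌉₊ m h1 (fun v _ w _ hv hw => geoca_near hδ.1 hv hw) h3 hc' hb
  exact ⟨b, hb1, hb2⟩

end RCan
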