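import Pool.Agent.W_04c03c_h58.Def
/-!
# Virtually `ℤ²` groups
-/

namespace RCan

/-- virtually `ℤ²` groups, with a normal subgroup -/
def VZ (P : Type*) [Group P] : Prop :=
  ∃ A : Subgroup P, A.Normal ∧ A.index ≠ 0 ∧ Nonempty (A ≃* Multiplicative (ℤ × ℤ))

/-- Subgroups of finite index of `ℤ²` are isomorphic to `ℤ²`.

Proof. Let `L : AddSubgroup (ℤ × ℤ)` be the image of `K` under `e` (`K ≃* K.map e`, and `L` has index
`K.index = n ≠ 0`). `L` is a submodule (`AddSubgroup.toIntSubmodule`) of the free module `ℤ × ℤ` over a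
principal ideal domain, so it is free (instance) and `finrank L ≤ 2` (`Submodule.finrank_le`);
`n • x ∈ L` for all `x` (`AddSubgroup.nsmul_index_mem`), and `x ↦ n • x` is an injective linear map
`ℤ × ℤ → L`, so `finrank L = 2` (`LinearMap.finrank_le_finrank_of_injective`). Then `L ≃ₗ[ℤ] ℤ × ℤ`
(`LinearEquiv.ofFinrankEq`). -/
theorem z2_sub {A : Type*} [Group A] (e : A ≃* Multiplicative (ℤ × ℤ)) (K : Subgroup A)
    (hK : K.index ≠ 0) : Nonempty (K ≃* Multiplicative (ℤ × ℤ)) := by
  have hcomm : ∀ a b : A, a * b = b * a := by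
    intro a b
    apply e.injective
    rw [map_mul, map_mul, mul_comm]
  have hN : K.Normal := ⟨fun k hk g => by
    rw [hcomm g k, mul_assoc, mul_inv_cancel, mul_one]
    exact hk⟩
  let L : Submodule ℤ (ℤ × ℤ) :=
    { carrier := {x | e.symm (Multiplicative.ofAdd x) ∈ K}
      add_mem' := by
        intro a b ha hb
        show e.symm (Multiplicative.ofAdd (a + b)) ∈ K
        rw [ofAdd_add, map_mul]
        exact K.mul_mem ha hb
      zero_mem' := by
        show e.symm (Multiplicative.ofAdd 0) ∈ K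
        rw [ofAdd_zero, map_one]
        exact K.one_mem
      smul_mem' := by
        intro c x hx
        show e.symm (Multiplicative.ofAdd (c • x)) ∈ K
        rw [ofAdd_zsmul, map_zpow]
        exact K.zpow_mem hx c }
  have hL : ∀ x : ℤ × ℤ, x ∈ L ↔ e.symm (Multiplicative.ofAdd x) ∈ K := fun x => Iff.rfl
  have hnx : ∀ x : ℤ × ℤ, (K.index : ℤ) • x ∈ L := by
    intro x
    rw [hL, ofAdd_zsmul, map_zpow, zpow_natCast]
    exact K.pow_index_mem _
  have hr1 : Module.finrank ℤ L ≤ 2 := by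
    have h1 := Submodule.finrank_le L
    have h2 : Module.finrank ℤ (ℤ × ℤ) = 2 := by
      rw [Module.finrank_prod, Module.finrank_self]
    omega
  let F : (ℤ × ℤ) →ₗ[ℤ] L :=
    LinearMap.codRestrict L ((K.index : ℤ) • (LinearMap.id : (ℤ × ℤ) →ₗ[ℤ] (ℤ × ℤ))) hnx
  have hF : Function.Injective F := by
    intro x y hxy
    have h1 : (K.index : ℤ) • x = (K.index : ℤ) • y := congrArg Subtype.val hxy
    have h2 : (K.index : ℤ) ≠ 0 := by exact_mod_cast hK
    exact smul_right_injective (ℤ × ℤ) h2 h1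
  have hr2 : 2 ≤ Module.finrank ℤ L := by
    have h1 := LinearMap.finrank_le_finrank_of_injective hF
    have h2 : Module.finrank ℤ (ℤ × ℤ) = 2 := by
      rw [Module.finrank_prod, Module.finrank_self]
    omega
  have hr : Module.finrank ℤ L = Module.finrank ℤ (ℤ × ℤ) := by
    have h2 : Module.finrank ℤ (ℤ × ℤ) = 2 := by
      rw [Module.finrank_prod, Module.finrank_self]
    omega
  let E : L ≃ₗ[ℤ] (ℤ × ℤ) := LinearEquiv.ofFinrankEq L (ℤ × ℤ) hr
  have hmem : ∀ k : K, Multiplicative.toAdd (e (k : A)) ∈ L := by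
    intro k
    rw [hL, ofAdd_toAdd, e.symm_apply_apply]
    exact k.2
  let f : K →* Multiplicative (ℤ × ℤ) :=
    { toFun := fun k => Multiplicative.ofAdd (E ⟨Multiplicative.toAdd (e (k : A)), hmem k⟩)
      map_one' := by
        have h1 : (⟨Multiplicative.toAdd (e ((1 : K) : A)), hmem 1⟩ : L) = 0 := by
          apply Subtype.ext
          show Multiplicative.toAdd (e ((1 : K) : A)) = 0
          rw [Subgroup.coe_one, map_one, toAdd_one]
        rw [h1, map_zero, ofAdd_zero]
      map_mul' := by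
        intro a b
        have h1 : (⟨Multiplicative.toAdd (e ((a * b : K) : A)), hmem (a * b)⟩ : L) =
            ⟨Multiplicative.toAdd (e (a : A)), hmem a⟩ +
              ⟨Multiplicative.toAdd (e (b : A)), hmem b⟩ := by
          apply Subtype.ext
          show Multiplicative.toAdd (e ((a * b : K) : A)) =
            Multiplicative.toAdd (e (a : A)) + Multiplicative.toAdd (e (b : A))
          rw [Subgroup.coe_mul, map_mul, toAdd_mul]
        rw [h1, map_add, ofAdd_add] }
  refine ⟨MulEquiv.ofBijective f ⟨?_, ?_⟩⟩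
  · intro a b hab
    have h1 : E ⟨Multiplicative.toAdd (e (a : A)), hmem a⟩ =
        E ⟨Multiplicative.toAdd (e (b : A)), hmem b⟩ := Multiplicative.ofAdd.injective hab
    have h2 := congrArg Subtype.val (E.injective h1)
    have h3 : e (a : A) = e (b : A) := Multiplicative.toAdd.injective h2
    exact Subtype.ext (e.injective h3)
  · intro y
    obtain ⟨⟨x, hx⟩, hxy⟩ := E.surjective (Multiplicative.toAdd y)
    refine ⟨⟨e.symm (Multiplicative.ofAdd x), (hL x).1 hx⟩, ?_⟩
    show Multiplicative.ofAdd (E ⟨Multiplicative.toAdd (e (e.symm (Multiplicative.ofAdd x))), _⟩) = y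
    have h1 : (⟨Multiplicative.toAdd (e (e.symm (Multiplicative.ofAdd x))),
        hmem ⟨e.symm (Multiplicative.ofAdd x), (hL x).1 hx⟩⟩ : L) = ⟨x, hx⟩ := by
      apply Subtype.ext
      show Multiplicative.toAdd (e (e.symm (Multiplicative.ofAdd x))) = x
      rw [e.apply_symm_apply, toAdd_ofAdd]
    rw [h1, hxy, ofAdd_toAdd]

/-- Relative form of `z2_sub`. -/
theorem z2_rel {P : Type*} [Group P] {A B : Subgroup P} (e : A ≃* Multiplicative (ℤ × ℤ))
    (hBA : B ≤ A) (hB : B.relIndex A ≠ 0) : Nonempty (B ≃* Multiplicative (ℤ × ℤ)) := by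
  obtain ⟨f⟩ := z2_sub e (B.subgroupOf A) hB
  exact ⟨(Subgroup.subgroupOfEquivOfLe hBA).symm.trans f⟩

theorem VZ.equiv {P Q : Type*} [Group P] [Group Q] (e : P ≃* Q) (h : VZ P) : VZ Q := by
  obtain ⟨A, hA, hi, ⟨f⟩⟩ := h
  refine ⟨A.map (e : P →* Q), hA.map (e : P →* Q) e.surjective, ?_, ⟨?_⟩⟩
  · rw [Subgroup.index_map_equiv]
    exact hi
  · exact (e.subgroupMap A).symm.trans f

/-- Proof. Let `A ≤ H` have finite index, `A ≃* ℤ²`, and `A' = A.subgroupOf H ≃* A`. Its normal core in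
`H` has finite index in `H`, is normal, and is isomorphic to a subgroup of finite index of `A'`
(`z2_sub`). -/
theorem VZ.of_virtZ2 {G : Type*} [Group G] {H : Subgroup G} (h : VirtZ2 H) : VZ H := by
  obtain ⟨A, hAH, hi, ⟨f⟩⟩ := h
  have hfi : (A.subgroupOf H).FiniteIndex := ⟨hi⟩
  have h1 : (A.subgroupOf H).normalCore.index ≠ 0 :=
    (inferInstance : (A.subgroupOf H).normalCore.FiniteIndex).index_ne_zero
  refine ⟨(A.subgroupOf H).normalCore, inferInstance, h1, ?_⟩
  refine z2_rel ((Subgroup.subgroupOfEquivOfLe hAH).trans f)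
    (Subgroup.normalCore_le (A.subgroupOf H)) ?_
  intro h0
  apply h1
  rw [← Subgroup.relIndex_mul_index (Subgroup.normalCore_le (A.subgroupOf H)), h0, zero_mul]

/-- Proof. `A.subgroupOf K` is normal, of finite index in `K`, and isomorphic to `K.subgroupOf A`, a
subgroup of finite index of `A` (`z2_sub`). -/
theorem VZ.sub {P : Type*} [Group P] (h : VZ P) (K : Subgroup P) (hK : K.index ≠ 0) : VZ K := by
  obtain ⟨A, hA, hi, ⟨f⟩⟩ := h
  have h1 : (A.subgroupOf K).index ≠ 0 := by
    intro h0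
    apply hi
    have h2 : A.relIndex K ∣ A.index := Subgroup.relIndex_dvd_index_of_normal A K
    rw [Subgroup.relIndex, h0] at h2
    exact Nat.eq_zero_of_zero_dvd h2
  refine ⟨A.subgroupOf K, inferInstance, h1, ?_⟩
  have hKA : (A ⊓ K).relIndex A ≠ 0 := by
    rw [Subgroup.inf_relIndex_left]
    intro h0
    exact hK (Subgroup.index_eq_zero_of_relIndex_eq_zero h0)
  obtain ⟨g⟩ := z2_rel f (inf_le_left : A ⊓ K ≤ A) hKA
  have h3 : (A ⊓ K).subgroupOf K = A.subgroupOf K := Subgroup.inf_subgroupOf_right A K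
  exact ⟨(MulEquiv.subgroupCongr h3.symm).trans
    ((Subgroup.subgroupOfEquivOfLe (inf_le_right : A ⊓ K ≤ K)).trans g)⟩

/-- An element of infinite order. -/
theorem VZ.exists_inf {P : Type*} [Group P] (h : VZ P) :
    ∃ A : Subgroup P, A.Normal ∧ A.index ≠ 0 ∧ (∀ a ∈ A, ∀ b ∈ A, a * b = b * a) ∧
      ∃ z ∈ A, ∀ n : ℕ, 0 < n → z ^ n ≠ 1 := by
  obtain ⟨A, hA, hi, ⟨f⟩⟩ := h
  refine ⟨A, hA, hi, ?_, ?_⟩
  · intro a ha b hb
    have h1 : (⟨a, ha⟩ : A) * ⟨b, hb⟩ = ⟨b, hb⟩ * ⟨a, ha⟩ := by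
      apply f.injective
      rw [map_mul, map_mul, mul_comm]
    exact congrArg Subtype.val h1
  · refine ⟨f.symm (Multiplicative.ofAdd (1, 0)), (f.symm (Multiplicative.ofAdd (1, 0))).2, ?_⟩
    intro n hn h0
    have h1 : (f.symm (Multiplicative.ofAdd ((1, 0) : ℤ × ℤ))) ^ n = 1 := by
      apply Subtype.ext
      rw [Subgroup.coe_pow, h0, Subgroup.coe_one]
    rw [← map_pow, ← ofAdd_nsmul] at h1
    have h2 : Multiplicative.ofAdd (n • ((1, 0) : ℤ × ℤ)) = 1 := by
      apply f.symm.injective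
      rw [h1, map_one]
    have h3 : n • ((1, 0) : ℤ × ℤ) = 0 := Multiplicative.ofAdd.injective h2
    have h4 := congrArg Prod.fst h3
    simp at h4
    omega

end RCan
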