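import Pool.Agent.W_04c03c_h58.GrA
/-!
# Torsion-free virtually `ℤ²` groups have a center
-/

namespace RCan

/-- Proof. `det (M - 1) = 0` as `M - 1` kills `v ≠ 0`; `det (M - 1) = det M - trace M + 1`, so
`trace M = 2`. By Cayley-Hamilton (or directly for `2 × 2` matrices: `M * M = trace M • M - det M • 1`)
`E = M - 1` satisfies `E * E = 0`. So `1 = M ^ n = 1 + n • E` (induction on `n`) and `E = 0`. -/
theorem mat_one (M : Matrix (Fin 2) (Fin 2) ℤ) {n : ℕ} (hn : 0 < n) (hM : M ^ n = 1)
    {v : Fin 2 → ℤ} (hv : v ≠ 0) (hMv : M.mulVec v = v) (hdet : M.det = 1) : M = 1 := by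
  have h0 := congrFun hMv 0
  have h1 := congrFun hMv 1
  simp only [Matrix.mulVec, dotProduct, Fin.sum_univ_two] at h0 h1
  rw [Matrix.det_fin_two] at hdet
  set a := M 0 0 with ha
  set b := M 0 1 with hb
  set c := M 1 0 with hc
  set d := M 1 1 with hd
  have hD : ((a - 1) * (d - 1) - b * c) = 0 := by
    have hx : ((a - 1) * (d - 1) - b * c) * v 0 = 0 := by
      linear_combination (d - 1) * h0 - b * h1
    have hy : ((a - 1) * (d - 1) - b * c) * v 1 = 0 := by
      linear_combination (a - 1) * h1 - c * h0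
    rcases mul_eq_zero.1 hx with h | h
    · exact h
    · rcases mul_eq_zero.1 hy with h' | h'
      · exact h'
      · exfalso
        apply hv
        funext i
        fin_cases i
        · exact h
        · exact h'
  have htr : a + d = 2 := by linear_combination hdet - hD
  have hE : ∀ k : ℕ, M ^ k = 1 + (k : ℤ) • (M - 1) := by
    intro k
    induction k with
    | zero => simp
    | succ k ih =>
      have hEE : (M - 1) * (M - 1) = 0 := by
        ext i j
        fin_cases i <;> fin_cases j <;>
          simp [Matrix.mul_apply, Fin.sum_univ_two, Matrix.one_apply, ← ha, ← hb, ← hc, ← hd]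
        · linear_combination (a - 1) * htr - hD
        · linear_combination b * htr
        · linear_combination c * htr
        · linear_combination (d - 1) * htr - hD
      have h2 : M = 1 + (M - 1) := by abel
      rw [pow_succ, ih]
      calc (1 + (k : ℤ) • (M - 1)) * M = (1 + (k : ℤ) • (M - 1)) * (1 + (M - 1)) := by rw [← h2]
        _ = 1 + (M - 1) + (k : ℤ) • (M - 1) + (k : ℤ) • ((M - 1) * (M - 1)) := by
          rw [add_mul, one_mul, mul_add, mul_one, smul_mul_assoc]
          abel
        _ = 1 + ((k + 1 : ℕ) : ℤ) • (M - 1) := by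
          rw [hEE, smul_zero, add_zero]
          push_cast
          rw [add_smul, one_smul]
          abel
  have h3 := hE n
  rw [hM] at h3
  have h4 : (n : ℤ) • (M - 1) = 0 := by
    have : (1 : Matrix (Fin 2) (Fin 2) ℤ) + (n : ℤ) • (M - 1) = 1 + 0 := by rw [← h3, add_zero]
    exact add_left_cancel this
  have h5 : M - 1 = 0 := by
    rcases smul_eq_zero.1 h4 with h | h
    · exfalso
      have : n = 0 := by exact_mod_cast h
      omega
    · exact h
  exact sub_eq_zero.1 h5

/-- A torsion-free virtually `ℤ²` group has a central element in `A`.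

Proof. Conjugation by `g` on `A ≃ ℤ²` gives a matrix `M g` (`Matrix (Fin 2) (Fin 2) ℤ`) with
`M (g * h) = M g * M h`, `M 1 = 1` and `M a = 1` for `a ∈ A` (`A` is commutative);
`det (M g) = 1` or `-1`. Let `n = A.index`, `g ^ n ∈ A` (`Subgroup.pow_index_mem`), so `(M g) ^ n = 1`. If
`g ≠ 1` then `v = g ^ n ≠ 1` (`hT`) is fixed by the conjugation by `g`. So `det (M g) = 1` implies
`M g = 1` (`mat_one`). If `M g = 1` for all `g`, then `A` is central; take any `z ≠ 1` in `A`. Otherwise
let `M g₀ ≠ 1`, so `det (M g₀) = -1`, `z = g₀ ^ n ∈ A`, `z ≠ 1`. For `g : P`: if `det (M g) = 1` then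
`M g = 1`, if `det (M g) = -1` then `det (M (g₀⁻¹ * g)) = 1` so `M g = M g₀`; in both cases `M g` fixes
`z`. -/
theorem exists_central {P : Type*} [Group P] (hT : ∀ (g : P) (n : ℕ), 0 < n → g ^ n = 1 → g = 1)
    (A : Subgroup P) [A.Normal] (hA : A.index ≠ 0) (e : A ≃* Multiplicative (ℤ × ℤ)) :
    ∃ z ∈ A, z ≠ 1 ∧ ∀ g : P, g * z = z * g := by
  classical
  let E : Additive A ≃+ (Fin 2 → ℤ) :=
    (MulEquiv.toAdditiveLeft e).trans (LinearEquiv.finTwoArrow ℤ ℤ).symm.toAddEquiv
  -- the action on the lattice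
  let L : P → ((Fin 2 → ℤ) →ₗ[ℤ] (Fin 2 → ℤ)) := fun g =>
    (AddMonoidHom.toIntLinearMap
      ((E.toAddMonoidHom.comp (MonoidHom.toAdditive (MulAut.conjNormal g : MulAut A).toMonoidHom)).comp
        E.symm.toAddMonoidHom))
  have hL : ∀ (g : P) (a : A), L g (E (Additive.ofMul a)) =
      E (Additive.ofMul (MulAut.conjNormal g a)) := by
    intro g a
    show E (MonoidHom.toAdditive (MulAut.conjNormal g : MulAut A).toMonoidHom
      (E.symm (E (Additive.ofMul a)))) = _
    rw [E.symm_apply_apply]
    rfl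
  have hsurj : ∀ v : Fin 2 → ℤ, ∃ a : A, v = E (Additive.ofMul a) := fun v =>
    ⟨Additive.toMul (E.symm v), (E.apply_symm_apply v).symm⟩
  have hLmul : ∀ g h, L (g * h) = L g * L h := by
    intro g h
    apply LinearMap.ext
    intro v
    obtain ⟨a, rfl⟩ := hsurj v
    rw [Module.End.mul_apply, hL, hL, hL, map_mul, MulAut.mul_apply]
  have hLone : L 1 = 1 := by
    apply LinearMap.ext
    intro v
    obtain ⟨a, rfl⟩ := hsurj v
    rw [hL, map_one]
    rfl
  let MM : P →* Matrix (Fin 2) (Fin 2) ℤ :=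
    { toFun := fun g => LinearMap.toMatrix' (L g)
      map_one' := by rw [hLone, LinearMap.toMatrix'_one]
      map_mul' := fun g h => by rw [hLmul, LinearMap.toMatrix'_mul] }
  have hMM : ∀ g v, (MM g).mulVec v = L g v := fun g v => LinearMap.toMatrix'_mulVec _ _
  have hMM1 : ∀ g, (∀ v, L g v = v) → MM g = 1 := by
    intro g h
    have h1 : L g = 1 := LinearMap.ext h
    show LinearMap.toMatrix' (L g) = 1
    rw [h1, LinearMap.toMatrix'_one]
  have hcomm : ∀ a b : A, a * b = b * a := by
    intro a b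
    apply e.injective
    rw [map_mul, map_mul, mul_comm]
  have hA1 : ∀ a ∈ A, MM a = 1 := by
    intro a ha
    apply hMM1
    intro v
    obtain ⟨b, rfl⟩ := hsurj v
    rw [hL]
    congr 2
    apply Subtype.ext
    rw [MulAut.conjNormal_apply]
    have h1 := congrArg Subtype.val (hcomm ⟨a, ha⟩ b)
    have h1 : a * (b : P) = b * a := h1
    rw [h1, mul_inv_cancel_right]
  have hfix : ∀ (g z : P) (hz : z ∈ A), (MM g).mulVec (E (Additive.ofMul ⟨z, hz⟩)) =
      E (Additive.ofMul ⟨z, hz⟩) ↔ g * z = z * g := by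
    intro g z hz
    rw [hMM, hL]
    constructor
    · intro h
      have h1 : (MulAut.conjNormal g (⟨z, hz⟩ : A)) = ⟨z, hz⟩ :=
        Additive.ofMul.injective (E.injective h)
      have h2 := congrArg Subtype.val h1
      rw [MulAut.conjNormal_apply] at h2
      exact mul_inv_eq_iff_eq_mul.1 h2
    · intro h
      congr 2
      apply Subtype.ext
      rw [MulAut.conjNormal_apply]
      exact mul_inv_eq_iff_eq_mul.2 h
  have hdet : ∀ g, (MM g).det = 1 ∨ (MM g).det = -1 := by
    intro g
    have h1 : (MM g).det * (MM g⁻¹).det = 1 := by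
      rw [← Matrix.det_mul, ← map_mul, mul_inv_cancel, map_one, Matrix.det_one]
    exact Int.isUnit_iff.1 (IsUnit.of_mul_eq_one _ h1)
  have hone : ∀ g, (MM g).det = 1 → MM g = 1 := by
    intro g hg
    by_cases hg1 : g = 1
    · rw [hg1, map_one]
    · obtain ⟨n, hn, -, hnA⟩ := Subgroup.exists_pow_mem_of_index_ne_zero hA g
      refine mat_one (MM g) hn ?_ (v := E (Additive.ofMul ⟨g ^ n, hnA⟩)) ?_ ?_ hg
      · rw [← map_pow]
        exact hA1 _ hnA
      · intro h0
        have h1 : Additive.ofMul (⟨g ^ n, hnA⟩ : A) = 0 := by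
          apply E.injective
          rw [h0, map_zero]
        have h2 : (⟨g ^ n, hnA⟩ : A) = 1 := h1
        have h3 : g ^ n = 1 := congrArg Subtype.val h2
        exact hg1 (hT g n hn h3)
      · rw [hfix]
        rw [← pow_succ', ← pow_succ]
  by_cases hall : ∀ g, MM g = 1
  · refine ⟨((e.symm (Multiplicative.ofAdd ((1 : ℤ), (0 : ℤ))) : A) : P), SetLike.coe_mem _,
      ?_, ?_⟩
    · intro h
      have h1 : e.symm (Multiplicative.ofAdd ((1 : ℤ), (0 : ℤ))) = 1 := Subtype.ext h
      have h2 : Multiplicative.ofAdd ((1 : ℤ), (0 : ℤ)) = 1 := by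
        have := congrArg e h1
        rwa [e.apply_symm_apply, map_one] at this
      have h3 : ((1 : ℤ), (0 : ℤ)) = (0 : ℤ × ℤ) := h2
      have h4 := congrArg Prod.fst h3
      exact one_ne_zero h4
    · intro g
      rw [← hfix g _ (SetLike.coe_mem _), hall g, Matrix.one_mulVec]
  · push Not at hall
    obtain ⟨g₀, hg₀⟩ := hall
    have hd0 : (MM g₀).det = -1 := by
      rcases hdet g₀ with h | h
      · exact absurd (hone g₀ h) hg₀
      · exact h
    obtain ⟨n, hn, -, hnA⟩ := Subgroup.exists_pow_mem_of_index_ne_zero hA g₀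
    refine ⟨g₀ ^ n, hnA, ?_, ?_⟩
    · intro h
      apply hg₀
      rw [hT g₀ n hn h, map_one]
    · intro g
      rw [← hfix g _ hnA]
      rcases hdet g with h | h
      · rw [hone g h, Matrix.one_mulVec]
      · have h1 : (MM g₀⁻¹).det = -1 := by
          have h2 : (MM g₀).det * (MM g₀⁻¹).det = 1 := by
            rw [← Matrix.det_mul, ← map_mul, mul_inv_cancel, map_one, Matrix.det_one]
          rw [hd0] at h2
          linarith
        have h2 : MM (g₀⁻¹ * g) = 1 := by
          apply hone
          rw [map_mul, Matrix.det_mul, h1, h]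
          norm_num
        have h3 : MM g = MM g₀ := by
          have h4 : g = g₀ * (g₀⁻¹ * g) := by rw [mul_inv_cancel_left]
          rw [h4, map_mul, h2, mul_one]
        rw [h3, hfix]
        rw [← pow_succ', ← pow_succ]

end RCan
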