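import Pool.Agent.W_04c03c_h58.CuspA
/-!
# Two horoballs
-/

namespace RCan

open Set
open scoped NNReal Pointwise

variable {X : Type*} [MetricSpace X] {δ : ℝ}

/-- Two horoballs with different centres have a bounded intersection.

Proof. Let `M` be the bound of `gp_bdd` for the Gromov products `gp o (γ s) (γ' t)`. Let `x` be in the
intersection; for `t` large `dist x (γ t) < t + c` and `dist x (γ' t) < t + c'` (`ball_mono`). With
`a = dist o (γ 0)`, `a' = dist o (γ' 0)`: `t - a ≤ dist o (γ t) ≤ t + a`, the same for `γ'`, so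
`dist (γ t) (γ' t) = dist o (γ t) + dist o (γ' t) - 2 gp ≥ 2 t - a - a' - 2 M`. Four point condition (`hδ.2`)
`dist x o + dist (γ t) (γ' t) ≤ max (dist x (γ t) + dist o (γ' t)) (dist x (γ' t) + dist o (γ t)) + 2 δ
≤ 2 t + max (c + a') (c' + a) + 2 δ`. So `dist o x ≤ a + a' + 2 M + max (c + a') (c' + a) + 2 δ`. -/
theorem bdd_two_horo [ProperSpace X] (hδ : Hyp4 X δ) (hG : IsGeod X) {γ γ' : GRay X}
    (h : ¬ (asym X).r γ γ') (c c' : ℝ) (o : X) :
    ∃ R : ℝ, ∀ x, x ∈ HB γ c → x ∈ HB γ' c' → dist o x ≤ R := by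
  obtain ⟨M, hM⟩ := gp_bdd hδ hG (o := o) h
  refine ⟨dist o (γ.1 0) + dist o (γ'.1 0) + 2 * M +
    max (c + dist o (γ'.1 0)) (c' + dist o (γ.1 0)) + 2 * δ, fun x hx hx' => ?_⟩
  obtain ⟨s, hs⟩ := hx
  obtain ⟨s', hs'⟩ := hx'
  obtain ⟨t, ht⟩ : ∃ t, t = max s s' := ⟨_, rfl⟩
  have h1 := ball_mono γ hs (ht ▸ le_max_left s s' : s ≤ t)
  have h2 := ball_mono γ' hs' (ht ▸ le_max_right s s' : s' ≤ t)
  have h3 := hM t t
  unfold gp at h3
  have h4 := hδ.2 x o (γ.1 t) (γ'.1 t)
  have h5 := dist_triangle o (γ.1 0) (γ.1 t)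
  have h6 := dist_triangle o (γ'.1 0) (γ'.1 t)
  have h7 := dist_triangle (γ.1 0) o (γ.1 t)
  have h8 := dist_triangle (γ'.1 0) o (γ'.1 t)
  rw [Horo_dist_zero] at h5 h6 h7 h8
  rw [dist_comm (γ.1 0) o] at h7
  rw [dist_comm (γ'.1 0) o] at h8
  rw [dist_comm x o] at h4
  have h9 : max (dist x (γ.1 t) + dist o (γ'.1 t)) (dist x (γ'.1 t) + dist o (γ.1 t)) ≤
      2 * t + max (c + dist o (γ'.1 0)) (c' + dist o (γ.1 0)) := by
    apply max_le
    · have := le_max_left (c + dist o (γ'.1 0)) (c' + dist o (γ.1 0))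
      linarith
    · have := le_max_right (c + dist o (γ'.1 0)) (c' + dist o (γ.1 0))
      linarith
  linarith

/-- The `R`-neighbourhood of a horoball is contained in a horoball. (Triangle inequality.) -/
theorem HB_nbhd {γ : GRay X} {c R : ℝ} {x y : X} (hy : y ∈ HB γ c) (h : dist x y ≤ R) :
    x ∈ HB γ (c + R) := by
  obtain ⟨t, ht⟩ := hy
  refine ⟨t, ?_⟩
  have := dist_triangle x y (γ.1 t)
  linarith

variable {N : Type*} [Group N] [MulAction N X] {𝓗 : Set (Set X)}

/-- Different horoballs have a finite common stabilizer.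

Proof. `B = HB γ c`, `B' = HB γ' c'` (`horo_HB`), disjoint by `hC.disj`, so `γ, γ'` are not asymptotic
(`horo_not_asym`). Let `b ∈ B`, `b' ∈ B'` (horoballs are nonempty, `ray_mem_HB`), `r = dist b b'`. If `g`
preserves `B` and `B'` then `g • b ∈ B` and `dist (g • b) (g • b') = r` with `g • b' ∈ B'`, so
`g • b ∈ HB γ c` and `g • b ∈ HB γ' (c' + r)` (`HB_nbhd`). By `bdd_two_horo` (with `o = b`)
`dist b (g • b) ≤ R`. The closed ball `K` around `b` of radius `max R 0` is compact, and `b, g • b ∈ K`, so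
`(g • K) ∩ K` is nonempty; `hC.pd`. -/
theorem finite_stab_two [ProperSpace X] (hδ : Hyp4 X δ) (hG : IsGeod X) (hC : Cusped N 𝓗)
    {B B' : Set X} (hB : B ∈ 𝓗) (hB' : B' ∈ 𝓗) (h : B ≠ B') :
    {g : N | g • B = B ∧ g • B' = B'}.Finite := by
  obtain ⟨γ, c, hBγ⟩ := horo_HB hC hB
  obtain ⟨γ', c', hBγ'⟩ := horo_HB hC hB'
  have hdisj : Disjoint (HB γ c) (HB γ' c') := by
    have h1 := hC.disj hB hB' h
    rw [hBγ, hBγ'] at h1
    exact h1
  have hna := horo_not_asym hdisj
  have hb : γ.1 (Real.toNNReal (1 - c)) ∈ B := by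
    rw [hBγ]
    refine ray_mem_HB γ c ?_
    have := Real.le_coe_toNNReal (1 - c)
    linarith
  have hb' : γ'.1 (Real.toNNReal (1 - c')) ∈ B' := by
    rw [hBγ']
    refine ray_mem_HB γ' c' ?_
    have := Real.le_coe_toNNReal (1 - c')
    linarith
  obtain ⟨b, hbd⟩ : ∃ b, b = γ.1 (Real.toNNReal (1 - c)) := ⟨_, rfl⟩
  obtain ⟨b', hbd'⟩ : ∃ b', b' = γ'.1 (Real.toNNReal (1 - c')) := ⟨_, rfl⟩
  rw [← hbd] at hb
  rw [← hbd'] at hb'
  obtain ⟨R, hR⟩ := bdd_two_horo hδ hG hna c (c' + dist b b') b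
  have hK : IsCompact (Metric.closedBall b (max R 0)) := isCompact_closedBall b _
  refine (hC.pd _ hK).subset ?_
  rintro g ⟨hg, hg'⟩
  have h1 : g • b ∈ B := by
    rw [← hg]
    exact Set.smul_mem_smul_set hb
  have h2 : g • b' ∈ B' := by
    rw [← hg']
    exact Set.smul_mem_smul_set hb'
  have h3 : g • b ∈ HB γ' (c' + dist b b') := by
    refine HB_nbhd (y := g • b') ?_ (le_of_eq (hC.isom g b b'))
    rw [← hBγ']
    exact h2
  have h4 := hR (g • b) (by rw [← hBγ]; exact h1) h3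
  refine ⟨g • b, Set.smul_mem_smul_set (Metric.mem_closedBall_self (le_max_right _ _)), ?_⟩
  rw [Metric.mem_closedBall, dist_comm]
  exact h4.trans (le_max_left _ _)

/-- An element which commutes with an element of infinite order of the stabilizer of a horoball
stabilizes the horoball.

Proof. `z • g • B = g • z • B = g • B`, so `z` and all its powers stabilize `B` and `g • B`. The powers of
`z` are pairwise different, so by `finite_stab_two` `g • B = B`. -/
theorem stab_of_comm [ProperSpace X] (hδ : Hyp4 X δ) (hG : IsGeod X) (hC : Cusped N 𝓗)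
    {B : Set X} (hB : B ∈ 𝓗) {z : N} (hz : z • B = B) (hz' : ∀ n : ℕ, 0 < n → z ^ n ≠ 1) {g : N}
    (hg : g * z = z * g) : g • B = B := by
  by_contra hne
  have hfin := finite_stab_two hδ hG hC hB (hC.inv g B hB) (fun h => hne h.symm)
  have hpow : ∀ n : ℕ, z ^ n • B = B := by
    intro n
    induction n with
    | zero => rw [pow_zero, one_smul]
    | succ n ih => rw [pow_succ, mul_smul, hz, ih]
  have hinj : Function.Injective fun n : ℕ => z ^ n := by
    rw [injective_pow_iff_not_isOfFinOrder, isOfFinOrder_iff_pow_eq_one]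
    rintro ⟨n, hn, hzn⟩
    exact hz' n hn hzn
  refine Set.infinite_of_injective_forall_mem hinj ?_ hfin
  intro n
  refine ⟨hpow n, ?_⟩
  have hc : Commute g (z ^ n) := Commute.pow_right hg n
  rw [smul_smul, ← hc.eq, mul_smul, hpow n]

end RCan
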