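import Pool.Agent.W_04c03c_h58.CuspA
import Pool.Agent.W_04c03c_h58.HoroB
/-!
# Finitely many orbits of horoballs
-/

namespace RCan

open Set
open scoped NNReal Pointwise

variable {X : Type*} [MetricSpace X]

/-- A horoball contains a unit ball near each of its points.

Proof. Let `dist x (γ t) < t + c`; by `ball_mono` we may take `t` large, so that
`dist x (γ t) ≥ 1` (`dist x (γ t) ≥ t - dist x (γ 0)`). Let `y` be the point at distance `1` from `x` on a
geodesic from `x` to `γ t`: `dist y (γ t) = dist x (γ t) - 1`. For `dist z y < 1`: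
`dist z (γ t) < dist x (γ t) < t + c`. -/
theorem exists_unit_ball (hG : IsGeod X) {γ : GRay X} {c : ℝ} {x : X} (hx : x ∈ HB γ c) :
    ∃ y, dist x y ≤ 1 ∧ Metric.ball y 1 ⊆ HB γ c := by
  obtain ⟨t, ht⟩ := hx
  obtain ⟨s, hs⟩ : ∃ s : ℝ≥0, s = max t (Real.toNNReal (1 + dist x (γ.1 0))) := ⟨_, rfl⟩
  have h1 := ball_mono γ ht (hs ▸ le_max_left _ _ : t ≤ s)
  have h2 : 1 + dist x (γ.1 0) ≤ s := by
    have h3 : Real.toNNReal (1 + dist x (γ.1 0)) ≤ s := hs ▸ le_max_right _ _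
    exact (Real.le_coe_toNNReal _).trans (NNReal.coe_le_coe.2 h3)
  have h3 := dist_triangle (γ.1 0) x (γ.1 s)
  rw [Horo_dist_zero, dist_comm (γ.1 0) x] at h3
  have hD : 1 ≤ dist x (γ.1 s) := by linarith
  obtain ⟨σ, h0, h4, hσ⟩ := hG x (γ.1 s)
  have m0 : (0 : ℝ) ∈ Icc (0 : ℝ) (dist x (γ.1 s)) := ⟨le_rfl, by linarith⟩
  have m1 : (1 : ℝ) ∈ Icc (0 : ℝ) (dist x (γ.1 s)) := ⟨by norm_num, hD⟩
  have mD : dist x (γ.1 s) ∈ Icc (0 : ℝ) (dist x (γ.1 s)) := ⟨by linarith, le_rfl⟩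
  refine ⟨σ 1, ?_, ?_⟩
  · have h5 := hσ 0 m0 1 m1
    rw [h0] at h5
    rw [h5]
    norm_num
  · intro z hz
    rw [Metric.mem_ball] at hz
    refine ⟨s, ?_⟩
    have h5 := hσ 1 m1 _ mD
    rw [h4, abs_sub_comm, abs_of_nonneg (by linarith)] at h5
    have h6 := dist_triangle z (σ 1) (γ.1 s)
    linarith

/-- A compact set meets finitely many horoballs of the family.

Proof. For each `B ∈ 𝓗` which meets `K` choose a point `y_B` within distance `1` of `K` with
`Metric.ball y_B 1 ⊆ B` (`exists_unit_ball`, `horo_HB`). Different `B` have disjoint balls, so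
`dist y_B y_B' ≥ 1` (`y_B' ∉ ball y_B 1`). All `y_B` are in the compact set `Metric.cthickening 1 K`
(`IsCompact.cthickening`), which is totally bounded, so there are finitely many (cover by finitely many
balls of radius `1/2`, each contains at most one `y_B`). -/
theorem finite_meet [ProperSpace X] (hG : IsGeod X) {N : Type*} [Group N] [MulAction N X]
    {𝓗 : Set (Set X)} (hC : Cusped N 𝓗) {K : Set X} (hK : IsCompact K) :
    {B | B ∈ 𝓗 ∧ (B ∩ K).Nonempty}.Finite := by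
  have hex : ∀ B : {B | B ∈ 𝓗 ∧ (B ∩ K).Nonempty}, ∃ y, y ∈ Metric.cthickening 1 K ∧
      Metric.ball y 1 ⊆ B.1 := by
    rintro ⟨B, hB, x, hxB, hxK⟩
    obtain ⟨γ, c, hBγ⟩ := horo_HB hC hB
    obtain ⟨y, hy, hyB⟩ := exists_unit_ball hG (γ := γ) (c := c) (x := x) (by rw [← hBγ]; exact hxB)
    refine ⟨y, Metric.mem_cthickening_of_dist_le y x 1 K hxK (by rw [dist_comm]; exact hy), ?_⟩
    rw [← hBγ] at hyB
    exact hyB
  choose y hy1 hy2 using hex
  have hsep : ∀ B B' : {B | B ∈ 𝓗 ∧ (B ∩ K).Nonempty}, B ≠ B' → 1 ≤ dist (y B) (y B') := by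
    intro B B' hBB
    by_contra hcon
    have h1 : y B ∈ B'.1 := hy2 B' (Metric.mem_ball.2 (not_le.1 hcon))
    have h2 : y B ∈ B.1 := hy2 B (Metric.mem_ball_self one_pos)
    have h3 := hC.disj B.2.1 B'.2.1 (fun h => hBB (Subtype.ext h))
    exact Set.disjoint_left.1 h3 h2 h1
  obtain ⟨t, ht, hcov⟩ := Metric.totallyBounded_iff.1 hK.cthickening.totallyBounded (1 / 2)
    (by norm_num)
  have hc : ∀ B : {B | B ∈ 𝓗 ∧ (B ∩ K).Nonempty}, ∃ z : t, y B ∈ Metric.ball (z : X) (1 / 2) := by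
    intro B
    have h1 := hcov (hy1 B)
    rw [Set.mem_iUnion₂] at h1
    obtain ⟨z, hz, hyz⟩ := h1
    exact ⟨⟨z, hz⟩, hyz⟩
  choose z hz using hc
  haveI : Finite t := ht
  have hinj : Function.Injective z := by
    intro B B' h
    by_contra hne
    have h1 := hsep B B' hne
    have h2 := Metric.mem_ball.1 (hz B)
    have h3 := Metric.mem_ball.1 (hz B')
    rw [← h] at h3
    have h4 := dist_triangle_right (y B) (y B') (z B : X)
    linarith
  exact Set.finite_coe_iff.1 (Finite.of_injective z hinj)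

/-- Some translate of every horoball meets a fixed compact set.

Proof. Let `K₀` be as in `hC.cocpt`, `K = Metric.cthickening 1 K₀`, compact. Let `o` be outside of all
horoballs, `B ∈ 𝓗`, `b ∈ B` (`ray_mem_HB`) and `σ` a geodesic from `b` to `o`, `D = dist b o`. Let
`T = sSup {t ∈ Icc 0 D | σ t ∈ B}` or rather `T = sInf {t ∈ Icc 0 D | σ t ∉ B}`: `B` is open (`isOpen_HB`), so
`z = σ T ∉ B` and there are `t < T` arbitrarily close to `T` with `σ t ∈ B` (`T > 0`). `z` is not in a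
`B' ∈ 𝓗` (else `B'` is open and different from `B`, and contains `σ t` for `t < T` close to `T`, but
`σ t ∈ B`). So `g • z ∈ K₀` for some `g`, and for `t` close to `T`, `g • σ t` is in `g • B` and within `1` of
`K₀`. -/
theorem exists_meet [ProperSpace X] (hG : IsGeod X) {N : Type*} [Group N] [MulAction N X]
    {𝓗 : Set (Set X)} (hC : Cusped N 𝓗) {o : X} (ho : ∀ B ∈ 𝓗, o ∉ B) :
    ∃ K : Set X, IsCompact K ∧ ∀ B ∈ 𝓗, ∃ g : N, ((g • B) ∩ K).Nonempty := by
  obtain ⟨K₀, hK₀, hcc⟩ := hC.cocpt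
  refine ⟨Metric.cthickening 1 K₀, hK₀.cthickening, fun B hB => ?_⟩
  have hopen : ∀ B' ∈ 𝓗, IsOpen B' := by
    intro B' hB'
    obtain ⟨γ', c', h'⟩ := horo_HB hC hB'
    rw [h']
    exact isOpen_HB γ' c'
  obtain ⟨b, hb⟩ : B.Nonempty := by
    obtain ⟨γ, c, hBγ⟩ := horo_HB hC hB
    refine ⟨γ.1 (Real.toNNReal (1 - c)), ?_⟩
    rw [hBγ]
    refine ray_mem_HB γ c ?_
    have := Real.le_coe_toNNReal (1 - c)
    linarith
  obtain ⟨σ, h0, h1, hσ⟩ := hG b o
  have hD : (0 : ℝ) ≤ dist b o := dist_nonneg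
  obtain ⟨A, hA⟩ : ∃ A : Set ℝ, A = {t | t ∈ Icc (0 : ℝ) (dist b o) ∧ σ t ∉ B} := ⟨_, rfl⟩
  have hDA : dist b o ∈ A := by
    rw [hA]
    exact ⟨⟨hD, le_rfl⟩, by rw [h1]; exact ho B hB⟩
  have hbdd : BddBelow A := by
    refine ⟨0, fun t ht => ?_⟩
    rw [hA] at ht
    exact ht.1.1
  obtain ⟨T, hT⟩ : ∃ T, T = sInf A := ⟨_, rfl⟩
  have hT0 : 0 ≤ T := by
    rw [hT]
    refine le_csInf ⟨_, hDA⟩ fun t ht => ?_
    rw [hA] at ht
    exact ht.1.1
  have hTD : T ≤ dist b o := by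
    rw [hT]
    exact csInf_le hbdd hDA
  have hTm : T ∈ Icc (0 : ℝ) (dist b o) := ⟨hT0, hTD⟩
  have hTB : σ T ∉ B := by
    intro hcon
    obtain ⟨ε, hε, hball⟩ := Metric.isOpen_iff.1 (hopen B hB) _ hcon
    have h2 : T + ε ≤ sInf A := by
      refine le_csInf ⟨_, hDA⟩ fun t ht => ?_
      by_contra hlt
      have h3 : T ≤ t := by
        rw [hT]
        exact csInf_le hbdd ht
      rw [hA] at ht
      apply ht.2
      apply hball
      rw [Metric.mem_ball, hσ t ht.1 T hTm, abs_of_nonneg (by linarith)]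
      linarith
    linarith
  have hTpos : 0 < T := by
    rcases hT0.eq_or_lt with h | h
    · exfalso
      rw [← h, h0] at hTB
      exact hTB hb
    · exact h
  have hlt : ∀ t, 0 ≤ t → t < T → σ t ∈ B := by
    intro t ht0 htT
    by_contra hcon
    have h2 : t ∈ A := by
      rw [hA]
      exact ⟨⟨ht0, by linarith⟩, hcon⟩
    have h3 := csInf_le hbdd h2
    linarith
  have hout : ∀ B' ∈ 𝓗, σ T ∉ B' := by
    intro B' hB' hcon
    have hne : B ≠ B' := by
      rintro rfl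
      exact hTB hcon
    obtain ⟨ε, hε, hball⟩ := Metric.isOpen_iff.1 (hopen B' hB') _ hcon
    have h2 : max 0 (T - ε / 2) < T := max_lt hTpos (by linarith)
    have h3 := hlt _ (le_max_left 0 (T - ε / 2)) h2
    have h4 : σ (max 0 (T - ε / 2)) ∈ B' := by
      apply hball
      rw [Metric.mem_ball, hσ _ ⟨le_max_left _ _, by linarith⟩ T hTm, abs_sub_comm,
        abs_of_nonneg (by linarith)]
      have := le_max_right 0 (T - ε / 2)
      linarith
    exact Set.disjoint_left.1 (hC.disj hB hB' hne) h3 h4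
  obtain ⟨g, hg⟩ := hcc _ hout
  have h2 : max 0 (T - 1) < T := max_lt hTpos (by linarith)
  refine ⟨g, g • σ (max 0 (T - 1)), Set.smul_mem_smul_set (hlt _ (le_max_left _ _) h2), ?_⟩
  refine Metric.mem_cthickening_of_dist_le _ _ 1 K₀ hg ?_
  rw [hC.isom, hσ _ ⟨le_max_left _ _, by linarith⟩ T hTm, abs_sub_comm,
    abs_of_nonneg (by linarith)]
  have := le_max_right 0 (T - 1)
  linarith

/-- Finitely many orbits of horoballs. (`exists_meet`, `finite_meet`: the finite set of the members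
which meet `K` is mapped onto the set of orbits.) -/
theorem finite_orbits [ProperSpace X] (hG : IsGeod X) {N : Type*} [Group N] [MulAction N X]
    {𝓗 : Set (Set X)} (hC : Cusped N 𝓗) {o : X} (ho : ∀ B ∈ 𝓗, o ∉ B) :
    Finite (@MulAction.orbitRel.Quotient N 𝓗 _ (cuspAct hC)) := by
  letI := cuspAct hC
  obtain ⟨K, hK, hm⟩ := exists_meet hG hC ho
  have hfin := finite_meet hG hC hK
  haveI : Finite {B | B ∈ 𝓗 ∧ (B ∩ K).Nonempty} := hfin
  refine Finite.of_surjective (fun B : {B | B ∈ 𝓗 ∧ (B ∩ K).Nonempty} =>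
    (Quotient.mk'' (⟨B.1, B.2.1⟩ : 𝓗) : MulAction.orbitRel.Quotient N 𝓗)) ?_
  intro q
  induction q using Quotient.inductionOn' with
  | h B =>
    obtain ⟨g, hg⟩ := hm B.1 B.2
    refine ⟨⟨g • B.1, hC.inv g _ B.2, hg⟩, ?_⟩
    exact Quotient.sound' ⟨g, rfl⟩

end RCan
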