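import Pool.Agent.W_04c03c_h58.HoroB
import Pool.Agent.W_04c03c_h58.CuspA
/-!
# Elements of finite order
-/

namespace RCan

open Set
open scoped NNReal Pointwise

variable {X : Type*} [MetricSpace X] {δ : ℝ}

theorem HoC_radius {N : Type*} [Group N] [MulAction N X] {g : N} {n : ℕ} (hn : 0 < n)
    (hg : g ^ n = 1) (o : X) : ∃ r : X → ℝ, (∀ x (m : ℕ), dist x (g ^ m • o) ≤ r x) ∧
      ∀ x (c : ℝ), (∀ m : ℕ, dist x (g ^ m • o) ≤ c) → r x ≤ c := by
  have hne : (Finset.range n).Nonempty := ⟨0, Finset.mem_range.2 hn⟩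
  refine ⟨fun x => (Finset.range n).sup' hne fun m => dist x (g ^ m • o), ?_, ?_⟩
  · intro x m
    have h1 : g ^ m = g ^ (m % n) := by
      conv_lhs => rw [← Nat.div_add_mod m n, pow_add, pow_mul, hg, one_pow, one_mul]
    rw [h1]
    exact Finset.le_sup' (fun m => dist x (g ^ m • o)) (Finset.mem_range.2 (Nat.mod_lt _ hn))
  · intro x c h
    exact Finset.sup'_le _ _ fun m _ => h m

/-- Elements of finite order have almost fixed points.

Proof. Let `S` be the (finite, nonempty) set of the points `g ^ m • o`, `m < n`; it is invariant under `g`.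
For `x : X` let `r x = sup_{s ∈ S} dist x s` (a finite maximum, `S.toFinset.sup'`), and `ρ` the infimum of
`r` (`r ≥ 0`). Take `x` with `r x ≤ ρ + 1`. `x' = g • x` has `r x' = r x` (`dist (g • x) (g • s) = dist x s`,
`S` is invariant). Let `m` be the midpoint of a geodesic from `x` to `x'`:
`dist m x = dist m x' = dist x x' / 2`. For `s ∈ S` the four point condition gives
`dist s m + dist x x' ≤ max (dist s x + dist m x') (dist s x' + dist m x) + 2 δ
≤ ρ + 1 + dist x x' / 2 + 2 δ`, so `ρ ≤ r m ≤ ρ + 1 + 2 δ - dist x x' / 2`. -/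
theorem almost_fixed (hδ : Hyp4 X δ) (hG : IsGeod X) [Nonempty X] {N : Type*} [Group N]
    [MulAction N X] (hi : ∀ (g : N) (x y : X), dist (g • x) (g • y) = dist x y) {g : N} {n : ℕ}
    (hn : 0 < n) (hg : g ^ n = 1) : ∃ x : X, dist x (g • x) ≤ 2 + 4 * δ := by
  obtain ⟨o⟩ := (inferInstance : Nonempty X)
  obtain ⟨r, hr1, hr2⟩ := HoC_radius (X := X) (g := g) hn hg o
  have hr0 : ∀ x, 0 ≤ r x := fun x => dist_nonneg.trans (hr1 x 0)
  have hbdd : BddBelow (Set.range r) := ⟨0, by rintro _ ⟨x, rfl⟩; exact hr0 x⟩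
  obtain ⟨_, ⟨x, rfl⟩, hx⟩ := exists_lt_of_csInf_lt (s := Set.range r) ⟨r o, o, rfl⟩
    (show sInf (Set.range r) < sInf (Set.range r) + 1 by linarith)
  have hx' : r (g • x) ≤ r x := by
    refine hr2 _ _ fun m => ?_
    have h1 : g ^ m = g * g ^ (m + n - 1) := by
      rw [← pow_succ', show m + n - 1 + 1 = m + n by omega, pow_add, hg, mul_one]
    rw [h1, mul_smul, hi]
    exact hr1 x _
  obtain ⟨γ, h0, h1, hγ⟩ := hG x (g • x)
  set d : ℝ := dist x (g • x) with hd
  have hd0 : 0 ≤ d := dist_nonneg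
  have e1 : dist x (γ (d / 2)) = d / 2 := by
    conv_lhs => rw [← h0]
    rw [hγ 0 ⟨le_rfl, hd0⟩ (d / 2) ⟨by linarith, by linarith⟩, zero_sub, abs_neg,
      abs_of_nonneg (by linarith)]
  have e2 : dist (γ (d / 2)) (g • x) = d / 2 := by
    conv_lhs => rw [← h1]
    rw [hγ (d / 2) ⟨by linarith, by linarith⟩ d ⟨hd0, le_rfl⟩, show d / 2 - d = -(d / 2) by ring,
      abs_neg, abs_of_nonneg (by linarith)]
  have h3 : r (γ (d / 2)) ≤ sInf (Set.range r) + 1 + 2 * δ - d / 2 := by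
    refine hr2 _ _ fun m => ?_
    have h4 := hδ.2 (g ^ m • o) (γ (d / 2)) x (g • x)
    have h5 := hr1 x m
    have h6 := hr1 (g • x) m
    rw [dist_comm (g ^ m • o) x, dist_comm (g ^ m • o) (g • x), e2, dist_comm (γ (d / 2)) x, e1,
      dist_comm (g ^ m • o)] at h4
    have h7 : max (dist x (g ^ m • o) + d / 2) (dist (g • x) (g ^ m • o) + d / 2) ≤
        sInf (Set.range r) + 1 + d / 2 := max_le (by linarith) (by linarith)
    linarith
  have h8 : sInf (Set.range r) ≤ r (γ (d / 2)) := csInf_le hbdd ⟨_, rfl⟩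
  refine ⟨x, ?_⟩
  linarith

/-- An element of finite order is conjugate into a finite set, or stabilizes a horoball.

Proof. Let `K` be as in `hC.cocpt`, `D = 2 + 4 δ`, `K' = Metric.cthickening (3 D) K` (compact) and
`F = {h | ((h • K') ∩ K').Nonempty}`, finite by `hC.pd`. Let `x` be from `almost_fixed`. If `x` is in no
horoball, put `z = x`. If `x ∈ B ∈ 𝓗` and `g • B = B` we are done. If `x ∈ B` and `g • B ≠ B` then
`g • x ∈ g • B`, a member different from `B`, so `g • x ∉ B` (`hC.disj`), and `seg_exit` gives `z` outside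
of all horoballs with `dist x z ≤ D`. In both cases `dist z (g • z) ≤ 3 D`. Let `a • z ∈ K`; then
`a * g * a⁻¹` maps `a • z ∈ K` to `a • g • z`, at distance `≤ 3 D` from `a • z`, so it is in `F`. -/
theorem torsion_conj [ProperSpace X] (hδ : Hyp4 X δ) (hG : IsGeod X) [Nonempty X] {N : Type*}
    [Group N] [MulAction N X] {𝓗 : Set (Set X)} (hC : Cusped N 𝓗) :
    ∃ F : Set N, F.Finite ∧ ∀ (g : N) (n : ℕ), 0 < n → g ^ n = 1 →
      (∃ a : N, a * g * a⁻¹ ∈ F) ∨ ∃ B ∈ 𝓗, g • B = B := by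
  obtain ⟨K, hK, hKx⟩ := hC.cocpt
  set D : ℝ := 2 + 4 * δ with hD
  have hD0 : 0 ≤ D := by
    have := hδ.1
    linarith
  refine ⟨_, hC.pd (Metric.cthickening (3 * D) K) hK.cthickening, ?_⟩
  intro g n hn hg
  obtain ⟨x, hx⟩ := almost_fixed hδ hG hC.isom hn hg
  have hopen : ∀ B ∈ 𝓗, IsOpen B := by
    intro B hB
    obtain ⟨γ, c, rfl⟩ := horo_HB hC hB
    exact isOpen_HB γ c
  have key : (∃ B ∈ 𝓗, g • B = B) ∨ ∃ z, (∀ B ∈ 𝓗, z ∉ B) ∧ dist z (g • z) ≤ 3 * D := by
    by_cases h1 : ∃ B ∈ 𝓗, x ∈ B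
    · obtain ⟨B, hB, hxB⟩ := h1
      by_cases h2 : g • B = B
      · exact Or.inl ⟨B, hB, h2⟩
      · right
        have h3 : g • x ∉ B := fun h => Set.disjoint_left.1 (hC.disj hB (hC.inv g B hB)
          (fun h' => h2 h'.symm)) h (Set.smul_mem_smul_set hxB)
        obtain ⟨z, hz1, hz2⟩ := seg_exit hG hC.disj hopen hB hxB h3
        refine ⟨z, hz1, ?_⟩
        have h4 := dist_triangle4 z x (g • x) (g • z)
        rw [hC.isom, dist_comm z x] at h4
        linarith
    · push Not at h1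
      exact Or.inr ⟨x, h1, by linarith⟩
  rcases key with h1 | ⟨z, hz, hzd⟩
  · exact Or.inr h1
  · left
    obtain ⟨a, ha⟩ := hKx z hz
    refine ⟨a, ?_⟩
    refine ⟨(a * g * a⁻¹) • (a • z), ?_, ?_⟩
    · exact Set.smul_mem_smul_set (Metric.self_subset_cthickening K ha)
    · have h2 : (a * g * a⁻¹) • (a • z) = a • g • z := by
        rw [mul_smul, inv_smul_smul, mul_smul]
      rw [h2]
      refine Metric.mem_cthickening_of_dist_le _ (a • z) _ _ ha ?_
      rw [hC.isom, dist_comm]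
      exact hzd

end RCan
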