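import Pool.Agent.W_04c03c_h58.CuspA
import Pool.Agent.W_04c03c_h58.HoroB
/-!
# Horoballs have infinitely many translates
-/

namespace RCan

open Set
open scoped NNReal Pointwise

variable {X : Type*} [MetricSpace X] {δ : ℝ}

/-- A ray which is not asymptotic to the centre leaves the neighbourhoods of the horoball.

Proof. As in `horo_ne_univ`: `gp o (γ' s) (γ t) ≤ M` (`gp_bdd`), so
`dist (γ' s) (γ t) - t ≥ s - C` with a constant `C` (`dist (γ' s) (γ t) = dist o (γ' s) + dist o (γ t) - 2 gp`,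
`dist o (γ' s) ≥ s - dist o (γ' 0)`, `dist o (γ t) ≥ t - dist o (γ 0)`). If `x ∈ HB γ c`,
`dist x (γ t) < t + c`, then `dist (γ' s) x ≥ dist (γ' s) (γ t) - dist x (γ t) > s - C - c`. Take
`s₀ = R + C + c`. -/
theorem ray_leaves [ProperSpace X] (hδ : Hyp4 X δ) (hG : IsGeod X) {γ γ' : GRay X}
    (h : ¬ (asym X).r γ' γ) (c R : ℝ) : ∃ s₀ : ℝ≥0, ∀ s ≥ s₀, ∀ x ∈ HB γ c, R < dist (γ'.1 s) x := by
  obtain ⟨M, hM⟩ := gp_bdd hδ hG (o := γ.1 0) h
  refine ⟨Real.toNNReal (R + c + 2 * M + dist (γ.1 0) (γ'.1 0)), ?_⟩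
  rintro s hs x ⟨t, ht⟩
  have hs1 : R + c + 2 * M + dist (γ.1 0) (γ'.1 0) ≤ s :=
    (Real.le_coe_toNNReal _).trans (by exact_mod_cast hs)
  have h1 := hM s t
  unfold gp at h1
  rw [Horo_dist_zero] at h1
  have h2 := dist_triangle (γ'.1 0) (γ.1 0) (γ'.1 s)
  rw [Horo_dist_zero, dist_comm (γ'.1 0) (γ.1 0)] at h2
  have h3 := dist_triangle (γ'.1 s) x (γ.1 t)
  linarith

/-- A ray which ends in a horoball ends at its centre.

Proof. `asym_of_gp` with a base point `o ∉ HB γ c`: for `s ≥ s₀` `γ' s ∈ HB γ c`, so by `horo_gp`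
`gp o (γ' s) (γ t) ≥ dist o (γ' s) / 2` for `t` large, and `dist o (γ' s) ≥ s - dist o (γ' 0)` is large. -/
theorem ray_ends [ProperSpace X] (hδ : Hyp4 X δ) (hG : IsGeod X) {γ γ' : GRay X} {c : ℝ} {o : X}
    (ho : o ∉ HB γ c) {s₀ : ℝ≥0} (h : ∀ s ≥ s₀, γ'.1 s ∈ HB γ c) : (asym X).r γ' γ := by
  refine asym_of_gp hδ hG (o := o) fun M => ?_
  obtain ⟨s, hs1, hs2⟩ : ∃ s : ℝ≥0, s₀ ≤ s ∧ 2 * M + dist o (γ'.1 0) ≤ s :=
    ⟨max s₀ (Real.toNNReal (2 * M + dist o (γ'.1 0))), le_max_left _ _,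
      (Real.le_coe_toNNReal _).trans (by exact_mod_cast le_max_right _ _)⟩
  obtain ⟨t₀, ht₀⟩ := horo_gp ho (h s hs1)
  refine ⟨s, t₀, ?_⟩
  have h1 := ht₀ t₀ le_rfl
  have h2 := dist_triangle (γ'.1 0) o (γ'.1 s)
  rw [Horo_dist_zero, dist_comm (γ'.1 0) o] at h2
  linarith

/-- A ray which is finally in the union of the horoballs is finally in one horoball.

Proof. The image of the connected set `Ici s₀` under the continuous map `γ'` is preconnected and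
covered by the pairwise disjoint open sets `B ∈ 𝓗`; as in `seg_exit`: let `γ' s₀ ∈ B`, `W` the union of
the members different from `B`, open and disjoint from `B`. -/
theorem ray_one {γ' : GRay X} {𝓗 : Set (Set X)} (hd : 𝓗.PairwiseDisjoint id)
    (ho : ∀ B ∈ 𝓗, IsOpen B) {s₀ : ℝ≥0} (h : ∀ s ≥ s₀, ∃ B ∈ 𝓗, γ'.1 s ∈ B) :
    ∃ B ∈ 𝓗, ∀ s ≥ s₀, γ'.1 s ∈ B := by
  obtain ⟨B, hB, hx⟩ := h s₀ le_rfl
  refine ⟨B, hB, ?_⟩
  by_contra hcon
  push Not at hcon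
  obtain ⟨s, hs, hy⟩ := hcon
  have hpre : IsPreconnected (γ'.1 '' Set.Ici s₀) :=
    isPreconnected_Ici.image γ'.1 γ'.2.continuous.continuousOn
  have hcov : ∀ z ∈ γ'.1 '' Set.Ici s₀, ∃ B' ∈ 𝓗, z ∈ B' := by
    rintro z ⟨t, ht, rfl⟩
    exact h t ht
  have hx' : γ'.1 s₀ ∈ γ'.1 '' Set.Ici s₀ := ⟨s₀, Set.mem_Ici.2 le_rfl, rfl⟩
  have hy' : γ'.1 s ∈ γ'.1 '' Set.Ici s₀ := ⟨s, hs, rfl⟩
  obtain ⟨z, _, hz1, hz2⟩ := hpre B (⋃₀ (𝓗 \ {B})) (ho B hB)
    (isOpen_sUnion fun B' hB' => ho B' hB'.1) (by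
      intro z hz
      obtain ⟨B', hB', hzB'⟩ := hcov z hz
      by_cases hBB : B' = B
      · exact Or.inl (hBB ▸ hzB')
      · exact Or.inr ⟨B', ⟨hB', hBB⟩, hzB'⟩)
    ⟨_, hx', hx⟩ (by
      obtain ⟨B', hB', hyB'⟩ := hcov _ hy'
      refine ⟨_, hy', B', ⟨hB', ?_⟩, hyB'⟩
      intro hBB
      rw [Set.mem_singleton_iff] at hBB
      rw [hBB] at hyB'
      exact hy hyB')
  obtain ⟨B', ⟨hB', hne⟩, hzB'⟩ := hz2
  have h2 := hd hB hB' (fun h => hne h.symm)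
  exact Set.disjoint_left.1 h2 hz1 hzB'

/-- A horoball has infinitely many translates.

Proof. Suppose the orbit of `B = HB γ c` is finite. Its stabilizer `P` has finitely many left cosets
`g_i P`... precisely: there is a finite set `T ⊆ N` such that every `g • B` is `t • B`, `t ∈ T`, so every
`g : N` is `t * p` with `p • B = B`; applied to `g⁻¹`: every `g = p * t⁻¹`. Let `K` be as in `hC.cocpt`.
If `x` is outside of all horoballs then `g • x ∈ K` for some `g = t * p`, so `p • x ∈ t⁻¹ • K`; let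
`K' = ⋃ t⁻¹ • K`, a compact set (finite union of compact sets: the action is by isometries). There is
`R` with: every `k ∈ K'` has `dist k b ≤ R`, where `b ∈ B` is a fixed point; hence
`dist x (p⁻¹ • b) = dist (p • x) b ≤ R` with `p⁻¹ • b ∈ B`. So all `x` outside of all horoballs are within
`R` of `B` (*). `𝓗` is countable (`Set.PairwiseDisjoint.countable_of_isOpen`; `X` is separable because it
is proper). For every `z : Bdry X`, `z = ⟦γ'⟧`: either `γ'` is asymptotic to `γ`, or by `ray_leaves` and (*)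
`γ' s` is in the union of the horoballs for `s ≥ s₀`, so in one `B' = HB γ₁ c₁ ∈ 𝓗` (`ray_one`, `isOpen_HB`,
`horo_HB`), so `γ'` is asymptotic to `γ₁` (`ray_ends`). Choose for each `B' ∈ 𝓗` a ray `γ_{B'}` and a number
with `B' = HB γ_{B'} c_{B'}` (`Classical.choose`): `Bdry X` is the image of a countable set, so countable:
contradiction. -/
theorem infinite_orbit [ProperSpace X] (hδ : Hyp4 X δ) (hG : IsGeod X) {N : Type*} [Group N]
    [MulAction N X] {𝓗 : Set (Set X)} (hC : Cusped N 𝓗) {o : X} (ho : ∀ B ∈ 𝓗, o ∉ B)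
    (hu : Uncountable (Bdry X)) {B : Set X} (hB : B ∈ 𝓗) :
    {B' : Set X | ∃ g : N, g • B = B'}.Infinite := by
  intro hfin
  have hopen : ∀ B' ∈ 𝓗, IsOpen B' := by
    intro B' hB'
    obtain ⟨γ₁, c₁, rfl⟩ := horo_HB hC hB'
    exact isOpen_HB γ₁ c₁
  have hne : ∀ B' ∈ 𝓗, B'.Nonempty := by
    intro B' hB'
    obtain ⟨γ₁, c₁, rfl⟩ := horo_HB hC hB'
    refine ⟨γ₁.1 (Real.toNNReal (1 - c₁)), ray_mem_HB γ₁ c₁ ?_⟩
    have := Real.le_coe_toNNReal (1 - c₁)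
    linarith
  choose r c hrc using fun B' : 𝓗 => horo_HB hC B'.2
  obtain ⟨b, hb⟩ := hne B hB
  obtain ⟨K, hK, hcov⟩ := hC.cocpt
  have hbd : ∀ t : N, ∃ R : ℝ, ∀ k ∈ K, dist k (t • b) ≤ R := by
    intro t
    obtain ⟨R, hR⟩ := hK.isBounded.subset_closedBall (t • b)
    exact ⟨R, fun k hk => hR hk⟩
  choose Rt hRt using hbd
  have hfin' : Finite {B' : Set X | ∃ g : N, g • B = B'} := hfin
  choose tt htt using fun B' : {B' : Set X | ∃ g : N, g • B = B'} => B'.2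
  obtain ⟨R, hR⟩ := (Set.finite_range fun B' => Rt (tt B')).bddAbove
  have hstar : ∀ x : X, (∀ B' ∈ 𝓗, x ∉ B') → ∃ y ∈ B, dist x y ≤ R := by
    intro x hx
    obtain ⟨g, hg⟩ := hcov x hx
    have h1 : tt ⟨g • B, g, rfl⟩ • B = g • B := htt ⟨g • B, g, rfl⟩
    refine ⟨g⁻¹ • tt ⟨g • B, g, rfl⟩ • b, ?_, ?_⟩
    · have h2 : tt ⟨g • B, g, rfl⟩ • b ∈ tt ⟨g • B, g, rfl⟩ • B := Set.smul_mem_smul_set hb
      rw [h1] at h2
      exact Set.mem_smul_set_iff_inv_smul_mem.1 h2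
    · have h2 : dist x (g⁻¹ • tt ⟨g • B, g, rfl⟩ • b) = dist (g • x) (tt ⟨g • B, g, rfl⟩ • b) := by
        rw [← hC.isom g, smul_inv_smul]
      rw [h2]
      exact (hRt _ _ hg).trans (hR ⟨_, rfl⟩)
  have hcount : 𝓗.Countable :=
    Set.PairwiseDisjoint.countable_of_isOpen hC.disj hopen hne
  have hcount' : Countable 𝓗 := hcount.to_subtype
  have hsurj : Function.Surjective fun B' : 𝓗 => (Quotient.mk (asym X) (r B') : Bdry X) := by
    intro z
    obtain ⟨γ', rfl⟩ := Quotient.exists_rep z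
    by_cases ha : (asym X).r γ' (r ⟨B, hB⟩)
    · exact ⟨⟨B, hB⟩, Quotient.sound ((asym X).iseqv.symm ha)⟩
    · obtain ⟨s₀, hs₀⟩ := ray_leaves hδ hG ha (c ⟨B, hB⟩) R
      have h3 : ∀ s ≥ s₀, ∃ B' ∈ 𝓗, γ'.1 s ∈ B' := by
        intro s hs
        by_contra hcon
        push Not at hcon
        obtain ⟨y, hy, hy2⟩ := hstar (γ'.1 s) hcon
        have h4 : (B : Set X) = HB (r ⟨B, hB⟩) (c ⟨B, hB⟩) := hrc ⟨B, hB⟩
        rw [h4] at hy
        exact absurd hy2 (not_le.2 (hs₀ s hs y hy))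
      obtain ⟨B', hB', h4⟩ := ray_one hC.disj hopen h3
      have h5 : B' = HB (r ⟨B', hB'⟩) (c ⟨B', hB'⟩) := hrc ⟨B', hB'⟩
      have h6 : (asym X).r γ' (r ⟨B', hB'⟩) := by
        refine ray_ends hδ hG (c := c ⟨B', hB'⟩) (o := o) (s₀ := s₀) ?_ ?_
        · rw [← h5]
          exact ho B' hB'
        · intro s hs
          rw [← h5]
          exact h4 s hs
      exact ⟨⟨B', hB'⟩, Quotient.sound ((asym X).iseqv.symm h6)⟩
  have hc2 : Countable (Bdry X) := hsurj.countable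
  exact not_countable hc2

end RCan
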