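import Pool.Agent.W_04c03c_h58.CuspA
import Pool.Agent.W_04c03c_h58.GrA
/-!
# Subgroups of finite index
-/

namespace RCan

open Set
open scoped NNReal Pointwise

/-- The two-sphere is uncountable.

Proof. The map `[0, π] → S²`, `t ↦ (cos t, sin t, 0)` is injective (`Real.injOn_cos`). -/
theorem uncountable_sphere : Uncountable (Metric.sphere (0 : EuclideanSpace ℝ (Fin 3)) 1) := by
  have hmem : ∀ t : ℝ, (!₂[2 * t / (1 + t ^ 2), (1 - t ^ 2) / (1 + t ^ 2), 0] :
      EuclideanSpace ℝ (Fin 3)) ∈ Metric.sphere (0 : EuclideanSpace ℝ (Fin 3)) 1 := by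
    intro t
    have h1 : (1 + t ^ 2) ≠ 0 := by positivity
    rw [mem_sphere_zero_iff_norm, EuclideanSpace.norm_eq, Real.sqrt_eq_one]
    simp only [Fin.sum_univ_three, Real.norm_eq_abs, sq_abs]
    simp
    field_simp
    ring
  let f : ℝ → Metric.sphere (0 : EuclideanSpace ℝ (Fin 3)) 1 := fun t => ⟨_, hmem t⟩
  have hf : Function.Injective f := by
    intro t s h
    have h0 : (!₂[2 * t / (1 + t ^ 2), (1 - t ^ 2) / (1 + t ^ 2), 0] :
      EuclideanSpace ℝ (Fin 3)) = !₂[2 * s / (1 + s ^ 2), (1 - s ^ 2) / (1 + s ^ 2), 0] :=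
      congrArg Subtype.val h
    have h1 : 2 * t / (1 + t ^ 2) = 2 * s / (1 + s ^ 2) := by
      simpa using congrArg (fun v : EuclideanSpace ℝ (Fin 3) => v 0) h0
    have h2 : (1 - t ^ 2) / (1 + t ^ 2) = (1 - s ^ 2) / (1 + s ^ 2) := by
      simpa using congrArg (fun v : EuclideanSpace ℝ (Fin 3) => v 1) h0
    have ht : (1 + t ^ 2) ≠ 0 := by positivity
    have hs : (1 + s ^ 2) ≠ 0 := by positivity
    rw [div_eq_div_iff ht hs] at h1 h2
    have h3 : t ^ 2 = s ^ 2 := by linarith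
    rw [h3] at h1
    have h4 : (t - s) * (1 + s ^ 2) = 0 := by linarith
    rcases mul_eq_zero.1 h4 with h5 | h5
    · linarith
    · exact absurd h5 hs
  exact hf.uncountable

variable {G X : Type*} [Group G] [MetricSpace X] [MulAction G X] {𝓗 : Set (Set X)}

/-- The structure passes to subgroups of finite index.

Proof. `cocpt`: let `K` be as in `hC.cocpt`, `T` a finite set of elements of `G` with
`G = N * T` (inverses of representatives of the left cosets): every `g` is `n * t`. If `g • x ∈ K` write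
`g⁻¹ = n * t`, so `g = t⁻¹ * n⁻¹` and `n⁻¹ • x ∈ t • K`; `K' = ⋃_{t ∈ T} t • K` is compact (the action
is by isometries, so each `t • K` is the image of `K` under a continuous map). The other fields are
clear; `pd`: the set of the `n : N` is the preimage of a finite set under the injective map `N → G`. -/
theorem Cusped.sub (hC : Cusped G 𝓗) (N : Subgroup G) [N.FiniteIndex] : Cusped N 𝓗 := by
  refine ⟨fun g x y => hC.isom g x y, ?_, hC.horo, hC.disj, fun g B hB => hC.inv g B hB, ?_⟩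
  · intro K hK
    have h1 : ((fun g : N => (g : G)) ⁻¹' {g : G | ((g • K) ∩ K).Nonempty}).Finite :=
      (hC.pd K hK).preimage Subtype.val_injective.injOn
    exact h1
  · obtain ⟨K, hK, h⟩ := hC.cocpt
    refine ⟨⋃ q : G ⧸ N, (q.out)⁻¹ • K, ?_, ?_⟩
    · refine isCompact_iUnion fun q => ?_
      have hc : Continuous (fun x : X => (q.out)⁻¹ • x) :=
        (Isometry.of_dist_eq (hC.isom (q.out)⁻¹)).continuous
      exact hK.image hc
    · intro x hx
      obtain ⟨g, hg⟩ := h x hx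
      obtain ⟨n, hn⟩ := QuotientGroup.mk_out_eq_mul N g
      refine ⟨n⁻¹, Set.mem_iUnion.2 ⟨(g : G ⧸ N), ?_⟩⟩
      refine ⟨g • x, hg, ?_⟩
      show ((g : G ⧸ N).out)⁻¹ • (g • x) = ((n⁻¹ : N) : G) • x
      rw [hn, ← mul_smul, Subgroup.coe_inv]
      congr 1
      group

theorem mem_stab_cusp {N : Type*} [Group N] [MulAction N X] (hC : Cusped N 𝓗) (B : 𝓗) (g : N) :
    g ∈ @MulAction.stabilizer N 𝓗 _ (cuspAct hC) B ↔ g • B.1 = B.1 := by
  rw [@MulAction.mem_stabilizer_iff N 𝓗 _ (cuspAct hC)]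
  exact Subtype.ext_iff

/-- The stabilizers in a subgroup of finite index are virtually `ℤ²`.

Proof. The stabilizer of `B` in `N` is isomorphic to `N.subgroupOf (MulAction.stabilizer G B.1)`
(`mem_stab_cusp`; `n • B.1` for `n : N` is `(n : G) • B.1`), a subgroup of finite index of
`stabilizer G B.1`, which is `VZ` by `VZ.of_virtZ2`; `VZ.sub`, `VZ.equiv`. -/
theorem vz_stab (hC : Cusped G 𝓗) (N : Subgroup G) [N.FiniteIndex] (hC' : Cusped N 𝓗)
    (hV : ∀ B ∈ 𝓗, VirtZ2 (MulAction.stabilizer G B)) (B : 𝓗) :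
    VZ (@MulAction.stabilizer N 𝓗 _ (cuspAct hC') B) := by
  have h1 : VZ (MulAction.stabilizer G B.1) := VZ.of_virtZ2 (hV B.1 B.2)
  have h2 : VZ (N.subgroupOf (MulAction.stabilizer G B.1)) :=
    VZ.sub h1 _ Subgroup.FiniteIndex.index_ne_zero
  refine VZ.equiv ?_ h2
  refine
    { toFun := fun m => ⟨⟨m.1.1, m.2⟩, (mem_stab_cusp hC' B _).2 m.1.2⟩
      invFun := fun m => ⟨⟨m.1.1, (mem_stab_cusp hC' B _).1 m.2⟩, m.1.2⟩
      left_inv := fun m => rfl
      right_inv := fun m => rfl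
      map_mul' := fun m m' => rfl }

end RCan
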