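import Pool.Agent.W_04c03c_h58.GrA
import Pool.Agent.W_04c03c_h62.ResFin
/-!
# Residually finite groups
-/

namespace RCan

/-- Proof. Induction on the finite set `S`; intersections of normal subgroups of finite index. -/
theorem rf_avoid {G : Type*} [Group G] (h : Q62.ResFin G) {S : Set G} (hS : S.Finite)
    (h1 : (1 : G) ∉ S) : ∃ N : Subgroup G, N.Normal ∧ N.FiniteIndex ∧ ∀ s ∈ S, s ∉ N := by
  induction S, hS using Set.Finite.induction_on with
  | empty => exact ⟨⊤, inferInstance, inferInstance, fun s hs => absurd hs (Set.notMem_empty s)⟩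
  | insert _ _ ih =>
    rename_i a S _ _
    obtain ⟨N, hN, hF, hNS⟩ := ih fun h2 => h1 (Set.mem_insert_of_mem a h2)
    have ha : a ≠ 1 := fun h2 => h1 (h2 ▸ Set.mem_insert a S)
    obtain ⟨N', hN', hF', haN⟩ := h a ha
    refine ⟨N ⊓ N', inferInstance, inferInstance, ?_⟩
    intro s hs
    rcases Set.mem_insert_iff.1 hs with rfl | hs
    · exact fun h3 => haN h3.2
    · exact fun h3 => hNS s hs h3.1

/-- the commutators with a fixed element of a commutative normal subgroup -/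
theorem RfA_comm {P : Type*} [Group P] {A : Subgroup P} (hc : ∀ a ∈ A, ∀ b ∈ A, a * b = b * a)
    {x : P} (hx : x ∈ A) (g : P) :
    g * x * g⁻¹ * x⁻¹ = (g : P ⧸ A).out * x * ((g : P ⧸ A).out)⁻¹ * x⁻¹ := by
  obtain ⟨a, ha⟩ := QuotientGroup.mk_out_eq_mul A g
  have h1 : (a : P) * x = x * a := hc a a.2 x hx
  have h2 : (a : P) * x * (a : P)⁻¹ = x := by rw [h1, mul_inv_cancel_right]
  rw [ha, mul_inv_rev]
  congr 1
  calc g * x * g⁻¹ = g * ((a : P) * x * (a : P)⁻¹) * g⁻¹ := by rw [h2]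
    _ = g * (a : P) * x * ((a : P)⁻¹ * g⁻¹) := by simp only [mul_assoc]

/-- A finite set of elements detects the torsion of a virtually `ℤ²` subgroup.

Proof. Let `A` be a normal subgroup of finite index of `↥P`, isomorphic to `ℤ²`, generated by `x, y`. Let
`R` be a finite set of representatives of the left cosets of `A` in `P`. `S` consists (as elements of
`G`) of (1) the commutators `r * x * r⁻¹ * x⁻¹` and `r * y * r⁻¹ * y⁻¹`, `r ∈ R`, which are `≠ 1`, and (2) the
elements `t ≠ 1` of `P` of finite order which commute with `x` and `y` (hence with all of `A`). (2) is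
finite: every coset `r A` contains at most one such element: if `t` and `t * a`, `a ∈ A`, are both of this
kind, then they commute (`t` commutes with `a`), so `a = t⁻¹ * (t * a)` has finite order
(`Commute.mul_pow`), so `a = 1` (`ℤ²` is torsion-free). Now let `g ∈ N`, `g ∈ P`, `g ^ n = 1`,
`g ≠ 1`. If `g` commutes with `x` and `y` then `g ∈ S`, contradiction. Otherwise, say, `g` does not
commute with `x`; `g = r * a` with `r ∈ R`, `a ∈ A`, and `g * x * g⁻¹ * x⁻¹ = r * x * r⁻¹ * x⁻¹` (`a` and `x`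
commute) is in `S`, but it is in `N` because `N` is normal: contradiction. -/
theorem rf_peripheral {G : Type*} [Group G] {P : Subgroup G} (h : VZ P) :
    ∃ S : Set G, S.Finite ∧ (1 : G) ∉ S ∧ ∀ N : Subgroup G, N.Normal → (∀ s ∈ S, s ∉ N) →
      ∀ g ∈ N, g ∈ P → ∀ n : ℕ, 0 < n → g ^ n = 1 → g = 1 := by
  obtain ⟨A, hA, hi, ⟨e⟩⟩ := h
  have hfi : A.FiniteIndex := ⟨hi⟩
  have hfin : Finite (↥P ⧸ A) := inferInstance
  have hc : ∀ a ∈ A, ∀ b ∈ A, a * b = b * a := by
    intro a ha b hb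
    have h1 : (⟨a, ha⟩ : A) * ⟨b, hb⟩ = ⟨b, hb⟩ * ⟨a, ha⟩ := by
      apply e.injective
      rw [map_mul, map_mul, mul_comm]
    exact congrArg Subtype.val h1
  have htf : ∀ a : A, ∀ n : ℕ, 0 < n → a ^ n = 1 → a = 1 := by
    intro a n hn h1
    have h2 : (e a) ^ n = 1 := by rw [← map_pow, h1, map_one]
    have h3 : n • Multiplicative.toAdd (e a) = 0 := by
      rw [← toAdd_pow, h2, toAdd_one]
    have h4 : Multiplicative.toAdd (e a) = 0 := by
      rcases smul_eq_zero.1 h3 with h5 | h5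
      · omega
      · exact h5
    apply e.injective
    rw [map_one]
    exact Multiplicative.toAdd.injective (by rw [h4, toAdd_one])
  obtain ⟨x, hx⟩ : ∃ x : A, x = e.symm (Multiplicative.ofAdd ((1, 0) : ℤ × ℤ)) := ⟨_, rfl⟩
  obtain ⟨y, hy⟩ : ∃ y : A, y = e.symm (Multiplicative.ofAdd ((0, 1) : ℤ × ℤ)) := ⟨_, rfl⟩
  have hgen : ∀ a : A, ∃ m n : ℤ, a = x ^ m * y ^ n := by
    intro a
    refine ⟨(Multiplicative.toAdd (e a)).1, (Multiplicative.toAdd (e a)).2, ?_⟩
    apply e.injective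
    rw [map_mul, map_zpow, map_zpow, hx, hy, e.apply_symm_apply, e.apply_symm_apply]
    apply Multiplicative.toAdd.injective
    rw [toAdd_mul, toAdd_zpow, toAdd_zpow, toAdd_ofAdd, toAdd_ofAdd]
    apply Prod.ext <;> simp
  have hcomm : ∀ g : P, Commute g (x : P) → Commute g (y : P) → ∀ a : A, Commute g (a : P) := by
    intro g h1 h2 a
    obtain ⟨m, n, rfl⟩ := hgen a
    push_cast
    exact (h1.zpow_right m).mul_right (h2.zpow_right n)
  set S2 : Set P := {t | Commute t (x : P) ∧ Commute t (y : P) ∧ ∃ n : ℕ, 0 < n ∧ t ^ n = 1} with hS2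
  have hS2f : S2.Finite := by
    refine Set.Finite.of_injOn (f := fun t : P => (t : ↥P ⧸ A)) (t := Set.univ)
      (fun _ _ => Set.mem_univ _) ?_ Set.finite_univ
    rintro t ⟨ht1, ht2, n, hn, htn⟩ t' ⟨ht1', ht2', m, hm, htm⟩ htt
    have h1 : t⁻¹ * t' ∈ A := QuotientGroup.eq.1 htt
    have h2 : Commute t ((⟨t⁻¹ * t', h1⟩ : A) : P) := hcomm t ht1 ht2 _
    have h3 : Commute t (t⁻¹ * t') := h2
    have h4 : (t⁻¹ * t') ^ (n * m) = 1 := by
      have h5 : t' = t * (t⁻¹ * t') := by group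
      have h6 : t' ^ (n * m) = t ^ (n * m) * (t⁻¹ * t') ^ (n * m) := by
        conv_lhs => rw [h5]
        exact h3.mul_pow _
      have h7 : t' ^ (n * m) = 1 := by rw [mul_comm, pow_mul, htm, one_pow]
      have h8 : t ^ (n * m) = 1 := by rw [pow_mul, htn, one_pow]
      rw [h7, h8, one_mul] at h6
      exact h6.symm
    have h5 : (⟨t⁻¹ * t', h1⟩ : A) = 1 := by
      refine htf _ (n * m) (Nat.mul_pos hn hm) ?_
      apply Subtype.ext
      rw [Subgroup.coe_pow, h4, Subgroup.coe_one]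
    have h6 : t⁻¹ * t' = 1 := congrArg Subtype.val h5
    exact (inv_mul_eq_one.1 h6)
  set S1 : (z : P) → Set G := fun z => Set.range fun q : ↥P ⧸ A =>
    ((q.out * z * (q.out)⁻¹ * z⁻¹ : P) : G) with hS1
  have hmem1 : ∀ z ∈ A, ∀ g : P, ((g * z * g⁻¹ * z⁻¹ : P) : G) ∈ S1 z := by
    intro z hz g
    exact ⟨(g : ↥P ⧸ A), by rw [RfA_comm hc hz g]⟩
  refine ⟨(S1 x ∪ S1 y ∪ (fun t : P => (t : G)) '' S2) \ {1}, ?_, ?_, ?_⟩
  · exact (((Set.finite_range _).union (Set.finite_range _)).union (hS2f.image _)).diff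
  · intro h1
    exact h1.2 rfl
  · intro N hN hNS g hg hgP n hn hgn
    by_contra hg1
    have hkey : ∀ z ∈ A, S1 z ⊆ S1 x ∪ S1 y ∪ (fun t : P => (t : G)) '' S2 →
        Commute (⟨g, hgP⟩ : P) z := by
      intro z hz hsub
      by_contra hnc
      have h1 : (⟨g, hgP⟩ : P) * z * (⟨g, hgP⟩ : P)⁻¹ * z⁻¹ ≠ 1 := by
        intro h2
        apply hnc
        have h3 : (⟨g, hgP⟩ : P) * z * (⟨g, hgP⟩ : P)⁻¹ * z⁻¹ * z * ⟨g, hgP⟩ = 1 * z * ⟨g, hgP⟩ := by
          rw [h2]
        rw [Commute, SemiconjBy]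
        simpa [mul_assoc] using h3
      refine hNS _ ⟨hsub (hmem1 z hz ⟨g, hgP⟩), ?_⟩ ?_
      · intro h2
        apply h1
        exact Subtype.ext (by simpa using h2)
      · have h2 : ((⟨g, hgP⟩ * z * (⟨g, hgP⟩ : P)⁻¹ * z⁻¹ : P) : G) =
            g * ((z : G) * g⁻¹ * (z : G)⁻¹) := by
          push_cast
          simp only [mul_assoc]
        rw [h2]
        exact N.mul_mem hg (hN.conj_mem _ (N.inv_mem hg) _)
    have hcx : Commute (⟨g, hgP⟩ : P) (x : P) :=
      hkey x x.2 fun w hw => Or.inl (Or.inl hw)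
    have hcy : Commute (⟨g, hgP⟩ : P) (y : P) :=
      hkey y y.2 fun w hw => Or.inl (Or.inr hw)
    refine hNS g ⟨Or.inr ⟨⟨g, hgP⟩, ⟨hcx, hcy, n, hn, ?_⟩, rfl⟩, hg1⟩ hg
    exact Subtype.ext (by rw [Subgroup.coe_pow]; simpa using hgn)

end RCan
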