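import Pool.Agent.W_04c03c_h58.HoB
import Pool.Agent.W_04c03c_h58.HoC
import Pool.Agent.W_04c03c_h58.RfA
import Pool.Agent.W_04c03c_h58.HoE
import Pool.Agent.W_04c03c_h58.AlgA
/-!
# Torsion-free subgroups of finite index
-/

namespace RCan

open Set
open scoped NNReal Pointwise

/-- Residually finite groups with a sphere at infinity are virtually torsion-free.

Proof. Let `F` be as in `torsion_conj`. By `finite_orbits` there is a finite set `𝓑 ⊆ 𝓗` such that every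
`B ∈ 𝓗` is `a • B'` with `B' ∈ 𝓑`. For `B' ∈ 𝓑` let `S_{B'}` be the finite set of `rf_peripheral` for
`P = stabilizer G B'` (`VZ.of_virtZ2 (hV B' _)`). Let `N` avoid the finite set
`(F \ {1}) ∪ ⋃_{B' ∈ 𝓑} S_{B'}` (`rf_avoid`). Let `g ∈ N`, `g ^ n = 1`, `0 < n`. If `a * g * a⁻¹ ∈ F`: it is in
`N`, so it is `1`, and `g = 1`. If `g • B = B`, `B = a • B'`, `B' ∈ 𝓑`: `a⁻¹ * g * a ∈ N` is in `stabilizer G B'`
and has finite order, so it is `1`, and `g = 1`. -/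
theorem exists_tfree {G X : Type*} [Group G] [MetricSpace X] [ProperSpace X] [Nonempty X]
    [MulAction G X] {𝓗 : Set (Set X)} {δ : ℝ} (hδ : Hyp4 X δ) (hG : IsGeod X) (hC : Cusped G 𝓗)
    (hr : Q62.ResFin G) (hV : ∀ B ∈ 𝓗, VirtZ2 (MulAction.stabilizer G B)) {o : X}
    (ho : ∀ B ∈ 𝓗, o ∉ B) : ∃ N : Subgroup G, N.Normal ∧ N.FiniteIndex ∧ TFree N := by
  obtain ⟨F, hF, hFc⟩ := torsion_conj hδ hG hC
  letI := cuspAct hC
  have hfo : Finite (MulAction.orbitRel.Quotient G 𝓗) := finite_orbits hG hC ho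
  let rep : MulAction.orbitRel.Quotient G 𝓗 → 𝓗 := fun q => Quotient.out q
  choose S hSf hS1 hSN using fun q : MulAction.orbitRel.Quotient G 𝓗 =>
    rf_peripheral (P := MulAction.stabilizer G (rep q).1)
      (VZ.of_virtZ2 (hV (rep q).1 (rep q).2))
  have hfin : ((F \ {1}) ∪ ⋃ q, S q).Finite :=
    (hF.subset Set.diff_subset).union (Set.finite_iUnion hSf)
  have hone : (1 : G) ∉ (F \ {1}) ∪ ⋃ q, S q := by
    rintro (h | h)
    · exact h.2 rfl
    · obtain ⟨q, hq⟩ := Set.mem_iUnion.1 h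
      exact hS1 q hq
  obtain ⟨N, hN, hFI, hav⟩ := rf_avoid hr hfin hone
  refine ⟨N, hN, hFI, ?_⟩
  rintro ⟨g, hg⟩ n hn hgn
  have hgn' : g ^ n = 1 := congrArg Subtype.val hgn
  have hconj : ∀ a : G, a * g * a⁻¹ = 1 → (⟨g, hg⟩ : N) = 1 := by
    intro a h
    apply Subtype.ext
    show g = 1
    have h1 : a * g = a := by rwa [mul_inv_eq_one] at h
    exact mul_eq_left.1 h1
  have hpow : ∀ a : G, (a * g * a⁻¹) ^ n = 1 := by
    intro a
    rw [conj_pow, hgn', mul_one, mul_inv_cancel]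
  rcases hFc g n hn hgn' with ⟨a, ha⟩ | ⟨B, hB, hgB⟩
  · apply hconj a
    by_contra hne
    exact hav (a * g * a⁻¹) (Or.inl ⟨ha, hne⟩) (hN.conj_mem g hg a)
  · obtain ⟨a, ha⟩ : ∃ a : G, a • (⟨B, hB⟩ : 𝓗) =
        rep (Quotient.mk (MulAction.orbitRel G 𝓗) ⟨B, hB⟩) :=
      Quotient.mk_out (s := MulAction.orbitRel G 𝓗) (⟨B, hB⟩ : 𝓗)
    have ha' : a • B = (rep (Quotient.mk (MulAction.orbitRel G 𝓗) ⟨B, hB⟩)).1 :=
      congrArg Subtype.val ha
    apply hconj a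
    refine hSN (Quotient.mk (MulAction.orbitRel G 𝓗) ⟨B, hB⟩) N hN
      (fun s hs => hav s (Or.inr (Set.mem_iUnion.2 ⟨_, hs⟩))) _ (hN.conj_mem g hg a) ?_ n hn
      (hpow a)
    rw [MulAction.mem_stabilizer_iff, ← ha', mul_smul, mul_smul, inv_smul_smul, hgB]

end RCan
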