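import Pool.Agent.W_04c03c_h58.RayB1

/-!
# Rays from a base point
-/

namespace RCan

open Filter Topology
open scoped NNReal

variable {X : Type*} [MetricSpace X] {δ : ℝ}

theorem RayB_dist {o : X} {γ : GRay X} (h : γ.1 0 = o) (s : ℝ≥0) : dist o (γ.1 s) = s := by
  rw [← h, γ.2.dist_eq, NNReal.dist_eq]
  simp

theorem RayB_dist0 (γ : GRay X) (s : ℝ≥0) : dist (γ.1 0) (γ.1 s) = s := RayB_dist rfl s

theorem RayB_dist2 (γ : GRay X) {s t : ℝ≥0} (hst : s ≤ t) : dist (γ.1 s) (γ.1 t) = t - s := by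
  rw [γ.2.dist_eq, NNReal.dist_eq, abs_sub_comm, abs_of_nonneg]
  rw [sub_nonneg]
  exact_mod_cast hst

/-- Gromov products along a ray from `o`. -/
theorem gp_ray {o : X} {γ : GRay X} (h : γ.1 0 = o) {s t : ℝ≥0} (hst : s ≤ t) :
    gp o (γ.1 s) (γ.1 t) = s := by
  unfold gp
  rw [RayB_dist h, RayB_dist h, RayB_dist2 γ hst]
  ring

/-- Two rays from `o` with a large Gromov product are close for a long time.

Proof. `M ≤ s, t` (`gp_le_left`, `gp_le_right`). For `u ≤ M`: `gp o (γ u) (γ' u) ≥ u - 2 δ` by two uses of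
`gp_hyp'` through `γ s` and `γ' t` (`gp_ray`); `dist_of_gp`. -/
theorem ray_close (hδ : Hyp4 X δ) {o : X} {γ γ' : GRay X} (h : γ.1 0 = o) (h' : γ'.1 0 = o)
    {s t u : ℝ≥0} (hM : u ≤ gp o (γ.1 s) (γ'.1 t)) : dist (γ.1 u) (γ'.1 u) ≤ 4 * δ := by
  have hs : (u : ℝ) ≤ s := hM.trans ((gp_le_left _ _ _).trans (RayB_dist h s).le)
  have ht : (u : ℝ) ≤ t := hM.trans ((gp_le_right _ _ _).trans (RayB_dist h' t).le)
  have h1 : (u : ℝ) - δ ≤ gp o (γ.1 u) (γ'.1 t) :=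
    gp_hyp' hδ (gp_ray h (show u ≤ s by exact_mod_cast hs)).ge hM
  have h2 : (u : ℝ) - δ ≤ gp o (γ'.1 t) (γ'.1 u) := by
    rw [gp_comm, gp_ray h' (show u ≤ t by exact_mod_cast ht)]
    linarith [hδ.1]
  have h3 := dist_of_gp (gp_hyp' hδ h1 h2)
  rw [RayB_dist h, RayB_dist h'] at h3
  linarith

/-- Asymptotic rays have large Gromov products (any base point; the rays may start anywhere).

Proof. `gp o (γ t) (γ' t) ≥ (2 t - dist o (γ 0) - dist o (γ' 0) - C) / 2`. For `M` take `t` large; also for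
all `t` large. -/
theorem gp_of_asym {o : X} {γ γ' : GRay X} (h : (asym X).r γ γ') (M : ℝ) :
    ∃ t₀ : ℝ≥0, ∀ t ≥ t₀, M ≤ gp o (γ.1 t) (γ'.1 t) := by
  obtain ⟨C, hC⟩ := h
  refine ⟨(M + (dist o (γ.1 0) + dist o (γ'.1 0) + C) / 2).toNNReal, fun t ht => ?_⟩
  have h1 : M + (dist o (γ.1 0) + dist o (γ'.1 0) + C) / 2 ≤ t := by
    refine (Real.le_coe_toNNReal _).trans ?_
    exact_mod_cast ht
  have h2 := dist_triangle (γ.1 0) o (γ.1 t)
  have h3 := dist_triangle (γ'.1 0) o (γ'.1 t)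
  rw [RayB_dist0, dist_comm _ o] at h2 h3
  unfold gp
  linarith [hC t]

/-- Rays with unbounded Gromov products are asymptotic.

Proof. Let `γ₁, γ₁'` be rays from `o` asymptotic to `γ, γ'` (`exists_ray_from`). For each `u`, to show
`dist (γ₁ u) (γ₁' u) ≤ 4 δ` find `s, t` with `gp o (γ s) (γ' t) ≥ u + 4 δ + large`: then `s, t` are large:
`dist o (γ s) ≥ M` so `s ≥ M - dist o (γ 0)`. For `s` large `gp o (γ s) (γ₁ s) ≥ u + 4 δ` (`gp_of_asym`),
similarly for `γ'`, so `gp o (γ₁ s) (γ₁' t) ≥ u` by two uses of `gp_hyp'`; `ray_close`. -/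
theorem asym_of_gp [ProperSpace X] (hδ : Hyp4 X δ) (hG : IsGeod X) {o : X} {γ γ' : GRay X}
    (h : ∀ M : ℝ, ∃ s t : ℝ≥0, M ≤ gp o (γ.1 s) (γ'.1 t)) : (asym X).r γ γ' := by
  obtain ⟨γ₁, h0, ha⟩ := exists_ray_from hδ hG o γ
  obtain ⟨γ₁', h0', ha'⟩ := exists_ray_from hδ hG o γ'
  have hδ0 := hδ.1
  have key : (asym X).r γ₁ γ₁' := by
    refine ⟨4 * δ, fun u => ?_⟩
    obtain ⟨t₀, ht₀⟩ := gp_of_asym (o := o) ha (u + 4 * δ)
    obtain ⟨t₁, ht₁⟩ := gp_of_asym (o := o) ha' (u + 4 * δ)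
    obtain ⟨s, t, hst⟩ := h (u + 4 * δ + (dist o (γ.1 0) + t₀) + (dist o (γ'.1 0) + t₁))
    have d0 : 0 ≤ dist o (γ.1 0) := dist_nonneg
    have d0' : 0 ≤ dist o (γ'.1 0) := dist_nonneg
    have e0 : (0 : ℝ) ≤ t₀ := t₀.2
    have e1 : (0 : ℝ) ≤ t₁ := t₁.2
    have e2 : (0 : ℝ) ≤ u := u.2
    have hs : t₀ ≤ s := by
      have h1 := gp_le_left o (γ.1 s) (γ'.1 t)
      have h2 := dist_triangle o (γ.1 0) (γ.1 s)
      rw [RayB_dist0] at h2
      have h3 : (t₀ : ℝ) ≤ s := by linarith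
      exact_mod_cast h3
    have ht : t₁ ≤ t := by
      have h1 := gp_le_right o (γ.1 s) (γ'.1 t)
      have h2 := dist_triangle o (γ'.1 0) (γ'.1 t)
      rw [RayB_dist0] at h2
      have h3 : (t₁ : ℝ) ≤ t := by linarith
      exact_mod_cast h3
    have h1 := ht₀ s hs
    have h2 := ht₁ t ht
    rw [gp_comm] at h2
    have h3 : (u : ℝ) + 4 * δ ≤ gp o (γ.1 s) (γ'.1 t) := by linarith
    have h4 := gp_hyp' hδ h1 h3
    have h5 := gp_hyp' hδ h4 (show (u : ℝ) + 4 * δ - δ ≤ _ by linarith)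
    exact ray_close hδ h0 h0' (s := s) (t := t) (by linarith)
  exact (asym X).trans ((asym X).symm ha) ((asym X).trans key ha')

/-- Asymptotic rays from `o` are `4 δ`-close. (`gp_of_asym`, `ray_close`.) -/
theorem asym_close (hδ : Hyp4 X δ) {o : X} {γ γ' : GRay X} (h : γ.1 0 = o) (h' : γ'.1 0 = o)
    (ha : (asym X).r γ γ') (u : ℝ≥0) : dist (γ.1 u) (γ'.1 u) ≤ 4 * δ := by
  obtain ⟨t₀, ht₀⟩ := gp_of_asym (o := o) ha u
  exact ray_close hδ h h' (ht₀ t₀ le_rfl)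

/-- Rays from `o` which are not asymptotic have bounded Gromov products. (Contrapositive of
`asym_of_gp`.) -/
theorem gp_bdd [ProperSpace X] (hδ : Hyp4 X δ) (hG : IsGeod X) {o : X} {γ γ' : GRay X}
    (h : ¬ (asym X).r γ γ') : ∃ M : ℝ, ∀ s t : ℝ≥0, gp o (γ.1 s) (γ'.1 t) ≤ M := by
  by_contra hc
  refine h (asym_of_gp hδ hG (o := o) fun M => ?_)
  by_contra hc2
  refine hc ⟨M, fun s t => ?_⟩
  by_contra hc3
  exact hc2 ⟨s, t, (not_le.1 hc3).le⟩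

end RCan
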