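import Pool.Agent.W_04c03c_h58.GeoCa
import Pool.Agent.W_04c03c_h58.RayB

/-!
# Horoballs
-/

namespace RCan

open Filter Topology Set
open scoped NNReal Pointwise

variable {X : Type*} [MetricSpace X] {δ : ℝ}

theorem Horo_dist_zero (γ : GRay X) (t : ℝ≥0) : dist (γ.1 0) (γ.1 t) = t := by
  rw [γ.2.dist_eq, NNReal.dist_eq]
  simp

/-- Sublevel sets of Busemann functions are increasing unions of balls.

Proof. The family `dist x (γ t) - t` is bounded below by `-dist x (γ 0)` (triangle inequality, `γ` is an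
isometry); `ciInf_lt_iff`. -/
theorem horo_eq (γ : GRay X) (c : ℝ) : {x | buse γ x < c} = HB γ c := by
  ext x
  have hb : BddBelow (Set.range fun t : ℝ≥0 => dist x (γ.1 t) - t) := by
    refine ⟨-dist x (γ.1 0), ?_⟩
    rintro _ ⟨t, rfl⟩
    have h1 := dist_triangle (γ.1 0) x (γ.1 t)
    rw [Horo_dist_zero, dist_comm (γ.1 0) x] at h1
    show -dist x (γ.1 0) ≤ dist x (γ.1 t) - t
    linarith
  show (⨅ t : ℝ≥0, (dist x (γ.1 t) - t)) < c ↔ ∃ t : ℝ≥0, dist x (γ.1 t) < t + c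
  rw [ciInf_lt_iff hb]
  constructor
  · rintro ⟨t, ht⟩
    exact ⟨t, by linarith⟩
  · rintro ⟨t, ht⟩
    exact ⟨t, by linarith⟩

theorem isOpen_HB (γ : GRay X) (c : ℝ) : IsOpen (HB γ c) := by
  have : HB γ c = ⋃ t : ℝ≥0, Metric.ball (γ.1 t) (t + c) := by
    ext x
    simp [HB]
  rw [this]
  exact isOpen_iUnion fun t => Metric.isOpen_ball

/-- Far points of the ray are in the horoball. -/
theorem ray_mem_HB (γ : GRay X) (c : ℝ) {t : ℝ≥0} (ht : -c < t) : γ.1 t ∈ HB γ c := by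
  refine ⟨t, ?_⟩
  rw [dist_self]
  linarith

/-- Proof. Let `dist x (γ t₀) < t₀ + c` (also for `t ≥ t₀`, `ball_mono`); `dist o (γ t) ≥ t + c` as
`o ∉ HB γ c`. -/
theorem horo_gp {γ : GRay X} {c : ℝ} {o x : X} (ho : o ∉ HB γ c) (hx : x ∈ HB γ c) :
    ∃ t₀ : ℝ≥0, ∀ t ≥ t₀, dist o x / 2 ≤ gp o x (γ.1 t) := by
  obtain ⟨t₀, ht₀⟩ := hx
  refine ⟨t₀, fun t ht => ?_⟩
  have h1 := ball_mono γ ht₀ ht
  have h2 : (t : ℝ) + c ≤ dist o (γ.1 t) := by
    by_contra hcon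
    exact ho ⟨t, not_le.1 hcon⟩
  unfold gp
  linarith

/-- The centre of a horoball is well defined.

Proof. `asym_of_gp`: given `M`, take `s` large: `γ s ∈ HB γ c = HB γ' c'` (`ray_mem_HB`), and by `horo_gp`
`gp o (γ s) (γ' t) ≥ dist o (γ s) / 2 ≥ (s - dist o (γ 0)) / 2` for `t` large. -/
theorem horo_asym [ProperSpace X] (hδ : Hyp4 X δ) (hG : IsGeod X) {γ γ' : GRay X} {c c' : ℝ} {o : X}
    (ho : o ∉ HB γ c) (h : HB γ c = HB γ' c') : (asym X).r γ γ' := by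
  refine asym_of_gp hδ hG (o := o) fun M => ?_
  set s' : ℝ≥0 := Real.toNNReal (2 * |M| + dist o (γ.1 0) + |c| + 1) with hs'
  have hs1' : 2 * |M| + dist o (γ.1 0) + |c| + 1 ≤ s' := Real.le_coe_toNNReal _
  have hM' : -c < s' := by
    have h1 := neg_le_abs c
    have h2 := abs_nonneg M
    have h3 : (0 : ℝ) ≤ dist o (γ.1 0) := dist_nonneg
    linarith
  have hx : γ.1 s' ∈ HB γ' c' := by
    rw [← h]
    exact ray_mem_HB γ c hM'
  have ho' : o ∉ HB γ' c' := by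
    rw [← h]
    exact ho
  obtain ⟨t₀, ht₀⟩ := horo_gp ho' hx
  refine ⟨s', t₀, ?_⟩
  have h1 := ht₀ t₀ le_rfl
  have h2 := dist_triangle (γ.1 0) o (γ.1 s')
  rw [Horo_dist_zero, dist_comm (γ.1 0) o] at h2
  have h3 := abs_nonneg c
  have h4 := le_abs_self M
  linarith

/-- Disjoint horoballs have different centres.

Proof. If `dist (γ t) (γ' t) ≤ C` for all `t`, then for `t > -c` and `t > C - c'` the point `γ t` is in
both horoballs. -/
theorem horo_not_asym {γ γ' : GRay X} {c c' : ℝ} (h : Disjoint (HB γ c) (HB γ' c')) :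
    ¬ (asym X).r γ γ' := by
  rintro ⟨C, hC⟩
  set t : ℝ≥0 := Real.toNNReal (|c| + |c'| + |C| + 1) with ht
  have ht1 : |c| + |c'| + |C| + 1 ≤ t := Real.le_coe_toNNReal _
  have h1 := neg_le_abs c
  have h2 := neg_le_abs c'
  have h3 := le_abs_self C
  have h4 := abs_nonneg c
  have h5 := abs_nonneg c'
  have h6 := abs_nonneg C
  have m1 : γ.1 t ∈ HB γ c := ray_mem_HB γ c (by linarith)
  have m2 : γ.1 t ∈ HB γ' c' := ⟨t, by
    have h7 := hC t
    linarith⟩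
  exact Set.disjoint_left.1 h m1 m2

end RCan
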