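import Pool.Agent.W_04c03c_h58.Inf
import Pool.Agent.W_04c03c_h58.Dual

/-!
# Relative cocycles are relative coboundaries
-/

namespace RCan

variable {N Ξ V : Type*} [Group N] [MulAction N Ξ] [MulAction N V] {sm : V → V → Prop}
  {cusp : V → Option Ξ} {π : V → E3} {ctr : Ξ → E3} {d : V → ℝ}

/-- Proof. (a) `exists_co_of_cycles` for `S = {l | Sml sm l}`, the cochain `f` and lists of length
`n + 2`: a cycle `c` of small lists of length `n + 2` is `bd b` with `b` supported on small lists of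
length `n + 3` (`h.acV`), and `linearCombination f (bd b) = linearCombination (co f) b = 0` because
`co f l = cr sm f l = 0` for small `l` (`lc_bd`, `lc_eq_zero`). We get `e₀`, supported on small lists of
length `n + 1`, with `co e₀ l = f l` for small `l` of length `n + 2`.
(b) For `ξ : Ξ` apply `exists_co_of_cycles` to `S_ξ = {l | Sml sm l ∧ ∀ x ∈ l, cusp x = some ξ}` and
`e₀`, lists of length `n + 1`: cycles are boundaries of `b` in the horoball (`h.acC`), and
`co e₀ = f = 0` on the lists of `b` (`hf.rl`: `f` vanishes on lists contained in a horoball). We get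
`κ ξ` supported on lists of `S_ξ` of length `n`, with `co (κ ξ) l = e₀ l` for `l ∈ S_ξ` of length `n + 1`.
(c) `K l = κ ξ l` if `l` is nonempty, small, contained in the horoball `ξ` (then `ξ` is unique), and
`0` otherwise (e.g. `K l = if h : l ≠ [] ∧ ∃ ξ, ∀ x ∈ l, cusp x = some ξ then κ (choose) l else 0`).
Since `n ≥ 1`, for `l ∈ S_ξ` of length `n + 1`: `co K l = co (κ ξ) l = e₀ l` (faces are nonempty).
(d) `e₁ l = e₀ l - co K l` if `l` is small of length `n + 1` and `0` otherwise. It vanishes on lists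
contained in a horoball, and `co e₁ = co e₀ = f` on small lists of length `n + 2` (`co_co`).
(e) Choose any linear order on `V` (for instance `linearOrderOfSTO WellOrderingRel`) and put
`e = rr e₁`: alternating (`alt_rr`), of length `n + 1` and relative (`rr e₁ l ≠ 0` implies
`e₁ (srt l) ≠ 0`; `mem_srt`, `length_srt`). `cr sm (rr e₁) = rr (cr sm e₁)` (`co_rr`; smallness of `l` and
`srt l` are equivalent), and `cr sm e₁ = f`, `rr f = f` (`rr_alt`). -/
theorem exists_rel (h : InfD N Ξ V sm cusp π ctr d) {k : Type} [Field k] {n : ℕ} (hn : 1 ≤ n)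
    {f : List V → k} (hf : IsR sm cusp k (n + 1) f) (hc : cr sm f = 0) :
    ∃ e, IsR sm cusp k n e ∧ cr sm e = f := by
  classical
  have hf0 : ∀ l, ¬ Sml sm l → f l = 0 := by
    intro l hl
    by_contra hne
    exact hl (hf.rl l hne).1
  have hfC : ∀ l ξ, (∀ x ∈ l, cusp x = some ξ) → f l = 0 := by
    intro l ξ hl
    by_contra hne
    exact (hf.rl l hne).2 ⟨ξ, hl⟩
  have hfl : ∀ l, l.length ≠ n + 2 → f l = 0 := by
    intro l hl
    by_contra hne
    exact hl (hf.len l hne)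
  have hco : ∀ l, Sml sm l → co f l = 0 := by
    intro l hl
    rw [← cr_of_sml f hl, hc]
    rfl
  -- (a)
  obtain ⟨e₀, he1, he2⟩ := exists_co_of_cycles {l : List V | Sml sm l}
    (fun l hl l' h1 _ => hl.sub h1.subset) (n + 1) f (by
      intro c hcs hcb
      have hcs' : c ∈ Finsupp.supported k k (SmT sm (Set.univ : Set V) (n + 2)) := by
        refine Finsupp.supported_mono ?_ hcs
        rintro l ⟨h1, h2⟩
        exact ⟨⟨h1, fun x _ => Set.mem_univ x⟩, h2⟩
      obtain ⟨b, hb, hbc⟩ := h.acV k (n + 2) c hcs' hcb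
      rw [← hbc, lc_bd]
      exact lc_eq_zero (fun l hl => hco l hl.1.1) hb)
  have he2' : ∀ l, Sml sm l → l.length = n + 2 → co e₀ l = f l := fun l hl hn => he2 l hl hn
  -- (b)
  have hκ : ∀ ξ : Ξ, ∃ κ : List V → k,
      (∀ l, κ l ≠ 0 → l ∈ {l : List V | Sml sm l ∧ ∀ x ∈ l, cusp x = some ξ} ∧ l.length = n) ∧
      ∀ l ∈ {l : List V | Sml sm l ∧ ∀ x ∈ l, cusp x = some ξ}, l.length = n + 1 →
        co κ l = e₀ l := by
    intro ξ
    refine exists_co_of_cycles {l : List V | Sml sm l ∧ ∀ x ∈ l, cusp x = some ξ}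
      (fun l hl l' h1 _ => ⟨hl.1.sub h1.subset, fun x hx => hl.2 x (h1.subset hx)⟩) n e₀ ?_
    intro c hcs hcb
    have hcs' : c ∈ Finsupp.supported k k (SmT sm {v | cusp v = some ξ} (n + 1)) := by
      refine Finsupp.supported_mono ?_ hcs
      rintro l ⟨h1, h2⟩
      exact ⟨h1, h2⟩
    obtain ⟨b, hb, hbc⟩ := h.acC ξ k (n + 1) c hcs' hcb
    rw [← hbc, lc_bd]
    refine lc_eq_zero (fun l hl => ?_) hb
    rw [he2' l hl.1.1 hl.2]
    exact hfC l ξ hl.1.2
  choose κ hκ1 hκ2 using hκ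
  -- (c)
  obtain ⟨K, hK⟩ : ∃ K : List V → k, ∀ l ξ, l ≠ [] → (∀ x ∈ l, cusp x = some ξ) → K l = κ ξ l := by
    refine ⟨fun l => if H : ∃ ξ, ∀ x ∈ l, cusp x = some ξ then κ H.choose l else 0, ?_⟩
    intro l ξ hl hx
    have H : ∃ ξ, ∀ x ∈ l, cusp x = some ξ := ⟨ξ, hx⟩
    show (if H : ∃ ξ, ∀ x ∈ l, cusp x = some ξ then κ H.choose l else 0) = κ ξ l
    rw [dif_pos H]
    obtain ⟨x, hxl⟩ := List.exists_mem_of_ne_nil l hl
    have h1 := H.choose_spec x hxl
    rw [hx x hxl] at h1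
    rw [← Option.some.inj h1]
  have hKco : ∀ l ξ, Sml sm l → (∀ x ∈ l, cusp x = some ξ) → l.length = n + 1 →
      co K l = e₀ l := by
    intro l ξ hs hx hl
    rw [← hκ2 ξ l ⟨hs, hx⟩ hl]
    refine dl_congr l fun l' h1 h2 => ?_
    refine hK l' ξ ?_ fun x hx' => hx x (h1.subset hx')
    intro h3
    rw [h3, List.length_nil] at h2
    omega
  -- (d)
  obtain ⟨e₁, he₁⟩ : ∃ e₁ : List V → k, e₁ = fun l =>
      if Sml sm l ∧ l.length = n + 1 then e₀ l - co K l else 0 := ⟨_, rfl⟩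
  have hd1 : ∀ l, e₁ l ≠ 0 → (Sml sm l ∧ l.length = n + 1) ∧ ¬ InC cusp l := by
    intro l hl
    have h1 : Sml sm l ∧ l.length = n + 1 := by
      by_contra hcon
      rw [he₁] at hl
      exact hl (if_neg hcon)
    refine ⟨h1, ?_⟩
    rintro ⟨ξ, hξ⟩
    apply hl
    rw [he₁]
    show (if Sml sm l ∧ l.length = n + 1 then e₀ l - co K l else 0) = 0
    rw [if_pos h1, hKco l ξ h1.1 hξ h1.2, sub_self]
  have hd2 : ∀ l, Sml sm l → co e₁ l = f l := by
    intro l hs
    by_cases hl : l.length = n + 2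
    · have h1 : co e₁ l = co (e₀ - co K) l := by
        refine dl_congr l fun l' h1 h2 => ?_
        rw [he₁]
        show (if Sml sm l' ∧ l'.length = n + 1 then e₀ l' - co K l' else 0) = (e₀ - co K) l'
        rw [if_pos ⟨hs.sub h1.subset, by omega⟩]
        rfl
      rw [h1, co_sub, co_co, sub_zero]
      exact he2' l hs hl
    · rw [hfl l hl]
      refine dl_eq_zero l fun l' h1 h2 => ?_
      rw [he₁]
      show (if Sml sm l' ∧ l'.length = n + 1 then e₀ l' - co K l' else 0) = 0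
      rw [if_neg]
      rintro ⟨_, h3⟩
      omega
  -- (e)
  let _ : LinearOrder V := linearOrderOfSTO WellOrderingRel
  have hsm : ∀ l : List V, Sml sm (srt l) ↔ Sml sm l := by
    intro l
    constructor
    · intro h1 x hx y hy
      exact h1 x (mem_srt.2 hx) y (mem_srt.2 hy)
    · intro h1 x hx y hy
      exact h1 x (mem_srt.1 hx) y (mem_srt.1 hy)
  have hrr : ∀ l : List V, rr e₁ l ≠ 0 → e₁ (srt l) ≠ 0 := by
    intro l hl h0
    apply hl
    show sgn l • e₁ (srt l) = 0
    rw [h0, smul_zero]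
  refine ⟨rr e₁, ⟨alt_rr e₁, ?_, ?_⟩, ?_⟩
  · intro l hl
    have h1 := (hd1 _ (hrr l hl)).1.2
    rwa [length_srt] at h1
  · intro l hl
    have h1 := hd1 _ (hrr l hl)
    refine ⟨(hsm l).1 h1.1.1, ?_⟩
    rintro ⟨ξ, hξ⟩
    exact h1.2 ⟨ξ, fun x hx => hξ x (mem_srt.1 hx)⟩
  · funext l
    by_cases hs : Sml sm l
    · rw [cr_of_sml _ hs, co_rr]
      have h1 : rr (co e₁) l = rr f l := by
        show sgn l • co e₁ (srt l) = sgn l • f (srt l)
        rw [hd2 _ ((hsm l).2 hs)]
      rw [h1, rr_alt hf.alt]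
    · rw [hf0 l hs]
      simp [cr, hs]

end RCan
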