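import Pool.Agent.W_04c03c_h58.InfB
import Pool.Agent.W_04c03c_h58.Dual

/-!
# Germs at infinity: the common part
-/

namespace RCan

variable {N Ξ V : Type*} [Group N] [MulAction N Ξ] [MulAction N V] {sm : V → V → Prop}
  {cusp : V → Option Ξ} {π : V → E3} {ctr : Ξ → E3} {d : V → ℝ}

theorem InfC_lc_congr {k V : Type*} [CommRing k] {S : Set (List V)} {f g : List V → k}
    (h : ∀ l ∈ S, f l = g l) {c : LC k V} (hc : c ∈ Finsupp.supported k k S) :
    Finsupp.linearCombination k f c = Finsupp.linearCombination k g c := by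
  rw [Finsupp.linearCombination_apply, Finsupp.linearCombination_apply]
  refine Finsupp.sum_congr fun l hl => ?_
  rw [h l ((Finsupp.mem_supported k c).1 hc hl)]

theorem InfC_lc_sub {k V : Type*} [CommRing k] (f g : List V → k) (c : LC k V) :
    Finsupp.linearCombination k (fun l => f l - g l) c =
      Finsupp.linearCombination k f c - Finsupp.linearCombination k g c := by
  rw [Finsupp.linearCombination_apply, Finsupp.linearCombination_apply,
    Finsupp.linearCombination_apply, ← Finsupp.sum_sub]
  refine Finsupp.sum_congr fun l _ => ?_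
  rw [smul_sub]

/-- A relative cochain `e` with `cr e` of finite support is, far from the base point, the pull back
of an Alexander-Spanier cocycle up to a coboundary (not yet relative).

Proof. `f = cr sm e` has finite support, so there is `R₀` such that `f l = 0` for every list `l` with all
`R₀ ≤ d x` (`l ≠ []`, `l` has length `n + 2` if `f l ≠ 0`; take `R₀` larger than all `d x` with `x` an entry
of a list in the support). `h.near R₀` gives `y, ε, R'`. Put `a l = e (l.map y)` if `l` has length
`n + 1`, all entries in `S2` and all distances `< ε`, and `a l = 0` otherwise (`Alt.ite`, `Alt.map`).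
`AZ S2 (n + 1) a` with this `ε`: for `l` of length `n + 2` with `Nr S2 ε l`: `co a l = co e (l.map y) =
f (l.map y) = 0` since `l.map y` is small with `R₀ ≤ d`.
`S = {l | Sml sm l ∧ ∀ x ∈ l, R' ≤ d x}` (we may increase `R'` so that `R' ≥ R₀`: replace `R'` by
`max R' R₀`; then the last properties of `near` remain true since the set of chains gets smaller), and
apply `exists_co_of_cycles` to the cochain `e - ap a` and lists of length `n + 1`: for a cycle `c`
supported on `S` with length `n + 1`: `bd b = mp (y ∘ π) c - c`, `b` supported on small lists with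
`R₀ ≤ d`. `linearCombination (ap a) c = linearCombination e (mp (y ∘ π) c)` (for `l ∈ S` of length
`n + 1`: `l.map π` has entries in `S2` at distance `< ε`, so `a (l.map π) = e (l.map (y ∘ π))`; `lc_mp`),
and `linearCombination e (bd b) = linearCombination (co e) b = 0` (`co e l = f l = 0` on the lists of
`b`). So `linearCombination (e - ap a) c = 0`. -/
theorem germ_aux (h : InfD N Ξ V sm cusp π ctr d) {k : Type} [Field k] {n : ℕ} (hn : 1 ≤ n)
    {e : List V → k} (he : IsR sm cusp k n e) (hf : (Function.support (cr sm e)).Finite) :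
    ∃ (a : List E3 → k) (g : List V → k) (R : ℝ), Alt a ∧ (∀ l, a l ≠ 0 → l.length = n + 1) ∧
      AZ S2 (n + 1) a ∧ (∀ l, g l ≠ 0 → Sml sm l ∧ l.length = n) ∧
      ∀ l, Sml sm l → (∀ x ∈ l, R ≤ d x) → l.length = n + 1 → e l - ap sm π a l = co g l := by
  classical
  -- the bound `R₀`
  obtain ⟨R₀, hR₀⟩ : ∃ R₀ : ℝ, ∀ l, (∀ x ∈ l, R₀ ≤ d x) → cr sm e l = 0 := by
    have h1 : {x : V | ∃ l ∈ Function.support (cr sm e), x ∈ l}.Finite := by
      have h2 : {x : V | ∃ l ∈ Function.support (cr sm e), x ∈ l} =
          ⋃ l ∈ Function.support (cr sm e), {x | x ∈ l} := by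
        ext x
        simp
      rw [h2]
      exact hf.biUnion fun l _ => l.finite_toSet
    obtain ⟨B, hB⟩ := (h1.image d).bddAbove
    refine ⟨B + 1, fun l hl => ?_⟩
    by_contra hne
    have h3 := he.cr.len l hne
    match l, hne, h3, hl with
    | [], _, h3, _ => simp at h3
    | x :: t, hne, _, hl =>
      have h4 : d x ≤ B := hB ⟨x, ⟨x :: t, hne, List.mem_cons_self⟩, rfl⟩
      have h5 := hl x List.mem_cons_self
      linarith
  obtain ⟨y, ε, R', hε, hy1, hy2, hπ, hch⟩ := h.near R₀
  obtain ⟨a, ha⟩ : ∃ a : List E3 → k, a = fun l => if Nr S2 ε l then e (l.map y) else 0 :=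
    ⟨_, rfl⟩
  have ha1 : ∀ l, Nr S2 ε l → a l = e (l.map y) := by
    intro l hl
    rw [ha]
    exact if_pos hl
  have haa : Alt a := by
    rw [ha]
    exact Alt.ite (Nr S2 ε) (fun l l' h1 h2 => ⟨fun h3 => h3.sub h2, fun h3 => h3.sub h1⟩)
      (he.alt.map y)
  have hal : ∀ l, a l ≠ 0 → l.length = n + 1 := by
    intro l hl
    have h1 : e (l.map y) ≠ 0 := by
      intro h0
      apply hl
      rw [ha]
      show (if Nr S2 ε l then e (l.map y) else 0) = 0
      rw [h0]
      exact ite_self _
    have h2 := he.len _ h1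
    rwa [List.length_map] at h2
  have hsy : ∀ l : List E3, Nr S2 ε l → Sml sm (l.map y) := by
    intro l hl u hu v hv
    rw [List.mem_map] at hu hv
    obtain ⟨z, hz, rfl⟩ := hu
    obtain ⟨w, hw, rfl⟩ := hv
    exact hy2 z (hl z hz).1 w (hl w hw).1 ((hl z hz).2 w hw)
  have haz : AZ S2 (n + 1) a := by
    refine ⟨ε, hε, fun l _ hn' => ?_⟩
    have h1 : co a l = co e (l.map y) := by
      rw [co_map]
      exact dl_congr l fun l' h1 _ => ha1 l' (hn'.sub h1.subset)
    rw [h1, ← cr_of_sml e (hsy l hn')]
    apply hR₀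
    intro x hx
    rw [List.mem_map] at hx
    obtain ⟨z, hz, rfl⟩ := hx
    exact hy1 z (hn' z hz).1
  obtain ⟨g, hg1, hg2⟩ := exists_co_of_cycles {l : List V | Sml sm l ∧ ∀ x ∈ l, max R' R₀ ≤ d x}
    (fun l hl l' h1 _ => ⟨hl.1.sub h1.subset, fun x hx => hl.2 x (h1.subset hx)⟩) n
    (fun l => e l - ap sm π a l) (by
      intro c hcs hcb
      have hcs' : c ∈ Finsupp.supported k k (SmT sm {v | R' ≤ d v} (n + 1)) := by
        refine Finsupp.supported_mono ?_ hcs
        rintro l ⟨h1, h2⟩
        exact ⟨⟨h1.1, fun x hx => (le_max_left _ _).trans (h1.2 x hx)⟩, h2⟩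
      obtain ⟨b, hb, hbc⟩ := hch k (n + 1) c hcs' hcb
      have h1 : Finsupp.linearCombination k (ap sm π a) c =
          Finsupp.linearCombination k (fun l : List V => e (l.map (fun v => y (π v)))) c := by
        refine InfC_lc_congr (fun l hl => ?_) hcs'
        have h2 : Nr S2 ε (l.map π) := by
          intro u hu
          rw [List.mem_map] at hu
          obtain ⟨x, hx, rfl⟩ := hu
          refine ⟨h.sph x, fun v hv => ?_⟩
          rw [List.mem_map] at hv
          obtain ⟨z, hz, rfl⟩ := hv
          exact hπ x z (hl.1.1 x hx z hz) (hl.1.2 x hx) (hl.1.2 z hz)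
        have h3 : ap sm π a l = a (l.map π) := if_pos hl.1.1
        rw [h3, ha1 _ h2, List.map_map]
        rfl
      have h4 : Finsupp.linearCombination k (co e) b = 0 := by
        refine lc_eq_zero (fun l hl => ?_) hb
        rw [← cr_of_sml e hl.1.1]
        exact hR₀ l fun x hx => hl.1.2 x hx
      have h5 := lc_bd e b
      rw [h4, hbc, map_sub, lc_mp, sub_eq_zero] at h5
      rw [InfC_lc_sub, h1, h5, sub_self])
  refine ⟨a, g, max R' R₀, haa, hal, haz, ?_, ?_⟩
  · intro l hl
    exact ⟨(hg1 l hl).1.1, (hg1 l hl).2⟩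
  · intro l hs hd hl
    exact (hg2 l ⟨hs, hd⟩ hl).symm

end RCan
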