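import Pool.Agent.W_04c03c_h62.Defs
/-!
# Finite quotients of large groups
-/

namespace RCan

/-- upper unipotent matrices -/
def LgAE {R : Type} [CommRing R] (t : R) : (Matrix (Fin 2) (Fin 2) R)ˣ where
  val := !![1, t; 0, 1]
  inv := !![1, -t; 0, 1]
  val_inv := by
    ext i j
    fin_cases i <;> fin_cases j <;> simp [Matrix.mul_apply, Fin.sum_univ_two]
  inv_val := by
    ext i j
    fin_cases i <;> fin_cases j <;> simp [Matrix.mul_apply, Fin.sum_univ_two]

/-- lower unipotent matrices -/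
def LgAF {R : Type} [CommRing R] (t : R) : (Matrix (Fin 2) (Fin 2) R)ˣ where
  val := !![1, 0; t, 1]
  inv := !![1, 0; -t, 1]
  val_inv := by
    ext i j
    fin_cases i <;> fin_cases j <;> simp [Matrix.mul_apply, Fin.sum_univ_two]
  inv_val := by
    ext i j
    fin_cases i <;> fin_cases j <;> simp [Matrix.mul_apply, Fin.sum_univ_two]

theorem LgAE_pow {R : Type} [CommRing R] (n : ℕ) : (LgAE (1 : R)) ^ n = LgAE (n : R) := by
  induction n with
  | zero =>
    apply Units.ext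
    rw [pow_zero]
    show (1 : Matrix (Fin 2) (Fin 2) R) = !![1, ((0 : ℕ) : R); 0, 1]
    ext i j
    fin_cases i <;> fin_cases j <;> simp
  | succ n ih =>
    rw [pow_succ, ih]
    apply Units.ext
    show (!![1, (n : R); 0, 1] : Matrix (Fin 2) (Fin 2) R) * !![1, 1; 0, 1] =
      !![1, ((n + 1 : ℕ) : R); 0, 1]
    ext i j
    fin_cases i <;> fin_cases j <;> simp [Matrix.mul_apply, Fin.sum_univ_two, add_comm]

theorem LgAF_pow {R : Type} [CommRing R] (n : ℕ) : (LgAF (1 : R)) ^ n = LgAF (n : R) := by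
  induction n with
  | zero =>
    apply Units.ext
    rw [pow_zero]
    show (1 : Matrix (Fin 2) (Fin 2) R) = !![1, 0; ((0 : ℕ) : R), 1]
    ext i j
    fin_cases i <;> fin_cases j <;> simp
  | succ n ih =>
    rw [pow_succ, ih]
    apply Units.ext
    show (!![1, 0; (n : R), 1] : Matrix (Fin 2) (Fin 2) R) * !![1, 0; 1, 1] =
      !![1, 0; ((n + 1 : ℕ) : R), 1]
    ext i j
    fin_cases i <;> fin_cases j <;> simp [Matrix.mul_apply, Fin.sum_univ_two]

theorem LgA_ne {R : Type} [CommRing R] (t : R) (h : LgAE t * LgAF t = LgAF t * LgAE t) :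
    t * t = 0 := by
  have h1 : (!![1, t; 0, 1] : Matrix (Fin 2) (Fin 2) R) * !![1, 0; t, 1] =
      !![1, 0; t, 1] * !![1, t; 0, 1] := congrArg Units.val h
  have h2 := congrFun (congrFun h1 0) 0
  simpa [Matrix.mul_apply, Fin.sum_univ_two] using h2

/-- The finite quotients of a large group are not uniformly virtually commutative.

Proof. Let `H ≤ G` have finite index, `f : H →* FreeGroup (Fin 2)` onto, `M = m.factorial ≥ 1`,
`R = ZMod (M ^ 2 + 1)` and `ρ : FreeGroup (Fin 2) →* (Matrix (Fin 2) (Fin 2) R)ˣ` with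
`x ↦ !![1, 1; 0, 1]`, `y ↦ !![1, 0; 1, 1]` (see `cycBU`, `cycBV` in `W_04c03c_h62/CycB.lean` for units
from matrices). `(ρ x) ^ M = !![1, M; 0, 1]`, `(ρ y) ^ M = !![1, 0; M, 1]` (induction), and
they do not commute: the `(0, 0)` entries of the two products are `1 + M ^ 2` and `1`, and
`(M : R) ^ 2 ≠ 0` (`M ^ 2 < M ^ 2 + 1`, `M ≥ 1`, `ZMod.natCast_eq_zero_iff`). The target group of `ρ` is
finite, so the kernel of `ρ.comp f` has finite index in `H`; let `K` be the normal core in `G` of its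
image in `G`, normal of finite index. Suppose `A ≥ K` has `A.index ≤ m` and commutators in `K`
(`A.index ≠ 0` since `K` has finite index). Let `a, b : H` be preimages of `x, y`. There is `1 ≤ i ≤ m` with
`a ^ i ∈ A` (`Subgroup.exists_pow_mem_of_index_ne_zero`), so `a ^ M ∈ A`, and `b ^ M ∈ A`, so the
commutator of `a ^ M` and `b ^ M` is in `K`, so it is killed by `ρ.comp f`: contradiction. -/
theorem not_bdd_of_large {G : Type*} [Group G] (h : Q62.IsLarge G) (m : ℕ) :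
    ∃ K : Subgroup G, K.Normal ∧ K.FiniteIndex ∧ ∀ A : Subgroup G, K ≤ A →
      (∀ a ∈ A, ∀ b ∈ A, a * b * a⁻¹ * b⁻¹ ∈ K) → m < A.index := by
  obtain ⟨H, hH, f, hf⟩ := h
  obtain ⟨M, hM⟩ : ∃ M : ℕ, M = m.factorial := ⟨_, rfl⟩
  have hM1 : 1 ≤ M := by
    rw [hM]
    exact Nat.factorial_pos m
  have hNZ : NeZero (M ^ 2 + 1) := ⟨by omega⟩
  obtain ⟨ρ, hρ⟩ : ∃ ρ : FreeGroup (Fin 2) →* (Matrix (Fin 2) (Fin 2) (ZMod (M ^ 2 + 1)))ˣ,
      ρ = FreeGroup.lift (fun i => if i = 0 then LgAE 1 else LgAF 1) := ⟨_, rfl⟩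
  have hx : ρ (FreeGroup.of 0) = LgAE 1 := by simp [hρ]
  have hy : ρ (FreeGroup.of 1) = LgAF 1 := by simp [hρ]
  have hfin : Finite (Matrix (Fin 2) (Fin 2) (ZMod (M ^ 2 + 1)))ˣ := inferInstance
  have hk : (ρ.comp f).ker.FiniteIndex := inferInstance
  have hK1 : ((ρ.comp f).ker.map H.subtype).FiniteIndex := by
    constructor
    rw [Subgroup.index_map_subtype]
    exact Nat.mul_ne_zero hk.index_ne_zero hH.index_ne_zero
  refine ⟨((ρ.comp f).ker.map H.subtype).normalCore, inferInstance, inferInstance, ?_⟩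
  intro A hKA hA
  by_contra hcon
  have hA0 : A.index ≠ 0 := (Subgroup.finiteIndex_of_le hKA).index_ne_zero
  have hpow : ∀ g : G, g ^ M ∈ A := by
    intro g
    obtain ⟨n, hn0, hn, hgn⟩ := Subgroup.exists_pow_mem_of_index_ne_zero hA0 g
    have hdvd : n ∣ M := by
      rw [hM]
      exact Nat.dvd_factorial hn0 (by omega)
    obtain ⟨c, hc⟩ := hdvd
    rw [hc, pow_mul]
    exact A.pow_mem hgn c
  obtain ⟨a, ha⟩ := hf (FreeGroup.of 0)
  obtain ⟨b, hb⟩ := hf (FreeGroup.of 1)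
  have h1 := Subgroup.normalCore_le _ (hA _ (hpow (a : G)) _ (hpow (b : G)))
  obtain ⟨c, hc, hcab⟩ := h1
  have h2 : c = a ^ M * b ^ M * (a ^ M)⁻¹ * (b ^ M)⁻¹ := by
    apply Subtype.ext
    exact hcab
  have h3 : ρ (f c) = 1 := hc
  rw [h2] at h3
  simp only [map_mul, map_inv, map_pow, ha, hb, hx, hy, LgAE_pow, LgAF_pow] at h3
  have h4 : LgAE ((M : ℕ) : ZMod (M ^ 2 + 1)) * LgAF ((M : ℕ) : ZMod (M ^ 2 + 1)) =
      LgAF ((M : ℕ) : ZMod (M ^ 2 + 1)) * LgAE ((M : ℕ) : ZMod (M ^ 2 + 1)) := by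
    have h5 := mul_inv_eq_one.1 h3
    exact mul_inv_eq_iff_eq_mul.1 h5
  have h5 := LgA_ne _ h4
  rw [← Nat.cast_mul, ZMod.natCast_eq_zero_iff] at h5
  have h6 := Nat.le_of_dvd (by positivity) h5
  rw [← pow_two] at h6
  omega

end RCan
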