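import Pool.Agent.W_04c03c_h58.GrA
import Pool.Agent.W_04c03c_h62.Defs
/-!
# Betti numbers
-/

namespace RCan

/-- The index of a level. -/
def lgB_lv (l : ZMod 3) : Fin 3 := ⟨l.val, by have := ZMod.val_lt l; omega⟩

/-- The generator `a` acts on level `l` by adding `e_l`. -/
def lgB_A : Equiv.Perm (ZMod 3 × (Fin 3 → ℚ)) where
  toFun x := (x.1, x.2 + Pi.single (lgB_lv x.1) 1)
  invFun x := (x.1, x.2 - Pi.single (lgB_lv x.1) 1)
  left_inv x := by simp
  right_inv x := by simp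

/-- The generator `b` goes one level up. -/
def lgB_B : Equiv.Perm (ZMod 3 × (Fin 3 → ℚ)) where
  toFun x := (x.1 + 1, x.2)
  invFun x := (x.1 - 1, x.2)
  left_inv x := by simp
  right_inv x := by simp

/-- The action of the free group. -/
noncomputable def lgB_rho :
    FreeGroup (Fin 2) →* Equiv.Perm (ZMod 3 × (Fin 3 → ℚ)) :=
  FreeGroup.lift (fun i => if i = 0 then lgB_A else lgB_B)

/-- The level. -/
noncomputable def lgB_beta : FreeGroup (Fin 2) →* Multiplicative (ZMod 3) :=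
  FreeGroup.lift (fun i => Multiplicative.ofAdd (if i = 0 then 0 else 1))

theorem lgB_rho_zero : lgB_rho (FreeGroup.of 0) = lgB_A := by
  simp [lgB_rho]

theorem lgB_rho_one : lgB_rho (FreeGroup.of 1) = lgB_B := by
  simp [lgB_rho]

theorem lgB_beta_zero : lgB_beta (FreeGroup.of 0) = Multiplicative.ofAdd 0 := by
  simp [lgB_beta]

theorem lgB_beta_one : lgB_beta (FreeGroup.of 1) = Multiplicative.ofAdd 1 := by
  simp [lgB_beta]

theorem lgB_inv {g : FreeGroup (Fin 2)} {u : ZMod 3 → Fin 3 → ℚ}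
    (h : ∀ l v, lgB_rho g (l, v) = (l + (lgB_beta g).toAdd, v + u l)) :
    ∀ l v, lgB_rho g⁻¹ (l, v) =
      (l + (lgB_beta g⁻¹).toAdd, v + -u (l - (lgB_beta g).toAdd)) := by
  intro l v
  rw [map_inv (lgB_rho), Equiv.Perm.inv_eq_iff_eq, h, map_inv lgB_beta, toAdd_inv]
  ext
  · simp
  · simp [← sub_eq_add_neg]

theorem lgB_form (g : FreeGroup (Fin 2)) : ∃ u : ZMod 3 → Fin 3 → ℚ,
    ∀ l v, lgB_rho g (l, v) = (l + (lgB_beta g).toAdd, v + u l) := by
  have hA : ∃ u : ZMod 3 → Fin 3 → ℚ, ∀ l v, lgB_rho (FreeGroup.of 0) (l, v) =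
      (l + (lgB_beta (FreeGroup.of 0)).toAdd, v + u l) := by
    refine ⟨fun l => Pi.single (lgB_lv l) 1, fun l v => ?_⟩
    rw [lgB_rho_zero, lgB_beta_zero]
    change (l, v + Pi.single (lgB_lv l) 1) = (l + 0, v + Pi.single (lgB_lv l) 1)
    rw [add_zero]
  have hB : ∃ u : ZMod 3 → Fin 3 → ℚ, ∀ l v, lgB_rho (FreeGroup.of 1) (l, v) =
      (l + (lgB_beta (FreeGroup.of 1)).toAdd, v + u l) := by
    refine ⟨0, fun l v => ?_⟩
    rw [lgB_rho_one, lgB_beta_one]
    change (l + 1, v) = (l + 1, v + 0)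
    rw [add_zero]
  have hof : ∀ i : Fin 2, ∃ u : ZMod 3 → Fin 3 → ℚ, ∀ l v,
      lgB_rho (FreeGroup.of i) (l, v) =
      (l + (lgB_beta (FreeGroup.of i)).toAdd, v + u l) := by
    intro i
    rcases (by omega : i = 0 ∨ i = 1) with rfl | rfl
    · exact hA
    · exact hB
  induction g using FreeGroup.induction_on with
  | C1 =>
    refine ⟨0, fun l v => ?_⟩
    rw [map_one, map_one, toAdd_one, add_zero]
    simp
  | of i => exact hof i
  | inv_of i h =>
    obtain ⟨u, hu⟩ := hof i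
    exact ⟨_, lgB_inv hu⟩
  | mul x y hx hy =>
    obtain ⟨u, hu⟩ := hx
    obtain ⟨w, hw⟩ := hy
    refine ⟨fun l => w l + u (l + (lgB_beta y).toAdd), fun l v => ?_⟩
    rw [map_mul (lgB_rho), Equiv.Perm.mul_apply, hw, hu, map_mul lgB_beta, toAdd_mul]
    ext
    · simp only []
      ring
    · simp only [Pi.add_apply]
      ring

/-- The vector of a word. -/
noncomputable def lgB_D (g : FreeGroup (Fin 2)) : Fin 3 → ℚ :=
  (lgB_rho g (0, 0)).2

theorem lgB_D_mul {g h : FreeGroup (Fin 2)} (hh : (lgB_beta h).toAdd = 0) :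
    lgB_D (g * h) = lgB_D g + lgB_D h := by
  obtain ⟨u, hu⟩ := lgB_form g
  obtain ⟨w, hw⟩ := lgB_form h
  rw [lgB_D, lgB_D, lgB_D, map_mul, Equiv.Perm.mul_apply, hw, hh, add_zero, hu, hu]
  change (0 : Fin 3 → ℚ) + w 0 + u 0 = 0 + u 0 + (0 + w 0)
  ring

theorem lgB_A_apply (l : ZMod 3) (v : Fin 3 → ℚ) :
    lgB_A (l, v) = (l, v + Pi.single (lgB_lv l) 1) := rfl

theorem lgB_B0 (v : Fin 3 → ℚ) : lgB_B (0, v) = (1, v) := rfl

theorem lgB_B1 (v : Fin 3 → ℚ) : lgB_B (1, v) = (2, v) := rfl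

theorem lgB_Bi1 (v : Fin 3 → ℚ) : (lgB_B)⁻¹ (1, v) = (0, v) := rfl

theorem lgB_Bi2 (v : Fin 3 → ℚ) : (lgB_B)⁻¹ (2, v) = (1, v) := rfl

theorem lgB_exists (i : Fin 3) : ∃ g : FreeGroup (Fin 2), lgB_beta g = 1 ∧
    lgB_D g = Pi.single i 1 := by
  have hb : lgB_beta (FreeGroup.of 1) = Multiplicative.ofAdd 1 := lgB_beta_one
  have ha : lgB_beta (FreeGroup.of 0) = 1 := lgB_beta_zero
  fin_cases i
  · refine ⟨FreeGroup.of 0, ha, ?_⟩
    rw [lgB_D, lgB_rho_zero]
    change (0 : Fin 3 → ℚ) + Pi.single 0 1 = Pi.single 0 1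
    rw [zero_add]
  · refine ⟨(FreeGroup.of 1)⁻¹ * FreeGroup.of 0 * FreeGroup.of 1, ?_, ?_⟩
    · rw [map_mul, map_mul, map_inv, hb, ha]
      rfl
    · rw [lgB_D, map_mul, map_mul, map_inv, lgB_rho_zero, lgB_rho_one,
        Equiv.Perm.mul_apply, Equiv.Perm.mul_apply, lgB_B0, lgB_A_apply, lgB_Bi1, zero_add]
      rfl
  · refine ⟨(FreeGroup.of 1)⁻¹ * (FreeGroup.of 1)⁻¹ * FreeGroup.of 0 * FreeGroup.of 1 *
      FreeGroup.of 1, ?_, ?_⟩
    · rw [map_mul, map_mul, map_mul, map_mul, map_inv, hb, ha]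
      rfl
    · rw [lgB_D, map_mul, map_mul, map_mul, map_mul, map_inv, lgB_rho_zero, lgB_rho_one,
        Equiv.Perm.mul_apply, Equiv.Perm.mul_apply, Equiv.Perm.mul_apply, Equiv.Perm.mul_apply,
        lgB_B0, lgB_B1, lgB_A_apply, lgB_Bi2, lgB_Bi1, zero_add]
      rfl

/-- Large groups have subgroups of finite index with first Betti number at least three.

Proof. Let `H ≤ G` have finite index, `f : H →* FreeGroup (Fin 2)` onto, and
`ρ : FreeGroup (Fin 2) →* W`, where `W` is the wreath product of `ℤ` with the cyclic group of order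
three, for example the group of the pairs `(v, σ)`, `v : ZMod 3 → ℤ`, `σ : ZMod 3`
(`SemidirectProduct (Multiplicative (ZMod 3 → ℤ)) (Multiplicative (ZMod 3)) _`; or avoid it: let `F₃` be
the kernel of `χ : FreeGroup (Fin 2) →* Multiplicative (ZMod 3)`, `x ↦ 0`, `y ↦ 1`, and define crossed
homomorphisms), `ρ x = (e₀, 0)`, `ρ y = (0, 1)`. Let `N' ≤ H` be the preimage of the kernel of the
projection `W → ZMod 3` and `N = N'.map H.subtype`, of finite index in `G`. The three coordinates of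
`v` are homomorphisms `N' → ℤ`, and on `x, y x y⁻¹, y² x y⁻²` they take the values
`e₀, e₁, e₂` (or the inverse permutation), so they are linearly independent.
(Model: `Q62.modp_of_large` in `W_04c03c_h62/ModPC.lean` is the same for `ZMod p` instead of `ℚ`, with a fourth
homomorphism; its proof can be adapted.) -/
theorem betti_of_large {G : Type*} [Group G] (h : Q62.IsLarge G) :
    ∃ N : Subgroup G, N.FiniteIndex ∧
      ∃ f : Fin 3 → (Additive N →+ ℚ), LinearIndependent ℚ f := by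
  obtain ⟨H, hH, f, hf⟩ := h
  set K : Subgroup H := (lgB_beta.comp f).ker with hK
  have hKfi : K.FiniteIndex := Subgroup.finiteIndex_ker _
  have hN : (K.map H.subtype).FiniteIndex := by
    constructor
    rw [Subgroup.index_map_subtype]
    exact mul_ne_zero hKfi.index_ne_zero hH.index_ne_zero
  refine ⟨K.map H.subtype, hN, ?_⟩
  let E : K ≃* K.map H.subtype := K.equivMapOfInjective H.subtype H.subtype_injective
  have hβ : ∀ k : K, (lgB_beta (f (k : H))).toAdd = 0 := by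
    intro k
    have h1 : lgB_beta (f (k : H)) = 1 := k.2
    rw [h1]
    rfl
  let F : Fin 3 → (Additive (K.map H.subtype) →+ ℚ) := fun i =>
    { toFun := fun n => lgB_D (f ((E.symm n.toMul : K) : H)) i
      map_zero' := by
        have h1 := lgB_D_mul (g := 1) (h := 1) (by rw [map_one]; rfl)
        rw [mul_one] at h1
        rw [toMul_zero, map_one, Subgroup.coe_one, map_one]
        have h2 := congrArg (fun z : Fin 3 → ℚ => z i) h1
        simp only [Pi.add_apply] at h2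
        exact (left_eq_add.1 h2)
      map_add' := fun x y => by
        rw [toMul_add, map_mul, Subgroup.coe_mul, map_mul, lgB_D_mul (hβ _)]
        rfl }
  refine ⟨F, ?_⟩
  rw [Fintype.linearIndependent_iff]
  intro c hc j
  obtain ⟨g, hg1, hg2⟩ := lgB_exists j
  obtain ⟨h, rfl⟩ := hf g
  have h1 := congrArg (fun z : Additive (K.map H.subtype) →+ ℚ =>
    z (Additive.ofMul (E ⟨h, hg1⟩))) hc
  have h2 : ∀ i, F i (Additive.ofMul (E ⟨h, hg1⟩)) = (Pi.single j 1 : Fin 3 → ℚ) i := by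
    intro i
    change lgB_D (f ((E.symm (E ⟨h, hg1⟩) : K) : H)) i = _
    rw [E.symm_apply_apply, hg2]
  simp only [AddMonoidHom.finsetSum_apply, AddMonoidHom.smul_apply, h2, AddMonoidHom.zero_apply,
    smul_eq_mul] at h1
  simpa [Pi.single_apply] using h1

/-- Three homomorphisms from a virtually `ℤ²` group to `ℚ` are linearly dependent.

Proof. Let `A` be the normal subgroup of finite index isomorphic to `ℤ²`, generated by `x, y`. The
three vectors `(f i x, f i y) ∈ ℚ²` are linearly dependent, so there is `c ≠ 0` with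
`φ = ∑ c i • f i` zero at `x` and `y`, hence on `A`. For `g : P` and `n = A.index` we have
`g ^ n ∈ A`, `n * φ g = φ (g ^ n) = 0`, so `φ g = 0`. -/
theorem vz_dep {P : Type*} [Group P] (h : VZ P) (f : Fin 3 → (Additive P →+ ℚ)) :
    ∃ c : Fin 3 → ℚ, c ≠ 0 ∧ ∀ g, ∑ i, c i * f i g = 0 := by
  classical
  obtain ⟨A, hA, hi, ⟨e⟩⟩ := h
  let x : P := (e.symm (Multiplicative.ofAdd (1, 0)) : A)
  let y : P := (e.symm (Multiplicative.ofAdd (0, 1)) : A)
  let L : (Fin 3 → ℚ) →ₗ[ℚ] (Fin 2 → ℚ) :=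
    LinearMap.pi fun j : Fin 2 =>
      ∑ i : Fin 3, (f i (Additive.ofMul (if j = 0 then x else y))) •
        (LinearMap.proj i : (Fin 3 → ℚ) →ₗ[ℚ] ℚ)
  have hker : LinearMap.ker L ≠ ⊥ := by
    apply LinearMap.ker_ne_bot_of_finrank_lt
    simp
  obtain ⟨c, hc, hc0⟩ := (Submodule.ne_bot_iff _).mp hker
  have hL : L c = 0 := hc
  have hx : ∑ i : Fin 3, c i * f i (Additive.ofMul x) = 0 := by
    have h := congrFun hL 0
    simp only [L, LinearMap.pi_apply, LinearMap.sum_apply, LinearMap.smul_apply,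
      LinearMap.proj_apply, smul_eq_mul, if_true, Pi.zero_apply] at h
    rw [← h]
    exact Finset.sum_congr rfl fun i _ => mul_comm _ _
  have hy : ∑ i : Fin 3, c i * f i (Additive.ofMul y) = 0 := by
    have h := congrFun hL 1
    simp only [L, LinearMap.pi_apply, LinearMap.sum_apply, LinearMap.smul_apply,
      LinearMap.proj_apply, smul_eq_mul, Pi.zero_apply, one_ne_zero, if_false] at h
    rw [← h]
    exact Finset.sum_congr rfl fun i _ => mul_comm _ _
  let φ : Additive P →+ ℚ := ∑ i : Fin 3, c i • f i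
  have hφ : ∀ g, φ g = ∑ i : Fin 3, c i * f i g := by
    intro g
    simp [φ, AddMonoidHom.finsetSum_apply]
  have hφx : φ (Additive.ofMul x) = 0 := by rw [hφ]; exact hx
  have hφy : φ (Additive.ofMul y) = 0 := by rw [hφ]; exact hy
  refine ⟨c, hc0, fun g => ?_⟩
  rw [← hφ g]
  -- the elements of `A` are products of powers of `x` and `y`
  have hAll : ∀ a : A, φ (Additive.ofMul (a : P)) = 0 := by
    intro a
    obtain ⟨m, n, hmn⟩ : ∃ m n : ℤ, e a = Multiplicative.ofAdd (m, n) :=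
      ⟨(e a).toAdd.1, (e a).toAdd.2, rfl⟩
    have h1 : e a = (Multiplicative.ofAdd ((1, 0) : ℤ × ℤ)) ^ m *
        (Multiplicative.ofAdd ((0, 1) : ℤ × ℤ)) ^ n := by
      rw [hmn, ← ofAdd_zsmul, ← ofAdd_zsmul, ← ofAdd_add]
      congr 1
      simp
    have h2 : a = (e.symm (Multiplicative.ofAdd ((1, 0) : ℤ × ℤ))) ^ m *
        (e.symm (Multiplicative.ofAdd ((0, 1) : ℤ × ℤ))) ^ n := by
      apply e.injective
      rw [h1, map_mul, map_zpow, map_zpow, e.apply_symm_apply, e.apply_symm_apply]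
    have h3 : (a : P) = x ^ m * y ^ n := by
      rw [h2, Subgroup.coe_mul, Subgroup.coe_zpow, Subgroup.coe_zpow]
    rw [h3, ofMul_mul, ofMul_zpow, ofMul_zpow, map_add, map_zsmul, map_zsmul, hφx, hφy]
    simp
  have hpow : (Additive.toMul g) ^ A.index ∈ A := Subgroup.pow_index_mem A _
  have h1 := hAll ⟨_, hpow⟩
  have h2 : Additive.ofMul ((Additive.toMul g) ^ A.index) = A.index • g := by
    rw [ofMul_pow, ofMul_toMul]
  rw [h2, map_nsmul, nsmul_eq_mul] at h1
  rcases mul_eq_zero.mp h1 with h3 | h3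
  · exact absurd (by exact_mod_cast h3) hi
  · exact h3

end RCan
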