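import Mathlib

/-!
# Ordered chains and cochains on a set, with lists
-/

namespace RCan

/-! ## Cochains -/

section Cochains

variable {V W : Type*} {A B : Type*} [AddCommGroup A] [AddCommGroup B]

/-- the alternating sum of the values of `f` on the faces of `l` -/
def dl : List V → (List V → A) → A
  | [], _ => 0
  | x :: l, f => f l - dl l (fun l' => f (x :: l'))

@[simp] theorem dl_nil (f : List V → A) : dl [] f = 0 := rfl

theorem dl_cons (x : V) (l : List V) (f : List V → A) :
    dl (x :: l) f = f l - dl l (fun l' => f (x :: l')) := rfl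

/-- coboundary of a cochain -/
def co (f : List V → A) : List V → A := fun l => dl l f

theorem co_apply (f : List V → A) (l : List V) : co f l = dl l f := rfl

theorem dl_add (l : List V) : ∀ f g : List V → A, dl l (f + g) = dl l f + dl l g := by
  induction l with
  | nil => intro f g; simp
  | cons x l ih =>
    intro f g
    rw [dl_cons, dl_cons, dl_cons]
    have := ih (fun l' => f (x :: l')) (fun l' => g (x :: l'))
    have h2 : (fun l' => (f + g) (x :: l')) = (fun l' => f (x :: l')) + (fun l' => g (x :: l')) := rfl
    rw [h2, this, Pi.add_apply]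
    abel

theorem dl_neg (l : List V) : ∀ f : List V → A, dl l (-f) = -dl l f := by
  induction l with
  | nil => intro f; simp
  | cons x l ih =>
    intro f
    rw [dl_cons, dl_cons]
    have h2 : (fun l' => (-f) (x :: l')) = -(fun l' => f (x :: l')) := rfl
    rw [h2, ih, Pi.neg_apply]
    abel

theorem dl_sub (l : List V) (f g : List V → A) : dl l (f - g) = dl l f - dl l g := by
  rw [sub_eq_add_neg, dl_add, dl_neg, sub_eq_add_neg]

theorem dl_zero (l : List V) : dl l (0 : List V → A) = 0 := by
  have := dl_sub l (0 : List V → A) 0
  simpa using this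

theorem dl_hom (l : List V) (φ : A →+ B) : ∀ f : List V → A, dl l (fun l' => φ (f l')) = φ (dl l f) := by
  induction l with
  | nil => intro f; simp
  | cons x l ih =>
    intro f
    rw [dl_cons, dl_cons, map_sub, ih (fun l' => f (x :: l'))]

theorem dl_smul {R : Type*} [Monoid R] [DistribMulAction R A] (c : R) (l : List V) (f : List V → A) :
    dl l (c • f) = c • dl l f :=
  dl_hom l (DistribSMul.toAddMonoidHom A c) f

/-- two cochains which agree on the faces of `l` -/
theorem dl_congr (l : List V) : ∀ {f g : List V → A},
    (∀ l', l'.Sublist l → l'.length + 1 = l.length → f l' = g l') → dl l f = dl l g := by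
  induction l with
  | nil => intro f g _; rfl
  | cons x l ih =>
    intro f g h
    rw [dl_cons, dl_cons, h l (List.sublist_cons_self x l) (by simp)]
    congr 1
    apply ih
    intro l' h1 h2
    exact h (x :: l') (h1.cons_cons x) (by simp [h2])

theorem dl_eq_zero (l : List V) {f : List V → A}
    (h : ∀ l', l'.Sublist l → l'.length + 1 = l.length → f l' = 0) : dl l f = 0 := by
  rw [dl_congr l (g := 0) h]
  exact dl_zero l

theorem dl_map (φ : V → W) (l : List V) : ∀ f : List W → A,
    dl (l.map φ) f = dl l (fun l' => f (l'.map φ)) := by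
  induction l with
  | nil => intro f; rfl
  | cons x l ih =>
    intro f
    rw [List.map_cons, dl_cons, dl_cons, ih]
    rfl

theorem dl_dl (l : List V) : ∀ f : List V → A, dl l (co f) = 0 := by
  induction l with
  | nil => intro f; rfl
  | cons x l ih =>
    intro f
    rw [dl_cons]
    have h1 : (fun l' => co f (x :: l')) = f - co (fun l' => f (x :: l')) := by
      funext l'
      rfl
    rw [h1, dl_sub, ih, sub_zero]
    show dl l f - dl l f = 0
    abel

theorem co_co (f : List V → A) : co (co f) = 0 := by
  funext l
  exact dl_dl l f

theorem co_add (f g : List V → A) : co (f + g) = co f + co g := by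
  funext l
  exact dl_add l f g

theorem co_sub (f g : List V → A) : co (f - g) = co f - co g := by
  funext l
  exact dl_sub l f g

theorem co_neg (f : List V → A) : co (-f) = -co f := by
  funext l
  exact dl_neg l f

theorem co_zero : co (0 : List V → A) = 0 := by
  funext l
  exact dl_zero l

theorem co_smul {R : Type*} [Monoid R] [DistribMulAction R A] (c : R) (f : List V → A) :
    co (c • f) = c • co f := by
  funext l
  exact dl_smul c l f

theorem co_hom (φ : A →+ B) (f : List V → A) : co (fun l => φ (f l)) = fun l => φ (co f l) := by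
  funext l
  exact dl_hom l φ f

theorem co_map (φ : V → W) (f : List W → A) (l : List V) :
    co f (l.map φ) = co (fun l' => f (l'.map φ)) l :=
  dl_map φ l f

end Cochains

/-! ## Chains -/

section Chains

variable (k : Type*) [CommRing k] {V W : Type*}

/-- ordered chains -/
abbrev LC (V : Type*) := List V →₀ k

/-- cone with apex `x` -/
noncomputable def cn (x : V) : LC k V →ₗ[k] LC k V := Finsupp.lmapDomain k k (List.cons x)

/-- boundary of a list -/
noncomputable def bdl : List V → LC k V
  | [] => 0
  | x :: l => Finsupp.single l 1 - cn k x (bdl l)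

/-- boundary of a chain -/
noncomputable def bd : LC k V →ₗ[k] LC k V := Finsupp.linearCombination k (bdl k)

/-- map induced by a map of the vertices -/
noncomputable def mp (φ : V → W) : LC k V →ₗ[k] LC k W := Finsupp.lmapDomain k k (List.map φ)

/-- the prism between two maps -/
noncomputable def prl (φ ψ : V → W) : List V → LC k W
  | [] => 0
  | x :: l => Finsupp.single (φ x :: ψ x :: l.map ψ) 1 - cn k (φ x) (prl φ ψ l)

noncomputable def pr (φ ψ : V → W) : LC k V →ₗ[k] LC k W := Finsupp.linearCombination k (prl k φ ψ)

variable {k}

@[simp] theorem cn_single (x : V) (l : List V) (a : k) :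
    cn k x (Finsupp.single l a) = Finsupp.single (x :: l) a := by
  simp [cn]

@[simp] theorem mp_single (φ : V → W) (l : List V) (a : k) :
    mp k φ (Finsupp.single l a) = Finsupp.single (l.map φ) a := by
  simp [mp]

theorem bd_single (l : List V) (a : k) : bd k (Finsupp.single l a) = a • bdl k l := by
  simp [bd]

theorem bd_single_one (l : List V) : bd k (Finsupp.single l 1) = bdl k l := by
  simp [bd]

theorem pr_single (φ ψ : V → W) (l : List V) (a : k) :
    pr k φ ψ (Finsupp.single l a) = a • prl k φ ψ l := by
  simp [pr]

theorem bdl_nil : bdl k ([] : List V) = 0 := rfl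

theorem bdl_cons (x : V) (l : List V) :
    bdl k (x :: l) = Finsupp.single l 1 - cn k x (bdl k l) := rfl

theorem bd_cn (x : V) (c : LC k V) : bd k (cn k x c) = c - cn k x (bd k c) := by
  induction c using Finsupp.induction_linear with
  | zero => simp
  | add c d hc hd => rw [map_add, map_add, hc, hd, map_add, map_add]; abel
  | single l a =>
    rw [cn_single, bd_single, bdl_cons, bd_single, smul_sub, map_smul]
    simp

theorem bd_bd (c : LC k V) : bd k (bd k c) = 0 := by
  have key : ∀ l : List V, bd k (bdl k l) = 0 := by
    intro l
    induction l with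
    | nil => rw [bdl_nil, map_zero]
    | cons x l ih =>
      rw [bdl_cons, map_sub, bd_cn, ih, map_zero, sub_zero, bd_single_one, sub_self]
  induction c using Finsupp.induction_linear with
  | zero => simp
  | add c d hc hd => rw [map_add, map_add, hc, hd, add_zero]
  | single l a => rw [bd_single, map_smul, key, smul_zero]

theorem mp_cn (φ : V → W) (x : V) (c : LC k V) : mp k φ (cn k x c) = cn k (φ x) (mp k φ c) := by
  induction c using Finsupp.induction_linear with
  | zero => simp
  | add c d hc hd => simp only [map_add, hc, hd]
  | single l a => simp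

theorem bd_mp (φ : V → W) (c : LC k V) : bd k (mp k φ c) = mp k φ (bd k c) := by
  have key : ∀ l : List V, bdl k (l.map φ) = mp k φ (bdl k l) := by
    intro l
    induction l with
    | nil => rw [List.map_nil, bdl_nil, bdl_nil, map_zero]
    | cons x l ih =>
      rw [List.map_cons, bdl_cons, bdl_cons, map_sub, mp_single, mp_cn, ih]
  induction c using Finsupp.induction_linear with
  | zero => simp
  | add c d hc hd => simp only [map_add, hc, hd]
  | single l a => rw [mp_single, bd_single, bd_single, map_smul, key]

theorem pr_cn (φ ψ : V → W) (x : V) (c : LC k V) :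
    pr k φ ψ (cn k x c) = cn k (φ x) (cn k (ψ x) (mp k ψ c)) - cn k (φ x) (pr k φ ψ c) := by
  induction c using Finsupp.induction_linear with
  | zero => simp
  | add c d hc hd => simp only [map_add, hc, hd]; abel
  | single l a =>
    rw [cn_single, pr_single, pr_single, mp_single, cn_single, cn_single, map_smul]
    show a • (Finsupp.single (φ x :: ψ x :: l.map ψ) 1 - cn k (φ x) (prl k φ ψ l)) = _
    rw [smul_sub]
    simp

theorem bd_pr (φ ψ : V → W) (c : LC k V) :
    bd k (pr k φ ψ c) + pr k φ ψ (bd k c) = mp k ψ c - mp k φ c := by
  have key : ∀ l : List V, bd k (prl k φ ψ l) + pr k φ ψ (bdl k l)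
      = Finsupp.single (l.map ψ) 1 - Finsupp.single (l.map φ) 1 := by
    intro l
    induction l with
    | nil => simp [prl, bdl]
    | cons x l ih =>
      have h1 : prl k φ ψ (x :: l)
          = Finsupp.single (φ x :: ψ x :: l.map ψ) 1 - cn k (φ x) (prl k φ ψ l) := rfl
      have h2 : (Finsupp.single (φ x :: ψ x :: l.map ψ) (1 : k))
          = cn k (φ x) (cn k (ψ x) (Finsupp.single (l.map ψ) 1)) := by simp
      rw [h1, h2, bdl_cons, map_sub, map_sub, bd_cn, bd_cn, bd_cn, pr_cn, pr_single, one_smul]
      have h3 : mp k ψ (bdl k l) = bd k (Finsupp.single (l.map ψ) 1) := by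
        rw [← bd_single_one, ← bd_mp, mp_single]
      rw [h3]
      have h4 : cn k (φ x) (bd k (prl k φ ψ l)) + cn k (φ x) (pr k φ ψ (bdl k l))
          = cn k (φ x) (Finsupp.single (l.map ψ) 1) - cn k (φ x) (Finsupp.single (l.map φ) 1) := by
        rw [← map_add, ih, map_sub]
      rw [List.map_cons, List.map_cons]
      have h5 : (Finsupp.single (φ x :: l.map φ) (1 : k))
          = cn k (φ x) (Finsupp.single (l.map φ) 1) := by simp
      have h6 : (Finsupp.single (ψ x :: l.map ψ) (1 : k))
          = cn k (ψ x) (Finsupp.single (l.map ψ) 1) := by simp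
      rw [h5, h6]
      rw [map_sub (cn k (φ x))]
      have h7 := eq_sub_of_add_eq h4
      rw [h7]
      abel
  induction c using Finsupp.induction_linear with
  | zero => simp
  | add c d hc hd =>
    simp only [map_add]
    rw [← sub_eq_zero] at hc hd ⊢
    rw [← add_zero (0 : LC k W)]
    nth_rewrite 1 [← hc]
    rw [← hd]
    abel
  | single l a =>
    rw [pr_single, bd_single, map_smul, map_smul, ← smul_add, key, smul_sub, mp_single, mp_single]
    simp

/-- evaluation of cochains on boundaries -/
theorem lc_bd {A : Type*} [AddCommGroup A] [Module k A] (f : List V → A) (c : LC k V) :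
    Finsupp.linearCombination k f (bd k c) = Finsupp.linearCombination k (co f) c := by
  have key : ∀ (l : List V) (f : List V → A), Finsupp.linearCombination k f (bdl k l) = dl l f := by
    intro l
    induction l with
    | nil => intro f; simp [bdl]
    | cons x l ih =>
      intro f
      rw [bdl_cons, map_sub, dl_cons, ← ih]
      congr 1
      · simp
      · rw [cn, Finsupp.lmapDomain_apply, Finsupp.linearCombination_mapDomain]
        rfl
  induction c using Finsupp.induction_linear with
  | zero => simp
  | add c d hc hd => simp only [map_add, hc, hd]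
  | single l a => rw [bd_single, map_smul, key, Finsupp.linearCombination_single, co_apply]

/-! ## Supports -/

/-- a set of lists closed under passing to lists with entries in a member -/
def Dn (S : Set (List V)) : Prop := ∀ l ∈ S, ∀ l' : List V, l' ⊆ l → l' ∈ S

theorem cn_mem {S T : Set (List V)} {x : V} (h : ∀ l ∈ S, x :: l ∈ T) {c : LC k V}
    (hc : c ∈ Finsupp.supported k k S) : cn k x c ∈ Finsupp.supported k k T := by
  rw [Finsupp.supported_eq_span_single] at hc
  induction hc using Submodule.span_induction with
  | mem c hc =>
    obtain ⟨l, hl, rfl⟩ := hc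
    rw [cn_single]
    exact Finsupp.single_mem_supported k _ (h l hl)
  | zero => rw [map_zero]; exact Submodule.zero_mem _
  | add a b _ _ ha hb => rw [map_add]; exact Submodule.add_mem _ ha hb
  | smul a b _ hb => rw [map_smul]; exact Submodule.smul_mem _ _ hb

theorem bdl_mem (l : List V) : bdl k l ∈ Finsupp.supported k k
    {l' : List V | l'.Sublist l ∧ l'.length + 1 = l.length} := by
  induction l with
  | nil => rw [bdl_nil]; exact Submodule.zero_mem _
  | cons x l ih =>
    rw [bdl_cons]
    apply Submodule.sub_mem
    · apply Finsupp.single_mem_supported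
      exact ⟨List.sublist_cons_self x l, by simp⟩
    · refine cn_mem ?_ ih
      rintro l' ⟨h1, h2⟩
      exact ⟨h1.cons_cons x, by simp [h2]⟩

theorem bd_mem {S T : Set (List V)} (h : ∀ l ∈ S, ∀ l' : List V, l'.Sublist l →
    l'.length + 1 = l.length → l' ∈ T) {c : LC k V}
    (hc : c ∈ Finsupp.supported k k S) : bd k c ∈ Finsupp.supported k k T := by
  rw [Finsupp.supported_eq_span_single] at hc
  induction hc using Submodule.span_induction with
  | mem c hc =>
    obtain ⟨l, hl, rfl⟩ := hc
    rw [bd_single_one]
    refine Finsupp.supported_mono ?_ (bdl_mem l)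
    rintro l' ⟨h1, h2⟩
    exact h l hl l' h1 h2
  | zero => rw [map_zero]; exact Submodule.zero_mem _
  | add a b _ _ ha hb => rw [map_add]; exact Submodule.add_mem _ ha hb
  | smul a b _ hb => rw [map_smul]; exact Submodule.smul_mem _ _ hb

theorem bd_mem_dn {S : Set (List V)} (h : Dn S) {c : LC k V}
    (hc : c ∈ Finsupp.supported k k S) : bd k c ∈ Finsupp.supported k k S :=
  bd_mem (fun l hl l' h1 _ => h l hl l' h1.subset) hc

theorem mp_mem {S : Set (List V)} {T : Set (List W)} {φ : V → W} (h : ∀ l ∈ S, l.map φ ∈ T)
    {c : LC k V} (hc : c ∈ Finsupp.supported k k S) : mp k φ c ∈ Finsupp.supported k k T := by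
  rw [Finsupp.supported_eq_span_single] at hc
  induction hc using Submodule.span_induction with
  | mem c hc =>
    obtain ⟨l, hl, rfl⟩ := hc
    rw [mp_single]
    exact Finsupp.single_mem_supported k _ (h l hl)
  | zero => rw [map_zero]; exact Submodule.zero_mem _
  | add a b _ _ ha hb => rw [map_add]; exact Submodule.add_mem _ ha hb
  | smul a b _ hb => rw [map_smul]; exact Submodule.smul_mem _ _ hb

theorem prl_mem (φ ψ : V → W) (l : List V) : prl k φ ψ l ∈ Finsupp.supported k k
    {l' : List W | l' ⊆ l.map φ ++ l.map ψ ∧ l'.length = l.length + 1} := by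
  induction l with
  | nil => exact Submodule.zero_mem _
  | cons x l ih =>
    show Finsupp.single (φ x :: ψ x :: l.map ψ) 1 - cn k (φ x) (prl k φ ψ l) ∈ _
    apply Submodule.sub_mem
    · apply Finsupp.single_mem_supported
      refine ⟨?_, by simp⟩
      intro y hy
      simp only [List.mem_cons, List.map_cons, List.mem_append] at hy ⊢
      tauto
    · refine cn_mem ?_ ih
      rintro l' ⟨h1, h2⟩
      refine ⟨?_, by simp [h2]⟩
      intro y hy
      simp only [List.mem_cons, List.map_cons, List.mem_append] at hy ⊢
      rcases hy with hy | hy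
      · exact Or.inl (Or.inl hy)
      · have := h1 hy
        simp only [List.mem_append] at this
        tauto

theorem pr_mem {S : Set (List V)} {T : Set (List W)} {φ ψ : V → W} (hT : Dn T)
    (h : ∀ l ∈ S, l.map φ ++ l.map ψ ∈ T)
    {c : LC k V} (hc : c ∈ Finsupp.supported k k S) : pr k φ ψ c ∈ Finsupp.supported k k T := by
  rw [Finsupp.supported_eq_span_single] at hc
  induction hc using Submodule.span_induction with
  | mem c hc =>
    obtain ⟨l, hl, rfl⟩ := hc
    rw [pr_single, one_smul]
    refine Finsupp.supported_mono ?_ (prl_mem φ ψ l)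
    rintro l' ⟨h1, _⟩
    exact hT _ (h l hl) l' h1
  | zero => rw [map_zero]; exact Submodule.zero_mem _
  | add a b _ _ ha hb => rw [map_add]; exact Submodule.add_mem _ ha hb
  | smul a b _ hb => rw [map_smul]; exact Submodule.smul_mem _ _ hb

theorem mp_congr {S : Set (List V)} {φ ψ : V → W} (h : ∀ l ∈ S, ∀ x ∈ l, φ x = ψ x)
    {c : LC k V} (hc : c ∈ Finsupp.supported k k S) : mp k φ c = mp k ψ c := by
  rw [Finsupp.supported_eq_span_single] at hc
  induction hc using Submodule.span_induction with
  | mem c hc =>
    obtain ⟨l, hl, rfl⟩ := hc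
    rw [mp_single, mp_single, List.map_congr_left (h l hl)]
  | zero => rw [map_zero, map_zero]
  | add a b _ _ ha hb => rw [map_add, map_add, ha, hb]
  | smul a b _ hb => rw [map_smul, map_smul, hb]

theorem mp_mp {U : Type*} (φ : V → W) (ψ : W → U) (c : LC k V) :
    mp k ψ (mp k φ c) = mp k (ψ ∘ φ) c := by
  induction c using Finsupp.induction_linear with
  | zero => simp
  | add c d hc hd => simp only [map_add, hc, hd]
  | single l a => simp

theorem mp_id (c : LC k V) : mp k id c = c := by
  induction c using Finsupp.induction_linear with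
  | zero => simp
  | add c d hc hd => rw [map_add, hc, hd]
  | single l a => simp

/-- a cochain which vanishes on the lists of `S` vanishes on the chains supported on `S` -/
theorem lc_eq_zero {A : Type*} [AddCommGroup A] [Module k A] {S : Set (List V)} {f : List V → A}
    (h : ∀ l ∈ S, f l = 0) {c : LC k V} (hc : c ∈ Finsupp.supported k k S) :
    Finsupp.linearCombination k f c = 0 := by
  rw [Finsupp.supported_eq_span_single] at hc
  induction hc using Submodule.span_induction with
  | mem c hc =>
    obtain ⟨l, hl, rfl⟩ := hc
    rw [Finsupp.linearCombination_single, h l hl, smul_zero]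
  | zero => rw [map_zero]
  | add a b _ _ ha hb => rw [map_add, ha, hb, add_zero]
  | smul a b _ hb => rw [map_smul, hb, smul_zero]

theorem lc_mp {A : Type*} [AddCommGroup A] [Module k A] (φ : V → W) (f : List W → A) (c : LC k V) :
    Finsupp.linearCombination k f (mp k φ c)
      = Finsupp.linearCombination k (fun l => f (l.map φ)) c := by
  rw [mp, Finsupp.lmapDomain_apply, Finsupp.linearCombination_mapDomain]
  rfl

end Chains

end RCan
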