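import Pool.Agent.W_04c03c_h58.RfA
/-!
# Separating cusps
-/

namespace RCan

open MulAction

variable {G : Type*} [Group G] {Ξ : Type*} [MulAction G Ξ]

/-- Every element of `P` is a representative of a left coset of `A` times an element of `A`. -/
theorem RfB_rep (A P : Subgroup G) (p : P) :
    ∃ a ∈ A, (p : G) = ((p : P ⧸ A.subgroupOf P).out : G) * a := by
  obtain ⟨h, hh⟩ := QuotientGroup.mk_out_eq_mul (A.subgroupOf P) p
  refine ⟨((h : P) : G)⁻¹, A.inv_mem (Subgroup.mem_subgroupOf.mp h.2), ?_⟩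
  rw [hh]
  push_cast
  group

/-- Separating three cusps.

Proof. Let `R ⊆ stabilizer G ξ` be a finite set with `stabilizer G ξ = R * A` (representatives of the
left cosets of `A`, finitely many by `hAi`). For `i ≠ j` and `r ∈ R` let `c = r⁻¹ * (g j)⁻¹ * g i`. Then
`c * z * c⁻¹ * z⁻¹ ≠ 1`: otherwise `c ∈ stabilizer G ξ` by `hc`, so `(g j)⁻¹ * g i ∈ stabilizer G ξ` and
`g i • ξ = g j • ξ`, `i = j`. Let `N` avoid these finitely many elements (`rf_avoid`), `η i = g i • ξ`.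
Suppose `n • η i = η j`, `n ∈ N`, `i ≠ j`. Then `(g j)⁻¹ * n * g i ∈ stabilizer G ξ`, `= r * a`. With
`n' = (g j)⁻¹ * n⁻¹ * g j ∈ N`: `(g j)⁻¹ * g i = n' * r * a`, so `c = (r⁻¹ * n' * r) * a = n'' * a`, `n'' ∈ N`, and
`c * z * c⁻¹ * z⁻¹ = n'' * z * n''⁻¹ * z⁻¹ ∈ N` (`a` commutes with `z`; `N` is normal): contradiction. -/
theorem sep_three (h : Q62.ResFin G) (ξ : Ξ) (A : Subgroup G) (hA : A ≤ stabilizer G ξ)
    (hAi : A.relIndex (stabilizer G ξ) ≠ 0) (z : G) (hz : ∀ a ∈ A, a * z = z * a)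
    (hc : ∀ g : G, g * z = z * g → g • ξ = ξ) (g : Fin 3 → G)
    (hg : ∀ i j, g i • ξ = g j • ξ → i = j) :
    ∃ N : Subgroup G, N.Normal ∧ N.FiniteIndex ∧
      ∃ η : Fin 3 → Ξ, ∀ i j, ∀ n ∈ N, n • η i = η j → i = j := by
  classical
  obtain ⟨P, hP⟩ : ∃ P : Subgroup G, P = stabilizer G ξ := ⟨_, rfl⟩
  rw [← hP] at hA hAi
  have hPm : ∀ x, x ∈ P ↔ x • ξ = ξ := by
    intro x
    rw [hP]
    exact MulAction.mem_stabilizer_iff
  have : (A.subgroupOf P).FiniteIndex := ⟨hAi⟩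
  have : Finite (P ⧸ A.subgroupOf P) := inferInstance
  obtain ⟨f, hf⟩ : ∃ f : (P ⧸ A.subgroupOf P) × Fin 3 × Fin 3 → G, f = fun x =>
      ((x.1.out : G)⁻¹ * (g x.2.2)⁻¹ * g x.2.1) * z * ((x.1.out : G)⁻¹ * (g x.2.2)⁻¹ * g x.2.1)⁻¹ * z⁻¹ := ⟨_, rfl⟩
  obtain ⟨N, hN1, hN2, hN3⟩ := rf_avoid h (S := f '' {x | x.2.1 ≠ x.2.2}) (Set.toFinite _) (by
    rintro ⟨x, hx, hx1⟩
    refine hx (hg _ _ ?_)
    rw [hf] at hx1
    simp only at hx1
    obtain ⟨c, hcd⟩ : ∃ c, c = (x.1.out : G)⁻¹ * (g x.2.2)⁻¹ * g x.2.1 := ⟨_, rfl⟩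
    rw [← hcd] at hx1
    have h2 : c * z = z * c := by
      have h3 := mul_inv_eq_one.mp hx1
      exact mul_inv_eq_iff_eq_mul.mp h3
    have h4 := hc c h2
    have h5 : (x.1.out : G) • ξ = ξ := (hPm _).mp x.1.out.2
    rw [hcd, mul_smul, mul_smul, inv_smul_eq_iff, h5, inv_smul_eq_iff] at h4
    exact h4)
  refine ⟨N, hN1, hN2, fun i => g i • ξ, fun i j n hn hij => ?_⟩
  by_contra hne
  have h1 : (g j)⁻¹ * n * g i ∈ P := by
    rw [hPm, mul_smul, mul_smul, inv_smul_eq_iff]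
    exact hij
  obtain ⟨a, ha, hpa⟩ := RfB_rep A P ⟨(g j)⁻¹ * n * g i, h1⟩
  obtain ⟨q, hq⟩ : ∃ q : P ⧸ A.subgroupOf P, q = ((⟨(g j)⁻¹ * n * g i, h1⟩ : P) : P ⧸ A.subgroupOf P) := ⟨_, rfl⟩
  rw [← hq] at hpa
  change (g j)⁻¹ * n * g i = (q.out : G) * a at hpa
  have h2 : f (q, i, j) ∉ N := hN3 _ ⟨(q, i, j), hne, rfl⟩
  refine h2 ?_
  obtain ⟨n', hn'⟩ : ∃ n' : G, n' = (g j * q.out)⁻¹ * n⁻¹ * (g j * q.out) := ⟨_, rfl⟩
  have hn'N : n' ∈ N := by
    rw [hn']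
    have := hN1.conj_mem n⁻¹ (N.inv_mem hn) (g j * q.out)⁻¹
    rwa [inv_inv] at this
  have h3 : (q.out : G)⁻¹ * (g j)⁻¹ * g i = n' * a := by
    have h4 : a = (q.out : G)⁻¹ * ((g j)⁻¹ * n * g i) := by
      rw [hpa]
      group
    rw [h4, hn']
    group
  have h5 : f (q, i, j) = n' * (z * n'⁻¹ * z⁻¹) := by
    rw [hf]
    simp only
    rw [h3]
    have h6 := hz a ha
    calc n' * a * z * (n' * a)⁻¹ * z⁻¹ = n' * (a * z) * a⁻¹ * n'⁻¹ * z⁻¹ := by group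
      _ = n' * (z * a) * a⁻¹ * n'⁻¹ * z⁻¹ := by rw [h6]
      _ = _ := by group
  rw [h5]
  exact N.mul_mem hn'N (hN1.conj_mem _ (N.inv_mem hn'N) z)

/-- If all finite index normal subgroups have at most two cusps (in the orbit of `ξ`) then the index of
`A ⊔ N` is bounded.

Proof. Let `P = stabilizer G ξ`. (1) `(P ⊔ N).index ≤ 2`: otherwise there are `g : Fin 3 → G` in different
left cosets of `P ⊔ N`; `η i = g i • ξ`; if `n • g i • ξ = g j • ξ` with `n ∈ N` then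
`(g j)⁻¹ * n * g i ∈ P` and `(g j)⁻¹ * g i = ((g j)⁻¹ * n⁻¹ * g j) * ((g j)⁻¹ * n * g i) ∈ N P`, so `i = j`:
contradiction. (2) `(A ⊔ N).relIndex (P ⊔ N) ≤ A.relIndex P`, and `≠ 0`: the map `p ↦ p (A ⊔ N)` from the
left cosets of `A` in `P` to the left cosets of `A ⊔ N` in `P ⊔ N` is onto (every element of `P ⊔ N` is
`p * n`, `Subgroup.mul_normal`). (3) `(A ⊔ N).index = (A ⊔ N).relIndex (P ⊔ N) * (P ⊔ N).index`. -/
theorem bdd_of_two (ξ : Ξ) (A : Subgroup G) (hA : A ≤ stabilizer G ξ)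
    (hAi : A.relIndex (stabilizer G ξ) ≠ 0) (N : Subgroup G) [N.Normal] [N.FiniteIndex]
    (h2 : ¬ ∃ η : Fin 3 → Ξ, ∀ i j, ∀ n ∈ N, n • η i = η j → i = j) :
    (A ⊔ N).index ≤ 2 * A.relIndex (stabilizer G ξ) := by
  classical
  obtain ⟨P, hP⟩ : ∃ P : Subgroup G, P = stabilizer G ξ := ⟨_, rfl⟩
  rw [← hP] at hA hAi ⊢
  have hPm : ∀ x, x ∈ P ↔ x • ξ = ξ := by
    intro x
    rw [hP]
    exact MulAction.mem_stabilizer_iff
  have : (A.subgroupOf P).FiniteIndex := ⟨hAi⟩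
  have hPN : (P ⊔ N).FiniteIndex := Subgroup.finiteIndex_of_le (le_sup_right : N ≤ P ⊔ N)
  have : Finite (P ⧸ A.subgroupOf P) := inferInstance
  have : Finite (G ⧸ (P ⊔ N)) := inferInstance
  have h1 : (P ⊔ N).index ≤ 2 := by
    by_contra hlt
    push Not at hlt
    refine h2 ?_
    have h3 : Nat.card (Fin 3) ≤ Nat.card (G ⧸ (P ⊔ N)) := by
      rw [Nat.card_fin]
      exact hlt
    obtain ⟨f, hf⟩ : ∃ f : Fin 3 → G ⧸ (P ⊔ N), Function.Injective f := by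
      have := Fintype.ofFinite (G ⧸ (P ⊔ N))
      rw [Nat.card_eq_fintype_card, Nat.card_eq_fintype_card] at h3
      obtain ⟨e⟩ := Function.Embedding.nonempty_of_card_le h3
      exact ⟨e, e.injective⟩
    refine ⟨fun i => (f i).out • ξ, fun i j n hn hij => hf ?_⟩
    have h4 : ((f j).out)⁻¹ * n * (f i).out ∈ P := by
      rw [hPm, mul_smul, mul_smul, inv_smul_eq_iff]
      exact hij
    rw [← QuotientGroup.out_eq' (f i), ← QuotientGroup.out_eq' (f j), eq_comm]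
    rw [QuotientGroup.eq]
    have h5 : ((f j).out)⁻¹ * (f i).out = (((f j).out)⁻¹ * n * (f i).out) *
        (((f i).out)⁻¹ * n⁻¹ * (f i).out) := by group
    rw [h5]
    refine (P ⊔ N).mul_mem (Subgroup.mem_sup_left h4) (Subgroup.mem_sup_right ?_)
    have h6 := (inferInstance : N.Normal).conj_mem n⁻¹ (N.inv_mem hn) ((f i).out)⁻¹
    rwa [inv_inv] at h6
  have h3 : Function.Surjective (fun x : (G ⧸ (P ⊔ N)) × (P ⧸ A.subgroupOf P) =>
      ((x.1.out * (x.2.out : G) : G) : G ⧸ (A ⊔ N))) := by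
    intro y
    obtain ⟨g, rfl⟩ := QuotientGroup.mk_surjective y
    obtain ⟨s, hs⟩ := QuotientGroup.mk_out_eq_mul (P ⊔ N) g
    obtain ⟨p, hp, n, hn, hpn⟩ := (Subgroup.mem_sup_of_normal_right).mp ((P ⊔ N).inv_mem s.2)
    obtain ⟨a, ha, hpa⟩ := RfB_rep A P ⟨p, hp⟩
    refine ⟨((g : G ⧸ (P ⊔ N)), ((⟨p, hp⟩ : P) : P ⧸ A.subgroupOf P)), ?_⟩
    change ((_ : G) : G ⧸ (A ⊔ N)) = (g : G ⧸ (A ⊔ N))
    rw [QuotientGroup.eq]
    change p = _ at hpa
    have h4 : g = ((g : G ⧸ (P ⊔ N)).out) * (p * n) := by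
      rw [hpn, hs]
      group
    obtain ⟨o, ho⟩ : ∃ o : G, o = (g : G ⧸ (P ⊔ N)).out := ⟨_, rfl⟩
    obtain ⟨r, hr⟩ : ∃ r : G, r = (((⟨p, hp⟩ : P) : P ⧸ A.subgroupOf P).out : G) := ⟨_, rfl⟩
    rw [← hr] at hpa
    rw [← ho] at h4
    simp only
    rw [← hr, ← ho]
    have h5 : (o * r)⁻¹ * g = a * n := by
      rw [h4, hpa]
      group
    rw [h5]
    exact (A ⊔ N).mul_mem (Subgroup.mem_sup_left ha) (Subgroup.mem_sup_right hn)
  have h4 := Nat.card_le_card_of_surjective _ h3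
  rw [Nat.card_prod] at h4
  calc (A ⊔ N).index ≤ (P ⊔ N).index * A.relIndex P := h4
    _ ≤ 2 * A.relIndex P := Nat.mul_le_mul_right _ h1

/-- The image of a commutative subgroup in a finite quotient.

Proof. Let `M = K.subgroupOf N'`, normal of finite index in `N'`; `hb` bounds the index of `A ⊔ M` in
`N'`. Let `Q = G ⧸ K` and `A'` the image of `A` (as a subgroup of `G`) in `Q`: commutative. The index of
`A'` in `Q` is the index of `A K` in `G` (`Subgroup.index_comap_of_surjective` /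
`Subgroup.index_map_of_surjective`), which is at most the index of
`(A ⊔ M).map N'.subtype ≤ A K`, `= (A ⊔ M).index * N'.index` (`Subgroup.index_map_subtype`). -/
theorem bdd_quot {N' : Subgroup G} [N'.FiniteIndex] (A : Subgroup N')
    (hcomm : ∀ a ∈ A, ∀ b ∈ A, a * b = b * a) (m : ℕ)
    (hb : ∀ M : Subgroup N', M.Normal → M.FiniteIndex → (A ⊔ M).index ≤ m)
    (K : Subgroup G) [K.Normal] [K.FiniteIndex] :
    ∃ A' : Subgroup (G ⧸ K), (∀ a ∈ A', ∀ b ∈ A', a * b = b * a) ∧ A'.index ≤ m * N'.index := by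
  refine ⟨(A.map N'.subtype).map (QuotientGroup.mk' K), ?_, ?_⟩
  · rintro _ ⟨_, ⟨a, ha, rfl⟩, rfl⟩ _ ⟨_, ⟨b, hb, rfl⟩, rfl⟩
    rw [← map_mul, ← map_mul, hcomm a ha b hb, map_mul, map_mul]
  · rw [Subgroup.index_map, QuotientGroup.ker_mk', QuotientGroup.range_mk', Subgroup.index_top, mul_one]
    have h1 : ((A ⊔ K.subgroupOf N').map N'.subtype).index = (A ⊔ K.subgroupOf N').index * N'.index :=
      Subgroup.index_map_subtype _
    have : (A ⊔ K.subgroupOf N').FiniteIndex :=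
      Subgroup.finiteIndex_of_le (le_sup_right : K.subgroupOf N' ≤ A ⊔ K.subgroupOf N')
    have h2 : ((A ⊔ K.subgroupOf N').map N'.subtype).index ≠ 0 := by
      rw [h1]
      exact mul_ne_zero Subgroup.FiniteIndex.index_ne_zero Subgroup.FiniteIndex.index_ne_zero
    have h3 : (A ⊔ K.subgroupOf N').map N'.subtype ≤ A.map N'.subtype ⊔ K := by
      rw [Subgroup.map_sup]
      refine sup_le_sup le_rfl ?_
      rintro _ ⟨x, hx, rfl⟩
      exact hx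
    have h4 : (A.map N'.subtype ⊔ K).index ≤ ((A ⊔ K.subgroupOf N').map N'.subtype).index :=
      Nat.le_of_dvd (Nat.pos_of_ne_zero h2) (Subgroup.index_dvd_of_le h3)
    rw [h1] at h4
    exact h4.trans (Nat.mul_le_mul_right _ (hb _ inferInstance inferInstance))

end RCan
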