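import Pool.Agent.W_04c03c_h58.MnA
import Pool.Agent.W_04c03c_h58.Asm
import Pool.Agent.W_04c03c_h58.HoA
import Pool.Agent.W_04c03c_h58.HoD
import Pool.Agent.W_04c03c_h58.HoF
import Pool.Agent.W_04c03c_h58.RfB
/-!
# Groups with a sphere at infinity
-/

namespace RCan

open Set
open scoped NNReal Pointwise

/-- the data of a group with a sphere at infinity -/
structure Q1D (G : Type) [Group G] (X : Type) [MetricSpace X] [MulAction G X]
    (𝓗 : Set (Set X)) : Prop where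
  geod : IsGeod X
  hyp : IsHyp X
  cus : Cusped G 𝓗
  bd : Nonempty (Bdry X ≃ₜ S2)
  vz : ∀ B ∈ 𝓗, VirtZ2 (MulAction.stabilizer G B)
  ne : 𝓗.Nonempty

theorem fpfree_of_fp {G : Type*} [Group G] (h : Group.IsFinitelyPresented G) : Q62.FPFree G := by
  obtain ⟨n, φ, hφ, S, hS, hSφ⟩ := h.out
  let e : FreeGroup (Fin n) ≃* (⊤ : Subgroup (FreeGroup (Fin n))) := Subgroup.topEquiv.symm
  refine ⟨n, ⊤, φ.comp e.symm.toMonoidHom, e.toMonoidHom '' S, ?_, hS.image _, ?_⟩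
  · exact hφ.comp e.symm.surjective
  · rw [← Subgroup.map_normalClosure S e.toMonoidHom e.surjective, hSφ]
    ext x
    rw [Subgroup.mem_map, MonoidHom.mem_ker]
    constructor
    · intro hx
      exact ⟨e.symm x, hx, e.apply_symm_apply x⟩
    · rintro ⟨y, hy, rfl⟩
      show φ (e.symm (e y)) = 1
      rw [e.symm_apply_apply]
      exact hy

variable {G : Type} [Group G] {X : Type} [MetricSpace X] [ProperSpace X] [MulAction G X]
  {𝓗 : Set (Set X)}

theorem Q1D.uncountable (h : Q1D G X 𝓗) : Uncountable (Bdry X) := by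
  obtain ⟨e⟩ := h.bd
  haveI : Uncountable S2 := uncountable_sphere
  exact e.toEquiv.symm.injective.uncountable

theorem Q1D.exists_base (h : Q1D G X 𝓗) : ∃ o : X, ∀ B ∈ 𝓗, o ∉ B := by
  obtain ⟨δ, hδ⟩ := exists_hyp4 h.hyp
  haveI := h.uncountable
  exact RCan.exists_base hδ h.geod h.cus inferInstance

/-- Three cusps imply largeness. -/
theorem Q1D.large_of_three (h : Q1D G X 𝓗) (hfg : Group.FG G) (N : Subgroup G) [N.FiniteIndex]
    (hT : TFree N) (M : Subgroup G) [M.FiniteIndex] (B : Fin 3 → Set X) (hB : ∀ i, B i ∈ 𝓗)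
    (hM : ∀ i j, ∀ n ∈ M, n • B i = B j → i = j) : Q62.IsLarge G := by
  obtain ⟨e⟩ := h.bd
  have hC := h.cus.sub N
  obtain ⟨V, _, sm, cusp, hF⟩ := exists_face h.geod h.hyp hC e
  obtain ⟨o, ho⟩ := h.exists_base
  have hfgN : Group.FG N := Subgroup.fg_of_index_ne_zero N
  letI : MulAction N 𝓗 := cuspAct hC
  apply Q62.IsLarge.of_finiteIndex N
  have : (M.subgroupOf N).FiniteIndex := inferInstance
  refine large_of_face hF hT hfgN (finite_orbits h.geod hC ho) (fun ξ => vz_stab h.cus N hC h.vz ξ)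
    (M.subgroupOf N) (fun i => ⟨B i, hB i⟩) ?_
  intro i j n hn hij
  exact hM i j n hn (congrArg Subtype.val hij)

/-- A homomorphism which kills a cusp group implies largeness. -/
theorem Q1D.large_of_kill (h : Q1D G X 𝓗) (hfg : Group.FG G) (N : Subgroup G) [N.FiniteIndex]
    (hT : TFree N) {B : Set X} (hB : B ∈ 𝓗) (φ : Additive N →+ ℚ) (hφ : φ ≠ 0)
    (hk : ∀ n : N, (n : G) • B = B → φ (Additive.ofMul n) = 0) : Q62.IsLarge G := by
  obtain ⟨e⟩ := h.bd
  have hC := h.cus.sub N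
  obtain ⟨V, _, sm, cusp, hF⟩ := exists_face h.geod h.hyp hC e
  obtain ⟨o, ho⟩ := h.exists_base
  have hfgN : Group.FG N := Subgroup.fg_of_index_ne_zero N
  letI : MulAction N 𝓗 := cuspAct hC
  apply Q62.IsLarge.of_finiteIndex N
  have hfp : Group.IsFinitelyPresented N :=
    face_fp hF hfgN (finite_orbits h.geod hC ho) (fun ξ => (vz_stab h.cus N hC h.vz ξ).fp)
  exact RCan.large_of_kill hF hT hfgN (fpfree_of_fp hfp) ⟨B, hB⟩ (vz_stab h.cus N hC h.vz _) φ hφ
    (fun n hn => hk n (congrArg Subtype.val (MulAction.mem_stabilizer_iff.1 hn)))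

/-- The commutative subgroup of a cusp group. -/
theorem Q1D.exists_A (h : Q1D G X 𝓗) {B : Set X} (hB : B ∈ 𝓗) :
    ∃ A : Subgroup G, A ≤ MulAction.stabilizer G B ∧ A.relIndex (MulAction.stabilizer G B) ≠ 0 ∧
      (∀ a ∈ A, ∀ b ∈ A, a * b = b * a) ∧ ∃ z ∈ A, ∀ n : ℕ, 0 < n → z ^ n ≠ 1 := by
  obtain ⟨A, h1, h2, ⟨e⟩⟩ := h.vz B hB
  refine ⟨A, h1, h2, ?_, ?_⟩
  · intro a ha b hb
    have h3 : (⟨a, ha⟩ : A) * ⟨b, hb⟩ = ⟨b, hb⟩ * ⟨a, ha⟩ := by
      apply e.injective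
      rw [map_mul, map_mul, mul_comm]
    exact congrArg Subtype.val h3
  · refine ⟨e.symm (Multiplicative.ofAdd (1, 0)), SetLike.coe_mem _, fun n hn h3 => ?_⟩
    have h4 : (e.symm (Multiplicative.ofAdd ((1 : ℤ), (0 : ℤ)))) ^ n = 1 := Subtype.ext h3
    rw [← map_pow, ← ofAdd_nsmul, map_eq_one_iff _ e.symm.injective, ofAdd_eq_one] at h4
    have h5 := congrArg Prod.fst h4
    simp at h5
    omega

/-- Stabilizers determine the horoballs. -/
theorem Q1D.stab_inj (h : Q1D G X 𝓗) {B B' : Set X} (hB : B ∈ 𝓗) (hB' : B' ∈ 𝓗)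
    (hs : MulAction.stabilizer G B = MulAction.stabilizer G B') : B = B' := by
  by_contra hne
  obtain ⟨δ, hδ⟩ := exists_hyp4 h.hyp
  obtain ⟨A, h1, -, -, z, hz, hz'⟩ := h.exists_A hB
  have hf := finite_stab_two hδ h.geod h.cus hB hB' hne
  have hinj : Function.Injective (fun n : ℕ => z ^ n) := by
    apply injective_pow_iff_not_isOfFinOrder.2
    intro hfo
    obtain ⟨n, hn, hn'⟩ := isOfFinOrder_iff_pow_eq_one.1 hfo
    exact hz' n hn hn'
  refine (Set.infinite_range_of_injective hinj) (hf.subset ?_)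
  rintro _ ⟨n, rfl⟩
  have h3 : z ^ n ∈ MulAction.stabilizer G B := (MulAction.stabilizer G B).pow_mem (h1 hz) n
  have h4 : z ^ n ∈ MulAction.stabilizer G B' := hs ▸ h3
  exact ⟨h3, h4⟩

/-- Residually finite groups are large. -/
theorem Q1D.large_of_rf (h : Q1D G X 𝓗) (hfg : Group.FG G) (hr : Q62.ResFin G) :
    Q62.IsLarge G := by
  obtain ⟨δ, hδ⟩ := exists_hyp4 h.hyp
  obtain ⟨o, ho⟩ := h.exists_base
  have : Nonempty X := ⟨o⟩
  obtain ⟨N, hN, hNf, hT⟩ := exists_tfree hδ h.geod h.cus hr h.vz ho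
  obtain ⟨B, hB⟩ := h.ne
  obtain ⟨A, hA1, hA2, hA3, z, hz, hz'⟩ := h.exists_A hB
  letI : MulAction G 𝓗 := cuspAct h.cus
  have hst : MulAction.stabilizer G (⟨B, hB⟩ : 𝓗) = MulAction.stabilizer G B := by
    ext g
    exact mem_stab_cusp h.cus ⟨B, hB⟩ g
  have := h.uncountable
  have hinf := infinite_orbit hδ h.geod h.cus ho this hB
  obtain ⟨T, hT1, hT2⟩ := hinf.exists_subset_card_eq 3
  obtain ⟨b, hb⟩ : ∃ b : Fin 3 → Set X, Function.Injective b ∧ ∀ i, b i ∈ T := by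
    obtain ⟨e⟩ : Nonempty (Fin 3 ≃ T) := ⟨(T.equivFinOfCardEq hT2).symm⟩
    exact ⟨fun i => (e i : Set X), Subtype.val_injective.comp e.injective, fun i => (e i).2⟩
  choose g hg using fun i => hT1 (hb.2 i)
  obtain ⟨M, hM, hMf, η, hη⟩ := sep_three hr (⟨B, hB⟩ : 𝓗) A (hst ▸ hA1) (hst ▸ hA2) z
    (fun a ha => hA3 a ha z hz)
    (fun g hg => Subtype.ext (stab_of_comm hδ h.geod h.cus hB (hA1 hz) hz' hg)) g
    (fun i j hij => hb.1 (by
      rw [← hg i, ← hg j]
      exact congrArg Subtype.val hij))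
  exact h.large_of_three hfg N hT M (fun i => (η i).1) (fun i => (η i).2)
    (fun i j n hn hij => hη i j n hn (Subtype.ext hij))

end RCan
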