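import Pool.Agent.W_04c03c_h58.MnB
import Pool.Agent.W_04c03c_h58.LgA
import Pool.Agent.W_04c03c_h58.LgB
/-!
# The main theorem
-/

namespace RCan

open Set
open scoped NNReal Pointwise

/-- the peripheral subgroups: the conjugates of the `H i` -/
def Periph {G : Type*} [Group G] {ι : Type*} (H : ι → Subgroup G) (K : Subgroup G) : Prop :=
  ∃ (i : ι) (g : G), K = (H i).map (MulAut.conj g).toMonoidHom

section
variable {G : Type} [Group G] {X : Type} [MetricSpace X] [ProperSpace X] [MulAction G X]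
  {𝓗 : Set (Set X)}

theorem stab_smul (g : G) (B : Set X) : MulAction.stabilizer G (g • B) =
    (MulAction.stabilizer G B).map (MulAut.conj g).toMonoidHom :=
  MulAction.stabilizer_smul_eq_stabilizer_map_conj g B

/-- If no subgroup of finite index has three cusps then the finite quotients are uniformly
virtually commutative. -/
theorem Q1D.bdd (h : Q1D G X 𝓗)
    (h3 : ∀ N : Subgroup G, N.FiniteIndex → ∀ B : Fin 3 → Set X, (∀ i, B i ∈ 𝓗) →
      ∃ i j, ∃ n ∈ N, n • B i = B j ∧ i ≠ j) :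
    ∃ m : ℕ, ∀ K : Subgroup G, K.Normal → K.FiniteIndex → ∃ A : Subgroup G, K ≤ A ∧
      (∀ a ∈ A, ∀ b ∈ A, a * b * a⁻¹ * b⁻¹ ∈ K) ∧ A.index ≤ m := by
  obtain ⟨B, hB⟩ := h.ne
  obtain ⟨A, hA1, hA2, hA3, -⟩ := h.exists_A hB
  letI : MulAction G 𝓗 := cuspAct h.cus
  have hst : MulAction.stabilizer G (⟨B, hB⟩ : 𝓗) = MulAction.stabilizer G B := by
    ext g
    exact mem_stab_cusp h.cus ⟨B, hB⟩ g
  refine ⟨2 * A.relIndex (MulAction.stabilizer G (⟨B, hB⟩ : 𝓗)), fun K hK hKf => ?_⟩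
  refine ⟨A ⊔ K, le_sup_right, ?_, ?_⟩
  · have key : ∀ a ∈ A ⊔ K, ∃ a' ∈ A, (QuotientGroup.mk a : G ⧸ K) = QuotientGroup.mk a' := by
      intro a ha
      have h1 : (a : G) ∈ ((A : Set G) * (K : Set G)) := by
        rw [← Subgroup.mul_normal]
        exact ha
      obtain ⟨a', ha', k, hk, rfl⟩ := h1
      refine ⟨a', ha', ?_⟩
      show (QuotientGroup.mk (a' * k) : G ⧸ K) = _
      rw [QuotientGroup.mk_mul_of_mem _ hk]
    intro a ha b hb
    obtain ⟨a', ha', h1⟩ := key a ha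
    obtain ⟨b', hb', h2⟩ := key b hb
    rw [← QuotientGroup.eq_one_iff, QuotientGroup.mk_mul, QuotientGroup.mk_mul,
      QuotientGroup.mk_mul, QuotientGroup.mk_inv, QuotientGroup.mk_inv, h1, h2,
      ← QuotientGroup.mk_inv, ← QuotientGroup.mk_inv, ← QuotientGroup.mk_mul,
      ← QuotientGroup.mk_mul, ← QuotientGroup.mk_mul, hA3 a' ha' b' hb', mul_inv_cancel_right,
      mul_inv_cancel]
    rfl
  · refine bdd_of_two (⟨B, hB⟩ : 𝓗) A (hst ▸ hA1) (hst ▸ hA2) K ?_
    rintro ⟨η, hη⟩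
    obtain ⟨i, j, n, hn, hij, hne⟩ := h3 K hKf (fun i => (η i).1) (fun i => (η i).2)
    exact hne (hη i j n hn (Subtype.ext hij))

end

/-- The main theorem. -/
theorem main {G : Type} [Group G] (hfg : Group.FG G) {ι : Type*} [Nonempty ι]
    (H : ι → Subgroup G) (hH : ∀ i, VirtZ2 (H i)) (hS : SphereRelHyp G H) :
    (Q62.ResFin G → Q62.IsLarge G) ∧
    ((∃ N : Subgroup G, N.FiniteIndex ∧ TFree N) → List.TFAE [
      Q62.IsLarge G,
      ∃ N : Subgroup G, N.FiniteIndex ∧ ∃ K : Fin 3 → Subgroup G, (∀ i, Periph H (K i)) ∧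
        ∀ i j, ∀ n ∈ N, (K i).map (MulAut.conj n).toMonoidHom = K j → i = j,
      ∃ N : Subgroup G, N.FiniteIndex ∧
        ∃ f : Fin 3 → (Additive N →+ ℚ), LinearIndependent ℚ f,
      ∃ N : Subgroup G, N.FiniteIndex ∧ ∃ (φ : Additive N →+ ℚ) (K : Subgroup G), φ ≠ 0 ∧
        Periph H K ∧ ∀ x : N, (x : G) ∈ K → φ (Additive.ofMul x) = 0,
      ∀ m : ℕ, ∃ K : Subgroup G, K.Normal ∧ K.FiniteIndex ∧ ∀ A : Subgroup G, K ≤ A →
        (∀ a ∈ A, ∀ b ∈ A, a * b * a⁻¹ * b⁻¹ ∈ K) → m < A.index]) := by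
  obtain ⟨X, _, _, _, 𝓗, h1, h2, h3, h4, h5⟩ := hS
  have hper : ∀ K : Subgroup G, Periph H K ↔ ∃ B ∈ 𝓗, MulAction.stabilizer G B = K :=
    fun K => (h4 K).symm
  have hV0 : ∀ (i : ι) (g : G), VirtZ2 ((H i).map (MulAut.conj g).toMonoidHom) := by
    intro i g
    obtain ⟨A, hA1, hA2, ⟨e⟩⟩ := hH i
    refine ⟨A.map (MulAut.conj g).toMonoidHom, Subgroup.map_mono hA1, ?_, ⟨?_⟩⟩
    · rw [Subgroup.relIndex_map_map_of_injective _ _ (MulAut.conj g).injective]
      exact hA2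
    · exact (Subgroup.equivMapOfInjective A _ (MulAut.conj g).injective).symm.trans e
  have h : Q1D G X 𝓗 := by
    refine ⟨h1, h2, h3, h5, ?_, ?_⟩
    · intro B hB
      obtain ⟨i, g, hK⟩ := (h4 _).1 ⟨B, hB, rfl⟩
      rw [hK]
      exact hV0 i g
    · obtain ⟨i⟩ := ‹Nonempty ι›
      obtain ⟨B, hB, -⟩ := (h4 (H i)).2 ⟨i, 1, by ext; simp⟩
      exact ⟨B, hB⟩
  refine ⟨h.large_of_rf hfg, ?_⟩
  rintro ⟨N₁, hN₁, hT⟩
  tfae_have 1 → 5 := fun hl m => not_bdd_of_large hl m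
  tfae_have 5 → 2 := by
    intro h5
    by_contra hcon
    obtain ⟨m, hm⟩ := h.bdd (by
      intro N hN B hB
      by_contra hc
      push Not at hc
      apply hcon
      refine ⟨N, hN, fun i => MulAction.stabilizer G (B i),
        fun i => (hper _).2 ⟨B i, hB i, rfl⟩, ?_⟩
      intro i j n hn hij
      apply hc i j n hn
      apply h.stab_inj (h.cus.inv n _ (hB i)) (hB j)
      rw [stab_smul]
      exact hij)
    obtain ⟨K, hK1, hK2, hK3⟩ := h5 m
    obtain ⟨A, hA1, hA2, hA3⟩ := hm K hK1 hK2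
    exact absurd (hK3 A hA1 hA2) (not_lt.2 hA3)
  tfae_have 2 → 1 := by
    rintro ⟨N, hN, K, hK, hK2⟩
    choose B hB hBK using fun i => (hper _).1 (hK i)
    refine h.large_of_three hfg N₁ hT N B hB ?_
    intro i j n hn hij
    apply hK2 i j n hn
    rw [← hBK, ← hBK, ← hij, stab_smul]
  tfae_have 1 → 3 := betti_of_large
  tfae_have 3 → 4 := by
    rintro ⟨N, hN, f, hf⟩
    obtain ⟨B, hB⟩ := h.ne
    have hC := h.cus.sub N
    letI : MulAction N 𝓗 := cuspAct hC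
    obtain ⟨c, hc, hc2⟩ := vz_dep (vz_stab h.cus N hC h.vz ⟨B, hB⟩)
      (fun i => (f i).comp (MonoidHom.toAdditive (Subgroup.subtype _)))
    refine ⟨N, hN, ∑ i, c i • f i, MulAction.stabilizer G B, ?_, (hper _).2 ⟨B, hB, rfl⟩, ?_⟩
    · intro h0
      exact hc (funext fun i => Fintype.linearIndependent_iff.1 hf c h0 i)
    · intro x hx
      have h6 := hc2 (Additive.ofMul ⟨x, (mem_stab_cusp hC ⟨B, hB⟩ x).2 hx⟩)
      rw [AddMonoidHom.finsetSum_apply]
      exact h6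
  tfae_have 4 → 1 := by
    rintro ⟨N, hN, φ, K, hφ, hK, hk⟩
    obtain ⟨B, hB, hBK⟩ := (hper _).1 hK
    let N' : Subgroup G := N ⊓ N₁
    have hN' : N'.FiniteIndex := inferInstance
    have hT' : TFree N' := by
      intro g n hn hg
      have h6 : (⟨(g : G), g.2.2⟩ : N₁) ^ n = 1 := by
        apply Subtype.ext
        have h7 := congrArg Subtype.val hg
        simpa using h7
      have h8 := congrArg Subtype.val (hT _ n hn h6)
      exact Subtype.ext h8
    refine h.large_of_kill hfg N' hT' hB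
      (φ.comp (MonoidHom.toAdditive (Subgroup.inclusion (inf_le_left : N' ≤ N)))) ?_ ?_
    · intro h0
      apply hφ
      refine AddMonoidHom.ext fun x => ?_
      obtain ⟨n, hn, -, hn2⟩ := Subgroup.exists_pow_mem_of_index_ne_zero
        (H := N') hN'.index_ne_zero (x.toMul : G)
      have h6 := DFunLike.congr_fun h0 (Additive.ofMul ⟨_, hn2⟩)
      have h7 : φ (n • x) = 0 := h6
      rw [map_nsmul, nsmul_eq_mul, mul_eq_zero] at h7
      rcases h7 with h7 | h7
      · exact absurd h7 (by exact_mod_cast hn.ne')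
      · exact h7
    · intro n hn
      apply hk
      rw [← hBK]
      exact hn
  tfae_finish

end RCan
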