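import Pool.Agent.W_04c03c_h58.RayB

/-!
# The topology of the boundary in terms of Gromov products
-/

namespace RCan

open Filter Topology
open scoped NNReal

variable {X : Type*} [MetricSpace X] {δ : ℝ} {Z : Type*} [MetricSpace Z]

theorem RayC1_cont (h : Bdry X ≃ₜ Z) :
    Continuous (fun γ : GRay X => h (Quotient.mk (asym X) γ)) :=
  h.continuous.comp continuous_quotient_mk'

/-- Rays with a large Gromov product define close boundary points.

Proof. Otherwise there are rays `γ n, γ' n` from `o` and `s n, t n` with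
`n ≤ gp o (γ n (s n)) (γ' n (t n))` and `ε ≤ dist (h ⟦γ n⟧) (h ⟦γ' n⟧)`. Let `𝒰` be the hyperfilter, `γ, γ'`
the limits (`lim_ray`). By `ray_close`, `dist (γ n u) (γ' n u) ≤ 4 δ` for `n ≥ u`, so
`dist (γ u) (γ' u) ≤ 4 δ`: asymptotic, `⟦γ⟧ = ⟦γ'⟧`. The map `γ ↦ h ⟦γ⟧` is continuous
(`continuous_quotient_mk'`), so `h ⟦γ n⟧` and `h ⟦γ' n⟧` converge along `𝒰` to the same point:
contradiction. -/
theorem close_of_gp [ProperSpace X] (hδ : Hyp4 X δ) (h : Bdry X ≃ₜ Z) (o : X) {ε : ℝ}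
    (he : 0 < ε) : ∃ M : ℝ, ∀ γ γ' : GRay X, γ.1 0 = o → γ'.1 0 = o → ∀ s t : ℝ≥0,
      M ≤ gp o (γ.1 s) (γ'.1 t) →
      dist (h (Quotient.mk (asym X) γ)) (h (Quotient.mk (asym X) γ')) < ε := by
  by_contra hc
  push Not at hc
  choose γ γ' h0 h0' s t hM hd using fun n : ℕ => hc n
  set 𝒰 : Ultrafilter ℕ := Filter.hyperfilter ℕ with h𝒰
  have hU : (𝒰 : Filter ℕ) ≤ atTop := Nat.hyperfilter_le_atTop
  obtain ⟨g, hg0, hg1, hg2⟩ := lim_ray o γ h0 𝒰
  obtain ⟨g', hg0', hg1', hg2'⟩ := lim_ray o γ' h0' 𝒰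
  have hclose : ∀ u : ℝ≥0, dist (g.1 u) (g'.1 u) ≤ 4 * δ := by
    intro u
    refine le_of_tendsto ((hg2 u).dist (hg2' u)) ?_
    have h1 : ∀ᶠ n : ℕ in (𝒰 : Filter ℕ), (u : ℝ) ≤ n :=
      hU (tendsto_natCast_atTop_atTop.eventually_ge_atTop (u : ℝ))
    filter_upwards [h1] with n hn
    exact ray_close hδ (h0 n) (h0' n) (hn.trans (hM n))
  have heq : (Quotient.mk (asym X) g : Bdry X) = Quotient.mk (asym X) g' :=
    Quotient.sound (s := asym X) ⟨4 * δ, hclose⟩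
  have c1 := ((RayC1_cont h).tendsto g).comp hg1
  have c2 := ((RayC1_cont h).tendsto g').comp hg1'
  rw [← heq] at c2
  have c3 := c1.dist c2
  rw [dist_self] at c3
  have c4 := c3.eventually (gt_mem_nhds he)
  obtain ⟨n, hn⟩ := c4.exists
  exact absurd hn (not_lt.2 (hd n))

/-- Close boundary points are defined by rays which are close for a long time.

Proof. Otherwise there are rays `γ n, γ' n` from `o` with `dist (h ⟦γ n⟧) (h ⟦γ' n⟧) < 1 / (n + 1)` and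
`dist (γ n R) (γ' n R) > 4 δ + 1`. Limits `γ, γ'` along the hyperfilter: `h ⟦γ⟧ = h ⟦γ'⟧`, so `γ` and `γ'`
are asymptotic, `dist (γ R) (γ' R) ≤ 4 δ` (`asym_close`), but it is the limit of
`dist (γ n R) (γ' n R) ≥ 4 δ + 1`. -/
theorem near_of_close [ProperSpace X] (hδ : Hyp4 X δ) (h : Bdry X ≃ₜ Z) (o : X) (R : ℝ≥0) :
    ∃ ε : ℝ, 0 < ε ∧ ∀ γ γ' : GRay X, γ.1 0 = o → γ'.1 0 = o →
      dist (h (Quotient.mk (asym X) γ)) (h (Quotient.mk (asym X) γ')) < ε →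
      dist (γ.1 R) (γ'.1 R) ≤ 4 * δ + 1 := by
  by_contra hc
  push Not at hc
  choose γ γ' h0 h0' hd hR using fun n : ℕ => hc (1 / ((n : ℝ) + 1)) Nat.one_div_pos_of_nat
  set 𝒰 : Ultrafilter ℕ := Filter.hyperfilter ℕ with h𝒰
  have hU : (𝒰 : Filter ℕ) ≤ atTop := Nat.hyperfilter_le_atTop
  obtain ⟨g, hg0, hg1, hg2⟩ := lim_ray o γ h0 𝒰
  obtain ⟨g', hg0', hg1', hg2'⟩ := lim_ray o γ' h0' 𝒰
  have c1 := ((RayC1_cont h).tendsto g).comp hg1
  have c2 := ((RayC1_cont h).tendsto g').comp hg1'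
  have c3 := c1.dist c2
  have c4 : dist (h (Quotient.mk (asym X) g)) (h (Quotient.mk (asym X) g')) ≤ 0 := by
    have h1 : Tendsto (fun n : ℕ => 1 / ((n : ℝ) + 1)) (𝒰 : Filter ℕ) (𝓝 0) :=
      tendsto_one_div_add_atTop_nhds_zero_nat.mono_left hU
    exact le_of_tendsto_of_tendsto' c3 h1 fun n => (hd n).le
  have c5 : h (Quotient.mk (asym X) g) = h (Quotient.mk (asym X) g') :=
    dist_le_zero.1 c4
  have c6 : (Quotient.mk (asym X) g : Bdry X) = Quotient.mk (asym X) g' := h.injective c5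
  have c7 : (asym X).r g g' := Quotient.exact (s := asym X) c6
  have c8 := asym_close hδ hg0 hg0' c7 R
  have c9 : 4 * δ + 1 ≤ dist (g.1 R) (g'.1 R) :=
    ge_of_tendsto' ((hg2 R).dist (hg2' R)) fun n => (hR n).le
  linarith

end RCan
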