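import Pool.Agent.W_04c03c_h58.RayB

/-!
# Visibility
-/

namespace RCan

open Filter Topology
open scoped NNReal

variable {X : Type*} [MetricSpace X] {δ : ℝ}

/-- Visibility.

Proof. Put `p = φ o`. For each `n` one of the points `x = φ (γ₁ n)`, `φ (γ₂ n)` has `gp p o x ≤ M + δ`:
otherwise `gp p (φ (γ₁ n)) (φ (γ₂ n)) > M` by `gp_hyp'`, but it equals `gp o (γ₁ n) (γ₂ n) ≤ M`
(`gp_isom`). Let `x n` be such a point: `gp o p (x n) = dist o p - gp p o (x n) ≥ dist o p - M - δ`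
(`gp_add`), `gp o x (x n) ≥ gp o p (x n) - D ≥ dist o x - 2 D - M - δ` (`gp_point`, triangle inequality),
and `dist o (x n) ≥ n - dist o p → ∞`. Apply `exists_ray_gp`. -/
theorem visual [ProperSpace X] (hδ : Hyp4 X δ) (hG : IsGeod X) {o : X} {γ₁ γ₂ : GRay X}
    (h1 : γ₁.1 0 = o) (h2 : γ₂.1 0 = o) {M : ℝ} (hM : ∀ n : ℕ, gp o (γ₁.1 n) (γ₂.1 n) ≤ M)
    {φ : X → X} (hφ : ∀ x y, dist (φ x) (φ y) = dist x y) {x : X} {D : ℝ}
    (hx : dist x (φ o) ≤ D) :
    ∃ γ : GRay X, γ.1 0 = o ∧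
      ∀ t : ℝ≥0, min (dist o x - 2 * D - M - δ) t - δ ≤ gp o x (γ.1 t) := by
  have key : ∀ n : ℕ, ∃ y : X, dist (φ o) y = n ∧ gp (φ o) o y ≤ M + δ := by
    intro n
    have h3 := gp_hyp hδ (φ o) (φ (γ₁.1 n)) o (φ (γ₂.1 n))
    rw [gp_isom hφ] at h3
    rcases min_choice (gp (φ o) (φ (γ₁.1 n)) o) (gp (φ o) o (φ (γ₂.1 n))) with h4 | h4
    · refine ⟨φ (γ₁.1 n), ?_, ?_⟩
      · rw [hφ, RayB_dist h1]
        simp
      · rw [h4] at h3
        rw [gp_comm]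
        linarith [hM n]
    · refine ⟨φ (γ₂.1 n), ?_, ?_⟩
      · rw [hφ, RayB_dist h2]
        simp
      · rw [h4] at h3
        linarith [hM n]
  choose y hy1 hy2 using key
  have hlim : Tendsto (fun n => dist o (y n)) atTop atTop := by
    have h5 : ∀ n : ℕ, (n : ℝ) - dist (φ o) o ≤ dist o (y n) := by
      intro n
      have := dist_triangle (φ o) o (y n)
      rw [hy1] at this
      linarith
    exact tendsto_atTop_mono h5 (tendsto_atTop_add_const_right _ _ tendsto_natCast_atTop_atTop)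
  obtain ⟨γ, h0, hγ⟩ := exists_ray_gp hδ hG o y hlim
  refine ⟨γ, h0, fun t => hγ x _ (fun n => ?_) t⟩
  have h6 := gp_add o (φ o) (y n)
  have h7 := gp_point o (φ o) x (y n)
  have h8 := dist_triangle o (φ o) x
  rw [dist_comm (φ o) x] at h7 h8
  linarith [hy2 n]

/-- If the boundary has two points then there are two rays from `o` which are not asymptotic. -/
theorem exists_two_rays [ProperSpace X] (hδ : Hyp4 X δ) (hG : IsGeod X) (o : X)
    (h : Nontrivial (Bdry X)) : ∃ γ₁ γ₂ : GRay X, γ₁.1 0 = o ∧ γ₂.1 0 = o ∧ ¬ (asym X).r γ₁ γ₂ := by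
  obtain ⟨a, b, hab⟩ := h
  obtain ⟨α, rfl⟩ := Quotient.exists_rep a
  obtain ⟨β, rfl⟩ := Quotient.exists_rep b
  obtain ⟨γ₁, h1, ha⟩ := exists_ray_from hδ hG o α
  obtain ⟨γ₂, h2, hb⟩ := exists_ray_from hδ hG o β
  refine ⟨γ₁, γ₂, h1, h2, fun hc => hab ?_⟩
  exact Quotient.sound ((asym X).trans ((asym X).symm ha) ((asym X).trans hc hb))

end RCan
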