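import Pool.Agent.W_04c03c_h58.CuspA
import Pool.Agent.W_04c03c_h58.RayC1
import Pool.Agent.W_04c03c_h58.RayC2

/-!
# Shadows
-/

namespace RCan

open Set
open scoped NNReal Pointwise

variable {N X : Type*} [Group N] [MetricSpace X] [MulAction N X] {𝓗 : Set (Set X)}

/-- the boundary point of a ray, as a point of the unit sphere of `E3` -/
noncomputable def bp (h : Bdry X ≃ₜ S2) (γ : GRay X) : E3 := (h (Quotient.mk (asym X) γ) : E3)

theorem bp_mem (h : Bdry X ≃ₜ S2) (γ : GRay X) : bp h γ ∈ S2 := (h (Quotient.mk (asym X) γ)).2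

theorem bp_eq (h : Bdry X ≃ₜ S2) (γ γ' : GRay X) : bp h γ = bp h γ' ↔ (asym X).r γ γ' := by
  unfold bp
  rw [Subtype.coe_inj, h.injective.eq_iff]
  exact Quotient.eq

theorem dist_bp (h : Bdry X ≃ₜ S2) (γ γ' : GRay X) : dist (bp h γ) (bp h γ')
    = dist (h (Quotient.mk (asym X) γ)) (h (Quotient.mk (asym X) γ')) := rfl

/-- Every point of the sphere is the boundary point of a ray from `o`. -/
theorem exists_ray_bp [ProperSpace X] {δ : ℝ} (hδ : Hyp4 X δ) (hG : IsGeod X) (h : Bdry X ≃ₜ S2)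
    (o : X) {z : E3} (hz : z ∈ S2) : ∃ γ : GRay X, γ.1 0 = o ∧ bp h γ = z := by
  obtain ⟨γ, hγ⟩ := Quotient.exists_rep (h.symm ⟨z, hz⟩)
  obtain ⟨γ', h0, h1⟩ := exists_ray_from hδ hG o γ
  refine ⟨γ', h0, ?_⟩
  have h2 : bp h γ' = bp h γ := (bp_eq h γ' γ).2 h1
  rw [h2]
  unfold bp
  have h3 : Quotient.mk (asym X) γ = h.symm ⟨z, hz⟩ := hγ
  rw [h3, Homeomorph.apply_symm_apply]

/-- `π v` is a shadow of `v` (seen from `o`), uniformly in `v` -/
def Shd {V : Type*} (h : Bdry X ≃ₜ S2) (o : X) (pt : V → X) (π : V → E3) (C : ℝ) : Prop :=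
  ∀ (v : V) (γ : GRay X), γ.1 0 = o → bp h γ = π v → ∀ t : ℝ≥0,
    min (dist o (pt v) / 2) t - C ≤ gp o (pt v) (γ.1 t)

theorem PiA_nontrivial (h : Bdry X ≃ₜ S2) : Nontrivial (Bdry X) := by
  have h1 : (EuclideanSpace.single 0 1 : E3) ∈ S2 := by
    rw [mem_sphere_zero_iff_norm]
    simp
  have h2 : (EuclideanSpace.single 1 1 : E3) ∈ S2 := by
    rw [mem_sphere_zero_iff_norm]
    simp
  refine ⟨⟨h.symm ⟨_, h1⟩, h.symm ⟨_, h2⟩, fun he => ?_⟩⟩
  have h3 := h.symm.injective he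
  have h4 : (EuclideanSpace.single 0 1 : E3) = EuclideanSpace.single 1 1 := congrArg Subtype.val h3
  have h5 := congrArg (fun z : E3 => z 0) h4
  simp at h5

/-- Existence of shadows.

Proof. `Bdry X` has two points (the sphere does), so `exists_two_rays` gives `γ₁, γ₂` from `o`, not
asymptotic, `gp_bdd` gives `M ≥ 0`. Let `K` be as in `hC.cocpt`, in a ball `closedBall o D₀`. If
`pt v` is in no horoball: there is `g` with `g • pt v ∈ K`, so `dist (pt v) (g⁻¹ • o) ≤ D₀`, and `visual`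
(`φ x = g⁻¹ • x`) gives a ray `γ` from `o` with `min (dist o (pt v) - 2 D₀ - M - δ) t - δ ≤ gp o (pt v) (γ t)`;
put `π v = bp h γ`. For another ray `γ'` from `o` with `bp h γ' = π v`: `asym_close`, `gp_point`:
subtract `4 δ`. If `pt v ∈ B ∈ 𝓗`, `B = HB γ c` (choice depending only on `B`): `ctr B = bp h γ`,
`π v = ctr B`. For a ray `γ'` from `o` asymptotic to `γ`: `horo_gp`: `gp o (pt v) (γ s) ≥ dist o (pt v) / 2`
for `s` large, `gp_of_asym`: `gp o (γ s) (γ' s) ≥ max (dist o (pt v)) t` for `s` large, `gp_ray`: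
`gp o (γ' s) (γ' t) = t`; two uses of `gp_hyp`: `gp o (pt v) (γ' t) ≥ min (dist o (pt v) / 2) t - 2 δ`.
The third property: if `B = HB γ' c'` too then `γ, γ'` are asymptotic by `horo_asym` (`o ∉ B`). -/
theorem exists_shadow [ProperSpace X] {δ : ℝ} (hδ : Hyp4 X δ) (hG : IsGeod X) (hC : Cusped N 𝓗)
    (h : Bdry X ≃ₜ S2) {o : X} (ho : ∀ B ∈ 𝓗, o ∉ B) {V : Type*} (pt : V → X) :
    ∃ (π : V → E3) (ctr : 𝓗 → E3) (C : ℝ), (∀ v, π v ∈ S2) ∧
      (∀ (v : V) (B : 𝓗), pt v ∈ B.1 → π v = ctr B) ∧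
      (∀ (B : 𝓗) (γ : GRay X) (c : ℝ), B.1 = HB γ c → ctr B = bp h γ) ∧ Shd h o pt π C := by
  classical
  have hδ0 := hδ.1
  obtain ⟨γ₁, γ₂, k1, k2, hna⟩ := exists_two_rays hδ hG o (PiA_nontrivial h)
  obtain ⟨M, hM⟩ := gp_bdd hδ hG (o := o) hna
  obtain ⟨K, hK, hKc⟩ := hC.cocpt
  obtain ⟨D₀, hD₀⟩ := hK.isBounded.subset_closedBall o
  -- vertices outside of the horoballs
  have hA : ∀ v : V, (∀ B ∈ 𝓗, pt v ∉ B) → ∃ γ : GRay X, γ.1 0 = o ∧
      ∀ t : ℝ≥0, min (dist o (pt v) - 2 * D₀ - M - δ) t - δ ≤ gp o (pt v) (γ.1 t) := by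
    intro v hv
    obtain ⟨g, hg⟩ := hKc (pt v) hv
    refine visual hδ hG k1 k2 (fun n => hM n n) (φ := fun x => g⁻¹ • x)
      (fun x y => hC.isom g⁻¹ x y) ?_
    have h1 := hD₀ hg
    rw [Metric.mem_closedBall] at h1
    have h2 := hC.isom g (pt v) (g⁻¹ • o)
    rw [smul_inv_smul] at h2
    rw [← h2]
    exact h1
  have : Nonempty (GRay X) := ⟨γ₁⟩
  choose! γA hA0 hA1 using hA
  choose γB cB hB using fun B : 𝓗 => horo_HB hC B.2
  set ctr : 𝓗 → E3 := fun B => bp h (γB B) with hctr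
  set π : V → E3 := fun v => if hv : ∃ B : 𝓗, pt v ∈ B.1 then ctr hv.choose
    else bp h (γA v) with hπ
  have hπB : ∀ (v : V) (B : 𝓗), pt v ∈ B.1 → π v = ctr B := by
    intro v B hv
    have hex : ∃ B : 𝓗, pt v ∈ B.1 := ⟨B, hv⟩
    have h1 : hex.choose = B := by
      by_contra hne
      have h2 := hC.disj hex.choose.2 B.2 (fun h => hne (Subtype.ext h))
      exact Set.disjoint_left.1 h2 hex.choose_spec hv
    simp only [hπ]
    rw [dif_pos hex, h1]
  refine ⟨π, ctr, |2 * D₀ + M + δ| + 5 * δ, ?_, hπB, ?_, ?_⟩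
  · intro v
    simp only [hπ]
    split_ifs
    · exact bp_mem h _
    · exact bp_mem h _
  · intro B γ c hBc
    refine (bp_eq h _ _).2 (horo_asym hδ hG (o := o) (c := cB B) (c' := c) ?_ ?_)
    · rw [← hB B]
      exact ho B.1 B.2
    · rw [← hB B, hBc]
  · intro v γ h0 hγ t
    have hab := le_abs_self (2 * D₀ + M + δ)
    have hab0 := abs_nonneg (2 * D₀ + M + δ)
    have hD0 : 0 ≤ dist o (pt v) := dist_nonneg
    by_cases hv : ∃ B : 𝓗, pt v ∈ B.1
    · obtain ⟨B, hvB⟩ := hv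
      rw [hπB v B hvB] at hγ
      have ha : (asym X).r (γB B) γ := (bp_eq h _ _).1 hγ.symm
      have hoB : o ∉ HB (γB B) (cB B) := by
        rw [← hB B]
        exact ho B.1 B.2
      have hvB' : pt v ∈ HB (γB B) (cB B) := by
        rw [← hB B]
        exact hvB
      obtain ⟨s₀, hs₀⟩ := horo_gp hoB hvB'
      obtain ⟨s₁, hs₁⟩ := gp_of_asym (o := o) ha (dist o (pt v))
      set s : ℝ≥0 := max (max s₀ s₁) t with hs
      have e1 := hs₀ s ((le_max_left _ _).trans (le_max_left _ _))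
      have e2 := hs₁ s ((le_max_right _ _).trans (le_max_left _ _))
      have e3 : gp o (γ.1 s) (γ.1 t) = t := by
        rw [gp_comm]
        exact gp_ray h0 (le_max_right _ _)
      have e4 := gp_hyp' hδ e1 (show dist o (pt v) / 2 ≤ gp o ((γB B).1 s) (γ.1 s) by linarith)
      have e5 := gp_hyp hδ o (pt v) (γ.1 s) (γ.1 t)
      rw [e3] at e5
      have e6 : min (dist o (pt v) / 2) (t : ℝ) - δ ≤ min (gp o (pt v) (γ.1 s)) t := by
        refine le_min ?_ ?_
        · have := min_le_left (dist o (pt v) / 2) (t : ℝ)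
          linarith
        · have := min_le_right (dist o (pt v) / 2) (t : ℝ)
          linarith
      linarith
    · have hv' : ∀ B ∈ 𝓗, pt v ∉ B := fun B hBm hvB => hv ⟨⟨B, hBm⟩, hvB⟩
      have h1 : π v = bp h (γA v) := by
        simp only [hπ]
        rw [dif_neg hv]
      rw [h1] at hγ
      have ha : (asym X).r γ (γA v) := (bp_eq h _ _).1 hγ
      have e1 := asym_close hδ h0 (hA0 v hv') ha t
      have e2 := hA1 v hv' t
      have e3 := gp_point o ((γA v).1 t) (γ.1 t) (pt v)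
      rw [gp_comm o ((γA v).1 t), gp_comm o (γ.1 t), dist_comm] at e3
      have e4 : min (dist o (pt v) / 2) (t : ℝ) - |2 * D₀ + M + δ| ≤
          min (dist o (pt v) - 2 * D₀ - M - δ) t := by
        refine le_min ?_ ?_
        · have := min_le_left (dist o (pt v) / 2) (t : ℝ)
          linarith
        · have := min_le_right (dist o (pt v) / 2) (t : ℝ)
          linarith
      linarith

end RCan
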