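import Pool.Agent.W_04c03c_h58.PiA

/-!
# The action on the sphere at infinity
-/

namespace RCan

open Set
open scoped NNReal Pointwise

variable {N X : Type*} [Group N] [MetricSpace X] [MulAction N X]

/-- the image of a ray under an isometric action -/
def sray (hi : ∀ (g : N) (x y : X), dist (g • x) (g • y) = dist x y) (g : N) (γ : GRay X) : GRay X :=
  ⟨fun t => g • γ.1 t, Isometry.of_dist_eq fun s t => by rw [hi, γ.2.dist_eq]⟩

theorem smul_HB (hi : ∀ (g : N) (x y : X), dist (g • x) (g • y) = dist x y) (g : N) (γ : GRay X)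
    (c : ℝ) : g • HB γ c = HB (sray hi g γ) c := by
  ext x
  rw [Set.mem_smul_set_iff_inv_smul_mem]
  constructor
  · rintro ⟨t, ht⟩
    refine ⟨t, ?_⟩
    have := hi g (g⁻¹ • x) (γ.1 t)
    rw [smul_inv_smul] at this
    show dist x (g • γ.1 t) < t + c
    rw [this]; exact ht
  · rintro ⟨t, ht⟩
    refine ⟨t, ?_⟩
    have := hi g (g⁻¹ • x) (γ.1 t)
    rw [smul_inv_smul] at this
    rw [← this]; exact ht

theorem continuous_sray (hi : ∀ (g : N) (x y : X), dist (g • x) (g • y) = dist x y) (g : N) :
    Continuous (sray hi g : GRay X → GRay X) := by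
  have hg : Continuous (fun x : X => g • x) := (Isometry.of_dist_eq (hi g)).continuous
  have h1 : Continuous (fun γ : GRay X => (fun t : ℝ≥0 => g • γ.1 t)) := by
    refine continuous_pi fun t => hg.comp ?_
    have h2 : Continuous (fun γ : GRay X => γ.1) := continuous_subtype_val
    exact (continuous_apply t).comp h2
  exact Continuous.subtype_mk h1 _

theorem sray_asym (hi : ∀ (g : N) (x y : X), dist (g • x) (g • y) = dist x y) (g : N)
    {γ γ' : GRay X} (h : (asym X).r γ γ') : (asym X).r (sray hi g γ) (sray hi g γ') := by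
  obtain ⟨C, hC⟩ := h
  refine ⟨C, fun t => ?_⟩
  show dist (g • γ.1 t) (g • γ'.1 t) ≤ C
  rw [hi]
  exact hC t

/-- the induced map of the boundary -/
def bdryMap (hi : ∀ (g : N) (x y : X), dist (g • x) (g • y) = dist x y) (g : N) :
    Bdry X → Bdry X :=
  Quotient.lift (fun γ => Quotient.mk (asym X) (sray hi g γ))
    (fun _ _ hab => Quotient.sound (sray_asym hi g hab))

theorem bdryMap_mk (hi : ∀ (g : N) (x y : X), dist (g • x) (g • y) = dist x y) (g : N)
    (γ : GRay X) : bdryMap hi g (Quotient.mk (asym X) γ) = Quotient.mk (asym X) (sray hi g γ) :=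
  rfl

theorem continuous_bdryMap (hi : ∀ (g : N) (x y : X), dist (g • x) (g • y) = dist x y) (g : N) :
    Continuous (bdryMap hi g : Bdry X → Bdry X) := by
  have h1 : Continuous (fun γ : GRay X => (Quotient.mk (asym X) (sray hi g γ) : Bdry X)) := by
    have h2 : Continuous (fun γ : GRay X => (Quotient.mk (asym X) γ : Bdry X)) :=
      continuous_quot_mk
    exact h2.comp (continuous_sray hi g)
  exact Continuous.quotient_lift h1 _

/-- The group acts on the sphere at infinity by continuous maps.

Proof. The map `γ ↦ sray hi g γ` is continuous on `GRay X` (pointwise topology; `g • ·` is continuous)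
and respects `asym`, so it induces a continuous map of `Bdry X` (`Continuous.quotient_map'` or
`Continuous.quotient_lift`), hence `f : S2 → S2` continuous, uniformly continuous since `S2` is compact
(`CompactSpace.uniformContinuous_of_continuous`). `η z = f ⟨z, hz⟩` if `hz : z ∈ S2`, else `z`. -/
theorem exists_act (hi : ∀ (g : N) (x y : X), dist (g • x) (g • y) = dist x y)
    (h : Bdry X ≃ₜ S2) (g : N) : ∃ η : E3 → E3, (∀ z ∈ S2, η z ∈ S2) ∧
      (∀ ε > 0, ∃ ε' > 0, ∀ z ∈ S2, ∀ z' ∈ S2, dist z z' < ε' → dist (η z) (η z') < ε) ∧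
      ∀ γ : GRay X, η (bp h γ) = bp h (sray hi g γ) := by
  classical
  set f : S2 → S2 := fun z => h (bdryMap hi g (h.symm z)) with hf
  have hfc : Continuous f := h.continuous.comp ((continuous_bdryMap hi g).comp h.symm.continuous)
  haveI : CompactSpace S2 := isCompact_iff_compactSpace.1 (isCompact_sphere _ _)
  have hfu : UniformContinuous f := CompactSpace.uniformContinuous_of_continuous hfc
  refine ⟨fun z => if hz : z ∈ S2 then (f ⟨z, hz⟩ : E3) else z, ?_, ?_, ?_⟩
  · intro z hz
    simp only [dif_pos hz]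
    exact (f ⟨z, hz⟩).2
  · intro ε hε
    obtain ⟨ε', hε', h1⟩ := Metric.uniformContinuous_iff.1 hfu ε hε
    refine ⟨ε', hε', fun z hz z' hz' hd => ?_⟩
    simp only [dif_pos hz, dif_pos hz']
    exact h1 (a := ⟨z, hz⟩) (b := ⟨z', hz'⟩) hd
  · intro γ
    simp only [dif_pos (bp_mem h γ)]
    have h1 : (⟨bp h γ, bp_mem h γ⟩ : S2) = h (Quotient.mk (asym X) γ) := Subtype.ext rfl
    rw [h1, hf]
    show ((h (bdryMap hi g (h.symm (h (Quotient.mk (asym X) γ)))) : S2) : E3) = _
    rw [Homeomorph.symm_apply_apply, bdryMap_mk]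
    rfl

end RCan
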