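import Pool.Agent.W_04c03c_h58.PiA

/-!
# Continuity of shadows at infinity
-/

namespace RCan

open Set
open scoped NNReal Pointwise

variable {N X : Type*} [Group N] [MetricSpace X] [MulAction N X]

/-- Proof. `close_of_gp` gives `M`. Let `γ, γ'` be rays from `o` with boundary points `π v`, `π w`
(`exists_ray_bp`), `D = dist o (pt v)`, `D' = dist o (pt w) ≥ D - sc δ`, `t = D + D'`. `gp o (γ t) (pt v) ≥
D / 2 - C`, `gp o (pt v) (pt w) = (D + D' - dist) / 2 ≥ D - sc δ`, `gp o (pt w) (γ' t) ≥ D' / 2 - C`; so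
`gp o (γ t) (γ' t) ≥ min ... - 2 δ ≥ M` if `D ≥ R` is large. -/
theorem shadow_cont [ProperSpace X] {δ : ℝ} (hδ : Hyp4 X δ) (hG : IsGeod X) (h : Bdry X ≃ₜ S2)
    {o : X} {V : Type*} {pt : V → X} {π : V → E3} {C : ℝ} (hπ : ∀ v, π v ∈ S2)
    (hS : Shd h o pt π C) {ε : ℝ} (he : 0 < ε) :
    ∃ R : ℝ, ∀ v w, smr δ pt v w → R ≤ dist o (pt v) → dist (π v) (π w) < ε := by
  obtain ⟨M, hM⟩ := close_of_gp hδ h o he
  have hδ0 := hδ.1
  have hs : 0 ≤ sc δ := by
    unfold sc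
    linarith
  refine ⟨2 * (M + 2 * δ + sc δ + |C|), fun v w hvw hR => ?_⟩
  have hvw' : dist (pt v) (pt w) ≤ sc δ := hvw
  obtain ⟨γ, g0, g1⟩ := exists_ray_bp hδ hG h o (hπ v)
  obtain ⟨γ', g0', g1'⟩ := exists_ray_bp hδ hG h o (hπ w)
  set D := dist o (pt v) with hD
  set D' := dist o (pt w) with hD'
  have hD0 : 0 ≤ D := dist_nonneg
  have hD0' : 0 ≤ D' := dist_nonneg
  have hC := le_abs_self C
  have e0 : D - sc δ ≤ D' := by
    have := dist_triangle o (pt w) (pt v)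
    rw [dist_comm (pt w) (pt v)] at this
    linarith
  set t : ℝ≥0 := ⟨D + D', add_nonneg hD0 hD0'⟩ with ht
  have htc : (t : ℝ) = D + D' := rfl
  have e1 := hS v γ g0 g1 t
  have e2 := hS w γ' g0' g1' t
  rw [min_eq_left (by rw [htc]; linarith)] at e1 e2
  have e3 : D - sc δ ≤ gp o (pt v) (pt w) := by
    unfold gp
    linarith
  have f1 : D / 2 - sc δ - |C| ≤ gp o (γ.1 t) (pt v) := by
    rw [gp_comm]
    linarith
  have f2 : D / 2 - sc δ - |C| ≤ gp o (pt v) (pt w) := by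
    have := abs_nonneg C
    linarith
  have f3 : D / 2 - sc δ - |C| ≤ gp o (pt w) (γ'.1 t) := by linarith
  have f4 := gp_hyp' hδ f1 f2
  have f5 := gp_hyp' hδ f4 (show D / 2 - sc δ - |C| - δ ≤ gp o (pt w) (γ'.1 t) by linarith)
  have f6 := hM γ γ' g0 g0' t t (by linarith)
  rw [← g1, ← g1', dist_bp]
  exact f6

end RCan
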