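import Pool.Agent.W_04c03c_h58.GeoA

/-!
# Limits of rays and of segments
-/

namespace RCan

open Filter Topology
open scoped NNReal

variable {X : Type*} [MetricSpace X]

/-- auxiliary: limits of points in balls along an ultrafilter -/
theorem RayA_lim [ProperSpace X] (o : X) (𝒰 : Ultrafilter ℕ) (f : ℕ → ℝ≥0 → X)
    (h : ∀ n t, dist o (f n t) ≤ t) :
    ∃ g : ℝ≥0 → X, ∀ t, Tendsto (fun n => f n t) 𝒰 (𝓝 (g t)) := by
  have h1 : ∀ t : ℝ≥0, ∃ y, Tendsto (fun n => f n t) 𝒰 (𝓝 y) := by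
    intro t
    obtain ⟨y, _, hy⟩ := (isCompact_closedBall o (t : ℝ)).ultrafilter_le_nhds
      (𝒰.map (fun n => f n t)) (by
        rw [Ultrafilter.coe_map, Filter.le_principal_iff, Filter.mem_map]
        refine Filter.mem_of_superset Filter.univ_mem fun n _ => ?_
        rw [Set.mem_preimage, Metric.mem_closedBall, dist_comm]
        exact h n t)
    exact ⟨y, by rwa [Ultrafilter.coe_map] at hy⟩
  choose g hg using h1
  exact ⟨g, hg⟩

/-- Rays from `o` converge along an ultrafilter.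

Proof. For each `t` the points `(γ n).1 t` lie in the compact ball `closedBall o t`
(`isCompact_closedBall`), so they converge along the ultrafilter (`IsCompact.ultrafilter_le_nhds'` or
`isCompact_iff_ultrafilter_le_nhds` applied to the pushforward `𝒰.map (fun n => (γ n).1 t)`). Choose
limits `γ' t`; distances pass to the limit, so `γ'` is an isometry; convergence in `GRay X` is pointwise
(`tendsto_subtype_rng` / `Topology.IsInducing`, `tendsto_pi_nhds`). -/
theorem lim_ray [ProperSpace X] (o : X) (γ : ℕ → GRay X) (h : ∀ n, (γ n).1 0 = o)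
    (𝒰 : Ultrafilter ℕ) : ∃ γ' : GRay X, γ'.1 0 = o ∧ Tendsto γ 𝒰 (𝓝 γ') ∧
      ∀ t, Tendsto (fun n => (γ n).1 t) 𝒰 (𝓝 (γ'.1 t)) := by
  obtain ⟨g, hg⟩ := RayA_lim o 𝒰 (fun n t => (γ n).1 t) (by
    intro n t
    rw [← h n]
    show dist ((γ n).1 0) ((γ n).1 t) ≤ t
    rw [(γ n).2.dist_eq, NNReal.dist_eq]
    simp)
  have hiso : Isometry g := by
    refine Isometry.of_dist_eq fun s t => ?_
    have h1 : Tendsto (fun n => dist ((γ n).1 s) ((γ n).1 t)) 𝒰 (𝓝 (dist (g s) (g t))) :=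
      (hg s).dist (hg t)
    have h2 : (fun n => dist ((γ n).1 s) ((γ n).1 t)) = fun _ => dist s t := by
      funext n
      exact (γ n).2.dist_eq s t
    rw [h2] at h1
    exact tendsto_nhds_unique h1 tendsto_const_nhds
  refine ⟨⟨g, hiso⟩, ?_, ?_, hg⟩
  · have h1 := hg 0
    have h2 : (fun n => (γ n).1 0) = fun _ => o := funext h
    rw [h2] at h1
    exact tendsto_nhds_unique h1 tendsto_const_nhds
  · exact tendsto_subtype_rng.2 (tendsto_pi_nhds.2 hg)

/-- Segments from `o` to points going to infinity accumulate at a ray.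

Proof. Let `c n : ℝ → X` be a geodesic from `o` to `x n` (`hG`), and `𝒰 = hyperfilter ℕ` (`≤ atTop`, i.e.
`Filter.Ultrafilter` with `Nat.hyperfilter_le_atTop`). For `t : ℝ≥0` and all `n` with
`t ≤ dist o (x n)` (eventually) `y = c n t` has `dist o y = t`, `dist y (x n) = dist o (x n) - t`; these
points lie in the compact ball `closedBall o t` (replace `c n t` by `o` for the other `n`). Take the
limits `γ' t` along `𝒰` as in `lim_ray`: for `s, t` and eventually all `n`:
`dist (c n s) (c n t) = |s - t|`. `γ' 0 = o`. Given `ε` and `m`, the set of `n ≥ m` with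
`t ≤ dist o (x n)` and `dist (c n t) (γ' t) < ε` is in `𝒰`, so nonempty. -/
theorem lim_seg [ProperSpace X] (hG : IsGeod X) (o : X) (x : ℕ → X)
    (h : Tendsto (fun n => dist o (x n)) atTop atTop) :
    ∃ γ' : GRay X, γ'.1 0 = o ∧ ∀ (t : ℝ≥0) (ε : ℝ), 0 < ε → ∀ m : ℕ, ∃ n, m ≤ n ∧
      ∃ y, dist o y = t ∧ dist y (x n) = dist o (x n) - t ∧ dist y (γ'.1 t) < ε := by
  choose c hc0 hc1 hc2 using fun n => hG o (x n)
  have hU : ((Filter.hyperfilter ℕ : Ultrafilter ℕ) : Filter ℕ) ≤ atTop :=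
    Nat.hyperfilter_le_atTop
  have hco : ∀ n (t : ℝ≥0), (t : ℝ) ≤ dist o (x n) → dist o (c n t) = t := by
    intro n t ht
    have h1 := hc2 n 0 ⟨le_refl _, dist_nonneg⟩ t ⟨t.2, ht⟩
    rw [hc0] at h1
    rw [h1, zero_sub, abs_neg, NNReal.abs_eq]
  obtain ⟨g, hg⟩ := RayA_lim o (Filter.hyperfilter ℕ)
    (fun n t => if (t : ℝ) ≤ dist o (x n) then c n t else o) (by
      intro n t
      split_ifs with h1
      · exact (hco n t h1).le
      · rw [dist_self]
        exact t.2)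
  have hev : ∀ t : ℝ≥0, ∀ᶠ n in ((Filter.hyperfilter ℕ : Ultrafilter ℕ) : Filter ℕ),
      (t : ℝ) ≤ dist o (x n) := fun t => hU (h.eventually_ge_atTop (t : ℝ))
  have hg' : ∀ t : ℝ≥0, Tendsto (fun n => c n t)
      ((Filter.hyperfilter ℕ : Ultrafilter ℕ) : Filter ℕ) (𝓝 (g t)) := by
    intro t
    refine (hg t).congr' ?_
    filter_upwards [hev t] with n hn
    rw [if_pos hn]
  have hiso : Isometry g := by
    refine Isometry.of_dist_eq fun s t => ?_
    have h1 : Tendsto (fun n => dist (c n s) (c n t))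
        ((Filter.hyperfilter ℕ : Ultrafilter ℕ) : Filter ℕ) (𝓝 (dist (g s) (g t))) :=
      (hg' s).dist (hg' t)
    have h2 : (fun n => dist (c n s) (c n t)) =ᶠ[((Filter.hyperfilter ℕ : Ultrafilter ℕ) :
        Filter ℕ)] fun _ => dist s t := by
      filter_upwards [hev s, hev t] with n hs ht
      rw [hc2 n s ⟨s.2, hs⟩ t ⟨t.2, ht⟩, NNReal.dist_eq]
    exact tendsto_nhds_unique (h1.congr' h2) tendsto_const_nhds
  refine ⟨⟨g, hiso⟩, ?_, ?_⟩
  · have h1 := hg' 0
    have h2 : (fun n => c n ((0 : ℝ≥0) : ℝ)) = fun _ => o := by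
      funext n
      rw [NNReal.coe_zero]
      exact hc0 n
    rw [h2] at h1
    exact tendsto_nhds_unique h1 tendsto_const_nhds
  · intro t ε hε m
    have h1 : ∀ᶠ n in ((Filter.hyperfilter ℕ : Ultrafilter ℕ) : Filter ℕ),
        dist (c n t) (g t) < ε := (Metric.tendsto_nhds.1 (hg' t)) ε hε
    have h2 : ∀ᶠ n in ((Filter.hyperfilter ℕ : Ultrafilter ℕ) : Filter ℕ), m ≤ n :=
      hU (eventually_ge_atTop m)
    obtain ⟨n, ⟨ha, hb⟩, hc⟩ := ((h1.and h2).and (hev t)).exists
    refine ⟨n, hb, c n t, hco n t hc, ?_, ha⟩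
    have h3 := hc2 n t ⟨t.2, hc⟩ (dist o (x n)) ⟨dist_nonneg, le_refl _⟩
    rw [hc1] at h3
    rw [h3, abs_sub_comm, abs_of_nonneg (sub_nonneg.2 hc)]

end RCan
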