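import Pool.Agent.W_04c03c_h58.RayA

/-!
# Existence of rays from a base point
-/

namespace RCan

open Filter Topology
open scoped NNReal

variable {X : Type*} [MetricSpace X] {δ : ℝ}

/-- Points going to infinity with large Gromov products: a limit ray keeps the Gromov products.

Proof. `lim_seg`. Let `a ≤ gp o v (x n)` for all `n`; for `ε > 0` take `n, y` with `dist y (γ' t) < ε`;
`gp o (x n) y = t`, so `gp o v y ≥ min a t - δ` (`gp_hyp`), and `gp o v (γ' t) ≥ gp o v y - ε`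
(`gp_point`, `gp_comm`). Let `ε → 0`. -/
theorem exists_ray_gp [ProperSpace X] (hδ : Hyp4 X δ) (hG : IsGeod X) (o : X) (x : ℕ → X)
    (h : Tendsto (fun n => dist o (x n)) atTop atTop) :
    ∃ γ' : GRay X, γ'.1 0 = o ∧ ∀ (v : X) (a : ℝ), (∀ n, a ≤ gp o v (x n)) →
      ∀ t : ℝ≥0, min a t - δ ≤ gp o v (γ'.1 t) := by
  obtain ⟨γ', h0, hγ⟩ := lim_seg hG o x h
  refine ⟨γ', h0, fun v a ha t => ?_⟩
  refine le_of_forall_pos_le_add fun ε hε => ?_
  obtain ⟨n, -, y, hy1, hy2, hy3⟩ := hγ t ε hε 0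
  have h1 : gp o (x n) y = t := by
    unfold gp
    rw [hy1, dist_comm (x n) y, hy2]
    ring
  have h2 := gp_hyp hδ o v (x n) y
  rw [h1] at h2
  have h3 := gp_point o y (γ'.1 t) v
  rw [gp_comm o y v, gp_comm o (γ'.1 t) v] at h3
  have h4 : min a (t : ℝ) ≤ min (gp o v (x n)) t := min_le_min_right _ (ha n)
  linarith

/-- For every ray there is an asymptotic ray from `o`.

Proof. `lim_seg` for `x n = γ n`: let `D = dist o (γ 0)`. For `t`, take (with `ε = 1` and `n ≥ t`) `y`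
with `dist o y = t`, `dist y (γ n) = dist o (γ n) - t`, `dist y (γ' t) < 1`. The four point condition for
`y, γ t, o, γ n` (i.e. `dist y (γ t) + dist o (γ n) ≤ max (dist y o + dist (γ t) (γ n))
(dist y (γ n) + dist (γ t) o) + 2 δ`) gives `dist y (γ t) ≤ max (t + (n - t) - dist o (γ n))
(dist (γ t) o - t) + 2 δ ≤ D + 2 δ`. So `dist (γ' t) (γ t) ≤ D + 2 δ + 1`. -/
theorem exists_ray_from [ProperSpace X] (hδ : Hyp4 X δ) (hG : IsGeod X) (o : X) (γ : GRay X) :
    ∃ γ' : GRay X, γ'.1 0 = o ∧ (asym X).r γ' γ := by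
  have hx : Tendsto (fun n : ℕ => dist o (γ.1 n)) atTop atTop := by
    have h1 : ∀ n : ℕ, (n : ℝ) - dist o (γ.1 0) ≤ dist o (γ.1 n) := by
      intro n
      have h2 : dist (γ.1 0) (γ.1 n) = n := by
        rw [γ.2.dist_eq, NNReal.dist_eq]
        simp
      have h3 := dist_triangle (γ.1 0) o (γ.1 n)
      rw [h2, dist_comm (γ.1 0) o] at h3
      linarith
    exact tendsto_atTop_mono h1 (tendsto_atTop_add_const_right _ _ tendsto_natCast_atTop_atTop)
  obtain ⟨γ', h0, hγ⟩ := lim_seg hG o (fun n : ℕ => γ.1 n) hx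
  refine ⟨γ', h0, dist o (γ.1 0) + 2 * δ + 1, fun t => ?_⟩
  obtain ⟨n, hn, y, hy1, hy2, hy3⟩ := hγ t 1 one_pos ⌈(t : ℝ)⌉₊
  have htn : (t : ℝ) ≤ n := (Nat.le_ceil _).trans (by exact_mod_cast hn)
  have h4 := hδ.2 y (γ.1 t) o (γ.1 n)
  have h5 : dist (γ.1 t) (γ.1 n) = n - t := by
    rw [γ.2.dist_eq, NNReal.dist_eq, abs_sub_comm, abs_of_nonneg]
    · simp
    · simpa using htn
  have h6 : dist (γ.1 t) o ≤ t + dist o (γ.1 0) := by
    have h7 := dist_triangle (γ.1 t) (γ.1 0) o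
    have h8 : dist (γ.1 t) (γ.1 0) = t := by
      rw [γ.2.dist_eq, NNReal.dist_eq]
      simp
    rw [h8, dist_comm (γ.1 0) o] at h7
    exact h7
  have h9 : (n : ℝ) - dist o (γ.1 0) ≤ dist o (γ.1 n) := by
    have h2 : dist (γ.1 0) (γ.1 n) = n := by
      rw [γ.2.dist_eq, NNReal.dist_eq]
      simp
    have h3 := dist_triangle (γ.1 0) o (γ.1 n)
    rw [h2, dist_comm (γ.1 0) o] at h3
    linarith
  have h10 : dist y (γ.1 t) ≤ dist o (γ.1 0) + 2 * δ := by
    rw [dist_comm y o, hy1, h5, hy2] at h4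
    rcases max_cases ((t : ℝ) + (n - t)) (dist o (γ.1 n) - t + dist (γ.1 t) o) with ⟨h11, _⟩ | ⟨h11, _⟩
    · rw [h11] at h4
      linarith
    · rw [h11] at h4
      linarith
  have h12 := dist_triangle (γ'.1 t) y (γ.1 t)
  rw [dist_comm (γ'.1 t) y] at h12
  linarith

end RCan
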