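import Pool.Agent.W_04c03c_h58.AsA

/-!
# Unit spheres of subspaces
-/

namespace RCan

open RealInnerProductSpace

variable {E : Type*} [NormedAddCommGroup E] [InnerProductSpace ℝ E]

/-- the unit sphere of a subspace -/
def Sph (L : Submodule ℝ E) : Set E := {x | x ∈ L ∧ ‖x‖ = 1}

end RCan
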