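import Pool.Agent.W_04c03c_h58.AlgB

/-!
# The interface for subgroups of arbitrary index
-/

namespace RCan

open MulAction

/-- The interface, without finiteness modulo the group. -/
structure WFace (Γ Ξ V : Type*) [Group Γ] [MulAction Γ Ξ] [MulAction Γ V] (sm : V → V → Prop)
    (cusp : V → Option Ξ) : Prop where
  refl : ∀ v, sm v v
  symm : ∀ v w, sm v w → sm w v
  smul_sm : ∀ (g : Γ) (v w : V), sm v w → sm (g • v) (g • w)
  cusp_smul : ∀ (g : Γ) (v : V), cusp (g • v) = (cusp v).map (fun ξ => g • ξ)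
  ex : ∀ ξ : Ξ, ∃ v, cusp v = some ξ
  free : ∀ (g : Γ) (v : V), g • v = v → g = 1
  conn : ∀ (ξ : Ξ) (v w : V), cusp v = some ξ → cusp w = some ξ →
    Relation.ReflTransGen (fun a b => sm a b ∧ cusp a = some ξ ∧ cusp b = some ξ) v w
  dis : ∃ (rk : V → ℕ) (ps : V → V), Dis sm rk ps
  ne : Nonempty V
  /-- the relative lists through a vertex have entries in a finite set -/
  lf : ∀ v, ∃ F : Set V, F.Finite ∧ ∀ l, Rl sm cusp l → v ∈ l → ∀ x ∈ l, x ∈ F
  /-- the relative simplices have bounded dimension -/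
  bdd : ∃ M : ℕ, ∀ l : List V, l.Nodup → Rl sm cusp l → l.length ≤ M
  h2 : ∀ (k : Type) [Field k] (f : List V → k), IsD sm cusp k 2 f → cr sm f = 0 →
    ∃ e, IsD sm cusp k 1 e ∧ cr sm e = f
  hn : ∀ (k : Type) [Field k] (n : ℕ), 3 ≤ n → ∀ (f : List V → k), IsD sm cusp k (n + 1) f →
    cr sm f = 0 → ∃ e, IsD sm cusp k n e ∧ cr sm e = f
  h3 : ∃ z : List V → ℤ, IsD sm cusp ℤ 3 z ∧ cr sm z = 0 ∧
    (∀ (k : Type) [Field k] (f : List V → k), IsD sm cusp k 3 f → cr sm f = 0 →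
      ∃ (c : k) (e : List V → k), IsD sm cusp k 2 e ∧ (fun l => f l - c * (z l : k)) = cr sm e) ∧
    (∀ g : Γ, ∃ (m : ℤ) (e : List V → ℤ), IsD sm cusp ℤ 2 e ∧
      (fun l => z (l.map (fun x => g⁻¹ • x)) - m * z l) = cr sm e)

/-- The cusp `ξ` is full: the relative lists which touch it are finite modulo its stabilizer. -/
def WFull (Γ : Type*) {Ξ V : Type*} [Group Γ] [MulAction Γ Ξ] [MulAction Γ V] (sm : V → V → Prop)
    (cusp : V → Option Ξ) (ξ : Ξ) : Prop :=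
  ∃ F : Set V, F.Finite ∧ ∀ l, Rl sm cusp l → (∃ x ∈ l, cusp x = some ξ) →
    ∃ g ∈ stabilizer Γ ξ, ∀ x ∈ l, g • x ∈ F

section

variable {N Ξ V : Type*} [Group N] [MulAction N Ξ] [MulAction N V] {sm : V → V → Prop}
  {cusp : V → Option Ξ}

/-- Proof. Most fields are clear (an element of `Γ` acts as an element of `N`). `lf`: let `F` be as in
`hF.fin` and `v` a vertex. If `l` is relative and `v ∈ l` there is `g` with `g • x ∈ F` for `x ∈ l`; in
particular `g • v ∈ F`, so `g` is in the finite set `{g | g • v ∈ F}` (`hF.free`: `g` is determined by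
`g • v`), and `x ∈ g⁻¹ • F`; take the finite union of the `g⁻¹ • F`. `bdd`: `M = F.ncard`: the map
`x ↦ g • x` is injective from the entries of `l` to `F` (`l.Nodup`, `List.Nodup.length_le_card` or
`Finset.card_le_card` for `toFinset`). -/
theorem Face.toW (hF : Face N Ξ V sm cusp) (Γ : Subgroup N) : WFace Γ Ξ V sm cusp := by
  classical
  obtain ⟨F, hFf, hFl⟩ := hF.fin
  refine ⟨hF.refl, hF.symm, fun g => hF.smul_sm (g : N), fun g => hF.cusp_smul (g : N), hF.ex,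
    fun g v h => Subtype.ext (hF.free (g : N) v h), hF.conn, hF.dis, hF.ne, ?_, ?_, hF.h2, hF.hn, ?_⟩
  · intro v
    have h1 : ({g : N | g • v ∈ F} : Set N).Finite := by
      refine Set.Finite.preimage ?_ hFf
      intro g _ g' _ h
      have h' : g • v = g' • v := h
      have h2 : (g'⁻¹ * g) • v = v := by
        rw [mul_smul, h', inv_smul_smul]
      have h3 := hF.free _ _ h2
      rw [inv_mul_eq_one] at h3
      exact h3.symm
    refine ⟨⋃ g ∈ {g : N | g • v ∈ F}, {x : V | g • x ∈ F}, ?_, ?_⟩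
    · refine h1.biUnion (fun g _ => ?_)
      exact Set.Finite.preimage (MulAction.injective g).injOn hFf
    · intro l hl hv x hx
      obtain ⟨g, hg⟩ := hFl l hl
      exact Set.mem_biUnion (x := g) (hg v hv) (hg x hx)
  · refine ⟨hFf.toFinset.card, fun l hl hr => ?_⟩
    obtain ⟨g, hg⟩ := hFl l hr
    have h1 : (l.map (fun x => g • x)).Nodup := hl.map (MulAction.injective g)
    have h2 : (l.map (fun x => g • x)).toFinset ⊆ hFf.toFinset := by
      intro x hx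
      rw [List.mem_toFinset, List.mem_map] at hx
      obtain ⟨y, hy, rfl⟩ := hx
      exact hFf.mem_toFinset.2 (hg y hy)
    have h3 := Finset.card_le_card h2
    rw [List.toFinset_card_of_nodup h1, List.length_map] at h3
    exact h3
  · obtain ⟨z, h1, h2, h3, h4⟩ := hF.h3
    exact ⟨z, h1, h2, h3, fun g => h4 (g : N)⟩

/-- Proof. Let `F` be as in `hF.fin`. For each of the finitely many `ζ : Ξ` with `cusp x = some ζ` for
some `x ∈ F` and `ζ` in the orbit of `ξ` choose `a_ζ : N` with `a_ζ • ζ = ξ`. If `l` is relative and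
touches `ξ` (`x₀ ∈ l`, `cusp x₀ = some ξ`) and `g • x ∈ F` for `x ∈ l`, then `ζ = g • ξ = cusp (g • x₀)` is
one of these, and `b = a_ζ * g ∈ stabilizer N ξ`, `b • x ∈ a_ζ • F`. So `ξ` is full for `N` with
`F' = ⋃ a_ζ • F`. For `Γ`: the subgroup `Γ ⊓ stabilizer N ξ` has finite index in `stabilizer N ξ`: there
is a finite set `T ⊆ stabilizer N ξ` such that every `b` is `t * c` with `c ∈ Γ`, `c • ξ = ξ` (`T` =
representatives of the cosets `b (Γ ⊓ ..)`), so `c • x = t⁻¹ • (b • x) ∈ t⁻¹ • F'`, `F'' = ⋃ t⁻¹ • F'`. -/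
theorem Face.full (hF : Face N Ξ V sm cusp) (Γ : Subgroup N) (ξ : Ξ)
    (h : (Γ.subgroupOf (stabilizer N ξ)).index ≠ 0) : WFull Γ sm cusp ξ := by
  classical
  obtain ⟨F, hFf, hFl⟩ := hF.fin
  obtain ⟨a, ha⟩ : ∃ a : Ξ → N, ∀ ζ, (∃ b : N, b • ζ = ξ) → a ζ • ζ = ξ := by
    refine ⟨fun ζ => if h : ∃ b : N, b • ζ = ξ then h.choose else 1, fun ζ hζ => ?_⟩
    simp only [dif_pos hζ]
    exact hζ.choose_spec
  obtain ⟨C, hC⟩ : ∃ C : Set Ξ, C = {ζ | ∃ x ∈ F, cusp x = some ζ} := ⟨_, rfl⟩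
  have hCf : C.Finite := by
    have h1 : (cusp '' F).Finite := hFf.image cusp
    have h2 : (some ⁻¹' (cusp '' F) : Set Ξ).Finite :=
      Set.Finite.preimage (Option.some_injective Ξ).injOn h1
    refine h2.subset ?_
    rw [hC]
    rintro ζ ⟨x, hx, hxζ⟩
    exact ⟨x, hx, hxζ⟩
  have hfi : ((Γ.subgroupOf (stabilizer N ξ))).FiniteIndex := ⟨h⟩
  have hfq : Finite ((stabilizer N ξ) ⧸ (Γ.subgroupOf (stabilizer N ξ))) :=
    Subgroup.finite_quotient_of_finiteIndex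
  refine ⟨⋃ q : (stabilizer N ξ) ⧸ (Γ.subgroupOf (stabilizer N ξ)),
    (fun x => ((q.out : stabilizer N ξ) : N)⁻¹ • x) '' (⋃ ζ ∈ C, (fun x => a ζ • x) '' F), ?_, ?_⟩
  · refine Set.finite_iUnion fun q => Set.Finite.image _ ?_
    exact hCf.biUnion fun ζ _ => hFf.image _
  · rintro l hl ⟨x₀, hx₀, hcx⟩
    obtain ⟨g, hg⟩ := hFl l hl
    have hζ : cusp (g • x₀) = some (g • ξ) := by
      rw [hF.cusp_smul, hcx]
      rfl
    have hζC : g • ξ ∈ C := by
      rw [hC]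
      exact ⟨_, hg x₀ hx₀, hζ⟩
    have haζ : a (g • ξ) • (g • ξ) = ξ := ha _ ⟨g⁻¹, inv_smul_smul g ξ⟩
    have hb : a (g • ξ) * g ∈ stabilizer N ξ := by
      rw [mem_stabilizer_iff, mul_smul]
      exact haζ
    obtain ⟨b, hbdef⟩ : ∃ b : stabilizer N ξ, b = ⟨a (g • ξ) * g, hb⟩ := ⟨_, rfl⟩
    obtain ⟨q, hq⟩ : ∃ q : (stabilizer N ξ) ⧸ (Γ.subgroupOf (stabilizer N ξ)), q = QuotientGroup.mk b :=
      ⟨_, rfl⟩
    have hc : (q.out)⁻¹ * b ∈ Γ.subgroupOf (stabilizer N ξ) := by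
      rw [← QuotientGroup.eq, QuotientGroup.out_eq', hq]
    rw [Subgroup.mem_subgroupOf] at hc
    have hcs : ((q.out)⁻¹ * b : stabilizer N ξ) • ξ = ξ := ((q.out)⁻¹ * b).2
    refine ⟨⟨_, hc⟩, ?_, ?_⟩
    · rw [mem_stabilizer_iff]
      exact hcs
    · intro x hx
      refine Set.mem_iUnion.2 ⟨q, ⟨a (g • ξ) • (g • x), ?_, ?_⟩⟩
      · exact Set.mem_biUnion hζC ⟨g • x, hg x hx, rfl⟩
      · show ((q.out : stabilizer N ξ) : N)⁻¹ • (a (g • ξ) • (g • x)) =
          (((q.out)⁻¹ * b : stabilizer N ξ) : N) • x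
        rw [hbdef, ← mul_smul, ← mul_smul, mul_assoc]
        rfl

end

section

variable {Γ Ξ V : Type*} [Group Γ] [MulAction Γ Ξ] [MulAction Γ V] {sm : V → V → Prop}
  {cusp : V → Option Ξ}

theorem WFace.sub (hF : WFace Γ Ξ V sm cusp) (Γ' : Subgroup Γ) : WFace Γ' Ξ V sm cusp where
  refl := hF.refl
  symm := hF.symm
  smul_sm := fun g => hF.smul_sm (g : Γ)
  cusp_smul := fun g => hF.cusp_smul (g : Γ)
  ex := hF.ex
  free := fun g v h => Subtype.ext (hF.free (g : Γ) v h)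
  conn := hF.conn
  dis := hF.dis
  ne := hF.ne
  lf := hF.lf
  bdd := hF.bdd
  h2 := hF.h2
  hn := hF.hn
  h3 := by
    obtain ⟨z, h1, h2, h3, h4⟩ := hF.h3
    exact ⟨z, h1, h2, h3, fun g => h4 (g : Γ)⟩

/-- The stabilizer of a full cusp, as a group of its own. -/
theorem WFull.stab {ξ : Ξ} (h : WFull Γ sm cusp ξ) : WFull (stabilizer Γ ξ) sm cusp ξ := by
  obtain ⟨F, hF, h1⟩ := h
  refine ⟨F, hF, fun l hl hx => ?_⟩
  obtain ⟨g, hg, h2⟩ := h1 l hl hx
  exact ⟨⟨g, hg⟩, hg, h2⟩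

/-- Proof. Only the finiteness of the support is not contained in `IsR.cr`: a list `l` with
`cr sm f l ≠ 0` is relative of length `n + 2` and has a face `l'` in the support of `f` (`dl_eq_zero`), of
length `n + 1 ≥ 1`; let `v ∈ l'`. There are finitely many such `v`, and the entries of `l` are in the finite
set of `hF.lf v`. (Compare `IsD.cr` in `AlgA.lean`.) -/
theorem IsD.crW {k : Type*} [AddCommGroup k] (hF : WFace Γ Ξ V sm cusp) {n : ℕ} {f : List V → k}
    (hf : IsD sm cusp k n f) : IsD sm cusp k (n + 1) (RCan.cr sm f) := by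
  classical
  have hR : IsR sm cusp k (n + 1) (RCan.cr sm f) := IsR.cr ⟨hf.alt, hf.len, hf.rl⟩
  refine ⟨hR.alt, hR.len, hR.rl, ?_⟩
  choose F hFf hFl using hF.lf
  have hY : (⋃ l ∈ Function.support f, {y | y ∈ l} : Set V).Finite :=
    hf.fin.biUnion (fun l _ => List.finite_toSet l)
  refine (hY.biUnion (t := fun y => {l : List V | (∀ x ∈ l, x ∈ F y) ∧ l.length = n + 1 + 1})
    fun y _ => AlgB_finite_lists (hFf y) _).subset ?_
  intro l hl
  have hrl := hR.rl l hl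
  have hlen := hR.len l hl
  obtain ⟨l', hl'1, hl'2, hl'3⟩ : ∃ l' : List V, l'.Sublist l ∧ l'.length + 1 = l.length ∧
      f l' ≠ 0 := by
    by_contra hcon
    push Not at hcon
    apply hl
    unfold RCan.cr
    split_ifs
    · exact dl_eq_zero l hcon
    · rfl
  have h4 := hf.len l' hl'3
  obtain ⟨y, hy⟩ : ∃ y, y ∈ l' := List.exists_mem_of_length_pos (by omega)
  exact Set.mem_biUnion (x := y) (Set.mem_biUnion (x := l') hl'3 hy)
    ⟨fun x hx => hFl y l hrl (hl'1.subset hy) x hx, hlen⟩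

/-- translation on `DSub` -/
def trW (hF : WFace Γ Ξ V sm cusp) (k : Type*) [Field k] (n : ℕ) (g : Γ) :
    DSub sm cusp k n →ₗ[k] DSub sm cusp k n where
  toFun f := ⟨tr g f.1, IsD.tr hF.smul_sm hF.cusp_smul f.2 g⟩
  map_add' _ _ := rfl
  map_smul' _ _ := rfl

/-- the coboundary on `DSub` -/
noncomputable def crW (hF : WFace Γ Ξ V sm cusp) (k : Type*) [Field k] (n : ℕ) :
    DSub sm cusp k n →ₗ[k] DSub sm cusp k (n + 1) where
  toFun f := ⟨cr sm f.1, IsD.crW hF f.2⟩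
  map_add' f g := Subtype.ext (cr_add f.1 g.1)
  map_smul' c f := by
    apply Subtype.ext
    funext l
    show cr sm (c • f.1) l = c • cr sm f.1 l
    unfold cr
    split_ifs
    · exact dl_smul c l f.1
    · simp

theorem trW_coe (hF : WFace Γ Ξ V sm cusp) {k : Type*} [Field k] {n : ℕ} (g : Γ)
    (f : DSub sm cusp k n) : (trW hF k n g f).1 = tr g f.1 := rfl

theorem crW_coe (hF : WFace Γ Ξ V sm cusp) {k : Type*} [Field k] {n : ℕ}
    (f : DSub sm cusp k n) : (crW hF k n f).1 = cr sm f.1 := rfl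

theorem trW_mul (hF : WFace Γ Ξ V sm cusp) {k : Type*} [Field k] {n : ℕ} (g h : Γ)
    (f : DSub sm cusp k n) : trW hF k n (g * h) f = trW hF k n g (trW hF k n h f) :=
  Subtype.ext (tr_mul g h f.1)

theorem trW_one (hF : WFace Γ Ξ V sm cusp) {k : Type*} [Field k] {n : ℕ}
    (f : DSub sm cusp k n) : trW hF k n 1 f = f :=
  Subtype.ext (tr_one f.1)

theorem crW_trW (hF : WFace Γ Ξ V sm cusp) {k : Type*} [Field k] {n : ℕ} (g : Γ)
    (f : DSub sm cusp k n) : crW hF k n (trW hF k n g f) = trW hF k (n + 1) g (crW hF k n f) :=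
  Subtype.ext (cr_tr hF.smul_sm g f.1)

theorem crW_crW (hF : WFace Γ Ξ V sm cusp) {k : Type*} [Field k] {n : ℕ} (f : DSub sm cusp k n) :
    crW hF k (n + 1) (crW hF k n f) = 0 :=
  Subtype.ext (cr_cr f.1)

/-- vanishing of the cohomology in degree `n + 1` for `n = 1` and `n ≥ 3` -/
theorem exists_crW (hF : WFace Γ Ξ V sm cusp) (k : Type) [Field k] {n : ℕ} (hn : n = 1 ∨ 3 ≤ n)
    (f : DSub sm cusp k (n + 1)) (hf : crW hF k (n + 1) f = 0) :
    ∃ e : DSub sm cusp k n, crW hF k n e = f := by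
  have h0 : cr sm f.1 = 0 := congrArg Subtype.val hf
  rcases hn with rfl | hn
  · obtain ⟨e, he, h⟩ := hF.h2 k f.1 f.2 h0
    exact ⟨⟨e, he⟩, Subtype.ext h⟩
  · obtain ⟨e, he, h⟩ := hF.hn k n hn f.1 f.2 h0
    exact ⟨⟨e, he⟩, Subtype.ext h⟩

end

end RCan
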