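import Pool.Agent.W_04c03c_h58.WfA
import Pool.Agent.W_04c03c_h58.AlgC

/-!
# Equivariant bases
-/

namespace RCan

variable {Γ Ξ V : Type*} [Group Γ] [MulAction Γ Ξ] [MulAction Γ V] {sm : V → V → Prop}
  {cusp : V → Option Ξ}

/-- Representatives, possibly infinite in number. -/
theorem WfB_exists_reps (hF : WFace Γ Ξ V sm cusp) (hT : TFree Γ) (n : ℕ) :
    ∃ (R : Set (List V)),
      (∀ s ∈ R, s.Nodup ∧ Rl sm cusp s ∧ s.length = n + 1) ∧
      ∀ l : List V, l.Nodup → Rl sm cusp l → l.length = n + 1 →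
        ∃ s ∈ R, ∃ g : Γ, l.Perm (s.map (fun x => g • x)) ∧
          ∀ s' ∈ R, ∀ g' : Γ, l.Perm (s'.map (fun x => g' • x)) → s' = s ∧ g' = g := by
  classical
  set S : Setoid (List V) := AlgB_setoid Γ V with hS
  set rep : List V → List V := fun l => (Quotient.mk S l).out with hrep
  have rep_rel : ∀ l, ∃ g : Γ, (rep l).Perm (l.map (fun x => g • x)) := fun l =>
    Quotient.mk_out (s := S) l
  have rep_eq : ∀ l l' : List V, (∃ g : Γ, l.Perm (l'.map (fun x => g • x))) → rep l = rep l' :=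
    fun l l' h => congrArg Quotient.out (Quotient.sound (s := S) h)
  have hinv : ∀ (l : List V) (g : Γ), (l.Nodup ∧ Rl sm cusp l ∧ l.length = n + 1) →
      ((l.map (fun x => g • x)).Nodup ∧ Rl sm cusp (l.map (fun x => g • x)) ∧
        (l.map (fun x => g • x)).length = n + 1) := by
    intro l g hl
    refine ⟨hl.1.map (MulAction.injective g), ⟨(sml_smul hF.smul_sm g l).2 hl.2.1.1, fun h =>
      hl.2.1.2 ((inC_smul hF.cusp_smul g l).1 h)⟩, ?_⟩
    rw [List.length_map]
    exact hl.2.2
  have hperm : ∀ l l' : List V, l.Perm l' → (l.Nodup ∧ Rl sm cusp l ∧ l.length = n + 1) →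
      (l'.Nodup ∧ Rl sm cusp l' ∧ l'.length = n + 1) := by
    intro l l' h hl
    exact ⟨h.nodup_iff.1 hl.1, AlgB_Rl_perm h hl.2.1, h.length_eq ▸ hl.2.2⟩
  refine ⟨rep '' {l : List V | l.Nodup ∧ Rl sm cusp l ∧ l.length = n + 1}, ?_, ?_⟩
  · rintro s ⟨l, hl', rfl⟩
    obtain ⟨g, hg⟩ := rep_rel l
    exact hperm _ _ hg.symm (hinv l g hl')
  · intro l hl1 hl2 hl3
    obtain ⟨b, hb⟩ := rep_rel l
    have hb' : l.Perm ((rep l).map (fun x => b⁻¹ • x)) := by
      have h1 := hb.map (fun x => b⁻¹ • x)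
      rw [map_smul_smul, inv_mul_cancel, map_one_smul] at h1
      exact h1.symm
    refine ⟨rep l, ⟨l, ⟨hl1, hl2, hl3⟩, rfl⟩, b⁻¹, hb', ?_⟩
    rintro s' ⟨l2, hl2', rfl⟩ g' hg'
    have h1 : rep l2 = rep l := by
      rw [rep_eq l (rep l2) ⟨g', hg'⟩]
      obtain ⟨c, hc⟩ := rep_rel l2
      exact (rep_eq (rep l2) l2 ⟨c, hc⟩).symm
    refine ⟨h1, ?_⟩
    rw [h1] at hg'
    have hlen : (rep l) ≠ [] := by
      intro h0
      have h2 := hb'.length_eq
      rw [h0, hl3] at h2
      simp at h2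
    exact AlgB_unique hF.free hT hlen (hg'.symm.trans hb')

/-- An equivariant basis. This is `exists_basis` (`AlgC.lean`) with a possibly infinite set `R` of
representatives: copy the proofs of `exists_reps` (`AlgB.lean`) and `exists_basis`, using `R` = the set of
all `rep l`, `l` relative without repeated entries of length `n + 1`, instead of a finite set (the
finiteness of `R` was only used to have a `Finset`; in `exists_basis` sums over `R` are to be replaced by
sums over the finitely many coordinates which are not zero, or use `Basis.ofRepr` /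
`Module.Basis.mk` with linear independence and span). -/
theorem exists_basisW (hF : WFace Γ Ξ V sm cusp) (hT : TFree Γ) (k : Type*) [Field k] (n : ℕ) :
    ∃ (R : Set (List V)) (b : Module.Basis (R × Γ) k (DSub sm cusp k n)),
      (∀ s ∈ R, Rl sm cusp s ∧ s.length = n + 1) ∧
      (∀ l : List V, l.Nodup → Rl sm cusp l → l.length = n + 1 →
        ∃ s ∈ R, ∃ g : Γ, l.Perm (s.map (fun x => g • x))) ∧
      (∀ (g : Γ) (s : R) (h : Γ), trW hF k n g (b (s, h)) = b (s, g * h)) ∧
      ∀ (f : DSub sm cusp k n) (s : R) (g : Γ),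
        b.repr f (s, g) = f.1 (s.1.map (fun x => g • x)) := by
  classical
  obtain ⟨R, hR, hR'⟩ := WfB_exists_reps hF hT n
  -- the translates of the representatives
  let φ : R × Γ → List V := fun p => p.1.1.map (fun x => p.2 • x)
  have hφ : ∀ p : R × Γ, (φ p).Nodup ∧ Rl sm cusp (φ p) ∧ (φ p).length = n + 1 := by
    rintro ⟨⟨s, hs⟩, g⟩
    obtain ⟨h1, h2, h3⟩ := hR s hs
    refine ⟨h1.map (MulAction.injective g), ⟨(sml_smul hF.smul_sm g s).2 h2.1,
      fun h => h2.2 ((inC_smul hF.cusp_smul g s).1 h)⟩, ?_⟩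
    show (s.map _).length = n + 1
    rw [List.length_map, h3]
  have hperm : ∀ p q : R × Γ, (φ p).Perm (φ q) → p = q := by
    intro p q hpq
    obtain ⟨h1, h2, h3⟩ := hφ p
    obtain ⟨s, hs, g, -, hu⟩ := hR' (φ p) h1 h2 h3
    obtain ⟨a1, a2⟩ := hu p.1.1 p.1.2 p.2 (List.Perm.refl _)
    obtain ⟨b1, b2⟩ := hu q.1.1 q.1.2 q.2 hpq
    exact Prod.ext (Subtype.ext (a1.trans b1.symm)) (a2.trans b2.symm)
  have hinj : Function.Injective φ := fun p q h => hperm p q (by rw [h])
  -- the delta functions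
  have hδ : ∀ s : R, ∃ e : DSub sm cusp k n, e.1 s.1 = 1 ∧ ∀ l, e.1 l ≠ 0 → l.Perm s.1 := fun s =>
    exists_delta k (hR s.1 s.2).1 (hR s.1 s.2).2.1 (hR s.1 s.2).2.2
  choose e he1 he2 using hδ
  -- the coordinates
  have hfin : ∀ f : DSub sm cusp k n, (Function.support (fun p => f.1 (φ p))).Finite := fun f =>
    (f.2.fin.preimage hinj.injOn : (φ ⁻¹' (Function.support f.1)).Finite)
  let L : DSub sm cusp k n →ₗ[k] ((R × Γ) →₀ k) :=
    { toFun := fun f => Finsupp.ofSupportFinite (fun p => f.1 (φ p)) (hfin f)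
      map_add' := fun f g => by
        ext p
        rfl
      map_smul' := fun c f => by
        ext p
        rfl }
  have hL : ∀ f p, L f p = f.1 (φ p) := fun f p => rfl
  have hLe : ∀ p : R × Γ, L (trW hF k n p.2 (e p.1)) = Finsupp.single p 1 := by
    intro p
    ext q
    rw [hL, trW_coe, tr_apply]
    have h0 : (φ q).map (fun x => p.2⁻¹ • x) = q.1.1.map (fun x => (p.2⁻¹ * q.2) • x) :=
      map_smul_smul _ _ _
    by_cases hpq : p = q
    · subst hpq
      rw [h0, inv_mul_cancel, map_one_smul, he1, Finsupp.single_eq_same]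
    · rw [Finsupp.single_eq_of_ne (Ne.symm hpq)]
      by_contra h1
      have h2 := he2 _ _ h1
      have h3 : (φ q).Perm (φ p) := by
        have := h2.map (fun x => p.2 • x)
        rw [map_smul_smul, mul_inv_cancel, map_one_smul] at this
        exact this
      exact hpq (hperm q p h3).symm
  have hinj' : Function.Injective L := by
    rw [injective_iff_map_eq_zero]
    intro f hf
    apply Subtype.ext
    funext l
    by_contra hl
    have hl : f.1 l ≠ 0 := hl
    have hnd : l.Nodup := by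
      by_contra h
      exact hl (f.2.alt.not_nodup h)
    obtain ⟨s, hs, g, hp, -⟩ := hR' l hnd (f.2.rl l hl) (f.2.len l hl)
    have h1 := alt_cross f.2.alt (trW hF k n g (e ⟨s, hs⟩)).2.alt hp
    have h2 : (trW hF k n g (e ⟨s, hs⟩)).1 (s.map (fun x => g • x)) = 1 := by
      rw [trW_coe, tr_apply, map_smul_smul, inv_mul_cancel, map_one_smul]
      exact he1 ⟨s, hs⟩
    have h3 : f.1 (s.map (fun x => g • x)) = 0 := by
      have := DFunLike.congr_fun hf ((⟨s, hs⟩, g) : R × Γ)
      rw [hL] at this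
      exact this
    rw [h2, h3, mul_one, zero_mul] at h1
    exact hl h1
  have hsurj : Function.Surjective L := by
    intro c
    refine ⟨Finsupp.linearCombination k (fun p : R × Γ => trW hF k n p.2 (e p.1)) c, ?_⟩
    rw [Finsupp.apply_linearCombination]
    have : (⇑L ∘ fun p : R × Γ => trW hF k n p.2 (e p.1)) = fun p => Finsupp.single p (1 : k) := by
      funext p
      exact hLe p
    rw [this, Finsupp.linearCombination_apply]
    simp
  let b : Module.Basis (R × Γ) k (DSub sm cusp k n) :=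
    Module.Basis.ofRepr (LinearEquiv.ofBijective L ⟨hinj', hsurj⟩)
  have hb : ∀ p, b p = trW hF k n p.2 (e p.1) := by
    intro p
    apply hinj'
    rw [hLe]
    exact b.repr_self p
  refine ⟨R, b, fun s hs => (hR s hs).2, ?_, ?_, ?_⟩
  · intro l h1 h2 h3
    obtain ⟨s, hs, g, hp, -⟩ := hR' l h1 h2 h3
    exact ⟨s, hs, g, hp⟩
  · intro g s h
    rw [hb, hb, trW_mul]
  · intro f s g
    rfl

end RCan
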