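import Pool.Agent.W_04c03c_h58.WfB

/-!
# Lifts and retractions
-/

namespace RCan

variable {Γ Ξ V : Type*} [Group Γ] [MulAction Γ Ξ] [MulAction Γ V] {sm : V → V → Prop}
  {cusp : V → Option Ξ}

/-- The same as `exists_lift` (`AlgD.lean`), with `exists_basisW`. -/
theorem exists_liftW (hF : WFace Γ Ξ V sm cusp) (hT : TFree Γ) (k : Type) [Field k] (m n : ℕ)
    (P : DSub sm cusp k n →ₗ[k] DSub sm cusp k (m + 1))
    (hP : ∀ g f, P (trW hF k n g f) = trW hF k (m + 1) g (P f))
    (h : ∀ f, ∃ e : DSub sm cusp k m, crW hF k m e = P f) :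
    ∃ L : DSub sm cusp k n →ₗ[k] DSub sm cusp k m,
      (∀ g f, L (trW hF k n g f) = trW hF k m g (L f)) ∧ ∀ f, crW hF k m (L f) = P f := by
  classical
  obtain ⟨R, b, -, -, hb, -⟩ := exists_basisW hF hT k n
  choose u hu using fun s : R => h (b (s, 1))
  have hL : ∀ p : R × Γ, b.constr k (fun p : R × Γ => trW hF k m p.2 (u p.1)) (b p) =
      trW hF k m p.2 (u p.1) := fun p => b.constr_basis k _ p
  refine ⟨b.constr k (fun p : R × Γ => trW hF k m p.2 (u p.1)), ?_, ?_⟩
  · intro g f
    have h1 : (b.constr k (fun p : R × Γ => trW hF k m p.2 (u p.1))) ∘ₗ (trW hF k n g) =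
        (trW hF k m g) ∘ₗ (b.constr k (fun p : R × Γ => trW hF k m p.2 (u p.1))) := by
      apply b.ext
      rintro ⟨s, h⟩
      rw [LinearMap.comp_apply, LinearMap.comp_apply, hb, hL, hL, ← trW_mul]
    exact LinearMap.congr_fun h1 f
  · intro f
    have h1 : (crW hF k m) ∘ₗ (b.constr k (fun p : R × Γ => trW hF k m p.2 (u p.1))) = P := by
      apply b.ext
      rintro ⟨s, h⟩
      rw [LinearMap.comp_apply, hL, crW_trW, hu, ← hP, hb, mul_one]
    exact LinearMap.congr_fun h1 f

/-- The same as `exists_retr` (`AlgD.lean`); the start of the downward induction (`DSub n = 0` for large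
`n`) is by `hF.bdd`. -/
theorem exists_retrW (hF : WFace Γ Ξ V sm cusp) (hT : TFree Γ) (k : Type) [Field k] (n : ℕ)
    (hn : 3 ≤ n) :
    ∃ ρ : DSub sm cusp k n →ₗ[k] DSub sm cusp k n,
      (∀ g f, ρ (trW hF k n g f) = trW hF k n g (ρ f)) ∧ (∀ f, crW hF k n (ρ f) = 0) ∧
      ∀ f, crW hF k n f = 0 → ρ f = f := by
  classical
  obtain ⟨M, hM⟩ := hF.bdd
  have key : ∀ j n : ℕ, 3 ≤ n → M ≤ n + j →
      ∃ ρ : DSub sm cusp k n →ₗ[k] DSub sm cusp k n,
        (∀ g f, ρ (trW hF k n g f) = trW hF k n g (ρ f)) ∧ (∀ f, crW hF k n (ρ f) = 0) ∧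
        ∀ f, crW hF k n f = 0 → ρ f = f := by
    intro j
    induction j with
    | zero =>
      intro n hn hc
      have h0 : ∀ f : DSub sm cusp k n, f = 0 := by
        intro f
        apply Subtype.ext
        funext l
        by_contra hl
        have hl : f.1 l ≠ 0 := hl
        have hnd : l.Nodup := by
          by_contra h
          exact hl (f.2.alt.not_nodup h)
        have h3 := hM l hnd (f.2.rl l hl)
        rw [f.2.len l hl] at h3
        omega
      refine ⟨LinearMap.id, fun g f => rfl, fun f => ?_, fun f _ => rfl⟩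
      rw [h0 (LinearMap.id f), map_zero]
    | succ j ih =>
      intro n hn hc
      obtain ⟨ρ', h1, h2, h3⟩ := ih (n + 1) (by omega) (by omega)
      obtain ⟨L, hL1, hL2⟩ := exists_liftW hF hT k n (n + 1) ρ' h1
        (fun f => exists_crW hF k (Or.inr hn) (ρ' f) (h2 f))
      refine ⟨LinearMap.id - L ∘ₗ crW hF k n, ?_, ?_, ?_⟩
      · intro g f
        simp only [LinearMap.sub_apply, LinearMap.id_apply, LinearMap.comp_apply, map_sub]
        rw [crW_trW, hL1]
      · intro f
        simp only [LinearMap.sub_apply, LinearMap.id_apply, LinearMap.comp_apply, map_sub]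
        rw [hL2, h3 _ (crW_crW hF f), sub_self]
      · intro f hf
        simp only [LinearMap.sub_apply, LinearMap.id_apply, LinearMap.comp_apply]
        rw [hf, map_zero, sub_zero]
  exact key M n hn (by omega)

end RCan
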