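import Pool.Agent.W_04c03c_h58.WfA
import Pool.Agent.W_04c03c_h58.AlgE

/-!
# Equivariant cochains with support finite modulo the group
-/

namespace RCan

variable {Γ Ξ V : Type*} [Group Γ] [MulAction Γ Ξ] [MulAction Γ V]

/-- the `χ`-equivariant alternating relative cochains with support finite modulo `Γ` -/
def EQf (sm : V → V → Prop) (cusp : V → Option Ξ) {k : Type*} [Field k] (χ : Γ →* kˣ) (n : ℕ) :
    Submodule k (List V → k) where
  carrier := {c | c ∈ EQ sm cusp χ n ∧ ∃ F : Set V, F.Finite ∧ ∀ l, c l ≠ 0 →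
    ∃ g : Γ, ∀ x ∈ l, g • x ∈ F}
  zero_mem' := ⟨Submodule.zero_mem _, ∅, Set.finite_empty, fun l hl => absurd rfl hl⟩
  add_mem' := by
    rintro a b ⟨ha, F, hF, h1⟩ ⟨hb, F', hF', h2⟩
    refine ⟨Submodule.add_mem _ ha hb, F ∪ F', hF.union hF', fun l hl => ?_⟩
    by_cases h : a l = 0
    · have h3 : b l ≠ 0 := fun h3 => hl (by simp [h, h3])
      obtain ⟨g, hg⟩ := h2 l h3
      exact ⟨g, fun x hx => Or.inr (hg x hx)⟩
    · obtain ⟨g, hg⟩ := h1 l h
      exact ⟨g, fun x hx => Or.inl (hg x hx)⟩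
  smul_mem' := by
    rintro c a ⟨ha, F, hF, h1⟩
    refine ⟨Submodule.smul_mem _ c ha, F, hF, fun l hl => h1 l fun h => hl ?_⟩
    simp [h]

variable {sm : V → V → Prop} {cusp : V → Option Ξ} {k : Type*} [Field k]

/-- The coboundary of an equivariant relative cochain is equivariant and relative.
(As in `crE`, `AlgE.lean`.) -/
theorem cr_mem_EQW (hF : WFace Γ Ξ V sm cusp) {χ : Γ →* kˣ} {n : ℕ} {c : List V → k}
    (hc : c ∈ EQ sm cusp χ n) : cr sm c ∈ EQ sm cusp χ (n + 1) := by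
  refine ⟨hc.1.cr, ?_⟩
  intro g l
  unfold cr
  by_cases hl : Sml sm l
  · rw [if_pos hl, if_pos ((sml_smul hF.smul_sm g l).2 hl), co_map]
    have h1 : (fun l' => c (l'.map (fun x => g • x))) = (χ g : k) • c := by
      funext l'
      exact hc.2 g l'
    rw [h1, co_smul]
    rfl
  · rw [if_neg hl, if_neg (fun h1 => hl ((sml_smul hF.smul_sm g l).1 h1)), mul_zero]

/-- The coboundary preserves finiteness of the support modulo `Γ`.

Proof. Let `F` be the finite set of `c`; if `cr sm c l ≠ 0` then `l` is relative of length `n + 2` and some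
face `l'` of length `n + 1 ≥ 1` has `c l' ≠ 0` (`dl_eq_zero`), so `g • x ∈ F` for the `x ∈ l'`. Let `v ∈ l'`;
the list `l.map (g • ·)` is relative and contains `g • v ∈ F`, so its entries are in the finite union over
`u ∈ F` of the finite sets of `hF.lf u`. -/
theorem cr_mem_EQf (hF : WFace Γ Ξ V sm cusp) {χ : Γ →* kˣ} {n : ℕ} {c : List V → k}
    (hc : c ∈ EQf sm cusp χ n) : cr sm c ∈ EQf sm cusp χ (n + 1) := by
  obtain ⟨hc1, F, hF1, hF2⟩ := hc
  have hE := cr_mem_EQW hF hc1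
  choose G hG1 hG2 using hF.lf
  refine ⟨hE, ⋃ u ∈ F, G u, hF1.biUnion fun u _ => hG1 u, ?_⟩
  intro l hl
  have hrl := hE.1.rl l hl
  have hlen := hE.1.len l hl
  -- a face in the support
  have hface : ∃ l' : List V, l'.Sublist l ∧ l'.length + 1 = l.length ∧ c l' ≠ 0 := by
    by_contra hcon
    push Not at hcon
    apply hl
    rw [cr_of_sml _ hrl.1]
    exact dl_eq_zero l fun l' h1 h2 => hcon l' h1 h2
  obtain ⟨l', h1, h2, h3⟩ := hface
  obtain ⟨g, hg⟩ := hF2 l' h3
  refine ⟨g, ?_⟩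
  have h4 : 0 < l'.length := by omega
  obtain ⟨v, hv⟩ := List.exists_mem_of_length_pos h4
  have hrl' : Rl sm cusp (l.map fun x => g • x) :=
    ⟨(sml_smul hF.smul_sm g l).2 hrl.1, fun h5 => hrl.2 ((inC_smul hF.cusp_smul g l).1 h5)⟩
  intro x hx
  rw [Set.mem_iUnion₂]
  exact ⟨g • v, hg v hv, hG2 (g • v) _ hrl' (List.mem_map_of_mem (h1.subset hv)) _
    (List.mem_map_of_mem hx)⟩

/-- the coboundary on `EQf` -/
noncomputable def crF (hF : WFace Γ Ξ V sm cusp) (χ : Γ →* kˣ) (n : ℕ) :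
    EQf sm cusp χ n →ₗ[k] EQf sm cusp χ (n + 1) where
  toFun c := ⟨cr sm c.1, cr_mem_EQf hF c.2⟩
  map_add' f g := Subtype.ext (cr_add f.1 g.1)
  map_smul' c f := by
    apply Subtype.ext
    funext l
    show cr sm (c • f.1) l = c • cr sm f.1 l
    unfold cr
    split_ifs
    · exact dl_smul c l f.1
    · simp

theorem crF_coe (hF : WFace Γ Ξ V sm cusp) (χ : Γ →* kˣ) {n : ℕ} (c : EQf sm cusp χ n) :
    (crF hF χ n c).1 = cr sm c.1 := rfl

/-- As `av_finite` in `AlgE.lean`. -/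
theorem av_finiteW (hF : WFace Γ Ξ V sm cusp) {n : ℕ} {f : List V → k} (hf : IsD sm cusp k n f)
    (l : List V) : {g : Γ | f (l.map (fun x => g⁻¹ • x)) ≠ 0}.Finite := by
  cases l with
  | nil =>
    have h0 : {g : Γ | f (([] : List V).map (fun x => g⁻¹ • x)) ≠ 0} = ∅ := by
      ext g
      simp only [Set.mem_setOf_eq, Set.mem_empty_iff_false, iff_false, not_not]
      by_contra h
      have := hf.len _ h
      simp at this
    rw [h0]
    exact Set.finite_empty
  | cons x t =>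
    have hinj : Function.Injective (fun g : Γ => (x :: t).map (fun y => g⁻¹ • y)) := by
      intro g h hgh
      simp only [List.map_cons, List.cons.injEq] at hgh
      have h1 : (h * g⁻¹) • x = x := by
        rw [mul_smul, hgh.1, smul_inv_smul]
      have h2 := hF.free _ _ h1
      exact (mul_inv_eq_one.1 h2).symm
    exact hf.fin.preimage hinj.injOn

theorem WfE_supp (hF : WFace Γ Ξ V sm cusp) (χ : Γ →* kˣ) {n : ℕ} {f : List V → k}
    (hf : IsD sm cusp k n f) (l : List V) :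
    (Function.support (fun g : Γ => (χ g : k) * f (l.map (fun x => g⁻¹ • x)))).Finite := by
  refine (av_finiteW hF hf l).subset ?_
  intro g hg
  exact right_ne_zero_of_mul hg

/-- As `av_mem` in `AlgE.lean`; the finiteness modulo `Γ`: if `av χ f l ≠ 0` then
`f (l.map (g⁻¹ • ·)) ≠ 0` for some `g`, so `g⁻¹ • x` is in the finite set of the entries of the lists in the
support of `f`. -/
theorem av_memW (hF : WFace Γ Ξ V sm cusp) (χ : Γ →* kˣ) {n : ℕ} {f : List V → k}
    (hf : IsD sm cusp k n f) : av χ f ∈ EQf sm cusp χ n := by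
  refine ⟨⟨⟨AlgE_alt χ hf.alt, ?_, ?_⟩, ?_⟩, ⋃ m ∈ Function.support f, {x | x ∈ m},
    hf.fin.biUnion fun m _ => List.finite_toSet m, ?_⟩
  · intro l hl
    obtain ⟨g, hg⟩ := AlgE_ex χ hl
    simpa using hf.len _ hg
  · intro l hl
    obtain ⟨g, hg⟩ := AlgE_ex χ hl
    have h1 := hf.rl _ hg
    exact ⟨(sml_smul hF.smul_sm g⁻¹ l).1 h1.1,
      fun h2 => h1.2 ((inC_smul hF.cusp_smul g⁻¹ l).2 h2)⟩
  · intro h l
    unfold av
    rw [← smul_eq_mul, smul_finsum]
    rw [← finsum_comp_equiv (Equiv.mulLeft h)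
      (f := fun g : Γ => (χ g : k) * f ((l.map (fun x => h • x)).map (fun x => g⁻¹ • x)))]
    congr 1
    funext g
    simp only [Equiv.coe_mulLeft]
    rw [map_smul_smul, mul_inv_rev, inv_mul_cancel_right, map_mul, Units.val_mul, smul_eq_mul,
      mul_assoc]
  · intro l hl
    obtain ⟨g, hg⟩ := AlgE_ex χ hl
    refine ⟨g⁻¹, fun x hx => ?_⟩
    rw [Set.mem_iUnion₂]
    exact ⟨l.map (fun x => g⁻¹ • x), hg, List.mem_map_of_mem hx⟩

/-- As `av_add` in `AlgE.lean`. -/
theorem av_addW (hF : WFace Γ Ξ V sm cusp) (χ : Γ →* kˣ) {n : ℕ} {f f' : List V → k}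
    (hf : IsD sm cusp k n f) (hf' : IsD sm cusp k n f') : av χ (f + f') = av χ f + av χ f' := by
  funext l
  rw [Pi.add_apply]
  unfold av
  rw [← finsum_add_distrib (WfE_supp hF χ hf l) (WfE_supp hF χ hf' l)]
  congr 1
  funext g
  rw [Pi.add_apply, mul_add]

/-- the averaging map -/
noncomputable def avF (hF : WFace Γ Ξ V sm cusp) (χ : Γ →* kˣ) (n : ℕ) :
    DSub sm cusp k n →ₗ[k] EQf sm cusp χ n where
  toFun f := ⟨av χ f.1, av_memW hF χ f.2⟩
  map_add' f f' := Subtype.ext (av_addW hF χ f.2 f'.2)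
  map_smul' c f := Subtype.ext (av_smul χ c f.1)

theorem avF_coe (hF : WFace Γ Ξ V sm cusp) (χ : Γ →* kˣ) {n : ℕ} (f : DSub sm cusp k n) :
    (avF hF χ n f).1 = av χ f.1 := rfl

/-- As `avL_trD` in `AlgE.lean`. -/
theorem avF_trW (hF : WFace Γ Ξ V sm cusp) (χ : Γ →* kˣ) (n : ℕ) (h : Γ) (f : DSub sm cusp k n) :
    avF hF χ n (trW hF k n h f) = ((χ h)⁻¹ : kˣ) • avF hF χ n f := by
  apply Subtype.ext
  funext l
  show av χ (tr h f.1) l = (((χ h)⁻¹ : kˣ) : k) • av χ f.1 l
  unfold av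
  rw [smul_finsum]
  rw [← finsum_comp_equiv (Equiv.mulRight h)
      (f := fun g : Γ => (((χ h)⁻¹ : kˣ) : k) • ((χ g : k) * f.1 (l.map (fun x => g⁻¹ • x))))]
  congr 1
  funext g
  simp only [Equiv.coe_mulRight]
  rw [tr_apply, map_smul_smul, ← mul_inv_rev, map_mul, Units.val_mul, smul_eq_mul]
  have h1 : (((χ h)⁻¹ : kˣ) : k) * (χ h : k) = 1 := by
    rw [← Units.val_mul, inv_mul_cancel, Units.val_one]
  calc (χ g : k) * f.1 (l.map (fun x => (g * h)⁻¹ • x))
      = ((((χ h)⁻¹ : kˣ) : k) * (χ h : k)) * ((χ g : k) * f.1 (l.map (fun x => (g * h)⁻¹ • x))) := by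
        rw [h1, one_mul]
    _ = _ := by ring

/-- As `crE_avL` in `AlgE.lean`. -/
theorem crF_avF (hF : WFace Γ Ξ V sm cusp) (χ : Γ →* kˣ) (n : ℕ) (f : DSub sm cusp k n) :
    crF hF χ n (avF hF χ n f) = avF hF χ (n + 1) (crW hF k n f) := by
  classical
  apply Subtype.ext
  funext l
  show cr sm (av χ f.1) l = av χ (cr sm f.1) l
  by_cases hl : Sml sm l
  · rw [cr_of_sml _ hl]
    have hfin : {g : Γ | ∃ m : List V, m.Sublist l ∧ f.1 (m.map (fun x => g⁻¹ • x)) ≠ 0}.Finite := by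
      have h1 : ∀ L : List (List V),
          {g : Γ | ∃ m ∈ L, f.1 (m.map (fun x => g⁻¹ • x)) ≠ 0}.Finite := by
        intro L
        induction L with
        | nil => simp
        | cons a L ih =>
          refine ((av_finiteW hF f.2 a).union ih).subset ?_
          rintro g ⟨m, hm, h2⟩
          rcases List.mem_cons.1 hm with rfl | hm
          · exact Or.inl h2
          · exact Or.inr ⟨m, hm, h2⟩
      refine (h1 l.sublists).subset ?_
      rintro g ⟨m, hm, h2⟩
      exact ⟨m, List.mem_sublists.2 hm, h2⟩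
    have h2 : ∀ m : List V, m.Sublist l → av χ f.1 m
        = ∑ g ∈ hfin.toFinset, (χ g : k) * f.1 (m.map (fun x => g⁻¹ • x)) := by
      intro m hm
      unfold av
      apply finsum_eq_sum_of_support_subset
      intro g hg
      simp only [Set.Finite.coe_toFinset, Set.mem_setOf_eq]
      exact ⟨m, hm, right_ne_zero_of_mul hg⟩
    have h3 : av χ (cr sm f.1) l
        = ∑ g ∈ hfin.toFinset, (χ g : k) * cr sm f.1 (l.map (fun x => g⁻¹ • x)) := by
      unfold av
      apply finsum_eq_sum_of_support_subset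
      intro g hg
      simp only [Set.Finite.coe_toFinset, Set.mem_setOf_eq]
      have hg2 : cr sm f.1 (l.map (fun x => g⁻¹ • x)) ≠ 0 := right_ne_zero_of_mul hg
      by_contra hcon
      push Not at hcon
      apply hg2
      rw [cr_of_sml _ ((sml_smul hF.smul_sm g⁻¹ l).2 hl), co_map]
      exact dl_eq_zero l (fun l' h4 _ => hcon l' h4)
    rw [h3]
    show dl l (av χ f.1) = _
    rw [dl_congr l (g := fun m => ∑ g ∈ hfin.toFinset, (χ g : k) * f.1 (m.map (fun x => g⁻¹ • x)))
      (fun l' h4 _ => h2 l' h4)]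
    have h5 : ∀ S : Finset Γ,
        dl l (fun m => ∑ g ∈ S, (χ g : k) * f.1 (m.map (fun x => g⁻¹ • x)))
        = ∑ g ∈ S, (χ g : k) * dl l (fun m => f.1 (m.map (fun x => g⁻¹ • x))) := by
      intro S
      induction S using Finset.induction_on with
      | empty =>
        simp only [Finset.sum_empty]
        exact dl_zero l
      | insert a S ha ih =>
        have h6 : (fun m : List V => ∑ g ∈ insert a S, (χ g : k) * f.1 (m.map (fun x => g⁻¹ • x)))
            = (χ a : k) • (fun m => f.1 (m.map (fun x => a⁻¹ • x)))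
              + (fun m => ∑ g ∈ S, (χ g : k) * f.1 (m.map (fun x => g⁻¹ • x))) := by
          funext m
          rw [Finset.sum_insert ha]
          rfl
        rw [h6, dl_add, dl_smul, ih, Finset.sum_insert ha, smul_eq_mul]
    rw [h5]
    apply Finset.sum_congr rfl
    intro g _
    rw [cr_of_sml _ ((sml_smul hF.smul_sm g⁻¹ l).2 hl), co_map]
    rfl
  · have h1 : cr sm (av χ f.1) l = 0 := by simp [cr, hl]
    have h2 : ∀ g : Γ, cr sm f.1 (l.map (fun x => g⁻¹ • x)) = 0 := by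
      intro g
      have : ¬ Sml sm (l.map (fun x => g⁻¹ • x)) := fun h => hl ((sml_smul hF.smul_sm g⁻¹ l).1 h)
      simp [cr, this]
    rw [h1]
    unfold av
    simp [h2]

end RCan
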