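import Pool.Agent.W_04c03c_h58.WfB
import Pool.Agent.W_04c03c_h58.WfE

/-!
# Averaging is onto, and its kernel
-/

namespace RCan

variable {Γ Ξ V : Type*} [Group Γ] [MulAction Γ Ξ] [MulAction Γ V]
  {sm : V → V → Prop} {cusp : V → Option Ξ} {k : Type*} [Field k]

omit [MulAction Γ Ξ] in
open Classical in
/-- averages of the basis elements at the representatives -/
theorem WfF_av_basis {n : ℕ} {R : Set (List V)} (b : Module.Basis (R × Γ) k (DSub sm cusp k n))
    (hrepr : ∀ (f : DSub sm cusp k n) (s : R) (g : Γ),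
      b.repr f (s, g) = f.1 (s.1.map (fun x => g • x))) (χ : Γ →* kˣ) (s s' : R) (g : Γ) :
    av χ (b (s, g)).1 s'.1 = if s = s' then ((χ g⁻¹ : kˣ) : k) else 0 := by
  classical
  have h1 : ∀ h : Γ, (b (s, g)).1 (s'.1.map (fun x => h⁻¹ • x))
      = (Finsupp.single (s, g) (1 : k)) (s', h⁻¹) := by
    intro h
    rw [← hrepr, b.repr_self]
  unfold av
  simp_rw [h1]
  by_cases hs : s = s'
  · subst hs
    rw [if_pos rfl, finsum_eq_single _ g⁻¹]
    · rw [inv_inv, Finsupp.single_eq_same, mul_one]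
    · intro h hh
      rw [Finsupp.single_apply, if_neg, mul_zero]
      intro h2
      apply hh
      have h3 : g = h⁻¹ := (Prod.ext_iff.1 h2).2
      rw [h3, inv_inv]
  · rw [if_neg hs]
    have h2 : ∀ h : Γ, ((χ h : kˣ) : k) * (Finsupp.single (s, g) (1 : k)) (s', h⁻¹) = 0 := by
      intro h
      rw [Finsupp.single_apply, if_neg, mul_zero]
      intro h3
      exact hs (Prod.ext_iff.1 h3).1
    simp_rw [h2]
    exact finsum_zero

/-- equivariant cochains are determined by their values on representatives -/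
theorem WfF_zero_of_reps (hF : WFace Γ Ξ V sm cusp) (χ : Γ →* kˣ) {n : ℕ} {R : Set (List V)}
    (hR : ∀ s ∈ R, Rl sm cusp s ∧ s.length = n + 1)
    (hcov : ∀ l : List V, l.Nodup → Rl sm cusp l → l.length = n + 1 →
        ∃ s ∈ R, ∃ g : Γ, l.Perm (s.map (fun x => g • x)))
    (d : EQ sm cusp χ n) (hd : ∀ s ∈ R, d.1 s = 0) : d = 0 := by
  apply Subtype.ext
  funext l
  show d.1 l = 0
  by_contra hne
  have hnd : l.Nodup := by
    by_contra h
    exact hne (Alt.not_nodup d.2.1.alt h)
  have hrl := d.2.1.rl l hne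
  have hlen := d.2.1.len l hne
  obtain ⟨s, hs, g, hp⟩ := hcov l hnd hrl hlen
  have h0 : d.1 (s.map (fun x => g • x)) = 0 := by
    rw [d.2.2, hd s hs, mul_zero]
  have hnd' : (s.map (fun x => g • x)).Nodup := hp.nodup_iff.1 hnd
  have hrl' : Rl sm cusp (s.map (fun x => g • x)) :=
    ⟨(sml_smul hF.smul_sm g s).2 (hR s hs).1.1,
      fun h => (hR s hs).1.2 ((inC_smul hF.cusp_smul g s).1 h)⟩
  have hlen' : (s.map (fun x => g • x)).length = n + 1 := by
    rw [List.length_map]
    exact (hR s hs).2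
  obtain ⟨e, he, -⟩ := exists_delta (sm := sm) (cusp := cusp) k hnd' hrl' hlen'
  have h1 := alt_cross d.2.1.alt e.2.alt hp
  rw [he, h0, zero_mul, mul_one] at h1
  exact hne h1

/-- the value of the average at a list, as a linear map -/
noncomputable def WfF_ev (hF : WFace Γ Ξ V sm cusp) (χ : Γ →* kˣ) (n : ℕ) (s : List V) :
    DSub sm cusp k n →ₗ[k] k :=
  ((LinearMap.proj s).comp (Submodule.subtype (EQf sm cusp χ n))).comp (avF hF χ n)

theorem WfF_ev_apply (hF : WFace Γ Ξ V sm cusp) (χ : Γ →* kˣ) (n : ℕ) (s : List V)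
    (f : DSub sm cusp k n) : WfF_ev hF χ n s f = av χ f.1 s := rfl

/-- Averaging is onto the cochains with support finite modulo `Γ`.

Proof. As `avL_surj` (`AlgF.lean`). Let `R, b` be as in `exists_basisW`; the set `R₀` of the `s ∈ R` with
`c s ≠ 0` is finite: `g • x ∈ F` for `x ∈ s` and some `g`, so the class of `s` modulo translations and
permutations is one of finitely many (lists of length `n + 1` with entries in `F`), and different
elements of `R` are in different classes (by `b.repr`: if `s'` is a permutation of `s.map (g • ·)` then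
`b (s, g)` and `b (s', 1)` ... use the delta property: `b.repr f (s', 1) = f s'` and
`b.repr f (s, g) = f (s.map (g • ·))` are equal up to sign for all `f`, so `(s', 1) = (s, g)`). Then
`f = Σ_{s ∈ R₀} c s • b (s, 1)`. -/
theorem avF_surj (hF : WFace Γ Ξ V sm cusp) (hT : TFree Γ) (χ : Γ →* kˣ) (n : ℕ) :
    Function.Surjective (avF (sm := sm) (cusp := cusp) (k := k) hF χ n) := by
  classical
  intro c
  obtain ⟨R, b, hR, hcov, hb, hrepr⟩ := exists_basisW (sm := sm) (cusp := cusp) hF hT k n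
  obtain ⟨F, hFf, hFl⟩ := c.2.2
  have hfin : ({s : R | c.1 s.1 ≠ 0} : Set R).Finite := by
    choose! G hG using hFl
    refine Set.Finite.of_finite_image (f := fun s : R => s.1.map (fun x => G s.1 • x)) ?_ ?_
    · refine (AlgB_finite_lists hFf (n + 1)).subset ?_
      rintro _ ⟨s, hs, rfl⟩
      refine ⟨?_, ?_⟩
      · intro x hx
        obtain ⟨y, hy, rfl⟩ := List.mem_map.1 hx
        exact hG _ hs y hy
      · show (s.1.map (fun x => G s.1 • x)).length = n + 1
        rw [List.length_map]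
        exact (hR s.1 s.2).2
    · intro s hs s' hs' h
      have h' : s.1.map (fun x => G s.1 • x) = s'.1.map (fun x => G s'.1 • x) := h
      have h1 := hrepr (b (s, G s.1)) s (G s.1)
      have h2 := hrepr (b (s, G s.1)) s' (G s'.1)
      rw [← h', ← h1, b.repr_self, Finsupp.single_eq_same] at h2
      by_contra hne
      rw [Finsupp.single_apply, if_neg (fun h3 => hne (Prod.ext_iff.1 h3).1)] at h2
      exact zero_ne_one h2
  refine ⟨∑ s ∈ hfin.toFinset, c.1 s.1 • b (s, 1), ?_⟩
  set f : DSub sm cusp k n := ∑ s ∈ hfin.toFinset, c.1 s.1 • b (s, 1) with hf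
  have key : ∀ s' : R, av χ f.1 s'.1 = c.1 s'.1 := by
    intro s'
    rw [← WfF_ev_apply hF χ n s'.1 f, hf, map_sum]
    have h3 : ∀ s ∈ hfin.toFinset, WfF_ev hF χ n s'.1 (c.1 s.1 • b (s, 1))
        = if s = s' then c.1 s.1 else 0 := by
      intro s _
      rw [map_smul, WfF_ev_apply, WfF_av_basis b hrepr χ s s' 1, inv_one, map_one, Units.val_one,
        smul_eq_mul]
      split_ifs
      · rw [mul_one]
      · rw [mul_zero]
    rw [Finset.sum_congr rfl h3, Finset.sum_ite_eq' hfin.toFinset s' (fun s => c.1 s.1)]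
    split_ifs with h4
    · rfl
    · rw [Set.Finite.mem_toFinset, Set.mem_ofPred_eq, not_not] at h4
      exact h4.symm
  have h5 : (⟨av χ f.1, (av_memW hF χ f.2).1⟩ : EQ sm cusp χ n) - ⟨c.1, c.2.1⟩ = 0 := by
    refine WfF_zero_of_reps hF χ hR hcov _ ?_
    intro s hs
    show av χ f.1 s - c.1 s = 0
    rw [key ⟨s, hs⟩, sub_self]
  apply Subtype.ext
  show av χ f.1 = c.1
  have h6 := congrArg Subtype.val (sub_eq_zero.1 h5)
  exact h6

/-- A semi-invariant functional vanishes on the kernel of the average.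

Proof. As `avL_ker` (`AlgF.lean`): for a fixed `f` only finitely many coordinates `b.repr f (s, g)` are not
zero; `Ψ f = Σ_s Ψ (b (s, 1)) * Σ_g (χ g)⁻¹ * b.repr f (s, g)` and `Σ_g (χ g)⁻¹ * b.repr f (s, g) = av χ f s = 0`
for every `s`. -/
theorem avF_ker (hF : WFace Γ Ξ V sm cusp) (hT : TFree Γ) (χ : Γ →* kˣ) (n : ℕ)
    (Ψ : DSub sm cusp k n →ₗ[k] k)
    (hΨ : ∀ g f, Ψ (trW hF k n g f) = (((χ g)⁻¹ : kˣ) : k) * Ψ f) {f : DSub sm cusp k n}
    (hf : avF hF χ n f = 0) : Ψ f = 0 := by
  classical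
  obtain ⟨R, b, hR, hcov, hb, hrepr⟩ := exists_basisW (sm := sm) (cusp := cusp) hF hT k n
  set c := b.repr f with hc
  have hsum : f = ∑ p ∈ c.support, c p • b p := by
    have h1 := b.linearCombination_repr f
    rw [Finsupp.linearCombination_apply, Finsupp.sum] at h1
    exact h1.symm
  have hΨb : ∀ p : R × Γ, Ψ (b p) = (((χ p.2)⁻¹ : kˣ) : k) * Ψ (b (p.1, 1)) := by
    rintro ⟨s, g⟩
    have h3 := hb g s 1
    rw [mul_one] at h3
    rw [← h3, hΨ]
  have hev : ∀ s : R, ∑ p ∈ c.support, c p * (if p.1 = s then (((χ p.2)⁻¹ : kˣ) : k) else 0) = 0 := by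
    intro s
    have h1 : WfF_ev hF χ n s.1 f = 0 := by
      show ((avF hF χ n f).1 s.1) = 0
      rw [hf]
      rfl
    rw [hsum, map_sum] at h1
    refine Eq.trans (Finset.sum_congr rfl ?_) h1
    rintro ⟨s', g⟩ _
    rw [map_smul, WfF_ev_apply, WfF_av_basis b hrepr χ s' s g, smul_eq_mul, map_inv]
  have hcalc : Ψ f = ∑ s ∈ c.support.image Prod.fst, Ψ (b (s, 1)) *
      ∑ p ∈ c.support, c p * (if p.1 = s then (((χ p.2)⁻¹ : kˣ) : k) else 0) := by
    have h1 : Ψ f = ∑ p ∈ c.support, c p * ((((χ p.2)⁻¹ : kˣ) : k) * Ψ (b (p.1, 1))) := by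
      conv_lhs => rw [hsum]
      rw [map_sum]
      apply Finset.sum_congr rfl
      intro p _
      rw [map_smul, hΨb, smul_eq_mul]
    rw [h1]
    simp_rw [Finset.mul_sum]
    rw [Finset.sum_comm]
    apply Finset.sum_congr rfl
    intro p hp
    rw [Finset.sum_eq_single p.1]
    · rw [if_pos rfl]
      ring
    · intro s _ hs
      rw [if_neg (Ne.symm hs)]
      ring
    · intro h
      exact absurd (Finset.mem_image_of_mem _ hp) h
  rw [hcalc]
  apply Finset.sum_eq_zero
  intro s _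
  rw [hev s, mul_zero]

end RCan
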