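import Pool.Agent.W_04c03c_h58.WfD
import Pool.Agent.W_04c03c_h58.WfF

/-!
# Duality for subgroups of arbitrary index
-/

namespace RCan

variable {Γ Ξ V : Type*} [Group Γ] [MulAction Γ Ξ] [MulAction Γ V]
  {sm : V → V → Prop} {cusp : V → Option Ξ} {k : Type} [Field k]

theorem WfG_indep0 (hF : WFace Γ Ξ V sm cusp) (χ : Γ →* kˣ)
    (φ : EQf sm cusp χ 2 →ₗ[k] k) (hφ : ∀ c : EQf sm cusp χ 1, φ (crF hF χ 1 c) = 0)
    (e e' : DSub sm cusp k 2) (he : crW hF k 2 e = crW hF k 2 e') :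
    φ (avF hF χ 2 e) = φ (avF hF χ 2 e') := by
  have h0 : crW hF k 2 (e - e') = 0 := by rw [map_sub, he, sub_self]
  obtain ⟨a, ha⟩ := exists_crW hF k (n := 1) (Or.inl rfl) (e - e') h0
  have h1 : φ (avF hF χ 2 (e - e')) = 0 := by
    rw [← ha, ← crF_avF]
    exact hφ _
  rwa [map_sub, map_sub, sub_eq_zero] at h1

theorem WfG_phi_avF_trW (hF : WFace Γ Ξ V sm cusp) (χ : Γ →* kˣ)
    (φ : EQf sm cusp χ 2 →ₗ[k] k) (g : Γ) (f : DSub sm cusp k 2) :
    φ (avF hF χ 2 (trW hF k 2 g f)) = (((χ g)⁻¹ : kˣ) : k) * φ (avF hF χ 2 f) := by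
  rw [avF_trW, Units.smul_def, map_smul, smul_eq_mul]

/-- Proof. As `dual_crossed` (`AlgG.lean`), with an orientation character `ω`:
`crW (e (g * h)) = trW (g * h) z - ω (g * h) z`, `trW g (trW h z) = trW g (ω h z + crW (e h))
= ω h (ω g z + crW (e g)) + crW (trW g (e h))`, so `crW (e (g * h) - ω h • e g - trW g (e h)) = 0`, hence it is
`crW` of an element of `DSub 1` and `φ (avF ..)` vanishes on it. `avF (trW g (e h)) = (χ g)⁻¹ • avF (e h)`. -/
theorem dual_crossedW (hF : WFace Γ Ξ V sm cusp) (χ ω : Γ →* kˣ) (z : DSub sm cusp k 3)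
    (φ : EQf sm cusp χ 2 →ₗ[k] k) (hφ : ∀ c : EQf sm cusp χ 1, φ (crF hF χ 1 c) = 0)
    (e : Γ → DSub sm cusp k 2)
    (he : ∀ g, crW hF k 2 (e g) = trW hF k 3 g z - (ω g : k) • z) (g h : Γ) :
    φ (avF hF χ 2 (e (g * h))) = (ω h : k) * φ (avF hF χ 2 (e g))
      + (((χ g)⁻¹ : kˣ) : k) * φ (avF hF χ 2 (e h)) := by
  have h1 : crW hF k 2 (e (g * h)) = crW hF k 2 ((ω h : k) • e g + trW hF k 2 g (e h)) := by
    rw [map_add, map_smul, crW_trW, he, he, he, map_sub, map_smul, ← trW_mul, map_mul,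
      Units.val_mul, smul_sub, smul_smul, mul_comm (ω g : k)]
    abel
  rw [WfG_indep0 hF χ φ hφ _ _ h1, map_add, map_add, map_smul, map_smul, smul_eq_mul,
    WfG_phi_avF_trW]

/-- The value does not depend on the choice of `e`. -/
theorem dual_indepW (hF : WFace Γ Ξ V sm cusp) (χ : Γ →* kˣ)
    (φ : EQf sm cusp χ 2 →ₗ[k] k) (hφ : ∀ c : EQf sm cusp χ 1, φ (crF hF χ 1 c) = 0)
    (e e' : DSub sm cusp k 2) (he : crW hF k 2 e = crW hF k 2 e') :
    φ (avF hF χ 2 e) = φ (avF hF χ 2 e') := by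
  exact WfG_indep0 hF χ φ hφ e e' he

/-- If the crossed homomorphism is principal then `φ` vanishes on cocycles.

Proof. As `dual_principal` (`AlgG.lean`): define a linear map `ψ` on `Z = ker crW` in degree three with
`ψ (crW e) = φ (avF e)` and `ψ (trW g w) = (χ g)⁻¹ * ψ w`: if `z` is a coboundary then `Z` consists of
coboundaries; otherwise `ψ z = a`: `ψ (trW g z) = ω g * a + φ (avF (e g)) = (χ g)⁻¹ * a` by `ha`. Compose with
`exists_retrW` and use `avF_ker`, `avF_surj`. -/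
theorem dual_principalW (hF : WFace Γ Ξ V sm cusp) (hT : TFree Γ) (χ ω : Γ →* kˣ)
    (z : DSub sm cusp k 3) (hz : crW hF k 3 z = 0)
    (hz' : ∀ f : DSub sm cusp k 3, crW hF k 3 f = 0 → ∃ (c : k) (e : DSub sm cusp k 2),
      f = c • z + crW hF k 2 e)
    (e : Γ → DSub sm cusp k 2)
    (he : ∀ g, crW hF k 2 (e g) = trW hF k 3 g z - (ω g : k) • z)
    (φ : EQf sm cusp χ 2 →ₗ[k] k) (hφ : ∀ c : EQf sm cusp χ 1, φ (crF hF χ 1 c) = 0) (a : k)
    (ha : ∀ g, φ (avF hF χ 2 (e g)) = ((((χ g)⁻¹ : kˣ) : k) - (ω g : k)) * a)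
    (c : EQf sm cusp χ 2) (hc : crF hF χ 2 c = 0) : φ c = 0 := by
  classical
  -- choice of the value at `z`
  have hex : ∃ a' : k, (∀ g, φ (avF hF χ 2 (e g)) = ((((χ g)⁻¹ : kˣ) : k) - (ω g : k)) * a') ∧
      ∀ (c : k) (f : DSub sm cusp k 2), c • z + crW hF k 2 f = 0 →
        c * a' + φ (avF hF χ 2 f) = 0 := by
    by_cases hB : ∃ f : DSub sm cusp k 2, crW hF k 2 f = z
    · obtain ⟨f₀, hf₀⟩ := hB
      refine ⟨φ (avF hF χ 2 f₀), fun g => ?_, fun c f hcf => ?_⟩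
      · have h1 : crW hF k 2 (e g) = crW hF k 2 (trW hF k 2 g f₀ - (ω g : k) • f₀) := by
          rw [map_sub, map_smul, crW_trW, hf₀, he]
        rw [dual_indepW hF χ φ hφ _ _ h1, map_sub, map_sub, map_smul, map_smul, smul_eq_mul,
          WfG_phi_avF_trW]
        ring
      · have h1 : crW hF k 2 (c • f₀ + f) = crW hF k 2 0 := by
          rw [map_add, map_smul, hf₀, hcf, map_zero]
        have h2 := dual_indepW hF χ φ hφ _ _ h1
        rw [map_add, map_smul, map_add, map_smul, smul_eq_mul, map_zero, map_zero] at h2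
        exact h2
    · refine ⟨a, ha, fun c f hcf => ?_⟩
      have hc0 : c = 0 := by
        by_contra hne
        apply hB
        refine ⟨-(c⁻¹ • f), ?_⟩
        have h1 : crW hF k 2 f = -(c • z) := eq_neg_of_add_eq_zero_right hcf
        rw [map_neg, map_smul, h1, smul_neg, neg_neg, smul_smul, inv_mul_cancel₀ hne, one_smul]
      subst hc0
      have h1 : crW hF k 2 f = crW hF k 2 0 := by
        rw [map_zero]
        simpa using hcf
      have h2 := dual_indepW hF χ φ hφ _ _ h1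
      rw [map_zero, map_zero] at h2
      rw [h2, zero_mul, add_zero]
  obtain ⟨a', ha', hker⟩ := hex
  -- the functional on the cocycles
  let Θ : (k × DSub sm cusp k 2) →ₗ[k] DSub sm cusp k 3 :=
    LinearMap.coprod (LinearMap.toSpanSingleton k _ z) (crW hF k 2)
  let Φ : (k × DSub sm cusp k 2) →ₗ[k] k :=
    LinearMap.coprod (LinearMap.toSpanSingleton k k a') (φ.comp (avF hF χ 2))
  have hΘ : ∀ (c : k) (f : DSub sm cusp k 2), Θ (c, f) = c • z + crW hF k 2 f := by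
    intro c f
    rfl
  have hΦ : ∀ (c : k) (f : DSub sm cusp k 2), Φ (c, f) = c * a' + φ (avF hF χ 2 f) := by
    intro c f
    rfl
  have hmem : Φ ∈ LinearMap.range Θ.dualMap := by
    rw [LinearMap.range_dualMap_eq_dualAnnihilator_ker, Submodule.mem_dualAnnihilator]
    rintro ⟨c, f⟩ hcf
    rw [LinearMap.mem_ker, hΘ] at hcf
    rw [hΦ]
    exact hker c f hcf
  obtain ⟨ψ, hψ⟩ := hmem
  have hψ' : ∀ (c : k) (f : DSub sm cusp k 2),
      ψ (c • z + crW hF k 2 f) = c * a' + φ (avF hF χ 2 f) := by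
    intro c f
    rw [← hΘ, ← hΦ, ← hψ]
    rfl
  obtain ⟨ρ, hρ1, hρ2, hρ3⟩ := exists_retrW (sm := sm) (cusp := cusp) hF hT k 3 le_rfl
  have hΨ : ∀ g f, (ψ.comp ρ) (trW hF k 3 g f) = (((χ g)⁻¹ : kˣ) : k) * (ψ.comp ρ) f := by
    intro g f
    rw [LinearMap.comp_apply, LinearMap.comp_apply, hρ1]
    obtain ⟨c₁, f₁, h1⟩ := hz' (ρ f) (hρ2 f)
    have h2 : trW hF k 3 g (ρ f) =
        (c₁ * (ω g : k)) • z + crW hF k 2 (c₁ • e g + trW hF k 2 g f₁) := by
      rw [h1, map_add, map_smul, map_add, map_smul, crW_trW, he, smul_sub, smul_smul]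
      abel
    rw [h2, h1, hψ', hψ', map_add, map_smul, map_add, map_smul, smul_eq_mul, WfG_phi_avF_trW, ha']
    ring
  obtain ⟨f, rfl⟩ := avF_surj hF hT χ 2 c
  rw [crF_avF] at hc
  have h3 := avF_ker hF hT χ 3 (ψ.comp ρ) hΨ hc
  rw [LinearMap.comp_apply, hρ3 _ (crW_crW hF f)] at h3
  have h4 := hψ' 0 f
  rw [zero_smul, zero_add, zero_mul, zero_add] at h4
  rw [← h4]
  exact h3

end RCan
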