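import Pool.Agent.W_04c03c_h58.WfE
import Pool.Agent.W_04c03c_h58.AlgI

/-!
# Cocycles on finitely many cusps, for subgroups of arbitrary index
-/

namespace RCan

open MulAction

variable {Γ Ξ V : Type*} [Group Γ] [MulAction Γ Ξ] [MulAction Γ V]
  {sm : V → V → Prop} {cusp : V → Option Ξ} {k : Type*} [Field k]

theorem WfH_bl_alt (hF : WFace Γ Ξ V sm cusp) {χ : Γ →* kˣ} {β : V → V → k}
    (hβ : IsBd cusp χ β) : Alt (bl sm β) := by
  have h0 : ∀ l : List V, l.length ≠ 2 → bl sm β l = 0 := by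
    intro l hl
    by_contra h
    exact hl (AlgH_bl_len sm β h)
  constructor
  · intro l₁ x y l₂
    by_cases hl : l₁ = [] ∧ l₂ = []
    · rw [hl.1, hl.2, List.nil_append, List.nil_append]
      by_cases h : sm x y
      · rw [AlgH_bl_pair sm β h, AlgH_bl_pair sm β (hF.symm x y h)]
        exact AlgH_anti hβ x y
      · have h' : ¬ sm y x := fun h1 => h (hF.symm y x h1)
        rw [AlgH_bl_not sm β h, AlgH_bl_not sm β h', neg_zero]
    · have hlen : (l₁ ++ x :: y :: l₂).length ≠ 2 := by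
        intro h1
        apply hl
        simp only [List.length_append, List.length_cons] at h1
        exact ⟨List.length_eq_zero_iff.1 (by omega), List.length_eq_zero_iff.1 (by omega)⟩
      have hlen' : (l₁ ++ y :: x :: l₂).length ≠ 2 := by
        intro h1
        apply hlen
        simp only [List.length_append, List.length_cons] at h1 ⊢
        exact h1
      rw [h0 _ hlen, h0 _ hlen', neg_zero]
  · intro l₁ x l₂
    by_cases hl : l₁ = [] ∧ l₂ = []
    · rw [hl.1, hl.2, List.nil_append, AlgH_bl_pair sm β (hF.refl x)]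
      exact AlgH_xx hβ x
    · apply h0
      intro h1
      apply hl
      simp only [List.length_append, List.length_cons] at h1
      exact ⟨List.length_eq_zero_iff.1 (by omega), List.length_eq_zero_iff.1 (by omega)⟩

theorem WfH_bl_map (hF : WFace Γ Ξ V sm cusp) {χ : Γ →* kˣ} {β : V → V → k}
    (hβ : IsBd cusp χ β) (g : Γ) (l : List V) :
    bl sm β (l.map (fun x => g • x)) = (χ g : k) * bl sm β l := by
  match l with
  | [] => exact (mul_zero _).symm
  | [x] => exact (mul_zero _).symm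
  | [x, y] =>
    change bl sm β [g • x, g • y] = _
    by_cases h : sm x y
    · rw [AlgH_bl_pair sm β h, AlgH_bl_pair sm β (hF.smul_sm g x y h), hβ.equiv]
    · have h' : ¬ sm (g • x) (g • y) := by
        intro h1
        apply h
        have h2 := hF.smul_sm g⁻¹ _ _ h1
        rwa [inv_smul_smul, inv_smul_smul] at h2
      rw [AlgH_bl_not sm β h, AlgH_bl_not sm β h', mul_zero]
  | x :: y :: z :: l => exact (mul_zero _).symm

theorem WfH_const (hF : WFace Γ Ξ V sm cusp) (F : V → k) (h : ∀ x y, sm x y → F x = F y) (x y : V) :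
    F x = F y := by
  obtain ⟨rk, ps, hd⟩ := hF.dis
  have hex : ∀ (n : ℕ) (v : V), rk v ≤ n → ∃ v₀, rk v₀ = 0 ∧ F v = F v₀ := by
    intro n
    induction n with
    | zero =>
      intro v hv
      exact ⟨v, Nat.le_zero.1 hv, rfl⟩
    | succ n ih =>
      intro v hv
      rcases Nat.eq_zero_or_pos (rk v) with h0 | h0
      · exact ⟨v, h0, rfl⟩
      · obtain ⟨h1, h2⟩ := hd.1 v h0
        obtain ⟨v₀, h3, h4⟩ := ih (ps v) (by omega)
        exact ⟨v₀, h3, (h v (ps v) (h2 v (hF.refl v) le_rfl)).trans h4⟩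
  obtain ⟨x₀, h1, h2⟩ := hex _ x le_rfl
  obtain ⟨y₀, h3, h4⟩ := hex _ y le_rfl
  rw [h2, h4]
  exact h _ _ (hd.2 x₀ y₀ h1 h3)

/-- The same as `cr_bl_mem` (`AlgH.lean`), with the same proof (only `refl`, `symm`, `smul_sm`,
`cusp_smul` are used). -/
theorem cr_bl_memW (hF : WFace Γ Ξ V sm cusp) {χ : Γ →* kˣ} {β : V → V → k}
    (hβ : IsBd cusp χ β) : cr sm (bl sm β) ∈ EQ sm cusp χ 2 := by
  have hlen : ∀ l, cr sm (bl sm β) l ≠ 0 → l.length = 3 := by
    intro l hl
    by_contra hcon
    apply hl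
    unfold cr
    split_ifs
    · refine dl_eq_zero l fun l' _ h2 => ?_
      by_contra h3
      have := AlgH_bl_len sm β h3
      omega
    · rfl
  have hsml : ∀ l, cr sm (bl sm β) l ≠ 0 → Sml sm l := by
    intro l hl
    by_contra hcon
    apply hl
    unfold cr
    rw [if_neg hcon]
  refine ⟨⟨(WfH_bl_alt hF hβ).cr, hlen, ?_⟩, ?_⟩
  · intro l hl
    refine ⟨hsml l hl, ?_⟩
    rintro ⟨ξ, hξ⟩
    apply hl
    have h3 := hlen l hl
    have hs := hsml l hl
    match l, h3 with
    | [x, y, z], _ =>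
      rw [cr_of_sml _ hs, AlgH_co3]
      have hx : x ∈ [x, y, z] := by simp
      have hy : y ∈ [x, y, z] := by simp
      have hz : z ∈ [x, y, z] := by simp
      rw [AlgH_bl_pair sm β (hs y hy z hz), AlgH_bl_pair sm β (hs x hx z hz),
        AlgH_bl_pair sm β (hs x hx y hy), ← hβ.add ξ x y z (hξ x hx) (hξ y hy) (hξ z hz)]
      ring
  · intro g l
    unfold cr
    by_cases hl : Sml sm l
    · rw [if_pos hl, if_pos ((sml_smul hF.smul_sm g l).2 hl), co_map]
      have h1 : (fun l' => bl sm β (l'.map (fun x => g • x))) = (χ g : k) • bl sm β := by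
        funext l'
        exact WfH_bl_map hF hβ g l'
      rw [h1, co_smul]
      rfl
    · rw [if_neg hl, if_neg (fun h1 => hl ((sml_smul hF.smul_sm g l).1 h1)), mul_zero]

/-- Proof. `cr_bl_memW`, and the finiteness modulo `Γ`: if `cr sm (bl sm β) l ≠ 0` then `l` is relative and
some face `[x, y]` of `l` has `β x y ≠ 0` (`dl_eq_zero`), so `cusp x = some (g • ξ i)`. The list
`l.map (g⁻¹ • ·)` is relative and touches `ξ i` (`cusp (g⁻¹ • x) = some (ξ i)`), so by `hfull i` there is
`h` in the stabilizer with `h • g⁻¹ • x' ∈ F i` for all `x' ∈ l`. Take the union of the finite sets `F i`. -/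
theorem cr_bl_memF (hF : WFace Γ Ξ V sm cusp) {χ : Γ →* kˣ} {ι : Type*} [Finite ι] (ξ : ι → Ξ)
    (hfull : ∀ i, WFull Γ sm cusp (ξ i)) {β : V → V → k} (hβ : IsBd cusp χ β)
    (hs : ∀ x y, β x y ≠ 0 → ∃ (i : ι) (g : Γ), cusp x = some (g • ξ i)) :
    cr sm (bl sm β) ∈ EQf sm cusp χ 2 := by
  classical
  have hE := cr_bl_memW hF hβ
  choose F hF1 hF2 using hfull
  refine ⟨hE, ⋃ i, F i, Set.finite_iUnion hF1, ?_⟩
  intro l hl
  have hrl := hE.1.rl l hl
  have hface : ∃ l' : List V, l'.Sublist l ∧ l'.length + 1 = l.length ∧ bl sm β l' ≠ 0 := by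
    by_contra hcon
    push Not at hcon
    apply hl
    rw [cr_of_sml _ hrl.1]
    exact dl_eq_zero l fun l' h1 h2 => hcon l' h1 h2
  obtain ⟨l', h1, -, h3⟩ := hface
  have h4 := AlgH_bl_len sm β h3
  match l', h4 with
  | [x, y], _ =>
    have h5 : β x y ≠ 0 := by
      intro h6
      apply h3
      rw [AlgH_bl_eq, h6, ite_self]
    obtain ⟨i, g, hx⟩ := hs x y h5
    have hxl : x ∈ l := h1.subset (by simp)
    have hrl' : Rl sm cusp (l.map fun x => g⁻¹ • x) :=
      ⟨(sml_smul hF.smul_sm g⁻¹ l).2 hrl.1, fun h5 => hrl.2 ((inC_smul hF.cusp_smul g⁻¹ l).1 h5)⟩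
    have hc : cusp (g⁻¹ • x) = some (ξ i) := by
      rw [hF.cusp_smul, hx, Option.map_some, inv_smul_smul]
    obtain ⟨h, -, hh⟩ := hF2 i _ hrl' ⟨g⁻¹ • x, List.mem_map_of_mem hxl, hc⟩
    refine ⟨h * g⁻¹, fun z hz => Set.mem_iUnion.2 ⟨i, ?_⟩⟩
    rw [mul_smul]
    exact hh _ (List.mem_map_of_mem hz)

/-- The same as `bd_exact` (`AlgH.lean`), with the same proof. -/
theorem bd_exactW (hF : WFace Γ Ξ V sm cusp) {χ : Γ →* kˣ} {β : V → V → k} (hβ : IsBd cusp χ β)
    (e : List V → k) (he1 : e ∈ EQ sm cusp χ 1) (he : cr sm (bl sm β) = cr sm e) :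
    ∃ (f : V → k) (D : Γ → k), (∀ g x, f (g • x) = D g + (χ g : k) * f x) ∧
      (∀ g h, D (g * h) = D g + (χ g : k) * D h) ∧
      ∀ ξ x y, cusp x = some ξ → cusp y = some ξ → β x y = f y - f x := by
  have hsmall : ∀ x y z, sm x y → sm y z → sm x z → Sml sm [x, y, z] := by
    intro x y z h1 h2 h3 a ha b hb
    simp only [List.mem_cons, List.not_mem_nil, or_false] at ha hb
    rcases ha with rfl | rfl | rfl <;> rcases hb with rfl | rfl | rfl
    · exact hF.refl _
    · exact h1
    · exact h3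
    · exact hF.symm _ _ h1
    · exact hF.refl _
    · exact h2
    · exact hF.symm _ _ h3
    · exact hF.symm _ _ h2
    · exact hF.refl _
  obtain ⟨u, hu⟩ : ∃ u : V → V → k, ∀ x y, u x y = bl sm β [x, y] - e [x, y] := ⟨_, fun _ _ => rfl⟩
  have hcoc : ∀ x y z, sm x y → sm y z → sm x z → u x y + u y z = u x z := by
    intro x y z h1 h2 h3
    have h4 := congrFun he [x, y, z]
    rw [cr_of_sml _ (hsmall x y z h1 h2 h3), cr_of_sml _ (hsmall x y z h1 h2 h3), AlgH_co3,
      AlgH_co3] at h4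
    rw [hu, hu, hu]
    linear_combination h4
  obtain ⟨rk, ps, hd⟩ := hF.dis
  haveI := hF.ne
  obtain ⟨f', hf'⟩ := simply_connected hF.refl hF.symm hd
    (fun x y => Multiplicative.ofAdd (u x y)) (fun x y z h1 h2 h3 => by
      rw [← ofAdd_add, hcoc x y z h1 h2 h3])
  obtain ⟨f, hfdef⟩ : ∃ f : V → k, ∀ x, f x = Multiplicative.toAdd (f' x) := ⟨_, fun _ => rfl⟩
  have hf : ∀ x y, sm x y → u x y = f y - f x := by
    intro x y h
    have h1 := congrArg Multiplicative.toAdd (hf' x y h)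
    rw [toAdd_ofAdd, toAdd_mul, toAdd_inv] at h1
    rw [h1, hfdef, hfdef]
    ring
  have huequiv : ∀ (g : Γ) x y, u (g • x) (g • y) = (χ g : k) * u x y := by
    intro g x y
    have h1 := WfH_bl_map hF hβ g [x, y]
    have h2 := he1.2 g [x, y]
    rw [List.map_cons, List.map_cons, List.map_nil] at h1 h2
    rw [hu, hu, h1, h2, mul_sub]
  have hconst : ∀ (g : Γ) x y, f (g • x) - (χ g : k) * f x = f (g • y) - (χ g : k) * f y := by
    intro g x y
    refine WfH_const hF (fun x => f (g • x) - (χ g : k) * f x) (fun a b hab => ?_) x y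
    have h1 := hf _ _ (hF.smul_sm g a b hab)
    rw [huequiv, hf a b hab] at h1
    linear_combination h1
  obtain ⟨x₀⟩ := hF.ne
  have hfg : ∀ g x, f (g • x) = (f (g • x₀) - (χ g : k) * f x₀) + (χ g : k) * f x := by
    intro g x
    have h1 := hconst g x x₀
    linear_combination h1
  refine ⟨f, fun g => f (g • x₀) - (χ g : k) * f x₀, hfg, ?_, ?_⟩
  · intro g h
    have h1 : f ((g * h) • x₀) = (f (g • x₀) - (χ g : k) * f x₀) + (χ g : k) * f (h • x₀) := by
      rw [mul_smul]
      exact hfg g (h • x₀)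
    beta_reduce
    rw [h1, map_mul, Units.val_mul]
    ring
  · intro ξ x y hx hy
    have hstep : ∀ a b, sm a b → cusp a = some ξ → cusp b = some ξ → β a b = f b - f a := by
      intro a b hab ha hb
      have h0 : e [a, b] = 0 := by
        by_contra h1
        apply (he1.1.rl _ h1).2
        refine ⟨ξ, fun v hv => ?_⟩
        simp only [List.mem_cons, List.not_mem_nil, or_false] at hv
        rcases hv with rfl | rfl
        · exact ha
        · exact hb
      rw [← hf a b hab, hu, AlgH_bl_pair sm β hab, h0, sub_zero]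
    have hpath := hF.conn ξ x y hx hy
    have key : ∀ b, Relation.ReflTransGen (fun a b => sm a b ∧ cusp a = some ξ ∧ cusp b = some ξ) x b →
        cusp b = some ξ ∧ β x b = f b - f x := by
      intro b hb
      induction hb with
      | refl => exact ⟨hx, by rw [AlgH_xx hβ, sub_self]⟩
      | tail _ h2 ih =>
        obtain ⟨h3, h4, h5⟩ := h2
        refine ⟨h5, ?_⟩
        rw [← hβ.add ξ _ _ _ hx ih.1 h5, ih.2, hstep _ _ h3 h4 h5]
        ring
    exact (key y hpath).2

/-- The same as `exists_beta` (`AlgI.lean`), with the same proof; the support property is visible in the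
construction (`B c x y` is `0` or `AlgI_W .. c p y - AlgI_W .. c p x` with `cusp x = some (p.2 • ξ p.1)`, and
`AlgI_W .. c p` vanishes if `c p.1 = 0`). -/
theorem exists_betaW (hF : WFace Γ Ξ V sm cusp) (χ : Γ →* kˣ) {ι : Type*} (ξ : ι → Ξ)
    (hS : ∀ (i j : ι) (g : Γ), g • ξ i = ξ j → i = j)
    (hχ : ∀ i, ∀ h ∈ stabilizer Γ (ξ i), χ h = 1) :
    ∃ B : ((i : ι) → Additive (stabilizer Γ (ξ i)) →+ k) →ₗ[k] (V → V → k),
      ∀ c, IsBd cusp χ (B c) ∧
        (∀ x y, B c x y ≠ 0 → ∃ (i : ι) (g : Γ), cusp x = some (g • ξ i) ∧ c i ≠ 0) ∧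
        ∀ (i : ι) (x : V), cusp x = some (ξ i) →
          ∀ h : stabilizer Γ (ξ i), B c x ((h : Γ) • x) = c i (Additive.ofMul h) := by
  classical
  have hsec : ∀ i : ι, ∃ S : V → stabilizer Γ (ξ i),
      ∀ (h : stabilizer Γ (ξ i)) (x : V), S ((h : Γ) • x) = h * S x := by
    intro i
    exact AlgI_sec (H := stabilizer Γ (ξ i)) (W := V) fun h x hx =>
      Subtype.ext (hF.free (h : Γ) x hx)
  choose S hSS using hsec
  obtain ⟨T, hT⟩ : ∃ T : V → V → Prop, ∀ x y, T x y ↔ ∃ p : ι × Γ, cusp x = some (p.2 • ξ p.1) ∧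
      cusp y = some (p.2 • ξ p.1) := ⟨_, fun _ _ => Iff.rfl⟩
  have hadd : ∀ (c c' : (i : ι) → Additive (stabilizer Γ (ξ i)) →+ k) (p : ι × Γ)
      (x : V), AlgI_W χ ξ S (c + c') p x = AlgI_W χ ξ S c p x + AlgI_W χ ξ S c' p x := by
    intro c c' p x
    unfold AlgI_W
    rw [Pi.add_apply, AddMonoidHom.add_apply, mul_add]
  have hsmul : ∀ (a : k) (c : (i : ι) → Additive (stabilizer Γ (ξ i)) →+ k) (p : ι × Γ)
      (x : V), AlgI_W χ ξ S (a • c) p x = a * AlgI_W χ ξ S c p x := by
    intro a c p x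
    unfold AlgI_W
    rw [Pi.smul_apply, AddMonoidHom.smul_apply, smul_eq_mul]
    ring
  let B : ((i : ι) → Additive (stabilizer Γ (ξ i)) →+ k) →ₗ[k] (V → V → k) :=
    { toFun := fun c x y => if h : T x y then
        AlgI_W χ ξ S c ((hT x y).1 h).choose y - AlgI_W χ ξ S c ((hT x y).1 h).choose x else 0
      map_add' := by
        intro c c'
        funext x y
        rw [Pi.add_apply, Pi.add_apply]
        by_cases h : T x y
        · rw [dif_pos h, dif_pos h, dif_pos h, hadd, hadd]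
          ring
        · rw [dif_neg h, dif_neg h, dif_neg h, add_zero]
      map_smul' := by
        intro a c
        funext x y
        rw [Pi.smul_apply, Pi.smul_apply]
        by_cases h : T x y
        · rw [dif_pos h, dif_pos h, hsmul, hsmul, RingHom.id_apply, smul_eq_mul]
          ring
        · rw [dif_neg h, dif_neg h, smul_zero] }
  have hBn : ∀ c x y, ¬ T x y → B c x y = 0 := fun c x y h => dif_neg h
  have hBp : ∀ c x y (p : ι × Γ), cusp x = some (p.2 • ξ p.1) → cusp y = some (p.2 • ξ p.1) →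
      B c x y = AlgI_W χ ξ S c p y - AlgI_W χ ξ S c p x := by
    intro c x y p hx hy
    have h : T x y := (hT x y).2 ⟨p, hx, hy⟩
    have h1 : B c x y = AlgI_W χ ξ S c ((hT x y).1 h).choose y -
        AlgI_W χ ξ S c ((hT x y).1 h).choose x := dif_pos h
    rw [h1]
    have h2 := Option.some.inj (hx.symm.trans ((hT x y).1 h).choose_spec.1)
    have h3 := AlgI_A χ ξ hS hχ S hSS c p ((hT x y).1 h).choose 1 (by rw [one_smul]; exact h2) x y
    rw [one_smul, one_smul, map_one, Units.val_one, one_mul] at h3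
    exact h3
  refine ⟨B, fun c => ⟨⟨?_, ?_, ?_⟩, ?_, ?_⟩⟩
  · intro x y h
    apply hBn
    intro h1
    obtain ⟨p, h2, h3⟩ := (hT x y).1 h1
    exact h ⟨_, h2, h3⟩
  · intro η x y z hx hy hz
    by_cases h : ∃ p : ι × Γ, p.2 • ξ p.1 = η
    · obtain ⟨p, hp⟩ := h
      rw [← hp] at hx hy hz
      rw [hBp c x y p hx hy, hBp c y z p hy hz, hBp c x z p hx hz]
      ring
    · have hno : ∀ a b, cusp a = some η → ¬ T a b := by
        intro a b ha h1
        obtain ⟨p, h2, -⟩ := (hT a b).1 h1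
        rw [ha, Option.some.injEq] at h2
        exact h ⟨p, h2.symm⟩
      rw [hBn c x y (hno x y hx), hBn c y z (hno y z hy), hBn c x z (hno x z hx), add_zero]
  · intro g x y
    by_cases h : T x y
    · obtain ⟨p, hx, hy⟩ := (hT x y).1 h
      have hx' : cusp (g • x) = some (((p.1, g * p.2) : ι × Γ).2 • ξ ((p.1, g * p.2) : ι × Γ).1) := by
        rw [hF.cusp_smul, hx, Option.map_some, smul_smul]
      have hy' : cusp (g • y) = some (((p.1, g * p.2) : ι × Γ).2 • ξ ((p.1, g * p.2) : ι × Γ).1) := by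
        rw [hF.cusp_smul, hy, Option.map_some, smul_smul]
      rw [hBp c x y p hx hy, hBp c (g • x) (g • y) (p.1, g * p.2) hx' hy']
      exact AlgI_A χ ξ hS hχ S hSS c p (p.1, g * p.2) g (by rw [smul_smul]) x y
    · have h' : ¬ T (g • x) (g • y) := by
        intro h1
        apply h
        obtain ⟨p, hx, hy⟩ := (hT _ _).1 h1
        refine (hT x y).2 ⟨(p.1, g⁻¹ * p.2), ?_, ?_⟩
        · have h2 := hF.cusp_smul g⁻¹ (g • x)
          rw [inv_smul_smul, hx, Option.map_some, smul_smul] at h2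
          exact h2
        · have h2 := hF.cusp_smul g⁻¹ (g • y)
          rw [inv_smul_smul, hy, Option.map_some, smul_smul] at h2
          exact h2
      rw [hBn c x y h, hBn c _ _ h', mul_zero]
  · intro x y hne
    by_cases h : T x y
    · obtain ⟨p, hx, hy⟩ := (hT x y).1 h
      refine ⟨p.1, p.2, hx, fun hc0 => hne ?_⟩
      rw [hBp c x y p hx hy]
      unfold AlgI_W
      rw [hc0, AddMonoidHom.zero_apply, AddMonoidHom.zero_apply, mul_zero, sub_zero]
    · exact absurd (hBn c x y h) hne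
  · intro i x hx h
    have hx' : cusp x = some (((i, 1) : ι × Γ).2 • ξ ((i, 1) : ι × Γ).1) := by
      rw [hx, one_smul]
    have hy' : cusp ((h : Γ) • x) = some (((i, 1) : ι × Γ).2 • ξ ((i, 1) : ι × Γ).1) := by
      rw [hF.cusp_smul, hx, Option.map_some, one_smul]
      exact congrArg some h.2
    rw [hBp c x _ (i, 1) hx' hy']
    exact AlgI_B χ ξ S hSS c i h x

end RCan
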