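import Pool.Agent.W_04c03c_h58.Inf
import Pool.Agent.W_04c03c_h58.Dual

/-!
# Vanishing of the cohomology in degree one
-/

namespace RCan

variable {N Ξ V : Type*} [Group N] [MulAction N Ξ] [MulAction N V] {sm : V → V → Prop}
  {cusp : V → Option Ξ} {π : V → E3} {ctr : Ξ → E3} {d : V → ℝ}

theorem WfH1a_dl_pair {A : Type*} [AddCommGroup A] (e : List V → A) (x y : V) :
    dl [x, y] e = e [y] - e [x] := by
  rw [dl_cons, dl_cons, dl_nil, sub_zero]

theorem WfH1a_bd_pt {k : Type*} [Field k] (x y : V) :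
    bd k (Finsupp.single [x] (1 : k) - Finsupp.single [y] (1 : k)) = 0 := by
  rw [map_sub, bd_single_one, bd_single_one, bdl_cons, bdl_cons, bdl_nil, map_zero, map_zero,
    sub_self]

theorem WfH1a_lc_pt {k : Type*} [Field k] (e : List V → k) (x y : V) :
    Finsupp.linearCombination k e (Finsupp.single [x] (1 : k) - Finsupp.single [y] (1 : k))
      = e [x] - e [y] := by
  rw [map_sub, Finsupp.linearCombination_single, Finsupp.linearCombination_single, one_smul,
    one_smul]

theorem WfH1a_supp {k : Type*} [Field k] (hr : ∀ v, sm v v) {T : Set V} {x y : V} (hx : x ∈ T)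
    (hy : y ∈ T) : Finsupp.single [x] (1 : k) - Finsupp.single [y] (1 : k) ∈
      Finsupp.supported k k (SmT sm T 1) := by
  have key : ∀ z ∈ T, Finsupp.single [z] (1 : k) ∈ Finsupp.supported k k (SmT sm T 1) := by
    intro z hz
    refine Finsupp.single_mem_supported k _ ⟨⟨?_, ?_⟩, rfl⟩
    · intro a ha b hb
      rw [List.mem_singleton] at ha hb
      rw [ha, hb]
      exact hr z
    · intro a ha
      rw [List.mem_singleton] at ha
      rw [ha]
      exact hz
  exact Submodule.sub_mem _ (key x hx) (key y hy)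

theorem WfH1a_sphere : IsPreconnected S2 := by
  apply isPreconnected_sphere
  have h1 : Module.finrank ℝ E3 = 3 := by
    simp [E3]
  rw [← Module.finrank_eq_rank, h1]
  norm_num

theorem WfH1a_const {k : Type*} (g : E3 → k) {ε : ℝ} (hε : 0 < ε)
    (hg : ∀ z ∈ S2, ∀ z' ∈ S2, dist z z' < ε → g z = g z') :
    ∀ z ∈ S2, ∀ z' ∈ S2, g z = g z' := by
  let _ : TopologicalSpace k := ⊥
  have : DiscreteTopology k := ⟨rfl⟩
  intro z hz z' hz'
  have hcont : ContinuousOn g S2 := by
    intro a ha
    refine ContinuousWithinAt.congr_of_eventuallyEq (f := fun _ => g a)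
      continuousWithinAt_const ?_ rfl
    have h1 : Metric.ball a ε ∈ nhds a := Metric.ball_mem_nhds a hε
    filter_upwards [mem_nhdsWithin_of_mem_nhds h1, self_mem_nhdsWithin] with b hb hbS
    exact hg b hbS a ha (Metric.mem_ball.1 hb)
  exact WfH1a_sphere.constant hcont hz hz'

/-- A relative cocycle of degree one with finite support is the coboundary of a relative cochain of
degree zero with finite support, if the sphere at infinity is connected and the cusps are unbounded.

Proof. (a) `exists_co_of_cycles` (`Dual.lean`) for `S = {l | Sml sm l}`, `n = 1` and `f` (as in step (a) of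
`exists_rel`, `InfA.lean`: cycles of small lists of length two are boundaries by `h.acV`, and `f` vanishes
on boundaries since `cr sm f = 0`) gives `e₀` with `co e₀ l = f l` for small lists `l` of length two. Put
`θ v = e₀ [v]`, so `f [x, y] = θ y - θ x` for `sm x y`.
(b) `θ x = θ y` if `cusp x = cusp y = some ξ`: the chain `single [x] 1 - single [y] 1` is a cycle
(`bd (single [x] 1) = single [] 1`) of small lists in the horoball, so it is `bd b` with `b` supported on small
lists of length two in the horoball (`h.acC ξ k 1`); the linear combination with `θ` (that is with `e₀`) of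
`bd b` is the one of `b` with `co e₀ = f` (`lc_bd`, `lc_eq_zero`), and `f` vanishes on lists in a horoball
(`hf.rl`).
(c) Let `R` be larger than `d v` for all entries `v` of the finitely many lists in the support of `f`, and
`y, ε, R'` as in `h.near R`. For `v, w` with `R' ≤ d v, d w` the same argument with the cycle
`single [v] 1 - single [w] 1` (length one, `m = 1`) gives `b` with
`bd b = mp (y ∘ π) c - c`, supported on small lists of length two in `{R ≤ d}`, where `f` vanishes; so
`θ (y (π v)) - θ (y (π w)) = θ v - θ w`. The function `z ↦ θ (y z)` on the sphere is locally constant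
(`dist z z' < ε` gives `sm (y z) (y z')` and both are far, so `f [y z, y z'] = 0`), hence constant because the
sphere `S2` is preconnected (`isPreconnected_sphere`, rank of `E3` is `3 > 1`). So `θ v = θ w`.
(d) If there is a vertex `v₀` with `R' ≤ d v₀` let `c₀ = θ v₀`. Every cusp is infinite (`hinf`), so it has a
vertex with `R' ≤ d` (`h.ball`), hence `θ = c₀` on all cusps by (b), (c). If there is no such vertex then `V` is
finite (`h.ball R'`) and there is no cusp; let `c₀ = 0`.
(e) `e l = θ v - c₀` if `l = [v]`, and `0` for all other lists. It is in degree zero: alternating (clear for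
lists of length one; `Alt` has two clauses), relative (`h.refl`, and `θ v = c₀` if `v` is in a cusp), with
support in the finite set of the `[v]`, `d v ≤ R'`. `cr sm e = f`: on small lists `[x, y]` it is
`θ y - θ x = f [x, y]`, all other values are zero. -/
theorem face_h1 (h : InfD N Ξ V sm cusp π ctr d) (hinf : ∀ ξ, {v | cusp v = some ξ}.Infinite)
    (k : Type) [Field k] (f : List V → k) (hf : IsD sm cusp k 1 f) (hc : cr sm f = 0) :
    ∃ e, IsD sm cusp k 0 e ∧ cr sm e = f := by
  classical
  have hfl : ∀ l, l.length ≠ 2 → f l = 0 := by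
    intro l hl
    by_contra hne
    exact hl (hf.len l hne)
  have hf0 : ∀ l, ¬ Sml sm l → f l = 0 := by
    intro l hl
    by_contra hne
    exact hl (hf.rl l hne).1
  have hfC : ∀ l ξ, (∀ x ∈ l, cusp x = some ξ) → f l = 0 := by
    intro l ξ hl
    by_contra hne
    exact (hf.rl l hne).2 ⟨ξ, hl⟩
  have hco : ∀ l, Sml sm l → co f l = 0 := by
    intro l hl
    rw [← cr_of_sml f hl, hc]
    rfl
  -- (a)
  obtain ⟨e₀, he1, he2⟩ := exists_co_of_cycles {l : List V | Sml sm l}
    (fun l hl l' h1 _ => hl.sub h1.subset) 1 f (by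
      intro c hcs hcb
      have hcs' : c ∈ Finsupp.supported k k (SmT sm (Set.univ : Set V) 2) := by
        refine Finsupp.supported_mono ?_ hcs
        rintro l ⟨h1, h2⟩
        exact ⟨⟨h1, fun x _ => Set.mem_univ x⟩, h2⟩
      obtain ⟨b, hb, hbc⟩ := h.acV k 2 c hcs' hcb
      rw [← hbc, lc_bd]
      exact lc_eq_zero (fun l hl => hco l hl.1.1) hb)
  have he2' : ∀ l, Sml sm l → l.length = 2 → co e₀ l = f l := fun l hl hn => he2 l hl hn
  -- (b)
  have hb : ∀ ξ x y, cusp x = some ξ → cusp y = some ξ → e₀ [x] = e₀ [y] := by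
    intro ξ x y hx hy
    obtain ⟨b, hb, hbc⟩ := h.acC ξ k 1 _
      (WfH1a_supp (k := k) (T := {v | cusp v = some ξ}) h.refl hx hy) (WfH1a_bd_pt x y)
    have h1 := WfH1a_lc_pt e₀ x y
    rw [← hbc, lc_bd, lc_eq_zero (fun l hl => ?_) hb] at h1
    · exact (sub_eq_zero.1 h1.symm)
    · rw [he2' l hl.1.1 hl.2]
      exact hfC l ξ hl.1.2
  -- (c)
  obtain ⟨R, hR⟩ : ∃ R : ℝ, ∀ l, f l ≠ 0 → ∀ x ∈ l, d x < R := by
    have hfin : (⋃ l ∈ Function.support f, {x | x ∈ l}).Finite :=
      hf.fin.biUnion fun l _ => List.finite_toSet l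
    obtain ⟨R₀, hR₀⟩ := (hfin.image d).bddAbove
    refine ⟨R₀ + 1, fun l hl x hx => ?_⟩
    have h1 : d x ≤ R₀ := by
      apply hR₀
      refine ⟨x, ?_, rfl⟩
      simp only [Set.mem_iUnion]
      exact ⟨l, hl, hx⟩
    linarith
  have hfR : ∀ l x, x ∈ l → R ≤ d x → f l = 0 := by
    intro l x hx hd
    by_contra hne
    exact absurd (hR l hne x hx) (not_lt.mpr hd)
  obtain ⟨y, ε, R', hε, hy1, hy2, hy3, hy4⟩ := h.near R
  have hconst : ∀ z ∈ S2, ∀ z' ∈ S2, e₀ [y z] = e₀ [y z'] := by
    refine WfH1a_const (fun z => e₀ [y z]) hε ?_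
    intro z hz z' hz' hd
    show e₀ [y z] = e₀ [y z']
    have hs : Sml sm [y z, y z'] := by
      intro a ha b hb
      simp only [List.mem_cons, List.not_mem_nil, or_false] at ha hb
      rcases ha with rfl | rfl <;> rcases hb with rfl | rfl
      · exact h.refl _
      · exact hy2 z hz z' hz' hd
      · exact h.symm _ _ (hy2 z hz z' hz' hd)
      · exact h.refl _
    have h1 := he2' _ hs rfl
    rw [co_apply, WfH1a_dl_pair, hfR _ (y z) (by simp) (hy1 z hz)] at h1
    exact (sub_eq_zero.1 h1).symm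
  have hfar : ∀ v w, R' ≤ d v → R' ≤ d w → e₀ [v] = e₀ [w] := by
    intro v w hv hw
    obtain ⟨b, hb, hbc⟩ := hy4 k 1 _
      (WfH1a_supp (k := k) (T := {v | R' ≤ d v}) h.refl hv hw) (WfH1a_bd_pt v w)
    have h1 : Finsupp.linearCombination k e₀ (bd k b) = 0 := by
      rw [lc_bd]
      refine lc_eq_zero (fun l hl => ?_) hb
      rw [he2' l hl.1.1 hl.2]
      have hne : l ≠ [] := by
        intro h0
        have := hl.2
        rw [h0] at this
        simp at this
      obtain ⟨x, hx⟩ := List.exists_mem_of_ne_nil l hne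
      exact hfR l x hx (hl.1.2 x hx)
    rw [hbc, map_sub, map_sub, mp_single, mp_single, List.map_cons, List.map_nil, List.map_cons,
      List.map_nil, WfH1a_lc_pt, WfH1a_lc_pt, hconst _ (h.sph v) _ (h.sph w), sub_self,
      zero_sub, neg_eq_zero] at h1
    exact sub_eq_zero.1 h1
  -- (d)
  have hcusp : ∀ ξ, ∃ v, cusp v = some ξ ∧ R' ≤ d v := by
    intro ξ
    by_contra hcon
    push Not at hcon
    exact hinf ξ ((h.ball R').subset fun v hv => (hcon v hv).le)
  obtain ⟨c₀, hc1⟩ : ∃ c₀ : k, ∀ v, R' ≤ d v → e₀ [v] = c₀ := by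
    by_cases hex : ∃ v₀, R' ≤ d v₀
    · obtain ⟨v₀, hv₀⟩ := hex
      exact ⟨e₀ [v₀], fun v hv => hfar v v₀ hv hv₀⟩
    · exact ⟨0, fun v hv => absurd ⟨v, hv⟩ hex⟩
  have hc2 : ∀ v ξ, cusp v = some ξ → e₀ [v] = c₀ := by
    intro v ξ hv
    obtain ⟨w, hw, hdw⟩ := hcusp ξ
    rw [hb ξ v w hv hw]
    exact hc1 w hdw
  -- (e)
  obtain ⟨e, he⟩ : ∃ e : List V → k, e = fun l => if l.length = 1 then e₀ l - c₀ else 0 := ⟨_, rfl⟩
  have he' : ∀ l, l.length ≠ 1 → e l = 0 := by
    intro l hl
    rw [he]
    exact if_neg hl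
  have hev : ∀ v, e [v] = e₀ [v] - c₀ := by
    intro v
    rw [he]
    exact if_pos rfl
  have hne : ∀ l, e l ≠ 0 → ∃ v, l = [v] ∧ e₀ [v] ≠ c₀ := by
    intro l hl
    have h1 : l.length = 1 := by
      by_contra hcon
      exact hl (he' l hcon)
    obtain ⟨v, rfl⟩ := List.length_eq_one_iff.1 h1
    refine ⟨v, rfl, fun h2 => hl ?_⟩
    rw [hev, h2, sub_self]
  refine ⟨e, ⟨⟨?_, ?_⟩, ?_, ?_, ?_⟩, ?_⟩
  · intro l₁ x y' l₂
    rw [he' _ (by simp; omega), he' _ (by simp; omega), neg_zero]
  · intro l₁ x l₂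
    exact he' _ (by simp; omega)
  · intro l hl
    obtain ⟨v, rfl, _⟩ := hne l hl
    rfl
  · intro l hl
    obtain ⟨v, rfl, hv⟩ := hne l hl
    refine ⟨?_, ?_⟩
    · intro a ha b hb
      rw [List.mem_singleton] at ha hb
      rw [ha, hb]
      exact h.refl v
    · rintro ⟨ξ, hξ⟩
      exact hv (hc2 v ξ (hξ v (by simp)))
  · refine ((h.ball R').image fun v => [v]).subset ?_
    intro l hl
    obtain ⟨v, rfl, hv⟩ := hne l hl
    refine ⟨v, ?_, rfl⟩
    by_contra hcon
    exact hv (hc1 v (not_le.1 hcon).le)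
  · funext l
    by_cases hs : Sml sm l
    · rw [cr_of_sml _ hs]
      by_cases hl : l.length = 2
      · rw [← he2' l hs hl]
        obtain ⟨x, y', rfl⟩ := List.length_eq_two.1 hl
        rw [co_apply, co_apply, WfH1a_dl_pair, WfH1a_dl_pair, hev, hev]
        ring
      · rw [hfl l hl]
        refine dl_eq_zero l fun l' h1 h2 => he' l' ?_
        omega
    · rw [hf0 l hs]
      simp [cr, hs]

end RCan
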