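import Pool.Agent.W_04c03c_h58.Asm
import Pool.Agent.W_04c03c_h58.WfH1a

/-!
# Assembly of the interfaces, with the vanishing of the cohomology in degree one
-/

namespace RCan

open Set
open scoped NNReal Pointwise

universe u

/-- Assembly. This is `exists_face` (`Asm.lean`) with two more conclusions for the same data. Copy the
proof of `exists_face`: it constructs `hinf : InfD ..` and then the fields of `Face`. The second conclusion is
`face_h1 hinf` (`WfH1a.lean`), once the third is proved: for a horoball `B = HB γ c` (`hset`), the set of the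
vertices `v` with `pt v ∈ HB γ c` (`hcs`) is infinite because it contains, for every `R`, a vertex with
`R ≤ dist o (pt v)`: `γ t` is deep in `HB γ c` for large `t` and the net has a point within distance `1` of
`γ t` (`hN.dense` or the like, see `exists_pt_mem` and `IsNet`); if the set were finite then `dist o (pt v)`
would be bounded on it. -/
theorem exists_face1 {N : Type u} [Group N] {X : Type} [MetricSpace X] [ProperSpace X]
    [MulAction N X] {𝓗 : Set (Set X)} (hG : IsGeod X) (hH : IsHyp X) (hC : Cusped N 𝓗)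
    (h : Bdry X ≃ₜ S2) : ∃ (V : Type u) (_ : MulAction N V) (sm : V → V → Prop)
      (cusp : V → Option 𝓗), @Face N 𝓗 V _ (cuspAct hC) _ sm cusp ∧
        (∀ (k : Type) [Field k] (f : List V → k), IsD sm cusp k 1 f → cr sm f = 0 →
          ∃ e, IsD sm cusp k 0 e ∧ cr sm e = f) ∧
        ∀ B : 𝓗, {v | cusp v = some B}.Infinite := by
  obtain ⟨δ, hδ⟩ := exists_hyp4 hH
  have : Nontrivial S2 := by
    have h3 : (EuclideanSpace.single (0 : Fin 3) (1 : ℝ)) ∈ S2 := by simp
    have h4 : -(EuclideanSpace.single (0 : Fin 3) (1 : ℝ)) ∈ S2 := by simp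
    refine ⟨⟨⟨_, h3⟩, ⟨_, h4⟩, fun h5 => ?_⟩⟩
    have h6 := congrArg (fun z : S2 => z.1.ofLp 0) h5
    simp at h6
    norm_num at h6
  have hnt : Nontrivial (Bdry X) := h.toEquiv.nontrivial
  obtain ⟨o, ho⟩ := exists_base hδ hG hC hnt
  have : Nonempty X := ⟨o⟩
  obtain ⟨I, hN⟩ := exists_net (N := N) hC.isom hC.pd
  set pt : NV N I → X := ptN I with hpt
  have hp : ∀ (g : N) v, pt (g • v) = g • pt v := ptN_smul I
  obtain ⟨π, ctr, C, hπ, hπc, hctr, hS⟩ := exists_shadow hδ hG hC h ho pt
  letI : MulAction N 𝓗 := cuspAct hC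
  have hcs := fun v B => cuspOf_eq hC.disj pt v B
  have hset : ∀ B : 𝓗, ∃ γ c, B.1 = HB γ c := fun B => horo_HB hC B.2
  have hinf : InfD N 𝓗 (NV N I) (smr δ pt) (cuspOf 𝓗 pt) π ctr (fun v => dist o (pt v)) := by
    refine
      { refl := fun v => ?_
        symm := fun v w hvw => ?_
        smul_sm := fun g v w hvw => ?_
        cusp_smul := fun g v => cuspOf_smul hC pt hp g v
        ex := fun B => ?_
        sph := hπ
        ball := fun R => hN.lf o R
        smd := ⟨sc δ, fun v w hvw => ?_⟩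
        pi_cusp := fun v B hv => hπc v B ((hcs v B).1 hv)
        ctr_inj := ?_
        acV := fun k _ m => ac_univ hδ hG hN k m
        acC := fun B k _ m => ?_
        far := fun R => ⟨2 * (R + δ + 1), fun B k _ m hm => ?_⟩
        cont := fun ε he => shadow_cont hδ hG h hπ hS he
        near := fun R => shadow_near hδ hG h hN hπ hS R
        act := fun g => ?_ }
    · show dist (pt v) (pt v) ≤ sc δ
      rw [dist_self]; unfold sc; have := hδ.1; linarith
    · show dist (pt w) (pt v) ≤ sc δ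
      rw [dist_comm]; exact hvw
    · show dist (pt (g • v)) (pt (g • w)) ≤ sc δ
      rw [hp, hp, hC.isom]; exact hvw
    · obtain ⟨v, hv⟩ := exists_pt_mem hN hC B
      exact ⟨v, (hcs v B).2 hv⟩
    · have h1 := dist_triangle o (pt v) (pt w)
      have h2 : dist (pt v) (pt w) ≤ sc δ := hvw
      show dist o (pt w) ≤ dist o (pt v) + sc δ
      linarith
    · intro B B' hBB
      by_contra hne
      obtain ⟨γ, c, hγ⟩ := hset B
      obtain ⟨γ', c', hγ'⟩ := hset B'
      have hd : Disjoint (HB γ c) (HB γ' c') := by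
        rw [← hγ, ← hγ']
        exact hC.disj B.2 B'.2 (fun h1 => hne (Subtype.ext h1))
      apply horo_not_asym hd
      rw [← bp_eq h, ← hctr B γ c hγ, ← hctr B' γ' c' hγ']
      exact hBB
    · obtain ⟨γ, c, hγ⟩ := hset B
      have hs : {v | cuspOf 𝓗 pt v = some B} = {v | pt v ∈ HB γ c} := by
        ext v
        rw [mem_ofPred_eq, mem_ofPred_eq, hcs, hγ]
      rw [hs]
      exact ac_horo hδ hG hN γ c k m
    · obtain ⟨γ, c, hγ⟩ := hset B
      have hs : ∀ R : ℝ, {v | cuspOf 𝓗 pt v = some B ∧ R ≤ dist o (pt v)}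
          = {v | pt v ∈ HB γ c ∧ R ≤ dist o (pt v)} := by
        intro R
        ext v
        rw [mem_ofPred_eq, mem_ofPred_eq, hcs, hγ]
      rw [hs, hs]
      refine far_horo hδ hG hN γ c o ?_ R k m hm
      rw [← hγ]
      exact ho B.1 B.2
    · obtain ⟨η, hη1, hη2, hη3⟩ := exists_act hC.isom h g
      refine ⟨η, hη1, hη2, ?_, fun ε he => shadow_act hδ hG h hC.isom hp hπ hS g hη3 he⟩
      intro B
      obtain ⟨γ, c, hγ⟩ := hset B
      have h1 : (g • B : 𝓗).1 = HB (sray hC.isom g γ) c := by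
        rw [← smul_HB, ← hγ]
        rfl
      rw [hctr _ _ _ h1, hctr B γ c hγ, hη3]
  have hunb : ∀ B : 𝓗, {v | cuspOf 𝓗 pt v = some B}.Infinite := by
    intro B hfin
    obtain ⟨γ, c, hγ⟩ := hset B
    obtain ⟨M, hM⟩ := (hfin.image fun v => dist o (pt v)).bddAbove
    obtain ⟨t, ht⟩ : ∃ t : ℝ≥0, max (1 - c) (M + dist o (γ.1 0) + 1) < (t : ℝ) := by
      refine ⟨Real.toNNReal (max (1 - c) (M + dist o (γ.1 0) + 1) + 1), ?_⟩
      have := Real.le_coe_toNNReal (max (1 - c) (M + dist o (γ.1 0) + 1) + 1)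
      linarith
    obtain ⟨ht1, ht2⟩ := max_lt_iff.1 ht
    obtain ⟨v, hv⟩ := hN.dense (γ.1 t)
    have hvB : pt v ∈ B.1 := by
      rw [hγ]
      refine ⟨t, ?_⟩
      rw [dist_comm]
      linarith
    have h1 : dist o (pt v) ≤ M := hM ⟨v, (hcs v B).2 hvB, rfl⟩
    have h2 : dist (γ.1 0) (γ.1 t) = t := by
      rw [γ.2.dist_eq, NNReal.dist_eq, NNReal.coe_zero, zero_sub, abs_neg]
      exact abs_of_nonneg t.2
    have h3 := dist_triangle (γ.1 0) o (γ.1 t)
    have h4 := dist_triangle o (pt v) (γ.1 t)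
    rw [dist_comm (γ.1 0) o] at h3
    rw [dist_comm (pt v) (γ.1 t)] at h4
    linarith
  refine ⟨NV N I, inferInstance, smr δ pt, cuspOf 𝓗 pt, ?_,
    fun k _ f hf hc => face_h1 hinf hunb k f hf hc, hunb⟩
  obtain ⟨u0, hu0⟩ := as_sphere.2.2
  obtain ⟨u, hu1, hu2, hu3, hu4⟩ := cyc_alt hu0
  refine
    { refl := hinf.refl
      symm := hinf.symm
      smul_sm := hinf.smul_sm
      cusp_smul := hinf.cusp_smul
      ex := hinf.ex
      free := fun g v hgv => NV.free g v hgv
      conn := fun B v w hv hw => ?_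
      dis := dis_univ hδ hG hN
      ne := ?_
      fin := fin_rel hG hC hN hp
      h2 := fun k _ f hf hc => face_h2 hinf k f hf hc
      hn := fun k _ n hn f hf hc => face_hn hinf k n hn f hf hc
      h3 := ⟨cr (smr δ pt) (ap (smr δ pt) π u), isD_cr_ap hinf (n := 2) (by norm_num) hu1 hu2 hu3,
        cr_cr _, fun k _ f hf hc => face_h3a hinf hu1 hu2 hu4 k f hf hc,
        fun g => face_h3b hinf hu1 hu2 hu3 hu4 g⟩ }
  · obtain ⟨γ, c, hγ⟩ := hset B
    have hs : ∀ v, cuspOf 𝓗 pt v = some B ↔ pt v ∈ HB γ c := by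
      intro v
      rw [hcs, hγ]
    have := conn_horo hδ hG hN γ c v w ((hs v).1 hv) ((hs w).1 hw)
    simpa only [hs] using this
  · obtain ⟨v, -⟩ := hN.dense o
    exact ⟨v⟩

end RCan
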