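import Mathlib

/-!
# Linear algebra for the half lives inequality
-/

namespace RCan

/-- Let `Θ : W → Q` be a linear map with `W` finite-dimensional, whose kernel is contained in the range of
`r₁ : X₁ → W`, and let `δ : Dual Q → X₂` and `r₂ : X₂ → W` be linear maps such that `r₂ (δ φ) = 0` implies
`φ ∘ Θ = 0`. Then `dim W ≤ rank r₁ + rank r₂`.

Proof. `finrank W = finrank (range Θ) + finrank (ker Θ)`, `finrank (ker Θ) ≤ finrank (range r₁)`. The range of
the transposed map `Θ.dualMap : Dual Q → Dual W` has dimension at least `finrank (range Θ)`: every functional on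
`range Θ` extends to `Q` (`LinearMap.exists_extend`), so the map from `range Θ.dualMap` to
`Dual (range Θ)` is onto (or `LinearMap.finrank_range_dualMap_eq_finrank_range`,
`LinearMap.range_dualMap_eq_dualAnnihilator_ker`). Its kernel contains the kernel of `r₂ ∘ δ`, so
`finrank (range Θ.dualMap) ≤ finrank (range (r₂ ∘ δ)) ≤ finrank (range r₂)` (all in finite-dimensional
spaces; `(ker (r₂ ∘ δ)).liftQ` or `LinearMap.quotKerEquivRange`). -/
theorem lin_half {F W Q X₁ X₂ : Type*} [Field F] [AddCommGroup W] [Module F W] [AddCommGroup Q]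
    [Module F Q] [AddCommGroup X₁] [Module F X₁] [AddCommGroup X₂] [Module F X₂]
    [FiniteDimensional F W] (Θ : W →ₗ[F] Q) (r₁ : X₁ →ₗ[F] W) (r₂ : X₂ →ₗ[F] W)
    (h1 : ∀ w, Θ w = 0 → ∃ x, r₁ x = w) (δ : Module.Dual F Q →ₗ[F] X₂)
    (h2 : ∀ φ, r₂ (δ φ) = 0 → ∀ w, φ (Θ w) = 0) :
    Module.finrank F W ≤ Module.finrank F (LinearMap.range r₁)
      + Module.finrank F (LinearMap.range r₂) := by
  classical
  have hk : Module.finrank F (LinearMap.ker Θ) ≤ Module.finrank F (LinearMap.range r₁) := by
    apply Submodule.finrank_mono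
    intro w hw
    obtain ⟨x, hx⟩ := h1 w (LinearMap.mem_ker.mp hw)
    exact ⟨x, hx⟩
  let T : Module.Dual F Q →ₗ[F] W := r₂.comp δ
  let ρ : Module.Dual F Q →ₗ[F] Module.Dual F (LinearMap.range Θ) :=
    (LinearMap.range Θ).subtype.dualMap
  have hρ : Function.Surjective ρ := by
    intro ψ
    obtain ⟨φ, hφ⟩ := LinearMap.exists_extend ψ
    exact ⟨φ, hφ⟩
  have hker : LinearMap.ker T ≤ LinearMap.ker ρ := by
    intro φ hφ
    rw [LinearMap.mem_ker] at hφ ⊢
    ext ⟨q, w, rfl⟩
    exact h2 φ hφ w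
  have hfd : FiniteDimensional F (Module.Dual F Q ⧸ LinearMap.ker T) :=
    LinearEquiv.finiteDimensional T.quotKerEquivRange.symm
  have hsurj : Function.Surjective ((LinearMap.ker T).liftQ ρ hker) := by
    intro ψ
    obtain ⟨φ, hφ⟩ := hρ ψ
    exact ⟨Submodule.Quotient.mk φ, by simpa using hφ⟩
  have h3 : Module.finrank F (Module.Dual F (LinearMap.range Θ)) ≤
      Module.finrank F (Module.Dual F Q ⧸ LinearMap.ker T) :=
    LinearMap.finrank_le_finrank_of_surjective hsurj
  have h4 : Module.finrank F (Module.Dual F Q ⧸ LinearMap.ker T) =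
      Module.finrank F (LinearMap.range T) := LinearEquiv.finrank_eq T.quotKerEquivRange
  have h5 : Module.finrank F (LinearMap.range T) ≤ Module.finrank F (LinearMap.range r₂) := by
    apply Submodule.finrank_mono
    rintro _ ⟨φ, rfl⟩
    exact ⟨δ φ, rfl⟩
  have h6 : Module.finrank F (Module.Dual F (LinearMap.range Θ)) =
      Module.finrank F (LinearMap.range Θ) := Subspace.dual_finrank_eq
  have h7 := LinearMap.finrank_range_add_finrank_ker Θ
  omega

end RCan
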