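import Pool.Agent.W_04c03c_h58.WfS3
import Pool.Agent.W_04c03c_h58.WfL
import Pool.Agent.W_04c03c_h62s.SHalfB
import Pool.Agent.W_04c03c_h58.AlgK

/-!
# At least half of the cohomology of the cusps extends
-/

namespace RCan

open MulAction

/-- Half lives.

Proof. If the space `W = ∀ i, Additive (stabilizer Γ (x i)) →+ F` is not finite-dimensional the left side is
zero. Otherwise use `lin_half`. Let `B` be as in `exists_betaW` for `ι = I`, `ξ = x`. `Q` is the quotient of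
`EQf sm cusp χ 2` by the range of `crF hF χ 1`; `Θ c` is the class of `cr sm (bl sm (B c))` (`cr_bl_memF`; it is
linear in `c`: `AlgK_bl_add`, `AlgK_bl_smul`, `cr_add`, `AlgK_cr_smul`, `AlgK.lean`). `r₁ = Q62.resX χ x hχ` and
`r₂ = Q62.resX (χ⁻¹ * ω) x _` (restriction of crossed homomorphisms to the stabilizers; `Q62.resRank_eq`
identifies the ranks). `h1`: if `Θ c = 0` then `cr sm (bl sm (B c)) = cr sm e'` with `e' ∈ EQf 1 ≤ EQ 1`, and
`bd_exactW` gives `f, D`; `D ∈ Q62.XHom χ` and for `h` in the stabilizer of `x i`, `v` with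
`cusp v = some (x i)` (`hF.ex`): `c i h = B c v (h • v) = f (h • v) - f v = D h` because `χ h = 1`.
`δ φ g = ω g * φ (class of avF hF χ 2 (e g))`; with `D g = φ (avF (e g))`, `dual_crossedW` says
`D (g * h) = ω h * D g + (χ g)⁻¹ * D h`, so `ω (g * h) * D (g * h) = ω g * D g + (χ g)⁻¹ * ω g * (ω h * D h)`
(`ω h * ω h = 1`). `h2`: if the restriction of `δ φ` to the stabilizer of `x i` is zero, so is `D` (`ω = 1`
there; or multiply by `ω g`), hence `phi_cusp` shows that `φ` vanishes on the class of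
`cr sm (bl sm (B (Pi.single i (c i))))` (its support property: `(Pi.single i (c i)) j ≠ 0` implies `j = i`); sum over `i`
(`Finset.univ_sum_single`). -/
theorem half_homRank {Γ Ξ V : Type} [Group Γ] [MulAction Γ Ξ] [MulAction Γ V]
    {sm : V → V → Prop} {cusp : V → Option Ξ} (hF : WFace Γ Ξ V sm cusp) (hT : TFree Γ)
    {F : Type} [Field F] (χ ω : Γ →* Fˣ) (hω2 : ∀ g, ω g * ω g = 1)
    (z : DSub sm cusp F 3) (hz : crW hF F 3 z = 0)
    (hz' : ∀ f : DSub sm cusp F 3, crW hF F 3 f = 0 → ∃ (c : F) (e : DSub sm cusp F 2),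
      f = c • z + crW hF F 2 e)
    (he : ∀ g, ∃ e : DSub sm cusp F 2, crW hF F 2 e = trW hF F 3 g z - (ω g : F) • z)
    {I : Type} [Finite I] (x : I → Ξ) (hx : ∀ i, WFull Γ sm cusp (x i))
    (hne : ∀ i j, i ≠ j → x i ∉ orbit Γ (x j))
    (hχ : ∀ i, ∀ g ∈ stabilizer Γ (x i), χ g = 1)
    (hω : ∀ i, ∀ g ∈ stabilizer Γ (x i), ω g = 1) :
    Q62.homRank Γ F x ≤ Q62.resRank χ x + Q62.resRank (χ⁻¹ * ω) x := by
  classical
  have hχω : ∀ i, ∀ g ∈ stabilizer Γ (x i), (χ⁻¹ * ω) g = 1 := by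
    intro i g hg
    rw [MonoidHom.mul_apply, MonoidHom.inv_apply, hχ i g hg, hω i g hg, inv_one, one_mul]
  rw [← Q62.resRank_eq χ x hχ, ← Q62.resRank_eq (χ⁻¹ * ω) x hχω]
  unfold Q62.homRank
  by_cases hfd : FiniteDimensional F (∀ i, Additive (stabilizer Γ (x i)) →+ F)
  swap
  · rw [Module.finrank_of_not_finite hfd]
    exact Nat.zero_le _
  choose e he' using he
  cases nonempty_fintype I
  have hS : ∀ (i j : I) (g : Γ), g • x i = x j → i = j := by
    intro i j g hg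
    by_contra hij
    exact hne j i (Ne.symm hij) ⟨g, hg⟩
  obtain ⟨B, hB⟩ := exists_betaW hF χ x hS hχ
  have hmem : ∀ c, cr sm (bl sm (B c)) ∈ EQf sm cusp χ 2 := fun c =>
    cr_bl_memF hF x hx (hB c).1 (fun u v huv => by
      obtain ⟨i, g, h1, -⟩ := (hB c).2.1 u v huv
      exact ⟨i, g, h1⟩)
  let Θ0 : ((i : I) → Additive (stabilizer Γ (x i)) →+ F) →ₗ[F] EQf sm cusp χ 2 :=
    { toFun := fun c => ⟨cr sm (bl sm (B c)), hmem c⟩
      map_add' := fun c c' => Subtype.ext (by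
        show cr sm (bl sm (B (c + c'))) = cr sm (bl sm (B c)) + cr sm (bl sm (B c'))
        rw [map_add, AlgK_bl_add, cr_add])
      map_smul' := fun a c => Subtype.ext (by
        show cr sm (bl sm (B (a • c))) = a • cr sm (bl sm (B c))
        rw [map_smul, AlgK_bl_smul, AlgK_cr_smul]) }
  have hΘ0 : ∀ c, (Θ0 c).1 = cr sm (bl sm (B c)) := fun c => rfl
  let M : Submodule F (EQf sm cusp χ 2) := LinearMap.range (crF hF χ 1)
  have hv : ∀ (φ : Module.Dual F (EQf sm cusp χ 2 ⧸ M)) (c : EQf sm cusp χ 1),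
      (φ ∘ₗ M.mkQ) (crF hF χ 1 c) = 0 := by
    intro φ c
    have h2 : M.mkQ (crF hF χ 1 c) = 0 := by
      rw [Submodule.mkQ_apply, Submodule.Quotient.mk_eq_zero]
      exact ⟨c, rfl⟩
    rw [LinearMap.comp_apply, h2, map_zero]
  have hD : ∀ (φ : Module.Dual F (EQf sm cusp χ 2 ⧸ M)) (g h : Γ),
      (ω (g * h) : F) * (φ ∘ₗ M.mkQ) (avF hF χ 2 (e (g * h))) =
        (ω g : F) * (φ ∘ₗ M.mkQ) (avF hF χ 2 (e g)) +
        (((χ⁻¹ * ω) g : Fˣ) : F) * ((ω h : F) * (φ ∘ₗ M.mkQ) (avF hF χ 2 (e h))) := by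
    intro φ g h
    have h1 := dual_crossedW hF χ ω z (φ ∘ₗ M.mkQ) (hv φ) e he' g h
    have h2 : (ω h : F) * (ω h : F) = 1 := by
      rw [← Units.val_mul, hω2, Units.val_one]
    have h3 : (((χ⁻¹ * ω) g : Fˣ) : F) = (((χ g)⁻¹ : Fˣ) : F) * (ω g : F) := by
      rw [MonoidHom.mul_apply, MonoidHom.inv_apply, Units.val_mul]
    rw [h1, h3, map_mul, Units.val_mul]
    linear_combination (ω g : F) * (φ ∘ₗ M.mkQ) (avF hF χ 2 (e g)) * h2
  let δ : Module.Dual F (EQf sm cusp χ 2 ⧸ M) →ₗ[F] Q62.XHom (χ⁻¹ * ω) :=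
    { toFun := fun φ => ⟨fun g => (ω g : F) * (φ ∘ₗ M.mkQ) (avF hF χ 2 (e g)), hD φ⟩
      map_add' := fun φ ψ => Subtype.ext (by
        funext g
        show (ω g : F) * ((φ + ψ) ∘ₗ M.mkQ) (avF hF χ 2 (e g)) =
          (ω g : F) * (φ ∘ₗ M.mkQ) (avF hF χ 2 (e g)) +
          (ω g : F) * (ψ ∘ₗ M.mkQ) (avF hF χ 2 (e g))
        rw [LinearMap.add_comp, LinearMap.add_apply, mul_add])
      map_smul' := fun a φ => Subtype.ext (by
        funext g
        show (ω g : F) * ((a • φ) ∘ₗ M.mkQ) (avF hF χ 2 (e g)) =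
          a * ((ω g : F) * (φ ∘ₗ M.mkQ) (avF hF χ 2 (e g)))
        rw [LinearMap.smul_comp, LinearMap.smul_apply, smul_eq_mul]
        ring) }
  have hδ : ∀ φ g, (δ φ).1 g = (ω g : F) * (φ ∘ₗ M.mkQ) (avF hF χ 2 (e g)) := fun φ g => rfl
  refine lin_half (M.mkQ ∘ₗ Θ0) (Q62.resX χ x hχ) (Q62.resX (χ⁻¹ * ω) x hχω) ?_ δ ?_
  · intro c hc
    have hc1 : Θ0 c ∈ M := by
      have h2 : M.mkQ (Θ0 c) = 0 := hc
      rwa [Submodule.mkQ_apply, Submodule.Quotient.mk_eq_zero] at h2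
    obtain ⟨e1, he1⟩ := hc1
    have he2 : cr sm (bl sm (B c)) = cr sm e1.1 := by
      rw [← hΘ0, ← he1]
      rfl
    obtain ⟨f, D, h3, h4, h5⟩ := bd_exactW hF (hB c).1 e1.1 e1.2.1 he2
    refine ⟨⟨D, h4⟩, ?_⟩
    funext i
    apply AddMonoidHom.ext
    intro h
    show D ((Additive.toMul h : stabilizer Γ (x i)) : Γ) = c i h
    obtain ⟨v, hv'⟩ := hF.ex (x i)
    have hx' : cusp (((Additive.toMul h : stabilizer Γ (x i)) : Γ) • v) = some (x i) := by
      rw [hF.cusp_smul, hv', Option.map_some]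
      exact congrArg some (Additive.toMul h).2
    have h6 := (hB c).2.2 i v hv' (Additive.toMul h)
    have h7 := h5 (x i) v _ hv' hx'
    have h8 := h3 ((Additive.toMul h : stabilizer Γ (x i)) : Γ) v
    rw [h7, h8, hχ i _ (Additive.toMul h).2, Units.val_one, one_mul] at h6
    have h9 : Additive.ofMul (Additive.toMul h) = h := rfl
    rw [h9] at h6
    rw [← h6]
    ring
  · intro φ hφ w
    have hw : w = ∑ i, Pi.single i (w i) := (Finset.univ_sum_single w).symm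
    rw [hw, map_sum, map_sum]
    refine Finset.sum_eq_zero fun i _ => ?_
    have h0 : ∀ g ∈ stabilizer Γ (x i), (φ ∘ₗ M.mkQ) (avF hF χ 2 (e g)) = 0 := by
      intro g hg
      have h1 := congrFun hφ i
      have h2 := DFunLike.congr_fun h1 (Additive.ofMul ⟨g, hg⟩)
      have h3 : (ω g : F) * (φ ∘ₗ M.mkQ) (avF hF χ 2 (e g)) = 0 := h2
      rw [hω i g hg, Units.val_one, one_mul] at h3
      exact h3
    have hs : ∀ u v, B (Pi.single i (w i)) u v ≠ 0 → ∃ g : Γ, cusp u = some (g • x i) := by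
      intro u v huv
      obtain ⟨j, g, h1, h2⟩ := (hB (Pi.single i (w i))).2.1 u v huv
      have hji : j = i := by
        by_contra hji
        exact h2 (Pi.single_eq_of_ne hji _)
      subst hji
      exact ⟨g, h1⟩
    exact phi_cusp hF hT χ ω z hz hz' e he' (φ ∘ₗ M.mkQ) (hv φ) (x i) (hx i) h0
      (hB (Pi.single i (w i))).1 hs (Θ0 (Pi.single i (w i))) rfl

/-- The case of stabilizers isomorphic to `ℤ²` (`Q62.Hs_Z2`, `Hs Γ F x` is the space of `homRank`). -/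
theorem halfW {Γ Ξ V : Type} [Group Γ] [MulAction Γ Ξ] [MulAction Γ V]
    {sm : V → V → Prop} {cusp : V → Option Ξ} (hF : WFace Γ Ξ V sm cusp) (hT : TFree Γ)
    {F : Type} [Field F] (χ ω : Γ →* Fˣ) (hω2 : ∀ g, ω g * ω g = 1)
    (z : DSub sm cusp F 3) (hz : crW hF F 3 z = 0)
    (hz' : ∀ f : DSub sm cusp F 3, crW hF F 3 f = 0 → ∃ (c : F) (e : DSub sm cusp F 2),
      f = c • z + crW hF F 2 e)
    (he : ∀ g, ∃ e : DSub sm cusp F 2, crW hF F 2 e = trW hF F 3 g z - (ω g : F) • z)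
    {I : Type} [Finite I] (x : I → Ξ) (hx : ∀ i, WFull Γ sm cusp (x i))
    (hz2 : ∀ i, Nonempty (stabilizer Γ (x i) ≃* Multiplicative (ℤ × ℤ)))
    (hne : ∀ i j, i ≠ j → x i ∉ orbit Γ (x j))
    (hχ : ∀ i, ∀ g ∈ stabilizer Γ (x i), χ g = 1)
    (hω : ∀ i, ∀ g ∈ stabilizer Γ (x i), ω g = 1) :
    2 * Nat.card I ≤ Q62.resRank χ x + Q62.resRank (χ⁻¹ * ω) x := by
  have h1 := half_homRank hF hT χ ω hω2 z hz hz' he x hx hne hχ hω
  have h2 : Q62.homRank Γ F x = 2 * Nat.card I := (Q62.Hs_Z2 F x hz2).2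
  rw [← h2]
  exact h1

end RCan
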