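import Pool.Agent.W_04c03c_h58.WfE

/-!
# Averaging in two steps
-/

namespace RCan

open MulAction

variable {Γ Ξ V : Type*} [Group Γ] [MulAction Γ Ξ] [MulAction Γ V]
  {sm : V → V → Prop} {cusp : V → Option Ξ} {k : Type*} [Field k]

theorem WfS1_bij (P : Subgroup Γ) :
    Function.Bijective (fun a : (Γ ⧸ P) × P => (a.1.out * (a.2 : Γ) : Γ)) := by
  constructor
  · rintro ⟨q, p⟩ ⟨q', p'⟩ h
    simp only at h
    have h1 : q = q' := by
      have h2 : ((q.out * (p : Γ) : Γ) : Γ ⧸ P) = ((q'.out * (p' : Γ) : Γ) : Γ ⧸ P) := by rw [h]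
      rwa [QuotientGroup.mk_mul_of_mem _ p.2, QuotientGroup.mk_mul_of_mem _ p'.2,
        QuotientGroup.out_eq', QuotientGroup.out_eq'] at h2
    subst h1
    have h3 : (p : Γ) = p' := mul_left_cancel h
    rw [Subtype.ext h3]
  · intro g
    obtain ⟨p, hp⟩ := QuotientGroup.mk_out_eq_mul P g
    refine ⟨((g : Γ ⧸ P), p⁻¹), ?_⟩
    simp only [hp]
    simp

/-- The average over `Γ` is the sum over the cosets of `P` of translates of the average over `P`.

Proof. `av χ f l = ∑ᶠ g, χ g * f (l.map (g⁻¹ • ·))` has finitely many nonzero terms (`av_finiteW`). The map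
`(q, p) ↦ q.out * p` is a bijection of `(Γ ⧸ P) × P` and `Γ` (`Subgroup.groupEquivQuotientProdSubgroup` or by
hand; `QuotientGroup.mk_out_eq_mul`), so `∑ᶠ g = ∑ᶠ q, ∑ᶠ p` (`finsum_comp_equiv`, and Fubini for finsums with
finite support, e.g. `finsum_curry`), and `χ (q.out * p) * f (l.map ((q.out * p)⁻¹ • ·)) =
χ q.out * (χ p * f ((l.map (q.out⁻¹ • ·)).map (p⁻¹ • ·)))` (`map_smul_smul`, `mul_inv_rev`). -/
theorem av_quot (hF : WFace Γ Ξ V sm cusp) (χ : Γ →* kˣ) (P : Subgroup Γ) {n : ℕ} {f : List V → k}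
    (hf : IsD sm cusp k n f) (l : List V) :
    av χ f l = ∑ᶠ q : Γ ⧸ P,
      (χ q.out : k) * av (χ.comp P.subtype) f (l.map (fun x => (q.out)⁻¹ • x)) := by
  have hfin := WfE_supp hF χ hf l
  let e : (Γ ⧸ P) × P ≃ Γ := Equiv.ofBijective _ (WfS1_bij P)
  have he : ∀ a : (Γ ⧸ P) × P, e a = a.1.out * (a.2 : Γ) := fun a => rfl
  have h1 : av χ f l = ∑ᶠ a : (Γ ⧸ P) × P,
      (χ (e a) : k) * f (l.map (fun x => (e a)⁻¹ • x)) :=
    (finsum_comp_equiv e (f := fun g : Γ => (χ g : k) * f (l.map (fun x => g⁻¹ • x)))).symm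
  have h2 : (Function.support (fun a : (Γ ⧸ P) × P =>
      (χ (e a) : k) * f (l.map (fun x => (e a)⁻¹ • x)))).Finite :=
    hfin.preimage e.injective.injOn
  rw [h1, finsum_curry _ h2]
  refine finsum_congr fun q => ?_
  unfold av
  rw [← smul_eq_mul, smul_finsum]
  refine finsum_congr fun p => ?_
  have h3 : (l.map (fun x => (q.out)⁻¹ • x)).map (fun x => p⁻¹ • x) =
      l.map (fun x => (e (q, p))⁻¹ • x) := by
    rw [he, mul_inv_rev]
    exact map_smul_smul (q.out)⁻¹ (p : Γ)⁻¹ l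
  rw [h3, he]
  simp only [map_mul, MonoidHom.comp_apply, Subgroup.coe_subtype, Units.val_mul,
    smul_eq_mul, mul_assoc]

end RCan
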