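import Pool.Agent.W_04c03c_h58.WfH

/-!
# Cocycles on one orbit of cusps as a sum over cosets
-/

namespace RCan

open MulAction

variable {Γ Ξ V : Type*} [Group Γ] [MulAction Γ Ξ] [MulAction Γ V]
  {sm : V → V → Prop} {cusp : V → Option Ξ} {k : Type*} [Field k]

open Classical in
/-- The part of `β` on the cusp `ξ`. -/
noncomputable def bP (cusp : V → Option Ξ) (ξ : Ξ) (β : V → V → k) : V → V → k :=
  fun x y => if cusp x = some ξ ∧ cusp y = some ξ then β x y else 0

/-- Proof. `cusp (g • x) = some ξ ↔ cusp x = some ξ` for `g` in the stabilizer (`hF.cusp_smul`). -/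
theorem bP_isBd (hF : WFace Γ Ξ V sm cusp) {χ : Γ →* kˣ} {β : V → V → k} (hβ : IsBd cusp χ β)
    (ξ : Ξ) : IsBd cusp (χ.comp (stabilizer Γ ξ).subtype) (bP cusp ξ β) := by
  classical
  refine ⟨?_, ?_, ?_⟩
  · intro x y h
    unfold bP
    rw [if_neg]
    rintro ⟨h1, h2⟩
    exact h ⟨ξ, h1, h2⟩
  · intro ζ x y z hx hy hz
    unfold bP
    rw [hx, hy, hz]
    by_cases h : (some ζ : Option Ξ) = some ξ
    · simp only [h, and_self, if_true]
      exact hβ.add ζ x y z hx hy hz
    · simp only [h, and_self, if_false, add_zero]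
  · intro g x y
    have hc : ∀ v : V, cusp (g • v) = some ξ ↔ cusp v = some ξ := by
      intro v
      have h1 : cusp (g • v) = (cusp v).map (fun ζ => (g : Γ) • ζ) := hF.cusp_smul (g : Γ) v
      rw [h1]
      constructor
      · intro h
        obtain ⟨ζ, h2, h3⟩ := Option.map_eq_some_iff.1 h
        rw [h2]
        have h4 : (g : Γ) • ξ = ξ := g.2
        have h5 : (g : Γ) • ζ = (g : Γ) • ξ := by
          rw [h4]
          exact h3
        rw [MulAction.injective _ h5]
      · intro h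
        rw [h, Option.map_some]
        exact congrArg some g.2
    unfold bP
    by_cases h : cusp x = some ξ ∧ cusp y = some ξ
    · rw [if_pos h, if_pos ⟨(hc x).2 h.1, (hc y).2 h.2⟩]
      exact hβ.equiv (g : Γ) x y
    · rw [if_neg h, if_neg (fun h' => h ⟨(hc x).1 h'.1, (hc y).1 h'.2⟩), mul_zero]

/-- Finite sums of cochains and `dl`. -/
theorem WfS2_dl {ι W A : Type*} [AddCommGroup A] (l : List W) : ∀ B : ι → List W → A,
    (∀ l', (Function.support fun q => B q l').Finite) →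
    (Function.support fun q => dl l (B q)).Finite ∧
      ∑ᶠ q, dl l (B q) = dl l (fun l' => ∑ᶠ q, B q l') := by
  induction l with
  | nil =>
    intro B hB
    simp
  | cons x l ih =>
    intro B hB
    obtain ⟨h1, h2⟩ := ih (fun q l' => B q (x :: l')) (fun l' => hB (x :: l'))
    have h3 := hB l
    refine ⟨?_, ?_⟩
    · refine (h3.union h1).subset ?_
      intro q hq
      by_contra h
      simp only [Set.mem_union, Function.mem_support, not_or, not_not] at h
      apply hq
      show dl (x :: l) (B q) = 0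
      rw [dl_cons, h.1, h.2, sub_zero]
    · simp only [dl_cons]
      rw [finsum_sub_distrib h3 h1, h2]

theorem WfS2_cusp (hF : WFace Γ Ξ V sm cusp) (g : Γ) (x : V) (ξ : Ξ) :
    cusp (g⁻¹ • x) = some ξ ↔ cusp x = some (g • ξ) := by
  rw [hF.cusp_smul]
  constructor
  · intro h
    obtain ⟨ζ, h1, h2⟩ := Option.map_eq_some_iff.1 h
    rw [h1, ← h2, smul_inv_smul]
  · intro h
    rw [h, Option.map_some, inv_smul_smul]

theorem WfS2_sm (hF : WFace Γ Ξ V sm cusp) (g : Γ) (x y : V) :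
    sm (g⁻¹ • x) (g⁻¹ • y) ↔ sm x y := by
  constructor
  · intro h
    have := hF.smul_sm g _ _ h
    rwa [smul_inv_smul, smul_inv_smul] at this
  · exact hF.smul_sm g⁻¹ x y

open Classical in
theorem WfS2_term (hF : WFace Γ Ξ V sm cusp) {χ : Γ →* kˣ} {β : V → V → k}
    (hβ : IsBd cusp χ β) (ξ : Ξ) (g : Γ) (x y : V) :
    (χ g : k) * bP cusp ξ β (g⁻¹ • x) (g⁻¹ • y) =
      if cusp x = some (g • ξ) ∧ cusp y = some (g • ξ) then β x y else 0 := by
  unfold bP
  by_cases h : cusp x = some (g • ξ) ∧ cusp y = some (g • ξ)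
  · rw [if_pos h, if_pos ⟨(WfS2_cusp hF g x ξ).2 h.1, (WfS2_cusp hF g y ξ).2 h.2⟩,
      ← hβ.equiv g, smul_inv_smul, smul_inv_smul]
  · rw [if_neg h, if_neg (fun h' => h ⟨(WfS2_cusp hF g x ξ).1 h'.1, (WfS2_cusp hF g y ξ).1 h'.2⟩),
      mul_zero]

theorem WfS2_sub (hF : WFace Γ Ξ V sm cusp) {χ : Γ →* kˣ} {β : V → V → k}
    (hβ : IsBd cusp χ β) (ξ : Ξ) (x y : V) :
    (Function.support fun q : Γ ⧸ stabilizer Γ ξ =>
      (χ q.out : k) * bP cusp ξ β ((q.out)⁻¹ • x) ((q.out)⁻¹ • y)).Subsingleton := by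
  intro q hq q' hq'
  rw [Function.mem_support, WfS2_term hF hβ] at hq hq'
  have h1 : cusp x = some (q.out • ξ) := by
    by_contra h
    exact hq (if_neg fun h' => h h'.1)
  have h2 : cusp x = some (q'.out • ξ) := by
    by_contra h
    exact hq' (if_neg fun h' => h h'.1)
  have h3 : q.out • ξ = q'.out • ξ := Option.some.inj (h1.symm.trans h2)
  rw [← QuotientGroup.out_eq' q, ← QuotientGroup.out_eq' q']
  rw [QuotientGroup.eq, mem_stabilizer_iff, mul_smul, ← h3, inv_smul_smul]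

theorem WfS2_sum (hF : WFace Γ Ξ V sm cusp) {χ : Γ →* kˣ} {β : V → V → k}
    (hβ : IsBd cusp χ β) (ξ : Ξ) (hs : ∀ x y, β x y ≠ 0 → ∃ g : Γ, cusp x = some (g • ξ))
    (x y : V) :
    β x y = ∑ᶠ q : Γ ⧸ stabilizer Γ ξ,
      (χ q.out : k) * bP cusp ξ β ((q.out)⁻¹ • x) ((q.out)⁻¹ • y) := by
  by_cases h0 : β x y = 0
  · rw [h0]
    symm
    rw [← finsum_zero (α := Γ ⧸ stabilizer Γ ξ)]
    refine finsum_congr fun q => ?_
    rw [WfS2_term hF hβ, h0, ite_self]
  · obtain ⟨g, hg⟩ := hs x y h0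
    have hy : cusp y = some (g • ξ) := by
      by_contra h
      apply h0
      apply hβ.zero
      rintro ⟨ζ, h1, h2⟩
      rw [h1] at hg
      rw [hg] at h2
      exact h h2
    have hq : ((g : Γ) : Γ ⧸ stabilizer Γ ξ).out • ξ = g • ξ := by
      have h1 := QuotientGroup.out_eq' ((g : Γ) : Γ ⧸ stabilizer Γ ξ)
      rw [QuotientGroup.eq, mem_stabilizer_iff, mul_smul, inv_smul_eq_iff] at h1
      exact h1.symm
    rw [finsum_eq_single _ ((g : Γ) : Γ ⧸ stabilizer Γ ξ)]
    · rw [WfS2_term hF hβ, hq, if_pos ⟨hg, hy⟩]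
    · intro q hne
      by_contra h
      apply hne
      refine WfS2_sub hF hβ ξ x y (Function.mem_support.2 h) (Function.mem_support.2 ?_)
      rw [WfS2_term hF hβ, hq, if_pos ⟨hg, hy⟩]
      exact h0

/-- Proof. For all `x, y`: `β x y = ∑ᶠ q, χ q.out * bP cusp ξ β (q.out⁻¹ • x) (q.out⁻¹ • y)`: the term of `q` is
not zero only if `cusp x = cusp y = some (q.out • ξ)` and `β x y ≠ 0`, which holds for at most one `q` (two
such `q, q'` have `q.out • ξ = q'.out • ξ`, so `q = q'`), and then it is `β x y` (`hβ.equiv`); if `β x y ≠ 0` then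
`cusp x = cusp y = some (g • ξ)` (`hs`, `hβ.zero`) and `q` is the coset of `g`. The same for `bl sm` of `[x, y]`
(`hF.smul_sm`). If `l` is not small of length three both sides are zero (`cr`, `dl_eq_zero`, length of the
support of `bl`); for `l = [x, y, z]` small `cr sm b l = b [y, z] - b [x, z] + b [x, y]` (`cr_of_sml`,
`AlgH_co3`), and the finsum of the three terms is the sum of the three finsums (each has at most one nonzero
term; `finsum_add_distrib`, `finsum_sub_distrib`). -/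
theorem cr_bl_quot (hF : WFace Γ Ξ V sm cusp) {χ : Γ →* kˣ} {β : V → V → k} (hβ : IsBd cusp χ β)
    (ξ : Ξ) (hs : ∀ x y, β x y ≠ 0 → ∃ g : Γ, cusp x = some (g • ξ)) (l : List V) :
    cr sm (bl sm β) l = ∑ᶠ q : Γ ⧸ stabilizer Γ ξ,
      (χ q.out : k) * cr sm (bl sm (bP cusp ξ β)) (l.map (fun x => (q.out)⁻¹ • x)) := by
  classical
  by_cases hl : Sml sm l
  · have hl' : ∀ q : Γ ⧸ stabilizer Γ ξ, Sml sm (l.map (fun x => (q.out)⁻¹ • x)) := fun q =>
      (sml_smul hF.smul_sm _ l).2 hl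
    have h1 : ∀ l' : List V, (Function.support fun q : Γ ⧸ stabilizer Γ ξ =>
        (χ q.out : k) * bl sm (bP cusp ξ β) (l'.map (fun x => (q.out)⁻¹ • x))).Finite ∧
        bl sm β l' = ∑ᶠ q : Γ ⧸ stabilizer Γ ξ,
          (χ q.out : k) * bl sm (bP cusp ξ β) (l'.map (fun x => (q.out)⁻¹ • x)) := by
      intro l'
      match l' with
      | [x, y] =>
        by_cases hxy : sm x y
        · have h2 : ∀ q : Γ ⧸ stabilizer Γ ξ, (χ q.out : k) * bl sm (bP cusp ξ β)
              ([x, y].map (fun x => (q.out)⁻¹ • x)) =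
              (χ q.out : k) * bP cusp ξ β ((q.out)⁻¹ • x) ((q.out)⁻¹ • y) := by
            intro q
            show (χ q.out : k) * bl sm (bP cusp ξ β) [(q.out)⁻¹ • x, (q.out)⁻¹ • y] = _
            rw [AlgH_bl_pair sm _ ((WfS2_sm hF _ x y).2 hxy)]
          simp only [h2]
          rw [AlgH_bl_pair sm _ hxy]
          exact ⟨(WfS2_sub hF hβ ξ x y).finite, WfS2_sum hF hβ ξ hs x y⟩
        · have h2 : ∀ q : Γ ⧸ stabilizer Γ ξ, (χ q.out : k) * bl sm (bP cusp ξ β)
              ([x, y].map (fun x => (q.out)⁻¹ • x)) = 0 := by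
            intro q
            show (χ q.out : k) * bl sm (bP cusp ξ β) [(q.out)⁻¹ • x, (q.out)⁻¹ • y] = _
            rw [AlgH_bl_not sm _ (fun h => hxy ((WfS2_sm hF _ x y).1 h)), mul_zero]
          simp only [h2]
          rw [AlgH_bl_not sm _ hxy, finsum_zero]
          refine ⟨?_, rfl⟩
          simp
      | [] => simp [bl]
      | [x] => simp [bl]
      | x :: y :: z :: l'' => simp [bl]
    have h2 : bl sm β = fun l' => ∑ᶠ q : Γ ⧸ stabilizer Γ ξ,
          (χ q.out : k) * bl sm (bP cusp ξ β) (l'.map (fun x => (q.out)⁻¹ • x)) :=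
      funext fun l' => (h1 l').2
    have h3 := (WfS2_dl l (fun (q : Γ ⧸ stabilizer Γ ξ) l' =>
      (χ q.out : k) * bl sm (bP cusp ξ β) (l'.map (fun x => (q.out)⁻¹ • x)))
      (fun l' => (h1 l').1)).2
    rw [cr_of_sml _ hl, co_apply, h2, ← h3]
    refine finsum_congr fun q => ?_
    rw [cr_of_sml _ (hl' q), co_apply, dl_map]
    exact dl_smul (χ q.out : k) l _
  · have h1 : cr sm (bl sm β) l = 0 := by
      unfold cr
      rw [if_neg hl]
    rw [h1]
    symm
    rw [← finsum_zero (α := Γ ⧸ stabilizer Γ ξ)]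
    refine finsum_congr fun q => ?_
    unfold cr
    rw [if_neg (fun h => hl ((sml_smul hF.smul_sm _ l).1 h)), mul_zero]

end RCan
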