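import Pool.Agent.W_04c03c_h58.WfS1
import Pool.Agent.W_04c03c_h58.WfS2
import Pool.Agent.W_04c03c_h58.WfG

/-!
# A functional vanishes on the cocycles of a cusp on which its crossed homomorphism is trivial
-/

namespace RCan

open MulAction

variable {Γ Ξ V : Type*} [Group Γ] [MulAction Γ Ξ] [MulAction Γ V]
  {sm : V → V → Prop} {cusp : V → Option Ξ} {k : Type} [Field k]

theorem WfS3_tfree (hT : TFree Γ) (P : Subgroup Γ) : TFree P := by
  intro g n hn hg
  apply Subtype.ext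
  refine hT (g : Γ) n hn ?_
  have h1 := congrArg (fun x : P => (x : Γ)) hg
  simpa using h1

theorem WfS3_ker (hF : WFace Γ Ξ V sm cusp) (χ : Γ →* kˣ) (P : Subgroup Γ)
    (n : ℕ) (f : DSub sm cusp k n) (h : avF (hF.sub P) (χ.comp P.subtype) n f = 0) :
    avF hF χ n f = 0 := by
  apply Subtype.ext
  funext l
  show av χ f.1 l = 0
  rw [av_quot hF χ P f.2 l]
  have h1 : av (χ.comp P.subtype) f.1 = 0 := congrArg Subtype.val h
  rw [h1]
  simp

/-- The transfer.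

Proof. `avF (hF.sub P) ..` is onto (`avF_surj`, `P` is torsion-free) and its kernel is contained in the
kernel of `avF hF χ n` by `av_quot`. Take a linear section `s` of the first
(`LinearMap.exists_rightInverse_of_surjective`), `T = avF hF χ n ∘ s`. -/
theorem exists_transfer (hF : WFace Γ Ξ V sm cusp) (hT : TFree Γ) (χ : Γ →* kˣ) (P : Subgroup Γ)
    (n : ℕ) : ∃ T : EQf sm cusp (χ.comp P.subtype) n →ₗ[k] EQf sm cusp χ n,
      ∀ f, T (avF (hF.sub P) (χ.comp P.subtype) n f) = avF hF χ n f := by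
  obtain ⟨s, hs⟩ := (avF (sm := sm) (cusp := cusp) (k := k) (hF.sub P)
    (χ.comp P.subtype) n).exists_rightInverse_of_surjective
    (LinearMap.range_eq_top.2 (avF_surj (hF.sub P) (WfS3_tfree hT P) _ n))
  refine ⟨(avF hF χ n).comp s, fun f => ?_⟩
  rw [LinearMap.comp_apply]
  have h1 : avF (hF.sub P) (χ.comp P.subtype) n
      (s (avF (hF.sub P) (χ.comp P.subtype) n f) - f) = 0 := by
    rw [map_sub]
    have h2 := LinearMap.congr_fun hs (avF (hF.sub P) (χ.comp P.subtype) n f)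
    rw [LinearMap.comp_apply, LinearMap.id_apply] at h2
    rw [h2, sub_self]
  have h3 := WfS3_ker hF χ P n _ h1
  rw [map_sub, sub_eq_zero] at h3
  exact h3

/-- Proof. Let `P = stabilizer Γ ξ`, `χP = χ.comp P.subtype`, `T₁, T₂` the transfers in degrees `1` and `2`;
`T₂ (crF c) = crF (T₁ c)` (write `c = avF f`, `avF_surj`; `crF_avF`; `crW` for `P` and for `Γ` are the same
map). Apply `dual_principalW` to `hF.sub P`, the characters `χP` and `ω.comp P.subtype`, `z`,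
`fun g => e g`, the functional `φ.comp T₂` and `a = 0`: so `φ (T₂ c') = 0` for all `c'` with `crF c' = 0`. Apply
this to `c' = cr sm (bl sm (bP cusp ξ β))`, which is in `EQf sm cusp χP 2` by `cr_bl_memF` for `P` (`ι = Unit`,
`hfull.stab`, `bP_isBd`). Write `c' = avF (hF.sub P) χP 2 f'` (`avF_surj`); then `T₂ c' = avF hF χ 2 f'`, which is
`cr sm (bl sm β)` by `av_quot` and `cr_bl_quot`. -/
theorem phi_cusp (hF : WFace Γ Ξ V sm cusp) (hT : TFree Γ) (χ ω : Γ →* kˣ)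
    (z : DSub sm cusp k 3) (hz : crW hF k 3 z = 0)
    (hz' : ∀ f : DSub sm cusp k 3, crW hF k 3 f = 0 → ∃ (c : k) (e : DSub sm cusp k 2),
      f = c • z + crW hF k 2 e)
    (e : Γ → DSub sm cusp k 2)
    (he : ∀ g, crW hF k 2 (e g) = trW hF k 3 g z - (ω g : k) • z)
    (φ : EQf sm cusp χ 2 →ₗ[k] k) (hφ : ∀ c : EQf sm cusp χ 1, φ (crF hF χ 1 c) = 0)
    (ξ : Ξ) (hfull : WFull Γ sm cusp ξ)
    (h0 : ∀ g ∈ stabilizer Γ ξ, φ (avF hF χ 2 (e g)) = 0)
    {β : V → V → k} (hβ : IsBd cusp χ β)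
    (hs : ∀ x y, β x y ≠ 0 → ∃ g : Γ, cusp x = some (g • ξ))
    (c : EQf sm cusp χ 2) (hc : c.1 = cr sm (bl sm β)) : φ c = 0 := by
  obtain ⟨T₁, hT₁⟩ := exists_transfer (sm := sm) (cusp := cusp) hF hT χ (stabilizer Γ ξ) 1
  obtain ⟨T₂, hT₂⟩ := exists_transfer (sm := sm) (cusp := cusp) hF hT χ (stabilizer Γ ξ) 2
  have hTP := WfS3_tfree hT (stabilizer Γ ξ)
  have hφ' : ∀ c : EQf sm cusp (χ.comp (stabilizer Γ ξ).subtype) 1,
      (φ.comp T₂) (crF (hF.sub (stabilizer Γ ξ)) (χ.comp (stabilizer Γ ξ).subtype) 1 c) = 0 := by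
    intro c
    obtain ⟨f, rfl⟩ := avF_surj (hF.sub (stabilizer Γ ξ)) hTP (χ.comp (stabilizer Γ ξ).subtype) 1 c
    rw [crF_avF, LinearMap.comp_apply, hT₂]
    have h1 : crW (hF.sub (stabilizer Γ ξ)) k 1 f = crW hF k 1 f := rfl
    rw [h1, ← crF_avF]
    exact hφ _
  have hmem : cr sm (bl sm (bP cusp ξ β)) ∈ EQf sm cusp (χ.comp (stabilizer Γ ξ).subtype) 2 := by
    refine cr_bl_memF (hF.sub (stabilizer Γ ξ)) (ι := Unit) (fun _ => ξ) (fun _ => hfull.stab)
      (bP_isBd hF hβ ξ) ?_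
    intro x y hxy
    refine ⟨(), 1, ?_⟩
    rw [one_smul]
    by_contra h
    exact hxy (if_neg fun h' => h h'.1)
  have hc' : crF (hF.sub (stabilizer Γ ξ)) (χ.comp (stabilizer Γ ξ).subtype) 2
      ⟨_, hmem⟩ = 0 := Subtype.ext (cr_cr _)
  have key := dual_principalW (hF.sub (stabilizer Γ ξ)) hTP (χ.comp (stabilizer Γ ξ).subtype)
    (ω.comp (stabilizer Γ ξ).subtype) z hz hz' (fun g => e g) (fun g => he g) (φ.comp T₂) hφ' 0
    (fun g => by
      rw [mul_zero, LinearMap.comp_apply, hT₂]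
      exact h0 g g.2) ⟨_, hmem⟩ hc'
  have hTc : T₂ ⟨_, hmem⟩ = c := by
    obtain ⟨f', hf'⟩ := avF_surj (hF.sub (stabilizer Γ ξ)) hTP (χ.comp (stabilizer Γ ξ).subtype) 2
      ⟨_, hmem⟩
    rw [← hf', hT₂]
    apply Subtype.ext
    funext l
    show av χ f'.1 l = c.1 l
    have h2 : av (χ.comp (stabilizer Γ ξ).subtype) f'.1 = cr sm (bl sm (bP cusp ξ β)) :=
      congrArg Subtype.val hf'
    rw [av_quot hF χ (stabilizer Γ ξ) f'.2 l, h2, hc, cr_bl_quot hF hβ ξ hs l]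
  rw [LinearMap.comp_apply, hTc] at key
  exact key

end RCan
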